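import Pool.Agent.QP.St

/-!
# Quarter periods: the auxiliary function
-/

set_option autoImplicit false

open Complex Filter Polynomial
open scoped Topology BigOperators

namespace Pool.Agent.QP

private theorem AUX_off (D : Dat) (a b : ℤ) {z : ℂ} (hz : z ∈ Metric.ball (D.pt a b) D.eps) :
    ∀ m n : ℤ, z ≠ D.v * (m + n * D.tau) := by
  intro m n
  have h2 := D.off a b (z - D.pt a b)
    (by rw [← dist_eq_norm]; exact (Metric.mem_ball.1 hz).le) m n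
  have h3 : (D.v / 2 + D.v * (a + b * D.tau) + (z - D.pt a b) : ℂ) = z := by
    unfold Dat.pt
    ring
  rwa [h3] at h2

private theorem AUX_cP (D : Dat) (a b : ℤ) (t : ℕ) : ContDiffAt ℂ t D.P (D.pt a b) := by
  have hd : DifferentiableOn ℂ D.P (Metric.ball (D.pt a b) D.eps) := fun z hz =>
    (D.dP z (AUX_off D a b hz)).differentiableAt.differentiableWithinAt
  exact (hd.analyticAt (Metric.ball_mem_nhds _ D.heps)).contDiffAt

private theorem AUX_cZ (D : Dat) (a b : ℤ) (t : ℕ) : ContDiffAt ℂ t D.Z (D.pt a b) := by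
  have hd : DifferentiableOn ℂ D.Z (Metric.ball (D.pt a b) D.eps) := fun z hz =>
    (D.dZ z (AUX_off D a b hz)).differentiableAt.differentiableWithinAt
  exact (hd.analyticAt (Metric.ball_mem_nhds _ D.heps)).contDiffAt

private theorem AUX_term (D : Dat) (a b : ℤ) (t i j k : ℕ) :
    ContDiffAt ℂ t (fun z : ℂ => z ^ i * D.P z ^ j * D.Z z ^ k) (D.pt a b) :=
  ((contDiffAt_id.pow i).mul ((AUX_cP D a b t).pow j)).mul ((AUX_cZ D a b t).pow k)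

private theorem AUX_deriv (D : Dat) (n t : ℕ) (f : ℕ → ℕ → ℕ → ℂ) (a b : ℤ) :
    iteratedDeriv t (D.fn n f) (D.pt a b) =
      ∑ i ∈ Finset.range (n + 1), ∑ j ∈ Finset.range (n + 1), ∑ k ∈ Finset.range (n + 1),
        f i j k * iteratedDeriv t (fun z : ℂ => z ^ i * D.P z ^ j * D.Z z ^ k) (D.pt a b) := by
  have h0 : ∀ i j k, ContDiffAt ℂ t
      (fun z : ℂ => f i j k * (z ^ i * D.P z ^ j * D.Z z ^ k)) (D.pt a b) :=
    fun i j k => contDiffAt_const.mul (AUX_term D a b t i j k)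
  have h1 : ∀ i j, ContDiffAt ℂ t
      (fun z : ℂ => ∑ k ∈ Finset.range (n + 1), f i j k * (z ^ i * D.P z ^ j * D.Z z ^ k))
      (D.pt a b) := fun i j => ContDiffAt.sum fun k _ => h0 i j k
  have h2 : ∀ i, ContDiffAt ℂ t
      (fun z : ℂ => ∑ j ∈ Finset.range (n + 1), ∑ k ∈ Finset.range (n + 1),
        f i j k * (z ^ i * D.P z ^ j * D.Z z ^ k)) (D.pt a b) :=
    fun i => ContDiffAt.sum fun j _ => h1 i j
  have h3 : D.fn n f = fun z : ℂ => ∑ i ∈ Finset.range (n + 1), ∑ j ∈ Finset.range (n + 1),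
      ∑ k ∈ Finset.range (n + 1), f i j k * (z ^ i * D.P z ^ j * D.Z z ^ k) := rfl
  rw [h3, iteratedDeriv_fun_sum fun i _ => h2 i]
  refine Finset.sum_congr rfl fun i _ => ?_
  rw [iteratedDeriv_fun_sum fun j _ => h1 i j]
  refine Finset.sum_congr rfl fun j _ => ?_
  rw [iteratedDeriv_fun_sum fun k _ => h0 i j k]
  refine Finset.sum_congr rfl fun k _ => ?_
  exact iteratedDeriv_const_mul_field (f i j k) _

private theorem AUX_mono {d s s' : ℝ} (h : s ≤ s') {G : MvPolynomial (Fin 2) ℤ} (hG : Bd d s G) :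
    Bd d s' G := ⟨hG.1, fun e => (hG.2 e).trans (Real.exp_le_exp.2 h)⟩

private theorem AUX_zero {d s : ℝ} (hd : 0 ≤ d) : Bd d s 0 := by
  refine ⟨fun i => ?_, fun e => ?_⟩
  · rw [MvPolynomial.degreeOf_zero]
    simpa using hd
  · rw [MvPolynomial.coeff_zero]
    simpa using (Real.exp_pos s).le

private theorem AUX_cnt (C E : ℕ) (hC : 1 ≤ C) (hE : 4 * C ≤ E) :
    C * (E ^ 6 * ((2 * (E ^ 3 / (8 * C)) + 1) * (2 * (E ^ 3 / (8 * C)) + 1)) +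
      E ^ 6 * ((2 * (E ^ 3 / (8 * C)) + 1) * (2 * (E ^ 3 / (8 * C)) + 1))) ≤
      (E ^ 4 + 1) * ((E ^ 4 + 1) * (E ^ 4 + 1)) := by
  have hS : E ^ 3 / (8 * C) * (8 * C) ≤ E ^ 3 := Nat.div_mul_le_self _ _
  generalize E ^ 3 / (8 * C) = S at hS ⊢
  have hE1 : 1 ≤ E := by omega
  have h4 : 4 * C ≤ E ^ 3 := by
    refine hE.trans ?_
    calc E = E ^ 1 := (pow_one E).symm
      _ ≤ E ^ 3 := Nat.pow_le_pow_right hE1 (by norm_num)
  have hq : (2 * S + 1) * (2 * C) ≤ E ^ 3 := by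
    have h5 : 2 * ((2 * S + 1) * (2 * C)) = S * (8 * C) + 4 * C := by ring
    omega
  generalize 2 * S + 1 = q at hq ⊢
  have h6 : 2 * C * (q * q) ≤ E ^ 6 := by
    calc 2 * C * (q * q) ≤ (2 * C) * (2 * C * (q * q)) :=
          Nat.le_mul_of_pos_left _ (by omega)
      _ = (q * (2 * C)) * (q * (2 * C)) := by ring
      _ ≤ E ^ 3 * E ^ 3 := Nat.mul_le_mul hq hq
      _ = E ^ 6 := by ring
  calc C * (E ^ 6 * (q * q) + E ^ 6 * (q * q)) = E ^ 6 * (2 * C * (q * q)) := by ring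
    _ ≤ E ^ 6 * E ^ 6 := Nat.mul_le_mul_left _ h6
    _ = E ^ 4 * (E ^ 4 * E ^ 4) := by ring
    _ ≤ (E ^ 4 + 1) * ((E ^ 4 + 1) * (E ^ 4 + 1)) :=
        Nat.mul_le_mul (Nat.le_succ _) (Nat.mul_le_mul (Nat.le_succ _) (Nat.le_succ _))

private theorem AUX_log (E : ℝ) (hE : 2 ≤ E) (k : ℕ) (x : ℝ) (hx : 0 < x) (h : x ≤ E ^ k) :
    Real.log x ≤ k * E := by
  have h1 : Real.log x ≤ Real.log (E ^ k) := Real.log_le_log hx h
  rw [Real.log_pow] at h1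
  refine h1.trans ?_
  have h2 : Real.log E ≤ E := by
    have := Real.log_le_sub_one_of_pos (show 0 < E by linarith)
    linarith
  exact mul_le_mul_of_nonneg_left h2 (Nat.cast_nonneg k)

private theorem AUX_H (E : ℝ) (hE : 2 ≤ E) (S : ℝ) (hS0 : 0 ≤ S) (hS : S ≤ E ^ 3) :
    E ^ 6 * Real.log (E ^ 6 + 2) + E ^ 4 * Real.log (S + 2) ≤ 14 * E ^ 7 := by
  have h6 : (64 : ℝ) ≤ E ^ 6 := by
    calc (64 : ℝ) = 2 ^ 6 := by norm_num
      _ ≤ E ^ 6 := pow_le_pow_left₀ (by norm_num) hE 6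
  have h3 : (8 : ℝ) ≤ E ^ 3 := by
    calc (8 : ℝ) = 2 ^ 3 := by norm_num
      _ ≤ E ^ 3 := pow_le_pow_left₀ (by norm_num) hE 3
  have h7 : 2 * E ^ 6 ≤ E ^ 7 := by
    have : E ^ 7 = E * E ^ 6 := by ring
    rw [this]
    exact mul_le_mul_of_nonneg_right hE (by positivity)
  have h4 : 2 * E ^ 3 ≤ E ^ 4 := by
    have : E ^ 4 = E * E ^ 3 := by ring
    rw [this]
    exact mul_le_mul_of_nonneg_right hE (by positivity)
  have h1E : (1 : ℝ) ≤ E := by linarith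
  have h47 : E ^ 4 ≤ E ^ 7 := pow_le_pow_right₀ h1E (by norm_num)
  have h57 : E ^ 5 ≤ E ^ 7 := pow_le_pow_right₀ h1E (by norm_num)
  have l1 : Real.log (E ^ 6 + 2) ≤ (7 : ℕ) * E := AUX_log E hE 7 _ (by positivity) (by linarith)
  have l2 : Real.log (S + 2) ≤ (7 : ℕ) * E := AUX_log E hE 7 _ (by positivity) (by linarith)
  have m1 : E ^ 6 * Real.log (E ^ 6 + 2) ≤ E ^ 6 * ((7 : ℕ) * E) :=
    mul_le_mul_of_nonneg_left l1 (by positivity)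
  have m2 : E ^ 4 * Real.log (S + 2) ≤ E ^ 4 * ((7 : ℕ) * E) :=
    mul_le_mul_of_nonneg_left l2 (by positivity)
  have e1 : E ^ 6 * ((7 : ℕ) * E) = 7 * E ^ 7 := by push_cast; ring
  have e2 : E ^ 4 * ((7 : ℕ) * E) = 7 * E ^ 5 := by push_cast; ring
  rw [e1] at m1
  rw [e2] at m2
  linarith

private theorem AUX_N (E : ℝ) (hE : 2 ≤ E) :
    Real.log ((E ^ 4 + 1) * ((E ^ 4 + 1) * (E ^ 4 + 1))) ≤ 15 * E ^ 7 := by
  have h4 : (16 : ℝ) ≤ E ^ 4 := by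
    calc (16 : ℝ) = 2 ^ 4 := by norm_num
      _ ≤ E ^ 4 := pow_le_pow_left₀ (by norm_num) hE 4
  have h5 : 2 * E ^ 4 ≤ E ^ 5 := by
    have : E ^ 5 = E * E ^ 4 := by ring
    rw [this]
    exact mul_le_mul_of_nonneg_right hE (by positivity)
  have h6 : E ^ 4 + 1 ≤ E ^ 5 := by linarith
  have h0 : 0 ≤ E ^ 4 + 1 := by positivity
  have h7 : (E ^ 4 + 1) * ((E ^ 4 + 1) * (E ^ 4 + 1)) ≤ E ^ 15 := by
    calc (E ^ 4 + 1) * ((E ^ 4 + 1) * (E ^ 4 + 1)) = (E ^ 4 + 1) ^ 3 := by ring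
      _ ≤ (E ^ 5) ^ 3 := pow_le_pow_left₀ h0 h6 3
      _ = E ^ 15 := by ring
  have h8 := AUX_log E hE 15 _ (by positivity) h7
  refine h8.trans ?_
  have h1E : (1 : ℝ) ≤ E := by linarith
  have h9 : E ^ 1 ≤ E ^ 7 := pow_le_pow_right₀ h1E (by norm_num)
  rw [pow_one] at h9
  push_cast
  linarith

/-- [AUX] the function with many zeros. -/
theorem thm_AUX (hS : St_SGL) (hV : St_VAL) : St_AUX := by
  intro D hT
  obtain ⟨CS, hCS, hSg⟩ := hS D.v D.eta hT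
  obtain ⟨CV, hCV, hVl⟩ := hV D
  have hCS' : (1 : ℝ) ≤ CS := by exact_mod_cast hCS
  refine ⟨CS * (14 * CV + 15), 8 * CS, ?_, by omega, ?_⟩
  · nlinarith
  filter_upwards [eventually_ge_atTop (4 * CS + 2)] with E hE
  have hE2 : 2 ≤ E := by omega
  have hE4 : 4 * CS ≤ E := by omega
  have hE2' : (2 : ℝ) ≤ (E : ℝ) := by exact_mod_cast hE2
  have hE1 : 1 ≤ E := by omega
  have hSle : E ^ 3 / (8 * CS) ≤ E ^ 3 := Nat.div_le_self _ _
  have hcnt := AUX_cnt CS E hCS hE4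
  generalize hSdef : E ^ 3 / (8 * CS) = S at hSle hcnt
  have hSle' : (S : ℝ) ≤ (E : ℝ) ^ 3 := by exact_mod_cast hSle
  -- the conditions
  have key : ∀ (c : Fin (E ^ 6) × Fin (2 * S + 1) × Fin (2 * S + 1))
      (u : Fin (E ^ 4 + 1) × Fin (E ^ 4 + 1) × Fin (E ^ 4 + 1)),
      ∃ G₀ G₁ : MvPolynomial (Fin 2) ℤ,
        Bd ((E ^ 4 : ℕ) : ℝ) (CV * (14 * (E : ℝ) ^ 7)) G₀ ∧
        Bd ((E ^ 4 : ℕ) : ℝ) (CV * (14 * (E : ℝ) ^ 7)) G₁ ∧
        4 ^ (E ^ 4) * iteratedDeriv (c.1 : ℕ)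
          (fun z : ℂ => z ^ (u.1 : ℕ) * D.P z ^ (u.2.1 : ℕ) * D.Z z ^ (u.2.2 : ℕ))
          (D.pt (((c.2.1 : ℕ) : ℤ) - S) (((c.2.2 : ℕ) : ℤ) - S)) =
          (val D.v D.eta G₀ : ℂ) + D.tau * (val D.v D.eta G₁ : ℂ) := by
    intro c u
    have hc1 : |((c.2.1 : ℕ) : ℤ) - S| ≤ S := by
      have := c.2.1.2
      rw [abs_le]
      omega
    have hc2 : |((c.2.2 : ℕ) : ℤ) - S| ≤ S := by
      have := c.2.2.2
      rw [abs_le]
      omega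
    obtain ⟨G₀, G₁, h0, h1, h2⟩ := hVl (E ^ 4) (E ^ 6) S (u.1 : ℕ) (u.2.1 : ℕ) (u.2.2 : ℕ)
      (c.1 : ℕ) _ _ (Nat.one_le_pow _ _ hE1) (Nat.pow_le_pow_right hE1 (by norm_num))
      (Nat.lt_succ_iff.1 u.1.2) (Nat.lt_succ_iff.1 u.2.1.2) (Nat.lt_succ_iff.1 u.2.2.2)
      c.1.2 hc1 hc2
    have hle : CV * (((E ^ 6 : ℕ) : ℝ) * Real.log (((E ^ 6 : ℕ) : ℝ) + 2) +
        ((E ^ 4 : ℕ) : ℝ) * Real.log ((S : ℝ) + 2)) ≤ CV * (14 * (E : ℝ) ^ 7) := by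
      refine mul_le_mul_of_nonneg_left ?_ (by linarith)
      have := AUX_H (E : ℝ) hE2' (S : ℝ) (Nat.cast_nonneg S) hSle'
      push_cast
      exact this
    exact ⟨G₀, G₁, AUX_mono hle h0, AUX_mono hle h1, h2⟩
  choose G0 G1 hG0 hG1 hG using key
  let κ : Type := Fin (E ^ 6) × Fin (2 * S + 1) × Fin (2 * S + 1)
  let υ : Type := Fin (E ^ 4 + 1) × Fin (E ^ 4 + 1) × Fin (E ^ 4 + 1)
  have hκ : Fintype.card (κ ⊕ κ) = E ^ 6 * ((2 * S + 1) * (2 * S + 1)) +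
      E ^ 6 * ((2 * S + 1) * (2 * S + 1)) := by
    simp [κ]
  have hυ : Fintype.card υ = (E ^ 4 + 1) * ((E ^ 4 + 1) * (E ^ 4 + 1)) := by
    simp [υ]
  let e : Fin (Fintype.card (κ ⊕ κ)) ≃ κ ⊕ κ := (Fintype.equivFin (κ ⊕ κ)).symm
  let e' : Fin (Fintype.card υ) ≃ υ := (Fintype.equivFin υ).symm
  let GG : κ ⊕ κ → υ → MvPolynomial (Fin 2) ℤ := fun c u => Sum.elim (fun c => G0 c u)
    (fun c => G1 c u) c
  have hGG : ∀ c u, Bd ((E ^ 4 : ℕ) : ℝ) (CV * (14 * (E : ℝ) ^ 7)) (GG c u) := by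
    intro c u
    rcases c with c | c
    · exact hG0 c u
    · exact hG1 c u
  have hD : ((E ^ 4 : ℕ) : ℝ) ≤ CV * (14 * (E : ℝ) ^ 7) := by
    push_cast
    have h1E : (1 : ℝ) ≤ E := by linarith
    have h47 : (E : ℝ) ^ 4 ≤ (E : ℝ) ^ 7 := pow_le_pow_right₀ h1E (by norm_num)
    have h0 : (0 : ℝ) ≤ (E : ℝ) ^ 7 := by positivity
    nlinarith
  obtain ⟨f, hf1, ⟨u0, hu0⟩, hf3⟩ := hSg (Fintype.card υ) (Fintype.card (κ ⊕ κ)) (E ^ 4)
    (CV * (14 * (E : ℝ) ^ 7)) (fun c u => GG (e c) (e' u))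
    (by rw [hυ]; exact Nat.mul_pos (Nat.succ_pos _) (Nat.mul_pos (Nat.succ_pos _) (Nat.succ_pos _)))
    (Nat.one_le_pow _ _ hE1) hD (by rw [hκ, hυ]; exact hcnt) (fun c u => hGG _ _)
  -- the function
  let F : ℕ → ℕ → ℕ → MvPolynomial (Fin 2) ℤ := fun i j k =>
    if h : i < E ^ 4 + 1 ∧ j < E ^ 4 + 1 ∧ k < E ^ 4 + 1 then
      f (e'.symm (⟨i, h.1⟩, ⟨j, h.2.1⟩, ⟨k, h.2.2⟩)) else 0
  have hF : ∀ u : υ, F u.1 u.2.1 u.2.2 = f (e'.symm u) := by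
    intro u
    have h : (u.1 : ℕ) < E ^ 4 + 1 ∧ (u.2.1 : ℕ) < E ^ 4 + 1 ∧ (u.2.2 : ℕ) < E ^ 4 + 1 :=
      ⟨u.1.2, u.2.1.2, u.2.2.2⟩
    simp only [F]
    rw [dif_pos h]
  have hsum : ∀ c : κ ⊕ κ, ∑ u : υ, val D.v D.eta (F u.1 u.2.1 u.2.2) * val D.v D.eta (GG c u) = 0 := by
    intro c
    have h1 := hf3 (e.symm c)
    simp only [Equiv.apply_symm_apply] at h1
    rw [← h1, ← Equiv.sum_comp e']
    refine Finset.sum_congr rfl fun u _ => ?_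
    rw [hF, Equiv.symm_apply_apply]
  refine ⟨F, ?_, ?_, ?_⟩
  · intro i j k
    by_cases h : i < E ^ 4 + 1 ∧ j < E ^ 4 + 1 ∧ k < E ^ 4 + 1
    · have h1 : F i j k = f (e'.symm (⟨i, h.1⟩, ⟨j, h.2.1⟩, ⟨k, h.2.2⟩)) := dif_pos h
      rw [h1]
      have h2 := hf1 (e'.symm (⟨i, h.1⟩, ⟨j, h.2.1⟩, ⟨k, h.2.2⟩))
      have h3 : (CS : ℝ) * (CV * (14 * (E : ℝ) ^ 7) + Real.log (Fintype.card υ : ℕ)) ≤
          CS * (14 * CV + 15) * (E : ℝ) ^ 7 := by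
        have h4 := AUX_N (E : ℝ) hE2'
        have h5 : Real.log ((Fintype.card υ : ℕ) : ℝ) ≤ 15 * (E : ℝ) ^ 7 := by
          rw [hυ]
          push_cast
          exact h4
        calc (CS : ℝ) * (CV * (14 * (E : ℝ) ^ 7) + Real.log (Fintype.card υ : ℕ)) ≤
              CS * (CV * (14 * (E : ℝ) ^ 7) + 15 * (E : ℝ) ^ 7) :=
              mul_le_mul_of_nonneg_left (by linarith) (by linarith)
          _ = CS * (14 * CV + 15) * (E : ℝ) ^ 7 := by ring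
      have h6 := AUX_mono h3 h2
      have h7 : (((E ^ 4 : ℕ) : ℝ)) = (E : ℝ) ^ 4 := by push_cast; ring
      rw [h7] at h6
      exact h6
    · have h1 : F i j k = 0 := dif_neg h
      rw [h1]
      exact AUX_zero (by positivity)
  · refine ⟨(e' u0).1, (e' u0).2.1, (e' u0).2.2, Nat.lt_succ_iff.1 (e' u0).1.2,
      Nat.lt_succ_iff.1 (e' u0).2.1.2, Nat.lt_succ_iff.1 (e' u0).2.2.2, ?_⟩
    rw [hF, Equiv.symm_apply_apply]
    exact hu0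
  · intro a b ha hb t ht
    rw [AUX_deriv]
    have ha' := abs_le.1 ha
    have hb' := abs_le.1 hb
    have haS : (a + S).toNat < 2 * S + 1 := by omega
    have hbS : (b + S).toNat < 2 * S + 1 := by omega
    let c : κ := (⟨t, ht⟩, ⟨(a + S).toNat, haS⟩, ⟨(b + S).toNat, hbS⟩)
    have hca : (((c.2.1 : ℕ) : ℤ) - S) = a := by
      show (((a + S).toNat : ℕ) : ℤ) - S = a
      omega
    have hcb : (((c.2.2 : ℕ) : ℤ) - S) = b := by
      show (((b + S).toNat : ℕ) : ℤ) - S = b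
      omega
    have h4 : (4 : ℂ) ^ (E ^ 4) ≠ 0 := pow_ne_zero _ (by norm_num)
    have hconv : ∑ i ∈ Finset.range (E ^ 4 + 1), ∑ j ∈ Finset.range (E ^ 4 + 1),
        ∑ k ∈ Finset.range (E ^ 4 + 1), (val D.v D.eta (F i j k) : ℂ) *
          iteratedDeriv t (fun z : ℂ => z ^ i * D.P z ^ j * D.Z z ^ k) (D.pt a b) =
        ∑ u : υ, (val D.v D.eta (F u.1 u.2.1 u.2.2) : ℂ) *
          iteratedDeriv t (fun z : ℂ => z ^ (u.1 : ℕ) * D.P z ^ (u.2.1 : ℕ) *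
            D.Z z ^ (u.2.2 : ℕ)) (D.pt a b) := by
      rw [Fintype.sum_prod_type, Finset.sum_range]
      refine Finset.sum_congr rfl fun i _ => ?_
      rw [Fintype.sum_prod_type, Finset.sum_range]
      refine Finset.sum_congr rfl fun j _ => ?_
      rw [Finset.sum_range]
    rw [hconv]
    refine (mul_eq_zero.1 (?_ : (4 : ℂ) ^ (E ^ 4) * _ = 0)).resolve_left h4
    rw [Finset.mul_sum]
    have h5 : ∀ u : υ, (4 : ℂ) ^ (E ^ 4) * ((val D.v D.eta (F u.1 u.2.1 u.2.2) : ℂ) *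
        iteratedDeriv t (fun z : ℂ => z ^ (u.1 : ℕ) * D.P z ^ (u.2.1 : ℕ) *
            D.Z z ^ (u.2.2 : ℕ)) (D.pt a b)) =
        ((val D.v D.eta (F u.1 u.2.1 u.2.2) * val D.v D.eta (GG (Sum.inl c) u) : ℝ) : ℂ) +
        D.tau * ((val D.v D.eta (F u.1 u.2.1 u.2.2) * val D.v D.eta (GG (Sum.inr c) u) : ℝ) : ℂ) := by
      intro u
      have h6 := hG c u
      rw [hca, hcb] at h6
      have h7 : (4 : ℂ) ^ (E ^ 4) * iteratedDeriv t (fun z : ℂ => z ^ (u.1 : ℕ) *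
          D.P z ^ (u.2.1 : ℕ) * D.Z z ^ (u.2.2 : ℕ)) (D.pt a b) =
          (val D.v D.eta (G0 c u) : ℂ) + D.tau * (val D.v D.eta (G1 c u) : ℂ) := h6
      have h8 : (4 : ℂ) ^ (E ^ 4) * ((val D.v D.eta (F u.1 u.2.1 u.2.2) : ℂ) *
        iteratedDeriv t (fun z : ℂ => z ^ (u.1 : ℕ) * D.P z ^ (u.2.1 : ℕ) *
            D.Z z ^ (u.2.2 : ℕ)) (D.pt a b)) = (val D.v D.eta (F u.1 u.2.1 u.2.2) : ℂ) *
          ((4 : ℂ) ^ (E ^ 4) * iteratedDeriv t (fun z : ℂ => z ^ (u.1 : ℕ) *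
          D.P z ^ (u.2.1 : ℕ) * D.Z z ^ (u.2.2 : ℕ)) (D.pt a b)) := by ring
      rw [h8, h7]
      have h9 : GG (Sum.inl c) u = G0 c u := rfl
      have h10 : GG (Sum.inr c) u = G1 c u := rfl
      rw [h9, h10]
      push_cast
      ring
    rw [Finset.sum_congr rfl fun u _ => h5 u, Finset.sum_add_distrib, ← Finset.mul_sum,
      ← Complex.ofReal_sum, ← Complex.ofReal_sum, hsum, hsum]
    simp

end Pool.Agent.QP
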