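import Pool.Agent.QP.St

/-!
# Quarter periods, module CHU: Chudnovsky's theorem from the data (helper43)
-/

set_option autoImplicit false

namespace Pool.Agent.QP

private theorem CHU_im (D : Dat) : D.tau.im ^ 2 = 1 ∨ D.tau.im ^ 2 = 3 / 4 := by
  have h0 := D.him
  rcases D.htau with h | h
  · left
    have h1 := congrArg Complex.re h
    have h2 := congrArg Complex.im h
    rw [pow_two] at h1 h2
    simp only [Complex.mul_re, Complex.mul_im, Complex.neg_re, Complex.neg_im, Complex.one_re,
      Complex.one_im] at h1 h2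
    have h4 : D.tau.re * D.tau.im = 0 := by linarith
    have h3 : D.tau.re = 0 := (mul_eq_zero.1 h4).resolve_right h0.ne'
    rw [h3] at h1
    linarith
  · right
    have h1 := congrArg Complex.re h
    have h2 := congrArg Complex.im h
    rw [pow_two] at h1 h2
    simp only [Complex.mul_re, Complex.mul_im, Complex.neg_re, Complex.neg_im, Complex.one_re,
      Complex.one_im, Complex.sub_re, Complex.sub_im] at h1 h2
    have h4 : (2 * D.tau.re + 1) * D.tau.im = 0 := by linarith
    have h3 : D.tau.re = -1 / 2 := by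
      have h5 := (mul_eq_zero.1 h4).resolve_right h0.ne'
      linarith
    rw [h3] at h1
    linarith

private theorem CHU_alg {y : ℝ} {q : ℚ} (h : y ^ 2 = (q : ℝ)) : IsAlgebraic ℚ y := by
  refine IsAlgebraic.of_pow two_pos ?_
  rw [h]
  exact isAlgebraic_algebraMap (A := ℝ) q

private theorem CHU_core (hI : St_IND) (hT : St_TRD) (D : Dat) (x a : ℝ) (ha : IsAlgebraic ℚ a)
    (ha0 : a ≠ 0) (hx : x = a * D.v) : AlgebraicIndependent ℚ ![x, Real.pi] := by
  have hb : IsAlgebraic ℚ D.tau.im := by
    rcases CHU_im D with h | h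
    · exact CHU_alg (q := 1) (by rw [h, Rat.cast_one])
    · exact CHU_alg (q := 3 / 4) (by rw [h]; norm_num)
  have h1 := hT D.v D.eta a D.tau.im (hI D) ha hb ha0 D.him.ne'
  have h2 : D.tau.im * (D.v * D.eta) = Real.pi := by
    rw [← D.leg]
    ring
  have h3 : ![x, Real.pi] = ![a * D.v, D.tau.im * (D.v * D.eta)] := by rw [hx, h2]
  rw [h3]
  exact h1

/-- Chudnovsky's theorem -/
theorem thm_CHU (h4 : St_DAT4) (h6 : St_DAT6) (hI : St_IND) (hT : St_TRD) : St_CHU := by
  rintro N (rfl | rfl)
  · obtain ⟨D, hD⟩ := h4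
    refine CHU_core hI hT D _ 2 ?_ two_ne_zero (by rw [hD]; ring)
    exact CHU_alg (q := 4) (by norm_num)
  · obtain ⟨D, hD⟩ := h6
    have h3 : (0 : ℝ) < √3 := Real.sqrt_pos.2 (by norm_num)
    refine CHU_core hI hT D _ (√3) ?_ h3.ne' (by rw [hD]; field_simp)
    exact CHU_alg (q := 3) (by rw [Real.sq_sqrt (by norm_num)]; norm_num)

end Pool.Agent.QP
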