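import Pool.Agent.QP.St

/-!
# Quarter periods, module EXT: the extension data
-/

set_option autoImplicit false

open Polynomial

namespace Pool.Agent.QP

private lemma EXT_alg (x y : ℝ) (h : ¬ AlgebraicIndependent ℚ ![x, y]) :
    ∃ q : ℤ[X][X], q ≠ 0 ∧ eval₂ (aeval x : ℤ[X] →ₐ[ℤ] ℝ).toRingHom y q = 0 := by
  have hZQ : Algebra.IsAlgebraic ℤ ℚ := IsLocalization.isAlgebraic ℚ (nonZeroDivisors ℤ)
  have h1 : ¬ AlgebraicIndependent ℤ ![x, y] := fun h' => h (h'.extendScalars ℚ)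
  rw [algebraicIndependent_iff] at h1
  push Not at h1
  obtain ⟨p, hp, hp0⟩ := h1
  set Ps : MvPolynomial (Fin 2) ℤ →+* ℤ[X][X] :=
    MvPolynomial.eval₂Hom (Int.castRingHom _) ![C X, X] with hPs
  set La : ℤ[X][X] →+* MvPolynomial (Fin 2) ℤ :=
    eval₂RingHom (aeval (MvPolynomial.X 0) : ℤ[X] →ₐ[ℤ] MvPolynomial (Fin 2) ℤ).toRingHom
      (MvPolynomial.X 1) with hLa
  have h2 : La.comp Ps = RingHom.id _ := by
    refine MvPolynomial.ringHom_ext (fun r => ?_) fun i => ?_
    · simp [hPs, hLa]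
    · fin_cases i <;> simp [hPs, hLa]
  have h3 : ((eval₂RingHom (aeval x : ℤ[X] →ₐ[ℤ] ℝ).toRingHom y).comp Ps) =
      (MvPolynomial.aeval ![x, y] : MvPolynomial (Fin 2) ℤ →ₐ[ℤ] ℝ).toRingHom := by
    refine MvPolynomial.ringHom_ext (fun r => ?_) fun i => ?_
    · simp [hPs]
    · fin_cases i <;> simp [hPs]
  refine ⟨Ps p, fun h4 => hp0 ?_, ?_⟩
  · have := RingHom.congr_fun h2 p
    rw [RingHom.comp_apply, h4, map_zero] at this
    exact this.symm
  · have := RingHom.congr_fun h3 p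
    simpa [hp] using this

/-- the extension data -/
theorem thm_EXT : St_EXT := by
  intro x y hx hxy
  let alg : Algebra ℤ[X] ℝ := (aeval x : ℤ[X] →ₐ[ℤ] ℝ).toRingHom.toAlgebra
  have halg : ∀ p : ℤ[X], algebraMap ℤ[X] ℝ p = aeval x p := fun p => rfl
  have hxZ : Transcendental ℤ x := fun h => hx (h.extendScalars (algebraMap ℤ ℚ).injective_int)
  have hinj : Function.Injective (algebraMap ℤ[X] ℝ) := (transcendental_iff_injective.1 hxZ)
  have : FaithfulSMul ℤ[X] ℝ := (faithfulSMul_iff_algebraMap_injective ℤ[X] ℝ).2 hinj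
  obtain ⟨q, hq, hq0⟩ := EXT_alg x y hxy
  have hyalg : IsAlgebraic ℤ[X] y := ⟨q, hq, hq0⟩
  obtain ⟨a, ha, hint⟩ := hyalg.exists_integral_multiple
  set y' : ℝ := a • y with hy'
  have hy'e : y' = aeval x a * y := by rw [hy', Algebra.smul_def, halg]
  set pb := Algebra.adjoin.powerBasis' hint with hpb
  have hgen : (pb.gen : ℝ) = y' := by
    rw [hpb, Algebra.adjoin.powerBasis'_gen]
  have hbas : ∀ i : Fin pb.dim, ((pb.basis i : Algebra.adjoin ℤ[X] {y'}) : ℝ) = y' ^ (i : ℕ) := by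
    intro i
    rw [pb.basis_eq_pow, Subalgebra.coe_pow, hgen]
  have hsm : ∀ (r : ℤ[X]) (w : Algebra.adjoin ℤ[X] {y'}),
      ((r • w : Algebra.adjoin ℤ[X] {y'}) : ℝ) = aeval x r * (w : ℝ) := fun r w =>
    Algebra.smul_def r (w : ℝ)
  refine ⟨pb.dim, a, (Algebra.leftMulMatrix pb.basis pb.gen).transpose, hx, pb.dim_pos, ?_, ?_, ?_⟩
  · intro h
    exact ha (hinj (by rw [map_zero]; exact h))
  · intro i
    have h1 : ∑ j, (Algebra.leftMulMatrix pb.basis pb.gen) j i • pb.basis j =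
        pb.gen * pb.basis i := by
      simp only [Algebra.leftMulMatrix_eq_repr_mul]
      exact pb.basis.sum_repr _
    have h2 := congrArg (fun z : Algebra.adjoin ℤ[X] {y'} => (z : ℝ)) h1
    simp only [AddSubmonoidClass.coe_finsetSum, hsm, Subalgebra.coe_mul, hgen, hbas] at h2
    rw [← hy'e, pow_succ']
    exact h2
  · intro r hr
    rw [← hy'e] at hr
    set z : Algebra.adjoin ℤ[X] {y'} := ∑ i : Fin pb.dim, r i • pb.gen ^ (i : ℕ) with hz
    have hz0 : z ≠ 0 := by
      intro h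
      apply hr
      have h2 := congrArg (fun z : Algebra.adjoin ℤ[X] {y'} => (z : ℝ)) h
      simp only [hz, AddSubmonoidClass.coe_finsetSum, hsm, Subalgebra.coe_pow,
        hgen, ZeroMemClass.coe_zero] at h2
      exact h2
    have h3 : (∑ i : Fin pb.dim, r i • (Algebra.leftMulMatrix pb.basis pb.gen).transpose ^ (i : ℕ)) =
        (Algebra.leftMulMatrix pb.basis z).transpose := by
      rw [hz, map_sum, Matrix.transpose_sum]
      refine Finset.sum_congr rfl fun i _ => ?_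
      rw [map_smul, map_pow, Matrix.transpose_smul, Matrix.transpose_pow]
    rw [h3, Matrix.det_transpose, ← Algebra.norm_eq_matrix_det]
    exact (Algebra.norm_ne_zero_iff_of_basis pb.basis).2 hz0

end Pool.Agent.QP
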