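import Pool.Agent.KT.GelK
import Pool.Agent.KT.StC

/-!
# Gelfond's criterion for integral polynomials in the form `St_GELFZ`
-/

set_option autoImplicit false

open Filter Polynomial

namespace Pool.Agent.QP

open Pool.Agent.KT

theorem thm_GELFZ : St_GELFZ := by
  intro x a d s B N₀ hx hg hB hex
  choose! P hP0 hPd hPs hPx using hex
  have hdm : Monotone fun N => d (N + N₀) := by
    refine monotone_nat_of_le_succ fun N => ?_
    have h := hg.dmono (N + N₀) (Nat.le_add_left _ _)
    rw [show N + N₀ + 1 = N + 1 + N₀ by omega] at h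
    exact h
  have hsm : Monotone fun N => 2 * s (N + N₀) := by
    refine monotone_nat_of_le_succ fun N => ?_
    have h := hg.smono (N + N₀) (Nat.le_add_left _ _)
    rw [show N + N₀ + 1 = N + 1 + N₀ by omega] at h
    linarith
  have hxZ : Transcendental ℤ x := fun h => hx (h.extendScalars (algebraMap ℤ ℚ).injective_int)
  refine gel_int x hxZ (fun N => d (N + N₀)) (fun N => 2 * s (N + N₀)) (fun N => B (N + N₀) / 2) a
    (fun N => hg.one_le _ (Nat.le_add_left _ _)) hdm hsm (fun N => ?_) (fun N => ?_) (fun N => ?_)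
    ?_ ?_ (fun N => P (N + N₀)) 0 (fun N _ => hP0 _ (Nat.le_add_left _ _))
    (fun N _ => hPd _ (Nat.le_add_left _ _)) (fun N _ => ?_) (fun N _ => ?_)
  · have h1 := hg.one_le (N + N₀) (Nat.le_add_left _ _)
    have h2 := hg.le (N + N₀) (Nat.le_add_left _ _)
    linarith
  · have h := hg.dgrow (N + N₀) (Nat.le_add_left _ _)
    rw [show N + N₀ + 1 = N + 1 + N₀ by omega] at h
    exact h
  · have h := hg.sgrow (N + N₀) (Nat.le_add_left _ _)
    rw [show N + N₀ + 1 = N + 1 + N₀ by omega] at h
    linarith
  · exact (hg.stend.comp (tendsto_add_atTop_nat N₀)).const_mul_atTop two_pos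
  · exact (hB.comp (tendsto_add_atTop_nat N₀)).atTop_div_const two_pos
  · refine mahler_le_exp (cx (P (N + N₀))) (hg.le _ (Nat.le_add_left _ _)) ?_ fun i => ?_
    · rw [cx_deg]
      exact hPd _ (Nat.le_add_left _ _)
    · rw [coeff_map, eq_intCast, Complex.norm_intCast]
      exact hPs _ (Nat.le_add_left _ _) i
  · have h := hPx (N + N₀) (Nat.le_add_left _ _)
    have e1 : vl x (P (N + N₀)) = ‖aeval x (P (N + N₀))‖ := by
      unfold vl cx
      rw [eval_map, aeval_def]
      rfl
    rw [e1]
    refine h.trans (le_of_eq ?_)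
    congr 1
    ring

end Pool.Agent.QP
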