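import Pool.Agent.QP.St
import Pool.Agent.KT.StC

/-!
# Quarter periods, module GL2: Gelfond's criterion in a field of transcendence degree one
-/

set_option autoImplicit false

open Complex Filter Polynomial
open scoped Topology BigOperators

namespace Pool.Agent.QP

private theorem GL2_bd {d d' s s' : ℝ} (hd : d ≤ d') (hs : s ≤ s') {G : MvPolynomial (Fin 2) ℤ}
    (h : Bd d s G) : Bd d' s' G :=
  ⟨fun i => (h.1 i).trans hd, fun e => (h.2 e).trans (Real.exp_le_exp.2 hs)⟩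

private theorem GL2_main (hE : St_EXT) (hN : St_NRM) (hG : Pool.Agent.KT.St_GELFZ) {x y : ℝ}
    (hx : Transcendental ℚ x) (hxy : ¬ AlgebraicIndependent ℚ ![x, y]) {C : ℝ} (hC : 1 ≤ C)
    (h : ∀ᶠ E : ℕ in atTop, ∃ G : MvPolynomial (Fin 2) ℤ, Bd (C * E ^ 4) (C * E ^ 7) G ∧
      val x y G ≠ 0 ∧ |val x y G| ≤ Real.exp (-(E ^ 12 / C))) : False := by
  obtain ⟨m, a, M, hM⟩ := hE x y hx hxy
  obtain ⟨C1, hC1, hQ⟩ := hN x y m a M hM
  obtain ⟨N1, hN1⟩ := eventually_atTop.1 h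
  have hC0 : 0 < C := lt_of_lt_of_le one_pos hC
  have hC10 : 0 < C1 := lt_of_lt_of_le one_pos hC1
  obtain ⟨K, hK⟩ : ∃ K : ℝ, K = 2 * C * C1 := ⟨_, rfl⟩
  have hK1 : 1 ≤ K := by
    rw [hK]
    nlinarith [mul_le_mul hC hC1 zero_le_one hC0.le]
  have hK0 : 0 < K := lt_of_lt_of_le one_pos hK1
  obtain ⟨N2, hN2⟩ := exists_nat_ge (2 * C * K)
  have hN0 : ∀ N : ℕ, max (max N1 N2) 1 ≤ N → N1 ≤ N ∧ 2 * C * K ≤ N ∧ 1 ≤ N := by
    intro N hN
    have h1 : N1 ≤ N := le_trans (le_trans (le_max_left _ _) (le_max_left _ _)) hN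
    have h2 : N2 ≤ N := le_trans (le_trans (le_max_right _ _) (le_max_left _ _)) hN
    have h3 : 1 ≤ N := le_trans (le_max_right _ _) hN
    exact ⟨h1, hN2.trans (by exact_mod_cast h2), h3⟩
  refine hG (x : ℂ) 128 (fun N => K * N ^ 4) (fun N => K * N ^ 7)
    (fun N => N / (2 * C * K ^ 2)) (max (max N1 N2) 1) ?_ ?_ ?_ ?_
  · exact (transcendental_algebraMap_iff (algebraMap ℝ ℂ).injective).2 hx
  · have key : ∀ N : ℕ, max (max N1 N2) 1 ≤ N → (1 : ℝ) ≤ N := fun N hN => by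
      exact_mod_cast (hN0 N hN).2.2
    refine ⟨?_, ?_, ?_, ?_, ?_, ?_, ?_⟩
    · intro N hN
      have h1 : (1 : ℝ) ≤ (N : ℝ) ^ 4 := one_le_pow₀ (key N hN)
      show 1 ≤ K * (N : ℝ) ^ 4
      nlinarith
    · intro N hN
      show K * (N : ℝ) ^ 4 ≤ K * (N : ℝ) ^ 7
      exact mul_le_mul_of_nonneg_left (pow_le_pow_right₀ (key N hN) (by norm_num)) hK0.le
    · intro N hN
      show K * (N : ℝ) ^ 4 ≤ K * ((N + 1 : ℕ) : ℝ) ^ 4
      refine mul_le_mul_of_nonneg_left (pow_le_pow_left₀ (Nat.cast_nonneg _) ?_ 4) hK0.le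
      exact_mod_cast Nat.le_succ N
    · intro N hN
      show K * (N : ℝ) ^ 7 ≤ K * ((N + 1 : ℕ) : ℝ) ^ 7
      refine mul_le_mul_of_nonneg_left (pow_le_pow_left₀ (Nat.cast_nonneg _) ?_ 7) hK0.le
      exact_mod_cast Nat.le_succ N
    · intro N hN
      show K * ((N + 1 : ℕ) : ℝ) ^ 4 ≤ 128 * (K * (N : ℝ) ^ 4)
      have h1 : ((N + 1 : ℕ) : ℝ) ≤ 2 * N := by
        push_cast
        linarith [key N hN]
      have h2 : ((N + 1 : ℕ) : ℝ) ^ 4 ≤ (2 * N) ^ 4 := pow_le_pow_left₀ (Nat.cast_nonneg _) h1 4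
      have h3 : (0 : ℝ) ≤ (N : ℝ) ^ 4 := by positivity
      have h4 : K * ((N + 1 : ℕ) : ℝ) ^ 4 ≤ K * (2 * N) ^ 4 := mul_le_mul_of_nonneg_left h2 hK0.le
      have h5 : K * (2 * (N : ℝ)) ^ 4 = 16 * (K * (N : ℝ) ^ 4) := by ring
      have h6 : 0 ≤ K * (N : ℝ) ^ 4 := mul_nonneg hK0.le h3
      linarith
    · intro N hN
      show K * ((N + 1 : ℕ) : ℝ) ^ 7 ≤ 128 * (K * (N : ℝ) ^ 7)
      have h1 : ((N + 1 : ℕ) : ℝ) ≤ 2 * N := by
        push_cast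
        linarith [key N hN]
      have h2 : ((N + 1 : ℕ) : ℝ) ^ 7 ≤ (2 * N) ^ 7 := pow_le_pow_left₀ (Nat.cast_nonneg _) h1 7
      have h4 : K * ((N + 1 : ℕ) : ℝ) ^ 7 ≤ K * (2 * N) ^ 7 := mul_le_mul_of_nonneg_left h2 hK0.le
      have h5 : K * (2 * (N : ℝ)) ^ 7 = 128 * (K * (N : ℝ) ^ 7) := by ring
      linarith
    · show Tendsto (fun N : ℕ => K * (N : ℝ) ^ 7) atTop atTop
      exact ((tendsto_pow_atTop (by norm_num)).comp tendsto_natCast_atTop_atTop).const_mul_atTop hK0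
  · show Tendsto (fun N : ℕ => (N : ℝ) / (2 * C * K ^ 2)) atTop atTop
    exact tendsto_natCast_atTop_atTop.atTop_div_const (by positivity)
  · intro N hN
    obtain ⟨hNa, hNb, hNc⟩ := hN0 N hN
    have hN1' : (1 : ℝ) ≤ N := by exact_mod_cast hNc
    obtain ⟨G, g1, g2, g3⟩ := hN1 N hNa
    have hp4 : (1 : ℝ) ≤ (N : ℝ) ^ 4 := one_le_pow₀ hN1'
    have hp7 : (N : ℝ) ^ 4 ≤ (N : ℝ) ^ 7 := pow_le_pow_right₀ hN1' (by norm_num)
    have hn1 : 1 ≤ ⌈C * (N : ℝ) ^ 4⌉₊ := by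
      rw [Nat.one_le_ceil_iff]
      positivity
    have hn2 : C * (N : ℝ) ^ 4 ≤ (⌈C * (N : ℝ) ^ 4⌉₊ : ℝ) := Nat.le_ceil _
    have hn3 : (⌈C * (N : ℝ) ^ 4⌉₊ : ℝ) ≤ 2 * C * (N : ℝ) ^ 4 := by
      have h1 := Nat.ceil_lt_add_one (show 0 ≤ C * (N : ℝ) ^ 4 by positivity)
      nlinarith [mul_le_mul hC hp4 zero_le_one hC0.le]
    have hn4 : (⌈C * (N : ℝ) ^ 4⌉₊ : ℝ) ≤ 2 * C * (N : ℝ) ^ 7 :=
      hn3.trans (mul_le_mul_of_nonneg_left hp7 (by positivity))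
    obtain ⟨Q, q1, q2, q3, q4⟩ := hQ ⌈C * (N : ℝ) ^ 4⌉₊ (2 * C * (N : ℝ) ^ 7) G hn1 hn4
      (GL2_bd hn2 (by nlinarith [show (0 : ℝ) ≤ C * (N : ℝ) ^ 7 by positivity]) g1) g2
    refine ⟨Q, q1, ?_, ?_, ?_⟩
    · refine q2.trans ?_
      show C1 * (⌈C * (N : ℝ) ^ 4⌉₊ : ℝ) ≤ K * (N : ℝ) ^ 4
      rw [hK]
      calc C1 * (⌈C * (N : ℝ) ^ 4⌉₊ : ℝ) ≤ C1 * (2 * C * (N : ℝ) ^ 4) :=
            mul_le_mul_of_nonneg_left hn3 hC10.le
        _ = 2 * C * C1 * (N : ℝ) ^ 4 := by ring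
    · intro i
      refine (q3 i).trans (Real.exp_le_exp.2 (le_of_eq ?_))
      show C1 * (2 * C * (N : ℝ) ^ 7) = K * (N : ℝ) ^ 7
      rw [hK]
      ring
    · have e1 : aeval (x : ℂ) Q = ((aeval x Q : ℝ) : ℂ) := Polynomial.aeval_algebraMap_apply ℂ x Q
      rw [e1, Complex.norm_real, Real.norm_eq_abs]
      refine q4.trans ((mul_le_mul_of_nonneg_right g3 (Real.exp_pos _).le).trans ?_)
      rw [← Real.exp_add]
      refine Real.exp_le_exp.2 ?_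
      show -((N : ℝ) ^ 12 / C) + C1 * (2 * C * (N : ℝ) ^ 7) ≤
        -((N : ℝ) / (2 * C * K ^ 2) * (K * (N : ℝ) ^ 4) * (K * (N : ℝ) ^ 7))
      have e2 : (N : ℝ) / (2 * C * K ^ 2) * (K * (N : ℝ) ^ 4) * (K * (N : ℝ) ^ 7) =
          (N : ℝ) ^ 12 / C / 2 := by
        field_simp
      have e3 : C1 * (2 * C * (N : ℝ) ^ 7) = K * (N : ℝ) ^ 7 := by
        rw [hK]
        ring
      have e4 : K * (N : ℝ) ^ 7 ≤ (N : ℝ) ^ 12 / C / 2 := by
        rw [div_div, le_div_iff₀ (by positivity)]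
        have h5 : (N : ℝ) ≤ (N : ℝ) ^ 5 := le_self_pow₀ hN1' (by norm_num)
        have h6 : 2 * C * K ≤ (N : ℝ) ^ 5 := hNb.trans h5
        calc K * (N : ℝ) ^ 7 * (C * 2) = (2 * C * K) * (N : ℝ) ^ 7 := by ring
          _ ≤ (N : ℝ) ^ 5 * (N : ℝ) ^ 7 := mul_le_mul_of_nonneg_right h6 (by positivity)
          _ = (N : ℝ) ^ 12 := by ring
      rw [e2, e3]
      linarith

private theorem GL2_swap {d s : ℝ} {G : MvPolynomial (Fin 2) ℤ} (h : Bd d s G) :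
    Bd d s (MvPolynomial.rename (Equiv.swap (0 : Fin 2) 1) G) := by
  refine ⟨fun i => ?_, fun e => ?_⟩
  · have h1 := MvPolynomial.degreeOf_rename_of_injective (p := G)
      (Equiv.swap (0 : Fin 2) 1).injective (Equiv.swap (0 : Fin 2) 1 i)
    rw [Equiv.swap_apply_self] at h1
    rw [h1]
    exact h.1 _
  · have h1 : Finsupp.mapDomain (Equiv.swap (0 : Fin 2) 1)
        (Finsupp.mapDomain (Equiv.swap (0 : Fin 2) 1) e) = e := by
      rw [← Finsupp.mapDomain_comp]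
      have h2 : (Equiv.swap (0 : Fin 2) 1 : Fin 2 → Fin 2) ∘ (Equiv.swap (0 : Fin 2) 1) = id := by
        funext i
        exact Equiv.swap_apply_self _ _ i
      rw [h2]
      exact Finsupp.mapDomain_id
    rw [← h1, MvPolynomial.coeff_rename_mapDomain _ (Equiv.swap (0 : Fin 2) 1).injective]
    exact h.2 _

private theorem GL2_val (x y : ℝ) (G : MvPolynomial (Fin 2) ℤ) :
    val y x (MvPolynomial.rename (Equiv.swap (0 : Fin 2) 1) G) = val x y G := by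
  unfold val
  rw [MvPolynomial.aeval_rename]
  congr 1
  have h1 : (![y, x] : Fin 2 → ℝ) ∘ (Equiv.swap (0 : Fin 2) 1) = ![x, y] := by
    funext i
    fin_cases i
    · rfl
    · rfl
  rw [h1]

/-- [GL2] -/
theorem thm_GL2 (hE : St_EXT) (hN : St_NRM) (hG : Pool.Agent.KT.St_GELFZ) : St_GL2 := by
  intro x y hxy C hC h
  rcases hxy.2 with hx | hy
  · exact GL2_main hE hN hG hx hxy.1 hC h
  · refine GL2_main hE hN hG (x := y) (y := x) hy ?_ hC ?_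
    · intro h1
      apply hxy.1
      have h2 := (algebraicIndependent_equiv (Equiv.swap (0 : Fin 2) 1)).2 h1
      have h3 : (![y, x] : Fin 2 → ℝ) ∘ (Equiv.swap (0 : Fin 2) 1) = ![x, y] := by
        funext i
        fin_cases i
        · rfl
        · rfl
      rwa [h3] at h2
    · filter_upwards [h] with E hE'
      obtain ⟨G, g1, g2, g3⟩ := hE'
      exact ⟨MvPolynomial.rename (Equiv.swap (0 : Fin 2) 1) G, GL2_swap g1, by rwa [GL2_val],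
        by rwa [GL2_val]⟩

end Pool.Agent.QP
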