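import Pool.Agent.QP.St

/-!
# Quarter periods, module GRW: growth
-/

set_option autoImplicit false

open Complex

namespace Pool.Agent.QP

private theorem GRW_pow {x y : ℝ} (hx : 0 ≤ x) (h : x ≤ Real.exp y) (n : ℕ) :
    x ^ n ≤ Real.exp (n * y) := by
  rw [Real.exp_nat_mul]
  exact pow_le_pow_left₀ hx h n

private theorem GRW_norm (z : ℂ) : ‖z‖ ≤ Real.exp (1 + ‖z‖ ^ 2) := by
  have h1 : ‖z‖ ≤ 1 + ‖z‖ ^ 2 := by nlinarith [sq_nonneg (‖z‖ - 1), norm_nonneg z]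
  have h2 : (1 + ‖z‖ ^ 2) + 1 ≤ Real.exp (1 + ‖z‖ ^ 2) := Real.add_one_le_exp _
  linarith

private theorem GRW_cnt (n : ℕ) (y : ℝ) (hy : 1 ≤ y) :
    ((n : ℝ) + 1) * ((n + 1) * (n + 1)) ≤ Real.exp (3 * n * y) := by
  have h1 : (n : ℝ) + 1 ≤ Real.exp n := Real.add_one_le_exp _
  have h0 : (0 : ℝ) ≤ (n : ℝ) + 1 := by positivity
  have h2 : ((n : ℝ) + 1) ^ 3 ≤ Real.exp (3 * n) := by
    have := GRW_pow h0 h1 3
    simpa using this
  have h3 : Real.exp (3 * n) ≤ Real.exp (3 * n * y) := by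
    apply Real.exp_le_exp.mpr
    have : (0 : ℝ) ≤ 3 * n := by positivity
    nlinarith
  calc ((n : ℝ) + 1) * ((n + 1) * (n + 1)) = ((n : ℝ) + 1) ^ 3 := by ring
    _ ≤ _ := h2.trans h3

/-- the entire function -/
private noncomputable def GRW_W (D : Dat) (n : ℕ) (f : ℕ → ℕ → ℕ → ℂ) (z : ℂ) : ℂ :=
  ∑ i ∈ Finset.range (n + 1), ∑ j ∈ Finset.range (n + 1), ∑ k ∈ Finset.range (n + 1),
    f i j k * (z ^ i * D.A z ^ j * D.B z ^ k * D.g z ^ (3 * n - 2 * j - k))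

private theorem GRW_diff (D : Dat) (n : ℕ) (f : ℕ → ℕ → ℕ → ℂ) :
    Differentiable ℂ (GRW_W D n f) := by
  unfold GRW_W
  refine Differentiable.fun_sum fun i _ => Differentiable.fun_sum fun j _ =>
    Differentiable.fun_sum fun k _ => ?_
  exact (((differentiable_id.pow i).mul (D.dA.pow j)).mul (D.dB.pow k)).mul
    (D.dg.pow (3 * n - 2 * j - k)) |>.const_mul _

private theorem GRW_eq (D : Dat) (n : ℕ) (f : ℕ → ℕ → ℕ → ℂ) (z : ℂ)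
    (hz : ∀ a b : ℤ, z ≠ D.v * (a + b * D.tau)) :
    GRW_W D n f z = D.g z ^ (3 * n) * D.fn n f z := by
  unfold GRW_W Dat.fn
  rw [Finset.mul_sum]
  refine Finset.sum_congr rfl fun i _ => ?_
  rw [Finset.mul_sum]
  refine Finset.sum_congr rfl fun j hj => ?_
  rw [Finset.mul_sum]
  refine Finset.sum_congr rfl fun k hk => ?_
  rw [Finset.mem_range] at hj hk
  obtain ⟨r, hr⟩ : ∃ r, 3 * n = 2 * j + k + r := ⟨3 * n - (2 * j + k), by omega⟩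
  have hr' : 3 * n - 2 * j - k = r := by omega
  rw [hr', hr, D.gA z hz, D.gB z hz, mul_pow, mul_pow, pow_add, pow_add, ← pow_mul]
  ring

private theorem GRW_term (D : Dat) (n i j k : ℕ) (K : ℝ) (c z : ℂ) (hc : ‖c‖ ≤ K) (hK : 0 ≤ K)
    (hi : i ≤ n) (hj : j ≤ n) (hk : k ≤ n) :
    ‖c * (z ^ i * D.A z ^ j * D.B z ^ k * D.g z ^ (3 * n - 2 * j - k))‖ ≤
      K * Real.exp ((1 + 3 * D.C) * n * (1 + ‖z‖ ^ 2)) := by
  rw [norm_mul, norm_mul, norm_mul, norm_mul, norm_pow, norm_pow, norm_pow, norm_pow]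
  have hy : (1 : ℝ) ≤ 1 + ‖z‖ ^ 2 := by nlinarith [sq_nonneg ‖z‖]
  have hy0 : (0 : ℝ) ≤ 1 + ‖z‖ ^ 2 := by linarith
  have hC := D.hC
  have h1 := GRW_pow (norm_nonneg z) (GRW_norm z) i
  have h2 := GRW_pow (norm_nonneg _) (D.growA z) j
  have h3 := GRW_pow (norm_nonneg _) (D.growB z) k
  have h4 := GRW_pow (norm_nonneg _) (D.growg z) (3 * n - 2 * j - k)
  have h12 := mul_le_mul h1 h2 (by positivity) (by positivity)
  have h123 := mul_le_mul h12 h3 (by positivity) (by positivity)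
  have h1234 := mul_le_mul h123 h4 (by positivity) (by positivity)
  rw [← Real.exp_add, ← Real.exp_add, ← Real.exp_add] at h1234
  refine mul_le_mul hc (h1234.trans (Real.exp_le_exp.mpr ?_)) (by positivity) hK
  obtain ⟨r, hr⟩ : ∃ r, 3 * n - 2 * j - k = r := ⟨_, rfl⟩
  rw [hr]
  have hsum : j + k + r ≤ 3 * n := by omega
  have hsum' : (j : ℝ) + k + r ≤ 3 * n := by exact_mod_cast hsum
  have hi' : (i : ℝ) ≤ n := by exact_mod_cast hi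
  have e1 : (i : ℝ) * (1 + ‖z‖ ^ 2) ≤ n * (1 + ‖z‖ ^ 2) :=
    mul_le_mul_of_nonneg_right hi' hy0
  have e2 : ((j : ℝ) + k + r) * (D.C * (1 + ‖z‖ ^ 2)) ≤ (3 * n) * (D.C * (1 + ‖z‖ ^ 2)) :=
    mul_le_mul_of_nonneg_right hsum' (by positivity)
  calc (i : ℝ) * (1 + ‖z‖ ^ 2) + j * (D.C * (1 + ‖z‖ ^ 2)) + k * (D.C * (1 + ‖z‖ ^ 2)) +
        r * (D.C * (1 + ‖z‖ ^ 2))
      = (i : ℝ) * (1 + ‖z‖ ^ 2) + ((j : ℝ) + k + r) * (D.C * (1 + ‖z‖ ^ 2)) := by ring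
    _ ≤ n * (1 + ‖z‖ ^ 2) + (3 * n) * (D.C * (1 + ‖z‖ ^ 2)) := add_le_add e1 e2
    _ = (1 + 3 * D.C) * n * (1 + ‖z‖ ^ 2) := by ring

private theorem GRW_sum (n : ℕ) (M : ℝ) (F : ℕ → ℕ → ℕ → ℂ)
    (h : ∀ i j k, i ≤ n → j ≤ n → k ≤ n → ‖F i j k‖ ≤ M) :
    ‖∑ i ∈ Finset.range (n + 1), ∑ j ∈ Finset.range (n + 1), ∑ k ∈ Finset.range (n + 1),
      F i j k‖ ≤ (((n : ℝ) + 1) * ((n + 1) * (n + 1))) * M := by
  have step : ∀ (G : ℕ → ℂ) (B : ℝ), (∀ i, i ≤ n → ‖G i‖ ≤ B) →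
      ‖∑ i ∈ Finset.range (n + 1), G i‖ ≤ ((n : ℝ) + 1) * B := by
    intro G B hG
    have := norm_sum_le_of_le (Finset.range (n + 1)) (f := G) (n := fun _ => B)
      (fun i hi => hG i (by rw [Finset.mem_range] at hi; omega))
    simpa using this
  have h1 := step (fun i => ∑ j ∈ Finset.range (n + 1), ∑ k ∈ Finset.range (n + 1), F i j k)
    (((n : ℝ) + 1) * (((n : ℝ) + 1) * M)) (fun i hi =>
      step (fun j => ∑ k ∈ Finset.range (n + 1), F i j k) (((n : ℝ) + 1) * M)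
        (fun j hj => step (fun k => F i j k) M (fun k hk => h i j k hi hj hk)))
  refine h1.trans (le_of_eq ?_)
  ring

theorem thm_GRW : St_GRW := by
  intro D
  have hC := D.hC
  refine ⟨4 + 3 * D.C, by linarith, ?_⟩
  intro n K f hn hK hf
  refine ⟨GRW_W D n f, GRW_diff D n f, GRW_eq D n f, ?_⟩
  intro z
  have hy : (1 : ℝ) ≤ 1 + ‖z‖ ^ 2 := by nlinarith [sq_nonneg ‖z‖]
  have h1 := GRW_sum n (K * Real.exp ((1 + 3 * D.C) * n * (1 + ‖z‖ ^ 2)))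
    (fun i j k => f i j k * (z ^ i * D.A z ^ j * D.B z ^ k * D.g z ^ (3 * n - 2 * j - k)))
    (fun i j k hi hj hk => GRW_term D n i j k K (f i j k) z (hf i j k) hK hi hj hk)
  have h2 := GRW_cnt n (1 + ‖z‖ ^ 2) hy
  calc ‖GRW_W D n f z‖ ≤ (((n : ℝ) + 1) * ((n + 1) * (n + 1))) *
        (K * Real.exp ((1 + 3 * D.C) * n * (1 + ‖z‖ ^ 2))) := h1
    _ ≤ Real.exp (3 * n * (1 + ‖z‖ ^ 2)) *
        (K * Real.exp ((1 + 3 * D.C) * n * (1 + ‖z‖ ^ 2))) :=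
        mul_le_mul_of_nonneg_right h2 (by positivity)
    _ = K * Real.exp ((4 + 3 * D.C) * n * (1 + ‖z‖ ^ 2)) := by
        rw [mul_left_comm, ← Real.exp_add]
        congr 2
        ring

end Pool.Agent.QP
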