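import Pool.Agent.QP.St

/-!
# Quarter periods, module HUR: Taylor coefficients at the half period (helper60)
-/

set_option autoImplicit false

open Complex Filter
open scoped Topology BigOperators

namespace Pool.Agent.QP

/-- analytic at `0`, the derivatives of order at most `t` at `0` are integers -/
private def HUR_A : ℕ → (ℂ → ℂ) → Prop
  | 0, f => AnalyticAt ℂ f 0 ∧ ∃ z : ℤ, f 0 = z
  | t + 1, f => AnalyticAt ℂ f 0 ∧ (∃ z : ℤ, f 0 = z) ∧ HUR_A t (deriv f)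

private theorem HUR_an : ∀ {t : ℕ} {f : ℂ → ℂ}, HUR_A t f → AnalyticAt ℂ f 0
  | 0, _, h => h.1
  | _ + 1, _, h => h.1

private theorem HUR_val : ∀ {t : ℕ} {f : ℂ → ℂ}, HUR_A t f → ∃ z : ℤ, f 0 = z
  | 0, _, h => h.2
  | _ + 1, _, h => h.2.1

private theorem HUR_mono : ∀ {t : ℕ} {f : ℂ → ℂ}, HUR_A (t + 1) f → HUR_A t f
  | 0, _, h => ⟨h.1, h.2.1⟩
  | _ + 1, _, h => ⟨h.1, h.2.1, HUR_mono h.2.2⟩

private theorem HUR_congr : ∀ {t : ℕ} {f g : ℂ → ℂ}, HUR_A t f → f =ᶠ[𝓝 0] g → HUR_A t g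
  | 0, f, g, h, e => ⟨h.1.congr e, by rw [← e.eq_of_nhds]; exact h.2⟩
  | t + 1, f, g, h, e => ⟨h.1.congr e, by rw [← e.eq_of_nhds]; exact h.2.1, HUR_congr h.2.2 e.deriv⟩

private theorem HUR_const (c : ℤ) : ∀ t : ℕ, HUR_A t (fun _ => (c : ℂ))
  | 0 => ⟨analyticAt_const, c, rfl⟩
  | t + 1 => ⟨analyticAt_const, ⟨c, rfl⟩, by
      refine HUR_congr (HUR_const 0 t) (Eventually.of_forall fun x => ?_)
      simp⟩

private theorem HUR_add : ∀ {t : ℕ} {f g : ℂ → ℂ}, HUR_A t f → HUR_A t g →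
    HUR_A t (fun s => f s + g s)
  | 0, f, g, hf, hg => by
    obtain ⟨a, ha⟩ := hf.2
    obtain ⟨b, hb⟩ := hg.2
    exact ⟨hf.1.add hg.1, a + b, by simp only [ha, hb]; push_cast; ring⟩
  | t + 1, f, g, hf, hg => by
    obtain ⟨a, ha⟩ := hf.2.1
    obtain ⟨b, hb⟩ := hg.2.1
    refine ⟨hf.1.add hg.1, ⟨a + b, by simp only [ha, hb]; push_cast; ring⟩, ?_⟩
    refine HUR_congr (HUR_add hf.2.2 hg.2.2) ?_
    filter_upwards [hf.1.eventually_analyticAt, hg.1.eventually_analyticAt] with x hx hy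
    exact (deriv_fun_add hx.differentiableAt hy.differentiableAt).symm

private theorem HUR_mul : ∀ {t : ℕ} {f g : ℂ → ℂ}, HUR_A t f → HUR_A t g →
    HUR_A t (fun s => f s * g s)
  | 0, f, g, hf, hg => by
    obtain ⟨a, ha⟩ := hf.2
    obtain ⟨b, hb⟩ := hg.2
    exact ⟨hf.1.mul hg.1, a * b, by simp only [ha, hb]; push_cast; ring⟩
  | t + 1, f, g, hf, hg => by
    obtain ⟨a, ha⟩ := hf.2.1
    obtain ⟨b, hb⟩ := hg.2.1
    refine ⟨hf.1.mul hg.1, ⟨a * b, by simp only [ha, hb]; push_cast; ring⟩, ?_⟩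
    refine HUR_congr (HUR_add (HUR_mul hf.2.2 (HUR_mono hg)) (HUR_mul (HUR_mono hf) hg.2.2)) ?_
    filter_upwards [hf.1.eventually_analyticAt, hg.1.eventually_analyticAt] with x hx hy
    exact (deriv_fun_mul hx.differentiableAt hy.differentiableAt).symm

private theorem HUR_pow {t : ℕ} {f : ℂ → ℂ} (hf : HUR_A t f) : ∀ k : ℕ,
    HUR_A t (fun s => f s ^ k)
  | 0 => by
    refine HUR_congr (HUR_const 1 t) (Eventually.of_forall fun x => ?_)
    simp
  | k + 1 => by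
    refine HUR_congr (HUR_mul (HUR_pow hf k) hf) (Eventually.of_forall fun x => ?_)
    show f x ^ k * f x = f x ^ (k + 1)
    rw [pow_succ]

private theorem HUR_id : ∀ t : ℕ, HUR_A t (fun s => s)
  | 0 => ⟨analyticAt_id, 0, by simp⟩
  | t + 1 => ⟨analyticAt_id, ⟨0, by simp⟩, by
      refine HUR_congr (HUR_const 1 t) (Eventually.of_forall fun x => ?_)
      simp⟩

private theorem HUR_int : ∀ {t : ℕ} {f : ℂ → ℂ}, HUR_A t f → ∃ z : ℤ, iteratedDeriv t f 0 = z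
  | 0, f, h => by rw [iteratedDeriv_zero]; exact h.2
  | t + 1, f, h => by rw [iteratedDeriv_succ']; exact HUR_int h.2.2

section

variable (D : Dat)

private theorem HUR_off {s : ℂ} (hs : ‖s‖ ≤ D.eps) (a b : ℤ) :
    (D.v / 2 + s : ℂ) ≠ D.v * (a + b * D.tau) := by
  have h := D.off 0 0 s hs a b
  simpa using h

private theorem HUR_dP {s : ℂ} (hs : ‖s‖ ≤ D.eps) :
    HasDerivAt (fun s : ℂ => D.P (D.v / 2 + s)) (D.Pd (D.v / 2 + s)) s :=
  (D.dP _ (HUR_off D hs)).comp_const_add _ _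

private theorem HUR_dPd {s : ℂ} (hs : ‖s‖ ≤ D.eps) :
    HasDerivAt (fun s : ℂ => D.Pd (D.v / 2 + s)) (6 * D.P (D.v / 2 + s) ^ 2 - D.c) s :=
  (D.dPd _ (HUR_off D hs)).comp_const_add _ _

private theorem HUR_dZ {s : ℂ} (hs : ‖s‖ ≤ D.eps) :
    HasDerivAt (fun s : ℂ => D.Z (D.v / 2 + s) - D.eta / 2) (-D.P (D.v / 2 + s)) s :=
  ((D.dZ _ (HUR_off D hs)).comp_const_add _ _).sub_const _

private theorem HUR_near : ∀ᶠ s : ℂ in 𝓝 0, ‖s‖ ≤ D.eps := by
  have h : Metric.closedBall (0 : ℂ) D.eps ∈ 𝓝 (0 : ℂ) := Metric.closedBall_mem_nhds _ D.heps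
  filter_upwards [h] with s hs
  simpa using hs

private theorem HUR_anal {f f' : ℂ → ℂ} (h : ∀ s : ℂ, ‖s‖ ≤ D.eps → HasDerivAt f (f' s) s) :
    AnalyticAt ℂ f 0 := by
  have h1 : DifferentiableOn ℂ f (Metric.ball 0 D.eps) := fun s hs =>
    (h s (by simpa using (Metric.mem_ball.1 hs).le)).differentiableAt.differentiableWithinAt
  exact h1.analyticAt (Metric.ball_mem_nhds _ D.heps)

private theorem HUR_all : ∀ t : ℕ, HUR_A t (fun s : ℂ => D.P (D.v / 2 + s)) ∧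
    HUR_A t (fun s : ℂ => D.Pd (D.v / 2 + s)) ∧
    HUR_A t (fun s : ℂ => D.Z (D.v / 2 + s) - D.eta / 2)
  | 0 => by
    refine ⟨⟨HUR_anal D fun s hs => HUR_dP D hs, 1, ?_⟩,
      ⟨HUR_anal D fun s hs => HUR_dPd D hs, 0, ?_⟩,
      ⟨HUR_anal D fun s hs => HUR_dZ D hs, 0, ?_⟩⟩
    · simp [D.halfP]
    · simp [D.halfPd]
    · simp [D.halfZ]
  | t + 1 => by
    obtain ⟨h1, h2, h3⟩ := HUR_all t
    refine ⟨⟨HUR_anal D fun s hs => HUR_dP D hs, ⟨1, ?_⟩, ?_⟩,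
      ⟨HUR_anal D fun s hs => HUR_dPd D hs, ⟨0, ?_⟩, ?_⟩,
      ⟨HUR_anal D fun s hs => HUR_dZ D hs, ⟨0, ?_⟩, ?_⟩⟩
    · simp [D.halfP]
    · refine HUR_congr h2 ?_
      filter_upwards [HUR_near D] with s hs
      exact (HUR_dP D hs).deriv.symm
    · simp [D.halfPd]
    · refine HUR_congr (HUR_add (HUR_mul (HUR_const 6 t) (HUR_pow h1 2)) (HUR_const (-D.c) t)) ?_
      filter_upwards [HUR_near D] with s hs
      rw [(HUR_dPd D hs).deriv]
      push_cast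
      ring
    · simp [D.halfZ]
    · refine HUR_congr (HUR_mul (HUR_const (-1) t) h1) ?_
      filter_upwards [HUR_near D] with s hs
      rw [(HUR_dZ D hs).deriv]
      push_cast
      ring

end

theorem thm_HUR : St_HUR := by
  intro D
  -- integrality
  have hint : ∀ t l j m : ℕ, ∃ z : ℤ,
      iteratedDeriv t (fun s : ℂ => s ^ l * D.P (D.v / 2 + s) ^ j *
        (D.Z (D.v / 2 + s) - D.eta / 2) ^ m) 0 = (z : ℂ) := by
    intro t l j m
    obtain ⟨h1, h2, h3⟩ := HUR_all D t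
    exact HUR_int (HUR_mul (HUR_mul (HUR_pow (HUR_id t) l) (HUR_pow h1 j)) (HUR_pow h3 m))
  choose H hH using hint
  -- bounds on the closed disc
  have hc1 : ContinuousOn (fun s : ℂ => D.P (D.v / 2 + s)) (Metric.closedBall 0 D.eps) :=
    fun s hs => (HUR_dP D (by simpa using hs)).continuousAt.continuousWithinAt
  have hc2 : ContinuousOn (fun s : ℂ => D.Z (D.v / 2 + s) - D.eta / 2)
      (Metric.closedBall 0 D.eps) :=
    fun s hs => (HUR_dZ D (by simpa using hs)).continuousAt.continuousWithinAt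
  obtain ⟨M1, hM1⟩ := (isCompact_closedBall (0 : ℂ) D.eps).exists_bound_of_continuousOn hc1
  obtain ⟨M2, hM2⟩ := (isCompact_closedBall (0 : ℂ) D.eps).exists_bound_of_continuousOn hc2
  obtain ⟨C, hC1, hCM1, hCM2, hCe, hCi⟩ : ∃ C : ℝ, 1 ≤ C ∧ M1 ≤ C ∧ M2 ≤ C ∧ D.eps ≤ C ∧
      D.eps⁻¹ ≤ C := by
    refine ⟨1 + |M1| + |M2| + D.eps + D.eps⁻¹, ?_, ?_, ?_, ?_, ?_⟩ <;>
      have := D.heps <;> have := inv_pos.2 D.heps <;>
      have := abs_nonneg M1 <;> have := abs_nonneg M2 <;>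
      have := le_abs_self M1 <;> have := le_abs_self M2 <;> linarith
  refine ⟨C, H, hC1, fun t l j m => ⟨hH t l j m, ?_⟩⟩
  have hC0 : 0 ≤ C := by linarith
  have hd : DiffContOnCl ℂ (fun s : ℂ => s ^ l * D.P (D.v / 2 + s) ^ j *
      (D.Z (D.v / 2 + s) - D.eta / 2) ^ m) (Metric.ball 0 D.eps) := by
    refine DifferentiableOn.diffContOnCl ?_
    rw [closure_ball _ D.heps.ne']
    intro s hs
    have hs' : ‖s‖ ≤ D.eps := by simpa using hs
    refine DifferentiableAt.differentiableWithinAt ?_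
    exact ((differentiableAt_id.pow l).mul ((HUR_dP D hs').differentiableAt.pow j)).mul
      ((HUR_dZ D hs').differentiableAt.pow m)
  have hb : ∀ s ∈ Metric.sphere (0 : ℂ) D.eps, ‖s ^ l * D.P (D.v / 2 + s) ^ j *
      (D.Z (D.v / 2 + s) - D.eta / 2) ^ m‖ ≤ C ^ (l + j + m) := by
    intro s hs
    have hs1 : s ∈ Metric.closedBall (0 : ℂ) D.eps := Metric.sphere_subset_closedBall hs
    have hs2 : ‖s‖ ≤ C := by
      have : ‖s‖ = D.eps := by simpa using hs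
      rw [this]
      exact hCe
    rw [norm_mul, norm_mul, norm_pow, norm_pow, norm_pow, pow_add, pow_add]
    gcongr
    · exact (hM1 s hs1).trans hCM1
    · exact (hM2 s hs1).trans hCM2
  have h1 := Complex.norm_iteratedDeriv_le_of_forall_mem_sphere_norm_le t D.heps hd hb
  rw [hH t l j m] at h1
  have h2 : ‖((H t l j m : ℤ) : ℂ)‖ = |(H t l j m : ℝ)| := by
    rw [Complex.norm_intCast]
  rw [h2] at h1
  refine h1.trans ?_
  rw [add_assoc t l j, add_assoc t (l + j) m, pow_add C t, mul_div_assoc]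
  refine mul_le_mul_of_nonneg_left ?_ (by positivity)
  rw [div_eq_mul_inv, mul_comm, ← inv_pow]
  have h3 : D.eps⁻¹ ^ t ≤ C ^ t := pow_le_pow_left₀ (inv_nonneg.2 D.heps.le) hCi t
  exact mul_le_mul_of_nonneg_right h3 (by positivity)

end Pool.Agent.QP
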