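import Pool.Agent.QP.Defs

/-!
# Quarter periods, part (A): algebraic independence of `π` and `B(1/4,1/2)`, `B(1/3,1/2)`

Statements of the modules with their proofs. Module `X` is `Pool/Agent/QP/X.lean` with
`theorem thm_X (h : St_Y) .. : St_X` (the other statements of the docstring as hypotheses; import
only `Pool.Agent.QP.St` and what the docstring names).
-/

set_option autoImplicit false

open Complex Filter Polynomial
open scoped Topology BigOperators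

namespace Pool.Agent.QP

/-! ### Block G: fields of transcendence degree one -/

/-- Extension data: `x` is transcendental, `y' = a(x) y` is integral over `ℤ[x]`; `M` is the
companion matrix over `ℤ[X]` of its minimal polynomial, `(1, y', .., y'^(d-1))` is an eigenvector. -/
structure Ext (x y : ℝ) (d : ℕ) (a : ℤ[X]) (M : Matrix (Fin d) (Fin d) ℤ[X]) : Prop where
  tr : Transcendental ℚ x
  pos : 0 < d
  lead : aeval x a ≠ 0
  eig : ∀ i : Fin d, ∑ j : Fin d, aeval x (M i j) * (aeval x a * y) ^ (j : ℕ) =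
    (aeval x a * y) ^ ((i : ℕ) + 1)
  inj : ∀ r : Fin d → ℤ[X], ∑ i : Fin d, aeval x (r i) * (aeval x a * y) ^ (i : ℕ) ≠ 0 →
    (∑ i : Fin d, r i • M ^ (i : ℕ)).det ≠ 0

/-- [EXT] Proof. `y` is algebraic over `ℚ(x)` (otherwise `x, y` are algebraically independent). The
minimal polynomial of `y` over `ℚ(x)` is `Y^d + ∑_(i<d) (p_i(x)/a(x)) Y^i` with `p_i, a ∈ ℤ[X]`, `a(x) ≠ 0`
(common denominator; every element of `ℚ(x)` is `p(x)/q(x)`, `p, q ∈ ℤ[X]`). For `y' = a(x) y`: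
`B = Y^d + ∑ b_i Y^i`, `b_i = p_i a^(d-1-i) ∈ ℤ[X]`, `B(x, y') = 0`, and `B(x, ·)` is irreducible over
`ℚ(x)` (degree `d`, a scaling of the minimal polynomial). `M`: `M i (i+1) = 1`, `M (d-1) j = -b_j`, other
entries zero; `eig` is clear. `inj`: evaluate at `x` (`ℤ[X] → ℚ(x)` is injective and commutes with `det`):
`r(Y) = ∑ r_i(x) Y^i` is not divisible by `B(x, Y)`, so `s r + t B = 1` in `ℚ(x)[Y]`; `B(M) = 0`
(Cayley-Hamilton, or directly: it is the companion matrix), so `s(M) r(M) = 1` and `det r(M) ≠ 0`. -/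
def St_EXT : Prop := ∀ x y : ℝ, Transcendental ℚ x → ¬ AlgebraicIndependent ℚ ![x, y] →
  ∃ (d : ℕ) (a : ℤ[X]) (M : Matrix (Fin d) (Fin d) ℤ[X]), Ext x y d a M

/-- [RED] reduction to the basis `1, y', .., y'^(d-1)`.
Proof. `G = ∑_(k ≤ n) G_k(X_0) X_1^k` (`n := ⌊D⌋`), `a^n y^k = a^(n-k) y'^k` and `y'^k = ∑_j (M^k)_0j(x) y'^j` (row `0` of
`M^k vec = y'^k vec`, induction from `eig`). `r_j = ∑_k G_k a^(n-k) (M^k)_0j`. Let `L(P)` be the sum of the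
absolute values of the coefficients of `P ∈ ℤ[X]` (submultiplicative, subadditive): `L((M^k)_ij) ≤ (d λ)^k`,
`λ` a bound for the entries of `M`; degrees at most `k` times the maximal degree; the number of
coefficients of `G` is at most `(n+1)^2`. -/
def St_RED : Prop := ∀ (x y : ℝ) (d : ℕ) (a : ℤ[X]) (M : Matrix (Fin d) (Fin d) ℤ[X]), Ext x y d a M →
  ∃ C : ℕ, 1 ≤ C ∧ ∀ (n : ℕ) (s : ℝ) (G : MvPolynomial (Fin 2) ℤ), 1 ≤ n → (n : ℝ) ≤ s → Bd n s G →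
    ∃ r : Fin d → ℤ[X], (∀ i, (r i).natDegree ≤ C * n) ∧
      (∀ i j, |(((r i).coeff j : ℤ) : ℝ)| ≤ Real.exp (C * s)) ∧
      (aeval x a) ^ n * val x y G = ∑ i : Fin d, aeval x (r i) * (aeval x a * y) ^ (i : ℕ)

/-- [SGL] Siegel's lemma in a field of transcendence degree one. Hypotheses: `St_EXT`, `St_RED`.
Proof. First let `x` be transcendental; EXT, RED. Unknown: `f_u = ∑_(e ≤ D) c_ue X_0^e`, `c_ue ∈ ℤ` (as
`MvPolynomial` in `X_0`), so `n (D + 1)` unknown integers. RED for each `G m u`: `r_(m,u,i)`. The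
condition `∑_u f_u(x) a(x)^D G_mu(x,y) = 0` holds if for every `i < d` the polynomial `∑_u f_u r_(m,u,i) ∈ ℤ[X]`
vanishes: at most `d (C₀ D + D + 1)` linear equations for each `m`, with coefficients `≤ exp(C₀ H)` in
absolute value. If `C M' ≤ n` with `C ≥ 2 d (C₀ + 2)` then the number of equations is at most half
the number of unknowns, and `Int.Matrix.exists_ne_zero_int_vec_norm_le` gives a solution, not zero, with
`|c_ue| ≤ n (D+1) exp(C₀ H)`. Some `f_u ≠ 0`, so `f_u(x) ≠ 0` as `x` is transcendental.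
If `y` is transcendental: the same with the variables exchanged (`MvPolynomial.rename (Equiv.swap 0 1)`,
`¬ AlgebraicIndependent ℚ ![y, x]`). -/
def St_SGL : Prop := ∀ x y : ℝ, Td1 x y → ∃ C : ℕ, 1 ≤ C ∧ ∀ (n m D : ℕ) (H : ℝ)
  (G : Fin m → Fin n → MvPolynomial (Fin 2) ℤ), 1 ≤ n → 1 ≤ D → (D : ℝ) ≤ H → C * m ≤ n →
  (∀ i u, Bd D H (G i u)) → ∃ f : Fin n → MvPolynomial (Fin 2) ℤ,
    (∀ u, Bd D (C * (H + Real.log n)) (f u)) ∧ (∃ u, val x y (f u) ≠ 0) ∧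
    ∀ i, ∑ u, val x y (f u) * val x y (G i u) = 0

/-- [NRM] the norm to `ℤ[x]`. Hypothesis: `St_RED`.
Proof. RED: `r`, put `Q = det (∑ r_i M^i)`; `Q ≠ 0` by `inj` (`a(x)^n val G ≠ 0`). Degree and coefficients of a
determinant with `d` fixed: sums of `d!` products of `d` entries, `L` (see RED) is submultiplicative; use
`L(P) ≤ (deg P + 1) max |coeff|` and `n ≤ s`. Let `R(x) = ∑ r_i(x) M(x)^i` (real matrix),
`vec = (1, y', .., y'^(d-1))`: `R(x) vec = ρ vec`, `ρ = ∑ r_i(x) y'^i = a(x)^n val G` (from `eig`). Multiply by the adjugate: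
`Q(x) vec = adj(R(x)) R(x) vec = ρ adj(R(x)) vec`; component `0`: `Q(x) = ρ ∑_j adj(R(x))_0j y'^j`, and the
entries of the adjugate are `≤ exp(C s)`. -/
def St_NRM : Prop := ∀ (x y : ℝ) (d : ℕ) (a : ℤ[X]) (M : Matrix (Fin d) (Fin d) ℤ[X]), Ext x y d a M →
  ∃ C : ℝ, 1 ≤ C ∧ ∀ (n : ℕ) (s : ℝ) (G : MvPolynomial (Fin 2) ℤ), 1 ≤ n → (n : ℝ) ≤ s → Bd n s G →
    val x y G ≠ 0 → ∃ Q : ℤ[X], Q ≠ 0 ∧ (Q.natDegree : ℝ) ≤ C * n ∧
      (∀ j, |((Q.coeff j : ℤ) : ℝ)| ≤ Real.exp (C * s)) ∧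
      |aeval x Q| ≤ |val x y G| * Real.exp (C * s)

/-- [GL2] Gelfond's criterion in a field of transcendence degree one. Hypotheses: `St_EXT`, `St_NRM`;
import `Pool.Agent.KT.GELF` and whatever proves `Pool.Agent.KT.St_GELFZ` (`KT/GelK.lean`, `KT/GelR.lean`,
`KT/Gel.lean`), or take it as a hypothesis `hG : Pool.Agent.KT.St_GELFZ` (import `Pool.Agent.KT.StC`).
Proof. If `x` is transcendental: EXT, NRM give for all large `E` a `Q_E ∈ ℤ[X]`, not zero, degree `≤ C' E^4`,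
coefficients `≤ exp(C' E^7)`, `|Q_E(x)| ≤ exp(-E^12/C + C' E^7) ≤ exp(-E^12/(2C))` (apply NRM with
`n = ⌈C E^4⌉`, `s = 2 C E^7`). `St_GELFZ` at `(x : ℂ)` with `d_N = C' N^4`, `s_N = C' N^7`, `B_N = N/(2 C C'^2)`, `a = 128`.
If `y` is transcendental: exchange the variables. -/
def St_GL2 : Prop := ∀ x y : ℝ, Td1 x y → ∀ C : ℝ, 1 ≤ C →
  ¬ ∀ᶠ E : ℕ in atTop, ∃ G : MvPolynomial (Fin 2) ℤ, Bd (C * E ^ 4) (C * E ^ 7) G ∧ val x y G ≠ 0 ∧
    |val x y G| ≤ Real.exp (-(E ^ 12 / C))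

/-- [TRD] algebraic factors.
Proof. `trdeg` of `ℚ(x, y)` is two. If `a x`, `b x y` were algebraically dependent over `ℚ` then `ℚ(a, b)(a x, b x y)`
would be algebraic over a field of transcendence degree `≤ 1`; but `x = (a x)/a`, `y = (b x y)/(b x)` are algebraic
over `ℚ(a x, b x y)`: so `x, y` dependent. (E.g.: `IsTranscendenceBasis`/`Algebra.trdeg` lemmas, or: algebraic
independence of two elements `u, v` is `Transcendental ℚ u` and `v` transcendental over `ℚ(u)`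
(`AlgebraicIndependent.option_iff`-type lemma); go step by step `(x,y) → (a x, y) → (a x, x y) → ..`, each step
changes one element by something algebraic over `ℚ(the other one)`.) -/
def St_TRD : Prop := ∀ x y a b : ℝ, AlgebraicIndependent ℚ ![x, y] → IsAlgebraic ℚ a →
  IsAlgebraic ℚ b → a ≠ 0 → b ≠ 0 → AlgebraicIndependent ℚ ![a * x, b * (x * y)]

/-! ### Block T: the auxiliary function -/

/-- [HUR] the Taylor coefficients at `v/2` are integers divided by factorials.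
Proof. `p(s) = P(v/2+s)`, `p'(s) = Pd(v/2+s)`, `q(s) = Z(v/2+s) - η/2` for `|s| ≤ eps` (no lattice points: `off`).
The derivative of `s^l p^j p'^k q^m` is `l s^(l-1) p^j p'^k q^m + j s^l p^(j-1) p'^(k+1) q^m + k s^l p^j p'^(k-1) (6p^2 - c) q^m
- m s^l p^(j+1) p'^k q^(m-1)`: by induction on `t` all derivatives are integral combinations of such
functions (near `0`), whose values at `0` are `0` or `1` (`p(0) = 1`, `p'(0) = 0`, `q(0) = 0`). Bound: Cauchy's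
estimate on the circle of radius `eps`, `|p|, |q|, |s| ≤ C₀` there
(`Complex.norm_iteratedDeriv_le_of_forall_mem_sphere_norm_le`). -/
def St_HUR : Prop := ∀ D : Dat, ∃ (C : ℝ) (H : ℕ → ℕ → ℕ → ℕ → ℤ), 1 ≤ C ∧ ∀ t l j m : ℕ,
  iteratedDeriv t (fun s : ℂ => s ^ l * D.P (D.v / 2 + s) ^ j *
    (D.Z (D.v / 2 + s) - D.eta / 2) ^ m) 0 = (H t l j m : ℂ) ∧
  |(H t l j m : ℝ)| ≤ t.factorial * C ^ (t + l + j + m)

/-- [VAL] the values are polynomials in `v, η`, the degree does not grow with `t`. Hypothesis: `St_HUR`.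
Proof. `z = pt a b + s`, `pt a b = v u`, `u = (1 + 2a + 2bτ)/2`; `P(pt a b + s) = P(v/2 + s)`,
`Z(pt a b + s) = η u' + q(s)`, `u' = (1 + 2a + 2bτ̄)/2`, `q(s) = Z(v/2+s) - η/2` (`perP`, `perZ`, `off`; near `s = 0`). So
`z^i P^j Z^k = ∑_(l ≤ i, m ≤ k) C(i,l) C(k,m) (v u)^(i-l) (η u')^(k-m) s^l p^j q^m` and the `t`-th derivative at `s = 0` is
`∑ C(i,l) C(k,m) v^(i-l) η^(k-m) u^(i-l) u'^(k-m) H t l j m`. `τ̄ = -τ` or `-1-τ`, so
`(2u)^r (2u')^s = X + Y τ` with integers `X, Y` (induction), and `|X|, |Y| ≤ 2 |X + Yτ| / Im τ ≤ (C₀ (S+2))^(r+s)`. Multiply by `4^n`.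
`G₀ = ∑ c_(lm) X_0^(i-l) X_1^(k-m)`, `|c_lm| ≤ 4^n 2^(i+k) (C₀(S+2))^(2n) T! C^(T+3n)`. -/
def St_VAL : Prop := ∀ D : Dat, ∃ C : ℝ, 1 ≤ C ∧ ∀ (n T S i j k t : ℕ) (a b : ℤ), 1 ≤ n → n ≤ T →
  i ≤ n → j ≤ n → k ≤ n → t < T → |a| ≤ S → |b| ≤ S → ∃ G₀ G₁ : MvPolynomial (Fin 2) ℤ,
    Bd n (C * (T * Real.log (T + 2) + n * Real.log (S + 2))) G₀ ∧
    Bd n (C * (T * Real.log (T + 2) + n * Real.log (S + 2))) G₁ ∧
    4 ^ n * iteratedDeriv t (fun z : ℂ => z ^ i * D.P z ^ j * D.Z z ^ k) (D.pt a b) =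
      (val D.v D.eta G₀ : ℂ) + D.tau * (val D.v D.eta G₁ : ℂ)

/-- [ZES] the zero estimate.
Proof. Near `s = 0`: `fn (pt a b + s) = ∑ f_ijk (x+s)^i p(s)^j (y+q(s))^k` with `x = v(1/2+a+bτ)`, `y = η(1/2+a+bτ̄)`, `p, q` as
in HUR. For `t < T` the coefficient of `s^t` is a polynomial `Φ_t(x,y)`, of degree `≤ n` in `x` and in `y`, so a
polynomial of degree `≤ 2n` in `a` and in `b`, which vanishes for `a, b ∈ {0, .., 2n}`: it is zero, and as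
`(a,b) ↦ (x,y)` is an affine bijection of `ℂ²` (`v, η ≠ 0`, `τ ≠ τ̄`), `Φ_t = 0`. So with `h_ik(s) = ∑_j f_ijk p(s)^j` the
coefficient of `x^i y^k`, `∑_(i' ≥ i, k' ≥ k) C(i',i) C(k',k) s^(i'-i) q(s)^(k'-k) h_(i'k')(s)`, is `O(s^T)`; by downward
induction on `i + k` all `h_ik = O(s^T)`. `p(s) - 1 = ((6-c)/2) s² + ..` has a zero of order exactly two; if
`∑_j f_ijk Y^j = (Y-1)^m u(Y)`, `u(1) ≠ 0`, then `2m ≥ T > 2n`, impossible for a nonzero polynomial of degree `≤ n`. -/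
def St_ZES : Prop := ∀ (D : Dat) (n T : ℕ) (f : ℕ → ℕ → ℕ → ℂ), 2 * n < T →
  (∀ a b : ℤ, 0 ≤ a → a ≤ 2 * n → 0 ≤ b → b ≤ 2 * n → ∀ t < T,
    iteratedDeriv t (D.fn n f) (D.pt a b) = 0) →
  ∀ i j k : ℕ, i ≤ n → j ≤ n → k ≤ n → f i j k = 0

/-- [GRW] growth.
Proof. `W = ∑ f_ijk z^i A^j B^k g^(3n-2j-k)`; `(n+1)^3 ≤ exp(3n)`, `|z|^i ≤ exp(n (1+|z|²))`. -/
def St_GRW : Prop := ∀ D : Dat, ∃ C : ℝ, 1 ≤ C ∧ ∀ (n : ℕ) (K : ℝ) (f : ℕ → ℕ → ℕ → ℂ), 1 ≤ n →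
  0 ≤ K → (∀ i j k, ‖f i j k‖ ≤ K) → ∃ W : ℂ → ℂ, Differentiable ℂ W ∧
    (∀ z : ℂ, (∀ a b : ℤ, z ≠ D.v * (a + b * D.tau)) → W z = D.g z ^ (3 * n) * D.fn n f z) ∧
    ∀ z, ‖W z‖ ≤ K * Real.exp (C * n * (1 + ‖z‖ ^ 2))

/-- [SCW] Schwarz's lemma.
Proof. `W = W₁ ∏_(p ∈ Q) (z - p)^T` with `W₁` entire (induction on `Q` and `T`: `dslope`; vanishing of the derivatives of
order `< T` at the other points is preserved; or `AnalyticAt` order). On `|z| = R`: `|W₁| ≤ K / (R-r)^(T |Q|)`, maximum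
principle, and `|z - p| ≤ 2r` for `|z| ≤ r`. (Compare `Helper8/SLAnalytic.lean`, `KT/VO.lean`.) -/
def St_SCW : Prop := ∀ (W : ℂ → ℂ) (Q : Finset ℂ) (T : ℕ) (r R K : ℝ), Differentiable ℂ W → 0 < r →
  r < R → (∀ p ∈ Q, ‖p‖ ≤ r) → (∀ p ∈ Q, ∀ t < T, iteratedDeriv t W p = 0) →
  (∀ z : ℂ, ‖z‖ = R → ‖W z‖ ≤ K) →
  ∀ z : ℂ, ‖z‖ ≤ r → ‖W z‖ ≤ K * (2 * r / (R - r)) ^ (T * Q.card)

/-- [UPP] the upper bound. Hypotheses: `St_GRW`, `St_SCW`.
Proof. `W` from GRW. `W = g^(3n) fn` near each `pt a b` (`off`), so by Leibniz `W` has zeros of order `≥ T` at the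
`(2S+1)^2 ≥ 4S²` different points `pt a b`, `|a|, |b| ≤ S`. All points of the closed discs of radius `eps` around `pt a b`,
`|a|, |b| ≤ S+1`, are in `|z| ≤ r := C₀ S` (`S ≥ 1`; `|τ| = 1`). SCW with `R = (1 + 2e) r`: on `|z| ≤ r`,
`|W| ≤ K exp(C₁ n S²) exp(-T (2S+1)²)`. On the circle `|z - pt a b| = eps`: `|g| ≥ exp(-C(1+|z|²))` (`low`), so
`|fn| ≤ K exp(C₂ n S² - 4 T S²)`; Cauchy's estimate for the `t`-th derivative (`fn` is differentiable on the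
closed disc, `off`). -/
def St_UPP : Prop := ∀ D : Dat, ∃ C : ℝ, 1 ≤ C ∧ ∀ (n T S : ℕ) (K : ℝ) (f : ℕ → ℕ → ℕ → ℂ), 1 ≤ n →
  1 ≤ S → 0 ≤ K → (∀ i j k, ‖f i j k‖ ≤ K) →
  (∀ a b : ℤ, |a| ≤ S → |b| ≤ S → ∀ t < T, iteratedDeriv t (D.fn n f) (D.pt a b) = 0) →
  ∀ (a b : ℤ) (t : ℕ), |a| ≤ S + 1 → |b| ≤ S + 1 →
    ‖iteratedDeriv t (D.fn n f) (D.pt a b)‖ ≤
      K * t.factorial * Real.exp (C * t + C * n * S ^ 2 - 4 * T * S ^ 2)

/-- [AUX] the function with many zeros. Hypotheses: `St_SGL`, `St_VAL`.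
Proof. `n = E^4`, `T = E^6`, `S₀ = E^3 / k` (natural division, `k` a large constant). SGL for the `(n+1)^3`
unknowns `(i,j,k)` and the `2 T (2 S₀ + 1)^2` conditions `G₀`, `G₁` of VAL (for all `|a|,|b| ≤ S₀`, `t < T`), with
`D = n`, `H = C E^7` (`log (T+2) ≤ C E`): `C₁ · 2 T (2S₀+1)² ≤ 2 C₁ E^6 (2E^3/k + 1)² ≤ E^12 ≤ (n+1)^3` for large `k`, `E`. `F u` is
extended by `0` for `i, j` or `k > n`. -/
def St_AUX : Prop := ∀ D : Dat, Td1 D.v D.eta → ∃ (C : ℝ) (k₀ : ℕ), 1 ≤ C ∧ 1 ≤ k₀ ∧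
  ∀ᶠ E : ℕ in atTop, ∃ F : ℕ → ℕ → ℕ → MvPolynomial (Fin 2) ℤ,
    (∀ i j k, Bd (E ^ 4) (C * E ^ 7) (F i j k)) ∧
    (∃ i j k, i ≤ E ^ 4 ∧ j ≤ E ^ 4 ∧ k ≤ E ^ 4 ∧ val D.v D.eta (F i j k) ≠ 0) ∧
    ∀ a b : ℤ, |a| ≤ (E ^ 3 / k₀ : ℕ) → |b| ≤ (E ^ 3 / k₀ : ℕ) → ∀ t < E ^ 6,
      iteratedDeriv t (D.fn (E ^ 4) fun i j k => (val D.v D.eta (F i j k) : ℂ)) (D.pt a b) = 0

/-- [MAX] the small value. Hypotheses: `St_AUX`, `St_VAL`, `St_ZES`, `St_UPP`.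
Proof. `F` from AUX, `n = E^4`, `T = E^6`, `f = val F`. `𝒬(S)`: the derivatives of order `< T` vanish at all `pt a b`,
`|a|, |b| ≤ S`. `𝒬(S₀)` holds (`S₀ = E^3/k₀ ≥ 1`), `𝒬(2n)` fails (ZES, `2n < T`). So there is `S`, `S₀ ≤ S < 2n`, with `𝒬(S)` and
not `𝒬(S+1)`: `|a|, |b| ≤ S+1`, `t < T` with `w = iteratedDeriv t (fn n f) (pt a b) ≠ 0`. By VAL (for each monomial, linearity of
`iteratedDeriv`) `4^n w = V₀ + τ V₁`, `V_e = ∑ val (F ijk * G_e ijk)` real, polynomials `Φ_e = ∑ F_ijk G_e,ijk` with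
`Bd (2n) (C E^7)` (product: at most `(n+1)²` terms for each coefficient, `(n+1)^3` summands, `exp` bounds; `S+1 ≤ 2n`,
`log ≤ C E`). UPP with `K = exp(C E^7) ≥ |f|` (`|val G| ≤ (n+1)² exp(s) max(1,|v|,|η|)^(2n)`): `|w| ≤ K T! exp(C T + C n S² - 4 T S²)
≤ exp(C E^7 - 3 T S²) ≤ exp(-c E^12)` (`C n ≤ T`, `S ≥ S₀ ≥ E³/(2k₀)`). `V₁ = Im(4^n w)/Im τ`, `V₀ = Re(4^n w) - Re τ V₁` are both `≤ exp(-c' E^12)` in
absolute value and one of them is not zero. -/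
def St_MAX : Prop := ∀ D : Dat, Td1 D.v D.eta → ∃ C : ℝ, 1 ≤ C ∧
  ∀ᶠ E : ℕ in atTop, ∃ G : MvPolynomial (Fin 2) ℤ, Bd (C * E ^ 4) (C * E ^ 7) G ∧
    val D.v D.eta G ≠ 0 ∧ |val D.v D.eta G| ≤ Real.exp (-(E ^ 12 / C))

/-- [IND] Hypotheses: `St_MAX`, `St_GL2`.
Proof. Otherwise `Td1 v η` (if both were algebraic then `π = v η Im τ` would be algebraic:
`Pool.Agent.Helper23` `transcendental_pi` in `Helper23/PiTrans.lean`; `Im τ = 1` or `√3/2`: `(Im τ)² = 1` or `3/4` from `htau`),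
MAX contradicts GL2. -/
def St_IND : Prop := ∀ D : Dat, AlgebraicIndependent ℚ ![D.v, D.eta]

/-! ### The result of part (A) -/

/-- existence of the data for the square lattice (block E) -/
def St_DAT4 : Prop := ∃ D : Dat, D.v = per 4 / 2

/-- existence of the data for the hexagonal lattice (block E) -/
def St_DAT6 : Prop := ∃ D : Dat, D.v = per 6 / √3

/-- [CHU] Chudnovsky's theorem. Hypotheses: `St_DAT4`, `St_DAT6`, `St_IND`, `St_TRD`.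
Proof. `per N = a v`, `π = b (v η)` with algebraic `a, b ≠ 0` (`b = Im τ`, see IND). -/
def St_CHU : Prop := ∀ N : ℕ, N = 4 ∨ N = 6 → AlgebraicIndependent ℚ ![per N, Real.pi]

end Pool.Agent.QP
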