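import Mathlib
import Pool.Agent.QP.St
import Pool.Agent.Helper23.PiTrans

/-!
# Quarter periods, module IND
-/

set_option autoImplicit false

namespace Pool.Agent.QP

private theorem IND_im (D : Dat) : IsAlgebraic ℚ D.tau.im := by
  have h : D.tau.im ^ 2 = 1 ∨ D.tau.im ^ 2 = 3 / 4 := by
    rcases D.htau with h | h
    · left
      have h1 := congrArg Complex.re h
      have h2 := congrArg Complex.im h
      rw [pow_two] at h1 h2
      simp only [Complex.mul_re, Complex.mul_im, Complex.neg_re, Complex.neg_im, Complex.one_re,
        Complex.one_im] at h1 h2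
      have h3 : D.tau.re = 0 := by
        have h4 : 2 * D.tau.re * D.tau.im = 0 := by linarith
        rcases mul_eq_zero.mp h4 with h5 | h5
        · linarith
        · exact absurd h5 D.him.ne'
      rw [h3] at h1
      nlinarith
    · right
      have h1 := congrArg Complex.re h
      have h2 := congrArg Complex.im h
      rw [pow_two] at h1 h2
      simp only [Complex.mul_re, Complex.mul_im, Complex.neg_re, Complex.neg_im, Complex.one_re,
        Complex.one_im, Complex.sub_re, Complex.sub_im] at h1 h2
      have h3 : D.tau.re = -1 / 2 := by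
        have h4 : (2 * D.tau.re + 1) * D.tau.im = 0 := by linarith
        rcases mul_eq_zero.mp h4 with h5 | h5
        · linarith
        · exact absurd h5 D.him.ne'
      rw [h3] at h1
      nlinarith
  have h2 : IsAlgebraic ℚ (D.tau.im ^ 2) := by
    rcases h with h | h
    · rw [h]
      exact isAlgebraic_one
    · rw [h]
      have h3 : (3 / 4 : ℝ) = algebraMap ℚ ℝ (3 / 4) := by norm_num
      rw [h3]
      exact isAlgebraic_algebraMap _
  exact IsAlgebraic.of_pow two_pos h2

theorem thm_IND (hM : St_MAX) (hG : St_GL2) : St_IND := by
  intro D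
  by_contra h
  have hT : Td1 D.v D.eta := by
    refine ⟨h, ?_⟩
    by_contra hc
    rw [not_or] at hc
    have hv : IsAlgebraic ℚ D.v := by
      by_contra h1
      exact hc.1 h1
    have he : IsAlgebraic ℚ D.eta := by
      by_contra h1
      exact hc.2 h1
    have hpi : IsAlgebraic ℚ Real.pi := by
      rw [← D.leg]
      exact (hv.mul he).mul (IND_im D)
    exact Pool.Agent.Helper23.PiT.transcendental_pi hpi
  obtain ⟨C, hC, hE⟩ := hM D hT
  exact hG D.v D.eta hT C hC hE

end Pool.Agent.QP
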