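import Pool.Agent.QP.St

/-!
# Quarter periods: the small value (module MAX, helper6)
-/

set_option autoImplicit false

open Complex Filter Polynomial
open scoped Topology BigOperators

namespace Pool.Agent.QP

/-! ### Polynomials -/

theorem MAX_card {n : ℕ} {G : MvPolynomial (Fin 2) ℤ} (h : ∀ i, (G.degreeOf i : ℝ) ≤ n) :
    G.support.card ≤ (n + 1) ^ 2 := by
  have h1 : ∀ i, G.degreeOf i ≤ n := fun i => by exact_mod_cast h i
  have h2 : (Finset.range (n + 1) ×ˢ Finset.range (n + 1)).card = (n + 1) ^ 2 := by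
    rw [Finset.card_product, Finset.card_range, pow_two]
  rw [← h2]
  refine Finset.card_le_card_of_injOn (fun e => (e 0, e 1)) ?_ ?_
  · intro e he
    have h3 := (MvPolynomial.monomial_le_degreeOf (0 : Fin 2) he).trans (h1 0)
    have h4 := (MvPolynomial.monomial_le_degreeOf (1 : Fin 2) he).trans (h1 1)
    simp only [Finset.coe_product, Finset.coe_range, Set.mem_prod, Set.mem_Iio]
    exact ⟨by omega, by omega⟩
  · intro e _ e' _ h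
    simp only [Prod.mk.injEq] at h
    refine Finsupp.ext fun i => ?_
    fin_cases i
    · exact h.1
    · exact h.2

theorem MAX_coeff_mul {n : ℕ} {s₁ s₂ : ℝ} {F G : MvPolynomial (Fin 2) ℤ} (hF : Bd n s₁ F)
    (hG : ∀ e, |((G.coeff e : ℤ) : ℝ)| ≤ Real.exp s₂) (e : Fin 2 →₀ ℕ) :
    |(((F * G).coeff e : ℤ) : ℝ)| ≤ ((n : ℝ) + 1) ^ 2 * Real.exp (s₁ + s₂) := by
  classical
  rw [MvPolynomial.coeff_mul, Int.cast_sum]
  have h1 : ∑ x ∈ Finset.HasAntidiagonal.antidiagonal e, ((F.coeff x.1 * G.coeff x.2 : ℤ) : ℝ) =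
      ∑ x ∈ (Finset.HasAntidiagonal.antidiagonal e).filter (fun x => x.1 ∈ F.support),
        ((F.coeff x.1 * G.coeff x.2 : ℤ) : ℝ) := by
    rw [Finset.sum_filter]
    refine Finset.sum_congr rfl fun x _ => ?_
    split_ifs with h
    · rfl
    · rw [MvPolynomial.notMem_support_iff.1 h, zero_mul, Int.cast_zero]
  rw [h1]
  refine (Finset.abs_sum_le_sum_abs _ _).trans ?_
  have h2 : ∀ x ∈ (Finset.HasAntidiagonal.antidiagonal e).filter (fun x => x.1 ∈ F.support),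
      |((F.coeff x.1 * G.coeff x.2 : ℤ) : ℝ)| ≤ Real.exp (s₁ + s₂) := by
    intro x _
    rw [Int.cast_mul, abs_mul, Real.exp_add]
    exact mul_le_mul (hF.2 _) (hG _) (abs_nonneg _) (Real.exp_pos _).le
  refine (Finset.sum_le_card_nsmul _ _ _ h2).trans ?_
  rw [nsmul_eq_mul]
  refine mul_le_mul_of_nonneg_right ?_ (Real.exp_pos _).le
  have h3 : ((Finset.HasAntidiagonal.antidiagonal e).filter (fun x => x.1 ∈ F.support)).card ≤
      F.support.card := by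
    refine Finset.card_le_card_of_injOn Prod.fst ?_ ?_
    · intro x hx
      exact (Finset.mem_filter.1 hx).2
    · intro x hx y hy h
      have h4 := Finset.HasAntidiagonal.mem_antidiagonal.1 (Finset.mem_filter.1 hx).1
      have h5 := Finset.HasAntidiagonal.mem_antidiagonal.1 (Finset.mem_filter.1 hy).1
      refine Prod.ext h ?_
      rw [← h5, h] at h4
      exact add_left_cancel h4
  exact_mod_cast h3.trans (MAX_card hF.1)

theorem MAX_deg_mul {n : ℕ} {s₁ s₂ : ℝ} {F G : MvPolynomial (Fin 2) ℤ} (hF : Bd n s₁ F)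
    (hG : Bd n s₂ G) (i : Fin 2) : (((F * G).degreeOf i : ℕ) : ℝ) ≤ 2 * n := by
  have h1 : (((F * G).degreeOf i : ℕ) : ℝ) ≤ ((F.degreeOf i + G.degreeOf i : ℕ) : ℝ) := by
    exact_mod_cast MvPolynomial.degreeOf_mul_le i F G
  rw [Nat.cast_add] at h1
  linarith [hF.1 i, hG.1 i]

/-- degrees at most `d`, coefficients at most `B` -/
def MAX_B (d B : ℝ) (G : MvPolynomial (Fin 2) ℤ) : Prop :=
  (∀ i, (G.degreeOf i : ℝ) ≤ d) ∧ ∀ e, |((G.coeff e : ℤ) : ℝ)| ≤ B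

theorem MAX_sum1 {n : ℕ} {d B : ℝ} (hd : 0 ≤ d) (P : ℕ → MvPolynomial (Fin 2) ℤ)
    (h : ∀ i ∈ Finset.range (n + 1), MAX_B d B (P i)) :
    MAX_B d (((n : ℝ) + 1) * B) (∑ i ∈ Finset.range (n + 1), P i) := by
  refine ⟨fun i => ?_, fun e => ?_⟩
  · have h1 : (∑ j ∈ Finset.range (n + 1), P j).degreeOf i ≤ ⌊d⌋₊ := by
      refine (MvPolynomial.degreeOf_sum_le i _ _).trans ?_
      refine Finset.sup_le fun j hj => ?_
      exact Nat.le_floor ((h j hj).1 i)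
    calc (((∑ j ∈ Finset.range (n + 1), P j).degreeOf i : ℕ) : ℝ) ≤ (⌊d⌋₊ : ℝ) := by
          exact_mod_cast h1
      _ ≤ d := Nat.floor_le hd
  · rw [MvPolynomial.coeff_sum, Int.cast_sum]
    refine (Finset.abs_sum_le_sum_abs _ _).trans ?_
    refine (Finset.sum_le_card_nsmul _ _ _ fun j hj => (h j hj).2 e).trans ?_
    rw [nsmul_eq_mul, Finset.card_range, Nat.cast_add, Nat.cast_one]

theorem MAX_pow_le (n : ℕ) (m : ℕ) : ((n : ℝ) + 1) ^ m ≤ Real.exp (m * n) := by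
  rw [Real.exp_nat_mul]
  exact pow_le_pow_left₀ (by positivity) (Real.add_one_le_exp _) _

theorem MAX_sum3 {n : ℕ} {s₁ s₂ : ℝ} (F G : ℕ → ℕ → ℕ → MvPolynomial (Fin 2) ℤ)
    (hF : ∀ i j k, Bd n s₁ (F i j k))
    (hG : ∀ i j k, i ≤ n → j ≤ n → k ≤ n → Bd n s₂ (G i j k)) :
    Bd (2 * n) (5 * n + s₁ + s₂) (∑ i ∈ Finset.range (n + 1), ∑ j ∈ Finset.range (n + 1),
      ∑ k ∈ Finset.range (n + 1), F i j k * G i j k) := by
  have hd : (0 : ℝ) ≤ 2 * n := by positivity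
  have h0 : ∀ i ∈ Finset.range (n + 1), ∀ j ∈ Finset.range (n + 1),
      ∀ k ∈ Finset.range (n + 1),
      MAX_B (2 * n) (((n : ℝ) + 1) ^ 2 * Real.exp (s₁ + s₂)) (F i j k * G i j k) := by
    intro i hi j hj k hk
    rw [Finset.mem_range] at hi hj hk
    have h1 := hG i j k (by omega) (by omega) (by omega)
    exact ⟨fun l => MAX_deg_mul (hF i j k) h1 l, fun e => MAX_coeff_mul (hF i j k) h1.2 e⟩
  have h1 := MAX_sum1 hd (fun i => ∑ j ∈ Finset.range (n + 1),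
      ∑ k ∈ Finset.range (n + 1), F i j k * G i j k) (fun i hi =>
    MAX_sum1 hd (fun j => ∑ k ∈ Finset.range (n + 1), F i j k * G i j k) (fun j hj =>
      MAX_sum1 hd (fun k => F i j k * G i j k) (fun k hk => h0 i hi j hj k hk)))
  refine ⟨h1.1, fun e => (h1.2 e).trans ?_⟩
  have h2 := MAX_pow_le n 5
  have h3 : (5 * (n : ℝ) + s₁ + s₂) = ((5 : ℕ) : ℝ) * n + (s₁ + s₂) := by
    push_cast
    ring
  rw [h3]
  calc ((n : ℝ) + 1) * (((n : ℝ) + 1) * (((n : ℝ) + 1) *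
        (((n : ℝ) + 1) ^ 2 * Real.exp (s₁ + s₂)))) =
        ((n : ℝ) + 1) ^ 5 * Real.exp (s₁ + s₂) := by ring
    _ ≤ Real.exp (((5 : ℕ) : ℝ) * n) * Real.exp (s₁ + s₂) :=
        mul_le_mul_of_nonneg_right h2 (Real.exp_pos _).le
    _ = _ := (Real.exp_add _ _).symm

theorem MAX_val {n : ℕ} {s μ x y : ℝ} {G : MvPolynomial (Fin 2) ℤ} (hG : Bd n s G)
    (hμ : 0 ≤ μ) (hx : |x| ≤ Real.exp μ) (hy : |y| ≤ Real.exp μ) :
    |val x y G| ≤ Real.exp (2 * n + s + 2 * n * μ) := by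
  have hM : 1 ≤ Real.exp μ := Real.one_le_exp hμ
  unfold val
  rw [MvPolynomial.aeval_def, MvPolynomial.eval₂_eq']
  refine (Finset.abs_sum_le_sum_abs _ _).trans ?_
  have hp : ∀ (z : ℝ) (i : Fin 2) (e : Fin 2 →₀ ℕ), e ∈ G.support → |z| ≤ Real.exp μ →
      |z ^ e i| ≤ Real.exp μ ^ n := by
    intro z i e he hz
    rw [abs_pow]
    have h1 : e i ≤ n := by
      have h2 := (MvPolynomial.monomial_le_degreeOf i he)
      have h3 : G.degreeOf i ≤ n := by exact_mod_cast hG.1 i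
      exact h2.trans h3
    exact (pow_le_pow_left₀ (abs_nonneg _) hz _).trans (pow_le_pow_right₀ hM h1)
  have h2 : ∀ e ∈ G.support, |algebraMap ℤ ℝ (G.coeff e) * ∏ i, ![x, y] i ^ e i| ≤
      Real.exp s * (Real.exp μ ^ n * Real.exp μ ^ n) := by
    intro e he
    rw [Fin.prod_univ_two, abs_mul, abs_mul]
    refine mul_le_mul ?_ (mul_le_mul (hp x 0 e he hx) (hp y 1 e he hy) (abs_nonneg _)
      (by positivity)) (by positivity) (Real.exp_pos _).le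
    have h3 := hG.2 e
    exact h3
  refine (Finset.sum_le_card_nsmul _ _ _ h2).trans ?_
  rw [nsmul_eq_mul]
  have h4 : (G.support.card : ℝ) ≤ Real.exp (2 * n) := by
    have h5 : (G.support.card : ℝ) ≤ ((n : ℝ) + 1) ^ 2 := by exact_mod_cast MAX_card hG.1
    have h6 := MAX_pow_le n 2
    push_cast at h6
    exact h5.trans h6
  have h7 : Real.exp (2 * n + s + 2 * n * μ) =
      Real.exp (2 * n) * (Real.exp s * (Real.exp μ ^ n * Real.exp μ ^ n)) := by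
    rw [← Real.exp_nat_mul, ← Real.exp_add, ← Real.exp_add, ← Real.exp_add]
    congr 1
    ring
  rw [h7]
  exact mul_le_mul_of_nonneg_right h4 (by positivity)

/-! ### Linearity -/

theorem MAX_ball (D : Dat) (a b : ℤ) {z : ℂ} (hz : z ∈ Metric.ball (D.pt a b) D.eps) :
    ∀ m n : ℤ, z ≠ D.v * (m + n * D.tau) := by
  intro m n
  have h1 : ‖z - D.pt a b‖ ≤ D.eps := by
    rw [Metric.mem_ball, dist_eq_norm] at hz
    exact hz.le
  have h2 := D.off a b (z - D.pt a b) h1 m n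
  have h3 : (D.v / 2 + D.v * (a + b * D.tau) + (z - D.pt a b) : ℂ) = z := by
    unfold Dat.pt
    ring
  rw [h3] at h2
  exact h2

theorem MAX_cdP (D : Dat) (a b : ℤ) (t : ℕ) : ContDiffAt ℂ t D.P (D.pt a b) := by
  have h : DifferentiableOn ℂ D.P (Metric.ball (D.pt a b) D.eps) := fun z hz =>
    (D.dP z (MAX_ball D a b hz)).differentiableAt.differentiableWithinAt
  exact (h.contDiffOn Metric.isOpen_ball).contDiffAt (Metric.ball_mem_nhds _ D.heps)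

theorem MAX_cdZ (D : Dat) (a b : ℤ) (t : ℕ) : ContDiffAt ℂ t D.Z (D.pt a b) := by
  have h : DifferentiableOn ℂ D.Z (Metric.ball (D.pt a b) D.eps) := fun z hz =>
    (D.dZ z (MAX_ball D a b hz)).differentiableAt.differentiableWithinAt
  exact (h.contDiffOn Metric.isOpen_ball).contDiffAt (Metric.ball_mem_nhds _ D.heps)

theorem MAX_fn (D : Dat) (n t : ℕ) (f : ℕ → ℕ → ℕ → ℂ) (a b : ℤ) :
    iteratedDeriv t (D.fn n f) (D.pt a b) = ∑ i ∈ Finset.range (n + 1),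
      ∑ j ∈ Finset.range (n + 1), ∑ k ∈ Finset.range (n + 1),
        f i j k * iteratedDeriv t (fun z : ℂ => z ^ i * D.P z ^ j * D.Z z ^ k) (D.pt a b) := by
  have cd : ∀ i j k : ℕ, ContDiffAt ℂ t (fun z : ℂ => z ^ i * D.P z ^ j * D.Z z ^ k)
      (D.pt a b) := fun i j k =>
    ((contDiffAt_id.pow i).mul ((MAX_cdP D a b t).pow j)).mul ((MAX_cdZ D a b t).pow k)
  have cd1 : ∀ i j k : ℕ, ContDiffAt ℂ t (fun z : ℂ => f i j k *
      (z ^ i * D.P z ^ j * D.Z z ^ k)) (D.pt a b) := fun i j k =>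
    contDiffAt_const.mul (cd i j k)
  have cd2 : ∀ i j : ℕ, ContDiffAt ℂ t (fun z : ℂ => ∑ k ∈ Finset.range (n + 1), f i j k *
      (z ^ i * D.P z ^ j * D.Z z ^ k)) (D.pt a b) := fun i j =>
    ContDiffAt.sum fun k _ => cd1 i j k
  have cd3 : ∀ i : ℕ, ContDiffAt ℂ t (fun z : ℂ => ∑ j ∈ Finset.range (n + 1),
      ∑ k ∈ Finset.range (n + 1), f i j k *
      (z ^ i * D.P z ^ j * D.Z z ^ k)) (D.pt a b) := fun i =>
    ContDiffAt.sum fun j _ => cd2 i j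
  have h0 : D.fn n f = fun z => ∑ i ∈ Finset.range (n + 1), ∑ j ∈ Finset.range (n + 1),
      ∑ k ∈ Finset.range (n + 1), f i j k * (z ^ i * D.P z ^ j * D.Z z ^ k) := rfl
  rw [h0, iteratedDeriv_fun_sum fun i _ => cd3 i]
  refine Finset.sum_congr rfl fun i _ => ?_
  rw [iteratedDeriv_fun_sum fun j _ => cd2 i j]
  refine Finset.sum_congr rfl fun j _ => ?_
  rw [iteratedDeriv_fun_sum fun k _ => cd1 i j k]
  refine Finset.sum_congr rfl fun k _ => ?_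
  exact iteratedDeriv_const_mul _ (cd i j k)

/-! ### The maximal square -/

theorem MAX_step (hZ : St_ZES) (D : Dat) {n T S₀ : ℕ} {f : ℕ → ℕ → ℕ → ℂ} (hnT : 2 * n < T)
    (hS : S₀ ≤ 2 * n) (hf : ∃ i j k, i ≤ n ∧ j ≤ n ∧ k ≤ n ∧ f i j k ≠ 0)
    (h0 : ∀ a b : ℤ, |a| ≤ S₀ → |b| ≤ S₀ → ∀ t < T,
      iteratedDeriv t (D.fn n f) (D.pt a b) = 0) :
    ∃ S : ℕ, S₀ ≤ S ∧ S < 2 * n ∧ (∀ a b : ℤ, |a| ≤ S → |b| ≤ S → ∀ t < T,
        iteratedDeriv t (D.fn n f) (D.pt a b) = 0) ∧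
      ∃ (a b : ℤ) (t : ℕ), |a| ≤ S + 1 ∧ |b| ≤ S + 1 ∧ t < T ∧
        iteratedDeriv t (D.fn n f) (D.pt a b) ≠ 0 := by
  by_contra hcon
  have H : ∀ S : ℕ, S₀ ≤ S → S < 2 * n → (∀ a b : ℤ, |a| ≤ S → |b| ≤ S → ∀ t < T,
        iteratedDeriv t (D.fn n f) (D.pt a b) = 0) → ∀ a b : ℤ, |a| ≤ ((S + 1 : ℕ) : ℤ) →
      |b| ≤ ((S + 1 : ℕ) : ℤ) → ∀ t < T, iteratedDeriv t (D.fn n f) (D.pt a b) = 0 := by
    intro S h1 h2 h3 a b ha hb t ht
    by_contra h4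
    rw [Nat.cast_add, Nat.cast_one] at ha hb
    exact hcon ⟨S, h1, h2, h3, a, b, t, ha, hb, ht, h4⟩
  have H2 : ∀ m : ℕ, S₀ + m ≤ 2 * n → ∀ a b : ℤ, |a| ≤ ((S₀ + m : ℕ) : ℤ) →
      |b| ≤ ((S₀ + m : ℕ) : ℤ) → ∀ t < T, iteratedDeriv t (D.fn n f) (D.pt a b) = 0 := by
    intro m
    induction m with
    | zero =>
      intro _ a b ha hb
      exact h0 a b ha hb
    | succ m ih =>
      intro hm
      exact H (S₀ + m) (by omega) (by omega) (ih (by omega))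
  have H3 := H2 (2 * n - S₀) (by omega)
  have e : S₀ + (2 * n - S₀) = 2 * n := by omega
  rw [e] at H3
  obtain ⟨i, j, k, hi, hj, hk, hne⟩ := hf
  refine hne (hZ D n T f hnT ?_ i j k hi hj hk)
  intro a b ha1 ha2 hb1 hb2 t ht
  refine H3 a b ?_ ?_ t ht
  · rw [abs_of_nonneg ha1]
    push_cast
    exact ha2
  · rw [abs_of_nonneg hb1]
    push_cast
    exact hb2

/-! ### Numerical facts -/

theorem MAX_mono {d d' s s' : ℝ} {G : MvPolynomial (Fin 2) ℤ} (h : Bd d s G) (hd : d ≤ d')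
    (hs : s ≤ s') : Bd d' s' G :=
  ⟨fun i => (h.1 i).trans hd, fun e => (h.2 e).trans (Real.exp_le_exp.2 hs)⟩

theorem MAX_log {x E : ℝ} (hx : 0 < x) (hE : 0 ≤ E) (h : x ≤ E ^ 7) : Real.log x ≤ 7 * E := by
  rw [Real.log_le_iff_le_exp hx]
  have h1 : E ≤ Real.exp E := by linarith [Real.add_one_le_exp E]
  have h2 : E ^ 7 ≤ Real.exp E ^ 7 := pow_le_pow_left₀ hE h1 7
  have h3 : Real.exp (7 * E) = Real.exp E ^ 7 := by
    rw [← Real.exp_nat_mul]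
    norm_num
  rw [h3]
  exact h.trans h2

theorem MAX_fact {E t : ℕ} (ht : t < E ^ 6) : (t.factorial : ℝ) ≤ Real.exp (6 * (E : ℝ) ^ 7) := by
  have h1 : t.factorial ≤ (E ^ 6) ^ (E ^ 6) :=
    (Nat.factorial_le ht.le).trans (Nat.factorial_le_pow (E ^ 6))
  have h2 : (E : ℝ) ≤ Real.exp E := by linarith [Real.add_one_le_exp (E : ℝ)]
  have h3 : (((E ^ 6) ^ (E ^ 6) : ℕ) : ℝ) ≤ (Real.exp E ^ 6) ^ (E ^ 6) := by
    push_cast
    exact pow_le_pow_left₀ (by positivity) (pow_le_pow_left₀ (by positivity) h2 6) _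
  have h4 : (Real.exp (E : ℝ) ^ 6) ^ (E ^ 6) = Real.exp (6 * (E : ℝ) ^ 7) := by
    rw [← pow_mul, ← Real.exp_nat_mul]
    congr 1
    push_cast
    ring
  calc (t.factorial : ℝ) ≤ (((E ^ 6) ^ (E ^ 6) : ℕ) : ℝ) := by exact_mod_cast h1
    _ ≤ _ := h3
    _ = _ := h4

/-- real and imaginary parts -/
theorem MAX_reim {τ : ℂ} (hτ : 0 < τ.im) {x y : ℝ} :
    |x| ≤ (1 + (1 + |τ.re|) / τ.im) * ‖(x : ℂ) + τ * y‖ ∧
    |y| ≤ (1 + (1 + |τ.re|) / τ.im) * ‖(x : ℂ) + τ * y‖ := by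
  have h1 : |τ.im * y| ≤ ‖(x : ℂ) + τ * y‖ := by
    have h := Complex.abs_im_le_norm ((x : ℂ) + τ * y)
    simpa using h
  have h2 : |x + τ.re * y| ≤ ‖(x : ℂ) + τ * y‖ := by
    have h := Complex.abs_re_le_norm ((x : ℂ) + τ * y)
    simpa using h
  obtain ⟨N, hN⟩ : ∃ N, N = ‖(x : ℂ) + τ * y‖ := ⟨_, rfl⟩
  rw [← hN] at h1 h2 ⊢
  have hN0 : 0 ≤ N := by
    rw [hN]
    exact norm_nonneg _
  have h3 : |y| ≤ N / τ.im := by
    rw [le_div_iff₀ hτ]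
    rw [abs_mul, abs_of_pos hτ] at h1
    linarith
  have h4 : (1 + (1 + |τ.re|) / τ.im) * N = N + N / τ.im + |τ.re| * (N / τ.im) := by
    field_simp
    ring
  have h5 : 0 ≤ N / τ.im := by positivity
  have h6 : 0 ≤ |τ.re| * (N / τ.im) := by positivity
  rw [h4]
  constructor
  · have h7 : |x| ≤ |x + τ.re * y| + |τ.re * y| := by
      have h8 : x = (x + τ.re * y) - τ.re * y := by ring
      calc |x| = |(x + τ.re * y) - τ.re * y| := by rw [← h8]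
        _ ≤ _ := abs_sub _ _
    rw [abs_mul] at h7
    have h9 : |τ.re| * |y| ≤ |τ.re| * (N / τ.im) :=
      mul_le_mul_of_nonneg_left h3 (abs_nonneg _)
    linarith
  · linarith

/-- the final inequality for the exponents -/
theorem MAX_fin {x k S C C₂ : ℝ} (hx : 1 ≤ x) (hk : 1 ≤ k) (hC : 4 * k ^ 2 ≤ C)
    (hS : x ^ 3 ≤ 2 * k * S) (hx2 : 2 * k ^ 2 * C₂ ≤ x) :
    C₂ * x ^ 7 - 3 * (x ^ 6 * S ^ 2) ≤ -(x ^ 12 / C) := by
  have hx0 : 0 < x := by linarith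
  have hk0 : 0 < k := by linarith
  have hC0 : 0 < C := lt_of_lt_of_le (by positivity) hC
  have h1 : x ^ 6 ≤ 4 * k ^ 2 * S ^ 2 := by
    have h := pow_le_pow_left₀ (by positivity) hS 2
    calc x ^ 6 = (x ^ 3) ^ 2 := by ring
      _ ≤ (2 * k * S) ^ 2 := h
      _ = _ := by ring
  have h2 : x ^ 12 ≤ 4 * k ^ 2 * (x ^ 6 * S ^ 2) := by
    calc x ^ 12 = x ^ 6 * x ^ 6 := by ring
      _ ≤ x ^ 6 * (4 * k ^ 2 * S ^ 2) := mul_le_mul_of_nonneg_left h1 (by positivity)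
      _ = _ := by ring
  have h3 : x ^ 12 / C ≤ x ^ 6 * S ^ 2 := by
    rw [div_le_iff₀ hC0]
    calc x ^ 12 ≤ 4 * k ^ 2 * (x ^ 6 * S ^ 2) := h2
      _ ≤ C * (x ^ 6 * S ^ 2) := mul_le_mul_of_nonneg_right hC (by positivity)
      _ = _ := by ring
  have h4 : 2 * k ^ 2 * (C₂ * x ^ 7) ≤ 2 * k ^ 2 * (2 * (x ^ 6 * S ^ 2)) := by
    have h5 : x ≤ x ^ 5 := le_self_pow₀ hx (by norm_num)
    calc 2 * k ^ 2 * (C₂ * x ^ 7) = (2 * k ^ 2 * C₂) * x ^ 7 := by ring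
      _ ≤ x ^ 5 * x ^ 7 := mul_le_mul_of_nonneg_right (hx2.trans h5) (by positivity)
      _ = x ^ 12 := by ring
      _ ≤ 4 * k ^ 2 * (x ^ 6 * S ^ 2) := h2
      _ = _ := by ring
  have h6 : C₂ * x ^ 7 ≤ 2 * (x ^ 6 * S ^ 2) := le_of_mul_le_mul_left h4 (by positivity)
  linarith

theorem MAX_nT {E : ℕ} (h : 2 ≤ E) : 2 * E ^ 4 < E ^ 6 := by
  have h1 : E ^ 6 = E ^ 4 * (E * E) := by ring
  have h2 : 4 ≤ E * E := Nat.mul_le_mul h h
  have h3 : 0 < E ^ 4 := by positivity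
  calc 2 * E ^ 4 < E ^ 4 * 4 := by omega
    _ ≤ E ^ 4 * (E * E) := Nat.mul_le_mul_left _ h2
    _ = _ := h1.symm

theorem MAX_ES {A k S : ℕ} (h : A < k * (S + 1)) (hS : 1 ≤ S) : A ≤ 2 * k * S := by
  have h1 : k * (S + 1) ≤ k * (2 * S) := Nat.mul_le_mul_left _ (by omega)
  have h2 : k * (2 * S) = 2 * k * S := by ring
  omega

theorem MAX_l1 {x : ℝ} (hx : 2 ≤ x) : x ^ 6 + 2 ≤ x ^ 7 := by
  have h2 : x ^ 7 = x * x ^ 6 := by ring
  have h3 : (2 : ℝ) ^ 6 ≤ x ^ 6 := pow_le_pow_left₀ (by norm_num) hx 6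
  have h4 : 2 * x ^ 6 ≤ x * x ^ 6 := mul_le_mul_of_nonneg_right hx (by positivity)
  rw [h2]
  linarith

theorem MAX_l2 {x S : ℝ} (hx : 2 ≤ x) (hS : S + 1 ≤ 2 * x ^ 4) : S + 1 + 2 ≤ x ^ 7 := by
  have h2 : x ^ 7 = x ^ 3 * x ^ 4 := by ring
  have h3 : (2 : ℝ) ^ 3 ≤ x ^ 3 := pow_le_pow_left₀ (by norm_num) hx 3
  have h5 : (2 : ℝ) ^ 4 ≤ x ^ 4 := pow_le_pow_left₀ (by norm_num) hx 4
  have h4 : (2 : ℝ) ^ 3 * x ^ 4 ≤ x ^ 3 * x ^ 4 := mul_le_mul_of_nonneg_right h3 (by positivity)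
  rw [h2]
  linarith

theorem MAX_4n {n : ℕ} {x : ℝ} (h : (n : ℝ) = x ^ 4) : (4 : ℝ) ^ n ≤ Real.exp (2 * x ^ 4) := by
  have h1 : (2 : ℝ) ≤ Real.exp 1 := by linarith [Real.add_one_le_exp (1 : ℝ)]
  have h2 : (4 : ℝ) ≤ Real.exp 2 := by
    have h3 : Real.exp 2 = Real.exp 1 * Real.exp 1 := by
      rw [← Real.exp_add]
      norm_num
    rw [h3]
    nlinarith
  have h5 : Real.exp (2 * x ^ 4) = Real.exp 2 ^ n := by
    rw [← Real.exp_nat_mul, h]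
    congr 1
    ring
  rw [h5]
  exact pow_le_pow_left₀ (by norm_num) h2 n

theorem thm_MAX (hA : St_AUX) (hV : St_VAL) (hZ : St_ZES) (hU : St_UPP) : St_MAX := by
  intro D hTd
  obtain ⟨CA, k₀, hCA, hk₀, hA⟩ := hA D hTd
  obtain ⟨CV, hCV, hV⟩ := hV D
  obtain ⟨CU, hCU, hU⟩ := hU D
  obtain ⟨μ, hμ⟩ : ∃ μ : ℝ, μ = |D.v| + |D.eta| := ⟨_, rfl⟩
  have hμ0 : 0 ≤ μ := by
    rw [hμ]
    positivity
  have hv : |D.v| ≤ Real.exp μ := by
    linarith [Real.add_one_le_exp μ, abs_nonneg D.eta]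
  have he : |D.eta| ≤ Real.exp μ := by
    linarith [Real.add_one_le_exp μ, abs_nonneg D.v]
  obtain ⟨Λ, hΛ⟩ : ∃ Λ : ℝ, Λ = 1 + (1 + |D.tau.re|) / D.tau.im := ⟨_, rfl⟩
  have hΛ0 : 0 ≤ Λ := by
    have h := D.him
    rw [hΛ]
    positivity
  obtain ⟨K₁, hK₁⟩ : ∃ K₁ : ℝ, K₁ = 2 + CA + 2 * μ := ⟨_, rfl⟩
  obtain ⟨C₂, hC₂⟩ : ∃ C₂ : ℝ, C₂ = Λ + 2 + K₁ + 6 + CU := ⟨_, rfl⟩
  obtain ⟨C, hC⟩ : ∃ C : ℝ, C = 7 + CA + 14 * CV + 4 * (k₀ : ℝ) ^ 2 := ⟨_, rfl⟩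
  have hk1 : (1 : ℝ) ≤ k₀ := by exact_mod_cast hk₀
  have hk2 : 0 ≤ 4 * (k₀ : ℝ) ^ 2 := by positivity
  refine ⟨C, by linarith, ?_⟩
  obtain ⟨N₀, hN₀⟩ : ∃ N₀ : ℕ, N₀ = 2 + k₀ + ⌈CU⌉₊ + ⌈2 * (k₀ : ℝ) ^ 2 * C₂⌉₊ := ⟨_, rfl⟩
  filter_upwards [hA, eventually_ge_atTop N₀] with E hAE hE
  obtain ⟨F, hF1, hF2, hF3⟩ := hAE
  -- the numbers
  have hE2 : 2 ≤ E := by omega
  have hEk : k₀ ≤ E := by omega
  have hEU : CU ≤ E := (Nat.le_ceil CU).trans (by exact_mod_cast (by omega : ⌈CU⌉₊ ≤ E))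
  have hEC : 2 * (k₀ : ℝ) ^ 2 * C₂ ≤ E :=
    (Nat.le_ceil _).trans (by exact_mod_cast (by omega : ⌈2 * (k₀ : ℝ) ^ 2 * C₂⌉₊ ≤ E))
  obtain ⟨x, hx⟩ : ∃ x : ℝ, x = (E : ℝ) := ⟨_, rfl⟩
  have hx2 : (2 : ℝ) ≤ x := by
    rw [hx]
    exact_mod_cast hE2
  have hx0 : 0 < x := by linarith
  have hx1 : 1 ≤ x := by linarith
  have p47 : x ^ 4 ≤ x ^ 7 := pow_le_pow_right₀ hx1 (by norm_num)
  have p67 : x ^ 6 ≤ x ^ 7 := pow_le_pow_right₀ hx1 (by norm_num)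
  have p57 : x ^ 5 ≤ x ^ 7 := pow_le_pow_right₀ hx1 (by norm_num)
  have p07 : 1 ≤ x ^ 7 := one_le_pow₀ hx1
  obtain ⟨n, hn⟩ : ∃ n, n = E ^ 4 := ⟨_, rfl⟩
  obtain ⟨T, hT⟩ : ∃ T, T = E ^ 6 := ⟨_, rfl⟩
  obtain ⟨S₀, hS₀⟩ : ∃ S₀, S₀ = E ^ 3 / k₀ := ⟨_, rfl⟩
  have hnR : (n : ℝ) = x ^ 4 := by
    rw [hn, hx]
    push_cast
    ring
  have hTR : (T : ℝ) = x ^ 6 := by
    rw [hT, hx]
    push_cast
    ring
  have hn1 : 1 ≤ n := by
    rw [hn]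
    exact Nat.one_le_pow _ _ (by omega)
  have hnT : 2 * n < T := by
    rw [hT, hn]
    exact MAX_nT hE2
  have hE3 : E ≤ E ^ 3 := Nat.le_self_pow (by norm_num) E
  have hE34 : E ^ 3 ≤ E ^ 4 := Nat.pow_le_pow_right (by omega) (by norm_num)
  have hS2n : S₀ ≤ 2 * n := by
    have h1 : S₀ ≤ E ^ 3 := by
      rw [hS₀]
      exact Nat.div_le_self _ _
    omega
  have hS₀1 : 1 ≤ S₀ := by
    rw [hS₀]
    exact Nat.div_pos (hEk.trans hE3) hk₀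
  have hES : E ^ 3 ≤ 2 * k₀ * S₀ := by
    have h1 := Nat.lt_mul_div_succ (E ^ 3) (by omega : 0 < k₀)
    rw [← hS₀] at h1
    exact MAX_ES h1 hS₀1
  obtain ⟨f, hf⟩ : ∃ f : ℕ → ℕ → ℕ → ℂ,
    f = fun i j k => (val D.v D.eta (F i j k) : ℂ) := ⟨_, rfl⟩
  have hf1 : ∃ i j k, i ≤ n ∧ j ≤ n ∧ k ≤ n ∧ f i j k ≠ 0 := by
    obtain ⟨i, j, k, hi, hj, hk, h⟩ := hF2
    refine ⟨i, j, k, hn ▸ hi, hn ▸ hj, hn ▸ hk, ?_⟩
    rw [hf]
    exact Complex.ofReal_ne_zero.2 h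
  rw [← hf, ← hn, ← hT, ← hS₀] at hF3
  obtain ⟨S, hS1, hS2, hQ, a, b, t, ha, hb, ht, hw⟩ := MAX_step hZ D hnT hS2n hf1 hF3
  have hSR : x ^ 3 ≤ 2 * k₀ * S := by
    have h1 : E ^ 3 ≤ 2 * k₀ * S := hES.trans (Nat.mul_le_mul_left _ hS1)
    rw [hx]
    exact_mod_cast h1
  have hSR2 : (S : ℝ) + 1 ≤ 2 * x ^ 4 := by
    rw [← hnR]
    exact_mod_cast hS2
  -- the polynomials
  obtain ⟨sV, hsV⟩ : ∃ sV : ℝ, sV = CV * (T * Real.log (T + 2) +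
    n * Real.log (((S + 1 : ℕ) : ℝ) + 2)) := ⟨_, rfl⟩
  have hG : ∀ i j k : ℕ, ∃ G₀ G₁ : MvPolynomial (Fin 2) ℤ, i ≤ n → j ≤ n → k ≤ n →
      Bd n sV G₀ ∧ Bd n sV G₁ ∧
      4 ^ n * iteratedDeriv t (fun z : ℂ => z ^ i * D.P z ^ j * D.Z z ^ k) (D.pt a b) =
        (val D.v D.eta G₀ : ℂ) + D.tau * (val D.v D.eta G₁ : ℂ) := by
    intro i j k
    by_cases h : i ≤ n ∧ j ≤ n ∧ k ≤ n
    · obtain ⟨G₀, G₁, h1, h2, h3⟩ := hV n T (S + 1) i j k t a b hn1 (by omega) h.1 h.2.1 h.2.2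
        ht (by
          push_cast
          exact ha) (by
          push_cast
          exact hb)
      rw [← hsV] at h1 h2
      exact ⟨G₀, G₁, fun _ _ _ => ⟨h1, h2, h3⟩⟩
    · exact ⟨0, 0, fun h1 h2 h3 => absurd ⟨h1, h2, h3⟩ h⟩
  choose G₀ G₁ hG using hG
  obtain ⟨Φ₀, hΦ₀⟩ : ∃ Φ₀ : MvPolynomial (Fin 2) ℤ, Φ₀ = ∑ i ∈ Finset.range (n + 1),
    ∑ j ∈ Finset.range (n + 1), ∑ k ∈ Finset.range (n + 1), F i j k * G₀ i j k := ⟨_, rfl⟩
  obtain ⟨Φ₁, hΦ₁⟩ : ∃ Φ₁ : MvPolynomial (Fin 2) ℤ, Φ₁ = ∑ i ∈ Finset.range (n + 1),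
    ∑ j ∈ Finset.range (n + 1), ∑ k ∈ Finset.range (n + 1), F i j k * G₁ i j k := ⟨_, rfl⟩
  have hFn : ∀ i j k, Bd n (CA * x ^ 7) (F i j k) := by
    intro i j k
    rw [hnR, hx]
    exact hF1 i j k
  have hsV14 : sV ≤ 14 * CV * x ^ 7 := by
    have h1 : Real.log ((T : ℝ) + 2) ≤ 7 * x := by
      refine MAX_log (by positivity) hx0.le ?_
      rw [hTR]
      exact MAX_l1 hx2
    have h4 : Real.log (((S + 1 : ℕ) : ℝ) + 2) ≤ 7 * x := by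
      refine MAX_log (by positivity) hx0.le ?_
      push_cast
      exact MAX_l2 hx2 hSR2
    have h6 : (T : ℝ) * Real.log (T + 2) ≤ x ^ 6 * (7 * x) := by
      rw [hTR] at h1 ⊢
      exact mul_le_mul_of_nonneg_left h1 (by positivity)
    have h7 : (n : ℝ) * Real.log (((S + 1 : ℕ) : ℝ) + 2) ≤ x ^ 4 * (7 * x) := by
      rw [hnR]
      exact mul_le_mul_of_nonneg_left h4 (by positivity)
    have h8 : (T : ℝ) * Real.log (T + 2) + n * Real.log (((S + 1 : ℕ) : ℝ) + 2) ≤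
        14 * x ^ 7 := by
      have h9 : x ^ 6 * (7 * x) = 7 * x ^ 7 := by ring
      have h10 : x ^ 4 * (7 * x) = 7 * x ^ 5 := by ring
      linarith
    rw [hsV]
    calc CV * (T * Real.log (T + 2) + n * Real.log (((S + 1 : ℕ) : ℝ) + 2)) ≤
          CV * (14 * x ^ 7) := mul_le_mul_of_nonneg_left h8 (by linarith)
      _ = _ := by ring
  have hBd : ∀ G : ℕ → ℕ → ℕ → MvPolynomial (Fin 2) ℤ,
      (∀ i j k, i ≤ n → j ≤ n → k ≤ n → Bd n sV (G i j k)) →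
      Bd (C * (E : ℝ) ^ 4) (C * (E : ℝ) ^ 7) (∑ i ∈ Finset.range (n + 1),
        ∑ j ∈ Finset.range (n + 1), ∑ k ∈ Finset.range (n + 1), F i j k * G i j k) := by
    intro G hG
    refine MAX_mono (MAX_sum3 F G hFn hG) ?_ ?_
    · rw [hnR, ← hx]
      refine mul_le_mul_of_nonneg_right ?_ (by positivity)
      linarith
    · rw [hnR, ← hx]
      have h1 : C * x ^ 7 = 7 * x ^ 7 + CA * x ^ 7 + 14 * CV * x ^ 7 +
          4 * (k₀ : ℝ) ^ 2 * x ^ 7 := by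
        rw [hC]
        ring
      have h2 : 0 ≤ 4 * (k₀ : ℝ) ^ 2 * x ^ 7 := by positivity
      linarith
  have hval : ∀ G : ℕ → ℕ → ℕ → MvPolynomial (Fin 2) ℤ,
      val D.v D.eta (∑ i ∈ Finset.range (n + 1), ∑ j ∈ Finset.range (n + 1),
        ∑ k ∈ Finset.range (n + 1), F i j k * G i j k) =
      ∑ i ∈ Finset.range (n + 1), ∑ j ∈ Finset.range (n + 1), ∑ k ∈ Finset.range (n + 1),
        val D.v D.eta (F i j k) * val D.v D.eta (G i j k) := by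
    intro G
    simp only [val, map_sum, map_mul]
  have hw4 : (4 : ℂ) ^ n * iteratedDeriv t (D.fn n f) (D.pt a b) =
      (val D.v D.eta Φ₀ : ℂ) + D.tau * (val D.v D.eta Φ₁ : ℂ) := by
    rw [MAX_fn, hΦ₀, hΦ₁, hval, hval]
    push_cast
    simp only [Finset.mul_sum, ← Finset.sum_add_distrib]
    refine Finset.sum_congr rfl fun i hi => Finset.sum_congr rfl fun j hj =>
      Finset.sum_congr rfl fun k hk => ?_
    rw [Finset.mem_range] at hi hj hk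
    have h1 := (hG i j k (by omega) (by omega) (by omega)).2.2
    have h2 : (4 : ℂ) ^ n * (f i j k * iteratedDeriv t
        (fun z : ℂ => z ^ i * D.P z ^ j * D.Z z ^ k) (D.pt a b)) = f i j k * (4 ^ n *
        iteratedDeriv t (fun z : ℂ => z ^ i * D.P z ^ j * D.Z z ^ k) (D.pt a b)) := by ring
    rw [h2, h1, hf]
    ring
  -- the upper bound
  have hfK : ∀ i j k, ‖f i j k‖ ≤ Real.exp (K₁ * x ^ 7) := by
    intro i j k
    rw [hf]
    show ‖((val D.v D.eta (F i j k) : ℝ) : ℂ)‖ ≤ _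
    rw [Complex.norm_real, Real.norm_eq_abs]
    refine (MAX_val (hFn i j k) hμ0 hv he).trans (Real.exp_le_exp.2 ?_)
    rw [hnR, hK₁]
    have h1 : 2 * x ^ 4 * μ ≤ 2 * x ^ 7 * μ :=
      mul_le_mul_of_nonneg_right (by linarith) hμ0
    have h2 : (2 + CA + 2 * μ) * x ^ 7 = 2 * x ^ 7 + CA * x ^ 7 + 2 * x ^ 7 * μ := by ring
    linarith
  have hup := hU n T S (Real.exp (K₁ * x ^ 7)) f hn1 (by omega) (Real.exp_pos _).le hfK hQ a b t
    ha hb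
  have hfac := MAX_fact (E := E) (t := t) (hT ▸ ht)
  rw [← hx] at hfac
  have htR : (t : ℝ) ≤ x ^ 6 := by
    rw [← hTR]
    exact_mod_cast ht.le
  have hexp : CU * t + CU * n * S ^ 2 - 4 * T * S ^ 2 ≤ CU * x ^ 7 - 3 * (x ^ 6 * S ^ 2) := by
    rw [hnR, hTR]
    have h1 : CU * t ≤ CU * x ^ 7 := mul_le_mul_of_nonneg_left (htR.trans p67) (by linarith)
    have h2 : CU * x ^ 4 ≤ x ^ 6 := by
      have h3 : CU ≤ x ^ 2 := by
        rw [← hx] at hEU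
        exact hEU.trans (le_self_pow₀ hx1 (by norm_num))
      calc CU * x ^ 4 ≤ x ^ 2 * x ^ 4 := mul_le_mul_of_nonneg_right h3 (by positivity)
        _ = _ := by ring
    have h4 : CU * x ^ 4 * (S : ℝ) ^ 2 ≤ x ^ 6 * (S : ℝ) ^ 2 :=
      mul_le_mul_of_nonneg_right h2 (by positivity)
    linarith
  have h4n : (4 : ℝ) ^ n ≤ Real.exp (2 * x ^ 4) := MAX_4n hnR
  have hnorm : Λ * ‖(4 : ℂ) ^ n * iteratedDeriv t (D.fn n f) (D.pt a b)‖ ≤
      Real.exp (-(x ^ 12 / C)) := by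
    rw [norm_mul, norm_pow]
    have h0 : ‖(4 : ℂ)‖ = 4 := by simp
    rw [h0]
    have hLam : Λ ≤ Real.exp Λ := by linarith [Real.add_one_le_exp Λ]
    have h1 : ‖iteratedDeriv t (D.fn n f) (D.pt a b)‖ ≤ Real.exp (K₁ * x ^ 7) *
        Real.exp (6 * x ^ 7) * Real.exp (CU * x ^ 7 - 3 * (x ^ 6 * S ^ 2)) := by
      refine hup.trans ?_
      refine mul_le_mul ?_ (Real.exp_le_exp.2 hexp) (Real.exp_pos _).le (by positivity)
      exact mul_le_mul_of_nonneg_left hfac (Real.exp_pos _).le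
    calc Λ * ((4 : ℝ) ^ n * ‖iteratedDeriv t (D.fn n f) (D.pt a b)‖) ≤
          Real.exp Λ * (Real.exp (2 * x ^ 4) * (Real.exp (K₁ * x ^ 7) *
            Real.exp (6 * x ^ 7) * Real.exp (CU * x ^ 7 - 3 * (x ^ 6 * S ^ 2)))) := by
          refine mul_le_mul hLam ?_ (by positivity) (Real.exp_pos _).le
          exact mul_le_mul h4n h1 (norm_nonneg _) (Real.exp_pos _).le
      _ = Real.exp (Λ + (2 * x ^ 4 + (K₁ * x ^ 7 + 6 * x ^ 7 +
            (CU * x ^ 7 - 3 * (x ^ 6 * S ^ 2))))) := by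
          rw [Real.exp_add, Real.exp_add, Real.exp_add, Real.exp_add]
      _ ≤ Real.exp (C₂ * x ^ 7 - 3 * (x ^ 6 * S ^ 2)) := by
          refine Real.exp_le_exp.2 ?_
          have h2 : C₂ * x ^ 7 = Λ * x ^ 7 + 2 * x ^ 7 + K₁ * x ^ 7 + 6 * x ^ 7 +
              CU * x ^ 7 := by
            rw [hC₂]
            ring
          have h3 : Λ ≤ Λ * x ^ 7 := le_mul_of_one_le_right hΛ0 p07
          linarith
      _ ≤ _ := by
          refine Real.exp_le_exp.2 (MAX_fin hx1 hk1 ?_ hSR (hx ▸ hEC))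
          linarith
  rw [hw4] at hnorm
  have hne : (val D.v D.eta Φ₀ : ℂ) + D.tau * (val D.v D.eta Φ₁ : ℂ) ≠ 0 := by
    rw [← hw4]
    exact mul_ne_zero (pow_ne_zero _ (by norm_num)) hw
  have hri := MAX_reim D.him (x := val D.v D.eta Φ₀) (y := val D.v D.eta Φ₁)
  rw [← hΛ] at hri
  rw [← hx]
  by_cases h0 : val D.v D.eta Φ₀ = 0
  · refine ⟨Φ₁, ?_, ?_, hri.2.trans hnorm⟩
    · rw [hΦ₁, hx]
      exact hBd G₁ fun i j k hi hj hk => (hG i j k hi hj hk).2.1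
    · intro h1
      rw [h0, h1] at hne
      exact hne (by simp)
  · refine ⟨Φ₀, ?_, h0, hri.1.trans hnorm⟩
    rw [hΦ₀, hx]
    exact hBd G₀ fun i j k hi hj hk => (hG i j k hi hj hk).1

end Pool.Agent.QP
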