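import Pool.Agent.QP.St

/-!
# Quarter periods, module NRM: the norm to `ℤ[x]`
-/

set_option autoImplicit false

open Complex Filter Polynomial
open scoped Topology BigOperators

namespace Pool.Agent.QP

/-- the sum of the absolute values of the coefficients -/
noncomputable def NRML (P : ℤ[X]) : ℝ := ∑ i ∈ P.support, |((P.coeff i : ℤ) : ℝ)|

theorem NRM_nonneg (P : ℤ[X]) : 0 ≤ NRML P := Finset.sum_nonneg fun _ _ => abs_nonneg _

theorem NRM_set (P : ℤ[X]) (S : Finset ℕ) (h : P.support ⊆ S) :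
    NRML P = ∑ i ∈ S, |((P.coeff i : ℤ) : ℝ)| := by
  unfold NRML
  apply Finset.sum_subset h
  intro i _ hi
  rw [notMem_support_iff.mp hi]
  simp

theorem NRM_range (P : ℤ[X]) (N : ℕ) (h : P.natDegree < N) :
    NRML P = ∑ i ∈ Finset.range N, |((P.coeff i : ℤ) : ℝ)| := by
  apply NRM_set
  intro i hi
  rw [Finset.mem_range]
  exact lt_of_le_of_lt (le_natDegree_of_mem_supp i hi) h

theorem NRM_coeff (P : ℤ[X]) (j : ℕ) : |((P.coeff j : ℤ) : ℝ)| ≤ NRML P := by
  by_cases hj : j ∈ P.support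
  · exact Finset.single_le_sum (f := fun i => |((P.coeff i : ℤ) : ℝ)|)
      (fun _ _ => abs_nonneg _) hj
  · rw [notMem_support_iff.mp hj]
    simpa using NRM_nonneg P

theorem NRM_add (P Q : ℤ[X]) : NRML (P + Q) ≤ NRML P + NRML Q := by
  rw [NRM_set (P + Q) (P.support ∪ Q.support) support_add,
    NRM_set P (P.support ∪ Q.support) Finset.subset_union_left,
    NRM_set Q (P.support ∪ Q.support) Finset.subset_union_right, ← Finset.sum_add_distrib]
  apply Finset.sum_le_sum
  intro i _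
  rw [coeff_add]
  push_cast
  exact abs_add_le _ _

theorem NRM_zero : NRML 0 = 0 := by simp [NRML]

theorem NRM_fsum {ι : Type*} (S : Finset ι) (f : ι → ℤ[X]) :
    NRML (∑ i ∈ S, f i) ≤ ∑ i ∈ S, NRML (f i) :=
  Finset.le_sum_of_subadditive NRML NRM_zero.le NRM_add S f

theorem NRM_X (Q : ℤ[X]) : NRML (X * Q) = NRML Q := by
  have h1 : (X * Q).natDegree < Q.natDegree + 2 := by
    have := natDegree_mul_le (p := (X : ℤ[X])) (q := Q)
    rw [natDegree_X] at this
    omega
  rw [NRM_range (X * Q) _ h1, NRM_range Q (Q.natDegree + 1) (by omega), Finset.sum_range_succ']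
  simp

theorem NRM_Xk (k : ℕ) (Q : ℤ[X]) : NRML (X ^ k * Q) = NRML Q := by
  induction k with
  | zero => simp
  | succ k ih => rw [pow_succ', mul_assoc, NRM_X, ih]

theorem NRM_C (c : ℤ) (Q : ℤ[X]) : NRML (C c * Q) = |(c : ℝ)| * NRML Q := by
  have h1 : (C c * Q).natDegree < Q.natDegree + 1 := by
    have := natDegree_C_mul_le c Q
    omega
  rw [NRM_range (C c * Q) _ h1, NRM_range Q (Q.natDegree + 1) (by omega), Finset.mul_sum]
  apply Finset.sum_congr rfl
  intro i _
  rw [coeff_C_mul]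
  push_cast
  rw [abs_mul]

theorem NRM_mul (P Q : ℤ[X]) : NRML (P * Q) ≤ NRML P * NRML Q := by
  have h : P * Q = ∑ i ∈ P.support, C (P.coeff i) * (X ^ i * Q) := by
    conv_lhs => rw [P.as_sum_support_C_mul_X_pow]
    rw [Finset.sum_mul]
    apply Finset.sum_congr rfl
    intro i _
    rw [mul_assoc]
  rw [h]
  refine (NRM_fsum _ _).trans (le_of_eq ?_)
  rw [NRML, Finset.sum_mul]
  apply Finset.sum_congr rfl
  intro i _
  rw [NRM_C, NRM_Xk]

theorem NRM_one : NRML 1 = 1 := by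
  have h := NRM_range (1 : ℤ[X]) 1 (by simp)
  rw [h]
  simp

/-- degree at most `D`, length at most `B` -/
def NRMB (D : ℕ) (B : ℝ) (P : ℤ[X]) : Prop := P.natDegree ≤ D ∧ NRML P ≤ B

theorem NRMB_mul (D D' : ℕ) (B B' : ℝ) (P Q : ℤ[X]) (h : NRMB D B P) (h' : NRMB D' B' Q) :
    NRMB (D + D') (B * B') (P * Q) := by
  refine ⟨natDegree_mul_le.trans (add_le_add h.1 h'.1), (NRM_mul P Q).trans ?_⟩
  exact mul_le_mul h.2 h'.2 (NRM_nonneg Q) ((NRM_nonneg P).trans h.2)

theorem NRMB_mono (D D' : ℕ) (B B' : ℝ) (P : ℤ[X]) (hD : D ≤ D') (hB : B ≤ B')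
    (h : NRMB D B P) : NRMB D' B' P := ⟨h.1.trans hD, h.2.trans hB⟩

theorem NRMB_sum {ι : Type*} (S : Finset ι) (f : ι → ℤ[X]) (D : ℕ) (B : ℝ)
    (h : ∀ i ∈ S, NRMB D B (f i)) : NRMB D (S.card * B) (∑ i ∈ S, f i) := by
  refine ⟨natDegree_sum_le_of_forall_le _ _ fun i hi => (h i hi).1, (NRM_fsum S f).trans ?_⟩
  calc ∑ i ∈ S, NRML (f i) ≤ ∑ _i ∈ S, B := Finset.sum_le_sum fun i hi => (h i hi).2
    _ = S.card * B := by simp

theorem NRMB_prod {ι : Type*} [DecidableEq ι] (S : Finset ι) (f : ι → ℤ[X]) (D : ℕ) (B : ℝ)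
    (h : ∀ i ∈ S, NRMB D B (f i)) : NRMB (S.card * D) (B ^ S.card) (∏ i ∈ S, f i) := by
  induction S using Finset.induction_on with
  | empty => exact ⟨by simp, by simp [NRM_one]⟩
  | insert i S hi ih =>
    rw [Finset.prod_insert hi, Finset.card_insert_of_notMem hi]
    have h1 := NRMB_mul _ _ _ _ _ _ (h i (Finset.mem_insert_self i S))
      (ih fun j hj => h j (Finset.mem_insert_of_mem hj))
    refine NRMB_mono _ _ _ _ _ ?_ ?_ h1
    · rw [add_mul, one_mul, add_comm]
    · rw [pow_succ']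

theorem NRMB_unit (u : ℤˣ) (D : ℕ) (B : ℝ) (P : ℤ[X]) (h : NRMB D B P) : NRMB D B (u • P) := by
  rcases Int.units_eq_one_or u with hu | hu
  · rw [hu, one_smul]
    exact h
  · have h1 : (-1 : ℤˣ) • P = C (-1) * P := by
      rw [Units.neg_smul, one_smul]
      simp
    rw [hu, h1]
    refine ⟨(natDegree_C_mul_le _ _).trans h.1, ?_⟩
    rw [NRM_C]
    simpa using h.2

theorem NRMB_det (d : ℕ) (A : Matrix (Fin d) (Fin d) ℤ[X]) (D : ℕ) (B : ℝ)
    (h : ∀ i j, NRMB D B (A i j)) : NRMB (d * D) (d.factorial * B ^ d) A.det := by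
  rw [Matrix.det_apply]
  have h1 := NRMB_sum (Finset.univ : Finset (Equiv.Perm (Fin d)))
    (fun σ => Equiv.Perm.sign σ • ∏ i, A (σ i) i) (d * D) (B ^ d) ?_
  · rw [Finset.card_univ, Fintype.card_perm, Fintype.card_fin] at h1
    exact h1
  · intro σ _
    apply NRMB_unit
    have h2 := NRMB_prod (Finset.univ : Finset (Fin d)) (fun i => A (σ i) i) D B
      (fun i _ => h _ _)
    rw [Finset.card_univ, Fintype.card_fin] at h2
    exact h2

/-- the value at `x` -/
theorem NRMB_val (x : ℝ) (D : ℕ) (B : ℝ) (P : ℤ[X]) (h : NRMB D B P) :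
    |aeval x P| ≤ B * Real.exp (|x| * D) := by
  have h1 : aeval x P = ∑ i ∈ P.support, ((P.coeff i : ℤ) : ℝ) * x ^ i := by
    conv_lhs => rw [P.as_sum_support_C_mul_X_pow]
    rw [map_sum]
    apply Finset.sum_congr rfl
    intro i _
    simp
  rw [h1]
  calc |∑ i ∈ P.support, ((P.coeff i : ℤ) : ℝ) * x ^ i|
      ≤ ∑ i ∈ P.support, |((P.coeff i : ℤ) : ℝ) * x ^ i| := Finset.abs_sum_le_sum_abs _ _
    _ ≤ ∑ i ∈ P.support, |((P.coeff i : ℤ) : ℝ)| * Real.exp (|x| * D) := by
        apply Finset.sum_le_sum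
        intro i hi
        rw [abs_mul, abs_pow]
        apply mul_le_mul_of_nonneg_left _ (abs_nonneg _)
        have hiD : i ≤ D := (le_natDegree_of_mem_supp i hi).trans h.1
        calc |x| ^ i ≤ (Real.exp |x|) ^ i :=
              pow_le_pow_left₀ (abs_nonneg x) (by linarith [Real.add_one_le_exp |x|]) i
          _ ≤ (Real.exp |x|) ^ D :=
              pow_le_pow_right₀ (Real.one_le_exp (abs_nonneg x)) hiD
          _ = Real.exp (|x| * D) := by rw [← Real.exp_nat_mul, mul_comm]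
    _ = NRML P * Real.exp (|x| * D) := by rw [NRML, Finset.sum_mul]
    _ ≤ B * Real.exp (|x| * D) := mul_le_mul_of_nonneg_right h.2 (Real.exp_pos _).le

/-- entries of the adjugate -/
theorem NRM_adj (d : ℕ) (R : Matrix (Fin d) (Fin d) ℝ) (B : ℝ) (h1 : 1 ≤ B)
    (h : ∀ i j, |R i j| ≤ B) (i j : Fin d) : |R.adjugate i j| ≤ d.factorial * B ^ d := by
  rw [Matrix.adjugate_apply]
  have h2 := Matrix.det_le (A := R.updateRow j (Pi.single i 1))
    (abv := AbsoluteValue.abs) (x := B) ?_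
  · rw [Fintype.card_fin, nsmul_eq_mul] at h2
    exact h2
  · intro k l
    change |R.updateRow j (Pi.single i 1) k l| ≤ B
    rw [Matrix.updateRow_apply]
    split_ifs with hk
    · by_cases hl : l = i
      · rw [hl, Pi.single_eq_same, abs_one]
        exact h1
      · rw [Pi.single_eq_of_ne hl, abs_zero]
        linarith
    · exact h k l

theorem NRM_eigk (d : ℕ) (N : Matrix (Fin d) (Fin d) ℝ) (w : ℝ) (u : Fin d → ℝ)
    (h : N.mulVec u = w • u) (k : ℕ) : (N ^ k).mulVec u = w ^ k • u := by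
  induction k with
  | zero => simp
  | succ k ih =>
    rw [pow_succ, ← Matrix.mulVec_mulVec, h, Matrix.mulVec_smul, ih, smul_smul, pow_succ,
      mul_comm]

/-- the determinant is small if there is an eigenvector with a small eigenvalue -/
theorem NRM_small (d : ℕ) (hd : 0 < d) (R : Matrix (Fin d) (Fin d) ℝ) (w ρ : ℝ)
    (h : R.mulVec (fun j : Fin d => w ^ (j : ℕ)) = ρ • fun j : Fin d => w ^ (j : ℕ)) :
    R.det = ρ * ∑ j : Fin d, R.adjugate ⟨0, hd⟩ j * w ^ (j : ℕ) := by
  have h1 : R.adjugate.mulVec (R.mulVec fun j : Fin d => w ^ (j : ℕ)) =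
      R.det • fun j : Fin d => w ^ (j : ℕ) := by
    rw [Matrix.mulVec_mulVec, Matrix.adjugate_mul, Matrix.smul_mulVec, Matrix.one_mulVec]
  have h2 := congrFun h1 ⟨0, hd⟩
  rw [h, Matrix.mulVec_smul, Pi.smul_apply, Pi.smul_apply] at h2
  simp only [smul_eq_mul, pow_zero, mul_one] at h2
  rw [← h2]
  rfl

theorem NRM_ent (d : ℕ) (M : Matrix (Fin d) (Fin d) ℤ[X]) : ∃ (D : ℕ) (K : ℝ), 0 ≤ K ∧
    ∀ k i j : Fin d, NRMB D K ((M ^ (k : ℕ)) i j) := by
  refine ⟨∑ p : Fin d × Fin d × Fin d, ((M ^ (p.1 : ℕ)) p.2.1 p.2.2).natDegree,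
    ∑ p : Fin d × Fin d × Fin d, NRML ((M ^ (p.1 : ℕ)) p.2.1 p.2.2),
    Finset.sum_nonneg fun _ _ => NRM_nonneg _, fun k i j => ⟨?_, ?_⟩⟩
  · exact Finset.single_le_sum
      (f := fun p : Fin d × Fin d × Fin d => ((M ^ (p.1 : ℕ)) p.2.1 p.2.2).natDegree)
      (fun _ _ => Nat.zero_le _) (Finset.mem_univ (k, i, j))
  · exact Finset.single_le_sum
      (f := fun p : Fin d × Fin d × Fin d => NRML ((M ^ (p.1 : ℕ)) p.2.1 p.2.2))
      (fun _ _ => NRM_nonneg _) (Finset.mem_univ (k, i, j))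

theorem NRM_exp (t s : ℝ) (ht : 0 ≤ t) (hs : 1 ≤ s) : t ≤ Real.exp (t * s) := by
  have h1 := Real.add_one_le_exp (t * s)
  nlinarith

theorem thm_NRM (hR : St_RED) : St_NRM := by
  intro x y d a M hE
  obtain ⟨C₀, hC₀, hred⟩ := hR x y d a M hE
  obtain ⟨D₀, K, hK, hMk⟩ := NRM_ent d M
  set w : ℝ := aeval x a * y with hw
  set C₁ : ℝ := C₀ + C₀ + d * K with hC₁
  set C₂ : ℝ := C₁ + |x| * (C₀ + D₀) with hC₂
  have hC₀' : (0 : ℝ) ≤ C₀ := Nat.cast_nonneg _
  have hD₀' : (0 : ℝ) ≤ D₀ := Nat.cast_nonneg _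
  have hd' : (0 : ℝ) ≤ d := Nat.cast_nonneg _
  have hf' : (0 : ℝ) ≤ (d.factorial : ℝ) := Nat.cast_nonneg _
  have hC₁0 : 0 ≤ C₁ := by positivity
  have hx0 : 0 ≤ |x| * (C₀ + D₀) := by positivity
  have hC₂0 : 0 ≤ C₂ := by positivity
  refine ⟨1 + d * (C₀ + D₀) + d.factorial + d * C₂ + d + |w| * d + |aeval x a|, ?_, ?_⟩
  · have h1 : 0 ≤ (d : ℝ) * (C₀ + D₀) := by positivity
    have h2 : 0 ≤ (d : ℝ) * C₂ := by positivity
    have h3 : 0 ≤ |w| * d := by positivity
    have h4 := abs_nonneg (aeval x a)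
    linarith
  set C : ℝ := 1 + d * (C₀ + D₀) + d.factorial + d * C₂ + d + |w| * d + |aeval x a| with hC
  intro n s G hn hns hG hv
  obtain ⟨r, hr1, hr2, hr3⟩ := hred n s G hn hns hG
  have hn' : (1 : ℝ) ≤ n := by exact_mod_cast hn
  have hs1 : 1 ≤ s := hn'.trans hns
  have hs0 : 0 ≤ s := by linarith
  set A : Matrix (Fin d) (Fin d) ℤ[X] := ∑ i : Fin d, r i • M ^ (i : ℕ) with hA
  set ρ : ℝ := ∑ i : Fin d, aeval x (r i) * w ^ (i : ℕ) with hρ
  have hρ0 : ρ ≠ 0 := by
    rw [← hr3]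
    exact mul_ne_zero (pow_ne_zero _ hE.lead) hv
  have hQ : A.det ≠ 0 := hE.inj r hρ0
  have hrB : ∀ i, NRMB (C₀ * n) (Real.exp (C₀ * s) * Real.exp (C₀ * s)) (r i) := by
    intro i
    refine ⟨hr1 i, ?_⟩
    rw [NRM_range (r i) (C₀ * n + 1) (Nat.lt_succ_of_le (hr1 i))]
    calc ∑ j ∈ Finset.range (C₀ * n + 1), |(((r i).coeff j : ℤ) : ℝ)|
        ≤ ∑ _j ∈ Finset.range (C₀ * n + 1), Real.exp (C₀ * s) :=
          Finset.sum_le_sum fun j _ => hr2 i j
      _ = ((C₀ : ℝ) * n + 1) * Real.exp (C₀ * s) := by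
          rw [Finset.sum_const, Finset.card_range, nsmul_eq_mul]
          push_cast
          ring
      _ ≤ Real.exp (C₀ * s) * Real.exp (C₀ * s) := by
          apply mul_le_mul_of_nonneg_right _ (Real.exp_pos _).le
          have h1 := Real.add_one_le_exp ((C₀ : ℝ) * n)
          have h2 : Real.exp ((C₀ : ℝ) * n) ≤ Real.exp (C₀ * s) :=
            Real.exp_le_exp.mpr (mul_le_mul_of_nonneg_left hns hC₀')
          linarith
  have hAB : ∀ i j, NRMB ((C₀ + D₀) * n) (Real.exp (C₁ * s)) (A i j) := by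
    intro i j
    have h1 : A i j = ∑ k : Fin d, r k * (M ^ (k : ℕ)) i j := by
      rw [hA, Matrix.sum_apply]
      rfl
    have h2 := NRMB_sum (Finset.univ : Finset (Fin d)) (fun k => r k * (M ^ (k : ℕ)) i j) _ _
      (fun k _ => NRMB_mul _ _ _ _ _ _ (hrB k) (hMk k i j))
    rw [← h1, Finset.card_univ, Fintype.card_fin] at h2
    refine NRMB_mono _ _ _ _ _ ?_ ?_ h2
    · rw [add_mul]
      exact add_le_add le_rfl (Nat.le_mul_of_pos_right _ hn)
    · have h3 := NRM_exp (d * K) s (by positivity) hs1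
      have h4 : (d : ℝ) * (Real.exp (C₀ * s) * Real.exp (C₀ * s) * K) =
          Real.exp (C₀ * s) * Real.exp (C₀ * s) * (d * K) := by ring
      have h5 : Real.exp (C₁ * s) = Real.exp (C₀ * s) * Real.exp (C₀ * s) * Real.exp (d * K * s) := by
        rw [← Real.exp_add, ← Real.exp_add, hC₁]
        ring_nf
      rw [h4, h5]
      exact mul_le_mul_of_nonneg_left h3 (by positivity)
  have hdet := NRMB_det d A _ _ hAB
  have hfac : (d.factorial : ℝ) ≤ Real.exp (d.factorial * s) := NRM_exp _ s hf' hs1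
  have h12 : C₁ ≤ C₂ := by rw [hC₂]; linarith
  refine ⟨A.det, hQ, ?_, ?_, ?_⟩
  · have h1 : ((A.det.natDegree : ℕ) : ℝ) ≤ ((d * ((C₀ + D₀) * n) : ℕ) : ℝ) :=
      Nat.cast_le.mpr hdet.1
    push_cast at h1
    have h2 : (d : ℝ) * ((C₀ + D₀) * n) = (d * (C₀ + D₀)) * n := by ring
    rw [h2] at h1
    refine h1.trans (mul_le_mul_of_nonneg_right ?_ (by linarith))
    have h3 : 0 ≤ (d : ℝ) * C₂ := by positivity
    have h4 : 0 ≤ |w| * d := by positivity
    have h5 := abs_nonneg (aeval x a)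
    rw [hC]
    linarith
  · intro j
    refine (NRM_coeff _ j).trans (hdet.2.trans ?_)
    calc (d.factorial : ℝ) * Real.exp (C₁ * s) ^ d
        ≤ Real.exp (d.factorial * s) * Real.exp (C₁ * s) ^ d :=
          mul_le_mul_of_nonneg_right hfac (by positivity)
      _ = Real.exp ((d.factorial + d * C₁) * s) := by
          rw [← Real.exp_nat_mul, ← Real.exp_add]
          ring_nf
      _ ≤ Real.exp (C * s) := by
          apply Real.exp_le_exp.mpr
          apply mul_le_mul_of_nonneg_right _ hs0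
          have h1 : 0 ≤ (d : ℝ) * (C₀ + D₀) := by positivity
          have h2 : (d : ℝ) * C₁ ≤ d * C₂ := mul_le_mul_of_nonneg_left h12 hd'
          have h4 : 0 ≤ |w| * d := by positivity
          have h5 := abs_nonneg (aeval x a)
          rw [hC]
          linarith
  · set N : Matrix (Fin d) (Fin d) ℝ := M.map (aeval x) with hN
    set R : Matrix (Fin d) (Fin d) ℝ := A.map (aeval x) with hRd
    have hdR : aeval x A.det = R.det := by
      rw [AlgHom.map_det]
      rfl
    have hNe : N.mulVec (fun j : Fin d => w ^ (j : ℕ)) = w • fun j : Fin d => w ^ (j : ℕ) := by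
      funext i
      have h1 := hE.eig i
      simp only [Matrix.mulVec, dotProduct, hN, Matrix.map_apply, Pi.smul_apply, smul_eq_mul]
      rw [h1, pow_succ, mul_comm]
    have hRs : R = ∑ k : Fin d, aeval x (r k) • N ^ (k : ℕ) := by
      have h0 : ∀ k : ℕ, N ^ k = (M ^ k).map (aeval x) := by
        intro k
        exact ((aeval x : ℤ[X] →ₐ[ℤ] ℝ).mapMatrix.map_pow M k).symm
      ext i j
      rw [hRd, Matrix.map_apply, hA, Matrix.sum_apply, Matrix.sum_apply, map_sum]
      apply Finset.sum_congr rfl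
      intro k _
      rw [h0 k, Matrix.smul_apply, Matrix.smul_apply, Matrix.map_apply, smul_eq_mul, smul_eq_mul,
        map_mul]
    have hRe : R.mulVec (fun j : Fin d => w ^ (j : ℕ)) = ρ • fun j : Fin d => w ^ (j : ℕ) := by
      rw [hRs, Matrix.sum_mulVec, hρ, Finset.sum_smul]
      apply Finset.sum_congr rfl
      intro k _
      rw [Matrix.smul_mulVec, NRM_eigk d N w _ hNe, smul_smul]
    have hsm := NRM_small d hE.pos R w ρ hRe
    have hRB : ∀ i j, |R i j| ≤ Real.exp (C₂ * s) := by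
      intro i j
      refine (NRMB_val x _ _ _ (hAB i j)).trans ?_
      rw [← Real.exp_add]
      apply Real.exp_le_exp.mpr
      push_cast
      have h1 : |x| * ((C₀ + D₀) * n) ≤ |x| * (C₀ + D₀) * s := by
        rw [← mul_assoc]
        exact mul_le_mul_of_nonneg_left hns hx0
      rw [hC₂]
      linarith
    have hadj : ∀ j, |R.adjugate ⟨0, hE.pos⟩ j| ≤ Real.exp ((d.factorial + d * C₂) * s) := by
      intro j
      refine (NRM_adj d R _ (Real.one_le_exp (by positivity)) hRB _ j).trans ?_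
      calc (d.factorial : ℝ) * Real.exp (C₂ * s) ^ d
          ≤ Real.exp (d.factorial * s) * Real.exp (C₂ * s) ^ d :=
            mul_le_mul_of_nonneg_right hfac (by positivity)
        _ = Real.exp ((d.factorial + d * C₂) * s) := by
            rw [← Real.exp_nat_mul, ← Real.exp_add]
            ring_nf
    have hwj : ∀ j : Fin d, |w ^ (j : ℕ)| ≤ Real.exp (|w| * d * s) := by
      intro j
      rw [abs_pow]
      calc |w| ^ (j : ℕ) ≤ (Real.exp |w|) ^ (j : ℕ) :=
            pow_le_pow_left₀ (abs_nonneg w) (by linarith [Real.add_one_le_exp |w|]) _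
        _ ≤ (Real.exp |w|) ^ d :=
            pow_le_pow_right₀ (Real.one_le_exp (abs_nonneg w)) j.2.le
        _ = Real.exp (|w| * d) := by rw [← Real.exp_nat_mul, mul_comm]
        _ ≤ Real.exp (|w| * d * s) := by
            apply Real.exp_le_exp.mpr
            have h4 : 0 ≤ |w| * d := by positivity
            nlinarith
    have hsum : |∑ j : Fin d, R.adjugate ⟨0, hE.pos⟩ j * w ^ (j : ℕ)| ≤
        Real.exp (d * s) * (Real.exp ((d.factorial + d * C₂) * s) * Real.exp (|w| * d * s)) := by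
      calc |∑ j : Fin d, R.adjugate ⟨0, hE.pos⟩ j * w ^ (j : ℕ)|
          ≤ ∑ j : Fin d, |R.adjugate ⟨0, hE.pos⟩ j * w ^ (j : ℕ)| :=
            Finset.abs_sum_le_sum_abs _ _
        _ ≤ ∑ _j : Fin d, Real.exp ((d.factorial + d * C₂) * s) * Real.exp (|w| * d * s) := by
            apply Finset.sum_le_sum
            intro j _
            rw [abs_mul]
            exact mul_le_mul (hadj j) (hwj j) (abs_nonneg _) (Real.exp_pos _).le
        _ = d * (Real.exp ((d.factorial + d * C₂) * s) * Real.exp (|w| * d * s)) := by simp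
        _ ≤ _ := mul_le_mul_of_nonneg_right (NRM_exp _ s hd' hs1) (by positivity)
    have hρB : |ρ| ≤ Real.exp (|aeval x a| * s) * |val x y G| := by
      rw [← hr3, abs_mul, abs_pow]
      apply mul_le_mul_of_nonneg_right _ (abs_nonneg _)
      calc |aeval x a| ^ n ≤ (Real.exp |aeval x a|) ^ n :=
            pow_le_pow_left₀ (abs_nonneg _) (by linarith [Real.add_one_le_exp |aeval x a|]) _
        _ = Real.exp (|aeval x a| * n) := by rw [← Real.exp_nat_mul, mul_comm]
        _ ≤ Real.exp (|aeval x a| * s) :=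
            Real.exp_le_exp.mpr (mul_le_mul_of_nonneg_left hns (abs_nonneg _))
    rw [hdR, hsm, abs_mul]
    calc |ρ| * |∑ j : Fin d, R.adjugate ⟨0, hE.pos⟩ j * w ^ (j : ℕ)|
        ≤ (Real.exp (|aeval x a| * s) * |val x y G|) *
          (Real.exp (d * s) * (Real.exp ((d.factorial + d * C₂) * s) * Real.exp (|w| * d * s))) :=
          mul_le_mul hρB hsum (abs_nonneg _) (by positivity)
      _ = |val x y G| * Real.exp ((|aeval x a| + d + (d.factorial + d * C₂) + |w| * d) * s) := by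
          have h1 : (|aeval x a| + d + (d.factorial + d * C₂) + |w| * d) * s =
            |aeval x a| * s + (d * s + ((d.factorial + d * C₂) * s + |w| * d * s)) := by ring
          rw [h1, Real.exp_add, Real.exp_add, Real.exp_add]
          ring
      _ ≤ |val x y G| * Real.exp (C * s) := by
          apply mul_le_mul_of_nonneg_left _ (abs_nonneg _)
          apply Real.exp_le_exp.mpr
          apply mul_le_mul_of_nonneg_right _ hs0
          have h1 : 0 ≤ (d : ℝ) * (C₀ + D₀) := by positivity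
          rw [hC]
          linarith

end Pool.Agent.QP
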