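import Pool.Agent.QP.St

/-!
# Quarter periods, module RED: reduction to the basis `1, y', .., y'^(d-1)`
-/

set_option autoImplicit false

open Polynomial
open scoped BigOperators

namespace Pool.Agent.QP

/-- `P` has a coefficientwise majorant in `ℕ[X]` whose value at `1` is at most `v` -/
private def RED_B (P : ℤ[X]) (v : ℕ) : Prop :=
  ∃ p : ℕ[X], (∀ i, (P.coeff i).natAbs ≤ p.coeff i) ∧ p.eval 1 ≤ v

private theorem RED_B_mono {P : ℤ[X]} {u v : ℕ} (h : RED_B P u) (huv : u ≤ v) : RED_B P v := by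
  obtain ⟨p, h1, h2⟩ := h
  exact ⟨p, h1, h2.trans huv⟩

private theorem RED_B_exists (P : ℤ[X]) : ∃ v, RED_B P v := by
  refine ⟨_, ∑ i ∈ P.support, monomial i (P.coeff i).natAbs, fun i => ?_, le_rfl⟩
  rw [finsetSum_coeff]
  by_cases hi : i ∈ P.support
  · refine le_trans ?_ (Finset.single_le_sum (f := fun j => (monomial j (P.coeff j).natAbs).coeff i)
      (fun _ _ => Nat.zero_le _) hi)
    simp
  · rw [notMem_support_iff.1 hi]
    simp

private theorem RED_B_C (c : ℤ) : RED_B (C c) c.natAbs := by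
  refine ⟨C c.natAbs, fun i => ?_, by simp⟩
  rw [coeff_C, coeff_C]
  split_ifs <;> simp

private theorem RED_B_X_pow (j : ℕ) : RED_B (X ^ j) 1 := by
  refine ⟨X ^ j, fun i => ?_, by simp⟩
  rw [coeff_X_pow, coeff_X_pow]
  split_ifs <;> simp

private theorem RED_B_zero : RED_B 0 0 := ⟨0, fun i => by simp, by simp⟩

private theorem RED_B_one : RED_B 1 1 := by
  have h := RED_B_C 1
  simpa using h

private theorem RED_B_add {P Q : ℤ[X]} {u v : ℕ} (h : RED_B P u) (h' : RED_B Q v) :
    RED_B (P + Q) (u + v) := by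
  obtain ⟨p, h1, h2⟩ := h
  obtain ⟨q, h3, h4⟩ := h'
  refine ⟨p + q, fun i => ?_, ?_⟩
  · rw [coeff_add, coeff_add]
    exact (Int.natAbs_add_le _ _).trans (add_le_add (h1 i) (h3 i))
  · rw [eval_add]
    exact add_le_add h2 h4

private theorem RED_B_mul {P Q : ℤ[X]} {u v : ℕ} (h : RED_B P u) (h' : RED_B Q v) :
    RED_B (P * Q) (u * v) := by
  obtain ⟨p, h1, h2⟩ := h
  obtain ⟨q, h3, h4⟩ := h'
  refine ⟨p * q, fun i => ?_, ?_⟩
  · rw [coeff_mul, coeff_mul]
    refine (Int.natAbs_sum_le _ _).trans (Finset.sum_le_sum fun x _ => ?_)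
    rw [Int.natAbs_mul]
    exact Nat.mul_le_mul (h1 _) (h3 _)
  · rw [eval_mul]
    exact Nat.mul_le_mul h2 h4

private theorem RED_B_pow {P : ℤ[X]} {u : ℕ} (h : RED_B P u) (k : ℕ) : RED_B (P ^ k) (u ^ k) := by
  induction k with
  | zero => simpa using RED_B_one
  | succ k ih =>
    rw [pow_succ, pow_succ]
    exact RED_B_mul ih h

private theorem RED_B_sum {ι : Type*} (t : Finset ι) (f : ι → ℤ[X]) (v : ℕ)
    (h : ∀ i ∈ t, RED_B (f i) v) : RED_B (∑ i ∈ t, f i) (t.card * v) := by
  classical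
  induction t using Finset.induction_on with
  | empty => simpa using RED_B_zero
  | insert a t ha ih =>
    rw [Finset.sum_insert ha, Finset.card_insert_of_notMem ha, add_mul, one_mul, add_comm _ v]
    exact RED_B_add (h a (Finset.mem_insert_self a t))
      (ih fun i hi => h i (Finset.mem_insert_of_mem hi))

private theorem RED_B_coeff {P : ℤ[X]} {v : ℕ} (h : RED_B P v) (i : ℕ) :
    |((P.coeff i : ℤ) : ℝ)| ≤ v := by
  obtain ⟨p, h1, h2⟩ := h
  have h3 : p.coeff i ≤ p.eval 1 := by
    rw [eval_eq_sum_range]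
    simp only [one_pow, mul_one]
    rcases le_or_gt i p.natDegree with hi | hi
    · exact Finset.single_le_sum (f := fun j => p.coeff j) (fun _ _ => Nat.zero_le _)
        (Finset.mem_range.2 (Nat.lt_succ_of_le hi))
    · rw [coeff_eq_zero_of_natDegree_lt hi]
      exact Nat.zero_le _
  have h4 : (P.coeff i).natAbs ≤ v := (h1 i).trans (h3.trans h2)
  rw [← Int.cast_abs, Int.abs_eq_natAbs]
  exact_mod_cast h4

/-- powers of the companion matrix -/
private theorem RED_eig {x y : ℝ} {d : ℕ} {a : ℤ[X]} {M : Matrix (Fin d) (Fin d) ℤ[X]}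
    (h : Ext x y d a M) (k : ℕ) (i : Fin d) :
    ∑ j : Fin d, aeval x ((M ^ k) i j) * (aeval x a * y) ^ (j : ℕ) =
      (aeval x a * y) ^ ((i : ℕ) + k) := by
  induction k with
  | zero =>
    simp only [pow_zero, add_zero, Matrix.one_apply]
    rw [Finset.sum_eq_single i]
    · simp
    · intro j _ hj
      rw [if_neg (fun h => hj h.symm)]
      simp
    · intro hi
      exact absurd (Finset.mem_univ i) hi
  | succ k ih =>
    have h1 : ∀ j : Fin d, aeval x ((M ^ (k + 1)) i j) * (aeval x a * y) ^ (j : ℕ) =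
        ∑ l : Fin d, aeval x ((M ^ k) i l) * (aeval x (M l j) * (aeval x a * y) ^ (j : ℕ)) := by
      intro j
      rw [pow_succ, Matrix.mul_apply, map_sum, Finset.sum_mul]
      refine Finset.sum_congr rfl fun l _ => ?_
      rw [map_mul, mul_assoc]
    rw [Finset.sum_congr rfl fun j _ => h1 j, Finset.sum_comm]
    have h2 : ∀ l : Fin d, ∑ j : Fin d, aeval x ((M ^ k) i l) *
        (aeval x (M l j) * (aeval x a * y) ^ (j : ℕ)) =
        (aeval x ((M ^ k) i l) * (aeval x a * y) ^ (l : ℕ)) * (aeval x a * y) := by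
      intro l
      rw [← Finset.mul_sum, h.eig l, pow_succ, mul_assoc]
    rw [Finset.sum_congr rfl fun l _ => h2 l, ← Finset.sum_mul, ih, ← pow_succ]
    rfl

private theorem RED_deg {d : ℕ} {M : Matrix (Fin d) (Fin d) ℤ[X]} {δ : ℕ}
    (h : ∀ i j, (M i j).natDegree ≤ δ) (k : ℕ) : ∀ i j, ((M ^ k) i j).natDegree ≤ k * δ := by
  induction k with
  | zero =>
    intro i j
    rw [pow_zero, Matrix.one_apply]
    split_ifs <;> simp
  | succ k ih =>
    intro i j
    rw [pow_succ, Matrix.mul_apply, add_mul, one_mul]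
    refine natDegree_sum_le_of_forall_le _ _ fun l _ => ?_
    exact natDegree_mul_le_of_le (ih i l) (h l j)

private theorem RED_mat {d : ℕ} {M : Matrix (Fin d) (Fin d) ℤ[X]} {lam : ℕ}
    (h : ∀ i j, RED_B (M i j) lam) (k : ℕ) : ∀ i j, RED_B ((M ^ k) i j) ((d * lam + 1) ^ k) := by
  induction k with
  | zero =>
    intro i j
    rw [pow_zero, pow_zero, Matrix.one_apply]
    split_ifs
    · exact RED_B_one
    · exact RED_B_mono RED_B_zero (Nat.zero_le _)
  | succ k ih =>
    intro i j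
    rw [pow_succ, Matrix.mul_apply]
    have h1 := RED_B_sum Finset.univ (fun l => (M ^ k) i l * M l j) ((d * lam + 1) ^ k * lam)
      (fun l _ => RED_B_mul (ih i l) (h l j))
    refine RED_B_mono h1 ?_
    rw [Finset.card_univ, Fintype.card_fin, pow_succ, mul_left_comm]
    exact Nat.mul_le_mul_left _ (Nat.le_succ _)

theorem thm_RED : St_RED := by
  classical
  intro x y d a M h
  obtain ⟨A, hA⟩ := RED_B_exists a
  choose L hL using fun p : Fin d × Fin d => RED_B_exists (M p.1 p.2)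
  set lam : ℕ := ∑ p, L p with hlam
  have hM : ∀ i j, RED_B (M i j) lam := fun i j => RED_B_mono (hL (i, j))
    (Finset.single_le_sum (f := L) (fun _ _ => Nat.zero_le _) (Finset.mem_univ (i, j)))
  set δ : ℕ := ∑ p : Fin d × Fin d, (M p.1 p.2).natDegree with hδ
  have hMd : ∀ i j, (M i j).natDegree ≤ δ := fun i j =>
    Finset.single_le_sum (f := fun p : Fin d × Fin d => (M p.1 p.2).natDegree)
      (fun _ _ => Nat.zero_le _) (Finset.mem_univ (i, j))
  set A' : ℕ := A + 1 with hA'
  set Λ : ℕ := d * lam + 1 with hΛ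
  refine ⟨1 + 4 * (A' * Λ) + a.natDegree + δ, by omega, ?_⟩
  intro n s G hn hs hG
  have hdeg : ∀ e ∈ G.support, e 0 ≤ n ∧ e 1 ≤ n := by
    intro e he
    have h0 := hG.1 0
    have h1 := hG.1 1
    have h0' : G.degreeOf 0 ≤ n := by exact_mod_cast h0
    have h1' : G.degreeOf 1 ≤ n := by exact_mod_cast h1
    exact ⟨(MvPolynomial.degreeOf_le_iff.1 h0') e he, (MvPolynomial.degreeOf_le_iff.1 h1') e he⟩
  let z : Fin d := ⟨0, h.pos⟩
  let T : (Fin 2 →₀ ℕ) → Fin d → ℤ[X] := fun e i =>
    C (G.coeff e) * X ^ e 0 * a ^ (n - e 1) * (M ^ e 1) z i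
  refine ⟨fun i => ∑ e ∈ G.support, T e i, fun i => ?_, fun i j => ?_, ?_⟩
  · refine natDegree_sum_le_of_forall_le _ _ fun e he => ?_
    obtain ⟨h0, h1⟩ := hdeg e he
    have e1 : (C (G.coeff e) * X ^ e 0 : ℤ[X]).natDegree ≤ n := by
      refine (natDegree_C_mul_le _ _).trans ?_
      rw [natDegree_X_pow]
      exact h0
    have e2 : (a ^ (n - e 1)).natDegree ≤ n * a.natDegree :=
      natDegree_pow_le.trans (Nat.mul_le_mul_right _ (Nat.sub_le _ _))
    have e3 : ((M ^ e 1) z i).natDegree ≤ n * δ :=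
      (RED_deg hMd (e 1) z i).trans (Nat.mul_le_mul_right _ h1)
    refine (natDegree_mul_le_of_le (natDegree_mul_le_of_le e1 e2) e3).trans ?_
    have e4 : n + n * a.natDegree + n * δ = (1 + a.natDegree + δ) * n := by ring
    rw [e4]
    refine Nat.mul_le_mul_right _ ?_
    omega
  · have hN : ∀ e, (G.coeff e).natAbs ≤ ⌊Real.exp s⌋₊ := by
      intro e
      have h1 := hG.2 e
      refine Nat.le_floor ?_
      rw [← Int.cast_abs, Int.abs_eq_natAbs, Int.cast_natCast] at h1
      exact h1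
    have hT : ∀ e ∈ G.support, RED_B (T e i) (⌊Real.exp s⌋₊ * (A' ^ n * Λ ^ n)) := by
      intro e he
      obtain ⟨h0, h1⟩ := hdeg e he
      refine RED_B_mono (RED_B_mul (RED_B_mul (RED_B_mul (RED_B_C _) (RED_B_X_pow _))
        (RED_B_pow (RED_B_mono hA (Nat.le_succ A)) _)) (RED_mat hM (e 1) z i)) ?_
      rw [mul_one, mul_assoc]
      refine Nat.mul_le_mul (hN e) (Nat.mul_le_mul ?_ ?_)
      · exact Nat.pow_le_pow_right (Nat.succ_pos A) (Nat.sub_le _ _)
      · exact Nat.pow_le_pow_right (Nat.succ_pos _) h1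
    have hcard : G.support.card ≤ 4 ^ n := by
      have h1 : G.support.card ≤ (Finset.range (n + 1) ×ˢ Finset.range (n + 1)).card := by
        refine Finset.card_le_card_of_injOn (fun e => (e 0, e 1)) ?_ ?_
        · intro e he
          obtain ⟨h0, h1⟩ := hdeg e (Finset.mem_coe.1 he)
          simp only [Finset.coe_product, Set.mem_prod, Finset.mem_coe, Finset.mem_range]
          omega
        · intro e _ e' _ hee
          simp only [Prod.mk.injEq] at hee
          ext i
          fin_cases i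
          · exact hee.1
          · exact hee.2
      rw [Finset.card_product, Finset.card_range] at h1
      have h2 : n + 1 ≤ 2 ^ n := Nat.lt_two_pow_self
      calc G.support.card ≤ (n + 1) * (n + 1) := h1
        _ ≤ 2 ^ n * 2 ^ n := Nat.mul_le_mul h2 h2
        _ = 4 ^ n := by
          rw [← mul_pow]
          norm_num
    have h3 := RED_B_coeff (RED_B_sum G.support (fun e => T e i) _ hT) j
    refine h3.trans ?_
    have h4 : ((G.support.card * (⌊Real.exp s⌋₊ * (A' ^ n * Λ ^ n)) : ℕ) : ℝ) ≤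
        (4 : ℝ) ^ n * (Real.exp s * ((A' : ℝ) ^ n * (Λ : ℝ) ^ n)) := by
      push_cast
      refine mul_le_mul (by exact_mod_cast hcard) (mul_le_mul_of_nonneg_right
        (Nat.floor_le (Real.exp_pos s).le) (by positivity)) (by positivity) (by positivity)
    refine h4.trans ?_
    have h5 : (4 : ℝ) ^ n * (Real.exp s * ((A' : ℝ) ^ n * (Λ : ℝ) ^ n)) =
        Real.exp s * (4 * ((A' : ℝ) * Λ)) ^ n := by
      rw [mul_pow, mul_pow]
      ring
    have h6 : (4 * ((A' : ℝ) * Λ)) ^ n ≤ Real.exp (4 * ((A' : ℝ) * Λ) * s) := by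
      have h7 : 4 * ((A' : ℝ) * Λ) ≤ Real.exp (4 * ((A' : ℝ) * Λ)) :=
        (lt_add_one _).le.trans (Real.add_one_le_exp _)
      refine (pow_le_pow_left₀ (by positivity) h7 n).trans ?_
      rw [← Real.exp_nat_mul]
      refine Real.exp_le_exp.2 ?_
      rw [mul_comm]
      exact mul_le_mul_of_nonneg_left hs (by positivity)
    rw [h5]
    refine (mul_le_mul_of_nonneg_left h6 (Real.exp_pos s).le).trans ?_
    rw [← Real.exp_add]
    refine Real.exp_le_exp.2 ?_
    have hs0 : 0 ≤ s := (Nat.cast_nonneg n).trans hs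
    push_cast
    have h8 : 0 ≤ ((a.natDegree : ℝ) + (δ : ℝ)) * s := by positivity
    linarith
  · have h1 : ∀ i : Fin d, aeval x (∑ e ∈ G.support, T e i) * (aeval x a * y) ^ (i : ℕ) =
        ∑ e ∈ G.support, ((G.coeff e : ℤ) : ℝ) * x ^ e 0 * (aeval x a) ^ (n - e 1) *
          (aeval x ((M ^ e 1) z i) * (aeval x a * y) ^ (i : ℕ)) := by
      intro i
      rw [map_sum, Finset.sum_mul]
      refine Finset.sum_congr rfl fun e _ => ?_
      simp only [T, map_mul, map_pow, aeval_X, eq_intCast, map_intCast]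
      ring
    rw [Finset.sum_congr rfl fun i _ => h1 i, Finset.sum_comm]
    have h2 : val x y G = ∑ e ∈ G.support, ((G.coeff e : ℤ) : ℝ) * (x ^ e 0 * y ^ e 1) := by
      unfold val
      rw [MvPolynomial.aeval_def, MvPolynomial.eval₂_eq']
      refine Finset.sum_congr rfl fun e _ => ?_
      rw [Fin.prod_univ_two]
      simp
    rw [h2, Finset.mul_sum]
    refine Finset.sum_congr rfl fun e he => ?_
    rw [← Finset.mul_sum, RED_eig h (e 1) z]
    obtain ⟨-, h4⟩ := hdeg e he
    have h5 : (aeval x a : ℝ) ^ n = (aeval x a) ^ (n - e 1) * (aeval x a) ^ e 1 := by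
      rw [← pow_add, Nat.sub_add_cancel h4]
    have h6 : ((z : ℕ) + e 1) = e 1 := Nat.zero_add _
    rw [h5, h6, mul_pow]
    ring

end Pool.Agent.QP
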