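import Pool.Agent.QP.St
import Pool.Agent.Helper8.SLAnalytic

/-!
# Quarter periods: the Schwarz lemma

`thm_SCW`: an entire function with zeros of order `T` at the points of a finite set `Q` in the disc of
radius `r`. The factorisation `W = (∏ (z - p)^T) W₁` is `Pool.Agent.Helper8.factor_many`.
-/

set_option autoImplicit false

open Complex Filter
open scoped Topology BigOperators

namespace Pool.Agent.QP

theorem SCW_prod_lower {Q : Finset ℂ} {T : ℕ} {r R : ℝ} (hrR : r < R) (hQ : ∀ p ∈ Q, ‖p‖ ≤ r)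
    {z : ℂ} (hz : ‖z‖ = R) : (R - r) ^ (T * Q.card) ≤ ‖∏ p ∈ Q, (z - p) ^ T‖ := by
  rw [norm_prod, pow_mul]
  calc ((R - r) ^ T) ^ Q.card = ∏ _p ∈ Q, (R - r) ^ T := by rw [Finset.prod_const]
    _ ≤ ∏ p ∈ Q, ‖(z - p) ^ T‖ := by
      apply Finset.prod_le_prod
      · intro p _
        exact pow_nonneg (by linarith) _
      · intro p hp
        rw [norm_pow]
        apply pow_le_pow_left₀ (by linarith)
        have h1 := norm_sub_norm_le z p
        have h2 := hQ p hp
        linarith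

theorem SCW_prod_upper {Q : Finset ℂ} {T : ℕ} {r : ℝ} (hQ : ∀ p ∈ Q, ‖p‖ ≤ r)
    {z : ℂ} (hz : ‖z‖ ≤ r) : ‖∏ p ∈ Q, (z - p) ^ T‖ ≤ (2 * r) ^ (T * Q.card) := by
  rw [norm_prod, pow_mul]
  calc ∏ p ∈ Q, ‖(z - p) ^ T‖ ≤ ∏ _p ∈ Q, (2 * r) ^ T := by
        apply Finset.prod_le_prod
        · intro p _
          exact norm_nonneg _
        · intro p hp
          rw [norm_pow]
          apply pow_le_pow_left₀ (norm_nonneg _)
          have h1 := norm_sub_le z p
          have h2 := hQ p hp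
          linarith
    _ = ((2 * r) ^ T) ^ Q.card := by rw [Finset.prod_const]

/-- Schwarz's lemma -/
theorem thm_SCW : St_SCW := by
  intro W Q T r R K hW hr hrR hQ hV hK z hz
  have hRr : 0 < R - r := by linarith
  obtain ⟨g, hg, hWg⟩ := Pool.Agent.Helper8.factor_many hW Q T (fun a ha =>
    (natCast_le_analyticOrderAt_iff_iteratedDeriv_eq_zero (hW.analyticAt a)).2
      fun t ht => hV a ha t ht)
  have hpos : 0 < (R - r) ^ (T * Q.card) := pow_pos hRr _
  have hR0 : 0 < R := hr.trans hrR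
  have h1 : ‖g z‖ ≤ K / (R - r) ^ (T * Q.card) := by
    refine Complex.norm_le_of_forall_mem_frontier_norm_le (U := Metric.ball (0 : ℂ) R)
      Metric.isBounded_ball hg.diffContOnCl ?_ ?_
    · intro w hw
      rw [frontier_ball (0 : ℂ) hR0.ne', mem_sphere_zero_iff_norm] at hw
      rw [le_div_iff₀ hpos]
      calc ‖g w‖ * (R - r) ^ (T * Q.card) ≤ ‖g w‖ * ‖∏ p ∈ Q, (w - p) ^ T‖ :=
            mul_le_mul_of_nonneg_left (SCW_prod_lower hrR hQ hw) (norm_nonneg _)
        _ = ‖W w‖ := by rw [hWg w, norm_mul, mul_comm]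
        _ ≤ K := hK w hw
    · refine subset_closure ?_
      rw [mem_ball_zero_iff]
      linarith
  have hK0 : 0 ≤ K / (R - r) ^ (T * Q.card) := (norm_nonneg _).trans h1
  calc ‖W z‖ = ‖∏ p ∈ Q, (z - p) ^ T‖ * ‖g z‖ := by rw [hWg z, norm_mul]
    _ ≤ (2 * r) ^ (T * Q.card) * (K / (R - r) ^ (T * Q.card)) :=
      mul_le_mul (SCW_prod_upper hQ hz) h1 (norm_nonneg _) (pow_nonneg (by linarith) _)
    _ = K * (2 * r / (R - r)) ^ (T * Q.card) := by
      rw [div_pow]
      ring

end Pool.Agent.QP
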