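import Pool.Agent.QP.St

/-!
# Quarter periods: Siegel's lemma in a field of transcendence degree one
-/

set_option autoImplicit false

open Complex Filter Polynomial
open scoped Topology BigOperators

namespace Pool.Agent.QP

section siegel

attribute [local instance] Matrix.seminormedAddCommGroup

private lemma SGL_siegel {α β : Type} [Fintype α] [Fintype β] (A : Matrix α β ℤ) (B : ℝ)
    (hB : 1 ≤ B) (hA : ∀ i j, |((A i j : ℤ) : ℝ)| ≤ B) (h0 : 0 < Fintype.card α)
    (h2 : 2 * Fintype.card α ≤ Fintype.card β) :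
    ∃ t : β → ℤ, t ≠ 0 ∧ (∀ i, ∑ j, A i j * t j = 0) ∧
      ∀ j, |((t j : ℤ) : ℝ)| ≤ Fintype.card β * B := by
  obtain ⟨t, ht0, ht, hn⟩ := Int.Matrix.exists_ne_zero_int_vec_norm_le A (by omega) h0
  have hAn : ‖A‖ ≤ B := by
    rw [Matrix.norm_le_iff (by linarith)]
    intro i j
    rw [Int.norm_eq_abs]
    exact hA i j
  have hc : (1 : ℝ) ≤ (Fintype.card β : ℝ) := by
    have h3 : 1 ≤ Fintype.card β := by omega
    exact_mod_cast h3
  have h2' : 2 * (Fintype.card α : ℝ) ≤ (Fintype.card β : ℝ) := by exact_mod_cast h2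
  have h0' : 0 < (Fintype.card α : ℝ) := by exact_mod_cast h0
  have h3 : (Fintype.card β : ℝ) * max 1 ‖A‖ ≤ Fintype.card β * B :=
    mul_le_mul_of_nonneg_left (max_le hB hAn) (by linarith)
  have h4 : 1 ≤ (Fintype.card β : ℝ) * max 1 ‖A‖ := by
    calc (1 : ℝ) = 1 * 1 := (one_mul 1).symm
      _ ≤ _ := mul_le_mul hc (le_max_left _ _) zero_le_one (by linarith)
  have h5 : ((Fintype.card β : ℝ) * max 1 ‖A‖) ^
      ((Fintype.card α : ℝ) / ((Fintype.card β : ℝ) - Fintype.card α)) ≤
      (Fintype.card β : ℝ) * max 1 ‖A‖ := by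
    calc _ ≤ ((Fintype.card β : ℝ) * max 1 ‖A‖) ^ (1 : ℝ) := by
          refine Real.rpow_le_rpow_of_exponent_le h4 ?_
          rw [div_le_one (by linarith)]
          linarith
      _ = _ := Real.rpow_one _
  refine ⟨t, ht0, fun i => ?_, fun j => ?_⟩
  · have h6 := congrFun ht i
    exact h6
  · rw [← Int.norm_eq_abs]
    exact ((norm_le_pi_norm t j).trans hn).trans (h5.trans h3)

end siegel

private lemma SGL_val (x y : ℝ) {D : ℕ} (c : Fin (D + 1) → ℤ) :
    val x y (∑ e : Fin (D + 1), MvPolynomial.C (c e) * MvPolynomial.X 0 ^ (e : ℕ)) =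
      aeval x (∑ e : Fin (D + 1), C (c e) * X ^ (e : ℕ) : ℤ[X]) := by
  unfold val
  rw [map_sum, map_sum]
  refine Finset.sum_congr rfl fun e _ => ?_
  rw [map_mul, map_pow, MvPolynomial.aeval_X, map_mul, map_pow, aeval_X]
  congr 1
  simp

private lemma SGL_bd {D : ℕ} (c : Fin (D + 1) → ℤ) (s : ℝ)
    (hc : ∀ e, |((c e : ℤ) : ℝ)| ≤ Real.exp s) :
    Bd D s (∑ e : Fin (D + 1), MvPolynomial.C (c e) * MvPolynomial.X 0 ^ (e : ℕ)) := by
  classical
  constructor
  · intro i
    have h1 : MvPolynomial.degreeOf i (∑ e : Fin (D + 1),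
        MvPolynomial.C (c e) * MvPolynomial.X 0 ^ (e : ℕ) : MvPolynomial (Fin 2) ℤ) ≤ D := by
      refine (MvPolynomial.degreeOf_sum_le i _ _).trans (Finset.sup_le fun e _ => ?_)
      refine (MvPolynomial.degreeOf_C_mul_le _ _ _).trans ?_
      refine (MvPolynomial.degreeOf_pow_le _ _ _).trans ?_
      have h2 : MvPolynomial.degreeOf i (MvPolynomial.X 0 : MvPolynomial (Fin 2) ℤ) ≤ 1 := by
        rw [MvPolynomial.degreeOf_X]
        split_ifs <;> omega
      calc (e : ℕ) * MvPolynomial.degreeOf i (MvPolynomial.X 0 : MvPolynomial (Fin 2) ℤ)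
          ≤ e * 1 := Nat.mul_le_mul_left _ h2
        _ ≤ D := by have := e.2; omega
    exact_mod_cast h1
  · intro e'
    rw [MvPolynomial.coeff_sum]
    have h1 : ∀ e : Fin (D + 1), MvPolynomial.coeff e'
        (MvPolynomial.C (c e) * MvPolynomial.X 0 ^ (e : ℕ) : MvPolynomial (Fin 2) ℤ) =
        if Finsupp.single 0 (e : ℕ) = e' then c e else 0 := by
      intro e
      rw [MvPolynomial.coeff_C_mul, MvPolynomial.coeff_X_pow]
      split_ifs <;> simp
    rw [Finset.sum_congr rfl fun e _ => h1 e]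
    by_cases h : ∃ e : Fin (D + 1), Finsupp.single 0 (e : ℕ) = e'
    · obtain ⟨e, he⟩ := h
      rw [Finset.sum_eq_single e]
      · rw [if_pos he]
        exact hc e
      · intro e2 _ hne
        rw [if_neg]
        intro h3
        apply hne
        have h4 := DFunLike.congr_fun (h3.trans he.symm) 0
        simp only [Finsupp.single_eq_same] at h4
        exact Fin.ext h4
      · intro h3
        exact absurd (Finset.mem_univ _) h3
    · push Not at h
      rw [Finset.sum_eq_zero fun e _ => if_neg (h e)]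
      simpa using (Real.exp_pos s).le

private lemma SGL_core (hE : St_EXT) (hR : St_RED) (x y : ℝ) (hx : Transcendental ℚ x)
    (hxy : ¬ AlgebraicIndependent ℚ ![x, y]) : ∃ C : ℕ, 1 ≤ C ∧ ∀ (n m D : ℕ) (H : ℝ)
    (G : Fin m → Fin n → MvPolynomial (Fin 2) ℤ), 1 ≤ n → 1 ≤ D → (D : ℝ) ≤ H → C * m ≤ n →
    (∀ i u, Bd D H (G i u)) → ∃ f : Fin n → MvPolynomial (Fin 2) ℤ,
      (∀ u, Bd D (C * (H + Real.log n)) (f u)) ∧ (∃ u, val x y (f u) ≠ 0) ∧
      ∀ i, ∑ u, val x y (f u) * val x y (G i u) = 0 := by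
  classical
  obtain ⟨d, a, M, hext⟩ := hE x y hx hxy
  obtain ⟨C₀, hC₀, hred⟩ := hR x y d a M hext
  refine ⟨2 * d * (C₀ + 2) + C₀ + 1, by omega, ?_⟩
  intro n m D H G hn hD hDH hCm hG
  have hH1 : (1 : ℝ) ≤ H := by
    have h1 : (1 : ℝ) ≤ D := by exact_mod_cast hD
    linarith
  have hlog : 0 ≤ Real.log n := Real.log_natCast_nonneg n
  have hCH : Real.log n + H + C₀ * H ≤
      ((2 * d * (C₀ + 2) + C₀ + 1 : ℕ) : ℝ) * (H + Real.log n) := by
    have h1 : ((C₀ + 1 : ℕ) : ℝ) ≤ ((2 * d * (C₀ + 2) + C₀ + 1 : ℕ) : ℝ) := by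
      have h2 : C₀ + 1 ≤ 2 * d * (C₀ + 2) + C₀ + 1 := by
        have := Nat.zero_le (2 * d * (C₀ + 2)); omega
      exact_mod_cast h2
    have h3 : (0 : ℝ) ≤ H + Real.log n := by linarith
    have h4 := mul_le_mul_of_nonneg_right h1 h3
    refine le_trans ?_ h4
    push_cast
    have h5 : 0 ≤ (C₀ : ℝ) * Real.log n := mul_nonneg (Nat.cast_nonneg _) hlog
    nlinarith
  rcases Nat.eq_zero_or_pos m with hm | hm
  · subst hm
    have h1 : (1 : MvPolynomial (Fin 2) ℤ) = ∑ e : Fin (D + 1),
        MvPolynomial.C (if (e : ℕ) = 0 then (1 : ℤ) else 0) * MvPolynomial.X 0 ^ (e : ℕ) := by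
      rw [Finset.sum_eq_single (0 : Fin (D + 1))]
      · simp
      · intro e _ he
        have h2 : (e : ℕ) ≠ 0 := fun h => he (Fin.ext h)
        rw [if_neg h2, map_zero, zero_mul]
      · intro h3
        exact absurd (Finset.mem_univ _) h3
    refine ⟨fun _ => 1, fun u => ?_, ⟨⟨0, hn⟩, ?_⟩, fun i => i.elim0⟩
    · rw [h1]
      refine SGL_bd _ _ fun e => ?_
      have h2 : (1 : ℝ) ≤ Real.exp (((2 * d * (C₀ + 2) + C₀ + 1 : ℕ) : ℝ) * (H + Real.log n)) := by
        rw [Real.one_le_exp_iff]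
        exact mul_nonneg (Nat.cast_nonneg _) (by linarith)
      split_ifs
      · simpa using h2
      · simpa using (zero_le_one.trans h2)
    · unfold val
      rw [map_one]
      exact one_ne_zero
  · -- the reduction
    have hr : ∀ (i : Fin m) (u : Fin n), ∃ r : Fin d → ℤ[X], (∀ l, (r l).natDegree ≤ C₀ * D) ∧
        (∀ l j, |(((r l).coeff j : ℤ) : ℝ)| ≤ Real.exp (C₀ * H)) ∧
        (aeval x a) ^ D * val x y (G i u) =
          ∑ l : Fin d, aeval x (r l) * (aeval x a * y) ^ (l : ℕ) :=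
      fun i u => hred D H (G i u) hD hDH (hG i u)
    choose r hr1 hr2 hr3 using hr
    -- the equations
    obtain ⟨A, hA⟩ : ∃ A : Matrix (Fin m × Fin d × Fin (C₀ * D + D + 1)) (Fin n × Fin (D + 1)) ℤ,
        ∀ p q, A p q = if (q.2 : ℕ) ≤ (p.2.2 : ℕ) then
          (r p.1 q.1 p.2.1).coeff ((p.2.2 : ℕ) - q.2) else 0 := ⟨fun p q => _, fun p q => rfl⟩
    have hcα : Fintype.card (Fin m × Fin d × Fin (C₀ * D + D + 1)) =
        m * (d * (C₀ * D + D + 1)) := by
      simp [Fintype.card_prod]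
    have hcβ : Fintype.card (Fin n × Fin (D + 1)) = n * (D + 1) := by
      simp [Fintype.card_prod]
    have hexp1 : (1 : ℝ) ≤ Real.exp (C₀ * H) := by
      rw [Real.one_le_exp_iff]
      exact mul_nonneg (Nat.cast_nonneg _) (by linarith)
    obtain ⟨c, hc0, hceq, hcb⟩ := SGL_siegel A (Real.exp (C₀ * H)) hexp1 (by
        intro p q
        rw [hA]
        split_ifs
        · exact hr2 _ _ _ _
        · simpa using (zero_le_one.trans hexp1))
      (by
        rw [hcα]
        exact Nat.mul_pos hm (Nat.mul_pos hext.pos (Nat.succ_pos _)))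
      (by
        rw [hcα, hcβ]
        have h1 : 2 * d * (C₀ + 2) * m ≤ n := by
          refine le_trans (Nat.mul_le_mul_right m ?_) hCm
          omega
        calc 2 * (m * (d * (C₀ * D + D + 1))) ≤ 2 * (m * (d * ((C₀ + 2) * (D + 1)))) := by
              refine Nat.mul_le_mul_left 2 (Nat.mul_le_mul_left m (Nat.mul_le_mul_left d ?_))
              nlinarith
          _ = (2 * d * (C₀ + 2) * m) * (D + 1) := by ring
          _ ≤ n * (D + 1) := Nat.mul_le_mul_right _ h1)
    -- the polynomials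
    obtain ⟨F, hF⟩ : ∃ F : Fin n → ℤ[X], ∀ u, F u =
        ∑ e : Fin (D + 1), C (c (u, e)) * X ^ (e : ℕ) := ⟨fun u => _, fun u => rfl⟩
    have hQ : ∀ (i : Fin m) (l : Fin d), ∑ u, F u * r i u l = 0 := by
      intro i l
      ext k
      rw [finsetSum_coeff, coeff_zero]
      have h1 : ∀ u, (F u * r i u l).coeff k = ∑ e : Fin (D + 1),
          (if (e : ℕ) ≤ k then (r i u l).coeff (k - e) else 0) * c (u, e) := by
        intro u
        rw [hF, Finset.sum_mul, finsetSum_coeff]
        refine Finset.sum_congr rfl fun e _ => ?_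
        rw [mul_assoc, coeff_C_mul, mul_comm (X ^ (e : ℕ)), coeff_mul_X_pow', mul_comm]
      rw [Finset.sum_congr rfl fun u _ => h1 u]
      by_cases hk : k < C₀ * D + D + 1
      · have h2 := hceq (i, l, ⟨k, hk⟩)
        rw [Fintype.sum_prod_type] at h2
        refine Eq.trans (Finset.sum_congr rfl fun u _ => Finset.sum_congr rfl fun e _ => ?_) h2
        rw [hA]
      · refine Finset.sum_eq_zero fun u _ => Finset.sum_eq_zero fun e _ => ?_
        have h2 := hr1 i u l
        have h3 := e.2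
        rw [if_pos (by omega), coeff_eq_zero_of_natDegree_lt (by omega), zero_mul]
    have hv : ∀ u, val x y (∑ e : Fin (D + 1),
        MvPolynomial.C (c (u, e)) * MvPolynomial.X 0 ^ (e : ℕ)) = aeval x (F u) := by
      intro u
      rw [hF]
      exact SGL_val x y fun e => c (u, e)
    refine ⟨fun u => ∑ e : Fin (D + 1), MvPolynomial.C (c (u, e)) * MvPolynomial.X 0 ^ (e : ℕ),
      fun u => ?_, ?_, fun i => ?_⟩
    · refine SGL_bd _ _ fun e => ?_
      refine (hcb (u, e)).trans ?_
      rw [hcβ]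
      refine le_trans ?_ (Real.exp_le_exp.mpr hCH)
      rw [Real.exp_add, Real.exp_add, Real.exp_log (by exact_mod_cast hn)]
      push_cast
      have h1 : (D : ℝ) + 1 ≤ Real.exp H :=
        (Real.add_one_le_exp (D : ℝ)).trans (Real.exp_le_exp.mpr hDH)
      refine mul_le_mul_of_nonneg_right ?_ (Real.exp_pos _).le
      exact mul_le_mul_of_nonneg_left h1 (Nat.cast_nonneg n)
    · -- one of the polynomials is not zero
      by_contra hcon
      push Not at hcon
      apply hc0
      funext q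
      obtain ⟨u, e⟩ := q
      have h1 := hcon u
      rw [hv] at h1
      have h2 : F u = 0 := by
        by_contra hne
        apply hx
        rw [← IsFractionRing.isAlgebraic_iff ℤ ℚ ℝ]
        exact ⟨F u, hne, h1⟩
      have h3 := congrArg (fun p => p.coeff (e : ℕ)) h2
      simp only [coeff_zero] at h3
      rw [hF, finsetSum_coeff, Finset.sum_eq_single e] at h3
      · rw [coeff_C_mul, coeff_X_pow, if_pos rfl, mul_one] at h3
        exact h3
      · intro e2 _ hne
        rw [coeff_C_mul, coeff_X_pow, if_neg (fun h => hne (Fin.ext h.symm)), mul_zero]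
      · intro h4
        exact absurd (Finset.mem_univ _) h4
    · have ha : (aeval x a : ℝ) ^ D ≠ 0 := pow_ne_zero _ hext.lead
      have h1 : (aeval x a : ℝ) ^ D * ∑ u, val x y (∑ e : Fin (D + 1),
          MvPolynomial.C (c (u, e)) * MvPolynomial.X 0 ^ (e : ℕ)) * val x y (G i u) = 0 := by
        rw [Finset.mul_sum]
        have h2 : ∀ u, (aeval x a : ℝ) ^ D * (val x y (∑ e : Fin (D + 1),
            MvPolynomial.C (c (u, e)) * MvPolynomial.X 0 ^ (e : ℕ)) * val x y (G i u)) =
            ∑ l : Fin d, aeval x (F u * r i u l) * (aeval x a * y) ^ (l : ℕ) := by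
          intro u
          rw [hv, mul_left_comm, hr3, Finset.mul_sum]
          refine Finset.sum_congr rfl fun l _ => ?_
          rw [map_mul, mul_assoc]
        rw [Finset.sum_congr rfl fun u _ => h2 u, Finset.sum_comm]
        refine Finset.sum_eq_zero fun l _ => ?_
        rw [← Finset.sum_mul, ← map_sum, hQ, map_zero, zero_mul]
      exact (mul_eq_zero.mp h1).resolve_left ha

private lemma SGL_swap_val (x y : ℝ) (G : MvPolynomial (Fin 2) ℤ) :
    val x y (MvPolynomial.rename (Equiv.swap (0 : Fin 2) 1) G) = val y x G := by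
  unfold val
  rw [MvPolynomial.aeval_rename]
  congr 2
  funext i
  fin_cases i <;> simp

private lemma SGL_swap_bd {d s : ℝ} {G : MvPolynomial (Fin 2) ℤ} (h : Bd d s G) :
    Bd d s (MvPolynomial.rename (Equiv.swap (0 : Fin 2) 1) G) := by
  constructor
  · intro i
    have h1 : i = Equiv.swap (0 : Fin 2) 1 (Equiv.swap (0 : Fin 2) 1 i) := by simp
    rw [h1, MvPolynomial.degreeOf_rename_of_injective (Equiv.injective _)]
    exact h.1 _
  · intro e
    have h1 : e = Finsupp.mapDomain (Equiv.swap (0 : Fin 2) 1)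
        (Finsupp.mapDomain (Equiv.swap (0 : Fin 2) 1) e) := by
      rw [← Finsupp.mapDomain_comp]
      have h2 : (Equiv.swap (0 : Fin 2) 1 : Fin 2 → Fin 2) ∘ (Equiv.swap (0 : Fin 2) 1) = id := by
        funext i
        simp
      rw [h2, Finsupp.mapDomain_id]
    rw [h1, MvPolynomial.coeff_rename_mapDomain _ (Equiv.injective _)]
    exact h.2 _

theorem thm_SGL (hE : St_EXT) (hR : St_RED) : St_SGL := by
  intro x y hxy
  rcases hxy with ⟨hni, hx | hy⟩
  · exact SGL_core hE hR x y hx hni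
  · have hni' : ¬ AlgebraicIndependent ℚ ![y, x] := by
      intro h
      apply hni
      have h1 := h.comp (Equiv.swap (0 : Fin 2) 1) (Equiv.injective _)
      have h2 : (![y, x] ∘ (Equiv.swap (0 : Fin 2) 1) : Fin 2 → ℝ) = ![x, y] := by
        funext i
        fin_cases i <;> simp
      rw [h2] at h1
      exact h1
    obtain ⟨C, hC, hmain⟩ := SGL_core hE hR y x hy hni'
    refine ⟨C, hC, ?_⟩
    intro n m D H G hn hD hDH hCm hG
    obtain ⟨f, hf1, ⟨u, hu⟩, hf3⟩ := hmain n m D H
      (fun i u => MvPolynomial.rename (Equiv.swap (0 : Fin 2) 1) (G i u)) hn hD hDH hCm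
      (fun i u => SGL_swap_bd (hG i u))
    refine ⟨fun u => MvPolynomial.rename (Equiv.swap (0 : Fin 2) 1) (f u),
      fun u => SGL_swap_bd (hf1 u), ⟨u, ?_⟩, fun i => ?_⟩
    · rw [SGL_swap_val]
      exact hu
    · rw [← hf3 i]
      refine Finset.sum_congr rfl fun u _ => ?_
      rw [SGL_swap_val, SGL_swap_val]

end Pool.Agent.QP
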