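import Pool.Agent.QP.St

/-!
# Quarter periods: algebraic factors (module TRD)
-/

set_option autoImplicit false

namespace Pool.Agent.QP

open MvPolynomial

/-- the exponent of `(a x)^i (b x y)^j` -/
private noncomputable def TRD_f (e : Fin 2 →₀ ℕ) : Fin 2 →₀ ℕ :=
  Finsupp.single 0 (e 0 + e 1) + Finsupp.single 1 (e 1)

private theorem TRD_f0 (e : Fin 2 →₀ ℕ) : TRD_f e 0 = e 0 + e 1 := by
  unfold TRD_f
  rw [Finsupp.add_apply, Finsupp.single_eq_same, Finsupp.single_eq_of_ne (by decide), add_zero]

private theorem TRD_f1 (e : Fin 2 →₀ ℕ) : TRD_f e 1 = e 1 := by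
  unfold TRD_f
  rw [Finsupp.add_apply, Finsupp.single_eq_same, Finsupp.single_eq_of_ne (by decide), zero_add]

private theorem TRD_inj {e e' : Fin 2 →₀ ℕ} (h : TRD_f e = TRD_f e') : e = e' := by
  have h0 : TRD_f e 0 = TRD_f e' 0 := by rw [h]
  have h1 : TRD_f e 1 = TRD_f e' 1 := by rw [h]
  rw [TRD_f0, TRD_f0] at h0
  rw [TRD_f1, TRD_f1] at h1
  ext i
  fin_cases i
  · change e 0 = e' 0
    omega
  · exact h1

section

variable {S : Type} [CommRing S]

/-- the substitution -/
private noncomputable def TRD_phi (a b : S) : MvPolynomial (Fin 2) S →ₐ[S] MvPolynomial (Fin 2) S :=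
  aeval ![C a * X 0, C b * (X 0 * X 1)]

private theorem TRD_mon (a b c : S) (e : Fin 2 →₀ ℕ) : TRD_phi a b (monomial e c) =
    monomial (TRD_f e) (c * (a ^ e 0 * b ^ e 1)) := by
  unfold TRD_phi
  rw [aeval_monomial, Finsupp.prod_fintype _ _ fun i => pow_zero _, Fin.prod_univ_two,
    monomial_eq, Finsupp.prod_fintype _ _ fun i => pow_zero _, Fin.prod_univ_two, TRD_f0, TRD_f1,
    algebraMap_eq]
  simp only [Matrix.cons_val_zero, Matrix.cons_val_one, map_mul, map_pow]
  ring

private theorem TRD_coeff (a b : S) (p : MvPolynomial (Fin 2) S) (e : Fin 2 →₀ ℕ) :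
    coeff (TRD_f e) (TRD_phi a b p) = coeff e p * (a ^ e 0 * b ^ e 1) := by
  classical
  induction p using MvPolynomial.induction_on' with
  | monomial e' c =>
    rw [TRD_mon, coeff_monomial, coeff_monomial]
    by_cases h : e' = e
    · rw [if_pos h, if_pos (by rw [h]), h]
    · rw [if_neg h, if_neg fun h' => h (TRD_inj h'), zero_mul]
  | add p q hp hq => rw [map_add, coeff_add, hp, hq, coeff_add, add_mul]

end

theorem thm_TRD : St_TRD := by
  intro x y a b h ha hb ha0 hb0
  have h1 : AlgebraicIndependent (integralClosure ℚ ℝ) ![x, y] := h.integralClosure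
  let a' : integralClosure ℚ ℝ := ⟨a, ha.isIntegral⟩
  let b' : integralClosure ℚ ℝ := ⟨b, hb.isIntegral⟩
  have ha' : a' ≠ 0 := fun h => ha0 (congrArg Subtype.val h)
  have hb' : b' ≠ 0 := fun h => hb0 (congrArg Subtype.val h)
  have h2 : AlgebraicIndependent (integralClosure ℚ ℝ) ![a * x, b * (x * y)] := by
    rw [algebraicIndependent_iff]
    intro p hp
    have h3 : aeval ![x, y] (TRD_phi a' b' p) = aeval ![a * x, b * (x * y)] p := by
      unfold TRD_phi
      rw [← AlgHom.comp_apply, comp_aeval]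
      congr 1
      congr 1
      funext i
      fin_cases i
      · change aeval ![x, y] (C a' * X 0) = a * x
        rw [map_mul, aeval_C, aeval_X]
        rfl
      · change aeval ![x, y] (C b' * (X 0 * X 1)) = b * (x * y)
        rw [map_mul, map_mul, aeval_C, aeval_X, aeval_X]
        rfl
    rw [hp] at h3
    have h4 := algebraicIndependent_iff.1 h1 _ h3
    ext e
    rw [coeff_zero]
    have h5 := TRD_coeff a' b' p e
    rw [h4, coeff_zero] at h5
    rcases mul_eq_zero.1 h5.symm with h6 | h6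
    · rw [h6]
    · exact absurd h6 (mul_ne_zero (pow_ne_zero _ ha') (pow_ne_zero _ hb'))
  exact h2.restrictScalars (FaithfulSMul.algebraMap_injective ℚ (integralClosure ℚ ℝ))

end Pool.Agent.QP
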