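import Pool.Agent.QP.St

/-!
# Quarter periods: [UPP], the upper bound for the derivatives at the next points
-/

set_option autoImplicit false

open Complex Filter
open scoped Topology BigOperators

namespace Pool.Agent.QP

theorem UPP_tau (D : Dat) : ‖D.tau‖ = 1 := by
  rcases D.htau with h | h
  · have h2 : ‖D.tau‖ ^ 2 = 1 := by
      rw [← norm_pow, h, norm_neg, norm_one]
    exact (pow_eq_one_iff_of_nonneg (norm_nonneg _) (by norm_num)).1 h2
  · have h3 : D.tau ^ 3 = 1 := by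
      have : D.tau ^ 3 = D.tau * D.tau ^ 2 := by ring
      rw [this, h]
      have h4 : D.tau * (-D.tau - 1) = -D.tau ^ 2 - D.tau := by ring
      rw [h4, h]
      ring
    have h2 : ‖D.tau‖ ^ 3 = 1 := by
      rw [← norm_pow, h3, norm_one]
    exact (pow_eq_one_iff_of_nonneg (norm_nonneg _) (by norm_num)).1 h2

theorem UPP_diff (D : Dat) (n : ℕ) (f : ℕ → ℕ → ℕ → ℂ) (z : ℂ)
    (hz : ∀ a b : ℤ, z ≠ D.v * (a + b * D.tau)) : DifferentiableAt ℂ (D.fn n f) z := by
  have hP : DifferentiableAt ℂ D.P z := (D.dP z hz).differentiableAt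
  have hZ : DifferentiableAt ℂ D.Z z := (D.dZ z hz).differentiableAt
  unfold Dat.fn
  refine DifferentiableAt.fun_sum fun i _ => DifferentiableAt.fun_sum fun j _ =>
    DifferentiableAt.fun_sum fun k _ => ?_
  exact (((differentiableAt_id.pow i).mul (hP.pow j)).mul (hZ.pow k)).const_mul _

theorem UPP_split (D : Dat) (a b : ℤ) (z : ℂ) :
    (D.v / 2 + D.v * (a + b * D.tau) + (z - D.pt a b) : ℂ) = z := by
  unfold Dat.pt
  ring

theorem UPP_off (D : Dat) (a b : ℤ) (z : ℂ) (hz : ‖z - D.pt a b‖ ≤ D.eps) :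
    ∀ m n : ℤ, z ≠ D.v * (m + n * D.tau) := by
  intro m n
  have h := D.off a b (z - D.pt a b) hz m n
  rwa [UPP_split] at h

theorem UPP_low (D : Dat) (a b : ℤ) (z : ℂ) (hz : ‖z - D.pt a b‖ ≤ D.eps) :
    Real.exp (-(D.C * (1 + ‖z‖ ^ 2))) ≤ ‖D.g z‖ := by
  have h := D.low a b (z - D.pt a b) hz
  rwa [UPP_split] at h

theorem UPP_inj (D : Dat) : Function.Injective (fun q : ℤ × ℤ => D.pt q.1 q.2) := by
  rintro ⟨a, b⟩ ⟨a', b'⟩ h
  have hv : (D.v : ℂ) ≠ 0 := by exact_mod_cast D.hv.ne'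
  have h1 : (a + b * D.tau : ℂ) = a' + b' * D.tau := by
    have h2 : (D.v : ℂ) * (a + b * D.tau) = D.v * (a' + b' * D.tau) := by
      simp only [Dat.pt] at h
      exact add_left_cancel h
    exact mul_left_cancel₀ hv h2
  have him := congrArg Complex.im h1
  have hre := congrArg Complex.re h1
  simp only [add_im, intCast_im, mul_im, intCast_re, zero_mul, add_zero, zero_add] at him
  have hb : (b : ℝ) = b' := mul_right_cancel₀ D.him.ne' him
  simp only [add_re, intCast_im, mul_re, intCast_re, zero_mul, sub_zero, hb] at hre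
  have ha : (a : ℝ) = a' := add_right_cancel hre
  have ha' : a = a' := by exact_mod_cast ha
  have hb' : b = b' := by exact_mod_cast hb
  rw [ha', hb']

theorem UPP_norm (D : Dat) (a b : ℤ) (S : ℕ) (hS : 1 ≤ S) (ha : |a| ≤ S + 1) (hb : |b| ≤ S + 1)
    (z : ℂ) (hz : ‖z - D.pt a b‖ ≤ D.eps) : ‖z‖ ≤ (5 * D.v + D.eps) * S := by
  have hv := D.hv
  have hS' : (1 : ℝ) ≤ S := by exact_mod_cast hS
  have h1 : ‖(a + b * D.tau : ℂ)‖ ≤ 2 * (S + 1) := by
    calc ‖(a + b * D.tau : ℂ)‖ ≤ ‖(a : ℂ)‖ + ‖(b : ℂ) * D.tau‖ := norm_add_le _ _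
      _ = |(a : ℝ)| + |(b : ℝ)| := by
        rw [norm_mul, UPP_tau, mul_one, norm_intCast, norm_intCast]
      _ ≤ (S + 1) + (S + 1) := by
        have h2 : |(a : ℝ)| ≤ (S : ℝ) + 1 := by exact_mod_cast ha
        have h3 : |(b : ℝ)| ≤ (S : ℝ) + 1 := by exact_mod_cast hb
        linarith
      _ = 2 * (S + 1) := by ring
  have h2 : ‖D.pt a b‖ ≤ D.v / 2 + D.v * (2 * (S + 1)) := by
    unfold Dat.pt
    calc ‖(D.v / 2 + D.v * (a + b * D.tau) : ℂ)‖
        ≤ ‖(D.v / 2 : ℂ)‖ + ‖(D.v * (a + b * D.tau) : ℂ)‖ := norm_add_le _ _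
      _ = D.v / 2 + D.v * ‖(a + b * D.tau : ℂ)‖ := by
        rw [norm_mul, norm_div, Complex.norm_of_nonneg hv.le, Complex.norm_ofNat]
      _ ≤ _ := by
        gcongr
  have h3 : ‖z‖ ≤ ‖z - D.pt a b‖ + ‖D.pt a b‖ := by
    calc ‖z‖ = ‖(z - D.pt a b) + D.pt a b‖ := by rw [sub_add_cancel]
      _ ≤ _ := norm_add_le _ _
  have he := D.heps
  nlinarith [mul_nonneg hv.le (sub_nonneg.2 hS'), mul_nonneg he.le (sub_nonneg.2 hS')]

theorem thm_UPP (hG : St_GRW) (hS : St_SCW) : St_UPP := by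
  intro D
  obtain ⟨C1, hC1, hW⟩ := hG D
  have hv := D.hv
  have he := D.heps
  have hDC := D.hC
  set r0 : ℝ := 5 * D.v + D.eps with hr0
  have hr0p : 0 < r0 := by positivity
  set q : ℝ := 1 + 2 * Real.exp 1 with hq
  have hqp : 0 < q := by positivity
  refine ⟨C1 * (1 + (q * r0) ^ 2) + 3 * D.C * (1 + r0 ^ 2) + 1 / D.eps + 1, ?_, ?_⟩
  · have h1 : 0 ≤ C1 * (1 + (q * r0) ^ 2) := by positivity
    have h2 : 0 ≤ 3 * D.C * (1 + r0 ^ 2) := by positivity
    have h3 : 0 ≤ 1 / D.eps := by positivity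
    linarith
  intro n T S K f hn hS1 hK hf hz a b t ha hb
  obtain ⟨W, hWd, hWe, hWg⟩ := hW n K f hn hK hf
  have hS' : (1 : ℝ) ≤ S := by exact_mod_cast hS1
  have hn' : (1 : ℝ) ≤ n := by exact_mod_cast hn
  set r : ℝ := r0 * S with hr
  have hrp : 0 < r := by positivity
  set R : ℝ := q * r with hR
  have hrR : r < R := by
    have h1 : 0 < 2 * Real.exp 1 * r := by positivity
    have h2 : R = r + 2 * Real.exp 1 * r := by rw [hR, hq]; ring
    linarith
  -- analyticity of the function near the points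
  have hball : ∀ a b : ℤ, DifferentiableOn ℂ (D.fn n f) (Metric.closedBall (D.pt a b) D.eps) := by
    intro a b z hz
    rw [Metric.mem_closedBall, dist_eq_norm] at hz
    exact (UPP_diff D n f z (UPP_off D a b z hz)).differentiableWithinAt
  have han : ∀ a b : ℤ, AnalyticAt ℂ (D.fn n f) (D.pt a b) := fun a b =>
    ((hball a b).mono Metric.ball_subset_closedBall).analyticAt (Metric.ball_mem_nhds _ he)
  -- the zeros
  set Q : Finset ℂ := ((Finset.Icc (-(S : ℤ)) S) ×ˢ (Finset.Icc (-(S : ℤ)) S)).image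
    (fun q : ℤ × ℤ => D.pt q.1 q.2) with hQ
  have hQm : ∀ p ∈ Q, ∃ a b : ℤ, |a| ≤ S ∧ |b| ≤ S ∧ D.pt a b = p := by
    intro p hp
    rw [hQ, Finset.mem_image] at hp
    obtain ⟨⟨a, b⟩, hab, rfl⟩ := hp
    rw [Finset.mem_product, Finset.mem_Icc, Finset.mem_Icc] at hab
    exact ⟨a, b, abs_le.2 hab.1, abs_le.2 hab.2, rfl⟩
  have hQc : Q.card = (2 * S + 1) ^ 2 := by
    rw [hQ, Finset.card_image_of_injective _ (UPP_inj D), Finset.card_product, Int.card_Icc]
    have h1 : ((S : ℤ) + 1 - -(S : ℤ)).toNat = 2 * S + 1 := by omega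
    rw [h1, sq]
  have hQr : ∀ p ∈ Q, ‖p‖ ≤ r := by
    intro p hp
    obtain ⟨a, b, ha, hb, rfl⟩ := hQm p hp
    refine UPP_norm D a b S hS1 (by linarith) (by linarith) _ ?_
    rw [sub_self, norm_zero]
    exact he.le
  have hQ0 : ∀ p ∈ Q, ∀ t < T, iteratedDeriv t W p = 0 := by
    intro p hp
    obtain ⟨a, b, ha, hb, rfl⟩ := hQm p hp
    have hWa : AnalyticAt ℂ W (D.pt a b) := hWd.analyticAt _
    rw [← natCast_le_analyticOrderAt_iff_iteratedDeriv_eq_zero hWa]
    have hev : W =ᶠ[𝓝 (D.pt a b)] (fun z => D.g z ^ (3 * n)) * D.fn n f := by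
      filter_upwards [Metric.ball_mem_nhds (D.pt a b) he] with z hz
      rw [Metric.mem_ball, dist_eq_norm] at hz
      exact hWe z (UPP_off D a b z hz.le)
    have hga : AnalyticAt ℂ (fun z => D.g z ^ (3 * n)) (D.pt a b) := (D.dg.analyticAt _).pow _
    rw [analyticOrderAt_congr hev, analyticOrderAt_mul hga (han a b)]
    have h1 : (T : ℕ∞) ≤ analyticOrderAt (D.fn n f) (D.pt a b) :=
      (natCast_le_analyticOrderAt_iff_iteratedDeriv_eq_zero (han a b)).2 (hz a b ha hb)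
    exact h1.trans le_add_self
  -- Schwarz
  set K1 : ℝ := K * Real.exp (C1 * n * (1 + R ^ 2)) with hK1
  have hWR : ∀ z : ℂ, ‖z‖ = R → ‖W z‖ ≤ K1 := by
    intro z hz
    have := hWg z
    rwa [hz] at this
  have hsch := hS W Q T r R K1 hWd hrp hrR hQr hQ0 hWR
  have hfac : (2 * r / (R - r)) ^ (T * Q.card) = Real.exp (-(T * (2 * S + 1) ^ 2)) := by
    have h1 : R - r = 2 * Real.exp 1 * r := by rw [hR, hq]; ring
    have h2 : 2 * r / (R - r) = Real.exp (-1) := by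
      rw [h1, Real.exp_neg]
      field_simp
    rw [h2, hQc, ← Real.exp_nat_mul]
    congr 1
    push_cast
    ring
  rw [hfac] at hsch
  -- the bound on the circle
  set M : ℝ := K * Real.exp (C1 * n * (1 + R ^ 2) - T * (2 * S + 1) ^ 2 +
    3 * n * (D.C * (1 + r ^ 2))) with hM
  have hcirc : ∀ z ∈ Metric.sphere (D.pt a b) D.eps, ‖D.fn n f z‖ ≤ M := by
    intro z hz
    rw [mem_sphere_iff_norm] at hz
    have hzr : ‖z‖ ≤ r := UPP_norm D a b S hS1 ha hb z hz.le
    have h1 := hsch z hzr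
    rw [hWe z (UPP_off D a b z hz.le), norm_mul, norm_pow] at h1
    have h2 : Real.exp (-(3 * n * (D.C * (1 + r ^ 2)))) ≤ ‖D.g z‖ ^ (3 * n) := by
      calc Real.exp (-(3 * n * (D.C * (1 + r ^ 2))))
          = Real.exp (-(D.C * (1 + r ^ 2))) ^ (3 * n) := by
            rw [← Real.exp_nat_mul]
            congr 1
            push_cast
            ring
        _ ≤ Real.exp (-(D.C * (1 + ‖z‖ ^ 2))) ^ (3 * n) := by
            gcongr
        _ ≤ ‖D.g z‖ ^ (3 * n) := by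
            gcongr
            exact UPP_low D a b z hz.le
    have h3 : Real.exp (-(3 * n * (D.C * (1 + r ^ 2)))) * ‖D.fn n f z‖ ≤
        K1 * Real.exp (-(T * (2 * S + 1) ^ 2)) :=
      (mul_le_mul_of_nonneg_right h2 (norm_nonneg _)).trans h1
    have h4 : ‖D.fn n f z‖ = Real.exp (3 * n * (D.C * (1 + r ^ 2))) *
        (Real.exp (-(3 * n * (D.C * (1 + r ^ 2)))) * ‖D.fn n f z‖) := by
      rw [← mul_assoc, ← Real.exp_add, add_neg_cancel, Real.exp_zero, one_mul]
    rw [h4]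
    refine (mul_le_mul_of_nonneg_left h3 (Real.exp_pos _).le).trans (le_of_eq ?_)
    rw [hM, hK1]
    have h5 : Real.exp (C1 * n * (1 + R ^ 2) - T * (2 * S + 1) ^ 2 +
        3 * n * (D.C * (1 + r ^ 2))) = Real.exp (C1 * n * (1 + R ^ 2)) *
        Real.exp (-(T * (2 * S + 1) ^ 2)) * Real.exp (3 * n * (D.C * (1 + r ^ 2))) := by
      rw [← Real.exp_add, ← Real.exp_add]
      congr 1
    rw [h5]
    ring
  have hcau := Complex.norm_iteratedDeriv_le_of_forall_mem_sphere_norm_le t he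
    ((hball a b).diffContOnCl_ball (fun _ h => h)) hcirc
  refine hcau.trans ?_
  have hpow : 1 / D.eps ^ t ≤ Real.exp (t * (1 / D.eps)) := by
    rw [Real.exp_nat_mul, ← one_div_pow]
    have h1 : 1 / D.eps ≤ Real.exp (1 / D.eps) := by
      have := Real.add_one_le_exp (1 / D.eps)
      linarith
    gcongr
  calc (t.factorial : ℝ) * M / D.eps ^ t
      = K * t.factorial * (Real.exp (C1 * n * (1 + R ^ 2) - T * (2 * S + 1) ^ 2 +
        3 * n * (D.C * (1 + r ^ 2))) * (1 / D.eps ^ t)) := by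
        rw [hM]
        ring
    _ ≤ K * t.factorial * (Real.exp (C1 * n * (1 + R ^ 2) - T * (2 * S + 1) ^ 2 +
        3 * n * (D.C * (1 + r ^ 2))) * Real.exp (t * (1 / D.eps))) := by
        gcongr
    _ = K * t.factorial * Real.exp (C1 * n * (1 + R ^ 2) - T * (2 * S + 1) ^ 2 +
        3 * n * (D.C * (1 + r ^ 2)) + t * (1 / D.eps)) := by
        rw [← Real.exp_add]
    _ ≤ _ := by
        refine mul_le_mul_of_nonneg_left (Real.exp_le_exp.2 ?_) (by positivity)
        have hSS : (1 : ℝ) ≤ (S : ℝ) ^ 2 := one_le_pow₀ hS'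
        have e1 : C1 * n * (1 + R ^ 2) ≤ C1 * (1 + (q * r0) ^ 2) * n * S ^ 2 := by
          have h1 : 1 + R ^ 2 ≤ (1 + (q * r0) ^ 2) * S ^ 2 := by
            rw [hR, hr]
            nlinarith [sq_nonneg (q * r0 * S)]
          calc C1 * n * (1 + R ^ 2) ≤ C1 * n * ((1 + (q * r0) ^ 2) * S ^ 2) := by gcongr
            _ = _ := by ring
        have e2 : 3 * n * (D.C * (1 + r ^ 2)) ≤ 3 * D.C * (1 + r0 ^ 2) * n * S ^ 2 := by
          have h1 : 1 + r ^ 2 ≤ (1 + r0 ^ 2) * S ^ 2 := by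
            rw [hr]
            nlinarith [sq_nonneg (r0 * S)]
          calc 3 * n * (D.C * (1 + r ^ 2)) ≤ 3 * n * (D.C * ((1 + r0 ^ 2) * S ^ 2)) := by gcongr
            _ = _ := by ring
        have e3 : (4 : ℝ) * T * S ^ 2 ≤ T * (2 * S + 1) ^ 2 := by
          have h1 : (4 : ℝ) * S ^ 2 ≤ (2 * S + 1) ^ 2 := by nlinarith
          calc (4 : ℝ) * T * S ^ 2 = T * (4 * S ^ 2) := by ring
            _ ≤ _ := by gcongr
        have e4 : 0 ≤ (C1 * (1 + (q * r0) ^ 2) + 3 * D.C * (1 + r0 ^ 2) + 1) * t := by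
          positivity
        have e5 : 0 ≤ (1 / D.eps + 1) * n * S ^ 2 := by positivity
        nlinarith

end Pool.Agent.QP
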