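import Pool.Agent.QP.St

/-!
# Quarter periods, module VAL: the values at the points `v / 2 + λ` (helper72)
-/

set_option autoImplicit false

open Complex Finset

namespace Pool.Agent.QP

/-! ### integers of the field of `τ` -/

private theorem VAL_tau (D : Dat) : ∃ e : ℤ, (e = 0 ∨ e = 1) ∧ D.tau ^ 2 = -e * D.tau - 1 ∧
    (starRingEnd ℂ) D.tau = -e - D.tau := by
  have him := D.him
  rcases D.htau with h | h
  · refine ⟨0, Or.inl rfl, ?_, ?_⟩
    · rw [h]
      push_cast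
      ring
    · have h1 := congrArg Complex.im h
      rw [sq, Complex.mul_im] at h1
      simp only [Complex.neg_im, Complex.one_im, neg_zero] at h1
      have h2 : D.tau.re = 0 := by
        have h3 : D.tau.re * D.tau.im = 0 := by linarith
        rcases mul_eq_zero.1 h3 with h4 | h4
        · exact h4
        · exact absurd h4 him.ne'
      apply Complex.ext
      · simp [h2]
      · simp
  · refine ⟨1, Or.inr rfl, ?_, ?_⟩
    · rw [h]
      push_cast
      ring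
    · have h1 := congrArg Complex.im h
      rw [sq, Complex.mul_im] at h1
      simp only [Complex.neg_im, Complex.one_im, sub_zero, Complex.sub_im] at h1
      have h2 : D.tau.re = -1 / 2 := by
        have h3 : (2 * D.tau.re + 1) * D.tau.im = 0 := by linarith
        rcases mul_eq_zero.1 h3 with h4 | h4
        · linarith
        · exact absurd h4 him.ne'
      apply Complex.ext
      · simp only [Complex.conj_re, Complex.sub_re, Complex.neg_re, Int.cast_one,
          Complex.one_re]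
        rw [h2]
        norm_num
      · simp

private theorem VAL_step {τ : ℂ} {e : ℤ} (he : e = 0 ∨ e = 1) (hτ : τ ^ 2 = -e * τ - 1) {M N : ℝ}
    {A B X Y : ℤ} (hA : |(A : ℝ)| ≤ M) (hB : |(B : ℝ)| ≤ M) (hX : |(X : ℝ)| ≤ N)
    (hY : |(Y : ℝ)| ≤ N) :
    ∃ X' Y' : ℤ, (X + Y * τ) * (A + B * τ) = X' + Y' * τ ∧ |(X' : ℝ)| ≤ N * (3 * M) ∧
      |(Y' : ℝ)| ≤ N * (3 * M) := by
  have hM : 0 ≤ M := (abs_nonneg _).trans hA
  have hN : 0 ≤ N := (abs_nonneg _).trans hX
  have hNM : 0 ≤ N * M := mul_nonneg hN hM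
  have b1 : |(X * A : ℝ)| ≤ N * M := by
    rw [abs_mul]
    exact mul_le_mul hX hA (abs_nonneg _) hN
  have b2 : |(Y * B : ℝ)| ≤ N * M := by
    rw [abs_mul]
    exact mul_le_mul hY hB (abs_nonneg _) hN
  have b3 : |(X * B : ℝ)| ≤ N * M := by
    rw [abs_mul]
    exact mul_le_mul hX hB (abs_nonneg _) hN
  have b4 : |(Y * A : ℝ)| ≤ N * M := by
    rw [abs_mul]
    exact mul_le_mul hY hA (abs_nonneg _) hN
  have b5 : |(e * (Y * B) : ℝ)| ≤ N * M := by
    rcases he with rfl | rfl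
    · simpa using hNM
    · simpa using b2
  refine ⟨X * A - Y * B, X * B + Y * A - e * (Y * B), ?_, ?_, ?_⟩
  · push_cast
    linear_combination (Y * B : ℂ) * hτ
  · push_cast
    rw [abs_le] at *
    constructor <;> nlinarith [b1.1, b1.2, b2.1, b2.2]
  · push_cast
    rw [abs_le] at *
    constructor <;> nlinarith [b3.1, b3.2, b4.1, b4.2, b5.1, b5.2]

private theorem VAL_pow {τ : ℂ} {e : ℤ} (he : e = 0 ∨ e = 1) (hτ : τ ^ 2 = -e * τ - 1) {M : ℝ}
    {A B A' B' : ℤ} (hA : |(A : ℝ)| ≤ M) (hB : |(B : ℝ)| ≤ M) (hA' : |(A' : ℝ)| ≤ M)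
    (hB' : |(B' : ℝ)| ≤ M) (r s : ℕ) :
    ∃ X Y : ℤ, ((A : ℂ) + B * τ) ^ r * (A' + B' * τ) ^ s = X + Y * τ ∧
      |(X : ℝ)| ≤ (3 * M) ^ (r + s) ∧ |(Y : ℝ)| ≤ (3 * M) ^ (r + s) := by
  induction s with
  | zero =>
    induction r with
    | zero => exact ⟨1, 0, by simp, by simp, by simp⟩
    | succ r ih =>
      obtain ⟨X, Y, h1, h2, h3⟩ := ih
      obtain ⟨X', Y', h4, h5, h6⟩ := VAL_step he hτ hA hB h2 h3
      refine ⟨X', Y', ?_, ?_, ?_⟩
      · rw [← h4, ← h1, pow_succ]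
        ring
      · exact h5.trans (le_of_eq (by ring))
      · exact h6.trans (le_of_eq (by ring))
  | succ s ih =>
    obtain ⟨X, Y, h1, h2, h3⟩ := ih
    obtain ⟨X', Y', h4, h5, h6⟩ := VAL_step he hτ hA' hB' h2 h3
    refine ⟨X', Y', ?_, ?_, ?_⟩
    · rw [← h4, ← h1, pow_succ]
      ring
    · exact h5.trans (le_of_eq (by ring))
    · exact h6.trans (le_of_eq (by ring))

/-! ### polynomials -/

/-- the polynomial with given coefficients -/
private noncomputable def VAL_G (i k : ℕ) (c : ℕ → ℕ → ℤ) : MvPolynomial (Fin 2) ℤ :=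
  ∑ l ∈ range (i + 1), ∑ m ∈ range (k + 1),
    MvPolynomial.monomial (Finsupp.single 0 (i - l) + Finsupp.single 1 (k - m)) (c l m)

private theorem VAL_G_val (i k : ℕ) (c : ℕ → ℕ → ℤ) (x y : ℝ) :
    val x y (VAL_G i k c) = ∑ l ∈ range (i + 1), ∑ m ∈ range (k + 1),
      (c l m : ℝ) * (x ^ (i - l) * y ^ (k - m)) := by
  unfold val VAL_G
  rw [map_sum]
  refine sum_congr rfl fun l _ => ?_
  rw [map_sum]
  refine sum_congr rfl fun m _ => ?_
  rw [MvPolynomial.aeval_monomial, Finsupp.prod_fintype _ _ (fun i => pow_zero _),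
    Fin.prod_univ_two]
  simp

private theorem VAL_G_coeff (i k : ℕ) (c : ℕ → ℕ → ℤ) (e : Fin 2 →₀ ℕ) :
    (VAL_G i k c).coeff e = ∑ l ∈ range (i + 1), ∑ m ∈ range (k + 1),
      if Finsupp.single 0 (i - l) + Finsupp.single 1 (k - m) = e then c l m else 0 := by
  unfold VAL_G
  rw [MvPolynomial.coeff_sum]
  refine sum_congr rfl fun l _ => ?_
  rw [MvPolynomial.coeff_sum]
  refine sum_congr rfl fun m _ => ?_
  rw [MvPolynomial.coeff_monomial]

private theorem VAL_G_bd {n i k : ℕ} (hi : i ≤ n) (hk : k ≤ n) (c : ℕ → ℕ → ℤ) {K s : ℝ}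
    (hc : ∀ l ≤ i, ∀ m ≤ k, |(c l m : ℝ)| ≤ K) (hK : (4 : ℝ) ^ n * K ≤ Real.exp s) (hK0 : 0 ≤ K) :
    Bd n s (VAL_G i k c) := by
  classical
  refine ⟨fun j => ?_, fun e => ?_⟩
  · have h1 : (VAL_G i k c).degreeOf j ≤ n := by
      rw [MvPolynomial.degreeOf_le_iff]
      intro e he
      rw [MvPolynomial.mem_support_iff, VAL_G_coeff] at he
      obtain ⟨l, -, hl⟩ := exists_ne_zero_of_sum_ne_zero he
      obtain ⟨m, -, hm⟩ := exists_ne_zero_of_sum_ne_zero hl
      have h2 : Finsupp.single 0 (i - l) + Finsupp.single 1 (k - m) = e := by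
        by_contra h
        rw [if_neg h] at hm
        exact hm rfl
      rw [← h2]
      fin_cases j
      · simp only [Fin.zero_eta, Finsupp.coe_add, Pi.add_apply, Finsupp.single_eq_same]
        rw [Finsupp.single_apply, if_neg (by decide)]
        omega
      · simp only [Fin.mk_one, Finsupp.coe_add, Pi.add_apply, Finsupp.single_eq_same]
        rw [Finsupp.single_apply, if_neg (by decide)]
        omega
    exact_mod_cast h1
  · rw [VAL_G_coeff]
    refine le_trans ?_ hK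
    have h1 : ∀ l ∈ range (i + 1), ∀ m ∈ range (k + 1),
        |((if Finsupp.single 0 (i - l) + Finsupp.single 1 (k - m) = e then c l m else 0 : ℤ) :
          ℝ)| ≤ K := by
      intro l hl m hm
      rw [mem_range] at hl hm
      split_ifs
      · exact hc l (by omega) m (by omega)
      · simpa using hK0
    have h2 : |(((∑ l ∈ range (i + 1), ∑ m ∈ range (k + 1),
        if Finsupp.single 0 (i - l) + Finsupp.single 1 (k - m) = e then c l m else 0 : ℤ)) : ℝ)| ≤
        ∑ l ∈ range (i + 1), ∑ m ∈ range (k + 1), K := by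
      rw [Int.cast_sum]
      refine (abs_sum_le_sum_abs _ _).trans (sum_le_sum fun l hl => ?_)
      rw [Int.cast_sum]
      exact (abs_sum_le_sum_abs _ _).trans (sum_le_sum fun m hm => h1 l hl m hm)
    refine h2.trans ?_
    rw [sum_const, sum_const, card_range, card_range, nsmul_eq_mul, nsmul_eq_mul]
    have h3 : ∀ j ≤ n, ((j + 1 : ℕ) : ℝ) ≤ 2 ^ n := by
      intro j hj
      have h4 : j + 1 ≤ 2 ^ n := (Nat.lt_two_pow_self (n := j)).trans_le
        (Nat.pow_le_pow_right two_pos hj)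
      exact_mod_cast h4
    have h5 : ((i + 1 : ℕ) : ℝ) * ((k + 1 : ℕ) : ℝ) ≤ 4 ^ n := by
      calc ((i + 1 : ℕ) : ℝ) * ((k + 1 : ℕ) : ℝ) ≤ 2 ^ n * 2 ^ n :=
            mul_le_mul (h3 i hi) (h3 k hk) (by positivity) (by positivity)
        _ = 4 ^ n := by rw [← mul_pow]; norm_num
    calc ((i + 1 : ℕ) : ℝ) * (((k + 1 : ℕ) : ℝ) * K) =
          (((i + 1 : ℕ) : ℝ) * ((k + 1 : ℕ) : ℝ)) * K := by ring
      _ ≤ 4 ^ n * K := mul_le_mul_of_nonneg_right h5 hK0

/-! ### the expansion -/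

private noncomputable def VAL_phi (D : Dat) (l j m : ℕ) (s : ℂ) : ℂ :=
  s ^ l * D.P (D.v / 2 + s) ^ j * (D.Z (D.v / 2 + s) - D.eta / 2) ^ m

private theorem VAL_off (D : Dat) {s : ℂ} (hs : ‖s‖ ≤ D.eps) (a b : ℤ) :
    (D.v / 2 + s : ℂ) ≠ D.v * (a + b * D.tau) := by
  have h := D.off 0 0 s hs a b
  simpa using h

private theorem VAL_an (D : Dat) (l j m t : ℕ) : ContDiffAt ℂ t (VAL_phi D l j m) 0 := by
  have hb : Metric.ball (0 : ℂ) D.eps ∈ nhds (0 : ℂ) := Metric.ball_mem_nhds _ D.heps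
  have hP : AnalyticAt ℂ (fun s : ℂ => D.P (D.v / 2 + s)) 0 := by
    refine DifferentiableOn.analyticAt (s := Metric.ball (0 : ℂ) D.eps) ?_ hb
    intro s hs
    have hs' : ‖s‖ ≤ D.eps := by
      rw [Metric.mem_ball, dist_zero_right] at hs
      exact hs.le
    have h1 := D.dP (D.v / 2 + s) (VAL_off D hs')
    exact (h1.comp_const_add _ _).differentiableAt.differentiableWithinAt
  have hZ : AnalyticAt ℂ (fun s : ℂ => D.Z (D.v / 2 + s)) 0 := by
    refine DifferentiableOn.analyticAt (s := Metric.ball (0 : ℂ) D.eps) ?_ hb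
    intro s hs
    have hs' : ‖s‖ ≤ D.eps := by
      rw [Metric.mem_ball, dist_zero_right] at hs
      exact hs.le
    have h1 := D.dZ (D.v / 2 + s) (VAL_off D hs')
    exact (h1.comp_const_add _ _).differentiableAt.differentiableWithinAt
  have h : AnalyticAt ℂ (VAL_phi D l j m) 0 :=
    ((analyticAt_id.pow l).mul (hP.pow j)).mul ((hZ.sub analyticAt_const).pow m)
  exact h.contDiffAt

private theorem VAL_loc (D : Dat) (i j k : ℕ) (a b : ℤ) {s : ℂ} (hs : ‖s‖ ≤ D.eps) :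
    (D.pt a b + s) ^ i * D.P (D.pt a b + s) ^ j * D.Z (D.pt a b + s) ^ k =
      ∑ l ∈ range (i + 1), ∑ m ∈ range (k + 1),
        (((i.choose l : ℂ) * (k.choose m : ℂ)) *
          ((D.v * (1 / 2 + a + b * D.tau)) ^ (i - l) *
            (D.eta * (1 / 2 + a + b * (starRingEnd ℂ) D.tau)) ^ (k - m))) *
          VAL_phi D l j m s := by
  have e1 : D.pt a b + s = (D.v / 2 + s) + D.v * (a + b * D.tau) := by
    unfold Dat.pt
    ring
  have e2 : D.P (D.pt a b + s) = D.P (D.v / 2 + s) := by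
    rw [e1, D.perP]
  have e3 : D.Z (D.pt a b + s) = (D.Z (D.v / 2 + s) - D.eta / 2) +
      D.eta * (1 / 2 + a + b * (starRingEnd ℂ) D.tau) := by
    rw [e1, D.perZ a b _ (VAL_off D hs)]
    ring
  have e4 : D.pt a b + s = s + D.v * (1 / 2 + a + b * D.tau) := by
    unfold Dat.pt
    ring
  rw [e2, e3, e4, add_pow, add_pow, sum_mul, sum_mul_sum]
  refine sum_congr rfl fun l _ => sum_congr rfl fun m _ => ?_
  unfold VAL_phi
  ring

private theorem VAL_der (D : Dat) (H : ℕ → ℕ → ℕ → ℕ → ℤ)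
    (hH : ∀ t l j m : ℕ, iteratedDeriv t (VAL_phi D l j m) 0 = (H t l j m : ℂ))
    (i j k t : ℕ) (a b : ℤ) :
    iteratedDeriv t (fun z : ℂ => z ^ i * D.P z ^ j * D.Z z ^ k) (D.pt a b) =
      ∑ l ∈ range (i + 1), ∑ m ∈ range (k + 1),
        (((i.choose l : ℂ) * (k.choose m : ℂ)) *
          ((D.v * (1 / 2 + a + b * D.tau)) ^ (i - l) *
            (D.eta * (1 / 2 + a + b * (starRingEnd ℂ) D.tau)) ^ (k - m))) *
          (H t l j m : ℂ) := by
  have e1 : iteratedDeriv t (fun z : ℂ => z ^ i * D.P z ^ j * D.Z z ^ k) (D.pt a b) =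
      iteratedDeriv t (fun s : ℂ => (D.pt a b + s) ^ i * D.P (D.pt a b + s) ^ j *
        D.Z (D.pt a b + s) ^ k) 0 := by
    have h := congrFun (iteratedDeriv_comp_const_add t
      (fun z : ℂ => z ^ i * D.P z ^ j * D.Z z ^ k) (D.pt a b)) 0
    simp only [add_zero] at h
    exact h.symm
  have e2 : (fun s : ℂ => (D.pt a b + s) ^ i * D.P (D.pt a b + s) ^ j *
      D.Z (D.pt a b + s) ^ k) =ᶠ[nhds 0] fun s => ∑ l ∈ range (i + 1), ∑ m ∈ range (k + 1),
        (((i.choose l : ℂ) * (k.choose m : ℂ)) *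
          ((D.v * (1 / 2 + a + b * D.tau)) ^ (i - l) *
            (D.eta * (1 / 2 + a + b * (starRingEnd ℂ) D.tau)) ^ (k - m))) *
          VAL_phi D l j m s := by
    filter_upwards [Metric.ball_mem_nhds (0 : ℂ) D.heps] with s hs
    rw [Metric.mem_ball, dist_zero_right] at hs
    exact VAL_loc D i j k a b hs.le
  rw [e1, e2.iteratedDeriv_eq t, iteratedDeriv_fun_sum]
  · refine sum_congr rfl fun l _ => ?_
    rw [iteratedDeriv_fun_sum]
    · refine sum_congr rfl fun m _ => ?_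
      rw [iteratedDeriv_const_mul _ (VAL_an D l j m t), hH]
    · intro m _
      exact contDiffAt_const.mul (VAL_an D l j m t)
  · intro l _
    exact ContDiffAt.sum fun m _ => contDiffAt_const.mul (VAL_an D l j m t)

/-! ### the bound -/

private theorem VAL_exp {n T S : ℕ} (hn : 1 ≤ n) (hnT : n ≤ T) {C : ℝ} (hC : 1 ≤ C) :
    (4 : ℝ) ^ n * ((2 ^ n * 2 ^ n) * 4 ^ n * (T.factorial * C ^ (4 * T)) *
      (3 * (4 * ((S : ℝ) + 2))) ^ (2 * n)) ≤
      Real.exp ((11 + 4 * Real.log C) * (T * Real.log (T + 2) + n * Real.log (S + 2))) := by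
  have hC0 : 0 < C := by linarith
  have hT2 : (0 : ℝ) < (T : ℝ) + 2 := by positivity
  have hS2 : (0 : ℝ) < (S : ℝ) + 2 := by positivity
  have hT1 : (1 : ℝ) ≤ T := by exact_mod_cast hn.trans hnT
  have hnT' : (n : ℝ) ≤ T := by exact_mod_cast hnT
  have hn0 : (0 : ℝ) ≤ n := Nat.cast_nonneg n
  have hlC : 0 ≤ Real.log C := Real.log_nonneg hC
  have hlS : 0 ≤ Real.log ((S : ℝ) + 2) := Real.log_nonneg (by
    have : (0 : ℝ) ≤ S := Nat.cast_nonneg S
    linarith)
  have hlT : 1 ≤ Real.log ((T : ℝ) + 2) := by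
    rw [Real.le_log_iff_exp_le hT2]
    have := Real.exp_one_lt_d9
    linarith
  have e1 : (4 : ℝ) ^ n * ((2 ^ n * 2 ^ n) * 4 ^ n * (T.factorial * C ^ (4 * T)) *
      (3 * (4 * ((S : ℝ) + 2))) ^ (2 * n)) =
      9216 ^ n * T.factorial * C ^ (4 * T) * ((S : ℝ) + 2) ^ (2 * n) := by
    have h1 : (3 * (4 * ((S : ℝ) + 2))) ^ (2 * n) = 144 ^ n * ((S : ℝ) + 2) ^ (2 * n) := by
      rw [← mul_assoc, mul_pow, pow_mul (3 * 4 : ℝ) 2 n]
      norm_num
    have h2 : (4 : ℝ) ^ n * (2 ^ n * 2 ^ n * 4 ^ n) * 144 ^ n = 9216 ^ n := by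
      rw [← mul_pow, ← mul_pow, ← mul_pow, ← mul_pow]
      norm_num
    rw [h1, ← h2]
    ring
  rw [e1]
  have b1 : (9216 : ℝ) ^ n ≤ Real.exp (10 * n) := by
    rw [mul_comm, Real.exp_nat_mul]
    refine pow_le_pow_left₀ (by norm_num) ?_ n
    have h1 : (2.7 : ℝ) ≤ Real.exp 1 := by
      have := Real.exp_one_gt_d9
      linarith
    have h2 : Real.exp 10 = Real.exp 1 ^ 10 := by
      rw [← Real.exp_nat_mul]
      norm_num
    rw [h2]
    refine le_trans ?_ (pow_le_pow_left₀ (by norm_num) h1 10)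
    norm_num
  have b2 : (T.factorial : ℝ) ≤ Real.exp (T * Real.log (T + 2)) := by
    rw [Real.exp_nat_mul, Real.exp_log hT2]
    have h1 : (T.factorial : ℝ) ≤ (T : ℝ) ^ T := by
      exact_mod_cast Nat.factorial_le_pow T
    exact h1.trans (pow_le_pow_left₀ (Nat.cast_nonneg T) (by linarith) T)
  have b3 : C ^ (4 * T) = Real.exp (4 * T * Real.log C) := by
    have h1 : (4 * T * Real.log C : ℝ) = ((4 * T : ℕ) : ℝ) * Real.log C := by push_cast; ring
    rw [h1, Real.exp_nat_mul, Real.exp_log hC0]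
  have b4 : ((S : ℝ) + 2) ^ (2 * n) = Real.exp (2 * n * Real.log (S + 2)) := by
    have h1 : (2 * n * Real.log (S + 2) : ℝ) = ((2 * n : ℕ) : ℝ) * Real.log (S + 2) := by
      push_cast; ring
    rw [h1, Real.exp_nat_mul, Real.exp_log hS2]
  rw [b3, b4]
  calc (9216 : ℝ) ^ n * T.factorial * Real.exp (4 * T * Real.log C) *
        Real.exp (2 * n * Real.log (S + 2)) ≤
        Real.exp (10 * n) * Real.exp (T * Real.log (T + 2)) * Real.exp (4 * T * Real.log C) *
          Real.exp (2 * n * Real.log (S + 2)) := by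
        refine mul_le_mul_of_nonneg_right (mul_le_mul_of_nonneg_right
          (mul_le_mul b1 b2 (Nat.cast_nonneg _) (Real.exp_pos _).le) (Real.exp_pos _).le)
          (Real.exp_pos _).le
    _ = Real.exp (10 * n + T * Real.log (T + 2) + 4 * T * Real.log C +
          2 * n * Real.log (S + 2)) := by
        rw [← Real.exp_add, ← Real.exp_add, ← Real.exp_add]
    _ ≤ _ := by
        apply Real.exp_le_exp.mpr
        have h1 : (n : ℝ) ≤ T * Real.log (T + 2) := by nlinarith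
        have h2 : (T : ℝ) ≤ T * Real.log (T + 2) := by nlinarith
        have h3 : (T : ℝ) * Real.log C ≤ Real.log C * (T * Real.log (T + 2)) := by
          rw [mul_comm]
          exact mul_le_mul_of_nonneg_left h2 hlC
        have h4 : 0 ≤ n * Real.log ((S : ℝ) + 2) := mul_nonneg hn0 hlS
        have h5 : 0 ≤ Real.log C * (n * Real.log ((S : ℝ) + 2)) := mul_nonneg hlC h4
        nlinarith

/-- [VAL] -/
theorem thm_VAL (hH : St_HUR) : St_VAL := by
  intro D
  obtain ⟨C, H, hC, hH'⟩ := hH D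
  obtain ⟨e, he, hτ, hconj⟩ := VAL_tau D
  have hder : ∀ t l j m : ℕ, iteratedDeriv t (VAL_phi D l j m) 0 = (H t l j m : ℂ) :=
    fun t l j m => (hH' t l j m).1
  refine ⟨11 + 4 * Real.log C, by have := Real.log_nonneg hC; linarith, ?_⟩
  intro n T S i j k t a b hn hnT hi hj hk ht ha hb
  have ha' : |(a : ℝ)| ≤ S := by exact_mod_cast ha
  have hb' : |(b : ℝ)| ≤ S := by exact_mod_cast hb
  have hS0 : (0 : ℝ) ≤ S := Nat.cast_nonneg S
  have hC0 : 0 < C := by linarith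
  have he' : (e : ℝ) = 0 ∨ (e : ℝ) = 1 := by
    rcases he with h | h
    · left; rw [h]; norm_num
    · right; rw [h]; norm_num
  rw [abs_le] at ha' hb'
  have hA : |((1 + 2 * a : ℤ) : ℝ)| ≤ 4 * ((S : ℝ) + 2) := by
    push_cast
    rw [abs_le]
    constructor <;> linarith [ha'.1, ha'.2]
  have hB : |((2 * b : ℤ) : ℝ)| ≤ 4 * ((S : ℝ) + 2) := by
    push_cast
    rw [abs_le]
    constructor <;> linarith [hb'.1, hb'.2]
  have hA' : |((1 + 2 * a - 2 * (b * e) : ℤ) : ℝ)| ≤ 4 * ((S : ℝ) + 2) := by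
    push_cast
    rw [abs_le]
    rcases he' with h | h <;> rw [h] <;> constructor <;> linarith [ha'.1, ha'.2, hb'.1, hb'.2]
  have hB' : |((-(2 * b) : ℤ) : ℝ)| ≤ 4 * ((S : ℝ) + 2) := by
    push_cast
    rw [abs_le]
    constructor <;> linarith [hb'.1, hb'.2]
  choose X Y hXY hX hY using VAL_pow he hτ hA hB hA' hB'
  obtain ⟨d, hd⟩ : ∃ d : ℕ → ℕ → ℤ, d = fun l m => ((i.choose l * k.choose m : ℕ) : ℤ) *
    2 ^ (2 * n - (i - l) - (k - m)) * H t l j m := ⟨_, rfl⟩
  have hdK : ∀ l ≤ i, ∀ m ≤ k, |(d l m : ℝ)| ≤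
      (2 ^ n * 2 ^ n) * 4 ^ n * (T.factorial * C ^ (4 * T)) := by
    intro l hl m hm
    rw [hd]
    push_cast
    rw [abs_mul, abs_mul, abs_mul, Nat.abs_cast, Nat.abs_cast]
    have h1 : ((i.choose l : ℕ) : ℝ) ≤ 2 ^ n := by
      have h2 : i.choose l ≤ 2 ^ n := (Nat.choose_le_two_pow i l).trans
        (Nat.pow_le_pow_right two_pos hi)
      exact_mod_cast h2
    have h3 : ((k.choose m : ℕ) : ℝ) ≤ 2 ^ n := by
      have h2 : k.choose m ≤ 2 ^ n := (Nat.choose_le_two_pow k m).trans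
        (Nat.pow_le_pow_right two_pos hk)
      exact_mod_cast h2
    have h4 : |(2 : ℝ) ^ (2 * n - (i - l) - (k - m))| ≤ 4 ^ n := by
      rw [abs_of_nonneg (by positivity)]
      have h5 : (4 : ℝ) ^ n = 2 ^ (2 * n) := by
        rw [pow_mul]
        norm_num
      rw [h5]
      exact pow_le_pow_right₀ one_le_two (by omega)
    have h6 : |(H t l j m : ℝ)| ≤ T.factorial * C ^ (4 * T) := by
      refine (hH' t l j m).2.trans ?_
      refine mul_le_mul ?_ ?_ (by positivity) (by positivity)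
      · exact_mod_cast Nat.factorial_le ht.le
      · exact pow_le_pow_right₀ hC (by omega)
    refine mul_le_mul (mul_le_mul (mul_le_mul h1 h3 (by positivity) (by positivity)) h4
      (abs_nonneg _) (by positivity)) h6 (abs_nonneg _) (by positivity)
  have hpw : ∀ l m, (3 * (4 * ((S : ℝ) + 2))) ^ ((i - l) + (k - m)) ≤
      (3 * (4 * ((S : ℝ) + 2))) ^ (2 * n) := by
    intro l m
    exact pow_le_pow_right₀ (by linarith) (by omega)
  have hK0 : 0 ≤ (2 ^ n * 2 ^ n) * 4 ^ n * (T.factorial * C ^ (4 * T)) *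
      (3 * (4 * ((S : ℝ) + 2))) ^ (2 * n) := by positivity
  have hcK : ∀ Z : ℕ → ℕ → ℤ, (∀ r s, |(Z r s : ℝ)| ≤ (3 * (4 * ((S : ℝ) + 2))) ^ (r + s)) →
      ∀ l ≤ i, ∀ m ≤ k, |((d l m * Z (i - l) (k - m) : ℤ) : ℝ)| ≤
        (2 ^ n * 2 ^ n) * 4 ^ n * (T.factorial * C ^ (4 * T)) *
          (3 * (4 * ((S : ℝ) + 2))) ^ (2 * n) := by
    intro Z hZ l hl m hm
    push_cast
    rw [abs_mul]
    exact mul_le_mul (hdK l hl m hm) ((hZ _ _).trans (hpw l m)) (abs_nonneg _) (by positivity)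
  have hexp := VAL_exp (S := S) hn hnT hC
  refine ⟨VAL_G i k fun l m => d l m * X (i - l) (k - m),
    VAL_G i k fun l m => d l m * Y (i - l) (k - m),
    VAL_G_bd hi hk _ (hcK X hX) hexp hK0, VAL_G_bd hi hk _ (hcK Y hY) hexp hK0, ?_⟩
  rw [VAL_der D H hder, VAL_G_val, VAL_G_val, mul_sum]
  push_cast
  rw [mul_sum, ← sum_add_distrib]
  refine sum_congr rfl fun l hl => ?_
  rw [mul_sum, mul_sum, ← sum_add_distrib]
  refine sum_congr rfl fun m hm => ?_
  have hkey : (4 : ℂ) ^ n * ((1 / 2 + a + b * D.tau) ^ (i - l) *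
      (1 / 2 + a + b * (starRingEnd ℂ) D.tau) ^ (k - m)) =
      2 ^ (2 * n - (i - l) - (k - m)) * (X (i - l) (k - m) + Y (i - l) (k - m) * D.tau) := by
    rw [← hXY]
    have h1 : (4 : ℂ) ^ n = 2 ^ (2 * n - (i - l) - (k - m)) * (2 ^ (i - l) * 2 ^ (k - m)) := by
      rw [← pow_add, ← pow_add]
      have h2 : 2 * n - (i - l) - (k - m) + ((i - l) + (k - m)) = 2 * n := by omega
      rw [h2, pow_mul]
      norm_num
    have h3 : (((1 + 2 * a : ℤ) : ℂ) + ((2 * b : ℤ) : ℂ) * D.tau) =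
        2 * (1 / 2 + a + b * D.tau) := by
      push_cast
      ring
    have h4 : (((1 + 2 * a - 2 * (b * e) : ℤ) : ℂ) + ((-(2 * b) : ℤ) : ℂ) * D.tau) =
        2 * (1 / 2 + a + b * (starRingEnd ℂ) D.tau) := by
      rw [hconj]
      push_cast
      ring
    rw [h3, h4, mul_pow, mul_pow, h1]
    ring
  rw [hd]
  simp only [Int.cast_mul, Int.cast_pow, Int.cast_natCast, Nat.cast_mul, Int.cast_ofNat]
  rw [mul_pow, mul_pow]
  linear_combination ((i.choose l : ℂ) * (k.choose m : ℂ) * (D.v : ℂ) ^ (i - l) *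
    (D.eta : ℂ) ^ (k - m) * (H t l j m : ℂ)) * hkey

end Pool.Agent.QP
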