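import Pool.Agent.QP.St

/-!
# Quarter periods, module ZES: the zero estimate
-/

set_option autoImplicit false

open Complex Filter Topology

namespace Pool.Agent.QP

/-! ### polynomials in two variables -/

private theorem ZES_poly1 (n : ℕ) (c : ℕ → ℂ)
    (h : ∀ x : ℂ, ∑ l ∈ Finset.range (n + 1), x ^ l * c l = 0) : ∀ l ≤ n, c l = 0 := by
  intro l hl
  let p : Polynomial ℂ := ∑ l ∈ Finset.range (n + 1), Polynomial.C (c l) * Polynomial.X ^ l
  have hp : p = 0 := by
    refine Polynomial.funext fun x => ?_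
    rw [Polynomial.eval_zero, ← h x]
    simp only [p, Polynomial.eval_finsetSum, Polynomial.eval_mul, Polynomial.eval_C,
      Polynomial.eval_pow, Polynomial.eval_X]
    exact Finset.sum_congr rfl fun l _ => mul_comm _ _
  have h1 : p.coeff l = c l := by
    simp only [p, Polynomial.finsetSum_coeff, Polynomial.coeff_C_mul, Polynomial.coeff_X_pow]
    rw [Finset.sum_eq_single l]
    · simp
    · intro m _ hm
      simp [Ne.symm hm]
    · intro h2
      exact absurd (Finset.mem_range.2 (by omega)) h2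
  rw [← h1, hp, Polynomial.coeff_zero]

private theorem ZES_poly2 (n : ℕ) (c : ℕ → ℕ → ℂ)
    (h : ∀ x y : ℂ, ∑ l ∈ Finset.range (n + 1), ∑ m ∈ Finset.range (n + 1),
      x ^ l * y ^ m * c l m = 0) : ∀ l ≤ n, ∀ m ≤ n, c l m = 0 := by
  intro l hl m hm
  have h1 : ∀ x : ℂ, ∀ m ≤ n, ∑ l ∈ Finset.range (n + 1), x ^ l * c l m = 0 := by
    intro x
    refine ZES_poly1 n (fun m => ∑ l ∈ Finset.range (n + 1), x ^ l * c l m) fun y => ?_
    rw [← h x y]
    rw [Finset.sum_comm]
    refine Finset.sum_congr rfl fun m _ => ?_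
    rw [Finset.mul_sum]
    exact Finset.sum_congr rfl fun l _ => by ring
  exact ZES_poly1 n (fun l => c l m) (fun x => h1 x m hm) l hl

private theorem ZES_line (n : ℕ) (c : ℕ → ℕ → ℂ) (u0 u1 w0 w1 : ℂ)
    (h : ∀ z ∈ Finset.range (2 * n + 1), ∑ l ∈ Finset.range (n + 1),
      ∑ m ∈ Finset.range (n + 1), (u0 + u1 * (z : ℂ)) ^ l * (w0 + w1 * (z : ℂ)) ^ m * c l m = 0)
    (z : ℂ) : ∑ l ∈ Finset.range (n + 1),
      ∑ m ∈ Finset.range (n + 1), (u0 + u1 * z) ^ l * (w0 + w1 * z) ^ m * c l m = 0 := by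
  classical
  let p : Polynomial ℂ := ∑ l ∈ Finset.range (n + 1), ∑ m ∈ Finset.range (n + 1),
    (Polynomial.C u0 + Polynomial.C u1 * Polynomial.X) ^ l *
      (Polynomial.C w0 + Polynomial.C w1 * Polynomial.X) ^ m * Polynomial.C (c l m)
  have heval : ∀ z : ℂ, p.eval z = ∑ l ∈ Finset.range (n + 1), ∑ m ∈ Finset.range (n + 1),
      (u0 + u1 * z) ^ l * (w0 + w1 * z) ^ m * c l m := by
    intro z
    simp only [p, Polynomial.eval_finsetSum, Polynomial.eval_mul, Polynomial.eval_C,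
      Polynomial.eval_pow, Polynomial.eval_X, Polynomial.eval_add]
  have hlin : ∀ a b : ℂ, (Polynomial.C a + Polynomial.C b * Polynomial.X).natDegree ≤ 1 := by
    intro a b
    refine (Polynomial.natDegree_add_le _ _).trans (max_le ?_ ?_)
    · rw [Polynomial.natDegree_C]
      exact Nat.zero_le _
    · exact (Polynomial.natDegree_C_mul_le _ _).trans Polynomial.natDegree_X_le
  have hdeg : p.natDegree ≤ 2 * n := by
    refine Polynomial.natDegree_sum_le_of_forall_le _ _ fun l hl => ?_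
    refine Polynomial.natDegree_sum_le_of_forall_le _ _ fun m hm => ?_
    have hl' := Finset.mem_range.1 hl
    have hm' := Finset.mem_range.1 hm
    refine (Polynomial.natDegree_mul_C_le _ _).trans ?_
    refine Polynomial.natDegree_mul_le.trans ?_
    have h1 := Polynomial.natDegree_pow_le_of_le l (hlin u0 u1)
    have h2 := Polynomial.natDegree_pow_le_of_le m (hlin w0 w1)
    omega
  have hp : p = 0 := by
    refine Polynomial.eq_zero_of_natDegree_lt_card_of_eval_eq_zero' p
      ((Finset.range (2 * n + 1)).map ⟨fun z : ℕ => (z : ℂ), Nat.cast_injective⟩) ?_ ?_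
    · intro x hx
      obtain ⟨z, hz, rfl⟩ := Finset.mem_map.1 hx
      rw [heval]
      exact h z hz
    · rw [Finset.card_map, Finset.card_range]
      omega
  rw [← heval, hp, Polynomial.eval_zero]

private theorem ZES_grid (n : ℕ) (c : ℕ → ℕ → ℂ) (x0 x1 x2 y0 y1 y2 : ℂ)
    (hdet : x1 * y2 - x2 * y1 ≠ 0)
    (h : ∀ a ∈ Finset.range (2 * n + 1), ∀ b ∈ Finset.range (2 * n + 1),
      ∑ l ∈ Finset.range (n + 1), ∑ m ∈ Finset.range (n + 1),
        (x0 + x1 * (a : ℂ) + x2 * (b : ℂ)) ^ l * (y0 + y1 * (a : ℂ) + y2 * (b : ℂ)) ^ m * c l m = 0) :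
    ∀ l ≤ n, ∀ m ≤ n, c l m = 0 := by
  have h1 : ∀ a : ℂ, ∀ b ∈ Finset.range (2 * n + 1),
      ∑ l ∈ Finset.range (n + 1), ∑ m ∈ Finset.range (n + 1),
        (x0 + x1 * a + x2 * (b : ℂ)) ^ l * (y0 + y1 * a + y2 * (b : ℂ)) ^ m * c l m = 0 := by
    intro a b hb
    have h2 := ZES_line n c (x0 + x2 * b) x1 (y0 + y2 * b) y1 (fun a ha => by
      have h3 := h a ha b hb
      rw [← h3]
      refine Finset.sum_congr rfl fun l _ => Finset.sum_congr rfl fun m _ => ?_
      rw [add_right_comm x0, add_right_comm y0]) a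
    rw [← h2]
    refine Finset.sum_congr rfl fun l _ => Finset.sum_congr rfl fun m _ => ?_
    rw [add_right_comm x0, add_right_comm y0]
  have h2 : ∀ a b : ℂ,
      ∑ l ∈ Finset.range (n + 1), ∑ m ∈ Finset.range (n + 1),
        (x0 + x1 * a + x2 * b) ^ l * (y0 + y1 * a + y2 * b) ^ m * c l m = 0 := fun a b =>
    ZES_line n c (x0 + x1 * a) x2 (y0 + y1 * a) y2 (fun b hb => h1 a b hb) b
  refine ZES_poly2 n c fun x y => ?_
  obtain ⟨A, hA⟩ : ∃ A : ℂ, A * (x1 * y2 - x2 * y1) = (x - x0) * y2 - (y - y0) * x2 :=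
    ⟨_, div_mul_cancel₀ _ hdet⟩
  obtain ⟨B, hB⟩ : ∃ B : ℂ, B * (x1 * y2 - x2 * y1) = (y - y0) * x1 - (x - x0) * y1 :=
    ⟨_, div_mul_cancel₀ _ hdet⟩
  have h3 := h2 A B
  have h4 : x0 + x1 * A + x2 * B = x := by
    apply mul_right_cancel₀ hdet
    linear_combination x1 * hA + x2 * hB
  have h5 : y0 + y1 * A + y2 * B = y := by
    apply mul_right_cancel₀ hdet
    linear_combination y1 * hA + y2 * hB
  rw [h4, h5] at h3
  exact h3

/-! ### the functions near the half period -/

private noncomputable def ZES_p (D : Dat) (s : ℂ) : ℂ := D.P (D.v / 2 + s)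

private noncomputable def ZES_q (D : Dat) (s : ℂ) : ℂ := D.Z (D.v / 2 + s) - D.eta / 2

private theorem ZES_off (D : Dat) (s : ℂ) (hs : ‖s‖ ≤ D.eps) (m n : ℤ) :
    (D.v / 2 + s : ℂ) ≠ D.v * (m + n * D.tau) := by
  have h := D.off 0 0 s hs m n
  simpa using h

private theorem ZES_dp (D : Dat) (s : ℂ) (hs : ‖s‖ ≤ D.eps) :
    HasDerivAt (ZES_p D) (D.Pd (D.v / 2 + s)) s := by
  have h := D.dP (D.v / 2 + s) (fun m n => ZES_off D s hs m n)
  exact h.comp_const_add (D.v / 2 : ℂ) s

private theorem ZES_dpd (D : Dat) (s : ℂ) (hs : ‖s‖ ≤ D.eps) :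
    HasDerivAt (fun s => D.Pd (D.v / 2 + s)) (6 * D.P (D.v / 2 + s) ^ 2 - D.c) s := by
  have h := D.dPd (D.v / 2 + s) (fun m n => ZES_off D s hs m n)
  exact h.comp_const_add (D.v / 2 : ℂ) s

private theorem ZES_dq (D : Dat) (s : ℂ) (hs : ‖s‖ ≤ D.eps) :
    HasDerivAt (ZES_q D) (-D.P (D.v / 2 + s)) s := by
  have h := D.dZ (D.v / 2 + s) (fun m n => ZES_off D s hs m n)
  exact (h.comp_const_add (D.v / 2 : ℂ) s).sub_const _

private theorem ZES_nhds (D : Dat) : ∀ᶠ s : ℂ in 𝓝 0, ‖s‖ ≤ D.eps := by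
  filter_upwards [Metric.closedBall_mem_nhds (0 : ℂ) D.heps] with s hs
  rwa [mem_closedBall_zero_iff] at hs

private theorem ZES_ap (D : Dat) : AnalyticAt ℂ (ZES_p D) 0 := by
  have h : DifferentiableOn ℂ (ZES_p D) (Metric.closedBall 0 D.eps) := fun s hs =>
    (ZES_dp D s (by rwa [mem_closedBall_zero_iff] at hs)).differentiableAt.differentiableWithinAt
  exact h.analyticAt (Metric.closedBall_mem_nhds _ D.heps)

private theorem ZES_aq (D : Dat) : AnalyticAt ℂ (ZES_q D) 0 := by
  have h : DifferentiableOn ℂ (ZES_q D) (Metric.closedBall 0 D.eps) := fun s hs =>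
    (ZES_dq D s (by rwa [mem_closedBall_zero_iff] at hs)).differentiableAt.differentiableWithinAt
  exact h.analyticAt (Metric.closedBall_mem_nhds _ D.heps)

/-- `p - 1` has a zero of order two -/
private theorem ZES_ord (D : Dat) : analyticOrderAt (fun s => ZES_p D s - 1) 0 = (2 : ℕ) := by
  have ha : AnalyticAt ℂ (fun s => ZES_p D s - 1) 0 := (ZES_ap D).sub analyticAt_const
  have h0 : ‖(0 : ℂ)‖ ≤ D.eps := by
    rw [norm_zero]
    exact D.heps.le
  have hd1 : deriv (fun s => ZES_p D s - 1) =ᶠ[𝓝 0] fun s => D.Pd (D.v / 2 + s) := by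
    filter_upwards [ZES_nhds D] with s hs
    exact ((ZES_dp D s hs).sub_const 1).deriv
  rw [analyticOrderAt_eq_nat_iff_iteratedDeriv_eq_zero ha]
  constructor
  · intro k hk
    obtain rfl | rfl : k = 0 ∨ k = 1 := by omega
    · rw [iteratedDeriv_zero]
      show D.P (D.v / 2 + 0) - 1 = 0
      rw [add_zero, D.halfP, sub_self]
    · rw [iteratedDeriv_one, hd1.self_of_nhds]
      show D.Pd (D.v / 2 + 0) = 0
      rw [add_zero, D.halfPd]
  · rw [iteratedDeriv_succ', iteratedDeriv_one, Filter.EventuallyEq.deriv_eq hd1,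
      (ZES_dpd D 0 h0).deriv, add_zero, D.halfP]
    intro h
    apply D.hc
    have h1 : (D.c : ℂ) = 6 := by linear_combination -h
    exact_mod_cast h1

/-- a polynomial of small degree in `p` which vanishes to a high order is zero -/
private theorem ZES_R (D : Dat) (R : Polynomial ℂ) (n T : ℕ) (hR : R.natDegree ≤ n)
    (hT : 2 * n < T) (h : (T : ℕ∞) ≤ analyticOrderAt (fun s => R.eval (ZES_p D s)) 0) : R = 0 := by
  by_contra hR0
  obtain ⟨U, hU, hdvd⟩ := Polynomial.exists_eq_pow_rootMultiplicity_mul_and_not_dvd R hR0 1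
  have hm : R.rootMultiplicity 1 ≤ n := by
    rw [← Polynomial.count_roots]
    exact ((Multiset.count_le_card _ _).trans (Polynomial.card_roots' R)).trans hR
  have hU1 : U.eval 1 ≠ 0 := by
    intro h1
    exact hdvd (Polynomial.dvd_iff_isRoot.2 h1)
  have haU : AnalyticAt ℂ (fun s => U.eval (ZES_p D s)) 0 := by
    have h1 := (ZES_ap D).aeval_polynomial U
    simpa using h1
  have ha1 : AnalyticAt ℂ (fun s => ZES_p D s - 1) 0 := (ZES_ap D).sub analyticAt_const
  have h1 : (fun s => R.eval (ZES_p D s)) =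
      (fun s => ZES_p D s - 1) ^ (R.rootMultiplicity 1) * fun s => U.eval (ZES_p D s) := by
    funext s
    conv_lhs => rw [hU]
    simp
  rw [h1, analyticOrderAt_mul (ha1.pow _) haU, analyticOrderAt_pow ha1, ZES_ord D] at h
  have h2 : analyticOrderAt (fun s => U.eval (ZES_p D s)) 0 = 0 := by
    rw [haU.analyticOrderAt_eq_zero]
    show U.eval (D.P (D.v / 2 + 0)) ≠ 0
    rw [add_zero, D.halfP]
    exact hU1
  rw [h2, add_zero, nsmul_eq_mul] at h
  have h3 : T ≤ R.rootMultiplicity 1 * 2 := by exact_mod_cast h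
  omega

/-! ### the coefficients -/

/-- analytic functions which vanish to the order `T` at `0` -/
private def ZES_V (T : ℕ) (F : ℂ → ℂ) : Prop := AnalyticAt ℂ F 0 ∧ (T : ℕ∞) ≤ analyticOrderAt F 0

private theorem ZES_V_iff {T : ℕ} {F : ℂ → ℂ} (h : AnalyticAt ℂ F 0) :
    ZES_V T F ↔ ∀ t < T, iteratedDeriv t F 0 = 0 := by
  rw [← natCast_le_analyticOrderAt_iff_iteratedDeriv_eq_zero h]
  exact ⟨fun h1 => h1.2, fun h1 => ⟨h, h1⟩⟩

private theorem ZES_V_add {T : ℕ} {F G : ℂ → ℂ} (hF : ZES_V T F) (hG : ZES_V T G) :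
    ZES_V T (F + G) :=
  ⟨hF.1.add hG.1, (le_min hF.2 hG.2).trans le_analyticOrderAt_add⟩

private theorem ZES_V_zero (T : ℕ) : ZES_V T (0 : ℂ → ℂ) := by
  refine ⟨analyticAt_const, ?_⟩
  have h : analyticOrderAt (0 : ℂ → ℂ) 0 = ⊤ := by
    rw [analyticOrderAt_eq_top]
    exact Eventually.of_forall fun _ => rfl
  rw [h]
  exact le_top

private theorem ZES_V_mul {T : ℕ} {F G : ℂ → ℂ} (hF : AnalyticAt ℂ F 0) (hG : ZES_V T G) :
    ZES_V T (F * G) := by
  refine ⟨hF.mul hG.1, ?_⟩
  rw [analyticOrderAt_mul hF hG.1]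
  exact hG.2.trans le_add_self

private theorem ZES_V_sum {T : ℕ} {ι : Type} (s : Finset ι) (F : ι → ℂ → ℂ)
    (h : ∀ i ∈ s, ZES_V T (F i)) : ZES_V T (∑ i ∈ s, F i) := by
  classical
  induction s using Finset.induction_on with
  | empty => exact ZES_V_zero T
  | insert i s hi ih =>
    rw [Finset.sum_insert hi]
    exact ZES_V_add (h i (Finset.mem_insert_self i s))
      (ih fun j hj => h j (Finset.mem_insert_of_mem hj))

/-- `h_ik` -/
private noncomputable def ZES_h (D : Dat) (n : ℕ) (f : ℕ → ℕ → ℕ → ℂ) (i k : ℕ) (s : ℂ) : ℂ :=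
  ∑ j ∈ Finset.range (n + 1), f i j k * ZES_p D s ^ j

/-- the coefficient of `x^l y^m` in `∑ (x + s)^i (y + q)^k h_ik` -/
private noncomputable def ZES_H (D : Dat) (n : ℕ) (f : ℕ → ℕ → ℕ → ℂ) (l m : ℕ) (s : ℂ) : ℂ :=
  ∑ i ∈ Finset.range (n + 1), ∑ k ∈ Finset.range (n + 1),
    (i.choose l : ℂ) * (k.choose m : ℂ) * s ^ (i - l) * ZES_q D s ^ (k - m) * ZES_h D n f i k s

private theorem ZES_ah (D : Dat) (n : ℕ) (f : ℕ → ℕ → ℕ → ℂ) (i k : ℕ) :
    AnalyticAt ℂ (ZES_h D n f i k) 0 := by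
  unfold ZES_h
  exact Finset.analyticAt_fun_sum _ fun j _ => analyticAt_const.mul ((ZES_ap D).pow j)

private theorem ZES_aH (D : Dat) (n : ℕ) (f : ℕ → ℕ → ℕ → ℂ) (l m : ℕ) :
    AnalyticAt ℂ (ZES_H D n f l m) 0 := by
  unfold ZES_H
  exact Finset.analyticAt_fun_sum _ fun i _ => Finset.analyticAt_fun_sum _ fun k _ =>
    ((((analyticAt_const.mul analyticAt_const).mul (analyticAt_id.pow _)).mul
      ((ZES_aq D).pow _)).mul (ZES_ah D n f i k))

/-- the binomial formula with a fixed upper bound -/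
private theorem ZES_bin (n i : ℕ) (hi : i ≤ n) (x s : ℂ) :
    (x + s) ^ i = ∑ l ∈ Finset.range (n + 1), (i.choose l : ℂ) * x ^ l * s ^ (i - l) := by
  rw [add_pow]
  have h1 : ∑ l ∈ Finset.range (i + 1), x ^ l * s ^ (i - l) * (i.choose l : ℂ) =
      ∑ l ∈ Finset.range (i + 1), (i.choose l : ℂ) * x ^ l * s ^ (i - l) :=
    Finset.sum_congr rfl fun l _ => by ring
  rw [h1]
  refine Finset.sum_subset (Finset.range_subset_range.2 (by omega)) fun l _ hl => ?_
  rw [Finset.mem_range, not_lt] at hl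
  rw [Nat.choose_eq_zero_of_lt (by omega)]
  simp

private theorem ZES_exp (D : Dat) (n : ℕ) (f : ℕ → ℕ → ℕ → ℂ) (x y s : ℂ) :
    ∑ i ∈ Finset.range (n + 1), ∑ k ∈ Finset.range (n + 1),
      (x + s) ^ i * (y + ZES_q D s) ^ k * ZES_h D n f i k s =
    ∑ l ∈ Finset.range (n + 1), ∑ m ∈ Finset.range (n + 1),
      x ^ l * y ^ m * ZES_H D n f l m s := by
  have h1 : ∀ i ∈ Finset.range (n + 1), ∀ k ∈ Finset.range (n + 1),
      (x + s) ^ i * (y + ZES_q D s) ^ k * ZES_h D n f i k s =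
      ∑ l ∈ Finset.range (n + 1), ∑ m ∈ Finset.range (n + 1),
        x ^ l * y ^ m * ((i.choose l : ℂ) * (k.choose m : ℂ) * s ^ (i - l) *
          ZES_q D s ^ (k - m) * ZES_h D n f i k s) := by
    intro i hi k hk
    rw [ZES_bin n i (by have := Finset.mem_range.1 hi; omega) x s,
      ZES_bin n k (by have := Finset.mem_range.1 hk; omega) y (ZES_q D s), Finset.sum_mul_sum,
      Finset.sum_mul]
    refine Finset.sum_congr rfl fun l _ => ?_
    rw [Finset.sum_mul]
    exact Finset.sum_congr rfl fun m _ => by ring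
  rw [Finset.sum_congr rfl fun i hi => Finset.sum_congr rfl fun k hk => h1 i hi k hk]
  -- exchange the sums
  have h2 : ∀ F : ℕ → ℕ → ℕ → ℕ → ℂ,
      ∑ i ∈ Finset.range (n + 1), ∑ k ∈ Finset.range (n + 1), ∑ l ∈ Finset.range (n + 1),
        ∑ m ∈ Finset.range (n + 1), F i k l m =
      ∑ l ∈ Finset.range (n + 1), ∑ m ∈ Finset.range (n + 1), ∑ i ∈ Finset.range (n + 1),
        ∑ k ∈ Finset.range (n + 1), F i k l m := by
    intro F
    have h3 : ∀ i, ∑ k ∈ Finset.range (n + 1), ∑ l ∈ Finset.range (n + 1),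
        ∑ m ∈ Finset.range (n + 1), F i k l m = ∑ l ∈ Finset.range (n + 1),
        ∑ m ∈ Finset.range (n + 1), ∑ k ∈ Finset.range (n + 1), F i k l m := by
      intro i
      rw [Finset.sum_comm]
      exact Finset.sum_congr rfl fun l _ => Finset.sum_comm
    rw [Finset.sum_congr rfl fun i _ => h3 i, Finset.sum_comm]
    exact Finset.sum_congr rfl fun l _ => Finset.sum_comm
  rw [h2]
  refine Finset.sum_congr rfl fun l _ => Finset.sum_congr rfl fun m _ => ?_
  unfold ZES_H
  rw [Finset.mul_sum]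
  refine Finset.sum_congr rfl fun i _ => ?_
  rw [Finset.mul_sum]

/-- the inverse formula -/
private theorem ZES_inv (D : Dat) (n : ℕ) (f : ℕ → ℕ → ℕ → ℂ) (s : ℂ) (i k : ℕ) (hi : i ≤ n)
    (hk : k ≤ n) : ZES_h D n f i k s = ∑ l ∈ Finset.range (n + 1), ∑ m ∈ Finset.range (n + 1),
      ((l.choose i : ℂ) * (m.choose k : ℂ) * (-s) ^ (l - i) * (-ZES_q D s) ^ (m - k)) *
        ZES_H D n f l m s := by
  have key : ∀ x y : ℂ, ∑ i ∈ Finset.range (n + 1), ∑ k ∈ Finset.range (n + 1),
      x ^ i * y ^ k * (ZES_h D n f i k s - ∑ l ∈ Finset.range (n + 1),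
        ∑ m ∈ Finset.range (n + 1), ((l.choose i : ℂ) * (m.choose k : ℂ) * (-s) ^ (l - i) *
          (-ZES_q D s) ^ (m - k)) * ZES_H D n f l m s) = 0 := by
    intro x y
    have h1 := ZES_exp D n f (x - s) (y - ZES_q D s) s
    rw [sub_add_cancel, sub_add_cancel] at h1
    have h2 : ∑ l ∈ Finset.range (n + 1), ∑ m ∈ Finset.range (n + 1),
        (x - s) ^ l * (y - ZES_q D s) ^ m * ZES_H D n f l m s =
        ∑ i ∈ Finset.range (n + 1), ∑ k ∈ Finset.range (n + 1),
          x ^ i * y ^ k * ∑ l ∈ Finset.range (n + 1),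
            ∑ m ∈ Finset.range (n + 1), ((l.choose i : ℂ) * (m.choose k : ℂ) * (-s) ^ (l - i) *
              (-ZES_q D s) ^ (m - k)) * ZES_H D n f l m s := by
      have h3 : ∀ l ∈ Finset.range (n + 1), ∀ m ∈ Finset.range (n + 1),
          (x - s) ^ l * (y - ZES_q D s) ^ m * ZES_H D n f l m s =
          ∑ i ∈ Finset.range (n + 1), ∑ k ∈ Finset.range (n + 1),
            x ^ i * y ^ k * (((l.choose i : ℂ) * (m.choose k : ℂ) * (-s) ^ (l - i) *
              (-ZES_q D s) ^ (m - k)) * ZES_H D n f l m s) := by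
        intro l hl m hm
        rw [sub_eq_add_neg x s, sub_eq_add_neg y (ZES_q D s),
          ZES_bin n l (by have := Finset.mem_range.1 hl; omega) x (-s),
          ZES_bin n m (by have := Finset.mem_range.1 hm; omega) y (-ZES_q D s),
          Finset.sum_mul_sum, Finset.sum_mul]
        refine Finset.sum_congr rfl fun i _ => ?_
        rw [Finset.sum_mul]
        exact Finset.sum_congr rfl fun k _ => by ring
      rw [Finset.sum_congr rfl fun l hl => Finset.sum_congr rfl fun m hm => h3 l hl m hm]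
      have h4 : ∀ F : ℕ → ℕ → ℕ → ℕ → ℂ,
          ∑ i ∈ Finset.range (n + 1), ∑ k ∈ Finset.range (n + 1), ∑ l ∈ Finset.range (n + 1),
            ∑ m ∈ Finset.range (n + 1), F i k l m =
          ∑ l ∈ Finset.range (n + 1), ∑ m ∈ Finset.range (n + 1), ∑ i ∈ Finset.range (n + 1),
            ∑ k ∈ Finset.range (n + 1), F i k l m := by
        intro F
        have h3 : ∀ i, ∑ k ∈ Finset.range (n + 1), ∑ l ∈ Finset.range (n + 1),
            ∑ m ∈ Finset.range (n + 1), F i k l m = ∑ l ∈ Finset.range (n + 1),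
            ∑ m ∈ Finset.range (n + 1), ∑ k ∈ Finset.range (n + 1), F i k l m := by
          intro i
          rw [Finset.sum_comm]
          exact Finset.sum_congr rfl fun l _ => Finset.sum_comm
        rw [Finset.sum_congr rfl fun i _ => h3 i, Finset.sum_comm]
        exact Finset.sum_congr rfl fun l _ => Finset.sum_comm
      rw [h4]
      refine Finset.sum_congr rfl fun i _ => Finset.sum_congr rfl fun k _ => ?_
      rw [Finset.mul_sum]
      refine Finset.sum_congr rfl fun l _ => ?_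
      rw [Finset.mul_sum]
    rw [h2] at h1
    simp only [mul_sub, Finset.sum_sub_distrib]
    rw [sub_eq_zero]
    exact h1
  have h5 := ZES_poly2 n _ key i hi k hk
  exact sub_eq_zero.1 h5

/-- the function near the point `pt a b` -/
private theorem ZES_fn (D : Dat) (n : ℕ) (f : ℕ → ℕ → ℕ → ℂ) (a b : ℤ) (s : ℂ) (hs : ‖s‖ ≤ D.eps) :
    D.fn n f (D.pt a b + s) = ∑ l ∈ Finset.range (n + 1), ∑ m ∈ Finset.range (n + 1),
      (D.pt a b) ^ l * (D.eta / 2 + D.eta * (a + b * (starRingEnd ℂ) D.tau)) ^ m *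
        ZES_H D n f l m s := by
  rw [← ZES_exp]
  have h1 : D.pt a b + s = (D.v / 2 + s) + D.v * (a + b * D.tau) := by
    unfold Dat.pt
    ring
  have hP : D.P (D.pt a b + s) = ZES_p D s := by
    rw [h1, D.perP]
    rfl
  have hZ : D.Z (D.pt a b + s) =
      D.eta / 2 + D.eta * (a + b * (starRingEnd ℂ) D.tau) + ZES_q D s := by
    rw [h1, D.perZ a b _ (fun m k => ZES_off D s hs m k)]
    unfold ZES_q
    ring
  unfold Dat.fn
  rw [hP, hZ]
  refine Finset.sum_congr rfl fun i _ => ?_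
  rw [Finset.sum_comm]
  refine Finset.sum_congr rfl fun k _ => ?_
  unfold ZES_h
  rw [Finset.mul_sum]
  refine Finset.sum_congr rfl fun j _ => ?_
  ring

theorem thm_ZES : St_ZES := by
  intro D n T f hT hz i j k hi hj hk
  -- the coefficients `H_lm` vanish to the order `T`
  have hH : ∀ l ≤ n, ∀ m ≤ n, ZES_V T (ZES_H D n f l m) := by
    intro l hl m hm
    rw [ZES_V_iff (ZES_aH D n f l m)]
    intro t ht
    have hdet : (D.v : ℂ) * (D.eta * (starRingEnd ℂ) D.tau) - D.v * D.tau * D.eta ≠ 0 := by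
      have h1 : (D.v : ℂ) * (D.eta * (starRingEnd ℂ) D.tau) - D.v * D.tau * D.eta =
          -((D.v * D.eta : ℝ) : ℂ) * (D.tau - (starRingEnd ℂ) D.tau) := by
        push_cast
        ring
      rw [h1]
      refine mul_ne_zero (neg_ne_zero.2 ?_) ?_
      · have h2 : D.v * D.eta ≠ 0 := by
          intro h3
          have h4 := D.leg
          rw [h3, zero_mul] at h4
          exact Real.pi_ne_zero h4.symm
        exact_mod_cast h2
      · intro h2
        have h3 := congrArg Complex.im h2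
        simp only [sub_im, conj_im, zero_im] at h3
        have h4 := D.him
        linarith
    refine ZES_grid n (fun l m => iteratedDeriv t (ZES_H D n f l m) 0) (D.v / 2) D.v
      (D.v * D.tau) (D.eta / 2) D.eta (D.eta * (starRingEnd ℂ) D.tau) hdet ?_ l hl m hm
    intro a ha b hb
    have h1 := hz a b (by positivity) (by have := Finset.mem_range.1 ha; omega) (by positivity)
      (by have := Finset.mem_range.1 hb; omega) t ht
    have h2 : iteratedDeriv t (fun s => D.fn n f (D.pt a b + s)) 0 = 0 := by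
      have h3 := congrFun (iteratedDeriv_comp_const_add t (D.fn n f) (D.pt a b)) 0
      rw [h3, add_zero]
      exact h1
    have h3 : (fun s => D.fn n f (D.pt a b + s)) =ᶠ[𝓝 0] fun s =>
        ∑ l ∈ Finset.range (n + 1), ∑ m ∈ Finset.range (n + 1),
          ((D.pt a b) ^ l * (D.eta / 2 + D.eta * ((a : ℤ) + (b : ℤ) *
            (starRingEnd ℂ) D.tau)) ^ m) * ZES_H D n f l m s := by
      filter_upwards [ZES_nhds D] with s hs
      exact ZES_fn D n f a b s hs
    rw [h3.iteratedDeriv_eq t] at h2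
    have hc : ∀ l m, ContDiffAt ℂ t (ZES_H D n f l m) 0 := fun l m =>
      (ZES_aH D n f l m).contDiffAt
    rw [iteratedDeriv_fun_sum (fun l _ => ContDiffAt.sum fun m _ =>
      contDiffAt_const.mul (hc l m))] at h2
    refine Eq.trans (Finset.sum_congr rfl fun l _ => ?_) h2
    rw [iteratedDeriv_fun_sum (fun m _ => contDiffAt_const.mul (hc l m))]
    refine Finset.sum_congr rfl fun m _ => ?_
    rw [iteratedDeriv_const_mul_field]
    have h4 : (D.pt a b : ℂ) = D.v / 2 + D.v * (a : ℂ) + D.v * D.tau * (b : ℂ) := by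
      unfold Dat.pt
      push_cast
      ring
    have h5 : (D.eta / 2 + D.eta * (((a : ℤ) : ℂ) + ((b : ℤ) : ℂ) * (starRingEnd ℂ) D.tau) : ℂ) =
        D.eta / 2 + D.eta * (a : ℂ) + D.eta * (starRingEnd ℂ) D.tau * (b : ℂ) := by
      push_cast
      ring
    rw [h4, h5]
  -- so do the functions `h_ik`
  have hh : ZES_V T (ZES_h D n f i k) := by
    have h1 : ZES_h D n f i k = ∑ l ∈ Finset.range (n + 1), ∑ m ∈ Finset.range (n + 1),
        (fun s : ℂ => (l.choose i : ℂ) * (m.choose k : ℂ) * (-s) ^ (l - i) *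
          (-ZES_q D s) ^ (m - k)) * ZES_H D n f l m := by
      funext s
      rw [ZES_inv D n f s i k hi hk]
      simp only [Finset.sum_apply, Pi.mul_apply]
    rw [h1]
    refine ZES_V_sum _ _ fun l hl => ZES_V_sum _ _ fun m hm => ZES_V_mul ?_
      (hH l (by have := Finset.mem_range.1 hl; omega) m (by have := Finset.mem_range.1 hm; omega))
    exact ((analyticAt_const.mul analyticAt_const).mul (analyticAt_id.neg.pow _)).mul
      ((ZES_aq D).neg.pow _)
  -- the polynomial in `p`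
  let R : Polynomial ℂ := ∑ j ∈ Finset.range (n + 1), Polynomial.C (f i j k) * Polynomial.X ^ j
  have hRd : R.natDegree ≤ n := by
    refine Polynomial.natDegree_sum_le_of_forall_le _ _ fun j hj => ?_
    have := Finset.mem_range.1 hj
    exact (Polynomial.natDegree_C_mul_X_pow_le _ _).trans (by omega)
  have hRe : (fun s => R.eval (ZES_p D s)) = ZES_h D n f i k := by
    funext s
    simp only [R, ZES_h, Polynomial.eval_finsetSum, Polynomial.eval_mul, Polynomial.eval_C,
      Polynomial.eval_pow, Polynomial.eval_X]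
  have hR0 : R = 0 := ZES_R D R n T hRd hT (by rw [hRe]; exact hh.2)
  have h1 : R.coeff j = f i j k := by
    simp only [R, Polynomial.finsetSum_coeff, Polynomial.coeff_C_mul, Polynomial.coeff_X_pow]
    rw [Finset.sum_eq_single j]
    · simp
    · intro m _ hm
      simp [Ne.symm hm]
    · intro h2
      exact absurd (Finset.mem_range.2 (by omega)) h2
  rw [← h1, hR0, Polynomial.coeff_zero]

end Pool.Agent.QP
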