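import Pool.Agent.QP.AsmE
import Pool.Agent.QP.EXT
import Pool.Agent.QP.RED
import Pool.Agent.QP.SGL
import Pool.Agent.QP.NRM
import Pool.Agent.QP.GL2
import Pool.Agent.QP.GELZ
import Pool.Agent.QP.TRD
import Pool.Agent.QP.HUR
import Pool.Agent.QP.VAL
import Pool.Agent.QP.ZES
import Pool.Agent.QP.GRW
import Pool.Agent.QP.SCW
import Pool.Agent.QP.UPP
import Pool.Agent.QP.AUXF
import Pool.Agent.QP.MAX
import Pool.Agent.QP.IND
import Pool.Agent.QP.CHU

/-!
# Quarter periods, part (A): assembly of the theorem of Chudnovsky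
-/

set_option autoImplicit false

namespace Pool.Agent.QP

theorem asm_SGL : St_SGL := thm_SGL thm_EXT thm_RED
theorem asm_GL2 : St_GL2 := thm_GL2 thm_EXT (thm_NRM thm_RED) thm_GELFZ
theorem asm_VAL : St_VAL := thm_VAL thm_HUR
theorem asm_UPP : St_UPP := thm_UPP thm_GRW thm_SCW
theorem asm_AUX : St_AUX := thm_AUX asm_SGL asm_VAL
theorem asm_MAX : St_MAX := thm_MAX asm_AUX asm_VAL thm_ZES asm_UPP
theorem asm_IND : St_IND := thm_IND asm_MAX asm_GL2

/-- `π` and `B(1/4, 1/2)`, and `π` and `B(1/3, 1/2)`, are algebraically independent -/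
theorem asm_CHU : St_CHU := thm_CHU asm_EDAT.1 asm_EDAT.2 asm_IND thm_TRD

end Pool.Agent.QP
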