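import Pool.Agent.QP.StB

/-!
# The class of quarter periods is closed under equality almost everywhere
-/

set_option autoImplicit false

open MeasureTheory Filter Topology

namespace Pool.Agent.QP

open Pool.Agent.ITR Pool.Agent.Helper23.PeriodDefs

private theorem AEW_det (n : ℕ) : (ContinuousLinearMap.id ℝ (Fin n → ℝ)).det = 1 := by
  rw [ContinuousLinearMap.det]
  exact LinearMap.det_id

private theorem AEW_semi (n : ℕ) (i : Fin n) : Semialgebraic {z : Fin (n + 1) → ℝ |
    Fin.init z ∈ (Set.univ : Set (Fin n → ℝ)) ∧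
      z (Fin.last n) = (fun x : Fin n → ℝ => x) (Fin.init z) i} := by
  refine ⟨1, fun _ => {MvPolynomial.X (Fin.last n) - MvPolynomial.X (Fin.castSucc i)},
    fun _ => ∅, ?_⟩
  ext z
  simp only [evalMulti, Set.mem_univ, true_and, Set.mem_ofPred_eq, Finset.mem_singleton, forall_eq,
    map_sub,
    MvPolynomial.aeval_X, Finset.notMem_empty, IsEmpty.forall_iff, implies_true, and_true,
    exists_const, sub_eq_zero]
  rfl

theorem thm_AEW : St_AEW := by
  intro N n i j f g hfg hg
  refine Iter.change ⟨Set.univ, fun x => x, fun _ => ContinuousLinearMap.id ℝ (Fin n → ℝ),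
    MeasurableSet.univ, ?_, ?_, AEW_semi n, ?_, ?_, ?_⟩ hg
  · intro x _
    exact (hasFDerivAt_id x).hasFDerivWithinAt
  · intro x _ y _ h
    exact h
  · filter_upwards with x _
    rw [AEW_det]
    exact isAlgebraic_one
  · filter_upwards with z hz
    exact absurd ⟨z, Set.mem_univ z, rfl⟩ hz
  · filter_upwards [hfg] with x hx
    rw [Set.indicator_of_mem (Set.mem_univ x), AEW_det, hx, abs_one, one_mul]

end Pool.Agent.QP
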