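import Pool.Agent.QP.StB

set_option autoImplicit false

/-!
# Quarter periods, part B, module BDE: descent for the function |t - a|^p |t - b|^q P(t)

The lemmas are those of `Pool/Agent/ITR/TWD.lean`.
-/

namespace Pool.Agent.QP

open MeasureTheory Filter Topology Polynomial
open Pool.Agent.ITR Pool.Agent.Helper23.PeriodDefs

private theorem BDE_unc (I : Set ℝ) (p : ℝ → Prop) (hI : volume I ≠ 0)
    (h : ∀ᵐ t : ℝ, t ∈ I → p t) : ¬ {t | t ∈ I ∧ p t}.Countable := by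
  intro hc
  have h0 : volume {t | t ∈ I ∧ p t} = 0 := hc.measure_zero _
  apply hI
  have h1 : volume I ≤ volume {t | t ∈ I ∧ p t} := by
    apply measure_mono_ae
    filter_upwards [h] with t ht
    intro hI'
    exact ⟨hI', ht hI'⟩
  exact le_antisymm (h1.trans h0.le) bot_le

private theorem BDE_mult_pow (c : ℝ) (P : ℝ[X]) (hP : P ≠ 0) (n : ℕ) :
    rootMultiplicity c (P ^ n) = n * rootMultiplicity c P := by
  induction n with
  | zero => simp
  | succ n ih =>
    rw [pow_succ, rootMultiplicity_mul (mul_ne_zero (pow_ne_zero _ hP) hP), ih]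
    ring

private theorem BDE_up_root {k : IntermediateField ℚ ℝ} (hk : RC k) (c : ℝ) (hc : c ∉ k)
    (R : Polynomial k) (hR : R ≠ 0) : rootMultiplicity c (up k R) = 0 := by
  apply rootMultiplicity_eq_zero
  intro h
  apply hc
  apply hk.cl
  refine ⟨R, hR, ?_⟩
  rw [aeval_def, ← eval_map]
  exact h

private theorem BDE_up_ne {k : IntermediateField ℚ ℝ} (R : Polynomial k) (hR : R ≠ 0) :
    up k R ≠ 0 := by
  intro h
  exact hR ((Polynomial.map_eq_zero_iff (algebraMap k ℝ).injective).1 h)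

/-- the general descent -/
private theorem BDE_core (hRA1 : St_RA1) (hRA2 : St_RA2) (k : IntermediateField ℚ ℝ) (hk : RC k)
    (P Q U V : ℝ[X]) (N : ℕ) (hN : 1 ≤ N) (hP : P ≠ 0) (hQ : Q ≠ 0) (hU : U ≠ 0) (hV : V ≠ 0)
    (E : Set ℝ) (hE : ¬ E.Countable)
    (hEa : ∀ t ∈ E, AlgAt k t (ratFun (U * P ^ N) (V * Q ^ N) t)) :
    (∀ c : ℝ, c ∉ k → rootMultiplicity c U + N * rootMultiplicity c P =
      rootMultiplicity c V + N * rootMultiplicity c Q) ∧
    ((∀ t ∈ k, U.eval t ∈ k) → (∀ t ∈ k, V.eval t ∈ k) →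
      ∃ P₁ Q₁ : Polynomial k, Q₁ ≠ 0 ∧ P * up k Q₁ = up k P₁ * Q) := by
  have hPN : P ^ N ≠ 0 := pow_ne_zero _ hP
  have hQN : Q ^ N ≠ 0 := pow_ne_zero _ hQ
  have hP' : U * P ^ N ≠ 0 := mul_ne_zero hU hPN
  have hQ' : V * Q ^ N ≠ 0 := mul_ne_zero hV hQN
  obtain ⟨B, hB, hBk⟩ := hRA1 k hk (U * P ^ N) (V * Q ^ N) hQ' E hE hEa
  have hkinf : ∀ S : Set ℝ, S.Finite → {t : ℝ | t ∈ k ∧ t ∉ S}.Infinite := by
    intro S hS
    have h1 : (k : Set ℝ).Infinite :=
      Set.infinite_of_injective_forall_mem (f := fun n : ℕ => (n : ℝ)) Nat.cast_injective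
        (fun n => natCast_mem k n)
    exact h1.sdiff hS
  constructor
  · intro c hc
    obtain ⟨P₁, Q₁, hQ₁, hPQ⟩ := hRA2 k (U * P ^ N) (V * Q ^ N) hQ' {t | t ∈ k ∧ t ∉ B}
      (hkinf B hB) (fun t ht => ⟨ht.1, hBk t ht.1 ht.2⟩)
    have hne : U * P ^ N * up k Q₁ ≠ 0 := mul_ne_zero hP' (BDE_up_ne Q₁ hQ₁)
    have hne2 : up k P₁ * (V * Q ^ N) ≠ 0 := by rw [← hPQ]; exact hne
    have hP₁ : P₁ ≠ 0 := by
      rintro rfl
      apply hne2
      rw [up, Polynomial.map_zero, zero_mul]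
    have h1 := congrArg (rootMultiplicity c) hPQ
    rw [rootMultiplicity_mul hne, rootMultiplicity_mul hne2, BDE_up_root hk c hc Q₁ hQ₁,
      BDE_up_root hk c hc P₁ hP₁, rootMultiplicity_mul hP', rootMultiplicity_mul hQ',
      BDE_mult_pow c P hP, BDE_mult_pow c Q hQ] at h1
    omega
  · intro hUk hVk
    have hS : ({t : ℝ | U.eval t = 0} : Set ℝ).Finite := by
      apply (U.roots.toFinset.finite_toSet).subset
      intro t ht
      simp only [Finset.mem_coe, Multiset.mem_toFinset]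
      exact (mem_roots hU).2 ht
    have hT : ∀ t ∈ {t : ℝ | t ∈ k ∧ t ∉ B ∪ {t : ℝ | U.eval t = 0}},
        t ∈ k ∧ Q.eval t ≠ 0 ∧ ratFun P Q t ∈ k := by
      rintro t ⟨htk, ht⟩
      rw [Set.mem_union, not_or] at ht
      obtain ⟨h1, h2⟩ := hBk t htk ht.1
      rw [eval_mul, eval_pow] at h1
      have hUt : U.eval t ≠ 0 := ht.2
      have hVt : V.eval t ≠ 0 := left_ne_zero_of_mul h1
      have hQt : Q.eval t ≠ 0 := by
        intro h
        apply right_ne_zero_of_mul h1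
        rw [h, zero_pow (by omega)]
      refine ⟨htk, hQt, ?_⟩
      have h3 : (ratFun P Q t) ^ N = ratFun (U * P ^ N) (V * Q ^ N) t * V.eval t / U.eval t := by
        unfold ratFun
        rw [eval_mul, eval_mul, eval_pow, eval_pow, div_pow]
        have hQN' : eval t Q ^ N ≠ 0 := pow_ne_zero _ hQt
        field_simp
      have h4 : (ratFun P Q t) ^ N ∈ k := by
        rw [h3]
        exact div_mem (mul_mem h2 (hVk t htk)) (hUk t htk)
      apply hk.cl
      apply IsAlgebraic.of_pow (n := N) (by omega)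
      have : ratFun P Q t ^ N = algebraMap k ℝ ⟨_, h4⟩ := rfl
      rw [this]
      exact isAlgebraic_algebraMap _
    exact hRA2 k P Q hQ _ (hkinf _ (hB.union hS)) hT

/-- the power `|x| ^ r` to the `N` -/
private theorem BDE_pow (r : ℚ) (N : ℕ) (u : ℤ) (hr : r * N = 2 * u) (x y : ℝ) (hx : 0 < y)
    (hxy : y = |x|) :
    (y ^ (r : ℝ)) ^ N = x ^ (2 * u).toNat / x ^ (-(2 * u)).toNat := by
  have hx0 : x ≠ 0 := by
    rintro rfl
    rw [abs_zero] at hxy
    exact hx.ne' hxy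
  have h1 : ((r : ℝ)) * (N : ℝ) = ((2 * u : ℤ) : ℝ) := by
    have : ((r * N : ℚ) : ℝ) = ((2 * u : ℚ) : ℝ) := by rw [hr]
    push_cast at this ⊢
    exact this
  rw [← Real.rpow_mul_natCast hx.le, h1, Real.rpow_intCast, hxy, Even.zpow_abs ⟨u, by ring⟩]
  rw [eq_div_iff (pow_ne_zero _ hx0), ← zpow_natCast, ← zpow_natCast, ← zpow_add₀ hx0]
  congr 1
  omega

private theorem BDE_notint (r : ℚ) (hr : ∀ m : ℤ, r ≠ m) (d : ℕ) (hd : 1 ≤ d) (u : ℤ)
    (h : r * ((2 * d : ℕ) : ℚ) = 2 * u) (A B : ℕ)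
    (hAB : (2 * u).toNat + (2 * d) * A = (-(2 * u)).toNat + (2 * d) * B) : False := by
  have h1 : 2 * u = 2 * d * ((B : ℤ) - A) := by
    have h2 : ((2 * u).toNat : ℤ) - ((-(2 * u)).toNat : ℤ) = 2 * u := by omega
    have h3 : ((2 * u).toNat : ℤ) + (2 * d) * A = ((-(2 * u)).toNat : ℤ) + (2 * d) * B := by
      exact_mod_cast hAB
    linear_combination h3 - h2
  apply hr ((B : ℤ) - A)
  have hd0 : ((2 * d : ℕ) : ℚ) ≠ 0 := by
    have : 2 * d ≠ 0 := by omega
    exact_mod_cast this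
  apply mul_right_cancel₀ hd0
  rw [h]
  have h4 : ((2 * u : ℤ) : ℚ) = ((2 * d * ((B : ℤ) - A) : ℤ) : ℚ) := by rw [h1]
  push_cast at h4 ⊢
  linear_combination h4

private theorem BDE_alg_pow {k : IntermediateField ℚ ℝ} {t b : ℝ} (h : AlgAt k t b) (n : ℕ) :
    AlgAt k t (b ^ n) := IsAlgebraic.pow h n

private theorem BDE_eval_mem {k : IntermediateField ℚ ℝ} (a : ℝ) (ha : a ∈ k) (n : ℕ) (t : ℝ)
    (ht : t ∈ k) : ((X - C a) ^ n : ℝ[X]).eval t ∈ k := by
  rw [eval_pow, eval_sub, eval_X, eval_C]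
  exact pow_mem (sub_mem ht ha) n

theorem thm_BDE (hRA1 : Pool.Agent.ITR.St_RA1) (hRA2 : Pool.Agent.ITR.St_RA2) : St_BDE := by
  intro k hk P p q a b hP hp hq hab I hI haI hbI h
  set d : ℕ := p.den * q.den with hd
  have hd1 : 1 ≤ d := Nat.mul_pos p.pos q.pos
  set N : ℕ := 2 * d with hNdef
  set u : ℤ := p.num * q.den with hu
  set w : ℤ := q.num * p.den with hw
  have hr : p * (N : ℚ) = 2 * (u : ℚ) := by
    rw [hNdef, hd, hu]
    push_cast
    have := Rat.mul_den_eq_num p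
    linear_combination 2 * (q.den : ℚ) * this
  have hr2 : q * (N : ℚ) = 2 * (w : ℚ) := by
    rw [hNdef, hd, hw]
    push_cast
    have := Rat.mul_den_eq_num q
    linear_combination 2 * (p.den : ℚ) * this
  set U : ℝ[X] := (X - C a) ^ (2 * u).toNat * (X - C b) ^ (2 * w).toNat with hU
  set V : ℝ[X] := (X - C a) ^ (-(2 * u)).toNat * (X - C b) ^ (-(2 * w)).toNat with hV
  have hX : ∀ (c : ℝ) (n : ℕ), ((X - C c) ^ n : ℝ[X]) ≠ 0 :=
    fun c n => pow_ne_zero _ (X_sub_C_ne_zero c)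
  have hU0 : U ≠ 0 := mul_ne_zero (hX _ _) (hX _ _)
  have hV0 : V ≠ 0 := mul_ne_zero (hX _ _) (hX _ _)
  have hother : ∀ (c d : ℝ) (n : ℕ), c ≠ d → rootMultiplicity c ((X - C d) ^ n : ℝ[X]) = 0 := by
    intro c d n hcd
    rw [BDE_mult_pow c _ (X_sub_C_ne_zero d), rootMultiplicity_eq_zero, mul_zero]
    rw [IsRoot.def, eval_sub, eval_X, eval_C]
    exact sub_ne_zero.2 hcd
  have hone : (1 : ℝ[X]) ≠ 0 := one_ne_zero
  have key := BDE_core hRA1 hRA2 k hk P 1 U V N (by omega) hP hone hU0 hV0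
    {t | t ∈ I ∧ AlgAt k t (|t - a| ^ (p : ℝ) * |t - b| ^ (q : ℝ) * P.eval t)}
    (BDE_unc I _ hI h) ?_
  · have ha : a ∈ k := by
      by_contra hak
      have h1 := key.1 a hak
      rw [hU, hV, rootMultiplicity_mul (mul_ne_zero (hX _ _) (hX _ _)),
        rootMultiplicity_mul (mul_ne_zero (hX _ _) (hX _ _)),
        rootMultiplicity_X_sub_C_pow, rootMultiplicity_X_sub_C_pow, hother a b _ hab,
        hother a b _ hab, add_zero, add_zero] at h1
      exact BDE_notint p hp d hd1 u hr _ _ h1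
    have hb : b ∈ k := by
      by_contra hbk
      have h1 := key.1 b hbk
      rw [hU, hV, rootMultiplicity_mul (mul_ne_zero (hX _ _) (hX _ _)),
        rootMultiplicity_mul (mul_ne_zero (hX _ _) (hX _ _)),
        rootMultiplicity_X_sub_C_pow, rootMultiplicity_X_sub_C_pow, hother b a _ hab.symm,
        hother b a _ hab.symm, zero_add, zero_add] at h1
      exact BDE_notint q hq d hd1 w hr2 _ _ h1
    obtain ⟨P₁, Q₁, hQ₁, hPQ⟩ := key.2
      (fun t ht => by
        rw [hU, eval_mul]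
        exact mul_mem (BDE_eval_mem a ha _ t ht) (BDE_eval_mem b hb _ t ht))
      (fun t ht => by
        rw [hV, eval_mul]
        exact mul_mem (BDE_eval_mem a ha _ t ht) (BDE_eval_mem b hb _ t ht))
    rw [mul_one] at hPQ
    have hdvd : Q₁ ∣ P₁ := by
      rw [← Polynomial.map_dvd_map' (algebraMap k ℝ)]
      exact ⟨P, by rw [mul_comm]; exact hPQ.symm⟩
    obtain ⟨P₂, hP₂⟩ := hdvd
    refine ⟨ha, hb, P₂, ?_⟩
    have h5 : up k Q₁ ≠ 0 := BDE_up_ne Q₁ hQ₁
    apply mul_right_cancel₀ h5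
    rw [hPQ, hP₂]
    unfold up
    rw [Polynomial.map_mul, mul_comm]
  · rintro t ⟨htI, hta⟩
    have h2 := BDE_alg_pow hta N
    have e : (|t - a| ^ (p : ℝ) * |t - b| ^ (q : ℝ) * P.eval t) ^ N =
        ratFun (U * P ^ N) (V * 1 ^ N) t := by
      have hta0 : 0 < |t - a| := by
        rw [abs_pos, sub_ne_zero]
        rintro rfl
        exact haI htI
      have htb0 : 0 < |t - b| := by
        rw [abs_pos, sub_ne_zero]
        rintro rfl
        exact hbI htI
      rw [mul_pow, mul_pow, BDE_pow p N u hr (t - a) _ hta0 rfl,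
        BDE_pow q N w hr2 (t - b) _ htb0 rfl]
      unfold ratFun
      simp only [eval_mul, hU, hV, eval_pow, eval_sub, eval_X, eval_C, one_pow, mul_one]
      rw [div_mul_div_comm, div_mul_eq_mul_div]
    rw [e] at h2
    exact h2

end Pool.Agent.QP
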