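import Pool.Agent.QP.StB

set_option autoImplicit false

/-!
# Quarter periods: descent for `((t - a)^2 + c^2)^p P(t)`
-/

namespace Pool.Agent.QP

open MeasureTheory Filter Topology Polynomial
open Pool.Agent.ITR Pool.Agent.Helper23.PeriodDefs

private theorem BDL_unc (p : ℝ → Prop) (h : ∀ᵐ t : ℝ, p t) : ¬ {t | p t}.Countable := by
  intro hc
  have h0 : volume {t | p t} = 0 := hc.measure_zero _
  have h1 : volume (Set.univ : Set ℝ) ≤ volume {t | p t} := by
    apply measure_mono_ae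
    filter_upwards [h] with t ht
    intro _
    exact ht
  rw [h0, Real.volume_univ] at h1
  exact absurd h1 (by simp)

private theorem BDL_mult_pow (z : ℂ) (P : ℂ[X]) (hP : P ≠ 0) (n : ℕ) :
    rootMultiplicity z (P ^ n) = n * rootMultiplicity z P := by
  induction n with
  | zero => simp
  | succ n ih =>
    rw [pow_succ, rootMultiplicity_mul (mul_ne_zero (pow_ne_zero _ hP) hP), ih]
    ring

/-- the quadratic polynomial -/
private noncomputable def BDL_B (a c : ℝ) : ℝ[X] := (X - C a) ^ 2 + C (c ^ 2)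

private theorem BDL_eval (a c t : ℝ) : (BDL_B a c).eval t = (t - a) ^ 2 + c ^ 2 := by
  simp [BDL_B]

private theorem BDL_B_pos (a c : ℝ) (hc : 0 < c) (t : ℝ) : 0 < (BDL_B a c).eval t := by
  rw [BDL_eval]
  positivity

private theorem BDL_B_ne (a c : ℝ) (hc : 0 < c) : BDL_B a c ≠ 0 := by
  intro h
  have := BDL_B_pos a c hc 0
  rw [h, eval_zero] at this
  exact lt_irrefl _ this

private theorem BDL_fac (a c : ℝ) :
    (BDL_B a c).map (algebraMap ℝ ℂ) =
      (X - C ((a : ℂ) + c * Complex.I)) * (X - C ((a : ℂ) - c * Complex.I)) := by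
  have hI : (C Complex.I : ℂ[X]) * C Complex.I = -1 := by
    rw [← C_mul, Complex.I_mul_I, C_neg, C_1]
  simp only [BDL_B, Polynomial.map_add, Polynomial.map_pow, Polynomial.map_sub, map_X, map_C,
    C_add, C_sub, C_mul, Complex.coe_algebraMap, C_pow]
  linear_combination ((C (c : ℂ)) ^ 2) * hI

private theorem BDL_multB (a c : ℝ) (hc : 0 < c) :
    rootMultiplicity ((a : ℂ) + c * Complex.I) ((BDL_B a c).map (algebraMap ℝ ℂ)) = 1 := by
  have h1 : ((X - C ((a : ℂ) + c * Complex.I)) * (X - C ((a : ℂ) - c * Complex.I)) : ℂ[X]) ≠ 0 :=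
    mul_ne_zero (X_sub_C_ne_zero _) (X_sub_C_ne_zero _)
  rw [BDL_fac, rootMultiplicity_mul h1, rootMultiplicity_X_sub_C_self,
    rootMultiplicity_eq_zero]
  rw [IsRoot.def, eval_sub, eval_X, eval_C]
  intro h
  have h2 : (2 : ℂ) * c * Complex.I = 0 := by linear_combination h
  have h3 : (c : ℂ) ≠ 0 := by exact_mod_cast hc.ne'
  simp [h3] at h2

private theorem BDL_map_ne {P : ℝ[X]} (hP : P ≠ 0) : P.map (algebraMap ℝ ℂ) ≠ 0 := by
  intro h
  exact hP ((Polynomial.map_eq_zero_iff (algebraMap ℝ ℂ).injective).1 h)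

private theorem BDL_up_ne {k : IntermediateField ℚ ℝ} (R : Polynomial k) (hR : R ≠ 0) :
    up k R ≠ 0 := by
  intro h
  exact hR ((Polynomial.map_eq_zero_iff (algebraMap k ℝ).injective).1 h)

private theorem BDL_up_root {k : IntermediateField ℚ ℝ} (z : ℂ) (hz : ¬ IsAlgebraic k z)
    (R : Polynomial k) (hR : R ≠ 0) :
    rootMultiplicity z ((up k R).map (algebraMap ℝ ℂ)) = 0 := by
  apply rootMultiplicity_eq_zero
  intro h
  apply hz
  refine ⟨R, hR, ?_⟩
  rw [aeval_def, ← eval_map]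
  rw [IsRoot.def, up, Polynomial.map_map] at h
  exact h

private theorem BDL_pow (p : ℚ) (x : ℝ) (hx : 0 < x) :
    (x ^ (p : ℝ)) ^ p.den = x ^ p.num.toNat / x ^ (-p.num).toNat := by
  have h1 : (p : ℝ) * (p.den : ℝ) = ((p.num : ℤ) : ℝ) := by
    have := Rat.mul_den_eq_num p
    exact_mod_cast congrArg (fun q : ℚ => (q : ℝ)) this
  rw [← Real.rpow_mul_natCast hx.le, h1, Real.rpow_intCast,
    eq_div_iff (pow_ne_zero _ hx.ne'), ← zpow_natCast, ← zpow_natCast, ← zpow_add₀ hx.ne']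
  congr 1
  omega

theorem thm_BDL (hRA1 : ITR.St_RA1) (hRA2 : ITR.St_RA2) : St_BDL := by
  intro k hk P p a c hP hp hc h
  set B : ℝ[X] := BDL_B a c with hBdef
  have hB0 : B ≠ 0 := BDL_B_ne a c hc
  have hBpos : ∀ t, 0 < B.eval t := BDL_B_pos a c hc
  set M : ℕ := p.den with hM
  have hM1 : 1 ≤ M := p.pos
  set U : ℝ[X] := B ^ p.num.toNat with hU
  set V : ℝ[X] := B ^ (-p.num).toNat with hV
  have hU0 : U ≠ 0 := pow_ne_zero _ hB0
  have hV0 : V ≠ 0 := pow_ne_zero _ hB0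
  have hPM : P ^ M ≠ 0 := pow_ne_zero _ hP
  have hUP : U * P ^ M ≠ 0 := mul_ne_zero hU0 hPM
  have hEa : ∀ t ∈ {t : ℝ | AlgAt k t (((t - a) ^ 2 + c ^ 2) ^ (p : ℝ) * P.eval t)},
      AlgAt k t (ratFun (U * P ^ M) V t) := by
    intro t ht
    have h2 : AlgAt k t ((((t - a) ^ 2 + c ^ 2) ^ (p : ℝ) * P.eval t) ^ M) :=
      IsAlgebraic.pow ht M
    have e : (((t - a) ^ 2 + c ^ 2) ^ (p : ℝ) * P.eval t) ^ M = ratFun (U * P ^ M) V t := by
      have hx := hBpos t
      rw [← BDL_eval a c t, mul_pow, BDL_pow p _ hx]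
      unfold ratFun
      rw [hU, hV, eval_mul, eval_pow, eval_pow, eval_pow]
      ring
    rw [e] at h2
    exact h2
  obtain ⟨S, hS, hSk⟩ := hRA1 k hk (U * P ^ M) V hV0 _ (BDL_unc _ h) hEa
  have hkinf : ∀ S : Set ℝ, S.Finite → {t : ℝ | t ∈ k ∧ t ∉ S}.Infinite := by
    intro S hS
    have h1 : (k : Set ℝ).Infinite :=
      Set.infinite_of_injective_forall_mem (f := fun n : ℕ => (n : ℝ)) Nat.cast_injective
        (fun n => natCast_mem k n)
    exact h1.sdiff hS
  obtain ⟨P₁, Q₁, hQ₁, hPQ⟩ := hRA2 k (U * P ^ M) V hV0 {t | t ∈ k ∧ t ∉ S}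
    (hkinf S hS) (fun t ht => ⟨ht.1, hSk t ht.1 ht.2⟩)
  have hne : U * P ^ M * up k Q₁ ≠ 0 := mul_ne_zero hUP (BDL_up_ne Q₁ hQ₁)
  have hP₁ : P₁ ≠ 0 := by
    rintro rfl
    apply hne
    rw [hPQ, up, Polynomial.map_zero, zero_mul]
  set z : ℂ := (a : ℂ) + c * Complex.I with hz
  have hzalg : IsAlgebraic k z := by
    by_contra hza
    have h1 := congrArg (fun R : ℝ[X] => rootMultiplicity z (R.map (algebraMap ℝ ℂ))) hPQ
    simp only [hU, hV, Polynomial.map_mul, Polynomial.map_pow] at h1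
    have hBc := BDL_map_ne hB0
    have hPc := BDL_map_ne hP
    have hQc := BDL_map_ne (BDL_up_ne Q₁ hQ₁)
    have hP1c := BDL_map_ne (BDL_up_ne P₁ hP₁)
    rw [rootMultiplicity_mul (mul_ne_zero (mul_ne_zero (pow_ne_zero _ hBc) (pow_ne_zero _ hPc)) hQc),
      rootMultiplicity_mul (mul_ne_zero (pow_ne_zero _ hBc) (pow_ne_zero _ hPc)),
      rootMultiplicity_mul (mul_ne_zero hP1c (pow_ne_zero _ hBc)),
      BDL_mult_pow z _ hBc, BDL_mult_pow z _ hPc, BDL_mult_pow z _ hBc,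
      BDL_up_root z hza Q₁ hQ₁, BDL_up_root z hza P₁ hP₁, hBdef, hz, BDL_multB a c hc] at h1
    set m : ℕ := rootMultiplicity ((a : ℂ) + c * Complex.I) (P.map (algebraMap ℝ ℂ)) with hm
    have h2 : (p.num.toNat : ℤ) - ((-p.num).toNat : ℤ) = p.num := by omega
    have h3 : ((p.num.toNat : ℤ)) + M * m = ((-p.num).toNat : ℤ) := by
      have : p.num.toNat * 1 + M * m + 0 = 0 + (-p.num).toNat * 1 := h1
      have h4 : p.num.toNat + M * m = (-p.num).toNat := by omega
      exact_mod_cast h4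
    have h5 : p.num = -((M : ℤ) * m) := by linarith
    apply hp (-(m : ℤ))
    have h6 := Rat.mul_den_eq_num p
    have h7 : ((p.den : ℕ) : ℚ) ≠ 0 := by exact_mod_cast p.den_nz
    apply mul_right_cancel₀ h7
    rw [h6, h5, hM]
    push_cast
    ring
  have hconj : IsAlgebraic k ((a : ℂ) - c * Complex.I) := by
    have h1 : IsAlgebraic k ((Complex.conjAe.toAlgHom.restrictScalars k) z) := by
      exact hzalg.algHom (Complex.conjAe.toAlgHom.restrictScalars k)
    have h2 : (Complex.conjAe.toAlgHom.restrictScalars k) z = (a : ℂ) - c * Complex.I := by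
      show (starRingEnd ℂ) z = _
      rw [hz]
      simp [sub_eq_add_neg]
    rw [h2] at h1
    exact h1
  have hreal : ∀ b : ℝ, IsAlgebraic k (b : ℂ) → b ∈ k := by
    intro b hb
    apply hk.cl
    exact (isAlgebraic_algebraMap_iff (algebraMap ℝ ℂ).injective).1 hb
  have hak : a ∈ k := by
    have h1 : IsAlgebraic k ((2 : ℕ) * (a : ℂ)) := by
      have h2 := hzalg.add hconj
      have h3 : z + ((a : ℂ) - c * Complex.I) = ((2 : ℕ) : ℂ) * (a : ℂ) := by
        rw [hz]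
        push_cast
        ring
      rw [h3] at h2
      exact h2
    have h4 : (2 * a : ℝ) ∈ k := by
      apply hreal
      push_cast
      push_cast at h1
      exact h1
    have h5 : (2 : ℝ) ∈ k := by exact_mod_cast natCast_mem k 2
    have h6 : a = 2 * a / 2 := by ring
    rw [h6]
    exact div_mem h4 h5
  have hck : c ∈ k := by
    have h1 : (a ^ 2 + c ^ 2 : ℝ) ∈ k := by
      apply hreal
      have h2 := hzalg.mul hconj
      have h3 : z * ((a : ℂ) - c * Complex.I) = ((a ^ 2 + c ^ 2 : ℝ) : ℂ) := by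
        rw [hz]
        push_cast
        linear_combination (-(c : ℂ) ^ 2) * Complex.I_mul_I
      rw [h3] at h2
      exact h2
    have h4 : c ^ 2 ∈ k := by
      have : c ^ 2 = (a ^ 2 + c ^ 2) - a ^ 2 := by ring
      rw [this]
      exact sub_mem h1 (pow_mem hak 2)
    apply hk.cl
    apply IsAlgebraic.of_pow (n := 2) (by norm_num)
    have : c ^ 2 = algebraMap k ℝ ⟨_, h4⟩ := rfl
    rw [this]
    exact isAlgebraic_algebraMap _
  refine ⟨hak, hck, ?_⟩
  have hBk : ∀ t ∈ k, B.eval t ∈ k := by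
    intro t ht
    rw [hBdef, BDL_eval]
    exact add_mem (pow_mem (sub_mem ht hak) 2) (pow_mem hck 2)
  have hT : ∀ t ∈ {t : ℝ | t ∈ k ∧ t ∉ S},
      t ∈ k ∧ (1 : ℝ[X]).eval t ≠ 0 ∧ ratFun P 1 t ∈ k := by
    rintro t ⟨htk, ht⟩
    obtain ⟨h1, h2⟩ := hSk t htk ht
    refine ⟨htk, by simp, ?_⟩
    have hr : ratFun P 1 t = P.eval t := by simp [ratFun]
    rw [hr]
    have hx : B.eval t ≠ 0 := (hBpos t).ne'
    have h3 : (P.eval t) ^ M = ratFun (U * P ^ M) V t * V.eval t / U.eval t := by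
      unfold ratFun
      simp only [eval_mul, hU, hV, eval_pow]
      field_simp
    have h4 : (P.eval t) ^ M ∈ k := by
      rw [h3]
      refine div_mem (mul_mem h2 ?_) ?_
      · rw [hV, eval_pow]
        exact pow_mem (hBk t htk) _
      · rw [hU, eval_pow]
        exact pow_mem (hBk t htk) _
    apply hk.cl
    apply IsAlgebraic.of_pow (n := M) (by omega)
    have : (P.eval t) ^ M = algebraMap k ℝ ⟨_, h4⟩ := rfl
    rw [this]
    exact isAlgebraic_algebraMap _
  obtain ⟨P₂, Q₂, hQ₂, hPQ₂⟩ := hRA2 k P 1 one_ne_zero _ (hkinf _ hS) hT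
  rw [mul_one] at hPQ₂
  have hd : up k Q₂ ∣ up k P₂ := ⟨P, by rw [← hPQ₂, mul_comm]⟩
  have hd2 : Q₂ ∣ P₂ := (Polynomial.map_dvd_map' (algebraMap k ℝ)).1 hd
  obtain ⟨R, hR⟩ := hd2
  refine ⟨R, ?_⟩
  have h8 : up k P₂ = up k Q₂ * up k R := by
    rw [hR, up, up, up, Polynomial.map_mul]
  rw [h8, mul_comm] at hPQ₂
  exact mul_left_cancel₀ (BDL_up_ne Q₂ hQ₂) hPQ₂

end Pool.Agent.QP
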