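import Pool.Agent.QP.StB

/-!
# Quarter periods, [BII]: values on half-lines
-/

set_option autoImplicit false

open MeasureTheory Filter Topology Set

namespace Pool.Agent.QP

open Pool.Agent.ITR Pool.Agent.Helper23.PeriodDefs

/-- change of variables -/
private theorem BII_cv (S T : Set ℝ) (hS : MeasurableSet S) (φ φ' : ℝ → ℝ)
    (hφ : ∀ u ∈ S, HasDerivWithinAt φ (φ' u) S u) (hinj : InjOn φ S)
    (himg : φ '' S = T) (f g : ℝ → ℝ) (hg : ∀ u ∈ S, |φ' u| * f (φ u) = g u) :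
    (IntegrableOn f T → IntegrableOn g S) ∧ ∫ t in T, f t = ∫ u in S, g u := by
  have h1 := integrableOn_image_iff_integrableOn_abs_deriv_smul hS hφ hinj f
  have h2 := integral_image_eq_integral_abs_deriv_smul hS hφ hinj f
  rw [himg] at h1 h2
  constructor
  · intro h
    refine (h1.1 h).congr_fun (fun u hu => ?_) hS
    show |φ' u| • f (φ u) = g u
    rw [smul_eq_mul]
    exact hg u hu
  · rw [h2]
    refine setIntegral_congr_fun hS fun u hu => ?_
    show |φ' u| • f (φ u) = g u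
    rw [smul_eq_mul]
    exact hg u hu

private theorem BII_rpow (k : IntermediateField ℚ ℝ) (hk : RC k) (c : ℝ) (hc : 0 < c)
    (hck : c ∈ k) (r : ℚ) : c ^ (r : ℝ) ∈ k := by
  refine hk.cl _ ?_
  have h1 : (c ^ (r : ℝ)) ^ r.den = c ^ r.num := by
    rw [← Real.rpow_natCast, ← Real.rpow_mul hc.le, ← Real.rpow_intCast]
    have h2 : (r : ℝ) * (r.den : ℝ) = (r.num : ℝ) := by
      exact_mod_cast Rat.mul_den_eq_num r
    rw [h2]
  refine IsAlgebraic.of_pow r.den_pos ?_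
  rw [h1]
  exact isAlgebraic_algebraMap (⟨c ^ r.num, zpow_mem hck _⟩ : k)

private theorem BII_hom (k : IntermediateField ℚ ℝ) (a b : k) (P : Polynomial k) :
    ∃ P₁ : Polynomial k, ∀ u : ℝ, 1 - u ≠ 0 →
      (up k P₁).eval u = (1 - u) ^ P.natDegree * (up k P).eval (((a : ℝ) - b * u) / (1 - u)) := by
  refine ⟨∑ i ∈ Finset.range (P.natDegree + 1), Polynomial.C (P.coeff i) *
    (Polynomial.C a - Polynomial.C b * Polynomial.X) ^ i *
      (1 - Polynomial.X) ^ (P.natDegree - i), ?_⟩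
  intro u hu
  have h1 : (up k P).natDegree < P.natDegree + 1 := by
    unfold up
    exact Nat.lt_succ_of_le Polynomial.natDegree_map_le
  rw [Polynomial.eval_eq_sum_range' h1, Finset.mul_sum]
  unfold up
  rw [Polynomial.map_sum, Polynomial.eval_finsetSum]
  refine Finset.sum_congr rfl fun i hi => ?_
  have hi' : i ≤ P.natDegree := by
    have := Finset.mem_range.1 hi
    omega
  have h2 : (1 - u) ^ P.natDegree = (1 - u) ^ i * (1 - u) ^ (P.natDegree - i) := by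
    rw [← pow_add, Nat.add_sub_cancel' hi']
  rw [h2, div_pow]
  simp only [Polynomial.map_mul, Polynomial.map_pow, Polynomial.map_sub, Polynomial.map_C,
    Polynomial.map_X, Polynomial.map_one, Polynomial.eval_mul, Polynomial.eval_pow,
    Polynomial.eval_sub, Polynomial.eval_C, Polynomial.eval_X, Polynomial.eval_one,
    Polynomial.coeff_map]
  have h3 : (1 - u) ^ i ≠ 0 := pow_ne_zero _ hu
  have e1 : (algebraMap k ℝ) a = (a : ℝ) := rfl
  have e2 : (algebraMap k ℝ) b = (b : ℝ) := rfl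
  rw [e1, e2]
  field_simp

private theorem BII_first (hB : St_BIO) (N : ℕ) (hN : N = 4 ∨ N = 6) (k : IntermediateField ℚ ℝ)
    (hk : RC k) (P : Polynomial k) (p q : ℚ) (a b : ℝ) (hp : ∃ z : ℤ, p * N = z)
    (hq : ∃ z : ℤ, q * N = z) (ha : a ∈ k) (hb : b ∈ k) (hba : b < a)
    (hint : IntegrableOn (fun t : ℝ => (t - a) ^ (p : ℝ) * (t - b) ^ (q : ℝ) * (up k P).eval t)
      (Set.Ioi a)) :
    ∃ v ∈ k, ∫ t in Set.Ioi a, (t - a) ^ (p : ℝ) * (t - b) ^ (q : ℝ) * (up k P).eval t =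
      v * (per N ^ ew p (-p - q) * qer N ^ eh p (-p - q)) := by
  obtain ⟨a', rfl⟩ : ∃ a' : k, (a' : ℝ) = a := ⟨⟨a, ha⟩, rfl⟩
  obtain ⟨b', rfl⟩ : ∃ b' : k, (b' : ℝ) = b := ⟨⟨b, hb⟩, rfl⟩
  obtain ⟨P₁, hP₁⟩ := BII_hom k a' b' P
  have hab : 0 < (a' : ℝ) - b' := by linarith
  have hck : ((a' : ℝ) - b') ^ ((p + q + 1 : ℚ) : ℝ) ∈ k :=
    BII_rpow k hk _ hab (sub_mem ha hb) _
  set cc : k := ⟨((a' : ℝ) - b') ^ ((p + q + 1 : ℚ) : ℝ), hck⟩ with hcc
  set d : ℕ := P.natDegree with hd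
  have hder : ∀ u ∈ Ioo (0 : ℝ) 1, HasDerivWithinAt (fun u : ℝ => ((a' : ℝ) - b' * u) / (1 - u))
      ((fun u : ℝ => ((a' : ℝ) - b') / (1 - u) ^ 2) u) (Ioo 0 1) u := by
    intro u hu
    have h3 : (1 : ℝ) - u ≠ 0 := by linarith [hu.2]
    have h4 : HasDerivAt (fun u : ℝ => ((a' : ℝ) - b' * u) / (1 - u))
        ((-(b' * 1) * (1 - u) - ((a' : ℝ) - b' * u) * (-1)) / (1 - u) ^ 2) u :=
      (((hasDerivAt_id u).const_mul (b' : ℝ)).const_sub (a' : ℝ)).div
        ((hasDerivAt_id u).const_sub (1 : ℝ)) h3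
    have h5 : (-(b' * 1) * (1 - u) - ((a' : ℝ) - b' * u) * (-1)) / (1 - u) ^ 2 =
        ((a' : ℝ) - b') / (1 - u) ^ 2 := by
      congr 1
      ring
    rw [h5] at h4
    exact h4.hasDerivWithinAt
  have hinj : InjOn (fun u : ℝ => ((a' : ℝ) - b' * u) / (1 - u)) (Ioo 0 1) := by
    intro u hu w hw huw
    have h3 : (1 : ℝ) - u ≠ 0 := by linarith [hu.2]
    have h4 : (1 : ℝ) - w ≠ 0 := by linarith [hw.2]
    simp only at huw
    rw [div_eq_div_iff h3 h4] at huw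
    have h5 : ((a' : ℝ) - b') * (u - w) = 0 := by linear_combination huw
    rcases mul_eq_zero.1 h5 with h6 | h6
    · exact absurd h6 hab.ne'
    · linarith
  have himg : (fun u : ℝ => ((a' : ℝ) - b' * u) / (1 - u)) '' Ioo 0 1 = Ioi (a' : ℝ) := by
    ext t
    constructor
    · rintro ⟨u, hu, rfl⟩
      have h3 : (0 : ℝ) < 1 - u := by linarith [hu.2]
      show (a' : ℝ) < ((a' : ℝ) - b' * u) / (1 - u)
      rw [lt_div_iff₀ h3]
      nlinarith [hu.1, mul_pos hab hu.1]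
    · intro ht
      have ht' : (a' : ℝ) < t := ht
      have h5 : 0 < t - a' := by linarith
      have h6 : 0 < t - b' := by linarith
      refine ⟨(t - a') / (t - b'), ⟨div_pos h5 h6, ?_⟩, ?_⟩
      · rw [div_lt_one h6]
        linarith
      · show ((a' : ℝ) - b' * ((t - a') / (t - b'))) / (1 - (t - a') / (t - b')) = t
        have h7 : t - (b' : ℝ) ≠ 0 := h6.ne'
        have h8 : (1 : ℝ) - (t - a') / (t - b') = (a' - b') / (t - b') := by
          field_simp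
          ring
        rw [h8, div_eq_iff (div_ne_zero hab.ne' h7)]
        field_simp
        ring
  have hg : ∀ u ∈ Ioo (0 : ℝ) 1, |(fun u : ℝ => ((a' : ℝ) - b') / (1 - u) ^ 2) u| *
      (fun t : ℝ => (t - a') ^ (p : ℝ) * (t - b') ^ (q : ℝ) * (up k P).eval t)
        ((fun u : ℝ => ((a' : ℝ) - b' * u) / (1 - u)) u) =
      (fun u : ℝ => (u - 0) ^ (p : ℝ) * (1 - u) ^ ((-p - q - 2 - d : ℚ) : ℝ) *
        (up k (Polynomial.C cc * P₁)).eval u) u := by
    intro u hu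
    have hu0 : (0 : ℝ) < u := hu.1
    have h3 : (0 : ℝ) < 1 - u := by linarith [hu.2]
    have h3' : (1 : ℝ) - u ≠ 0 := h3.ne'
    show |((a' : ℝ) - b') / (1 - u) ^ 2| *
      ((((a' : ℝ) - b' * u) / (1 - u) - a') ^ (p : ℝ) *
        (((a' : ℝ) - b' * u) / (1 - u) - b') ^ (q : ℝ) *
        (up k P).eval (((a' : ℝ) - b' * u) / (1 - u))) =
      (u - 0) ^ (p : ℝ) * (1 - u) ^ ((-p - q - 2 - d : ℚ) : ℝ) *
        (up k (Polynomial.C cc * P₁)).eval u
    have e1 : ((a' : ℝ) - b' * u) / (1 - u) - a' = u * ((a' - b') / (1 - u)) := by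
      field_simp
      ring
    have e2 : ((a' : ℝ) - b' * u) / (1 - u) - b' = (a' - b') / (1 - u) := by
      field_simp
      ring
    have hc : 0 < ((a' : ℝ) - b') / (1 - u) := div_pos hab h3
    have e3 : (u * (((a' : ℝ) - b') / (1 - u))) ^ (p : ℝ) * (((a' : ℝ) - b') / (1 - u)) ^ (q : ℝ) =
        u ^ (p : ℝ) * (((a' : ℝ) - b') ^ ((p : ℝ) + q) * (1 - u) ^ (-((p : ℝ) + q))) := by
      rw [Real.mul_rpow hu0.le hc.le, mul_assoc, ← Real.rpow_add hc,
        Real.div_rpow hab.le h3.le, Real.rpow_neg h3.le, div_eq_mul_inv]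
    have e4 : (up k P).eval (((a' : ℝ) - b' * u) / (1 - u)) =
        (up k P₁).eval u / (1 - u) ^ d := by
      rw [hP₁ u h3', mul_div_cancel_left₀ _ (pow_ne_zero _ h3')]
    have e5 : (up k (Polynomial.C cc * P₁)).eval u =
        ((a' : ℝ) - b') ^ ((p : ℝ) + q) * ((a' : ℝ) - b') * (up k P₁).eval u := by
      unfold up
      rw [Polynomial.map_mul, Polynomial.map_C, Polynomial.eval_mul, Polynomial.eval_C]
      have e6 : (algebraMap k ℝ) cc = ((a' : ℝ) - b') ^ ((p + q + 1 : ℚ) : ℝ) := rfl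
      rw [e6]
      congr 1
      push_cast
      rw [Real.rpow_add hab, Real.rpow_one]
    have e7 : (1 - u) ^ ((-p - q - 2 - d : ℚ) : ℝ) =
        (1 - u) ^ (-((p : ℝ) + q)) / (1 - u) ^ 2 / (1 - u) ^ d := by
      have e8 : ((-p - q - 2 - d : ℚ) : ℝ) = -((p : ℝ) + q) - (2 : ℕ) - (d : ℕ) := by
        push_cast
        ring
      rw [e8, Real.rpow_sub h3, Real.rpow_sub h3, Real.rpow_natCast, Real.rpow_natCast]
    rw [e1, e2, e3, e4, e5, e7, sub_zero, abs_of_pos (by positivity)]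
    field_simp
  obtain ⟨h1, h2⟩ := BII_cv (Ioo 0 1) _ measurableSet_Ioo _ _ hder hinj himg
    (fun t : ℝ => (t - a') ^ (p : ℝ) * (t - b') ^ (q : ℝ) * (up k P).eval t) _ hg
  have hq' : ∃ z : ℤ, (-p - q - 2 - d : ℚ) * N = z := by
    obtain ⟨z, hz⟩ := hp
    obtain ⟨w, hw⟩ := hq
    refine ⟨-z - w - 2 * N - d * N, ?_⟩
    push_cast
    linear_combination -hz - hw
  obtain ⟨v, hv, hv'⟩ := hB N hN k hk (Polynomial.C cc * P₁) p (-p - q - 2 - d) 0 1 hp hq'
    (zero_mem k) (one_mem k) zero_lt_one (h1 hint)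
  have hf : Int.fract (-p - q - 2 - d : ℚ) = Int.fract (-p - q) := by
    rw [Int.fract_eq_fract]
    refine ⟨-2 - d, ?_⟩
    push_cast
    ring
  have hw1 : ew p (-p - q - 2 - d) = ew p (-p - q) := by
    unfold ew
    rw [hf]
  have hw2 : eh p (-p - q - 2 - d) = eh p (-p - q) := by
    unfold eh
    rw [hf]
  rw [hw1, hw2] at hv'
  exact ⟨v, hv, h2.trans hv'⟩

/-- **[BII]** values on half-lines -/
theorem thm_BII (hB : St_BIO) : St_BII := by
  intro N hN k hk P p q a b hp hq ha hb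
  refine ⟨fun hba hint => BII_first hB N hN k hk P p q a b hp hq ha hb hba hint,
    fun hab hint => ?_⟩
  have hder : ∀ u ∈ Ioi (-a), HasDerivWithinAt (fun u : ℝ => -u) ((fun _ : ℝ => (-1 : ℝ)) u)
      (Ioi (-a)) u := fun u _ => (hasDerivAt_id u).neg.hasDerivWithinAt
  have hinj : InjOn (fun u : ℝ => -u) (Ioi (-a)) := fun u _ w _ h => neg_injective h
  have himg : (fun u : ℝ => -u) '' Ioi (-a) = Iio a := by
    rw [Set.image_neg_eq_neg, Set.neg_Ioi, neg_neg]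
  have hg : ∀ u ∈ Ioi (-a), |(fun _ : ℝ => (-1 : ℝ)) u| *
      (fun t : ℝ => (a - t) ^ (p : ℝ) * (b - t) ^ (q : ℝ) * (up k P).eval t)
        ((fun u : ℝ => -u) u) =
      (fun u : ℝ => (u - -a) ^ (p : ℝ) * (u - -b) ^ (q : ℝ) *
        (up k (P.comp (-Polynomial.X))).eval u) u := by
    intro u _
    show |(-1 : ℝ)| * ((a - -u) ^ (p : ℝ) * (b - -u) ^ (q : ℝ) * (up k P).eval (-u)) =
      (u - -a) ^ (p : ℝ) * (u - -b) ^ (q : ℝ) * (up k (P.comp (-Polynomial.X))).eval u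
    have e1 : (up k (P.comp (-Polynomial.X))).eval u = (up k P).eval (-u) := by
      unfold up
      rw [Polynomial.map_comp, Polynomial.eval_comp, Polynomial.map_neg, Polynomial.map_X,
        Polynomial.eval_neg, Polynomial.eval_X]
    have e2 : a - -u = u - -a := by ring
    have e3 : b - -u = u - -b := by ring
    rw [e1, e2, e3, abs_neg, abs_one, one_mul]
  obtain ⟨h1, h2⟩ := BII_cv (Ioi (-a)) _ measurableSet_Ioi _ _ hder hinj himg
    (fun t : ℝ => (a - t) ^ (p : ℝ) * (b - t) ^ (q : ℝ) * (up k P).eval t) _ hg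
  obtain ⟨v, hv, hv'⟩ := BII_first hB N hN k hk (P.comp (-Polynomial.X)) p q (-a) (-b) hp hq
    (neg_mem ha) (neg_mem hb) (neg_lt_neg hab) (h1 hint)
  exact ⟨v, hv, h2.trans hv'⟩

end Pool.Agent.QP
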