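import Pool.Agent.QP.StB

/-!
# Quarter periods: module BIL (values on the line)
-/

set_option autoImplicit false

open MeasureTheory Filter Topology

namespace Pool.Agent.QP

open Pool.Agent.ITR Pool.Agent.Helper23.PeriodDefs

section

variable {k : IntermediateField ℚ ℝ}

private lemma BIL_coeff_comp_neg {R : Type*} [CommRing R] (N : Polynomial R) (n : ℕ) :
    (N.comp (-Polynomial.X)).coeff n = (-1) ^ n * N.coeff n := by
  induction N using Polynomial.induction_on' with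
  | add p q hp hq => rw [Polynomial.add_comp, Polynomial.coeff_add, hp, hq, Polynomial.coeff_add,
      mul_add]
  | monomial m a =>
    have h1 : (Polynomial.monomial m a).comp (-Polynomial.X : Polynomial R) =
        Polynomial.monomial m ((-1) ^ m * a) := by
      rw [Polynomial.monomial_comp, neg_pow, ← Polynomial.C_mul_X_pow_eq_monomial]
      rw [Polynomial.C_mul, Polynomial.C_pow, Polynomial.C_neg, Polynomial.C_1]
      ring
    rw [h1, Polynomial.coeff_monomial, Polynomial.coeff_monomial]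
    split_ifs with h
    · rw [h]
    · rw [mul_zero]

private lemma BIL_even_poly (N : Polynomial k) (h : N.comp (-Polynomial.X) = N) :
    ∃ N' : Polynomial k, ∀ t : ℝ, (up k N).eval t = (up k N').eval (t ^ 2) := by
  refine ⟨Polynomial.contract 2 N, fun t => ?_⟩
  have h1 : Polynomial.expand k 2 (Polynomial.contract 2 N) = N := by
    ext n
    rw [Polynomial.coeff_expand two_pos, Polynomial.coeff_contract two_ne_zero]
    split_ifs with hn
    · rw [Nat.div_mul_cancel hn]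
    · have h2 := BIL_coeff_comp_neg N n
      rw [h, Odd.neg_one_pow (Nat.odd_iff.2 (Nat.two_dvd_ne_zero.1 hn))] at h2
      have h3 : N.coeff n = 0 := by
        have h4 : N.coeff n + N.coeff n = 0 := by
          nth_rewrite 1 [h2]
          ring
        exact (add_self_eq_zero.1 h4)
      rw [h3]
  have h5 : (up k N).eval t = (up k (Polynomial.expand k 2 (Polynomial.contract 2 N))).eval t := by
    rw [h1]
  rw [h5]
  unfold up
  rw [Polynomial.map_expand, Polynomial.expand_eval]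

private lemma BIL_up_comp_neg (P : Polynomial k) (t : ℝ) :
    (up k (P.comp (-Polynomial.X))).eval t = (up k P).eval (-t) := by
  unfold up
  rw [Polynomial.map_comp, Polynomial.eval_comp, Polynomial.map_neg, Polynomial.map_X,
    Polynomial.eval_neg, Polynomial.eval_X]

private lemma BIL_up_shift (P : Polynomial k) (a : k) (t : ℝ) :
    (up k (P.comp (Polynomial.X + Polynomial.C a))).eval t = (up k P).eval (t + a) := by
  unfold up
  rw [Polynomial.map_comp, Polynomial.eval_comp, Polynomial.map_add, Polynomial.map_X,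
    Polynomial.map_C, Polynomial.eval_add, Polynomial.eval_X, Polynomial.eval_C]
  rfl

private lemma BIL_up_add (P Q : Polynomial k) (t : ℝ) :
    (up k (P + Q)).eval t = (up k P).eval t + (up k Q).eval t := by
  unfold up
  rw [Polynomial.map_add, Polynomial.eval_add]

end

/-- splitting the line -/
private lemma BIL_split (f : ℝ → ℝ) (hf : Integrable f) :
    IntegrableOn (fun t => f t + f (-t)) (Set.Ioi 0) ∧
    ∫ t, f t = ∫ t in Set.Ioi (0 : ℝ), (f t + f (-t)) := by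
  have h1 : Integrable (fun t => f (-t)) := hf.comp_neg
  refine ⟨(hf.add h1).integrableOn, ?_⟩
  rw [integral_add hf.integrableOn h1.integrableOn, integral_comp_neg_Ioi, neg_zero,
    ← integral_add_compl (measurableSet_Iic (a := (0 : ℝ))) hf, Set.compl_Iic, add_comm]

/-- the substitution `u = t^2` -/
private lemma BIL_subst (g : ℝ → ℝ) (hg : IntegrableOn (fun t => g (t ^ 2)) (Set.Ioi 0)) :
    IntegrableOn (fun u : ℝ => u ^ (((-1 / 2 : ℚ) : ℝ)) * g u) (Set.Ioi 0) ∧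
    ∫ u in Set.Ioi (0 : ℝ), u ^ (((-1 / 2 : ℚ) : ℝ)) * g u =
      2 * ∫ t in Set.Ioi (0 : ℝ), g (t ^ 2) := by
  have key : ∀ x ∈ Set.Ioi (0 : ℝ), (|(2 : ℝ)| * x ^ ((2 : ℝ) - 1)) •
      ((x ^ (2 : ℝ)) ^ (((-1 / 2 : ℚ) : ℝ)) * g (x ^ (2 : ℝ))) = 2 * g (x ^ 2) := by
    intro x hx
    have hx0 : (0 : ℝ) < x := hx
    have h1 : (x ^ (2 : ℝ)) ^ (((-1 / 2 : ℚ) : ℝ)) = x⁻¹ := by
      rw [← Real.rpow_mul hx0.le]
      have : (2 : ℝ) * (((-1 / 2 : ℚ) : ℝ)) = -1 := by
        push_cast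
        norm_num
      rw [this, Real.rpow_neg_one]
    have h2 : x ^ ((2 : ℝ) - 1) = x := by
      have : (2 : ℝ) - 1 = 1 := by norm_num
      rw [this, Real.rpow_one]
    have h3 : x ^ (2 : ℝ) = x ^ 2 := Real.rpow_two x
    rw [h1, h2, h3, smul_eq_mul, abs_of_pos (two_pos : (0 : ℝ) < 2)]
    field_simp
  constructor
  · rw [← integrableOn_Ioi_comp_rpow_iff _ (two_ne_zero (α := ℝ))]
    refine IntegrableOn.congr_fun (hg.const_mul 2) (fun x hx => (key x hx).symm) measurableSet_Ioi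
  · rw [← integral_comp_rpow_Ioi _ (two_ne_zero (α := ℝ)), ← integral_const_mul]
    exact setIntegral_congr_fun measurableSet_Ioi key

private lemma BIL_fract1 : Int.fract (-1 / 2 : ℚ) = Int.fract (1 / 2 : ℚ) := by
  rw [← Int.fract_add_one (-1 / 2 : ℚ)]
  norm_num

private lemma BIL_fract2 (p : ℚ) :
    Int.fract (-(-1 / 2 : ℚ) - p) = Int.fract (-p - 1 / 2 : ℚ) := by
  rw [← Int.fract_add_one (-p - 1 / 2 : ℚ)]
  congr 1
  ring

theorem thm_BIL (hBII : St_BII) : St_BIL := by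
  intro N hN k hk P p a c hp ha hc hc0 hint
  obtain ⟨Pa, hPa⟩ : ∃ Pa, Pa = P.comp (Polynomial.X + Polynomial.C (⟨a, ha⟩ : k)) := ⟨_, rfl⟩
  have hPae : ∀ t : ℝ, (up k Pa).eval t = (up k P).eval (t + a) := by
    intro t
    rw [hPa, BIL_up_shift]
  -- translation
  obtain ⟨f, hf⟩ : ∃ f : ℝ → ℝ, f = fun t : ℝ => (t ^ 2 + c ^ 2) ^ (p : ℝ) * (up k Pa).eval t :=
    ⟨_, rfl⟩
  have hfs : f = fun t : ℝ => (fun s : ℝ => ((s - a) ^ 2 + c ^ 2) ^ (p : ℝ) *
      (up k P).eval s) (t + a) := by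
    funext t
    rw [hf]
    show (t ^ 2 + c ^ 2) ^ (p : ℝ) * (up k Pa).eval t =
      ((t + a - a) ^ 2 + c ^ 2) ^ (p : ℝ) * (up k P).eval (t + a)
    rw [hPae, add_sub_cancel_right]
  have hfi : Integrable f := by
    rw [hfs]
    exact hint.comp_add_right a
  have hfv : ∫ t, f t = ∫ t : ℝ, ((t - a) ^ 2 + c ^ 2) ^ (p : ℝ) * (up k P).eval t := by
    rw [hfs]
    exact integral_add_right_eq_self (fun s : ℝ => ((s - a) ^ 2 + c ^ 2) ^ (p : ℝ) *
      (up k P).eval s) a
  obtain ⟨h1, h2⟩ := BIL_split f hfi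
  -- the even part
  obtain ⟨E, hE⟩ := BIL_even_poly (Pa + Pa.comp (-Polynomial.X)) (by
    rw [Polynomial.add_comp, Polynomial.comp_assoc, Polynomial.neg_comp, Polynomial.X_comp,
      neg_neg, Polynomial.comp_X, add_comm])
  obtain ⟨g, hg⟩ : ∃ g : ℝ → ℝ, g = fun u : ℝ => (u + c ^ 2) ^ (p : ℝ) * (up k E).eval u :=
    ⟨_, rfl⟩
  have h3 : ∀ t : ℝ, f t + f (-t) = g (t ^ 2) := by
    intro t
    rw [hf, hg]
    show (t ^ 2 + c ^ 2) ^ (p : ℝ) * (up k Pa).eval t +
      ((-t) ^ 2 + c ^ 2) ^ (p : ℝ) * (up k Pa).eval (-t) =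
      (t ^ 2 + c ^ 2) ^ (p : ℝ) * (up k E).eval (t ^ 2)
    rw [← hE, BIL_up_add, BIL_up_comp_neg, neg_sq]
    ring
  have h4 : IntegrableOn (fun t : ℝ => g (t ^ 2)) (Set.Ioi 0) := by
    have : (fun t : ℝ => g (t ^ 2)) = fun t => f t + f (-t) := by
      funext t
      exact (h3 t).symm
    rw [this]
    exact h1
  have h5 : ∫ t, f t = ∫ t in Set.Ioi (0 : ℝ), g (t ^ 2) := by
    rw [h2]
    congr 1
    funext t
    exact h3 t
  obtain ⟨h6, h7⟩ := BIL_subst g h4
  have h8 : (fun u : ℝ => u ^ (((-1 / 2 : ℚ) : ℝ)) * g u) = fun t : ℝ =>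
      (t - 0) ^ (((-1 / 2 : ℚ) : ℝ)) * (t - (-c ^ 2)) ^ (p : ℝ) * (up k E).eval t := by
    funext t
    rw [hg]
    show t ^ (((-1 / 2 : ℚ) : ℝ)) * ((t + c ^ 2) ^ (p : ℝ) * (up k E).eval t) = _
    rw [sub_zero, sub_neg_eq_add]
    ring
  rw [h8] at h6 h7
  have hN2 : ∃ z : ℤ, (-1 / 2 : ℚ) * N = z := by
    rcases hN with h | h
    · exact ⟨-2, by rw [h]; norm_num⟩
    · exact ⟨-3, by rw [h]; norm_num⟩
  obtain ⟨v, hv, hv2⟩ := (hBII N hN k hk E (-1 / 2) p 0 (-c ^ 2) hN2 hp (zero_mem k)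
    (neg_mem (pow_mem hc 2))).1 (by have := pow_pos hc0 2; linarith) h6
  have he1 : ew (-1 / 2) (-(-1 / 2) - p) = ew (1 / 2) (-p - 1 / 2) := by
    unfold ew
    rw [BIL_fract1, BIL_fract2]
  have he2 : eh (-1 / 2) (-(-1 / 2) - p) = eh (1 / 2) (-p - 1 / 2) := by
    unfold eh
    rw [BIL_fract1, BIL_fract2]
  rw [he1, he2, h7] at hv2
  refine ⟨v / 2, div_mem hv (ofNat_mem k 2), ?_⟩
  rw [← hfv, h5]
  linarith

end Pool.Agent.QP
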