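import Pool.Agent.QP.StB

/-!
# Quarter periods: the real beta integral (helper32)
-/

set_option autoImplicit false

open MeasureTheory Filter Topology

namespace Pool.Agent.QP

open Pool.Agent.ITR Pool.Agent.Helper23.PeriodDefs

private theorem BIN_cast (x y t : ℝ) (h0 : 0 < t) (h1 : t < 1) :
    (t : ℂ) ^ ((x : ℂ) - 1) * (1 - (t : ℂ)) ^ ((y : ℂ) - 1) =
      ((t ^ (x - 1) * (1 - t) ^ (y - 1) : ℝ) : ℂ) := by
  have h2 : (0 : ℝ) ≤ 1 - t := by linarith
  rw [Complex.ofReal_mul, Complex.ofReal_cpow h0.le, Complex.ofReal_cpow h2]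
  push_cast
  rfl

private theorem BIN_cint (x y : ℝ) (hx : 0 < x) (hy : 0 < y) :
    IntegrableOn (fun t : ℝ => (t : ℂ) ^ ((x : ℂ) - 1) * (1 - (t : ℂ)) ^ ((y : ℂ) - 1))
      (Set.Ioo 0 1) := by
  have h := Complex.betaIntegral_convergent (u := (x : ℂ)) (v := (y : ℂ))
    (by simpa using hx) (by simpa using hy)
  rw [intervalIntegrable_iff_integrableOn_Ioc_of_le (by norm_num : (0 : ℝ) ≤ 1)] at h
  exact h.mono_set Set.Ioo_subset_Ioc_self

private theorem BIN_int (x y : ℝ) (hx : 0 < x) (hy : 0 < y) :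
    IntegrableOn (fun t : ℝ => t ^ (x - 1) * (1 - t) ^ (y - 1)) (Set.Ioo 0 1) := by
  have h := (BIN_cint x y hx hy).re
  refine h.congr ?_
  filter_upwards [ae_restrict_mem measurableSet_Ioo] with t ht
  rw [BIN_cast x y t ht.1 ht.2]
  simp

theorem thm_BIN : St_BIN := by
  intro x y hx hy
  have hpos : 0 < bet x y := by
    unfold bet
    exact div_pos (mul_pos (Real.Gamma_pos_of_pos hx) (Real.Gamma_pos_of_pos hy))
      (Real.Gamma_pos_of_pos (add_pos hx hy))
  refine ⟨BIN_int x y hx hy, ?_, hpos⟩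
  have h1 : Complex.betaIntegral (x : ℂ) (y : ℂ) = ((bet x y : ℝ) : ℂ) := by
    rw [Complex.betaIntegral_eq_Gamma_mul_div _ _ (by simpa using hx) (by simpa using hy)]
    unfold bet
    rw [← Complex.ofReal_add, Complex.Gamma_ofReal, Complex.Gamma_ofReal, Complex.Gamma_ofReal]
    push_cast
    rfl
  have h2 : Complex.betaIntegral (x : ℂ) (y : ℂ) =
      ((∫ t in Set.Ioo (0 : ℝ) 1, t ^ (x - 1) * (1 - t) ^ (y - 1) : ℝ) : ℂ) := by
    unfold Complex.betaIntegral
    rw [intervalIntegral.integral_of_le (by norm_num : (0 : ℝ) ≤ 1),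
      integral_Ioc_eq_integral_Ioo, ← integral_complex_ofReal]
    refine setIntegral_congr_fun measurableSet_Ioo fun t ht => ?_
    exact BIN_cast x y t ht.1 ht.2
  rw [h1] at h2
  exact_mod_cast h2.symm

end Pool.Agent.QP
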