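import Pool.Agent.QP.StB

/-!
# Quarter periods: values on an interval
-/

set_option autoImplicit false

open MeasureTheory Filter Topology

namespace Pool.Agent.QP

open Pool.Agent.ITR Pool.Agent.Helper23.PeriodDefs

private theorem BIO_left {g : ℝ → ℝ} {a b r : ℝ} (hab : a < b) (hg : ContinuousAt g a)
    (hga : g a ≠ 0) (hint : IntegrableOn (fun t => (t - a) ^ r * g t) (Set.Ioo a b)) : -1 < r := by
  have hpos := abs_pos.2 hga
  have h1 : ∀ᶠ t in 𝓝 a, |g a| / 2 < |g t| :=
    hg.abs.eventually (lt_mem_nhds (show |g a| / 2 < |g a| by linarith))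
  obtain ⟨δ, hδ, hδ'⟩ := Metric.eventually_nhds_iff.1 h1
  obtain ⟨e, he⟩ : ∃ e, e = min δ (b - a) := ⟨_, rfl⟩
  have he0 : 0 < e := he ▸ lt_min hδ (by linarith)
  have he1 : e ≤ δ := he ▸ min_le_left _ _
  have he2 : e ≤ b - a := he ▸ min_le_right _ _
  have h2 : IntegrableOn (fun t => (t - a) ^ r) (Set.Ioo a (a + e)) := by
    have h3 : IntegrableOn (fun t => (2 / |g a|) * ((t - a) ^ r * g t)) (Set.Ioo a (a + e)) :=
      (hint.mono_set fun t ht => ⟨ht.1, lt_of_lt_of_le ht.2 (by linarith)⟩).const_mul _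
    refine Integrable.mono h3 ((measurable_id.sub_const a).pow_const _).aestronglyMeasurable ?_
    rw [ae_restrict_iff' measurableSet_Ioo]
    refine Eventually.of_forall fun t ht => ?_
    have h4 : |g a| / 2 < |g t| := by
      apply hδ'
      rw [Real.dist_eq, abs_lt]
      constructor
      · linarith [ht.1]
      · linarith [ht.2]
    rw [norm_mul, norm_mul, Real.norm_eq_abs (2 / |g a|), abs_div, abs_abs, abs_two,
      Real.norm_eq_abs (g t)]
    have h5 : 1 ≤ 2 / |g a| * |g t| := by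
      rw [div_mul_eq_mul_div, le_div_iff₀ hpos]
      linarith
    have h6 := norm_nonneg ((t - a) ^ r)
    calc ‖(t - a) ^ r‖ = ‖(t - a) ^ r‖ * 1 := by ring
      _ ≤ ‖(t - a) ^ r‖ * (2 / |g a| * |g t|) := mul_le_mul_of_nonneg_left h5 h6
      _ = 2 / |g a| * (‖(t - a) ^ r‖ * |g t|) := by ring
  have h4 : IntervalIntegrable (fun t => (t - a) ^ r) volume a (a + e) := by
    rw [intervalIntegrable_iff_integrableOn_Ioo_of_le (by linarith)]
    exact h2
  have h5 := h4.comp_add_right a
  have h6 : IntervalIntegrable (fun t : ℝ => t ^ r) volume 0 e := by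
    have e1 : (fun x : ℝ => (x + a - a) ^ r) = fun t : ℝ => t ^ r := by
      funext x
      rw [add_sub_cancel_right]
    rw [e1, sub_self, add_sub_cancel_left] at h5
    exact h5
  rw [intervalIntegrable_iff_integrableOn_Ioo_of_le he0.le,
    intervalIntegral.integrableOn_Ioo_rpow_iff he0] at h6
  exact h6

private theorem BIO_right {g : ℝ → ℝ} {a b r : ℝ} (hab : a < b) (hg : ContinuousAt g b)
    (hgb : g b ≠ 0) (hint : IntegrableOn (fun t => (b - t) ^ r * g t) (Set.Ioo a b)) : -1 < r := by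
  have h1 : IntervalIntegrable (fun t => (b - t) ^ r * g t) volume a b := by
    rw [intervalIntegrable_iff_integrableOn_Ioo_of_le hab.le]
    exact hint
  have h2 := (h1.comp_sub_left (a + b)).symm
  have e1 : a + b - a = b := by ring
  have e2 : a + b - b = a := by ring
  rw [e1, e2] at h2
  have e3 : (fun x : ℝ => (b - (a + b - x)) ^ r * g (a + b - x)) =
      fun x : ℝ => (x - a) ^ r * g (a + b - x) := by
    funext x
    have : b - (a + b - x) = x - a := by ring
    rw [this]
  rw [e3, intervalIntegrable_iff_integrableOn_Ioo_of_le hab.le] at h2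
  refine BIO_left (g := fun x => g (a + b - x)) hab ?_ ?_ h2
  · have : ContinuousAt (fun x : ℝ => a + b - x) a := (continuous_const.sub continuous_id).continuousAt
    refine ContinuousAt.comp (g := g) (f := fun x : ℝ => a + b - x) ?_ this
    rw [e1]
    exact hg
  · rw [e1]
    exact hgb

private theorem BIO_term (hB : St_BIN) {a b x y : ℝ} (hab : a < b) (hx : 0 < x) (hy : 0 < y) :
    IntegrableOn (fun t : ℝ => (t - a) ^ (x - 1) * (b - t) ^ (y - 1)) (Set.Ioo a b) ∧
    ∫ t in Set.Ioo a b, (t - a) ^ (x - 1) * (b - t) ^ (y - 1) = (b - a) ^ (x + y - 1) * bet x y := by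
  obtain ⟨h1, h2, -⟩ := hB x y hx hy
  obtain ⟨c, hc⟩ : ∃ c, c = b - a := ⟨_, rfl⟩
  have hc0 : 0 < c := by rw [hc]; linarith
  set G : ℝ → ℝ := fun u => u ^ (x - 1) * (1 - u) ^ (y - 1) with hG
  have hGi : IntervalIntegrable G volume 0 1 := by
    rw [intervalIntegrable_iff_integrableOn_Ioo_of_le zero_le_one]
    exact h1
  have hGv : ∫ u in (0 : ℝ)..1, G u = bet x y := by
    rw [intervalIntegral.integral_of_le zero_le_one, integral_Ioc_eq_integral_Ioo]
    exact h2
  have hF : ∀ t ∈ Set.Ioo a b, (t - a) ^ (x - 1) * (b - t) ^ (y - 1)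
      = c ^ (x + y - 2) * G (c⁻¹ * (t - a)) := by
    intro t ht
    have e1 : t - a = c * (c⁻¹ * (t - a)) := by
      rw [← mul_assoc, mul_inv_cancel₀ hc0.ne', one_mul]
    have e2 : b - t = c * (1 - c⁻¹ * (t - a)) := by
      rw [mul_sub, ← mul_assoc, mul_inv_cancel₀ hc0.ne', one_mul, mul_one, hc]
      ring
    have h3 : 0 ≤ c⁻¹ * (t - a) := by
      have := ht.1
      have h4 := inv_pos.2 hc0
      exact mul_nonneg h4.le (by linarith)
    have h4 : 0 ≤ 1 - c⁻¹ * (t - a) := by
      have h5 := ht.2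
      have h6 : c * (1 - c⁻¹ * (t - a)) = b - t := e2.symm
      by_contra h7
      push Not at h7
      have := mul_neg_of_pos_of_neg hc0 h7
      linarith
    calc (t - a) ^ (x - 1) * (b - t) ^ (y - 1)
        = (c * (c⁻¹ * (t - a))) ^ (x - 1) * (c * (1 - c⁻¹ * (t - a))) ^ (y - 1) := by
          rw [← e1, ← e2]
      _ = (c ^ (x - 1) * (c⁻¹ * (t - a)) ^ (x - 1)) *
          (c ^ (y - 1) * (1 - c⁻¹ * (t - a)) ^ (y - 1)) := by
          rw [Real.mul_rpow hc0.le h3, Real.mul_rpow hc0.le h4]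
      _ = c ^ (x + y - 2) * G (c⁻¹ * (t - a)) := by
          have : c ^ (x + y - 2) = c ^ (x - 1) * c ^ (y - 1) := by
            rw [← Real.rpow_add hc0]
            congr 1
            ring
          rw [this, hG]
          ring
  have hH : IntervalIntegrable (fun t => G (c⁻¹ * (t - a))) volume a b := by
    have h3 := (hGi.comp_mul_left (c := c⁻¹)).comp_sub_right a
    have e1 : 0 / c⁻¹ + a = a := by rw [zero_div, zero_add]
    have e2 : 1 / c⁻¹ + a = b := by rw [one_div, inv_inv, hc]; ring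
    rw [e1, e2] at h3
    exact h3
  refine ⟨?_, ?_⟩
  · have h3 : IntegrableOn (fun t => c ^ (x + y - 2) * G (c⁻¹ * (t - a))) (Set.Ioo a b) := by
      rw [intervalIntegrable_iff_integrableOn_Ioo_of_le hab.le] at hH
      exact hH.const_mul _
    exact h3.congr_fun (fun t ht => (hF t ht).symm) measurableSet_Ioo
  · rw [setIntegral_congr_fun measurableSet_Ioo hF, ← integral_Ioc_eq_integral_Ioo,
      ← intervalIntegral.integral_of_le hab.le, intervalIntegral.integral_const_mul]
    have h3 : ∫ t in a..b, G (c⁻¹ * (t - a)) = c * bet x y := by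
      rw [intervalIntegral.integral_comp_sub_right (fun s => G (c⁻¹ * s)) a, sub_self, ← hc,
        intervalIntegral.integral_comp_mul_left G (inv_ne_zero hc0.ne'), inv_inv, mul_zero,
        inv_mul_cancel₀ hc0.ne', hGv, smul_eq_mul]
    rw [h3, ← hc]
    have : c ^ (x + y - 1) = c ^ (x + y - 2) * c := by
      rw [← Real.rpow_add_one hc0.ne']
      congr 1
      ring
    rw [this]
    ring

private theorem BIO_rpow {k : IntermediateField ℚ ℝ} (hk : RC k) {c : ℝ} (hc : c ∈ k) (hc0 : 0 < c)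
    (r : ℚ) : c ^ (r : ℝ) ∈ k := by
  apply hk.cl
  have h1 : (c ^ (r : ℝ)) ^ r.den = c ^ r.num := by
    rw [← Real.rpow_natCast, ← Real.rpow_mul hc0.le, ← Real.rpow_intCast]
    congr 1
    have : (r : ℝ) * (r.den : ℝ) = (r.num : ℝ) := by
      exact_mod_cast r.mul_den_eq_num
    exact this
  apply IsAlgebraic.of_pow (n := r.den) r.den_pos
  rw [h1]
  exact isAlgebraic_algebraMap (⟨c ^ r.num, zpow_mem hc _⟩ : k)

private theorem BIO_alg {k : IntermediateField ℚ ℝ} (hk : RC k) (α : RealAlg) : (α : ℝ) ∈ k := by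
  apply hk.cl
  have h1 : IsAlgebraic ℚ (α : ℝ) := by
    exact (mem_algebraicClosure_iff (F := ℚ) (E := ℝ)).1 α.2
  exact h1.tower_top k

private theorem BIO_ew (p q : ℚ) (m n : ℕ) : ew (p + m) (q + n) = ew p q := by
  unfold ew
  rw [Int.fract_add_natCast, Int.fract_add_natCast]

private theorem BIO_eh (p q : ℚ) (m n : ℕ) : eh (p + m) (q + n) = eh p q := by
  unfold eh
  rw [Int.fract_add_natCast, Int.fract_add_natCast]

theorem thm_BIO (hBIN : St_BIN) (hBVL : St_BVL) : St_BIO := by
  intro N hN k hk P p q a b hp hq ha hb hab hint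
  classical
  by_cases hP : P = 0
  · refine ⟨0, k.zero_mem, ?_⟩
    have h1 : (fun t : ℝ => (t - a) ^ (p : ℝ) * (b - t) ^ (q : ℝ) * (up k P).eval t)
        = fun _ => 0 := by
      funext t
      rw [hP]
      unfold up
      simp
    rw [h1, zero_mul]
    simp
  let a' : k := ⟨a, ha⟩
  let b' : k := ⟨b, hb⟩
  obtain ⟨P1, hP1, hP1a⟩ := Polynomial.exists_eq_pow_rootMultiplicity_mul_and_not_dvd P hP a'
  set i : ℕ := Polynomial.rootMultiplicity a' P with hi
  have hP10 : P1 ≠ 0 := by
    rintro rfl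
    rw [mul_zero] at hP1
    exact hP hP1
  obtain ⟨P2, hP2, hP2b⟩ := Polynomial.exists_eq_pow_rootMultiplicity_mul_and_not_dvd P1 hP10 b'
  set j : ℕ := Polynomial.rootMultiplicity b' P1 with hj
  have hev : ∀ (Q : Polynomial k) (c : k), (up k Q).eval (c : ℝ) = ((Q.eval c : k) : ℝ) := by
    intro Q c
    unfold up
    rw [Polynomial.eval_map]
    exact Polynomial.eval₂_at_apply (algebraMap k ℝ) c
  have hP2b' : (up k P2).eval b ≠ 0 := by
    intro h
    apply hP2b
    rw [Polynomial.dvd_iff_isRoot]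
    have h1 := hev P2 b'
    have h2 : ((P2.eval b' : k) : ℝ) = 0 := h1.symm.trans h
    exact_mod_cast h2
  have hP2a' : (up k P2).eval a ≠ 0 := by
    intro h
    apply hP1a
    have h1 := hev P2 a'
    have h2 : ((P2.eval a' : k) : ℝ) = 0 := h1.symm.trans h
    have h3 : P2.eval a' = 0 := by exact_mod_cast h2
    rw [hP2, Polynomial.dvd_iff_isRoot, Polynomial.IsRoot, Polynomial.eval_mul, h3, mul_zero]
  have hval : ∀ t : ℝ, (up k P).eval t = (t - a) ^ i * ((t - b) ^ j * (up k P2).eval t) := by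
    intro t
    have h1 : up k P = (Polynomial.X - Polynomial.C a) ^ i *
        ((Polynomial.X - Polynomial.C b) ^ j * up k P2) := by
      rw [hP1, hP2]
      unfold up
      rw [Polynomial.map_mul, Polynomial.map_mul, Polynomial.map_pow, Polynomial.map_pow,
        Polynomial.map_sub, Polynomial.map_sub, Polynomial.map_X, Polynomial.map_C,
        Polynomial.map_C]
      rfl
    rw [h1]
    simp only [Polynomial.eval_mul, Polynomial.eval_pow, Polynomial.eval_sub, Polynomial.eval_X,
      Polynomial.eval_C]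
  -- the integrand
  have hf : ∀ t ∈ Set.Ioo a b, (t - a) ^ (p : ℝ) * (b - t) ^ (q : ℝ) * (up k P).eval t
      = (t - a) ^ ((p : ℝ) + i) * ((b - t) ^ ((q : ℝ) + j) * ((-1) ^ j * (up k P2).eval t)) := by
    intro t ht
    have h1 : 0 < t - a := by linarith [ht.1]
    have h2 : 0 < b - t := by linarith [ht.2]
    rw [hval, Real.rpow_add_natCast h1.ne', Real.rpow_add_natCast h2.ne']
    have h3 : (t - b) ^ j = (-1) ^ j * (b - t) ^ j := by
      rw [← mul_pow]
      congr 1
      ring
    rw [h3]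
    ring
  have hint1 : IntegrableOn (fun t : ℝ => (t - a) ^ ((p : ℝ) + i) *
      ((b - t) ^ ((q : ℝ) + j) * ((-1) ^ j * (up k P2).eval t))) (Set.Ioo a b) :=
    hint.congr_fun hf measurableSet_Ioo
  have hpi : -1 < (p : ℝ) + i := by
    refine BIO_left hab ?_ ?_ hint1
    · refine ContinuousAt.mul ?_ (continuousAt_const.mul (Polynomial.continuous _).continuousAt)
      exact (continuousAt_const.sub continuousAt_id).rpow_const (Or.inl (by
        show b - a ≠ 0
        linarith))
    · refine mul_ne_zero (Real.rpow_pos_of_pos (by linarith) _).ne' ?_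
      exact mul_ne_zero (pow_ne_zero _ (by norm_num)) hP2a'
  have hqj : -1 < (q : ℝ) + j := by
    have hint2 : IntegrableOn (fun t : ℝ => (b - t) ^ ((q : ℝ) + j) *
        ((t - a) ^ ((p : ℝ) + i) * ((-1) ^ j * (up k P2).eval t))) (Set.Ioo a b) := by
      refine hint1.congr_fun (fun t _ => ?_) measurableSet_Ioo
      ring
    refine BIO_right hab ?_ ?_ hint2
    · refine ContinuousAt.mul ?_ (continuousAt_const.mul (Polynomial.continuous _).continuousAt)
      exact (continuousAt_id.sub continuousAt_const).rpow_const (Or.inl (by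
        show b - a ≠ 0
        linarith))
    · refine mul_ne_zero (Real.rpow_pos_of_pos (by linarith) _).ne' ?_
      exact mul_ne_zero (pow_ne_zero _ (by norm_num)) hP2b'
  -- Taylor expansion
  obtain ⟨T, hT⟩ : ∃ T : Polynomial k, T = P2.comp (Polynomial.X + Polynomial.C a') := ⟨_, rfl⟩
  have hTv : ∀ t : ℝ, (up k P2).eval t
      = ∑ l ∈ Finset.range (T.natDegree + 1), ((T.coeff l : k) : ℝ) * (t - a) ^ l := by
    intro t
    have h1 : (up k P2).eval t = (up k T).eval (t - a) := by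
      rw [hT]
      unfold up
      rw [Polynomial.map_comp, Polynomial.eval_comp, Polynomial.map_add, Polynomial.map_X,
        Polynomial.map_C, Polynomial.eval_add, Polynomial.eval_X, Polynomial.eval_C]
      have : t - a + (algebraMap k ℝ) a' = t := by
        show t - a + a = t
        ring
      rw [this]
    rw [h1]
    unfold up
    rw [Polynomial.eval_map, Polynomial.eval₂_eq_sum_range]
    rfl
  have hterm : ∀ l : ℕ, IntegrableOn (fun t : ℝ => (t - a) ^ ((p : ℝ) + i + l + 1 - 1) *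
        (b - t) ^ ((q : ℝ) + j + 1 - 1)) (Set.Ioo a b) ∧
      ∃ v ∈ k, ∫ t in Set.Ioo a b, (t - a) ^ ((p : ℝ) + i + l + 1 - 1) *
        (b - t) ^ ((q : ℝ) + j + 1 - 1) = v * (per N ^ ew p q * qer N ^ eh p q) := by
    intro l
    have hl : (0 : ℝ) ≤ l := Nat.cast_nonneg l
    obtain ⟨h1, h2⟩ := BIO_term hBIN (a := a) (b := b) (x := (p : ℝ) + i + l + 1)
      (y := (q : ℝ) + j + 1) hab (by linarith) (by linarith)
    refine ⟨h1, ?_⟩
    obtain ⟨x, hx⟩ : ∃ x : ℚ, x = p + ((i + l + 1 : ℕ) : ℚ) := ⟨_, rfl⟩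
    obtain ⟨y, hy⟩ : ∃ y : ℚ, y = q + ((j + 1 : ℕ) : ℚ) := ⟨_, rfl⟩
    have hx' : (x : ℝ) = (p : ℝ) + i + l + 1 := by
      rw [hx]
      push_cast
      ring
    have hy' : (y : ℝ) = (q : ℝ) + j + 1 := by
      rw [hy]
      push_cast
      ring
    have hx0 : 0 < x := by
      have : (0 : ℝ) < (x : ℝ) := by rw [hx']; linarith
      exact_mod_cast this
    have hy0 : 0 < y := by
      have : (0 : ℝ) < (y : ℝ) := by rw [hy']; linarith
      exact_mod_cast this
    obtain ⟨z1, hz1⟩ := hp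
    obtain ⟨z2, hz2⟩ := hq
    obtain ⟨α, hα⟩ := hBVL N hN x y
      ⟨z1 + ((i + l + 1 : ℕ) : ℤ) * N, by rw [hx, add_mul, hz1]; push_cast; ring⟩
      ⟨z2 + ((j + 1 : ℕ) : ℤ) * N, by rw [hy, add_mul, hz2]; push_cast; ring⟩ hx0 hy0
    have hc : b - a ∈ k := k.sub_mem hb ha
    refine ⟨(b - a) ^ (((x + y - 1 : ℚ)) : ℝ) * α,
      k.mul_mem (BIO_rpow hk hc (by linarith) _) (BIO_alg hk α), ?_⟩
    rw [h2, ← hx', ← hy', hα, hx, hy, BIO_ew, BIO_eh]
    push_cast
    ring
  choose hi1 v hvk hv using hterm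
  have hsum : ∀ t ∈ Set.Ioo a b, (t - a) ^ (p : ℝ) * (b - t) ^ (q : ℝ) * (up k P).eval t
      = ∑ l ∈ Finset.range (T.natDegree + 1), ((-1) ^ j * ((T.coeff l : k) : ℝ)) *
        ((t - a) ^ ((p : ℝ) + i + l + 1 - 1) * (b - t) ^ ((q : ℝ) + j + 1 - 1)) := by
    intro t ht
    have h1 : 0 < t - a := by linarith [ht.1]
    rw [hf t ht, hTv, Finset.mul_sum, Finset.mul_sum, Finset.mul_sum]
    apply Finset.sum_congr rfl
    intro l _
    have e1 : (p : ℝ) + i + l + 1 - 1 = ((p : ℝ) + i) + l := by ring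
    have e2 : (q : ℝ) + j + 1 - 1 = (q : ℝ) + j := by ring
    have e3 : (t - a) ^ (((p : ℝ) + i) + l) = (t - a) ^ ((p : ℝ) + i) * (t - a) ^ l :=
      Real.rpow_add_natCast h1.ne' _ _
    rw [e1, e2, e3]
    ring
  refine ⟨∑ l ∈ Finset.range (T.natDegree + 1), ((-1) ^ j * ((T.coeff l : k) : ℝ)) * v l, ?_, ?_⟩
  · apply k.sum_mem
    intro l _
    apply k.mul_mem _ (hvk l)
    apply k.mul_mem _ (T.coeff l).2
    exact k.pow_mem (k.neg_mem k.one_mem) j
  · rw [setIntegral_congr_fun measurableSet_Ioo hsum, integral_finsetSum]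
    · rw [Finset.sum_mul]
      apply Finset.sum_congr rfl
      intro l _
      rw [integral_const_mul, hv]
      ring
    · intro l _
      exact (hi1 l).const_mul _

end Pool.Agent.QP
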