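import Pool.Agent.QP.StB

/-!
# Quarter periods: [BVL], the values of the beta function at quarters and sixths
-/

set_option autoImplicit false

open MeasureTheory Filter Topology

namespace Pool.Agent.QP

open Pool.Agent.ITR Pool.Agent.Helper23.PeriodDefs

/-- equal up to a nonzero algebraic factor -/
private def BVL_R (u v : ℝ) : Prop := ∃ a : ℝ, IsAlgebraic ℚ a ∧ a ≠ 0 ∧ u = a * v

private theorem BVL_R.refl (u : ℝ) : BVL_R u u := ⟨1, isAlgebraic_one, one_ne_zero, (one_mul u).symm⟩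

private theorem BVL_R.symm {u v : ℝ} (h : BVL_R u v) : BVL_R v u := by
  obtain ⟨a, ha, ha0, rfl⟩ := h
  exact ⟨a⁻¹, ha.inv, inv_ne_zero ha0, by rw [inv_mul_cancel_left₀ ha0]⟩

private theorem BVL_R.trans {u v w : ℝ} (h : BVL_R u v) (h' : BVL_R v w) : BVL_R u w := by
  obtain ⟨a, ha, ha0, rfl⟩ := h
  obtain ⟨b, hb, hb0, rfl⟩ := h'
  exact ⟨a * b, ha.mul hb, mul_ne_zero ha0 hb0, by ring⟩

private theorem BVL_R.mul {u v u' v' : ℝ} (h : BVL_R u v) (h' : BVL_R u' v') :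
    BVL_R (u * u') (v * v') := by
  obtain ⟨a, ha, ha0, rfl⟩ := h
  obtain ⟨b, hb, hb0, rfl⟩ := h'
  exact ⟨a * b, ha.mul hb, mul_ne_zero ha0 hb0, by ring⟩

private theorem BVL_R.div {u v u' v' : ℝ} (h : BVL_R u v) (h' : BVL_R u' v') :
    BVL_R (u / u') (v / v') := by
  obtain ⟨a, ha, ha0, rfl⟩ := h
  obtain ⟨b, hb, hb0, rfl⟩ := h'
  refine ⟨a * b⁻¹, ha.mul hb.inv, mul_ne_zero ha0 (inv_ne_zero hb0), ?_⟩
  rw [mul_div_mul_comm, div_eq_mul_inv a b]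

private theorem BVL_R.pow {u v : ℝ} (h : BVL_R u v) (n : ℕ) : BVL_R (u ^ n) (v ^ n) := by
  obtain ⟨a, ha, ha0, rfl⟩ := h
  exact ⟨a ^ n, ha.pow n, pow_ne_zero n ha0, mul_pow a v n⟩

/-- exponents -/
private def BVL_E (N k : ℕ) : ℤ :=
  if N = 4 then (if k % 4 = 1 then 1 else if k % 4 = 3 then -1 else 0)
  else (if k % 6 = 1 then 2 else if k % 6 = 2 then 1 else if k % 6 = 4 then -1
    else if k % 6 = 5 then -2 else 0)

/-- exponents -/
private def BVL_F (N k : ℕ) : ℤ :=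
  if N = 4 then (if k % 4 = 2 then 1 else if k % 4 = 3 then 2 else 0)
  else (if k % 6 = 1 then -1 else if k % 6 = 3 then 1 else if k % 6 = 4 then 2
    else if k % 6 = 5 then 3 else 0)

private noncomputable def BVL_b (N : ℕ) : ℝ :=
  if N = 4 then Real.Gamma (1 / 4) else Real.Gamma (1 / 3)

private theorem BVL_b_pos (N : ℕ) : 0 < BVL_b N := by
  unfold BVL_b
  split_ifs
  · exact Real.Gamma_pos_of_pos (by norm_num)
  · exact Real.Gamma_pos_of_pos (by norm_num)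

private theorem BVL_s_pos : 0 < √Real.pi := Real.sqrt_pos.2 Real.pi_pos

private theorem BVL_sq : √Real.pi ^ 2 = Real.pi := Real.sq_sqrt Real.pi_pos.le

private theorem BVL_alg_sqrt (n : ℕ) : IsAlgebraic ℚ (√(n : ℝ)) := by
  refine IsAlgebraic.of_pow (n := 2) (by norm_num) ?_
  rw [Real.sq_sqrt (Nat.cast_nonneg n)]
  exact isAlgebraic_natCast n

private theorem BVL_alg_two (p : ℝ) (k : ℕ) (hk : 0 < k) (m : ℕ) (h : p * k = m) :
    IsAlgebraic ℚ ((2 : ℝ) ^ p) := by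
  refine IsAlgebraic.of_pow hk ?_
  rw [← Real.rpow_mul_natCast (by norm_num), h, Real.rpow_natCast]
  exact (isAlgebraic_natCast (R := ℚ) (A := ℝ) 2).pow m

private theorem BVL_refl_quarter :
    BVL_R (Real.Gamma (3 / 4)) (Real.Gamma (1 / 4) ^ (-1 : ℤ) * √Real.pi ^ (2 : ℤ)) := by
  have h := Real.Gamma_mul_Gamma_one_sub (1 / 4)
  have h1 : Real.pi * (1 / 4) = Real.pi / 4 := by ring
  have h2 : (1 : ℝ) - 1 / 4 = 3 / 4 := by norm_num
  rw [h1, h2, Real.sin_pi_div_four] at h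
  have hA : Real.Gamma (1 / 4) ≠ 0 := (Real.Gamma_pos_of_pos (by norm_num)).ne'
  have h2' : √(2 : ℝ) ≠ 0 := by positivity
  refine ⟨(√(2 : ℝ) / 2)⁻¹, ?_, by positivity, ?_⟩
  · have h3 : IsAlgebraic ℚ (√((2 : ℕ) : ℝ)) := BVL_alg_sqrt 2
    have h4 : IsAlgebraic ℚ ((2 : ℕ) : ℝ) := isAlgebraic_natCast 2
    have h5 := (h3.mul h4.inv).inv
    have h6 : (√((2 : ℕ) : ℝ) * ((2 : ℕ) : ℝ)⁻¹)⁻¹ = (√(2 : ℝ) / 2)⁻¹ := by
      push_cast
      rw [div_eq_mul_inv]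
    rwa [h6] at h5
  · rw [zpow_neg_one, show ((2 : ℤ)) = ((2 : ℕ) : ℤ) from rfl, zpow_natCast, BVL_sq]
    field_simp at h ⊢
    linarith

private theorem BVL_refl_third :
    BVL_R (Real.Gamma (2 / 3)) (Real.Gamma (1 / 3) ^ (-1 : ℤ) * √Real.pi ^ (2 : ℤ)) := by
  have h := Real.Gamma_mul_Gamma_one_sub (1 / 3)
  have h1 : Real.pi * (1 / 3) = Real.pi / 3 := by ring
  have h2 : (1 : ℝ) - 1 / 3 = 2 / 3 := by norm_num
  rw [h1, h2, Real.sin_pi_div_three] at h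
  have hA : Real.Gamma (1 / 3) ≠ 0 := (Real.Gamma_pos_of_pos (by norm_num)).ne'
  have h2' : √(3 : ℝ) ≠ 0 := by positivity
  refine ⟨(√(3 : ℝ) / 2)⁻¹, ?_, by positivity, ?_⟩
  · have h3 : IsAlgebraic ℚ (√((3 : ℕ) : ℝ)) := BVL_alg_sqrt 3
    have h4 : IsAlgebraic ℚ ((2 : ℕ) : ℝ) := isAlgebraic_natCast 2
    have h5 := (h3.mul h4.inv).inv
    have h6 : (√((3 : ℕ) : ℝ) * ((2 : ℕ) : ℝ)⁻¹)⁻¹ = (√(3 : ℝ) / 2)⁻¹ := by
      push_cast
      rw [div_eq_mul_inv]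
    rwa [h6] at h5
  · rw [zpow_neg_one, show ((2 : ℤ)) = ((2 : ℕ) : ℤ) from rfl, zpow_natCast, BVL_sq]
    field_simp at h ⊢
    linarith

private theorem BVL_sixth :
    BVL_R (Real.Gamma (1 / 6)) (Real.Gamma (1 / 3) ^ (2 : ℤ) * √Real.pi ^ (-1 : ℤ)) := by
  have h := Real.Gamma_mul_Gamma_add_half (1 / 6)
  have h1 : (1 : ℝ) / 6 + 1 / 2 = 2 / 3 := by norm_num
  have h2 : (2 : ℝ) * (1 / 6) = 1 / 3 := by norm_num
  have h3 : (1 : ℝ) - 1 / 3 = 2 / 3 := by norm_num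
  rw [h1, h2, h3] at h
  have hH : Real.Gamma (2 / 3) ≠ 0 := (Real.Gamma_pos_of_pos (by norm_num)).ne'
  have hG : Real.Gamma (1 / 3) ≠ 0 := (Real.Gamma_pos_of_pos (by norm_num)).ne'
  have hs : √Real.pi ≠ 0 := BVL_s_pos.ne'
  have h4 : BVL_R (Real.Gamma (1 / 6)) (Real.Gamma (1 / 3) * √Real.pi / Real.Gamma (2 / 3)) := by
    refine ⟨(2 : ℝ) ^ ((2 : ℝ) / 3), BVL_alg_two _ 3 (by norm_num) 2 (by norm_num), by positivity, ?_⟩
    field_simp
    linarith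
  refine h4.trans (((BVL_R.refl _).div BVL_refl_third).trans ?_)
  have h5 : Real.Gamma (1 / 3) * √Real.pi /
      (Real.Gamma (1 / 3) ^ (-1 : ℤ) * √Real.pi ^ (2 : ℤ)) =
      Real.Gamma (1 / 3) ^ (2 : ℤ) * √Real.pi ^ (-1 : ℤ) := by
    rw [zpow_neg_one, zpow_neg_one, show ((2 : ℤ)) = ((2 : ℕ) : ℤ) from rfl, zpow_natCast,
      zpow_natCast]
    field_simp
  rw [h5]
  exact BVL_R.refl _

private theorem BVL_fivesixths :
    BVL_R (Real.Gamma (5 / 6)) (Real.Gamma (1 / 3) ^ (-2 : ℤ) * √Real.pi ^ (3 : ℤ)) := by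
  have h := Real.Gamma_mul_Gamma_add_half (1 / 3)
  have h1 : (1 : ℝ) / 3 + 1 / 2 = 5 / 6 := by norm_num
  have h2 : (2 : ℝ) * (1 / 3) = 2 / 3 := by norm_num
  have h3 : (1 : ℝ) - 2 / 3 = 1 / 3 := by norm_num
  rw [h1, h2, h3] at h
  have hG : Real.Gamma (1 / 3) ≠ 0 := (Real.Gamma_pos_of_pos (by norm_num)).ne'
  have hs : √Real.pi ≠ 0 := BVL_s_pos.ne'
  have h4 : BVL_R (Real.Gamma (5 / 6)) (Real.Gamma (2 / 3) * (√Real.pi / Real.Gamma (1 / 3))) := by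
    refine ⟨(2 : ℝ) ^ ((1 : ℝ) / 3), BVL_alg_two _ 3 (by norm_num) 1 (by norm_num), by positivity, ?_⟩
    field_simp
    linarith
  refine h4.trans ((BVL_refl_third.mul (BVL_R.refl _)).trans ?_)
  have h5 : Real.Gamma (1 / 3) ^ (-1 : ℤ) * √Real.pi ^ (2 : ℤ) *
      (√Real.pi / Real.Gamma (1 / 3)) =
      Real.Gamma (1 / 3) ^ (-2 : ℤ) * √Real.pi ^ (3 : ℤ) := by
    rw [zpow_neg, zpow_neg, zpow_one, show ((2 : ℤ)) = ((2 : ℕ) : ℤ) from rfl,
      show ((3 : ℤ)) = ((3 : ℕ) : ℤ) from rfl, zpow_natCast, zpow_natCast, zpow_natCast]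
    field_simp
  rw [h5]
  exact BVL_R.refl _

private theorem BVL_add (N k : ℕ) (hN : 0 < N) (hk : 0 < k) :
    BVL_R (Real.Gamma (((k + N : ℕ) : ℝ) / N)) (Real.Gamma ((k : ℝ) / N)) := by
  have hN' : (N : ℝ) ≠ 0 := by positivity
  have h1 : ((k + N : ℕ) : ℝ) / N = (k : ℝ) / N + 1 := by
    push_cast
    field_simp
  have h2 : (k : ℝ) / N ≠ 0 := by positivity
  rw [h1, Real.Gamma_add_one h2]
  exact ⟨_, (isAlgebraic_natCast (R := ℚ) (A := ℝ) k).mul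
    (isAlgebraic_natCast (R := ℚ) (A := ℝ) N).inv, h2, rfl⟩

private theorem BVL_gam (N : ℕ) (hN : N = 4 ∨ N = 6) : ∀ k : ℕ, 0 < k →
    BVL_R (Real.Gamma ((k : ℝ) / N)) (BVL_b N ^ BVL_E N k * √Real.pi ^ BVL_F N k) := by
  have hN0 : 0 < N := by rcases hN with h | h <;> omega
  intro k
  induction k using Nat.strong_induction_on with
  | _ k ih =>
    intro hk
    by_cases hkN : k ≤ N
    · rcases hN with rfl | rfl
      · have h4 : k = 1 ∨ k = 2 ∨ k = 3 ∨ k = 4 := by omega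
        rcases h4 with rfl | rfl | rfl | rfl
        · simp only [BVL_E, BVL_F, BVL_b]
          norm_num
          exact BVL_R.refl _
        · simp only [BVL_E, BVL_F, BVL_b]
          norm_num
          rw [show (1 : ℝ) / 2 = 1 / 2 from rfl, Real.Gamma_one_half_eq]
          exact BVL_R.refl _
        · have := BVL_refl_quarter
          simp only [BVL_E, BVL_F, BVL_b]
          norm_num at this ⊢
          exact this
        · simp only [BVL_E, BVL_F, BVL_b]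
          norm_num
          exact BVL_R.refl _
      · have h6 : k = 1 ∨ k = 2 ∨ k = 3 ∨ k = 4 ∨ k = 5 ∨ k = 6 := by omega
        rcases h6 with rfl | rfl | rfl | rfl | rfl | rfl
        · have := BVL_sixth
          simp only [BVL_E, BVL_F, BVL_b]
          norm_num at this ⊢
          exact this
        · simp only [BVL_E, BVL_F, BVL_b]
          norm_num
          exact BVL_R.refl _
        · simp only [BVL_E, BVL_F, BVL_b]
          norm_num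
          rw [show (1 : ℝ) / 2 = 1 / 2 from rfl, Real.Gamma_one_half_eq]
          exact BVL_R.refl _
        · have := BVL_refl_third
          simp only [BVL_E, BVL_F, BVL_b]
          norm_num at this ⊢
          exact this
        · have := BVL_fivesixths
          simp only [BVL_E, BVL_F, BVL_b]
          norm_num at this ⊢
          exact this
        · simp only [BVL_E, BVL_F, BVL_b]
          norm_num
          exact BVL_R.refl _
    · obtain ⟨l, rfl⟩ : ∃ l, k = l + N := ⟨k - N, by omega⟩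
      have hl : 0 < l := by omega
      have h1 := ih l (by omega) hl
      have h2 : BVL_E N (l + N) = BVL_E N l := by
        rcases hN with rfl | rfl <;> simp [BVL_E, Nat.add_mod_right]
      have h3 : BVL_F N (l + N) = BVL_F N l := by
        rcases hN with rfl | rfl <;> simp [BVL_F, Nat.add_mod_right]
      rw [h2, h3]
      exact (BVL_add N l hN0 hl).trans h1

private theorem BVL_bet (N : ℕ) (hN : N = 4 ∨ N = 6) (j k : ℕ) (hj : 0 < j) (hk : 0 < k) :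
    BVL_R (bet ((j : ℝ) / N) ((k : ℝ) / N))
      (BVL_b N ^ (BVL_E N j + BVL_E N k - BVL_E N (j + k)) *
        √Real.pi ^ (BVL_F N j + BVL_F N k - BVL_F N (j + k))) := by
  have hb := (BVL_b_pos N).ne'
  have hs := BVL_s_pos.ne'
  have h1 := ((BVL_gam N hN j hj).mul (BVL_gam N hN k hk)).div (BVL_gam N hN (j + k) (by omega))
  have h2 : bet ((j : ℝ) / N) ((k : ℝ) / N) =
      Real.Gamma ((j : ℝ) / N) * Real.Gamma ((k : ℝ) / N) / Real.Gamma (((j + k : ℕ) : ℝ) / N) := by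
    unfold bet
    congr 2
    push_cast
    ring
  rw [h2]
  refine h1.trans ?_
  rw [zpow_sub₀ hb, zpow_add₀ hb, zpow_sub₀ hs, zpow_add₀ hs]
  have h3 : BVL_b N ^ BVL_E N j * √Real.pi ^ BVL_F N j *
      (BVL_b N ^ BVL_E N k * √Real.pi ^ BVL_F N k) /
      (BVL_b N ^ BVL_E N (j + k) * √Real.pi ^ BVL_F N (j + k)) =
      BVL_b N ^ BVL_E N j * BVL_b N ^ BVL_E N k / BVL_b N ^ BVL_E N (j + k) *
      (√Real.pi ^ BVL_F N j * √Real.pi ^ BVL_F N k / √Real.pi ^ BVL_F N (j + k)) := by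
    rw [mul_mul_mul_comm, mul_div_mul_comm]
  rw [h3]
  exact BVL_R.refl _

/-- the exponents of the two periods -/
private def BVL_x (N : ℕ) (i : Bool) : ℤ :=
  if N = 4 then (if i then 2 else -2) else (if i then 3 else -3)

private def BVL_y (N : ℕ) (i : Bool) : ℤ :=
  if N = 4 then (if i then -1 else 3) else (if i then -2 else 4)

private theorem BVL_per (N : ℕ) (hN : N = 4 ∨ N = 6) :
    BVL_R (per N) (BVL_b N ^ BVL_x N true * √Real.pi ^ BVL_y N true) := by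
  rcases hN with rfl | rfl
  · have h := BVL_bet 4 (Or.inl rfl) 1 2 (by norm_num) (by norm_num)
    simp only [BVL_E, BVL_F, BVL_x, BVL_y, per] at h ⊢
    norm_num at h ⊢
    exact h
  · have h := BVL_bet 6 (Or.inr rfl) 2 3 (by norm_num) (by norm_num)
    simp only [BVL_E, BVL_F, BVL_x, BVL_y, per] at h ⊢
    norm_num at h ⊢
    exact h

private theorem BVL_qer (N : ℕ) (hN : N = 4 ∨ N = 6) :
    BVL_R (qer N) (BVL_b N ^ BVL_x N false * √Real.pi ^ BVL_y N false) := by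
  rcases hN with rfl | rfl
  · have h := BVL_bet 4 (Or.inl rfl) 3 2 (by norm_num) (by norm_num)
    simp only [BVL_E, BVL_F, BVL_x, BVL_y, qer] at h ⊢
    norm_num at h ⊢
    exact h
  · have h := BVL_bet 6 (Or.inr rfl) 4 3 (by norm_num) (by norm_num)
    simp only [BVL_E, BVL_F, BVL_x, BVL_y, qer] at h ⊢
    norm_num at h ⊢
    exact h

private theorem BVL_table4 : ∀ a < 4, ∀ b < 4,
    (BVL_E 4 a + BVL_E 4 b - BVL_E 4 (a + b) =
      (if a ≠ 0 ∧ b ≠ 0 ∧ a + b ≤ 4 then 1 else 0) * 2 +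
      (if a ≠ 0 ∧ b ≠ 0 ∧ 4 ≤ a + b then 1 else 0) * (-2)) ∧
    (BVL_F 4 a + BVL_F 4 b - BVL_F 4 (a + b) =
      (if a ≠ 0 ∧ b ≠ 0 ∧ a + b ≤ 4 then 1 else 0) * (-1) +
      (if a ≠ 0 ∧ b ≠ 0 ∧ 4 ≤ a + b then 1 else 0) * 3) := by decide

private theorem BVL_table6 : ∀ a < 6, ∀ b < 6,
    (BVL_E 6 a + BVL_E 6 b - BVL_E 6 (a + b) =
      (if a ≠ 0 ∧ b ≠ 0 ∧ a + b ≤ 6 then 1 else 0) * 3 +
      (if a ≠ 0 ∧ b ≠ 0 ∧ 6 ≤ a + b then 1 else 0) * (-3)) ∧
    (BVL_F 6 a + BVL_F 6 b - BVL_F 6 (a + b) =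
      (if a ≠ 0 ∧ b ≠ 0 ∧ a + b ≤ 6 then 1 else 0) * (-2) +
      (if a ≠ 0 ∧ b ≠ 0 ∧ 6 ≤ a + b then 1 else 0) * 4) := by decide

private theorem BVL_modE (N : ℕ) (hN : N = 4 ∨ N = 6) (k l : ℕ) (h : k % N = l % N) :
    BVL_E N k = BVL_E N l ∧ BVL_F N k = BVL_F N l := by
  rcases hN with rfl | rfl <;> simp [BVL_E, BVL_F, h]

private theorem BVL_ewh (N j k : ℕ) (hN : 0 < N) :
    ew ((j : ℚ) / N) ((k : ℚ) / N) =
      (if j % N ≠ 0 ∧ k % N ≠ 0 ∧ j % N + k % N ≤ N then 1 else 0) ∧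
    eh ((j : ℚ) / N) ((k : ℚ) / N) =
      (if j % N ≠ 0 ∧ k % N ≠ 0 ∧ N ≤ j % N + k % N then 1 else 0) := by
  have hN' : (0 : ℚ) < N := by exact_mod_cast hN
  have hf : ∀ m : ℕ, Int.fract ((m : ℚ) / N) = ((m % N : ℕ) : ℚ) / N := fun m =>
    Int.fract_div_natCast_eq_div_natCast_mod
  have h0 : ∀ m : ℕ, Int.fract ((m : ℚ) / N) ≠ 0 ↔ m % N ≠ 0 := by
    intro m
    rw [hf, not_iff_not, div_eq_zero_iff]
    constructor
    · rintro (h | h)
      · exact_mod_cast h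
      · exact absurd h hN'.ne'
    · intro h
      left
      exact_mod_cast h
  have h1 : Int.fract ((j : ℚ) / N) + Int.fract ((k : ℚ) / N) ≤ 1 ↔ j % N + k % N ≤ N := by
    rw [hf, hf, ← add_div, div_le_one hN']
    norm_cast
  have h2 : 1 ≤ Int.fract ((j : ℚ) / N) + Int.fract ((k : ℚ) / N) ↔ N ≤ j % N + k % N := by
    rw [hf, hf, ← add_div, one_le_div hN']
    norm_cast
  constructor
  · unfold ew
    simp only [h0, h1]
  · unfold eh
    simp only [h0, h2]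

private theorem BVL_exp (N : ℕ) (hN : N = 4 ∨ N = 6) (j k : ℕ) :
    BVL_E N j + BVL_E N k - BVL_E N (j + k) =
      BVL_x N true * (ew ((j : ℚ) / N) ((k : ℚ) / N) : ℤ) +
      BVL_x N false * (eh ((j : ℚ) / N) ((k : ℚ) / N) : ℤ) ∧
    BVL_F N j + BVL_F N k - BVL_F N (j + k) =
      BVL_y N true * (ew ((j : ℚ) / N) ((k : ℚ) / N) : ℤ) +
      BVL_y N false * (eh ((j : ℚ) / N) ((k : ℚ) / N) : ℤ) := by
  have hN0 : 0 < N := by rcases hN with h | h <;> omega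
  obtain ⟨h1, h2⟩ := BVL_ewh N j k hN0
  obtain ⟨j1, j2⟩ := BVL_modE N hN j (j % N) (Nat.mod_mod _ _).symm
  obtain ⟨k1, k2⟩ := BVL_modE N hN k (k % N) (Nat.mod_mod _ _).symm
  obtain ⟨l1, l2⟩ := BVL_modE N hN (j + k) (j % N + k % N) (Nat.add_mod j k N)
  rw [h1, h2, j1, j2, k1, k2, l1, l2]
  have hj := Nat.mod_lt j hN0
  have hk := Nat.mod_lt k hN0
  rcases hN with rfl | rfl
  · obtain ⟨t1, t2⟩ := BVL_table4 _ hj _ hk
    have x1 : BVL_x 4 true = 2 := rfl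
    have x2 : BVL_x 4 false = -2 := rfl
    have y1 : BVL_y 4 true = -1 := rfl
    have y2 : BVL_y 4 false = 3 := rfl
    rw [t1, t2, x1, x2, y1, y2]
    constructor
    · split_ifs <;> simp
    · split_ifs <;> simp
  · obtain ⟨t1, t2⟩ := BVL_table6 _ hj _ hk
    have x1 : BVL_x 6 true = 3 := rfl
    have x2 : BVL_x 6 false = -3 := rfl
    have y1 : BVL_y 6 true = -2 := rfl
    have y2 : BVL_y 6 false = 4 := rfl
    rw [t1, t2, x1, x2, y1, y2]
    constructor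
    · split_ifs <;> simp
    · split_ifs <;> simp

theorem thm_BVL : St_BVL := by
  intro N hN x y ⟨z, hz⟩ ⟨z', hz'⟩ hx hy
  have hN0 : 0 < N := by rcases hN with h | h <;> omega
  have hNq : (0 : ℚ) < N := by exact_mod_cast hN0
  have hpos : ∀ (x : ℚ) (z : ℤ), x * N = z → 0 < x → ∃ j : ℕ, 0 < j ∧ x = (j : ℚ) / N := by
    intro x z hz hx
    have h1 : (0 : ℚ) < z := by
      rw [← hz]
      exact mul_pos hx hNq
    have h2 : 0 < z := by exact_mod_cast h1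
    obtain ⟨j, rfl⟩ := Int.eq_ofNat_of_zero_le h2.le
    refine ⟨j, by exact_mod_cast h2, ?_⟩
    rw [eq_div_iff hNq.ne', hz]
    norm_cast
  obtain ⟨j, hj, rfl⟩ := hpos x z hz hx
  obtain ⟨k, hk, rfl⟩ := hpos y z' hz' hy
  have hb := (BVL_b_pos N).ne'
  have hs := BVL_s_pos.ne'
  have h1 := BVL_bet N hN j k hj hk
  obtain ⟨e1, e2⟩ := BVL_exp N hN j k
  rw [e1, e2] at h1
  have h2 := ((BVL_per N hN).pow (ew ((j : ℚ) / N) ((k : ℚ) / N))).mul
    ((BVL_qer N hN).pow (eh ((j : ℚ) / N) ((k : ℚ) / N)))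
  have h3 : (BVL_b N ^ BVL_x N true * √Real.pi ^ BVL_y N true) ^
        ew ((j : ℚ) / N) ((k : ℚ) / N) *
      (BVL_b N ^ BVL_x N false * √Real.pi ^ BVL_y N false) ^
        eh ((j : ℚ) / N) ((k : ℚ) / N) =
      BVL_b N ^ (BVL_x N true * (ew ((j : ℚ) / N) ((k : ℚ) / N) : ℤ) +
        BVL_x N false * (eh ((j : ℚ) / N) ((k : ℚ) / N) : ℤ)) *
      √Real.pi ^ (BVL_y N true * (ew ((j : ℚ) / N) ((k : ℚ) / N) : ℤ) +
        BVL_y N false * (eh ((j : ℚ) / N) ((k : ℚ) / N) : ℤ)) := by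
    rw [zpow_add₀ hb, zpow_add₀ hs, zpow_mul, zpow_mul, zpow_mul, zpow_mul, zpow_natCast,
      zpow_natCast, zpow_natCast, zpow_natCast, mul_pow, mul_pow, mul_mul_mul_comm]
  rw [h3] at h2
  obtain ⟨a, ha, -, hab⟩ := h1.trans h2.symm
  refine ⟨⟨a, mem_algebraicClosure_iff.2 ha⟩, ?_⟩
  rw [← hab]
  push_cast
  rfl

end Pool.Agent.QP
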