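import Pool.Agent.QP.StB

/-!
# Quarter periods, part B, module DGM: diagonal polynomials
-/

set_option autoImplicit false

open MeasureTheory Filter Topology

namespace Pool.Agent.QP

open Pool.Agent.ITR Pool.Agent.Helper23.PeriodDefs

/-- the integral in one variable -/
private theorem DGM_one (hB : St_BIN) (c A β : ℝ) (d e : ℕ) (hc : 0 < c) (hA : 0 < A) (hβ : -1 < β)
    (hd : 0 < d) :
    Integrable (fun t : ℝ => {t : ℝ | 0 ≤ t ∧ c * t ^ d < A}.indicator
      (fun t => t ^ e * (A - c * t ^ d) ^ β) t) ∧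
    ∫ t : ℝ, {t : ℝ | 0 ≤ t ∧ c * t ^ d < A}.indicator
      (fun t => t ^ e * (A - c * t ^ d) ^ β) t =
      (1 / (d : ℝ) * c ^ (-(((e : ℝ) + 1) / d)) * bet (((e : ℝ) + 1) / d) (β + 1)) *
        A ^ (β + ((e : ℝ) + 1) / d) := by
  classical
  have hdR : (0 : ℝ) < d := Nat.cast_pos.2 hd
  set x : ℝ := ((e : ℝ) + 1) / d with hx
  have hx0 : 0 < x := by positivity
  obtain ⟨hb1, hb2, -⟩ := hB x (β + 1) hx0 (by linarith)
  have hAc : 0 < A / c := div_pos hA hc
  -- the functions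
  set f : ℝ → ℝ := fun t => {t : ℝ | 0 ≤ t ∧ c * t ^ d < A}.indicator
      (fun t => t ^ e * (A - c * t ^ d) ^ β) t with hf
  set g : ℝ → ℝ := fun y => {y : ℝ | c * y < A}.indicator
      (fun y => 1 / (d : ℝ) * y ^ (x - 1) * (A - c * y) ^ β) y with hg
  set k : ℝ → ℝ := fun u => (Set.Ioo (0 : ℝ) 1).indicator
      (fun u => u ^ (x - 1) * (1 - u) ^ ((β + 1) - 1)) u with hk
  have h1 : ∀ u ∈ Set.Ioi (0 : ℝ), g (A / c * u) =
      (1 / (d : ℝ) * (A / c) ^ (x - 1) * A ^ β) * k u := by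
    intro u hu
    have hu0 : (0 : ℝ) < u := hu
    by_cases hu1 : u < 1
    · have h2 : A / c * u ∈ {y : ℝ | c * y < A} := by
        change c * (A / c * u) < A
        have : c * (A / c * u) = A * u := by field_simp
        rw [this]
        nlinarith
      have h3 : u ∈ Set.Ioo (0 : ℝ) 1 := ⟨hu0, hu1⟩
      simp only [hg, hk]
      rw [Set.indicator_of_mem h2, Set.indicator_of_mem h3]
      have h4 : A - c * (A / c * u) = A * (1 - u) := by field_simp
      rw [h4, Real.mul_rpow hAc.le hu0.le, Real.mul_rpow hA.le (by linarith), add_sub_cancel_right]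
      ring
    · have h2 : A / c * u ∉ {y : ℝ | c * y < A} := by
        change ¬ c * (A / c * u) < A
        have : c * (A / c * u) = A * u := by field_simp
        rw [this]
        nlinarith
      have h3 : u ∉ Set.Ioo (0 : ℝ) 1 := fun h => hu1 h.2
      simp only [hg, hk]
      rw [Set.indicator_of_notMem h2, Set.indicator_of_notMem h3, mul_zero]
  have hkI : Integrable k := (integrable_indicator_iff measurableSet_Ioo).2 hb1
  have hkv : ∫ u in Set.Ioi (0 : ℝ), k u = bet x (β + 1) := by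
    rw [← hb2, ← integral_indicator measurableSet_Ioo, ← integral_indicator measurableSet_Ioi]
    congr 1
    funext u
    simp only [hk]
    by_cases hu : u ∈ Set.Ioi (0 : ℝ)
    · rw [Set.indicator_of_mem hu]
    · rw [Set.indicator_of_notMem hu, Set.indicator_of_notMem]
      exact fun h => hu h.1
  have hgI : IntegrableOn g (Set.Ioi 0) := by
    have h2 := integrableOn_Ioi_comp_mul_left_iff g 0 hAc
    rw [mul_zero] at h2
    refine h2.1 ?_
    refine IntegrableOn.congr_fun (f := fun u => (1 / (d : ℝ) * (A / c) ^ (x - 1) * A ^ β) * k u)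
      (hkI.integrableOn.const_mul _) (fun u hu => (h1 u hu).symm) measurableSet_Ioi
  have hgv : ∫ y in Set.Ioi (0 : ℝ), g y =
      (A / c) * ((1 / (d : ℝ) * (A / c) ^ (x - 1) * A ^ β) * bet x (β + 1)) := by
    have h2 := integral_comp_mul_left_Ioi g 0 hAc
    rw [mul_zero] at h2
    rw [setIntegral_congr_fun measurableSet_Ioi h1, integral_const_mul, hkv] at h2
    rw [h2, smul_eq_mul, ← mul_assoc, mul_inv_cancel₀ hAc.ne', one_mul]
  have h3 : ∀ t ∈ Set.Ioi (0 : ℝ), (|(d : ℝ)| * t ^ ((d : ℝ) - 1)) • g (t ^ (d : ℝ)) = f t := by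
    intro t ht
    have ht0 : (0 : ℝ) < t := ht
    rw [smul_eq_mul, abs_of_pos hdR, Real.rpow_natCast]
    by_cases h4 : c * t ^ d < A
    · have h5 : t ^ d ∈ {y : ℝ | c * y < A} := h4
      have h6 : t ∈ {t : ℝ | 0 ≤ t ∧ c * t ^ d < A} := ⟨ht0.le, h4⟩
      simp only [hf, hg]
      rw [Set.indicator_of_mem h5, Set.indicator_of_mem h6]
      have h7 : (d : ℝ) * t ^ ((d : ℝ) - 1) * (1 / (d : ℝ) * (t ^ d) ^ (x - 1)) = t ^ e := by
        have h8 : (t ^ d) ^ (x - 1) = t ^ ((d : ℝ) * (x - 1)) := by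
          rw [← Real.rpow_natCast, ← Real.rpow_mul ht0.le]
        have h9 : (d : ℝ) * t ^ ((d : ℝ) - 1) * (1 / (d : ℝ) * (t ^ d) ^ (x - 1)) =
            t ^ ((d : ℝ) - 1) * (t ^ d) ^ (x - 1) := by
          field_simp
        rw [h9, h8, ← Real.rpow_add ht0, ← Real.rpow_natCast]
        congr 1
        rw [hx]
        field_simp
        ring
      rw [← h7]
      ring
    · have h5 : t ^ d ∉ {y : ℝ | c * y < A} := h4
      have h6 : t ∉ {t : ℝ | 0 ≤ t ∧ c * t ^ d < A} := fun h => h4 h.2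
      simp only [hf, hg]
      rw [Set.indicator_of_notMem h5, Set.indicator_of_notMem h6, mul_zero]
  have hfI : IntegrableOn f (Set.Ioi 0) := by
    have h4 := (integrableOn_Ioi_comp_rpow_iff g hdR.ne').2 hgI
    exact h4.congr_fun h3 measurableSet_Ioi
  have hfv : ∫ t in Set.Ioi (0 : ℝ), f t =
      (A / c) * ((1 / (d : ℝ) * (A / c) ^ (x - 1) * A ^ β) * bet x (β + 1)) := by
    rw [← hgv, ← integral_comp_rpow_Ioi g hdR.ne']
    exact setIntegral_congr_fun measurableSet_Ioi fun t ht => (h3 t ht).symm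
  have hae : (Set.Ioi (0 : ℝ)).indicator f =ᵐ[volume] f := by
    have h4 : ∀ᵐ t : ℝ, t ≠ 0 := by
      rw [ae_iff]
      simp
    refine h4.mono fun t ht => ?_
    by_cases h5 : t ∈ Set.Ioi (0 : ℝ)
    · rw [Set.indicator_of_mem h5]
    · rw [Set.indicator_of_notMem h5]
      have h6 : t ∉ {t : ℝ | 0 ≤ t ∧ c * t ^ d < A} := fun h => h5 (lt_of_le_of_ne h.1 (Ne.symm ht))
      simp only [hf]
      rw [Set.indicator_of_notMem h6]
  refine ⟨((integrable_indicator_iff measurableSet_Ioi).2 hfI).congr hae, ?_⟩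
  rw [← integral_congr_ae hae, integral_indicator measurableSet_Ioi, hfv]
  have h7 : (A / c) ^ (x - 1) * (A / c) = A ^ x * c ^ (-x) := by
    have h8 := Real.rpow_add hAc (x - 1) 1
    rw [Real.rpow_one, sub_add_cancel] at h8
    rw [← h8, Real.div_rpow hA.le hc.le, Real.rpow_neg hc.le]
    rfl
  have h8 : A ^ (β + x) = A ^ β * A ^ x := Real.rpow_add hA _ _
  rw [h8]
  linear_combination (1 / (d : ℝ) * A ^ β * bet x (β + 1)) * h7

private theorem DGM_snoc (n : ℕ) (s : ℝ) (t : Fin n → ℝ) :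
    (MeasurableEquiv.piFinSuccAbove (fun _ : Fin (n + 1) => ℝ) (Fin.last n)).symm (s, t) =
      (Fin.snoc t s : Fin (n + 1) → ℝ) := by
  ext i
  refine Fin.lastCases ?_ (fun j => ?_) i
  · rw [Fin.snoc_last]
    exact Fin.insertNth_apply_same (α := fun _ => ℝ) (Fin.last n) s t
  · rw [Fin.snoc_castSucc]
    have h := Fin.insertNth_apply_succAbove (α := fun _ => ℝ) (Fin.last n) s t j
    rw [Fin.succAbove_last] at h
    exact h

/-- Tonelli for the last variable -/
private theorem DGM_ton (n : ℕ) (f : (Fin (n + 1) → ℝ) → ℝ) (hm : Measurable f) (h0 : ∀ x, 0 ≤ f x)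
    (g : (Fin n → ℝ) → ℝ) (h1 : ∀ y : Fin n → ℝ, Integrable (fun t : ℝ => f (Fin.snoc y t)))
    (h1' : ∀ y : Fin n → ℝ, ∫ t : ℝ, f (Fin.snoc y t) = g y) (hg : Integrable g) :
    Integrable f ∧ ∫ x, f x = ∫ y, g y := by
  have mp := (volume_preserving_piFinSuccAbove (fun _ : Fin (n + 1) => ℝ) (Fin.last n)).symm
  set e := MeasurableEquiv.piFinSuccAbove (fun _ : Fin (n + 1) => ℝ) (Fin.last n) with he
  have hfe : (fun z : ℝ × (Fin n → ℝ) => f (e.symm z)) =
      fun z : ℝ × (Fin n → ℝ) => f (Fin.snoc z.2 z.1) := by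
    funext z
    rw [he, ← DGM_snoc n z.1 z.2]
  have hz : Integrable (fun z : ℝ × (Fin n → ℝ) => f (Fin.snoc z.2 z.1))
      ((volume : Measure ℝ).prod (volume : Measure (Fin n → ℝ))) := by
    have hmz : AEStronglyMeasurable (fun z : ℝ × (Fin n → ℝ) => f (Fin.snoc z.2 z.1))
        ((volume : Measure ℝ).prod (volume : Measure (Fin n → ℝ))) := by
      rw [← hfe]
      exact (hm.comp e.symm.measurable).aestronglyMeasurable
    rw [integrable_prod_iff' hmz]
    refine ⟨Eventually.of_forall fun y => h1 y, ?_⟩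
    refine hg.congr (Eventually.of_forall fun y => ?_)
    change g y = ∫ t : ℝ, ‖f (Fin.snoc y t)‖
    rw [← h1' y]
    refine integral_congr_ae (Eventually.of_forall fun t => ?_)
    change f (Fin.snoc y t) = ‖f (Fin.snoc y t)‖
    rw [Real.norm_of_nonneg (h0 _)]
  have hfi : Integrable f := by
    rw [← hfe] at hz
    exact (mp.integrable_comp_emb e.symm.measurableEmbedding).1 hz
  refine ⟨hfi, ?_⟩
  have h3 : ∫ t : Fin (n + 1) → ℝ, f t =
      ∫ z : ℝ × (Fin n → ℝ), f (Fin.snoc z.2 z.1)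
        ∂((volume : Measure ℝ).prod (volume : Measure (Fin n → ℝ))) := by
    rw [← hfe, ← mp.integral_comp' f]
    rfl
  rw [h3, integral_prod_symm _ hz]
  exact integral_congr_ae (Eventually.of_forall fun y => h1' y)

/-- the function with strict inequalities, real exponent -/
private noncomputable def DGM_G (n : ℕ) (c : Fin n → ℝ) (d e : Fin n → ℕ) (β : ℝ)
    (x : Fin n → ℝ) : ℝ :=
  {x : Fin n → ℝ | (∀ i, 0 ≤ x i) ∧ ∑ i, c i * x i ^ d i < 1}.indicator
    (fun x => (∏ i, x i ^ e i) * (1 - ∑ i, c i * x i ^ d i) ^ β) x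

private theorem DGM_meas (n : ℕ) (c : Fin n → ℝ) (d e : Fin n → ℕ) (β : ℝ) :
    Measurable (DGM_G n c d e β) := by
  have hS : Measurable fun x : Fin n → ℝ => ∑ i, c i * x i ^ d i := by fun_prop
  have hset : MeasurableSet {x : Fin n → ℝ | (∀ i, 0 ≤ x i) ∧ ∑ i, c i * x i ^ d i < 1} := by
    have h3 : MeasurableSet {x : Fin n → ℝ | ∀ i, 0 ≤ x i} := by
      have h2 : {x : Fin n → ℝ | ∀ i, 0 ≤ x i} = ⋂ i, {x : Fin n → ℝ | 0 ≤ x i} := by
        ext x
        simp
      rw [h2]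
      exact MeasurableSet.iInter fun i => measurableSet_le measurable_const (measurable_pi_apply i)
    exact MeasurableSet.inter h3 (measurableSet_lt hS measurable_const)
  refine Measurable.indicator ?_ hset
  refine Measurable.mul ?_ ((measurable_const.sub hS).pow_const β)
  exact Finset.measurable_fun_prod _ fun i _ => (measurable_pi_apply i).pow_const _

private theorem DGM_nonneg (n : ℕ) (c : Fin n → ℝ) (d e : Fin n → ℕ) (β : ℝ) (x : Fin n → ℝ) :
    0 ≤ DGM_G n c d e β x := by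
  refine Set.indicator_nonneg (fun y hy => ?_) x
  exact mul_nonneg (Finset.prod_nonneg fun i _ => pow_nonneg (hy.1 i) _)
    (Real.rpow_nonneg (by linarith [hy.2]) _)

/-- the fibres -/
private theorem DGM_fib (hB : St_BIN) (n : ℕ) (c : Fin (n + 1) → ℝ) (d e : Fin (n + 1) → ℕ) (β : ℝ)
    (hc : ∀ i, 0 < c i) (hd : ∀ i, 0 < d i) (hβ : -1 < β) (y : Fin n → ℝ) :
    Integrable (fun t : ℝ => DGM_G (n + 1) c d e β (Fin.snoc y t)) ∧
    ∫ t : ℝ, DGM_G (n + 1) c d e β (Fin.snoc y t) =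
      (1 / (d (Fin.last n) : ℝ) * c (Fin.last n) ^ (-(((e (Fin.last n) : ℝ) + 1) / d (Fin.last n))) *
        bet (((e (Fin.last n) : ℝ) + 1) / d (Fin.last n)) (β + 1)) *
      DGM_G n (fun i => c i.castSucc) (fun i => d i.castSucc) (fun i => e i.castSucc)
        (β + ((e (Fin.last n) : ℝ) + 1) / d (Fin.last n)) y := by
  classical
  set S : ℝ := ∑ i : Fin n, c i.castSucc * y i ^ d i.castSucc with hS
  by_cases hy : (∀ i, 0 ≤ y i) ∧ S < 1
  · have hA : 0 < 1 - S := by linarith [hy.2]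
    obtain ⟨h1, h2⟩ := DGM_one hB (c (Fin.last n)) (1 - S) β (d (Fin.last n)) (e (Fin.last n))
      (hc _) hA hβ (hd _)
    have h3 : (fun t : ℝ => DGM_G (n + 1) c d e β (Fin.snoc y t)) = fun t : ℝ =>
        (∏ i : Fin n, y i ^ e i.castSucc) *
        {t : ℝ | 0 ≤ t ∧ c (Fin.last n) * t ^ d (Fin.last n) < 1 - S}.indicator
          (fun t => t ^ e (Fin.last n) * (1 - S - c (Fin.last n) * t ^ d (Fin.last n)) ^ β) t := by
      funext t
      have hsum : ∑ i : Fin (n + 1), c i * (Fin.snoc y t : Fin (n + 1) → ℝ) i ^ d i =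
          S + c (Fin.last n) * t ^ d (Fin.last n) := by
        rw [Fin.sum_univ_castSucc, Fin.snoc_last]
        congr 1
        refine Finset.sum_congr rfl fun i _ => ?_
        rw [Fin.snoc_castSucc]
      by_cases ht : 0 ≤ t ∧ c (Fin.last n) * t ^ d (Fin.last n) < 1 - S
      · have h4 : (Fin.snoc y t : Fin (n + 1) → ℝ) ∈
            {x : Fin (n + 1) → ℝ | (∀ i, 0 ≤ x i) ∧ ∑ i, c i * x i ^ d i < 1} := by
          refine ⟨fun i => ?_, ?_⟩
          · refine Fin.lastCases ?_ (fun j => ?_) i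
            · rw [Fin.snoc_last]
              exact ht.1
            · rw [Fin.snoc_castSucc]
              exact hy.1 j
          · rw [hsum]
            linarith [ht.2]
        unfold DGM_G
        rw [Set.indicator_of_mem h4, Set.indicator_of_mem (by exact ht), hsum, Fin.prod_univ_castSucc,
          Fin.snoc_last, sub_sub]
        simp only [Fin.snoc_castSucc]
        ring
      · have h4 : (Fin.snoc y t : Fin (n + 1) → ℝ) ∉
            {x : Fin (n + 1) → ℝ | (∀ i, 0 ≤ x i) ∧ ∑ i, c i * x i ^ d i < 1} := by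
          rintro ⟨h5, h6⟩
          refine ht ⟨?_, ?_⟩
          · have h7 := h5 (Fin.last n)
            rwa [Fin.snoc_last] at h7
          · rw [hsum] at h6
            linarith
        unfold DGM_G
        rw [Set.indicator_of_notMem h4, Set.indicator_of_notMem (by exact ht), mul_zero]
    have h4 : y ∈ {x : Fin n → ℝ | (∀ i, 0 ≤ x i) ∧
        ∑ i, c i.castSucc * x i ^ d i.castSucc < 1} := hy
    refine ⟨by rw [h3]; exact h1.const_mul _, ?_⟩
    rw [h3, integral_const_mul, h2]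
    unfold DGM_G
    rw [Set.indicator_of_mem h4]
    ring
  · have h3 : (fun t : ℝ => DGM_G (n + 1) c d e β (Fin.snoc y t)) = fun _ : ℝ => (0 : ℝ) := by
      funext t
      have h4 : (Fin.snoc y t : Fin (n + 1) → ℝ) ∉
          {x : Fin (n + 1) → ℝ | (∀ i, 0 ≤ x i) ∧ ∑ i, c i * x i ^ d i < 1} := by
        rintro ⟨h5, h6⟩
        refine hy ⟨fun i => ?_, ?_⟩
        · have h7 := h5 i.castSucc
          rwa [Fin.snoc_castSucc] at h7
        · rw [Fin.sum_univ_castSucc, Fin.snoc_last] at h6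
          simp only [Fin.snoc_castSucc] at h6
          have h7 := h5 (Fin.last n)
          rw [Fin.snoc_last] at h7
          have h8 : 0 ≤ c (Fin.last n) * t ^ d (Fin.last n) :=
            mul_nonneg (hc _).le (pow_nonneg h7 _)
          linarith
      unfold DGM_G
      rw [Set.indicator_of_notMem h4]
    have h4 : y ∉ {x : Fin n → ℝ | (∀ i, 0 ≤ x i) ∧
        ∑ i, c i.castSucc * x i ^ d i.castSucc < 1} := hy
    refine ⟨by rw [h3]; exact integrable_zero _ _ _, ?_⟩
    rw [h3, integral_zero]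
    unfold DGM_G
    rw [Set.indicator_of_notMem h4, mul_zero]

/-- the hyperface is a null set -/
private theorem DGM_null (n : ℕ) (c : Fin n → ℝ) (d : Fin n → ℕ) (hc : ∀ i, 0 < c i)
    (hd : ∀ i, 0 < d i) :
    volume {x : Fin n → ℝ | (∀ i, 0 ≤ x i) ∧ ∑ i, c i * x i ^ d i = 1} = 0 := by
  rcases n with _ | n
  · have h2 : {x : Fin 0 → ℝ | (∀ i, 0 ≤ x i) ∧ ∑ i, c i * x i ^ d i = 1} = ∅ := by
      ext x
      simp
    rw [h2, measure_empty]
  · set A := {x : Fin (n + 1) → ℝ | (∀ i, 0 ≤ x i) ∧ ∑ i, c i * x i ^ d i = 1} with hA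
    have hS : Measurable fun x : Fin (n + 1) → ℝ => ∑ i, c i * x i ^ d i := by fun_prop
    have hset : MeasurableSet A := by
      have h3 : MeasurableSet {x : Fin (n + 1) → ℝ | ∀ i, 0 ≤ x i} := by
        have h2 : {x : Fin (n + 1) → ℝ | ∀ i, 0 ≤ x i} = ⋂ i, {x : Fin (n + 1) → ℝ | 0 ≤ x i} := by
          ext x
          simp
        rw [h2]
        exact MeasurableSet.iInter fun i =>
          measurableSet_le measurable_const (measurable_pi_apply i)
      exact MeasurableSet.inter h3 (measurableSet_eq_fun hS measurable_const)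
    have hfib : ∀ y : Fin n → ℝ, (fun t : ℝ => A.indicator (fun _ => (1 : ℝ)) (Fin.snoc y t))
        =ᵐ[volume] fun _ => (0 : ℝ) := by
      intro y
      have hsub : Set.Subsingleton {t : ℝ | (Fin.snoc y t : Fin (n + 1) → ℝ) ∈ A} := by
        rintro s ⟨hs0, hs⟩ t ⟨ht0, ht⟩
        rw [Fin.sum_univ_castSucc, Fin.snoc_last] at hs ht
        simp only [Fin.snoc_castSucc] at hs ht
        have h1 := hs0 (Fin.last n)
        have h2 := ht0 (Fin.last n)
        rw [Fin.snoc_last] at h1 h2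
        have h3 : c (Fin.last n) * s ^ d (Fin.last n) = c (Fin.last n) * t ^ d (Fin.last n) := by
          linarith
        have h4 := mul_left_cancel₀ (hc _).ne' h3
        exact (pow_left_inj₀ h1 h2 (hd _).ne').1 h4
      have h5 : volume {t : ℝ | (Fin.snoc y t : Fin (n + 1) → ℝ) ∈ A} = 0 :=
        hsub.measure_zero _
      have h6 : ∀ᵐ t : ℝ, (Fin.snoc y t : Fin (n + 1) → ℝ) ∉ A := by
        rw [ae_iff]
        simpa using h5
      exact h6.mono fun t ht => Set.indicator_of_notMem ht _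
    obtain ⟨h2, h3⟩ := DGM_ton n (A.indicator fun _ => (1 : ℝ)) (measurable_const.indicator hset)
      (fun x => Set.indicator_nonneg (fun _ _ => zero_le_one) x) (fun _ => 0)
      (fun y => (integrable_zero _ _ _).congr (hfib y).symm)
      (fun y => by rw [integral_congr_ae (hfib y), integral_zero]) (integrable_zero _ _ _)
    rw [integral_zero, integral_indicator hset, setIntegral_const, smul_eq_mul, mul_one] at h3
    have h4 : volume A ≠ ⊤ := by
      have h5 := (integrable_indicator_iff hset).1 h2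
      rw [integrableOn_const_iff] at h5
      rcases h5 with h6 | h6
      · simp at h6
      · exact h6.ne
    rwa [Measure.real, ENNReal.toReal_eq_zero_iff, or_iff_left h4] at h3

private theorem DGM_rpow (c : ℝ) (hc : 0 < c) (hcA : c ∈ RealAlg) (d e : ℕ) (hd : 0 < d) :
    1 / (d : ℝ) * c ^ (-(((e : ℝ) + 1) / d)) ∈ RealAlg := by
  have hdR : (0 : ℝ) < d := Nat.cast_pos.2 hd
  refine mul_mem ?_ ?_
  · rw [one_div]
    exact inv_mem (natCast_mem RealAlg d)
  · have h1 : (c ^ (-(((e : ℝ) + 1) / d))) ^ d = (c ^ (e + 1))⁻¹ := by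
      rw [← Real.rpow_natCast, ← Real.rpow_mul hc.le, ← Real.rpow_natCast c, ← Real.rpow_neg hc.le]
      congr 1
      push_cast
      field_simp
    have h2 : (c ^ (-(((e : ℝ) + 1) / d))) ^ d ∈ RealAlg := by
      rw [h1]
      exact inv_mem (pow_mem hcA _)
    exact mem_algebraicClosure_iff.2 (IsAlgebraic.of_pow hd (mem_algebraicClosure_iff.1 h2))

private theorem DGM_main (hB : St_BIN) (hV : St_BVL) (N : ℕ) (hN : N = 4 ∨ N = 6) :
    ∀ (n : ℕ) (c : Fin n → RealAlg) (d e : Fin n → ℕ) (m : ℤ), (∀ i, 0 < (c i : ℝ)) →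
    (∀ i, d i ∣ N) → -(N : ℤ) < m →
    Integrable (DGM_G n (fun i => (c i : ℝ)) d e ((m : ℝ) / N)) ∧
    ∃ (a : RealAlg) (i j : ℕ), i ≤ n ∧ j ≤ n ∧
      ∫ x, DGM_G n (fun i => (c i : ℝ)) d e ((m : ℝ) / N) x = a * (per N ^ i * qer N ^ j) := by
  have hN0 : 0 < N := by omega
  have hNR : (0 : ℝ) < N := Nat.cast_pos.2 hN0
  intro n
  induction n with
  | zero =>
    intro c d e m hc hd hm
    have h1 : ∀ x : Fin 0 → ℝ, DGM_G 0 (fun i => (c i : ℝ)) d e ((m : ℝ) / N) x = 1 := by
      intro x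
      have h2 : x ∈ {x : Fin 0 → ℝ | (∀ i, 0 ≤ x i) ∧ ∑ i, (c i : ℝ) * x i ^ d i < 1} := by
        simp
      unfold DGM_G
      rw [Set.indicator_of_mem h2]
      simp
    have h2 : DGM_G 0 (fun i => (c i : ℝ)) d e ((m : ℝ) / N) = fun _ => 1 := funext h1
    rw [h2]
    refine ⟨integrable_const _, 1, 0, 0, le_rfl, le_rfl, ?_⟩
    have h3 : (volume : Measure (Fin 0 → ℝ)) = Measure.dirac isEmptyElim :=
      Measure.pi_of_empty _ _
    rw [integral_const, h3]
    simp
  | succ n ih =>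
    intro c d e m hc hd hm
    have hd0 : ∀ i, 0 < d i := fun i => Nat.pos_of_dvd_of_pos (hd i) hN0
    obtain ⟨k, hk⟩ := hd (Fin.last n)
    have hdR : (0 : ℝ) < d (Fin.last n) := Nat.cast_pos.2 (hd0 _)
    have hk0 : 0 < k := by
      rcases Nat.eq_zero_or_pos k with h | h
      · rw [h, mul_zero] at hk
        omega
      · exact h
    have hβ : -1 < (m : ℝ) / N := by
      rw [lt_div_iff₀ hNR]
      have h1 : ((-(N : ℤ) : ℤ) : ℝ) < (m : ℝ) := Int.cast_lt.2 hm
      push_cast at h1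
      linarith
    have hβ' : (m : ℝ) / N + ((e (Fin.last n) : ℝ) + 1) / d (Fin.last n) =
        ((m + (e (Fin.last n) + 1) * k : ℤ) : ℝ) / N := by
      have h1 : (N : ℝ) = d (Fin.last n) * k := by
        rw [hk]
        push_cast
        ring
      have hkR : (0 : ℝ) < k := Nat.cast_pos.2 hk0
      rw [h1]
      push_cast
      field_simp
    have hm' : -(N : ℤ) < m + (e (Fin.last n) + 1) * k := by
      have h1 : (0 : ℤ) ≤ (e (Fin.last n) + 1) * k := by positivity
      linarith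
    obtain ⟨hi, a, i, j, hin, hjn, hval⟩ := ih (fun l => c l.castSucc) (fun l => d l.castSucc)
      (fun l => e l.castSucc) (m + (e (Fin.last n) + 1) * k) (fun l => hc _) (fun l => hd _) hm'
    have hf := DGM_fib hB n (fun l => (c l : ℝ)) d e ((m : ℝ) / N) hc hd0 hβ
    obtain ⟨h1, h2⟩ := DGM_ton n (DGM_G (n + 1) (fun l => (c l : ℝ)) d e ((m : ℝ) / N))
      (DGM_meas _ _ _ _ _) (DGM_nonneg _ _ _ _ _) _ (fun y => (hf y).1) (fun y => (hf y).2) (by
        rw [hβ']
        exact hi.const_mul _)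
    refine ⟨h1, ?_⟩
    -- the beta value
    have hx : ∃ z : ℤ, (((e (Fin.last n) : ℚ) + 1) / d (Fin.last n)) * N = z := by
      refine ⟨(e (Fin.last n) + 1) * k, ?_⟩
      have h3 : (N : ℚ) = d (Fin.last n) * k := by
        rw [hk]
        push_cast
        ring
      have h4 : (d (Fin.last n) : ℚ) ≠ 0 := Nat.cast_ne_zero.2 (hd0 _).ne'
      rw [h3]
      push_cast
      field_simp
    have hNQ : (0 : ℚ) < N := Nat.cast_pos.2 hN0
    have hy : ∃ z : ℤ, ((m : ℚ) / N + 1) * N = z := by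
      refine ⟨m + N, ?_⟩
      push_cast
      field_simp
    have hx0 : 0 < ((e (Fin.last n) : ℚ) + 1) / d (Fin.last n) := by
      have h4 : (0 : ℚ) < d (Fin.last n) := Nat.cast_pos.2 (hd0 _)
      positivity
    have hy0 : 0 < (m : ℚ) / N + 1 := by
      have h4 : ((-(N : ℤ) : ℤ) : ℚ) < (m : ℚ) := Int.cast_lt.2 hm
      push_cast at h4
      have h5 : -1 < (m : ℚ) / N := by
        rw [lt_div_iff₀ hNQ]
        linarith
      linarith
    obtain ⟨b, hb⟩ := hV N hN _ _ hx hy hx0 hy0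
    have hb' : bet (((e (Fin.last n) : ℝ) + 1) / d (Fin.last n)) ((m : ℝ) / N + 1) =
        b * (per N ^ ew (((e (Fin.last n) : ℚ) + 1) / d (Fin.last n)) ((m : ℚ) / N + 1) *
          qer N ^ eh (((e (Fin.last n) : ℚ) + 1) / d (Fin.last n)) ((m : ℚ) / N + 1)) := by
      rw [← hb]
      push_cast
      rfl
    have hr := DGM_rpow (c (Fin.last n)) (hc _) (c (Fin.last n)).2 (d (Fin.last n))
      (e (Fin.last n)) (hd0 _)
    have hew : ew (((e (Fin.last n) : ℚ) + 1) / d (Fin.last n)) ((m : ℚ) / N + 1) ≤ 1 := by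
      unfold ew
      split_ifs <;> omega
    have heh : eh (((e (Fin.last n) : ℚ) + 1) / d (Fin.last n)) ((m : ℚ) / N + 1) ≤ 1 := by
      unfold eh
      split_ifs <;> omega
    refine ⟨⟨_, hr⟩ * b * a,
      ew (((e (Fin.last n) : ℚ) + 1) / d (Fin.last n)) ((m : ℚ) / N + 1) + i,
      eh (((e (Fin.last n) : ℚ) + 1) / d (Fin.last n)) ((m : ℚ) / N + 1) + j, ?_, ?_, ?_⟩
    · omega
    · omega
    · rw [h2, hβ', integral_const_mul, hval, hb']
      push_cast
      ring

theorem thm_DGM (_hF : ITR.St_FUB) (hB : St_BIN) (hV : St_BVL) : St_DGM := by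
  classical
  intro N hN n c d e m hc hd hm
  have hN0 : 0 < N := by omega
  have hd0 : ∀ i, 0 < d i := fun i => Nat.pos_of_dvd_of_pos (hd i) hN0
  obtain ⟨h1, a, i, j, hi, hj, hval⟩ := DGM_main hB hV N hN n c d e m hc hd hm
  have hae : DGM_G n (fun i => (c i : ℝ)) d e ((m : ℝ) / N) =ᵐ[volume]
      diagFun N c d m (∏ i, MvPolynomial.X i ^ e i) := by
    have h2 : ∀ᵐ x : Fin n → ℝ, x ∉ {x : Fin n → ℝ | (∀ i, 0 ≤ x i) ∧
        ∑ i, (c i : ℝ) * x i ^ d i = 1} := by
      rw [ae_iff]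
      simpa using DGM_null n (fun i => (c i : ℝ)) d hc hd0
    refine h2.mono fun x hx => ?_
    have hP : evalMulti (∏ i, MvPolynomial.X i ^ e i : MultiPoly n) x = ∏ i, x i ^ e i := by
      unfold evalMulti
      rw [map_prod]
      refine Finset.prod_congr rfl fun i _ => ?_
      rw [map_pow, MvPolynomial.aeval_X]
    unfold diagFun DGM_G
    by_cases h3 : (∀ i, 0 ≤ x i) ∧ ∑ i, (c i : ℝ) * x i ^ d i < 1
    · have h4 : x ∈ {x : Fin n → ℝ | (∀ i, 0 ≤ x i) ∧ ∑ i, (c i : ℝ) * x i ^ d i ≤ 1} :=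
        ⟨h3.1, h3.2.le⟩
      rw [Set.indicator_of_mem (by exact h3), Set.indicator_of_mem h4, hP]
    · have h4 : x ∉ {x : Fin n → ℝ | (∀ i, 0 ≤ x i) ∧ ∑ i, (c i : ℝ) * x i ^ d i ≤ 1} := by
        rintro ⟨h5, h6⟩
        rcases h6.lt_or_eq with h7 | h7
        · exact h3 ⟨h5, h7⟩
        · exact hx ⟨h5, h7⟩
      rw [Set.indicator_of_notMem (by exact h3), Set.indicator_of_notMem h4]
  refine ⟨h1.congr hae, a, i, j, hi, hj, ?_⟩
  rw [← integral_congr_ae hae, hval]

end Pool.Agent.QP
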