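import Pool.Agent.QP.StB

/-!
# Quarter periods, module DGQ: diagonal polynomials
-/

set_option autoImplicit false

open MeasureTheory Filter Topology

namespace Pool.Agent.QP

open Pool.Agent.ITR Pool.Agent.Helper23.PeriodDefs

theorem DGQ_mon {n : ℕ} (N : ℕ) (c : Fin n → RealAlg) (d : Fin n → ℕ) (m : ℤ)
    (u : Fin n →₀ ℕ) (a : RealAlg) (x : Fin n → ℝ) :
    diagFun N c d m (MvPolynomial.monomial u a) x =
      (a : ℝ) * diagFun N c d m (∏ i, MvPolynomial.X i ^ u i) x := by
  have h1 : evalMulti (MvPolynomial.monomial u a) x =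
      (a : ℝ) * evalMulti (∏ i, MvPolynomial.X i ^ u i : MultiPoly n) x := by
    unfold evalMulti
    rw [MvPolynomial.monomial_eq, Finsupp.prod_fintype _ _ (fun i => pow_zero _), map_mul]
    congr 1
    rw [MvPolynomial.aeval_C]
    rfl
  unfold diagFun
  by_cases hx : x ∈ {x : Fin n → ℝ | (∀ i, 0 ≤ x i) ∧ ∑ i, (c i : ℝ) * x i ^ d i ≤ 1}
  · rw [Set.indicator_of_mem hx, Set.indicator_of_mem hx, h1, mul_assoc]
  · rw [Set.indicator_of_notMem hx, Set.indicator_of_notMem hx, mul_zero]

theorem DGQ_add {n : ℕ} (N : ℕ) (c : Fin n → RealAlg) (d : Fin n → ℕ) (m : ℤ)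
    (P Q : MultiPoly n) (x : Fin n → ℝ) :
    diagFun N c d m (P + Q) x = diagFun N c d m P x + diagFun N c d m Q x := by
  have h1 : evalMulti (P + Q) x = evalMulti P x + evalMulti Q x := by
    unfold evalMulti
    rw [map_add]
  unfold diagFun
  by_cases hx : x ∈ {x : Fin n → ℝ | (∀ i, 0 ≤ x i) ∧ ∑ i, (c i : ℝ) * x i ^ d i ≤ 1}
  · rw [Set.indicator_of_mem hx, Set.indicator_of_mem hx, Set.indicator_of_mem hx, h1, add_mul]
  · rw [Set.indicator_of_notMem hx, Set.indicator_of_notMem hx, Set.indicator_of_notMem hx,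
      add_zero]

theorem DGQ_deg (k : Fin 2) (i j : ℕ) (a : RealAlg) :
    (MvPolynomial.C a * (MvPolynomial.X 0 ^ i * MvPolynomial.X 1 ^ j) :
      MvPolynomial (Fin 2) RealAlg).degreeOf k ≤ if k = 0 then i else j := by
  refine (MvPolynomial.degreeOf_C_mul_le _ _ _).trans ((MvPolynomial.degreeOf_mul_le _ _ _).trans ?_)
  refine (add_le_add (MvPolynomial.degreeOf_pow_le _ _ _)
    (MvPolynomial.degreeOf_pow_le _ _ _)).trans ?_
  rw [MvPolynomial.degreeOf_X, MvPolynomial.degreeOf_X]
  fin_cases k <;> simp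

theorem thm_DGQ (hM : St_DGM) : St_DGQ := by
  intro N hN n c d m P hc hd hm
  induction P using MvPolynomial.induction_on' with
  | monomial u a =>
    obtain ⟨hi, b, i, j, hin, hjn, hv⟩ := hM N hN n c d u m hc hd hm
    have hf : (fun x => diagFun N c d m (MvPolynomial.monomial u a) x) =
        fun x => (a : ℝ) * diagFun N c d m (∏ i, MvPolynomial.X i ^ u i) x :=
      funext fun x => DGQ_mon N c d m u a x
    refine ⟨?_, MvPolynomial.C (a * b) * (MvPolynomial.X 0 ^ i * MvPolynomial.X 1 ^ j), ?_, ?_, ?_⟩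
    · change Integrable (fun x => diagFun N c d m (MvPolynomial.monomial u a) x)
      rw [hf]
      exact hi.const_mul _
    · exact (DGQ_deg 0 i j _).trans hin
    · exact (DGQ_deg 1 i j _).trans hjn
    · rw [hf, integral_const_mul, hv]
      simp only [map_mul, map_pow, MvPolynomial.aeval_X, MvPolynomial.aeval_C]
      simp only [Matrix.cons_val_zero, Matrix.cons_val_one]
      change (a : ℝ) * ((b : ℝ) * _) = ((a : ℝ) * (b : ℝ)) * _
      ring
  | add P Q hP hQ =>
    obtain ⟨hi, F, h0, h1, hv⟩ := hP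
    obtain ⟨hi', F', h0', h1', hv'⟩ := hQ
    have hf : (fun x => diagFun N c d m (P + Q) x) =
        fun x => diagFun N c d m P x + diagFun N c d m Q x :=
      funext fun x => DGQ_add N c d m P Q x
    refine ⟨?_, F + F', ?_, ?_, ?_⟩
    · change Integrable (fun x => diagFun N c d m (P + Q) x)
      rw [hf]
      exact hi.add hi'
    · exact (MvPolynomial.degreeOf_add_le _ _ _).trans (max_le h0 h0')
    · exact (MvPolynomial.degreeOf_add_le _ _ _).trans (max_le h1 h1')
    · rw [hf, integral_add hi hi', hv, hv', map_add]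

end Pool.Agent.QP
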