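import Pool.Agent.QP.StB

/-!
# Quarter periods, part B: [EXQ], the values of the beta function are integrals of the class
-/

set_option autoImplicit false

open MeasureTheory Filter

namespace Pool.Agent.QP

open Pool.Agent.ITR Pool.Agent.Helper23.PeriodDefs

/-- the integrand -/
private noncomputable def EXQ_h (N u v : ℕ) (t : ℝ) : ℝ :=
  (Set.Ioo (0 : ℝ) 1).indicator
    (fun t => t ^ (-((u : ℝ) / N)) * (1 - t) ^ (-((v : ℝ) / N))) t

private lemma EXQ_pow (N u : ℕ) (hN : N ≠ 0) (x : ℝ) (hx : 0 < x) :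
    (x ^ (-((u : ℝ) / N))) ^ N * x ^ u = 1 := by
  have hN' : (N : ℝ) ≠ 0 := Nat.cast_ne_zero.2 hN
  rw [← Real.rpow_natCast (x ^ (-((u : ℝ) / N))) N, ← Real.rpow_mul hx.le, ← Real.rpow_natCast x u,
    ← Real.rpow_add hx]
  have : -((u : ℝ) / N) * N + u = 0 := by field_simp; ring
  rw [this, Real.rpow_zero]

private lemma EXQ_graph (N u v : ℕ) (hN : N ≠ 0) (x z : ℝ) :
    z = EXQ_h N u v x ↔
      ((z ^ N * x ^ u * (1 - x) ^ v = 1 ∧ 0 < x ∧ 0 < 1 - x ∧ 0 < z) ∨
        (z = 0 ∧ x * (1 - x) = 0) ∨ (z = 0 ∧ 0 < -(x * (1 - x)))) := by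
  unfold EXQ_h
  by_cases hx : x ∈ Set.Ioo (0 : ℝ) 1
  · have h0 : 0 < x := hx.1
    have h1 : 0 < 1 - x := by linarith [hx.2]
    have h01 : 0 < x * (1 - x) := mul_pos h0 h1
    rw [Set.indicator_of_mem hx]
    have hw : 0 < x ^ (-((u : ℝ) / N)) * (1 - x) ^ (-((v : ℝ) / N)) :=
      mul_pos (Real.rpow_pos_of_pos h0 _) (Real.rpow_pos_of_pos h1 _)
    have e1 := EXQ_pow N u hN x h0
    have e2 := EXQ_pow N v hN (1 - x) h1
    have e3 : (x ^ (-((u : ℝ) / N)) * (1 - x) ^ (-((v : ℝ) / N))) ^ N * x ^ u * (1 - x) ^ v = 1 := by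
      rw [mul_pow]
      calc _ = ((x ^ (-((u : ℝ) / N))) ^ N * x ^ u) * (((1 - x) ^ (-((v : ℝ) / N))) ^ N * (1 - x) ^ v) :=
            by ring
        _ = 1 := by rw [e1, e2, one_mul]
    constructor
    · intro hz
      left
      rw [hz]
      exact ⟨e3, h0, h1, hw⟩
    · rintro (⟨h2, -, -, hz⟩ | ⟨-, h2⟩ | ⟨-, h2⟩)
      · have hp : x ^ u * (1 - x) ^ v ≠ 0 := (mul_pos (pow_pos h0 _) (pow_pos h1 _)).ne'
        have h3 : z ^ N = (x ^ (-((u : ℝ) / N)) * (1 - x) ^ (-((v : ℝ) / N))) ^ N := by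
          apply mul_right_cancel₀ hp
          rw [← mul_assoc, ← mul_assoc, h2, e3]
        exact (pow_left_inj₀ hz.le hw.le hN).1 h3
      · exact absurd h2 h01.ne'
      · linarith
  · rw [Set.indicator_of_notMem hx]
    have h2 : x * (1 - x) ≤ 0 := by
      by_contra h3
      push Not at h3
      apply hx
      rcases pos_and_pos_or_neg_and_neg_of_mul_pos h3 with ⟨h4, h5⟩ | ⟨h4, h5⟩
      · exact ⟨h4, by linarith⟩
      · linarith
    constructor
    · intro hz
      right
      rcases h2.lt_or_eq with h3 | h3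
      · exact Or.inr ⟨hz, by linarith⟩
      · exact Or.inl ⟨hz, h3⟩
    · rintro (⟨-, h3, h4, -⟩ | ⟨h3, -⟩ | ⟨h3, -⟩)
      · exact absurd ⟨h3, by linarith⟩ hx
      · exact h3
      · exact h3

private lemma EXQ_adm (N u : ℕ) (hN : N ≠ 0) (hu : 0 < u) (huN : u < N) :
    Adm N (-((u : ℚ) / N)) := by
  have hN' : (N : ℚ) ≠ 0 := Nat.cast_ne_zero.2 hN
  refine ⟨⟨-(u : ℤ), ?_⟩, ?_⟩
  · push_cast
    field_simp
  · intro z hz
    have h1 : (u : ℚ) = -(z : ℚ) * N := by
      rw [← hz]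
      field_simp
    have h2 : (u : ℤ) = -z * N := by exact_mod_cast h1
    have h3 : (N : ℤ) ∣ u := ⟨-z, by rw [h2]; ring⟩
    have h4 : N ∣ u := by exact_mod_cast h3
    exact absurd (Nat.le_of_dvd hu h4) (by omega)

theorem thm_EXQ (hBIN : St_BIN) : St_EXQ := by
  intro N hN u v hu huN hv hvN
  have hN0 : N ≠ 0 := by omega
  have hNr : (0 : ℝ) < N := Nat.cast_pos.2 (Nat.pos_of_ne_zero hN0)
  have hx : 0 < 1 - (u : ℝ) / N := by
    rw [sub_pos, div_lt_one hNr]
    exact_mod_cast huN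
  have hy : 0 < 1 - (v : ℝ) / N := by
    rw [sub_pos, div_lt_one hNr]
    exact_mod_cast hvN
  obtain ⟨hi, hval, -⟩ := hBIN _ _ hx hy
  have e1 : 1 - (u : ℝ) / N - 1 = -((u : ℝ) / N) := by ring
  have e2 : 1 - (v : ℝ) / N - 1 = -((v : ℝ) / N) := by ring
  rw [e1, e2] at hi hval
  have hih : Integrable (EXQ_h N u v) := by
    have h1 := hi.integrable_indicator measurableSet_Ioo
    exact h1
  have hvalh : ∫ t, EXQ_h N u v t = bet (1 - (u : ℝ) / N) (1 - (v : ℝ) / N) := by
    rw [← hval, ← integral_indicator measurableSet_Ioo]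
    rfl
  have hmp := volume_preserving_funUnique (Fin 1) ℝ
  have hsn : ∀ (y : Fin 0 → ℝ) (t : ℝ), (Fin.snoc y t : Fin 1 → ℝ) 0 = t := fun y t =>
    Fin.snoc_last (α := fun _ : Fin 1 => ℝ) t y
  refine ⟨fun x => EXQ_h N u v (x 0), ?_, ?_, ?_⟩
  · refine ⟨3, ![{MvPolynomial.X 1 ^ N * MvPolynomial.X 0 ^ u * (1 - MvPolynomial.X 0) ^ v - 1},
        {MvPolynomial.X 1, MvPolynomial.X 0 * (1 - MvPolynomial.X 0)}, {MvPolynomial.X 1}],
      ![{MvPolynomial.X 0, 1 - MvPolynomial.X 0, MvPolynomial.X 1}, ∅,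
        {-(MvPolynomial.X 0 * (1 - MvPolynomial.X 0))}], ?_⟩
    ext z
    have hl : Fin.last 1 = (1 : Fin 2) := rfl
    have hi : Fin.init z (0 : Fin 1) = z 0 := rfl
    show z (Fin.last 1) = EXQ_h N u v (Fin.init z (0 : Fin 1)) ↔ _
    rw [hl, hi, EXQ_graph N u v hN0 (z 0) (z 1)]
    have hA : (z 1 ^ N * z 0 ^ u * (1 - z 0) ^ v = 1) ↔
        evalMulti (MvPolynomial.X 1 ^ N * MvPolynomial.X 0 ^ u * (1 - MvPolynomial.X 0) ^ v - 1 :
          MultiPoly 2) z = 0 := by
      simp only [evalMulti, map_sub, map_mul, map_pow, map_one, MvPolynomial.aeval_X, sub_eq_zero]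
    have hX0 : evalMulti (MvPolynomial.X 0 : MultiPoly 2) z = z 0 := by
      simp only [evalMulti, MvPolynomial.aeval_X]
    have hX1 : evalMulti (MvPolynomial.X 1 : MultiPoly 2) z = z 1 := by
      simp only [evalMulti, MvPolynomial.aeval_X]
    have hX2 : evalMulti (1 - MvPolynomial.X 0 : MultiPoly 2) z = 1 - z 0 := by
      simp only [evalMulti, map_sub, map_one, MvPolynomial.aeval_X]
    have hX3 : evalMulti (MvPolynomial.X 0 * (1 - MvPolynomial.X 0) : MultiPoly 2) z =
        z 0 * (1 - z 0) := by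
      simp only [evalMulti, map_mul, map_sub, map_one, MvPolynomial.aeval_X]
    have hX4 : evalMulti (-(MvPolynomial.X 0 * (1 - MvPolynomial.X 0)) : MultiPoly 2) z =
        -(z 0 * (1 - z 0)) := by
      simp only [evalMulti, map_neg, map_mul, map_sub, map_one, MvPolynomial.aeval_X]
    constructor
    · rintro (⟨h1, h2, h3, h4⟩ | ⟨h1, h2⟩ | ⟨h1, h2⟩)
      · refine ⟨0, ?_, ?_⟩
        · intro p hp
          rw [Finset.mem_singleton.1 hp]
          exact hA.1 h1
        · intro q hq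
          have hq' : q = MvPolynomial.X 0 ∨ q = 1 - MvPolynomial.X 0 ∨ q = MvPolynomial.X 1 := by
            simpa using hq
          rcases hq' with rfl | rfl | rfl
          · rw [hX0]; exact h2
          · rw [hX2]; exact h3
          · rw [hX1]; exact h4
      · refine ⟨1, ?_, fun q hq => absurd hq (Finset.notMem_empty _)⟩
        intro p hp
        have hp' : p = MvPolynomial.X 1 ∨ p = MvPolynomial.X 0 * (1 - MvPolynomial.X 0) := by
          simpa using hp
        rcases hp' with rfl | rfl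
        · rw [hX1]; exact h1
        · rw [hX3]; exact h2
      · refine ⟨2, ?_, ?_⟩
        · intro p hp
          rw [Finset.mem_singleton.1 hp, hX1]
          exact h1
        · intro q hq
          rw [Finset.mem_singleton.1 hq, hX4]
          exact h2
    · rintro ⟨i, hE, hI⟩
      fin_cases i
      · left
        refine ⟨hA.2 (hE _ (Finset.mem_singleton_self _)), ?_, ?_, ?_⟩
        · rw [← hX0]
          exact hI _ (by simp)
        · rw [← hX2]
          exact hI _ (by simp)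
        · rw [← hX1]
          exact hI _ (by simp)
      · right; left
        refine ⟨?_, ?_⟩
        · rw [← hX1]
          exact hE _ (by simp)
        · rw [← hX3]
          exact hE _ (by simp)
      · right; right
        refine ⟨?_, ?_⟩
        · rw [← hX1]
          exact hE _ (Finset.mem_singleton_self _)
        · rw [← hX4]
          exact hI _ (Finset.mem_singleton_self _)
  · refine Iter.step (ew (-((u : ℚ) / N)) (-((v : ℚ) / N))) (eh (-((u : ℚ) / N)) (-((v : ℚ) / N)))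
      ?_ ?_ (Iter.point _ _ _)
    · exact (hmp.integrable_comp_emb (MeasurableEquiv.funUnique (Fin 1) ℝ).measurableEmbedding).2 hih
    · refine Eventually.of_forall fun y => ?_
      refine Fibre.betaIoo _ _ (EXQ_adm N u hN0 hu huN) (EXQ_adm N v hN0 hv hvN)
        ⟨1, 0, 1, one_pos, Eventually.of_forall fun t => ?_⟩
      simp only [hsn]
      unfold EXQ_h
      refine congrArg (fun g => (Set.Ioo (0 : ℝ) 1).indicator g t) (funext fun s => ?_)
      simp
  · have h1 := hmp.integral_comp' (EXQ_h N u v)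
    exact h1.trans hvalh

end Pool.Agent.QP
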