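import Mathlib

/-!
# Quarter periods: the constants and the analytic data

`per 4 = B(1/4, 1/2)`, `qer 4 = B(3/4, 1/2)`, `per 6 = B(1/3, 1/2)`, `qer 6 = B(2/3, 1/2)`.
The structure `Dat` collects what is needed about the elliptic functions of the lattices
`v ℤ[i]`, `v ℤ[ρ]` with `℘'' = 6 ℘^2 - c`, `c = 2` or `c = 0`.
-/

set_option autoImplicit false

open Complex

namespace Pool.Agent.QP

/-- Euler's beta function -/
noncomputable def bet (x y : ℝ) : ℝ := Real.Gamma x * Real.Gamma y / Real.Gamma (x + y)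

/-- the real period of `y^2 = x^3 - x` (`N = 4`) and `y^2 = x^3 - 1` (`N = 6`), up to an algebraic
factor -/
noncomputable def per (N : ℕ) : ℝ := if N = 4 then bet (1 / 4) (1 / 2) else bet (1 / 3) (1 / 2)

/-- the corresponding period of the second kind -/
noncomputable def qer (N : ℕ) : ℝ := if N = 4 then bet (3 / 4) (1 / 2) else bet (2 / 3) (1 / 2)

/-- The analytic data: `P = ℘`, `Pd = ℘'`, `Z = ζ` for the lattice `v (ℤ + ℤ τ)`, `τ = i` or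
`τ = exp(2 π i / 3)`; `g` is an entire function (a theta function) which vanishes on the lattice,
`A = g^2 ℘`, `B = g ζ` are entire; growth of order two; `g` is not small near the points
`v / 2 + λ`. -/
structure Dat where
  tau : ℂ
  v : ℝ
  eta : ℝ
  c : ℤ
  P : ℂ → ℂ
  Pd : ℂ → ℂ
  Z : ℂ → ℂ
  g : ℂ → ℂ
  A : ℂ → ℂ
  B : ℂ → ℂ
  C : ℝ
  eps : ℝ
  htau : tau ^ 2 = -1 ∨ tau ^ 2 = -tau - 1
  him : 0 < tau.im
  hv : 0 < v
  leg : v * eta * tau.im = Real.pi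
  hc : c ≠ 6
  hC : 1 ≤ C
  heps : 0 < eps
  /-- derivatives outside the lattice -/
  dZ : ∀ z : ℂ, (∀ a b : ℤ, z ≠ v * (a + b * tau)) → HasDerivAt Z (-P z) z
  dP : ∀ z : ℂ, (∀ a b : ℤ, z ≠ v * (a + b * tau)) → HasDerivAt P (Pd z) z
  dPd : ∀ z : ℂ, (∀ a b : ℤ, z ≠ v * (a + b * tau)) → HasDerivAt Pd (6 * P z ^ 2 - c) z
  /-- periods and quasi-periods -/
  perP : ∀ (a b : ℤ) (z : ℂ), P (z + v * (a + b * tau)) = P z
  perZ : ∀ (a b : ℤ) (z : ℂ), (∀ a b : ℤ, z ≠ v * (a + b * tau)) →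
    Z (z + v * (a + b * tau)) = Z z + eta * (a + b * (starRingEnd ℂ) tau)
  /-- values at the half period `v / 2` -/
  halfP : P (v / 2) = 1
  halfPd : Pd (v / 2) = 0
  halfZ : Z (v / 2) = eta / 2
  /-- the denominator -/
  dg : Differentiable ℂ g
  dA : Differentiable ℂ A
  dB : Differentiable ℂ B
  gA : ∀ z : ℂ, (∀ a b : ℤ, z ≠ v * (a + b * tau)) → A z = g z ^ 2 * P z
  gB : ∀ z : ℂ, (∀ a b : ℤ, z ≠ v * (a + b * tau)) → B z = g z * Z z
  growg : ∀ z : ℂ, ‖g z‖ ≤ Real.exp (C * (1 + ‖z‖ ^ 2))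
  growA : ∀ z : ℂ, ‖A z‖ ≤ Real.exp (C * (1 + ‖z‖ ^ 2))
  growB : ∀ z : ℂ, ‖B z‖ ≤ Real.exp (C * (1 + ‖z‖ ^ 2))
  /-- the discs of radius `eps` around the points `v / 2 + λ` avoid the lattice, `g` is not small
  there -/
  off : ∀ (a b : ℤ) (s : ℂ), ‖s‖ ≤ eps →
    ∀ m n : ℤ, (v / 2 + v * (a + b * tau) + s : ℂ) ≠ v * (m + n * tau)
  low : ∀ (a b : ℤ) (s : ℂ), ‖s‖ ≤ eps →
    Real.exp (-(C * (1 + ‖(v / 2 + v * (a + b * tau) + s : ℂ)‖ ^ 2))) ≤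
      ‖g (v / 2 + v * (a + b * tau) + s)‖

namespace Dat

/-- the points `v / 2 + v (a + b τ)` -/
noncomputable def pt (D : Dat) (a b : ℤ) : ℂ := D.v / 2 + D.v * (a + b * D.tau)

/-- the function `∑ f_ijk z^i ℘^j ζ^k`, `i, j, k ≤ n` -/
noncomputable def fn (D : Dat) (n : ℕ) (f : ℕ → ℕ → ℕ → ℂ) (z : ℂ) : ℂ :=
  ∑ i ∈ Finset.range (n + 1), ∑ j ∈ Finset.range (n + 1), ∑ k ∈ Finset.range (n + 1),
    f i j k * (z ^ i * D.P z ^ j * D.Z z ^ k)

end Dat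

/-- degrees at most `d`, coefficients at most `exp s` -/
def Bd (d s : ℝ) (G : MvPolynomial (Fin 2) ℤ) : Prop :=
  (∀ i, (G.degreeOf i : ℝ) ≤ d) ∧ ∀ e, |((G.coeff e : ℤ) : ℝ)| ≤ Real.exp s

/-- the value at `(x, y)` -/
noncomputable def val (x y : ℝ) (G : MvPolynomial (Fin 2) ℤ) : ℝ := MvPolynomial.aeval ![x, y] G

/-- `x, y` generate a field of transcendence degree one -/
def Td1 (x y : ℝ) : Prop :=
  ¬ AlgebraicIndependent ℚ ![x, y] ∧ (Transcendental ℚ x ∨ Transcendental ℚ y)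

end Pool.Agent.QP
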