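import Pool.Agent.ITR.Defs3
import Pool.Agent.QP.Defs

/-!
# Quarter periods: the class of iterated integrals

`N = 4` or `N = 6`; `per N`, `qer N` are the two generators of the ring of periods.  The fibre types
`RationalFibre`, `TwistedFibre`, `ArcFibre`, `OddFibre`, `PrimitiveFibre`, the relation `Transport`, `AlgOver` and
`SemialgebraicFun` are those of `Pool/Agent/ITR/Defs.lean`.
-/

set_option autoImplicit false

open MeasureTheory

namespace Pool.Agent.QP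

open Pool.Agent.ITR Pool.Agent.Helper23.PeriodDefs

/-- `p` is in `(1/N) ℤ` but not an integer -/
def Adm (N : ℕ) (p : ℚ) : Prop := (∃ z : ℤ, p * N = z) ∧ ∀ z : ℤ, p ≠ z

/-- `h` is almost everywhere equal to `(t - a)^p (b - t)^q P(t)` on the interval `(a, b)` and to zero
outside, `P` a real polynomial -/
def BetaIoo (p q : ℚ) (h : ℝ → ℝ) : Prop :=
  ∃ (P : Polynomial ℝ) (a b : ℝ), a < b ∧
    h =ᵐ[volume] (Set.Ioo a b).indicator
      (fun t => (t - a) ^ (p : ℝ) * (b - t) ^ (q : ℝ) * P.eval t)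

/-- `h` is almost everywhere equal to `|t - a|^p |t - b|^q P(t)` on the half-line which begins at
`a` and does not contain `b`, and to zero outside, `P` a real polynomial, `a ≠ b` -/
def BetaIoi (p q : ℚ) (h : ℝ → ℝ) : Prop :=
  ∃ (P : Polynomial ℝ) (a b : ℝ),
    (b < a ∧ h =ᵐ[volume] (Set.Ioi a).indicator
      (fun t => (t - a) ^ (p : ℝ) * (t - b) ^ (q : ℝ) * P.eval t)) ∨
    (a < b ∧ h =ᵐ[volume] (Set.Iio a).indicator
      (fun t => (a - t) ^ (p : ℝ) * (b - t) ^ (q : ℝ) * P.eval t))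

/-- `h` is almost everywhere equal to `((t - a)^2 + c^2)^p P(t)`, `c > 0`, `P` a real polynomial -/
def BetaLine (p : ℚ) (h : ℝ → ℝ) : Prop :=
  ∃ (P : Polynomial ℝ) (a c : ℝ), 0 < c ∧
    h =ᵐ[volume] fun t => ((t - a) ^ 2 + c ^ 2) ^ (p : ℝ) * P.eval t

/-- the exponent of `per N` in `B(x, y)`: `1` if `x`, `y` are not integers and `{x} + {y} ≤ 1` -/
def ew (x y : ℚ) : ℕ :=
  if Int.fract x ≠ 0 ∧ Int.fract y ≠ 0 ∧ Int.fract x + Int.fract y ≤ 1 then 1 else 0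

/-- the exponent of `qer N` in `B(x, y)`: `1` if `x`, `y` are not integers and `1 ≤ {x} + {y}` -/
def eh (x y : ℚ) : ℕ :=
  if Int.fract x ≠ 0 ∧ Int.fract y ≠ 0 ∧ 1 ≤ Int.fract x + Int.fract y then 1 else 0

/-- The types of the fibres.  A fibre of type `(a, b)` has an integral of the form
`v (per N)^a (qer N)^b`, where `v` is algebraic over the field generated by the base point, if `F` is
the relative algebraic closure of this field in `ℝ`. -/
inductive Fibre (N : ℕ) (F : Set ℝ) : ℕ → ℕ → (ℝ → ℝ) → Prop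
  | rational {h : ℝ → ℝ} (hh : RationalFibre h) : Fibre N F 1 1 h
  | twisted {h : ℝ → ℝ} (hh : TwistedFibre h) : Fibre N F 1 1 h
  | arc {h : ℝ → ℝ} (hh : ArcFibre h) : Fibre N F 1 1 h
  | primitive {h : ℝ → ℝ} (hh : PrimitiveFibre F h) : Fibre N F 0 0 h
  | odd {h : ℝ → ℝ} (a b : ℕ) (ha : a ≤ 1) (hb : b ≤ 1) (hh : OddFibre h) : Fibre N F a b h
  | betaIoo {h : ℝ → ℝ} (p q : ℚ) (hp : Adm N p) (hq : Adm N q) (hh : BetaIoo p q h) :
      Fibre N F (ew p q) (eh p q) h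
  | betaIoi {h : ℝ → ℝ} (p q : ℚ) (hp : Adm N p) (hq : Adm N q) (hh : BetaIoi p q h) :
      Fibre N F (ew p (-p - q)) (eh p (-p - q)) h
  | betaLine {h : ℝ → ℝ} (p : ℚ) (hp : Adm N p) (hh : BetaLine p h) :
      Fibre N F (ew (1 / 2) (-p - 1 / 2)) (eh (1 / 2) (-p - 1 / 2)) h

/-- `f` is almost everywhere `(per N)^i' (qer N)^j' g`, `i' ≤ i`, `j' ≤ j`, `g` semialgebraic -/
def UpTo (N i j : ℕ) {n : ℕ} (f : (Fin n → ℝ) → ℝ) : Prop :=
  ∃ i' ≤ i, ∃ j' ≤ j, ∃ g : (Fin n → ℝ) → ℝ, SemialgebraicFun g ∧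
    f =ᵐ[volume] fun x => per N ^ i' * qer N ^ j' * g x

/-- The functions whose integral can be computed step by step; `i`, `j` bound the degrees in `per N`
and `qer N` of the constants which have been collected.  `step`: all fibres (for almost all `y`) are of
the same type `(a, b)` and `y ↦ ∫ f(y, t) dt` is in the class for `i + a`, `j + b`. -/
inductive Iter (N : ℕ) : (n i j : ℕ) → ((Fin n → ℝ) → ℝ) → Prop
  | point (i j : ℕ) (f : (Fin 0 → ℝ) → ℝ) : Iter N 0 i j f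
  | step {n i j : ℕ} {f : (Fin (n + 1) → ℝ) → ℝ} (a b : ℕ) (hf : Integrable f)
      (h : ∀ᵐ y : Fin n → ℝ, Fibre N {r | AlgOver y r} a b (fun t => f (Fin.snoc y t)))
      (hg : Iter N n (i + a) (j + b) (fun y => ∫ t, f (Fin.snoc y t))) : Iter N (n + 1) i j f
  | sum {n i j : ℕ} {f f₁ f₂ : (Fin n → ℝ) → ℝ} (h : f =ᵐ[volume] fun x => f₁ x + f₂ x)
      (hf₁ : Integrable f₁) (hf₂ : Integrable f₂) (ha₁ : UpTo N i j f₁) (ha₂ : UpTo N i j f₂)
      (h₁ : Iter N n i j f₁) (h₂ : Iter N n i j f₂) : Iter N n i j f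
  | change {n i j : ℕ} {f g : (Fin n → ℝ) → ℝ} (hfg : Transport f g) (h : Iter N n i j g) :
      Iter N n i j f
  | move {n i j : ℕ} {f g g' : (Fin n → ℝ) → ℝ} (hg : Integrable g) (ha : UpTo N i j g)
      (hgg' : Transport g g') (h : f =ᵐ[volume] fun x => g x - g' x) : Iter N n i j f

/-- `v` is the integral of a semialgebraic function of the class -/
def IsQuarterIntegral (N : ℕ) (v : ℝ) : Prop :=
  ∃ (n i j : ℕ) (f : (Fin n → ℝ) → ℝ), SemialgebraicFun f ∧ Iter N n i j f ∧ v = ∫ x, f x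

/-- the algebra over the real algebraic numbers generated by these integrals -/
noncomputable def quarterRing (N : ℕ) : Subalgebra RealAlg ℝ :=
  Algebra.adjoin RealAlg {v : ℝ | IsQuarterIntegral N v}

/-- the function `P / (q_1^(m_1) ... q_n^(m_n))^(1/N)` -/
noncomputable def towerFun {n : ℕ} (N : ℕ) (q : Fin n → MultiPoly n) (P : MultiPoly n)
    (m : Fin n → ℕ) (x : Fin n → ℝ) : ℝ :=
  evalMulti P x / (∏ k, evalMulti (q k) x ^ m k) ^ ((1 : ℝ) / N)

/-- the function `P (1 - ∑ c_i x_i^(d_i))^(m/N)` on the set `x_i ≥ 0`, `∑ c_i x_i^(d_i) ≤ 1`, and zero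
elsewhere -/
noncomputable def diagFun {n : ℕ} (N : ℕ) (c : Fin n → RealAlg) (d : Fin n → ℕ) (m : ℤ)
    (P : MultiPoly n) (x : Fin n → ℝ) : ℝ :=
  {x : Fin n → ℝ | (∀ i, 0 ≤ x i) ∧ ∑ i, (c i : ℝ) * x i ^ d i ≤ 1}.indicator
    (fun x => evalMulti P x * (1 - ∑ i, (c i : ℝ) * x i ^ d i) ^ ((m : ℝ) / N)) x

end Pool.Agent.QP
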