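import Pool.Agent.ITR.St2
import Pool.Agent.QP.DefsB

/-!
# Quarter periods, part B: statements of the modules (helper91)

Every module `X` proves `theorem thm_X : St_X` (with other `St_Y` as hypotheses where indicated) in
`Pool/Agent/QP/X.lean`.  The complete proof of each statement is in its docstring.  Everything which is
called `ITR` is in `Pool/Agent/ITR/St.lean`, `St2.lean` (statements) and is proved there.  Throughout `N = 4` or `N = 6`,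
`w = per N`, `h = qer N`, `K = RealAlg`.  `K ⊆ k` for every `k` with `RC k`.
-/

set_option autoImplicit false

open MeasureTheory Filter Topology

namespace Pool.Agent.QP

open Pool.Agent.ITR Pool.Agent.Helper23.PeriodDefs
open Pool.Agent.Helper23.Quadric (PF evx)
open Pool.Agent.Helper23.PeriodProof (RB)

/-! ## Block 1: the beta function -/

/-- [BIN] the beta integral.
PROOF.  Mathlib: `Complex.betaIntegral_convergent`, `Complex.betaIntegral_eq_Gamma_mul_div` (or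
`Complex.Gamma_mul_Gamma_eq_betaIntegral`), the real version in `Mathlib/Probability/Distributions/Beta.lean`
(`ProbabilityTheory.beta_eq_betaIntegralReal` and the proof of `lintegral_betaPDF_eq_one` there).  Positivity:
`Real.Gamma_pos_of_pos`. -/
def St_BIN : Prop := ∀ x y : ℝ, 0 < x → 0 < y →
  IntegrableOn (fun t : ℝ => t ^ (x - 1) * (1 - t) ^ (y - 1)) (Set.Ioo 0 1) ∧
  ∫ t in Set.Ioo (0 : ℝ) 1, t ^ (x - 1) * (1 - t) ^ (y - 1) = bet x y ∧ 0 < bet x y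

/-- [BVL] the values of the beta function at `(1/N) ℤ`.
PROOF.  `ew`, `eh` depend only on `x`, `y` modulo `1` and are symmetric; `bet (x + 1) y = x/(x + y) * bet x y`, the same for
`y` (`Real.Gamma_add_one`); so let `0 < x, y ≤ 1`.  If `x = 1`: `bet 1 y = 1/y`, exponents `0`.  Let `0 < x, y < 1`.
`s = Γ(1/2) = √π` (`Real.Gamma_one_half_eq`), `Γ(x)Γ(1-x) = π/sin(πx)` (`Real.Gamma_mul_Gamma_one_sub`),
`Γ(x)Γ(x+1/2) = Γ(2x) 2^(1-2x) √π` (`Real.Gamma_mul_Gamma_add_half`).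
`w h = 4π` (`N = 4`), `w h = 2√3 π` (`N = 6`).  `x + y = 1`: `bet x y = π/sin(πx)`, exponents `(1, 1)`, `sin(πx)` is one of
`1, √2/2, √3/2, 1/2` (`x` in quarters or sixths).
`N = 4`: `bet(1/4,1/4) = √2 w`, `bet(3/4,3/4) = h/√2` (`Γ(1/4)Γ(3/4) = √2 π`).
`N = 6`: let `G = Γ(1/3)`, `H = Γ(2/3)`; `Γ(5/6) = 2^(1/3) s H/G`, `Γ(1/6) = 2^(2/3) s G/H`, `s^2 = (√3/2) G H`, so
`w = G^2/(2^(1/3) H)`, `h = 6 H^2/(2^(2/3) G)` and `bet(1/6,1/6) = 2^(2/3)√3 w`, `bet(1/6,1/3) = 2w`, `bet(1/6,1/2) = √3 w`,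
`bet(1/6,2/3) = 2^(2/3) w`, `bet(1/3,1/3) = 2^(1/3) w`; `bet(5/6,5/6) = √3 2^(-5/3) h`, `bet(5/6,2/3) = (2/3) h`,
`bet(5/6,1/2) = (√3/2) h`, `bet(5/6,1/3) = 2^(1/3) h`, `bet(2/3,2/3) = 2^(-1/3) h`.  All the others are symmetric, or
`w`, `h`, or have `x + y = 1`. -/
def St_BVL : Prop := ∀ N : ℕ, N = 4 ∨ N = 6 → ∀ x y : ℚ, (∃ z : ℤ, x * N = z) →
  (∃ z : ℤ, y * N = z) → 0 < x → 0 < y →
  ∃ a : RealAlg, bet x y = a * (per N ^ ew x y * qer N ^ eh x y)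

/-- [PIQ] `π` is a multiple of `w h`.  Hypothesis: `St_BVL` (or directly, see there).
PROOF.  `bet (1/2) (1/2) = Γ(1/2)^2/Γ(1) = π`, `ew (1/2) (1/2) = eh (1/2) (1/2) = 1`; `a ≠ 0` as `π ≠ 0`. -/
def St_PIQ : Prop := ∀ N : ℕ, N = 4 ∨ N = 6 →
  (∃ a : RealAlg, a ≠ 0 ∧ Real.pi = a * (per N * qer N)) ∧ 0 < per N ∧ 0 < qer N

/-! ## Block 2: descent -/

/-- [BDE] descent for `|t - a|^p |t - b|^q P(t)`.  Hypotheses: `ITR.St_RA1`, `ITR.St_RA2`.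
PROOF.  As `ITR.thm_TWD` (`Pool/Agent/ITR/TWD.lean`; its private lemmas `TWD_core`, `TWD_mult_pow`, `TWD_up_root`, `TWD_notint`,
.. may be copied).  Let `M = 2 * p.den * q.den`, `u = M p`, `v = M q` (even integers), so
`(|t-a|^p |t-b|^q P(t))^M = U(t) P(t)^M / V(t)`, `U = (X-a)^(u⁺) (X-b)^(v⁺)`, `V = (X-a)^(u⁻) (X-b)^(v⁻)`, on `I` (`t ≠ a, b`).
`TWD_core` with `Q = 1`: if `a ∉ k` then `u⁺ + M mult_a P = u⁻` (`a ≠ b`), so `p = u/M` is an integer, contradiction;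
the same for `b`; and `P up Q₁ = up P₁`, `Q₁ ≠ 0`.  So `up Q₁ ∣ up P₁`, hence `Q₁ ∣ P₁` in `k[X]` (`Polynomial.map_dvd_map'`),
`P₁ = Q₁ P₂` and `P = up P₂`. -/
def St_BDE : Prop := ∀ (k : IntermediateField ℚ ℝ), RC k →
  ∀ (P : Polynomial ℝ) (p q : ℚ) (a b : ℝ), P ≠ 0 → (∀ z : ℤ, p ≠ z) → (∀ z : ℤ, q ≠ z) → a ≠ b →
  ∀ I : Set ℝ, volume I ≠ 0 → a ∉ I → b ∉ I →
  (∀ᵐ t : ℝ, t ∈ I → AlgAt k t (|t - a| ^ (p : ℝ) * |t - b| ^ (q : ℝ) * P.eval t)) →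
  a ∈ k ∧ b ∈ k ∧ ∃ P₁ : Polynomial k, P = up k P₁

/-- [BDL] descent for `((t - a)^2 + c^2)^p P(t)`.  Hypotheses: `ITR.St_RA1`, `ITR.St_RA2`.
PROOF.  `M = p.den`, `u = p.num`, `B = (X - a)^2 + c^2`.  The `M`-th power of the function is `U P^M / V`, `U = B^(u⁺)`,
`V = B^(u⁻)` for all `t`.  RA1, RA2 as in `TWD_core`: `U P^M up Q₁ = up P₁ V`, `Q₁ ≠ 0`, `P₁ ≠ 0`.  Let `ζ = a + i c`; in
`ℂ[X]` the root `ζ` of `B` is simple.  If `ζ` is not algebraic over `k` then it is no root of `Q₁`, `P₁`; comparing the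
multiplicities of `ζ`: `u⁺ + M mult_ζ P = u⁻`, so `p = u/M` is an integer, contradiction.  So `ζ` and `conj ζ` are
algebraic over `k`, so are `a = (ζ + conj ζ)/2`, `c = (ζ - conj ζ)/(2i)`, and `a, c ∈ k` (`RC.cl`).  Now for all but
finitely many `t ∈ k` the number `U(t) P(t)^M/V(t)` is in `k` (RA1), so `P(t)^M ∈ k`, `P(t) ∈ k` (`IsAlgebraic.of_pow`); RA2 for
`P/1`, and divisibility as in BDE. -/
def St_BDL : Prop := ∀ (k : IntermediateField ℚ ℝ), RC k →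
  ∀ (P : Polynomial ℝ) (p : ℚ) (a c : ℝ), P ≠ 0 → (∀ z : ℤ, p ≠ z) → 0 < c →
  (∀ᵐ t : ℝ, AlgAt k t (((t - a) ^ 2 + c ^ 2) ^ (p : ℝ) * P.eval t)) →
  a ∈ k ∧ c ∈ k ∧ ∃ P₁ : Polynomial k, P = up k P₁

/-! ## Block 3: values -/

/-- [BIO] values on an interval.  Hypotheses: `St_BIN`, `St_BVL`.
PROOF.  `P = 0`: `v = 0`.  Otherwise `P = (X - a)^i (b - X)^j P'`, `P'(a) ≠ 0`, `P'(b) ≠ 0`, over `k` (`a, b ∈ k`).  Near `a` the
function is at least `c (t - a)^(p+i)` in absolute value, `c > 0`, so `p + i > -1`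
(`intervalIntegral.integrableOn_Ioo_rpow_iff`; see `Pool/Agent/ITR/INT.lean`), in the same way `q + j > -1`.
`P'(t) = ∑ c_l (t - a)^l`, `c_l ∈ k` (Taylor), and `∫_a^b (t-a)^(p+i+l) (b-t)^(q+j) dt = (b-a)^(p+q+i+j+l+1) bet (p+i+l+1) (q+j+1)`
(`t = a + (b-a) u`, BIN).  Rational powers of positive elements of `k` are in `k` (`RC.cl`, `IsAlgebraic.of_pow`).  BVL; `ew`,
`eh` do not change if integers are added to `p`, `q`. -/
def St_BIO : Prop := ∀ N : ℕ, N = 4 ∨ N = 6 → ∀ (k : IntermediateField ℚ ℝ), RC k →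
  ∀ (P : Polynomial k) (p q : ℚ) (a b : ℝ), (∃ z : ℤ, p * N = z) → (∃ z : ℤ, q * N = z) →
  a ∈ k → b ∈ k → a < b →
  IntegrableOn (fun t : ℝ => (t - a) ^ (p : ℝ) * (b - t) ^ (q : ℝ) * (up k P).eval t)
    (Set.Ioo a b) →
  ∃ v ∈ k, ∫ t in Set.Ioo a b, (t - a) ^ (p : ℝ) * (b - t) ^ (q : ℝ) * (up k P).eval t =
    v * (per N ^ ew p q * qer N ^ eh p q)

/-- [BII] values on half-lines.  Hypothesis: `St_BIO`.
PROOF.  First part: `t = (a - b u)/(1 - u)`, `u = (t - a)/(t - b) ∈ (0, 1)`, `t - b = (a-b)/(1-u)`, `t - a = (a-b) u/(1-u)`,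
`dt = (a-b)/(1-u)^2 du`; with `d = natDegree P`: `P(t) = (1-u)^(-d) P*(u)`, `P* ∈ k[X]` (`ITR.TWV_hom` in
`Pool/Agent/ITR/TWV.lean`, also the change of variables `ITR.TWV_cv`).  The integral is
`(a-b)^(p+q+1) ∫_0^1 u^p (1-u)^(-p-q-2-d) P*(u) du`; BIO for the exponents `p` and `-p-q-2-d`; `(a-b)^(p+q+1) ∈ k`.
Second part: the first for `-t`. -/
def St_BII : Prop := ∀ N : ℕ, N = 4 ∨ N = 6 → ∀ (k : IntermediateField ℚ ℝ), RC k →
  ∀ (P : Polynomial k) (p q : ℚ) (a b : ℝ), (∃ z : ℤ, p * N = z) → (∃ z : ℤ, q * N = z) →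
  a ∈ k → b ∈ k →
  (b < a → IntegrableOn (fun t : ℝ => (t - a) ^ (p : ℝ) * (t - b) ^ (q : ℝ) * (up k P).eval t)
      (Set.Ioi a) →
    ∃ v ∈ k, ∫ t in Set.Ioi a, (t - a) ^ (p : ℝ) * (t - b) ^ (q : ℝ) * (up k P).eval t =
      v * (per N ^ ew p (-p - q) * qer N ^ eh p (-p - q))) ∧
  (a < b → IntegrableOn (fun t : ℝ => (a - t) ^ (p : ℝ) * (b - t) ^ (q : ℝ) * (up k P).eval t)
      (Set.Iio a) →
    ∃ v ∈ k, ∫ t in Set.Iio a, (a - t) ^ (p : ℝ) * (b - t) ^ (q : ℝ) * (up k P).eval t =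
      v * (per N ^ ew p (-p - q) * qer N ^ eh p (-p - q)))

/-- [BIL] values on the line.  Hypothesis: `St_BII`.
PROOF.  Translation: `a = 0`, `P(a + X) = ∑ c_l X^l` over `k`.  `∫_ℝ g = ∫_0^∞ (g(t) + g(-t)) dt` and
`g(t) + g(-t) = 2 (t^2 + c^2)^p E(t^2)`, `E = ∑ c_(2i) X^i ∈ k[X]`.  `u = t^2`
(`integral_comp_rpow_Ioi`, `integrableOn_Ioi_comp_rpow_iff`): `∫_0^∞ u^(-1/2) (u + c^2)^p E(u) du`; BII, first part, for the
exponents `-1/2` and `p`, the points `0` and `-c^2`; the exponents of `w`, `h` are `ew (-1/2) (1/2 - p) = ew (1/2) (-p - 1/2)`.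
(Compare `Pool/Agent/ITR/RLN.lean`.) -/
def St_BIL : Prop := ∀ N : ℕ, N = 4 ∨ N = 6 → ∀ (k : IntermediateField ℚ ℝ), RC k →
  ∀ (P : Polynomial k) (p : ℚ) (a c : ℝ), (∃ z : ℤ, p * N = z) → a ∈ k → c ∈ k → 0 < c →
  Integrable (fun t : ℝ => ((t - a) ^ 2 + c ^ 2) ^ (p : ℝ) * (up k P).eval t) →
  ∃ v ∈ k, ∫ t : ℝ, ((t - a) ^ 2 + c ^ 2) ^ (p : ℝ) * (up k P).eval t =
    v * (per N ^ ew (1 / 2) (-p - 1 / 2) * qer N ^ eh (1 / 2) (-p - 1 / 2))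

/-- [FBQ] all fibres.  Hypotheses: `ITR.St_RLF`, `ITR.St_TWF`, `ITR.St_ARF`, `ITR.St_PAS`, `ITR.St_SCL`, `St_PIQ`, `St_BDE`, `St_BDL`,
`St_BIO`, `St_BII`, `St_BIL`.
PROOF.  Cases of `Fibre`.  rational, twisted, arc: the value is `v π = (v a) (w h)` by PIQ, `a ∈ K ⊆ k`.  primitive: PAS.
odd: the integral is `0` (SCL).  betaIoo: if `P = 0` the value is `0`; otherwise BDE for `I = (a, b)` (on `I`
`|t - a| = t - a`, `|t - b| = b - t`; `AlgAt` for the function from `h =ᵐ`), BIO.  betaIoi: BDE for `I = (a, ∞)` or `(-∞, a)`, BII.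
betaLine: BDL, BIL.  (Compare `Pool/Agent/ITR/TWF.lean`.) -/
def St_FBQ : Prop := ∀ N : ℕ, N = 4 ∨ N = 6 → ∀ (k : IntermediateField ℚ ℝ), RC k →
  ∀ (a b : ℕ) (g : ℝ → ℝ), Fibre N (k : Set ℝ) a b g → Integrable g →
  (∀ᵐ t : ℝ, AlgAt k t (g t)) → ∃ v ∈ k, ∫ t, g t = v * (per N ^ a * qer N ^ b)

/-- [SCQ] multiplication by constants, and the types are at most `1`.  Hypothesis: `ITR.St_SCL`.
PROOF.  Cases; `P` is replaced by `C c * P`. -/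
def St_SCQ : Prop := ∀ (N : ℕ) (F : Set ℝ) (a b : ℕ) (g : ℝ → ℝ), Fibre N F a b g →
  (a ≤ 1 ∧ b ≤ 1) ∧ ∀ c : ℝ, Fibre N F a b (fun t => c * g t)

/-! ## Block 4: the induction -/

/-- [INQ] the induction.  Hypotheses: `St_FBQ`, `St_SCQ`, `St_PIQ` (positivity), `ITR.St_FLD`, `ITR.St_FUB`, `ITR.St_CHG`,
`ITR.St_SAG`.
PROOF.  As `ITR.thm_IND` (`Pool/Agent/ITR/IND.lean`).  Induction on `Iter`.  point: `∫ f = f(0)`,
`f(0)/(w^i' h^j') = a ∈ K` (FLD 5), `F = a X_0^i' X_1^j'`.  step: by FUB and FLD for a.e. `y`: for a.e. `t` `f(y,t)/(w^i' h^j')` is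
`AlgAt (kf y) t`, of the same type as `f(y, ·)` (SCQ, `{r | AlgOver y r} = kf y`), integrable; FBQ: its integral is
`v w^a h^b`, `v ∈ kf y`.  So `(∫ f(y,t) dt)/(w^(i'+a) h^(j'+b))` is algebraic over `ℚ(y)`; the induction hypothesis for `i' + a`,
`j' + b`, `a, b ≤ 1` (if the fibre condition holds for some `y`, always the case as the measure is not zero); degrees
`≤ n + (i + a) ≤ (n + 1) + i`; FUB.  sum: `f₁ = w^i₁ h^j₁ g₁` a.e. with `g₁` semialgebraic, so `f₁/(w^i₁ h^j₁)` is algebraic (SAG with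
`A = univ`, see `IND_pi`), the same for `f₂`; `F = F₁ + F₂`.  change: CHG with `j = 0` for the functions `f/(w^i' h^j')`,
`g/(w^i' h^j')`; `∫ f = ∫ g`.  move: `∫ f = ∫ g - ∫ g' = 0`, `F = 0`. -/
def St_INQ : Prop := ∀ N : ℕ, N = 4 ∨ N = 6 → ∀ (n i j : ℕ) (f : (Fin n → ℝ) → ℝ),
  Iter N n i j f → ∀ i' ≤ i, ∀ j' ≤ j,
  (∀ᵐ x : Fin n → ℝ, AlgOver x (f x / (per N ^ i' * qer N ^ j'))) →
  ∃ F : MvPolynomial (Fin 2) RealAlg, F.degreeOf 0 ≤ n + i ∧ F.degreeOf 1 ≤ n + j ∧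
    ∫ x, f x = MvPolynomial.aeval ![per N, qer N] F

/-- [EXQ] the values of the beta function are integrals of the class.  Hypothesis: `St_BIN`.
PROOF.  `f(x) = x_0^(-u/N) (1 - x_0)^(-v/N)` for `0 < x_0 < 1` and `0` otherwise.  Its graph is the union of
`{0 < x, 0 < 1 - x, 0 < z, z^N x^u (1-x)^v = 1}` and of `{z = 0}` intersected with `x = 0`, `-x > 0`, `x = 1`, `x - 1 > 0`.  One step: fibre
`betaIoo` with `p = -u/N`, `q = -v/N`, `a = 0`, `b = 1`, `P = 1`; `Iter.point`.  The integral over `Fin 1 → ℝ` by the argument of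
`ITR.EXM` (`MeasureTheory.volume_preserving_funUnique`), BIN with `x = 1 - u/N`, `y = 1 - v/N`. -/
def St_EXQ : Prop := ∀ N : ℕ, N = 4 ∨ N = 6 → ∀ u v : ℕ, 0 < u → u < N → 0 < v → v < N →
  ∃ f : (Fin 1 → ℝ) → ℝ, SemialgebraicFun f ∧ Iter N 1 0 0 f ∧
    ∫ x, f x = bet (1 - (u : ℝ) / N) (1 - (v : ℝ) / N)

/-- [OLQ] the class of iterated residues is contained in the new one.  Hypothesis: `St_PIQ`.
PROOF.  (1) Monotone: `Iter N n i j f`, `i ≤ i₁`, `j ≤ j₁` give `Iter N n i₁ j₁ f` (induction; `UpTo` is monotone).  (2) Induction on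
`Iterated`: there is `l` with `Iter N n i j f` for all `i, j ≥ l`.  step: types (a), (b), (c), (e) have type `(1, 1)`, (d) has
type `(0, 0)`; `l` works for `n + 1` if it works for `n`.  sum: `PiSemialgebraicFun f` implies `UpTo N l l f` for large `l`:
`π^j g = w^j h^j (a^j g)` with `a` from PIQ, and `a^j g` is semialgebraic (substitute `z/a^j`, or `0`).  change, move: clear. -/
def St_OLQ : Prop := ∀ N : ℕ, N = 4 ∨ N = 6 →
  (∀ (n i j i₁ j₁ : ℕ) (f : (Fin n → ℝ) → ℝ), i ≤ i₁ → j ≤ j₁ → Iter N n i j f → Iter N n i₁ j₁ f) ∧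
  ∀ (n : ℕ) (f : (Fin n → ℝ) → ℝ), Iterated n f → ∃ l : ℕ, Iter N n l l f

/-! ## Block 5: independence and the final theorem -/

/-- the theorem of Chudnovsky, proved in `Pool/Agent/QP` (part A) -/
def Indep : Prop := ∀ N : ℕ, N = 4 ∨ N = 6 → AlgebraicIndependent ℚ ![per N, Real.pi]

/-- [IDQ] `w`, `h` are algebraically independent over `K`.  Hypothesis: `St_PIQ`.
PROOF.  `w, π` are algebraically independent over `K` (`K` is algebraic over `ℚ`; look for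
`AlgebraicIndependent.extendScalars` or `algebraicClosure`-lemmas in Mathlib).  `h = c π/w`, `c ∈ K`, `c ≠ 0`.  Let `F ≠ 0`,
`F(w, h) = 0`, `d` at least the degree.  `G = ∑ f_ij c^j X^(i + d - j) Y^j` satisfies `G(w, π) = w^d F(w, h) = 0`, and `G ≠ 0` as
`(i, j) ↦ (i + d - j, j)` is injective (`j ≤ d`); contradiction. -/
def St_IDQ : Prop := Indep → ∀ N : ℕ, N = 4 ∨ N = 6 → AlgebraicIndependent RealAlg ![per N, qer N]

/-- [UNQ] the ring of the values.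
PROOF.  `MvPolynomial (Fin 2) K ≃ Algebra.adjoin K {x, y}` (`AlgebraicIndependent.aevalEquiv`, the range of `![x, y]` is
`{x, y}`).  (1) If `r = F(x,y)`, `r⁻¹ = G(x,y)` then `F G = 1`, so `F` is a unit of the polynomial ring over a field, a
constant (`MvPolynomial.isUnit_iff_eq_C_of_isReduced` or degrees).  (2) `F` is unique: if `F(x,y) = a (x y)^l`, `a ≠ 0`, then
`F = C a * X_0^l X_1^l` and `degreeOf 0 F = l`. -/
def St_UNQ : Prop := ∀ x y : ℝ, AlgebraicIndependent RealAlg ![x, y] →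
  (∀ r ∈ Algebra.adjoin RealAlg {x, y}, r ≠ 0 → r⁻¹ ∈ Algebra.adjoin RealAlg {x, y} →
    ∃ a : RealAlg, r = a) ∧
  ∀ (F : MvPolynomial (Fin 2) RealAlg) (a : RealAlg) (l : ℕ), a ≠ 0 →
    MvPolynomial.aeval ![x, y] F = a * (x * y) ^ l → F.degreeOf 0 = l ∧ F.degreeOf 1 = l

/-- [FNQ] the final theorem.  Hypotheses: `Indep`, `St_IDQ`, `St_UNQ`, `St_INQ`, `St_EXQ`, `St_PIQ`, `ITR.St_SAG`.
PROOF.  (1) INQ with `i' = j' = 0`, SAG.  (2) IDQ.  (3) `⊆` by (1); `⊇`: `per N` and `qer N` are values of `bet` as in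
EXQ: `N = 4`: `(u, v) = (3, 2)`, `(1, 2)`; `N = 6`: `(4, 3)`, `(2, 3)`.  (4) UNQ.  (5) `π`, `per N`, `qer N` are in the ring and not
in `K` (`π = a w h`; `w ∈ K` contradicts (2), e.g. by `AlgebraicIndependent.transcendental`), so (4).  (6) if `∫ f = π^l` then
`F(w,h) = a^l (w h)^l` for the `F` of (1), so `l = degreeOf 0 F ≤ n` by UNQ.  -/
def St_FNQ : Prop := ∀ N : ℕ, N = 4 ∨ N = 6 →
  (∀ (n i j : ℕ) (f : (Fin n → ℝ) → ℝ), SemialgebraicFun f → Iter N n i j f →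
    ∃ F : MvPolynomial (Fin 2) RealAlg, F.degreeOf 0 ≤ n + i ∧ F.degreeOf 1 ≤ n + j ∧
      ∫ x, f x = MvPolynomial.aeval ![per N, qer N] F) ∧
  AlgebraicIndependent RealAlg ![per N, qer N] ∧
  quarterRing N = Algebra.adjoin RealAlg {per N, qer N} ∧
  (∀ r ∈ quarterRing N, r ≠ 0 → r⁻¹ ∈ quarterRing N → ∃ a : RealAlg, r = a) ∧
  ((Real.pi)⁻¹ ∉ quarterRing N ∧ (per N)⁻¹ ∉ quarterRing N ∧ (qer N)⁻¹ ∉ quarterRing N) ∧
  ∀ (n l : ℕ) (f : (Fin n → ℝ) → ℝ), SemialgebraicFun f → Iter N n 0 0 f → ∫ x, f x = Real.pi ^ l →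
    l ≤ n

/-! ## Block 6: explicit families -/

/-- [AEW] the class is closed under equality almost everywhere.
PROOF.  As `ITR.thm_AEC` (`Pool/Agent/ITR/AEC.lean`): `Iter.change` with `A = univ`, `φ = id`. -/
def St_AEW : Prop := ∀ (N n i j : ℕ) (f g : (Fin n → ℝ) → ℝ), f =ᵐ[volume] g → Iter N n i j g →
  Iter N n i j f

/-- [TPQ] the types of the fibres of the towers.
PROOF.  `q(t) > 0` and `M q(t) = (M t + b)^2 + s`.  If `N ∣ m`, `m = N l`: `(q^m)^(1/N) = q^l`, the fibre is a rational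
function, and the type is `(1, 1)` (`fract (m/N - 1/2) = 1/2`).  Otherwise `q(t) = M ((t + b/M)^2 + (√s/M)^2)`, so the fibre is
`((t - a)^2 + c^2)^(-m/N) P(t)` with `a = -b/M`, `c = √s/M`, `P = C (M^(-m/N)) * p`: `betaLine` for the exponent `-m/N`
(`Adm` as `N` does not divide `m`), of type `(ew (1/2) (m/N - 1/2), eh ..)`. -/
def St_TPQ : Prop := ∀ N : ℕ, N = 4 ∨ N = 6 → ∀ (p : Polynomial ℝ) (m : ℕ) (M b s : ℝ) (q : ℝ → ℝ),
  0 < M → 0 < s → (∀ t : ℝ, M * q t = (M * t + b) ^ 2 + s) →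
  ∀ F : Set ℝ, Fibre N F (ew (1 / 2) ((m : ℚ) / N - 1 / 2)) (eh (1 / 2) ((m : ℚ) / N - 1 / 2))
    (fun t : ℝ => p.eval t / (q t ^ m) ^ ((1 : ℝ) / N))

/-- [JJQ] the basic integrals.  Hypotheses: `St_BIN`, `St_BVL`.
PROOF.  (1) `σ = √(v/(1-v))`, `v ∈ (0, 1)` (or `u = σ^2`, then `u = v/(1-v)`): `2 ∫_0^∞ σ^(2j) (1+σ^2)^(-m/N) dσ =
bet (j + 1/2) (m/N - j - 1/2)`, both arguments positive and in `(1/N) ℤ`; `fract` as stated.  (2) for `l` odd: odd function.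
(3) If `∑ c_l σ^l (1 + σ^2)^(-m/N)` is integrable then `deg < 2m/N - 1`: the function behaves like `c_D |σ|^(D - 2m/N)`. -/
def St_JJQ : Prop := ∀ N : ℕ, N = 4 ∨ N = 6 → ∀ m : ℕ,
  (∀ j : ℕ, N * (2 * j + 1) < 2 * m → ∃ r : RealAlg,
    ∫ t : ℝ, t ^ (2 * j) * (1 + t ^ 2) ^ (-(m : ℝ) / N) =
      r * (per N ^ ew (1 / 2) ((m : ℚ) / N - 1 / 2) * qer N ^ eh (1 / 2) ((m : ℚ) / N - 1 / 2))) ∧
  (∀ j : ℕ, ∫ t : ℝ, t ^ (2 * j + 1) * (1 + t ^ 2) ^ (-(m : ℝ) / N) = 0) ∧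
  ∀ p : Polynomial ℝ, Integrable (fun t : ℝ => p.eval t * (1 + t ^ 2) ^ (-(m : ℝ) / N)) →
    (∀ l : ℕ, 2 * m ≤ N * (l + 1) → p.coeff l = 0) ∧
    ∀ l : ℕ, N * (l + 1) < 2 * m → Integrable (fun t : ℝ => t ^ l * (1 + t ^ 2) ^ (-(m : ℝ) / N))

/-- [ONQ] one integration.  Hypotheses: `ITR.St_SLS`, `St_JJQ`.
PROOF.  SLS: `P(y,t) = ∑_(k ≤ d) c_k(y) t^k`.  With `t = τ - b/M`: `M^d P(y, τ - b/M) = p₁(τ)`,
`p₁ = ∑_k C (c_k M^(d-k)) (C M * X - C b)^k ∈ (PF RB n)[X]`, `q = M τ^2 + s/M = (s/M) (1 + σ^2)`, `τ = (√s/M) σ`.  So the integral is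
`M^(-d) ∑_l p₁.coeff l ∫ (√s/M)^(l+1) σ^l (s/M)^(-m/N) (1 + σ^2)^(-m/N) dσ`, by JJQ only the `l = 2j` with `N (2j+1) < 2m` remain
(the coefficients for `2m ≤ N (l+1)` vanish at `y`), and it is
`w^.. h^.. ∑_j p₁.coeff (2j) r_j s^(j + 1/2 - m/N) M^(m/N - 2j - 1 - d)`.  With `C = m + N/2` and `A = N (2m + d + 1) - m` this is
`w^.. h^.. P₁/(M^A s^C)^(1/N)`, `P₁ = ∑_(j : N(2j+1) < 2m) p₁.coeff (2j) r_j s^(j+1) M^(2m - 2j)`
(`j < m`).  Model: `Pool/Agent/ITR/ONE.lean`. -/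
def St_ONQ : Prop := ∀ N : ℕ, N = 4 ∨ N = 6 → ∀ (n m : ℕ) (P q : (Fin (n + 1) → ℝ) → ℝ)
  (M b s : (Fin n → ℝ) → ℝ), P ∈ PF RB (n + 1) → M ∈ PF RB n → b ∈ PF RB n → s ∈ PF RB n →
  (∀ y, 0 < M y) → (∀ y, 0 < s y) →
  (∀ (y : Fin n → ℝ) (t : ℝ), M y * q (Fin.snoc y t) = (M y * t + b y) ^ 2 + s y) →
  ∃ P₁ ∈ PF RB n, ∃ A C : ℕ, ∀ y : Fin n → ℝ,
    Integrable (fun t : ℝ => P (Fin.snoc y t) / (q (Fin.snoc y t) ^ m) ^ ((1 : ℝ) / N)) →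
    ∫ t : ℝ, P (Fin.snoc y t) / (q (Fin.snoc y t) ^ m) ^ ((1 : ℝ) / N) =
      per N ^ ew (1 / 2) ((m : ℚ) / N - 1 / 2) * qer N ^ eh (1 / 2) ((m : ℚ) / N - 1 / 2) *
        (P₁ y / (M y ^ A * s y ^ C) ^ ((1 : ℝ) / N))

/-- [FMQ] the induction for abstract towers.  Hypotheses: `ITR.St_SLS`, `ITR.St_FUB`, `St_ONQ`, `St_TPQ`, `St_AEW`, `St_SCQ`.
PROOF.  As `ITR.thm_FAM` (`Pool/Agent/ITR/FAM.lean`).  Induction on `l`, for all `P`, `w`, `c`, `i`, `j`.  `l = 0`: `Iter.point`; the value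
at the only point is in `RB` (`N`-th roots of positive elements of `RB` are in `RB`: they are algebraic).  `l + 1`: `w = w₀ q^m`, the
fibre is `w₀(y)^(-1/N) P(y,t)/(q^m)^(1/N)`: TPQ (with SLS), SCQ; by ONQ its integral is
`w^a h^b P₁(y)/(w₀ M^A s^C)^(1/N)` for a.e. `y`, `a, b ≤ 1` the type, and `w₀ M^A s^C ∈ T l`.  FUB: integrable; if `per N ^ a * qer N ^ b` is
not zero (it is positive) so is `P₁/(..)^(1/N)`.  Induction hypothesis for the constant `c w^a h^b`, AEW, `Iter.step`.  (`RB` and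
`RealAlg`: `Pool/Agent/Helper23/PeriodProof.lean`.) -/
def St_FMQ : Prop := ∀ N : ℕ, N = 4 ∨ N = 6 →
  ∀ (n : ℕ) (T : ∀ l : ℕ, Submonoid ((Fin l → ℝ) → ℝ)), AbsTower n T →
  ∀ l, l ≤ n → ∀ P ∈ PF RB l, ∀ w ∈ T l,
  Integrable (fun x : Fin l → ℝ => P x / w x ^ ((1 : ℝ) / N)) →
  (∀ (c : ℝ) (i j : ℕ), Iter N l i j (fun x => c * (P x / w x ^ ((1 : ℝ) / N)))) ∧
  ∃ a ∈ RB, ∃ i ≤ l, ∃ j ≤ l, ∫ x : Fin l → ℝ, P x / w x ^ ((1 : ℝ) / N) =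
    a * (per N ^ i * qer N ^ j)

/-- [SFQ] `P/w^(1/N)` is semialgebraic.
PROOF.  As `ITR.thm_SAF`: `z = P(x)/w(x)^(1/N)` iff (`z^N w(x) = P(x)^N` and `0 < z P(x)`) or (`P(x) = 0` and `z = 0`); `N` is even and
positive, so `z^N w = P^N` and equal signs give `z w^(1/N) = P`. -/
def St_SFQ : Prop := ∀ N : ℕ, N = 4 ∨ N = 6 → ∀ (n : ℕ) (P w : MvPolynomial (Fin n) RealAlg),
  (∀ x : Fin n → ℝ, 0 < MvPolynomial.aeval x w) →
  SemialgebraicFun (fun x : Fin n → ℝ =>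
    MvPolynomial.aeval x P / (MvPolynomial.aeval x w) ^ ((1 : ℝ) / N))

/-- [QTQ] quadratic towers.  Hypotheses: `St_FMQ`, `ITR.St_ABT`, `St_SFQ`.
PROOF.  As `ITR.thm_QTW` (`Pool/Agent/ITR/QTW.lean`). -/
def St_QTQ : Prop := ∀ N : ℕ, N = 4 ∨ N = 6 → ∀ (n : ℕ) (q : Fin n → MultiPoly n), QuadTower q →
  ∀ (P : MultiPoly n) (m : Fin n → ℕ), Integrable (towerFun N q P m) →
  SemialgebraicFun (towerFun N q P m) ∧ Iter N n 0 0 (towerFun N q P m) ∧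
  ∃ (a : RealAlg) (i j : ℕ), i ≤ n ∧ j ≤ n ∧
    ∫ x, towerFun N q P m x = a * (per N ^ i * qer N ^ j)

/-- [DGM] diagonal polynomials, monomials.  Hypotheses: `ITR.St_FUB` (or `volume_preserving_piFinSuccAbove`), `St_BIN`, `St_BVL`.
PROOF.  Induction on `n` for all `m`.  `n = 0`: the integral is `1` (`0 ≤ 1`, `(1 - 0)^(m/N) = 1`).  `n + 1`: let `c, d, e` be the
last entries, `β = m/N > -1`, `S = ∑_(i < n) c_i y_i^(d_i)`.  The fibre over `y` (`y_i ≥ 0`, `S < 1`; for a.e. `y` the case `S = 1` does not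
occur, or there the fibre is null) is `t^e (1 - S - c t^d)^β` on `[0, ((1-S)/c)^(1/d)]`; `t = ((1-S) u/c)^(1/d)`: integral
`(1/d) c^(-(e+1)/d) (1-S)^(β + (e+1)/d) bet ((e+1)/d) (β+1)` (BIN, integrable).  `β + (e+1)/d = m'/N`, `m' = m + N (e+1)/d > -N` as
`d ∣ N`.  All functions are `≥ 0`: integrability of the whole by `integrable_prod_iff`-type results (Tonelli).  The constant
`(1/d) c^(-(e+1)/d)` is in `K`, BVL: exponents at most `1`. -/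
def St_DGM : Prop := ∀ N : ℕ, N = 4 ∨ N = 6 → ∀ (n : ℕ) (c : Fin n → RealAlg) (d e : Fin n → ℕ)
  (m : ℤ), (∀ i, 0 < (c i : ℝ)) → (∀ i, d i ∣ N) → -(N : ℤ) < m →
  Integrable (diagFun N c d m (∏ i, MvPolynomial.X i ^ e i)) ∧
  ∃ (a : RealAlg) (i j : ℕ), i ≤ n ∧ j ≤ n ∧
    ∫ x, diagFun N c d m (∏ i, MvPolynomial.X i ^ e i) x = a * (per N ^ i * qer N ^ j)

/-- [DGQ] diagonal polynomials.  Hypothesis: `St_DGM`.
PROOF.  `P` is a sum of monomials, `diagFun` is linear in `P` (`MvPolynomial.induction_on'` or `as_sum`). -/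
def St_DGQ : Prop := ∀ N : ℕ, N = 4 ∨ N = 6 → ∀ (n : ℕ) (c : Fin n → RealAlg) (d : Fin n → ℕ)
  (m : ℤ) (P : MultiPoly n), (∀ i, 0 < (c i : ℝ)) → (∀ i, d i ∣ N) → -(N : ℤ) < m →
  Integrable (diagFun N c d m P) ∧
  ∃ F : MvPolynomial (Fin 2) RealAlg, F.degreeOf 0 ≤ n ∧ F.degreeOf 1 ≤ n ∧
    ∫ x, diagFun N c d m P x = MvPolynomial.aeval ![per N, qer N] F

end Pool.Agent.QP
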