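import Pool.Agent.ITR.TWF
import Pool.Agent.QP.StB

/-!
# Quarter periods, module FBQ: all fibres
-/

set_option autoImplicit false

open MeasureTheory Filter Topology

namespace Pool.Agent.QP

open Pool.Agent.ITR Pool.Agent.Helper23.PeriodDefs

private theorem FBQ_pi (hPIQ : St_PIQ) {N : ℕ} (hN : N = 4 ∨ N = 6) (k : IntermediateField ℚ ℝ)
    (hk : RC k) {r : ℝ} (h : ∃ v ∈ k, r = v * Real.pi) :
    ∃ v ∈ k, r = v * (per N ^ 1 * qer N ^ 1) := by
  obtain ⟨v, hv, rfl⟩ := h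
  obtain ⟨⟨a, -, ha⟩, -⟩ := hPIQ N hN
  have hak : (a : ℝ) ∈ k := hk.cl _ ((mem_algebraicClosure_iff.1 a.2).tower_top k)
  refine ⟨v * a, mul_mem hv hak, ?_⟩
  rw [ha, pow_one, pow_one, mul_assoc]

/-- the fibre in terms of polynomials over `k` -/
private theorem FBQ_main (k : IntermediateField ℚ ℝ) (h w : ℝ → ℝ) (I : Set ℝ)
    (hI : MeasurableSet I) (P : Polynomial ℝ) (P₁ : Polynomial k) (hP : P = up k P₁)
    (hh : Integrable h) (he : h =ᵐ[volume] I.indicator (fun t => w t * P.eval t)) :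
    IntegrableOn (fun t : ℝ => w t * (up k P₁).eval t) I ∧
      ∫ t, h t = ∫ t in I, w t * (up k P₁).eval t := by
  rw [hP] at he
  constructor
  · rw [← integrable_indicator_iff hI]
    exact hh.congr he
  · rw [integral_congr_ae he, integral_indicator hI]

/-- the trivial case -/
private theorem FBQ_zero (h w : ℝ → ℝ) (I : Set ℝ)
    (he : h =ᵐ[volume] I.indicator (fun t => w t * (0 : Polynomial ℝ).eval t)) :
    ∫ t, h t = 0 := by
  have h1 : h =ᵐ[volume] fun _ => 0 := by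
    filter_upwards [he] with t h2
    rw [h2]
    by_cases ht : t ∈ I
    · rw [Set.indicator_of_mem ht, Polynomial.eval_zero, mul_zero]
    · rw [Set.indicator_of_notMem ht]
  rw [integral_congr_ae h1, integral_zero]

/-- descent -/
private theorem FBQ_desc (hBDE : St_BDE) (k : IntermediateField ℚ ℝ) (hk : RC k) (h w : ℝ → ℝ)
    (P : Polynomial ℝ) (p q : ℚ) (a b : ℝ) (hP : P ≠ 0) (hp : ∀ z : ℤ, p ≠ z)
    (hq : ∀ z : ℤ, q ≠ z) (hab : a ≠ b) (I : Set ℝ) (hI : volume I ≠ 0) (haI : a ∉ I)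
    (hbI : b ∉ I) (hw : ∀ t ∈ I, w t = |t - a| ^ (p : ℝ) * |t - b| ^ (q : ℝ))
    (he : h =ᵐ[volume] I.indicator (fun t => w t * P.eval t))
    (ha : ∀ᵐ t : ℝ, AlgAt k t (h t)) :
    a ∈ k ∧ b ∈ k ∧ ∃ P₁ : Polynomial k, P = up k P₁ := by
  refine hBDE k hk P p q a b hP hp hq hab I hI haI hbI ?_
  filter_upwards [he, ha] with t h1 h2 ht
  rw [h1, Set.indicator_of_mem ht, hw t ht] at h2
  exact h2

theorem thm_FBQ (hRLF : ITR.St_RLF) (hTWF : ITR.St_TWF) (hARF : ITR.St_ARF) (hPAS : ITR.St_PAS)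
    (hSCL : ITR.St_SCL) (hPIQ : St_PIQ) (hBDE : St_BDE) (hBDL : St_BDL) (hBIO : St_BIO)
    (hBII : St_BII) (hBIL : St_BIL) : St_FBQ := by
  intro N hN k hk a b g hg hi ha
  cases hg with
  | rational hh => exact FBQ_pi hPIQ hN k hk (hRLF k hk g hh hi ha)
  | twisted hh => exact FBQ_pi hPIQ hN k hk (hTWF k hk g hh hi ha)
  | arc hh => exact FBQ_pi hPIQ hN k hk (hARF k hk g hh hi ha)
  | primitive hh =>
    refine ⟨_, hPAS k hk g hh hi ha, ?_⟩
    rw [pow_zero, pow_zero, mul_one, mul_one]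
  | odd a b _ _ hh =>
    refine ⟨0, zero_mem k, ?_⟩
    rw [(hSCL 1 g).2.2.2.1 hh, zero_mul]
  | betaIoo p q hp hq hh =>
    obtain ⟨P, x, y, hxy, hh⟩ := hh
    by_cases hP : P = 0
    · rw [hP] at hh
      refine ⟨0, zero_mem k, ?_⟩
      rw [FBQ_zero g _ _ hh, zero_mul]
    · have hI : volume (Set.Ioo x y) ≠ 0 := by
        rw [Real.volume_Ioo]
        exact (ENNReal.ofReal_pos.2 (sub_pos.2 hxy)).ne'
      obtain ⟨hx, hy, P₁, hP₁⟩ := FBQ_desc hBDE k hk g _ P p q x y hP hp.2 hq.2 hxy.ne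
        (Set.Ioo x y) hI (fun h => lt_irrefl _ h.1) (fun h => lt_irrefl _ h.2)
        (fun t ht => by
          rw [abs_of_pos (sub_pos.2 ht.1), abs_sub_comm, abs_of_pos (sub_pos.2 ht.2)]) hh ha
      obtain ⟨h1, h2⟩ := FBQ_main k g _ _ measurableSet_Ioo P P₁ hP₁ hi hh
      obtain ⟨v, hv, hv2⟩ := hBIO N hN k hk P₁ p q x y hp.1 hq.1 hx hy hxy h1
      exact ⟨v, hv, by rw [h2, hv2]⟩
  | betaIoi p q hp hq hh =>
    obtain ⟨P, x, y, hh⟩ := hh
    by_cases hP : P = 0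
    · rw [hP] at hh
      refine ⟨0, zero_mem k, ?_⟩
      rw [zero_mul]
      rcases hh with ⟨-, hh⟩ | ⟨-, hh⟩
      · exact FBQ_zero g _ _ hh
      · exact FBQ_zero g _ _ hh
    · rcases hh with ⟨hxy, hh⟩ | ⟨hxy, hh⟩
      · have hI : volume (Set.Ioi x) ≠ 0 := by
          rw [Real.volume_Ioi]
          exact ENNReal.top_ne_zero
        obtain ⟨hx, hy, P₁, hP₁⟩ := FBQ_desc hBDE k hk g _ P p q x y hP hp.2 hq.2 hxy.ne'
          (Set.Ioi x) hI (fun h => lt_irrefl x h) (fun h => lt_asymm hxy h)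
          (fun t ht => by
            have h1 : x < t := ht
            rw [abs_of_pos (sub_pos.2 h1), abs_of_pos (sub_pos.2 (hxy.trans h1))]) hh ha
        obtain ⟨h1, h2⟩ := FBQ_main k g _ _ measurableSet_Ioi P P₁ hP₁ hi hh
        obtain ⟨v, hv, hv2⟩ := (hBII N hN k hk P₁ p q x y hp.1 hq.1 hx hy).1 hxy h1
        exact ⟨v, hv, by rw [h2, hv2]⟩
      · have hI : volume (Set.Iio x) ≠ 0 := by
          rw [Real.volume_Iio]
          exact ENNReal.top_ne_zero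
        obtain ⟨hx, hy, P₁, hP₁⟩ := FBQ_desc hBDE k hk g _ P p q x y hP hp.2 hq.2 hxy.ne
          (Set.Iio x) hI (fun h => lt_irrefl x h) (fun h => lt_asymm hxy h)
          (fun t ht => by
            have h1 : t < x := ht
            rw [abs_sub_comm, abs_of_pos (sub_pos.2 h1), abs_sub_comm,
              abs_of_pos (sub_pos.2 (h1.trans hxy))]) hh ha
        obtain ⟨h1, h2⟩ := FBQ_main k g _ _ measurableSet_Iio P P₁ hP₁ hi hh
        obtain ⟨v, hv, hv2⟩ := (hBII N hN k hk P₁ p q x y hp.1 hq.1 hx hy).2 hxy h1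
        exact ⟨v, hv, by rw [h2, hv2]⟩
  | betaLine p hp hh =>
    obtain ⟨P, x, c, hc, hh⟩ := hh
    by_cases hP : P = 0
    · refine ⟨0, zero_mem k, ?_⟩
      rw [integral_congr_ae hh, hP]
      simp
    · obtain ⟨hx, hck, P₁, hP₁⟩ := hBDL k hk P p x c hP hp.2 hc (by
        filter_upwards [hh, ha] with t h1 h2
        rw [h1] at h2
        exact h2)
      rw [hP₁] at hh
      obtain ⟨v, hv, hv2⟩ := hBIL N hN k hk P₁ p x c hp.1 hx hck hc (hi.congr hh)
      exact ⟨v, hv, by rw [integral_congr_ae hh, hv2]⟩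

end Pool.Agent.QP
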