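import Pool.Agent.QP.StB

/-!
# Quarter periods: the induction for abstract towers (module FMQ, helper6)
-/

set_option autoImplicit false

open MeasureTheory Filter Topology

namespace Pool.Agent.QP

open Pool.Agent.ITR Pool.Agent.Helper23 Pool.Agent.Helper23.PeriodDefs
open Pool.Agent.Helper23.Quadric (PF evx)
open Pool.Agent.Helper23.PeriodProof (RB mem_RB)

private theorem FMQ_bet {x y : ℝ} (hx : 0 < x) (hy : 0 < y) : 0 < bet x y := by
  unfold bet
  exact div_pos (mul_pos (Real.Gamma_pos_of_pos hx) (Real.Gamma_pos_of_pos hy))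
    (Real.Gamma_pos_of_pos (add_pos hx hy))

private theorem FMQ_per (N : ℕ) : 0 < per N := by
  unfold per
  split_ifs
  · exact FMQ_bet (by norm_num) (by norm_num)
  · exact FMQ_bet (by norm_num) (by norm_num)

private theorem FMQ_qer (N : ℕ) : 0 < qer N := by
  unfold qer
  split_ifs
  · exact FMQ_bet (by norm_num) (by norm_num)
  · exact FMQ_bet (by norm_num) (by norm_num)

private theorem FMQ_root {N : ℕ} (hN : 0 < N) {x : ℝ} (hx : x ∈ RB) (h0 : 0 < x) :
    x ^ ((1 : ℝ) / N) ∈ RB := by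
  rw [mem_RB] at hx ⊢
  apply IsAlgebraic.of_pow (n := N) hN
  have h1 : (x ^ ((1 : ℝ) / N)) ^ N = x := by
    rw [one_div]
    exact Real.rpow_inv_natCast_pow h0.le (by omega)
  rw [h1]
  exact hx

private theorem FMQ_ew (x y : ℚ) : ew x y ≤ 1 := by
  unfold ew
  split_ifs
  · exact le_rfl
  · exact Nat.zero_le _

private theorem FMQ_eh (x y : ℚ) : eh x y ≤ 1 := by
  unfold eh
  split_ifs
  · exact le_rfl
  · exact Nat.zero_le _

/-- [FMQ] the induction for abstract towers -/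
theorem thm_FMQ (hSLS : ITR.St_SLS) (hFUB : ITR.St_FUB) (hONQ : St_ONQ) (hTPQ : St_TPQ)
    (hAEW : St_AEW) (hSCQ : St_SCQ) : St_FMQ := by
  intro N hN n T hT l
  have hN0 : 0 < N := by omega
  induction l with
  | zero =>
    intro hl P hP w hw hint
    refine ⟨fun c i j => Iter.point i j _, P isEmptyElim / (w isEmptyElim) ^ ((1 : ℝ) / N), ?_,
      0, le_rfl, 0, le_rfl, ?_⟩
    · have h1 : ∀ i : Fin 0, (isEmptyElim : Fin 0 → ℝ) i ∈ RB := fun i => i.elim0
      obtain ⟨hwP, hw0⟩ := hT.pf 0 hl w hw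
      exact RB.div_mem (Quadric.mem_of_mem_PF hP h1)
        (FMQ_root hN0 (Quadric.mem_of_mem_PF hwP h1) (hw0 _))
    · rw [Quadric.integral_fin_zero, pow_zero, pow_zero, mul_one, mul_one]
  | succ l ih =>
    intro hl P hP w hw hint
    obtain ⟨M, b, s, q, hM, hs, hb, hq, hst⟩ := hT.st l (by omega)
    obtain ⟨w₀, hw₀, m, hwm⟩ := hst w hw
    obtain ⟨hMP, hM0⟩ := hT.pf l (by omega) M hM
    obtain ⟨hsP, hs0⟩ := hT.pf l (by omega) s hs
    obtain ⟨hw₀P, hw₀0⟩ := hT.pf l (by omega) w₀ hw₀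
    obtain ⟨p, hp⟩ := hSLS RB l P hP
    obtain ⟨P₁, hP₁, A, C, hint1⟩ := hONQ N hN l m P q M b s hP hMP hb hsP hM0 hs0 hq
    have hw₁T : w₀ * (M ^ A * s ^ C) ∈ T l :=
      (T l).mul_mem hw₀ ((T l).mul_mem ((T l).pow_mem hM A) ((T l).pow_mem hs C))
    obtain ⟨hF1, hF2, hF3⟩ := (hFUB l).1 _ hint
    obtain ⟨r, hr⟩ : ∃ r : ℝ, r = (1 : ℝ) / N := ⟨_, rfl⟩
    obtain ⟨ea, hea⟩ : ∃ ea : ℕ, ea = ew (1 / 2) ((m : ℚ) / N - 1 / 2) := ⟨_, rfl⟩
    obtain ⟨eb, heb⟩ : ∃ eb : ℕ, eb = eh (1 / 2) ((m : ℚ) / N - 1 / 2) := ⟨_, rfl⟩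
    have hea1 : ea ≤ 1 := by
      rw [hea]
      exact FMQ_ew _ _
    have heb1 : eb ≤ 1 := by
      rw [heb]
      exact FMQ_eh _ _
    rw [← hr] at hint hF1 hF2 hF3 hint1 ⊢
    rw [← hea, ← heb] at hint1
    have hq0 : ∀ (y : Fin l → ℝ) (t : ℝ), 0 < q (Fin.snoc y t) := by
      intro y t
      have h1 : 0 < M y * q (Fin.snoc y t) := by
        rw [hq]
        have h2 := hs0 y
        positivity
      exact (mul_pos_iff_of_pos_left (hM0 y)).1 h1
    have hdec : ∀ (y : Fin l → ℝ) (t : ℝ), P (Fin.snoc y t) / (w (Fin.snoc y t)) ^ r =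
        ((w₀ y) ^ r)⁻¹ * (P (Fin.snoc y t) / (q (Fin.snoc y t) ^ m) ^ r) := by
      intro y t
      rw [hwm, Real.mul_rpow (hw₀0 y).le (pow_pos (hq0 y t) m).le, inv_mul_eq_div, div_div,
        mul_comm]
    have hr0 : ∀ y : Fin l → ℝ, ((w₀ y) ^ r)⁻¹ ≠ 0 := fun y =>
      inv_ne_zero (Real.rpow_pos_of_pos (hw₀0 y) r).ne'
    simp only [hdec] at hF1 hF2 hF3
    have hsl : ∀ᵐ y : Fin l → ℝ,
        Integrable (fun t : ℝ => P (Fin.snoc y t) / (q (Fin.snoc y t) ^ m) ^ r) := by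
      filter_upwards [hF1] with y hy
      rwa [integrable_const_mul_iff (isUnit_iff_ne_zero.mpr (hr0 y))] at hy
    obtain ⟨κ, hκ⟩ : ∃ κ : ℝ, κ = per N ^ ea * qer N ^ eb := ⟨_, rfl⟩
    have hκ0 : κ ≠ 0 := by
      rw [hκ]
      exact (mul_pos (pow_pos (FMQ_per N) _) (pow_pos (FMQ_qer N) _)).ne'
    have hval : ∀ᵐ y : Fin l → ℝ,
        ∫ t : ℝ, ((w₀ y) ^ r)⁻¹ * (P (Fin.snoc y t) / (q (Fin.snoc y t) ^ m) ^ r) =
          κ * (P₁ y / ((w₀ * (M ^ A * s ^ C)) y) ^ r) := by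
      filter_upwards [hsl] with y hy
      rw [integral_const_mul, hint1 y hy, ← hκ]
      simp only [Pi.mul_apply, Pi.pow_apply]
      rw [Real.mul_rpow (hw₀0 y).le (mul_pos (pow_pos (hM0 y) _) (pow_pos (hs0 y) _)).le,
        inv_mul_eq_div, ← div_div, mul_div_assoc, div_right_comm]
    have hint₁ : Integrable (fun y : Fin l → ℝ =>
        P₁ y / ((w₀ * (M ^ A * s ^ C)) y) ^ r) := by
      have h1 := hF2.congr hval
      rwa [integrable_const_mul_iff (isUnit_iff_ne_zero.mpr hκ0)] at h1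
    have ih' := ih (by omega) P₁ hP₁ _ hw₁T
    rw [← hr] at ih'
    obtain ⟨hI, a, ha, i', hi', j', hj', hae⟩ := ih' hint₁
    refine ⟨fun c i j => ?_, a, ha, ea + i', by omega, eb + j', by omega, ?_⟩
    · have hfib : ∀ᵐ y : Fin l → ℝ, Fibre N {r | AlgOver y r} ea eb
          (fun t : ℝ => c * (P (Fin.snoc y t) / (w (Fin.snoc y t)) ^ r)) := by
        filter_upwards [hsl] with y hy
        have h2 : (fun t : ℝ => c * (P (Fin.snoc y t) / (w (Fin.snoc y t)) ^ r)) =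
            fun t : ℝ => (c * ((w₀ y) ^ r)⁻¹) *
              ((p.map (evx RB y)).eval t / (q (Fin.snoc y t) ^ m) ^ r) := by
          funext t
          rw [hdec, hp, mul_assoc]
        have h3 := hTPQ N hN (p.map (evx RB y)) m (M y) (b y) (s y)
          (fun t => q (Fin.snoc y t)) (hM0 y) (hs0 y) (hq y) {r | AlgOver y r}
        rw [← hr, ← hea, ← heb] at h3
        rw [h2]
        exact (hSCQ N _ ea eb _ h3).2 _
      refine Iter.step ea eb (hint.const_mul c) hfib ?_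
      refine hAEW N l _ _ _ _ ?_ (hI (c * κ) (i + ea) (j + eb))
      filter_upwards [hval] with y hy
      have h3 : (fun t : ℝ => c * (P (Fin.snoc y t) / (w (Fin.snoc y t)) ^ r)) =
          fun t : ℝ => c * (((w₀ y) ^ r)⁻¹ * (P (Fin.snoc y t) /
            (q (Fin.snoc y t) ^ m) ^ r)) := by
        funext t
        rw [hdec]
      rw [h3, integral_const_mul, hy, mul_assoc]
    · rw [hF3, integral_congr_ae hval, integral_const_mul, hae, hκ, pow_add, pow_add]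
      ring

end Pool.Agent.QP
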