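import Pool.Agent.QP.StB

/-!
# Quarter periods, part B: transfer of algebraic independence
-/

set_option autoImplicit false

open MeasureTheory Filter Topology

namespace Pool.Agent.QP

open Pool.Agent.ITR Pool.Agent.Helper23.PeriodDefs
open Pool.Agent.Helper23.Quadric (PF evx)
open Pool.Agent.Helper23.PeriodProof (RB)

/-- the exponent of the transformed monomial -/
private noncomputable def IDQ_m (d : ℕ) (e : Fin 2 →₀ ℕ) : Fin 2 →₀ ℕ :=
  Finsupp.single 0 (e 0 + (d - e 1)) + Finsupp.single 1 (e 1)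

private theorem IDQ_m_zero (d : ℕ) (e : Fin 2 →₀ ℕ) : IDQ_m d e 0 = e 0 + (d - e 1) := by
  simp [IDQ_m]

private theorem IDQ_m_one (d : ℕ) (e : Fin 2 →₀ ℕ) : IDQ_m d e 1 = e 1 := by
  simp [IDQ_m]

private theorem IDQ_inj (d : ℕ) (e e' : Fin 2 →₀ ℕ) (_he : e 1 ≤ d) (_he' : e' 1 ≤ d)
    (h : IDQ_m d e = IDQ_m d e') : e = e' := by
  have h0 := DFunLike.congr_fun h 0
  have h1 := DFunLike.congr_fun h 1
  rw [IDQ_m_zero, IDQ_m_zero] at h0
  rw [IDQ_m_one, IDQ_m_one] at h1
  ext i
  fin_cases i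
  · show e 0 = e' 0
    omega
  · exact h1

private theorem IDQ_aux (x p h : ℝ) (c : RealAlg) (hc : c ≠ 0)
    (hh : x * h = c * p) (hind : AlgebraicIndependent RealAlg ![x, p]) :
    AlgebraicIndependent RealAlg ![x, h] := by
  classical
  rw [algebraicIndependent_iff]
  intro F hF
  by_contra hne
  obtain ⟨d, hd⟩ : ∃ d : ℕ, ∀ e ∈ F.support, e 1 ≤ d :=
    ⟨F.degreeOf 1, fun e he => MvPolynomial.monomial_le_degreeOf 1 he⟩
  set G : MvPolynomial (Fin 2) RealAlg :=
    ∑ e ∈ F.support, MvPolynomial.monomial (IDQ_m d e) (F.coeff e * c ^ (e 1)) with hG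
  have hterm : ∀ e ∈ F.support,
      MvPolynomial.aeval ![x, p] (MvPolynomial.monomial (IDQ_m d e) (F.coeff e * c ^ (e 1))) =
        x ^ d * MvPolynomial.aeval ![x, h] (MvPolynomial.monomial e (F.coeff e)) := by
    intro e he
    rw [MvPolynomial.aeval_monomial, MvPolynomial.aeval_monomial,
      Finsupp.prod_fintype _ _ (fun i => pow_zero _), Finsupp.prod_fintype _ _ (fun i => pow_zero _),
      Fin.prod_univ_two, Fin.prod_univ_two, IDQ_m_zero, IDQ_m_one, map_mul, map_pow]
    have h1 : d = (d - e 1) + e 1 := by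
      have := hd e he
      omega
    have h2 : x ^ d = x ^ (d - e 1) * x ^ (e 1) := by
      rw [← pow_add, ← h1]
    have h3 : (algebraMap RealAlg ℝ c) * p = x * h := hh.symm
    simp only [Matrix.cons_val_zero, Matrix.cons_val_one]
    rw [h2, pow_add]
    calc (algebraMap RealAlg ℝ) (F.coeff e) * (algebraMap RealAlg ℝ) c ^ (e 1) *
          (x ^ (e 0) * x ^ (d - e 1) * p ^ (e 1))
        = (algebraMap RealAlg ℝ) (F.coeff e) * (x ^ (e 0) * x ^ (d - e 1)) *
          ((algebraMap RealAlg ℝ) c * p) ^ (e 1) := by ring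
      _ = (algebraMap RealAlg ℝ) (F.coeff e) * (x ^ (e 0) * x ^ (d - e 1)) *
          (x * h) ^ (e 1) := by rw [h3]
      _ = _ := by ring
  have hG0 : MvPolynomial.aeval ![x, p] G = 0 := by
    rw [hG, map_sum, Finset.sum_congr rfl hterm, ← Finset.mul_sum, ← map_sum,
      MvPolynomial.support_sum_monomial_coeff, hF, mul_zero]
  have hG1 : G = 0 := (algebraicIndependent_iff.1 hind) G hG0
  obtain ⟨e, he⟩ : F.support.Nonempty := by
    rw [Finset.nonempty_iff_ne_empty, Ne, MvPolynomial.support_eq_empty]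
    exact hne
  have hcoef : G.coeff (IDQ_m d e) = F.coeff e * c ^ (e 1) := by
    rw [hG, MvPolynomial.coeff_sum, Finset.sum_eq_single e]
    · rw [MvPolynomial.coeff_monomial, if_pos rfl]
    · intro e' he' hee
      rw [MvPolynomial.coeff_monomial, if_neg]
      intro hcontra
      exact hee (IDQ_inj d e' e (hd e' he') (hd e he) hcontra)
    · intro hcontra
      exact absurd he hcontra
  rw [hG1, MvPolynomial.coeff_zero] at hcoef
  have h4 : F.coeff e ≠ 0 := MvPolynomial.mem_support_iff.1 he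
  exact (mul_ne_zero h4 (pow_ne_zero _ hc)) hcoef.symm

/-- [IDQ] -/
theorem thm_IDQ (hPIQ : St_PIQ) : St_IDQ := by
  intro hI N hN
  obtain ⟨⟨a, ha, hpi⟩, hw, hh⟩ := hPIQ N hN
  have h1 : AlgebraicIndependent RealAlg ![per N, Real.pi] :=
    (hI N hN).extendScalars RealAlg
  have ha' : (a : ℝ) ≠ 0 := by
    intro h
    exact ha (by exact_mod_cast h)
  refine IDQ_aux (per N) Real.pi (qer N) a⁻¹ (inv_ne_zero ha) ?_ h1
  rw [hpi]
  push_cast
  field_simp

end Pool.Agent.QP
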