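import Pool.Agent.QP.StB

/-!
# Quarter periods, module INQ: the induction (helper82)
-/

set_option autoImplicit false

open MeasureTheory Filter Topology

namespace Pool.Agent.QP

open Pool.Agent.ITR Pool.Agent.Helper23.PeriodDefs

/-- the integral over a point -/
private theorem INQ_point (f : (Fin 0 → ℝ) → ℝ) (x : Fin 0 → ℝ) : ∫ y, f y = f x := by
  rw [integral_unique]
  have h : (volume : Measure (Fin 0 → ℝ)).real Set.univ = 1 := by
    simp [Measure.real, volume_pi]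
  rw [h, one_smul]
  exact congrArg f (Subsingleton.elim _ _)

/-- a property which holds almost everywhere on the point holds there -/
private theorem INQ_ae_point {P : (Fin 0 → ℝ) → Prop} (h : ∀ᵐ x : Fin 0 → ℝ, P x)
    (x : Fin 0 → ℝ) : P x := by
  by_contra hx
  have h1 : {y : Fin 0 → ℝ | ¬ P y} = Set.univ := by
    ext y
    have hy : y = x := Subsingleton.elim _ _
    simp only [Set.mem_ofPred_eq, Set.mem_univ, iff_true]
    rw [hy]; exact hx
  have h2 : (volume : Measure (Fin 0 → ℝ)) {y | ¬ P y} = 0 := h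
  rw [h1] at h2
  have h3 : (volume : Measure (Fin 0 → ℝ)) Set.univ = 1 := by simp [volume_pi]
  rw [h3] at h2
  exact one_ne_zero h2

/-- semialgebraic up to constants implies algebraic up to constants -/
private theorem INQ_upTo (hSAG : ITR.St_SAG) {N i j n : ℕ} (hw : 0 < per N) (hh : 0 < qer N)
    {f : (Fin n → ℝ) → ℝ} (hf : UpTo N i j f) :
    ∃ i' ≤ i, ∃ j' ≤ j, ∀ᵐ x : Fin n → ℝ, AlgOver x (f x / (per N ^ i' * qer N ^ j')) := by
  obtain ⟨i', hi', j', hj', g, hg, hfg⟩ := hf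
  refine ⟨i', hi', j', hj', ?_⟩
  filter_upwards [hfg] with x hx
  have h0 : per N ^ i' * qer N ^ j' ≠ 0 := (mul_pos (pow_pos hw _) (pow_pos hh _)).ne'
  have h1 : f x / (per N ^ i' * qer N ^ j') = g x := by
    rw [hx, mul_div_cancel_left₀ _ h0]
  rw [h1]
  refine hSAG n Set.univ g ?_ x (Set.mem_univ x)
  have h2 : {z : Fin (n + 1) → ℝ | Fin.init z ∈ Set.univ ∧ z (Fin.last n) = g (Fin.init z)} =
      {z : Fin (n + 1) → ℝ | z (Fin.last n) = g (Fin.init z)} := by
    ext z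
    simp
  rw [h2]
  exact hg

/-- one monomial -/
private theorem INQ_mon (x y : ℝ) (a : RealAlg) (i j : ℕ) :
    ∃ F : MvPolynomial (Fin 2) RealAlg, F.degreeOf 0 ≤ i ∧ F.degreeOf 1 ≤ j ∧
      MvPolynomial.aeval ![x, y] F = (a : ℝ) * (x ^ i * y ^ j) := by
  classical
  refine ⟨MvPolynomial.monomial (Finsupp.single 0 i + Finsupp.single 1 j) a, ?_, ?_, ?_⟩
  · rw [MvPolynomial.degreeOf_le_iff]
    intro m hm
    have := Finset.mem_singleton.1 (MvPolynomial.support_monomial_subset hm)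
    rw [this]
    simp
  · rw [MvPolynomial.degreeOf_le_iff]
    intro m hm
    have := Finset.mem_singleton.1 (MvPolynomial.support_monomial_subset hm)
    rw [this]
    simp
  · rw [MvPolynomial.aeval_monomial, Finsupp.prod_add_index', Finsupp.prod_single_index,
      Finsupp.prod_single_index]
    · rfl
    · simp
    · simp
    · simp
    · intro k m₁ m₂
      rw [pow_add]

theorem thm_INQ (hFBQ : St_FBQ) (hSCQ : St_SCQ) (hPIQ : St_PIQ) (hFLD : ITR.St_FLD)
    (hFUB : ITR.St_FUB) (hCHG : ITR.St_CHG) (hSAG : ITR.St_SAG) : St_INQ := by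
  intro N hN n i j f hf
  obtain ⟨hF1, hF2, hF3, hF4, hF5⟩ := hFLD
  obtain ⟨-, hw, hh⟩ := hPIQ N hN
  have hD : ∀ i j : ℕ, per N ^ i * qer N ^ j ≠ 0 := fun i j =>
    (mul_pos (pow_pos hw _) (pow_pos hh _)).ne'
  induction hf with
  | point i j f =>
    intro i' hi' j' hj' hj
    have h0 := INQ_ae_point hj 0
    have h1 := hF5 _ _ h0
    obtain ⟨F, d0, d1, hF⟩ := INQ_mon (per N) (qer N) ⟨f 0 / (per N ^ i' * qer N ^ j'), h1⟩ i' j'
    refine ⟨F, by omega, by omega, ?_⟩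
    rw [hF, INQ_point f 0]
    show f 0 = (f 0 / (per N ^ i' * qer N ^ j')) * (per N ^ i' * qer N ^ j')
    rw [div_mul_cancel₀ _ (hD i' j')]
  | @step n i j f a b hf h hg ih =>
    intro i' hi' j' hj' hj
    obtain ⟨hb1, hb2⟩ := hFUB n
    obtain ⟨hint, hint2, hval⟩ := hb1 f hf
    have hae := hb2 _ hj
    obtain ⟨y₀, hy₀⟩ := h.exists
    obtain ⟨⟨ha1, hb1'⟩, -⟩ := hSCQ _ _ _ _ _ hy₀
    have h1 : ∀ᵐ y : Fin n → ℝ, AlgOver y ((∫ t, f (Fin.snoc y t)) /
        (per N ^ (i' + a) * qer N ^ (j' + b))) := by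
      filter_upwards [h, hint, hae] with y hy1 hy2 hy3
      have hAt : ∀ᵐ t : ℝ, AlgAt (kf y) t
          ((per N ^ i' * qer N ^ j')⁻¹ * f (Fin.snoc y t)) := by
        filter_upwards [hy3] with t ht
        have := hF3 n y t _ ht
        rwa [div_eq_inv_mul] at this
      have hI : Integrable (fun t : ℝ => (per N ^ i' * qer N ^ j')⁻¹ * f (Fin.snoc y t)) :=
        hy2.const_mul _
      have hset : ({a | AlgOver y a} : Set ℝ) = (kf y : Set ℝ) := by
        ext a
        exact (hF2 n y a).symm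
      have hy4 := (hSCQ _ _ _ _ _ hy1).2 (per N ^ i' * qer N ^ j')⁻¹
      rw [hset] at hy4
      obtain ⟨v, hv1, hv2⟩ := hFBQ N hN (kf y) (hF1 n y) a b _ hy4 hI hAt
      rw [integral_const_mul] at hv2
      have h3 : (∫ t, f (Fin.snoc y t)) / (per N ^ (i' + a) * qer N ^ (j' + b)) = v := by
        rw [div_eq_iff (hD _ _)]
        have h4 : ∫ t, f (Fin.snoc y t) = (per N ^ i' * qer N ^ j') *
            ((per N ^ i' * qer N ^ j')⁻¹ * ∫ t, f (Fin.snoc y t)) := by
          rw [← mul_assoc, mul_inv_cancel₀ (hD _ _), one_mul]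
        rw [h4, hv2, pow_add, pow_add]
        ring
      rw [h3]
      exact (hF2 n y v).1 hv1
    obtain ⟨F, d0, d1, hF⟩ := ih (i' + a) (by omega) (j' + b) (by omega) h1
    exact ⟨F, by omega, by omega, by rw [hval]; exact hF⟩
  | @sum n i j f f₁ f₂ h hf₁ hf₂ ha₁ ha₂ h₁ h₂ ih₁ ih₂ =>
    intro i' hi' j' hj' hj
    obtain ⟨i₁, hi₁, j₁, hj₁, hA₁⟩ := INQ_upTo hSAG hw hh ha₁
    obtain ⟨i₂, hi₂, j₂, hj₂, hA₂⟩ := INQ_upTo hSAG hw hh ha₂
    obtain ⟨F₁, d01, d11, hF₁⟩ := ih₁ i₁ hi₁ j₁ hj₁ hA₁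
    obtain ⟨F₂, d02, d12, hF₂⟩ := ih₂ i₂ hi₂ j₂ hj₂ hA₂
    refine ⟨F₁ + F₂, (MvPolynomial.degreeOf_add_le _ _ _).trans (max_le d01 d02),
      (MvPolynomial.degreeOf_add_le _ _ _).trans (max_le d11 d12), ?_⟩
    rw [integral_congr_ae h, integral_add hf₁ hf₂, hF₁, hF₂, map_add]
  | @change n i j f g hfg h ih =>
    intro i' hi' j' hj' hj
    obtain ⟨A, φ, φ', hA, hφ, hinj, hsa, hdet, h0, hg⟩ := hfg
    have ha : ∀ᵐ x : Fin n → ℝ, x ∈ A → (∀ i, AlgOver x (φ x i)) ∧ AlgOver x (φ' x).det := by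
      filter_upwards [hdet] with x hx hxA
      exact ⟨fun i => hSAG n A (fun x => φ x i) (hsa i) x hxA, hx hxA⟩
    obtain ⟨c1, -⟩ := hCHG n f g A φ φ' hA hφ hinj ha h0 hg
    obtain ⟨-, c2⟩ := hCHG n (fun z => f z / (per N ^ i' * qer N ^ j'))
      (fun z => g z / (per N ^ i' * qer N ^ j')) A φ φ' hA hφ hinj ha
      (by
        filter_upwards [h0] with z hz hzA
        rw [hz hzA, zero_div])
      (by
        filter_upwards [hg] with z hz
        rw [hz]
        by_cases hzA : z ∈ A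
        · rw [Set.indicator_of_mem hzA, Set.indicator_of_mem hzA, mul_div_assoc]
        · rw [Set.indicator_of_notMem hzA, Set.indicator_of_notMem hzA, zero_div])
    have c3 := c2 0 (by simpa only [pow_zero, div_one] using hj)
    simp only [pow_zero, div_one] at c3
    obtain ⟨F, d0, d1, hF⟩ := ih i' hi' j' hj' c3
    exact ⟨F, d0, d1, by rw [c1]; exact hF⟩
  | @move n i j f g g' hg ha hgg' h =>
    intro i' hi' j' hj' _
    obtain ⟨A, φ, φ', hA, hφ, hinj, hsa, hdet, h0, hg'⟩ := hgg'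
    have ha' : ∀ᵐ x : Fin n → ℝ, x ∈ A → (∀ i, AlgOver x (φ x i)) ∧ AlgOver x (φ' x).det := by
      filter_upwards [hdet] with x hx hxA
      exact ⟨fun i => hSAG n A (fun x => φ x i) (hsa i) x hxA, hx hxA⟩
    obtain ⟨c1, -⟩ := hCHG n g g' A φ φ' hA hφ hinj ha' h0 hg'
    have hI : Integrable g' := by
      refine Integrable.congr ?_ hg'.symm
      rw [integrable_indicator_iff hA]
      exact (integrableOn_image_iff_integrableOn_abs_det_fderiv_smul volume hA hφ hinj g).1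
        hg.integrableOn
    refine ⟨0, by simp, by simp, ?_⟩
    rw [integral_congr_ae h, integral_sub hg hI, c1, sub_self, map_zero]

end Pool.Agent.QP
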