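import Pool.Agent.QP.StB

/-!
# Quarter periods, module JJQ: the basic integrals of t^(2j) (1 + t^2)^(-m/N)
-/

set_option autoImplicit false

open MeasureTheory Filter Topology

namespace Pool.Agent.QP

open Pool.Agent.ITR Pool.Agent.Helper23.PeriodDefs

private theorem JJQ_beta (x s : ℝ) :
    ∫ u in Set.Ioi (0 : ℝ), u ^ (x - 1) * (1 + u) ^ (-s) =
      ∫ v in Set.Ioo (0 : ℝ) 1, v ^ (x - 1) * (1 - v) ^ (s - x - 1) := by
  have himg : (fun v : ℝ => v / (1 - v)) '' Set.Ioo 0 1 = Set.Ioi 0 := by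
    ext u
    constructor
    · rintro ⟨v, ⟨h0, h1⟩, rfl⟩
      exact div_pos h0 (by linarith)
    · intro hu
      have hu' : 0 < u := hu
      refine ⟨u / (1 + u), ⟨by positivity, ?_⟩, ?_⟩
      · rw [div_lt_one (by positivity)]
        linarith
      · have h1 : (1 : ℝ) + u ≠ 0 := by positivity
        have h2 : 1 - u / (1 + u) = 1 / (1 + u) := by
          field_simp
          ring
        change u / (1 + u) / (1 - u / (1 + u)) = u
        rw [h2]
        field_simp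
  have hder : ∀ v ∈ Set.Ioo (0 : ℝ) 1, HasDerivWithinAt (fun v : ℝ => v / (1 - v))
      (1 / (1 - v) ^ 2) (Set.Ioo 0 1) v := by
    intro v hv
    have hw : (1 : ℝ) - v ≠ 0 := by
      have := hv.2
      intro h
      linarith
    have h1 := (hasDerivAt_id v).div ((hasDerivAt_const v (1 : ℝ)).sub (hasDerivAt_id v)) hw
    have h2 : HasDerivAt (fun v : ℝ => v / (1 - v)) (1 / (1 - v) ^ 2) v := by
      refine HasDerivAt.congr_deriv h1 ?_
      simp only [id, Pi.sub_apply]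
      congr 1
      ring
    exact h2.hasDerivWithinAt
  have hinj : Set.InjOn (fun v : ℝ => v / (1 - v)) (Set.Ioo 0 1) := by
    intro a ha b hb hab
    have h1 : (1 : ℝ) - a ≠ 0 := by
      have := ha.2
      intro h
      linarith
    have h2 : (1 : ℝ) - b ≠ 0 := by
      have := hb.2
      intro h
      linarith
    have h3 : a / (1 - a) = b / (1 - b) := hab
    rw [div_eq_div_iff h1 h2] at h3
    linarith
  have h := integral_image_eq_integral_abs_deriv_smul (measurableSet_Ioo) hder hinj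
    (fun u : ℝ => u ^ (x - 1) * (1 + u) ^ (-s))
  rw [himg] at h
  rw [h]
  refine setIntegral_congr_fun measurableSet_Ioo fun v hv => ?_
  obtain ⟨h0, h1⟩ := hv
  obtain ⟨w, hw⟩ : ∃ w : ℝ, w = 1 - v := ⟨_, rfl⟩
  have hw0 : 0 < w := by linarith
  have e1 : (1 : ℝ) + v / w = w⁻¹ := by
    rw [hw] at hw0 ⊢
    field_simp
    ring
  change |1 / (1 - v) ^ 2| * ((v / (1 - v)) ^ (x - 1) * (1 + v / (1 - v)) ^ (-s)) =
    v ^ (x - 1) * (1 - v) ^ (s - x - 1)
  rw [← hw, e1, Real.div_rpow h0.le hw0.le, Real.inv_rpow hw0.le, Real.rpow_neg hw0.le, inv_inv]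
  rw [abs_of_pos (by positivity : (0 : ℝ) < 1 / w ^ 2)]
  have e2 : (1 : ℝ) / w ^ 2 = w ^ (-2 : ℝ) := by
    rw [Real.rpow_neg hw0.le, Real.rpow_two, one_div]
  have e3 : v ^ (x - 1) / w ^ (x - 1) = v ^ (x - 1) * w ^ (-(x - 1)) := by
    rw [Real.rpow_neg hw0.le, div_eq_mul_inv]
  rw [e2, e3]
  have e4 : w ^ (s - x - 1) = w ^ (-2 : ℝ) * w ^ (-(x - 1)) * w ^ s := by
    rw [← Real.rpow_add hw0, ← Real.rpow_add hw0]
    congr 1
    ring
  rw [e4]
  ring

private theorem JJQ_sq (j : ℕ) (s : ℝ) :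
    ∫ t : ℝ, t ^ (2 * j) * (1 + t ^ 2) ^ (-s) =
      ∫ u in Set.Ioi (0 : ℝ), u ^ (((j : ℝ) + 1 / 2) - 1) * (1 + u) ^ (-s) := by
  have e1 : (fun t : ℝ => t ^ (2 * j) * (1 + t ^ 2) ^ (-s)) =
      fun t : ℝ => (fun r : ℝ => r ^ (2 * j) * (1 + r ^ 2) ^ (-s)) |t| := by
    funext t
    change t ^ (2 * j) * (1 + t ^ 2) ^ (-s) = |t| ^ (2 * j) * (1 + |t| ^ 2) ^ (-s)
    rw [pow_mul, pow_mul, sq_abs]
  rw [e1, integral_comp_abs (f := fun r : ℝ => r ^ (2 * j) * (1 + r ^ 2) ^ (-s))]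
  rw [← integral_comp_rpow_Ioi_of_pos
    (g := fun u : ℝ => u ^ (((j : ℝ) + 1 / 2) - 1) * (1 + u) ^ (-s)) (p := 2) (by norm_num)]
  rw [← integral_const_mul]
  refine setIntegral_congr_fun measurableSet_Ioi fun x hx => ?_
  have hx0 : (0 : ℝ) < x := hx
  change 2 * (x ^ (2 * j) * (1 + x ^ 2) ^ (-s)) =
    (2 * x ^ ((2 : ℝ) - 1)) * ((x ^ (2 : ℝ)) ^ (((j : ℝ) + 1 / 2) - 1) *
      (1 + x ^ (2 : ℝ)) ^ (-s))
  have e2 : x ^ (2 * j) = x ^ ((2 : ℝ) - 1) * (x ^ (2 : ℝ)) ^ (((j : ℝ) + 1 / 2) - 1) := by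
    rw [← Real.rpow_mul hx0.le, ← Real.rpow_add hx0, ← Real.rpow_natCast]
    congr 1
    push_cast
    ring
  rw [Real.rpow_two] at e2 ⊢
  rw [e2]
  ring

private theorem JJQ_odd (j : ℕ) (s : ℝ) :
    ∫ t : ℝ, t ^ (2 * j + 1) * (1 + t ^ 2) ^ (-s) = 0 := by
  have h := integral_neg_eq_self (fun t : ℝ => t ^ (2 * j + 1) * (1 + t ^ 2) ^ (-s)) volume
  have e : (fun t : ℝ => (-t) ^ (2 * j + 1) * (1 + (-t) ^ 2) ^ (-s)) =
      fun t : ℝ => -(t ^ (2 * j + 1) * (1 + t ^ 2) ^ (-s)) := by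
    funext t
    rw [neg_sq, Odd.neg_pow (odd_two_mul_add_one j)]
    ring
  rw [e, integral_neg] at h
  linarith

private theorem JJQ_mono (l : ℕ) (s : ℝ) (h : (l : ℝ) + 1 < 2 * s) :
    Integrable (fun t : ℝ => t ^ l * (1 + t ^ 2) ^ (-s)) := by
  have h1 : Integrable (fun t : ℝ => ((1 : ℝ) + ‖t‖ ^ 2) ^ (-(2 * s - l) / 2)) :=
    integrable_rpow_neg_one_add_norm_sq (by
      rw [Module.finrank_self]
      push_cast
      linarith)
  refine h1.mono' ?_ (Eventually.of_forall fun t => ?_)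
  · have hc : Continuous (fun t : ℝ => t ^ l * (1 + t ^ 2) ^ (-s)) := by
      refine (continuous_pow l).mul (Continuous.rpow_const (by fun_prop) fun t => Or.inl ?_)
      positivity
    exact hc.aestronglyMeasurable
  · have hp : (0 : ℝ) < 1 + t ^ 2 := by positivity
    rw [norm_mul, norm_pow, Real.norm_eq_abs, Real.norm_eq_abs, sq_abs,
      abs_of_pos (Real.rpow_pos_of_pos hp _)]
    have h2 : |t| ^ l ≤ (1 + t ^ 2) ^ ((l : ℝ) / 2) := by
      have h3 : |t| ≤ (1 + t ^ 2) ^ ((1 : ℝ) / 2) := by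
        rw [← Real.sqrt_eq_rpow]
        apply Real.le_sqrt_of_sq_le
        rw [sq_abs]
        linarith
      calc |t| ^ l ≤ ((1 + t ^ 2) ^ ((1 : ℝ) / 2)) ^ l := pow_le_pow_left₀ (abs_nonneg t) h3 l
        _ = (1 + t ^ 2) ^ ((l : ℝ) / 2) := by
          rw [← Real.rpow_natCast, ← Real.rpow_mul hp.le]
          congr 1
          ring
    calc |t| ^ l * (1 + t ^ 2) ^ (-s) ≤ (1 + t ^ 2) ^ ((l : ℝ) / 2) * (1 + t ^ 2) ^ (-s) :=
          mul_le_mul_of_nonneg_right h2 (Real.rpow_pos_of_pos hp _).le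
      _ = (1 + t ^ 2) ^ (-(2 * s - l) / 2) := by
        rw [← Real.rpow_add hp]
        congr 1
        ring

private theorem JJQ_deg (p : Polynomial ℝ) (s : ℝ) (hs : 0 ≤ s) (hp : p ≠ 0)
    (h : Integrable (fun t : ℝ => p.eval t * (1 + t ^ 2) ^ (-s))) :
    (p.natDegree : ℝ) + 1 < 2 * s := by
  have h1 := (Polynomial.isEquivalent_atTop_lead p).isBigO_symm
  have hlc : p.leadingCoeff ≠ 0 := Polynomial.leadingCoeff_ne_zero.mpr hp
  have h2 : (fun x : ℝ => x ^ p.natDegree) =O[atTop] fun x => p.eval x :=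
    (Asymptotics.isBigO_const_mul_left_iff hlc).mp h1
  have h3 : (fun x : ℝ => x ^ (-(2 * s))) =O[atTop] fun x : ℝ => (1 + x ^ 2) ^ (-s) := by
    refine Asymptotics.IsBigO.of_bound ((2 : ℝ) ^ s) ?_
    filter_upwards [eventually_ge_atTop (1 : ℝ)] with x hx
    have hx0 : 0 < x := by linarith
    have hp0 : (0 : ℝ) < 1 + x ^ 2 := by positivity
    rw [Real.norm_of_nonneg (Real.rpow_pos_of_pos hx0 _).le,
      Real.norm_of_nonneg (Real.rpow_pos_of_pos hp0 _).le]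
    have e1 : x ^ (-(2 * s)) = (2 : ℝ) ^ s * (2 * x ^ 2) ^ (-s) := by
      rw [Real.mul_rpow (by norm_num) (by positivity), ← mul_assoc, ← Real.rpow_add (by norm_num),
        add_neg_cancel, Real.rpow_zero, one_mul, ← Real.rpow_two, ← Real.rpow_mul hx0.le]
      congr 1
      ring
    rw [e1]
    refine mul_le_mul_of_nonneg_left ?_ (by positivity)
    refine Real.rpow_le_rpow_of_nonpos hp0 ?_ (by linarith)
    nlinarith
  have h4 : (fun x : ℝ => x ^ ((p.natDegree : ℝ) - 2 * s)) =O[atTop]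
      fun x : ℝ => p.eval x * (1 + x ^ 2) ^ (-s) := by
    refine (h2.mul h3).congr' ?_ (EventuallyEq.refl _ _)
    filter_upwards [eventually_gt_atTop (0 : ℝ)] with x hx
    rw [← Real.rpow_natCast, ← Real.rpow_add hx]
    rfl
  have h5 : IntegrableAtFilter (fun x : ℝ => x ^ ((p.natDegree : ℝ) - 2 * s)) atTop volume := by
    refine h4.integrableAtFilter ?_ (h.integrableAtFilter atTop)
    refine ⟨Set.univ, univ_mem, ?_⟩
    rw [Measure.restrict_univ]
    exact (Measurable.pow_const measurable_id _).aestronglyMeasurable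
  have h6 := integrableAtFilter_rpow_atTop_iff.mp h5
  linarith

theorem thm_JJQ (hB : St_BIN) (hV : St_BVL) : St_JJQ := by
  intro N hN m
  have hN0 : 0 < N := by rcases hN with rfl | rfl <;> norm_num
  have hNR : (0 : ℝ) < N := by exact_mod_cast hN0
  have hNQ : (0 : ℚ) < N := by exact_mod_cast hN0
  have hexp : -(m : ℝ) / N = -((m : ℝ) / N) := by rw [neg_div]
  rw [hexp]
  refine ⟨?_, ?_, ?_⟩
  · intro j hj
    have hjQ : (N : ℚ) * (2 * j + 1) < 2 * m := by exact_mod_cast hj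
    obtain ⟨x, hx⟩ : ∃ x : ℚ, x = (j : ℚ) + 1 / 2 := ⟨_, rfl⟩
    obtain ⟨y, hy⟩ : ∃ y : ℚ, y = (m : ℚ) / N - 1 / 2 - j := ⟨_, rfl⟩
    have hx0 : 0 < x := by rw [hx]; positivity
    have hy0 : 0 < y := by
      rw [hy, sub_sub, sub_pos, lt_div_iff₀ hNQ]
      linarith
    have hxz : ∃ z : ℤ, x * N = z := by
      rcases hN with rfl | rfl
      · exact ⟨4 * j + 2, by rw [hx]; push_cast; ring⟩
      · exact ⟨6 * j + 3, by rw [hx]; push_cast; ring⟩
    have hyz : ∃ z : ℤ, y * N = z := by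
      rcases hN with rfl | rfl
      · exact ⟨m - 2 - 4 * j, by rw [hy]; push_cast; ring⟩
      · exact ⟨m - 3 - 6 * j, by rw [hy]; push_cast; ring⟩
    obtain ⟨a, ha⟩ := hV N hN x y hxz hyz hx0 hy0
    have hfx : Int.fract x = Int.fract (1 / 2 : ℚ) := by
      rw [hx, Int.fract_natCast_add]
    have hfy : Int.fract y = Int.fract ((m : ℚ) / N - 1 / 2) := by
      rw [hy, Int.fract_sub_natCast]
    have hew : ew x y = ew (1 / 2) ((m : ℚ) / N - 1 / 2) := by
      unfold ew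
      rw [hfx, hfy]
    have heh : eh x y = eh (1 / 2) ((m : ℚ) / N - 1 / 2) := by
      unfold eh
      rw [hfx, hfy]
    refine ⟨a, ?_⟩
    rw [JJQ_sq, JJQ_beta]
    have hxR : ((x : ℚ) : ℝ) = (j : ℝ) + 1 / 2 := by rw [hx]; push_cast; ring
    have hyR : ((y : ℚ) : ℝ) = (m : ℝ) / N - ((j : ℝ) + 1 / 2) := by rw [hy]; push_cast; ring
    rw [← hxR, ← hew, ← heh, ← ha]
    have hBI := (hB (x : ℝ) (y : ℝ) (by exact_mod_cast hx0) (by exact_mod_cast hy0)).2.1
    rw [← hBI, hyR, ← hxR]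
  · intro j
    exact JJQ_odd j _
  · intro p hp
    have hs : (0 : ℝ) ≤ (m : ℝ) / N := by positivity
    refine ⟨?_, ?_⟩
    · intro l hl
      by_cases hp0 : p = 0
      · rw [hp0, Polynomial.coeff_zero]
      have hd := JJQ_deg p _ hs hp0 hp
      refine Polynomial.coeff_eq_zero_of_natDegree_lt ?_
      have hlR : (2 : ℝ) * m ≤ N * (l + 1) := by exact_mod_cast hl
      have h1 : 2 * ((m : ℝ) / N) ≤ l + 1 := by
        rw [← mul_div_assoc, div_le_iff₀ hNR]
        linarith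
      have h2 : (p.natDegree : ℝ) < l := by linarith
      exact_mod_cast h2
    · intro l hl
      refine JJQ_mono l _ ?_
      have hlR : (N : ℝ) * (l + 1) < 2 * m := by exact_mod_cast hl
      rw [← mul_div_assoc, lt_div_iff₀ hNR]
      linarith

end Pool.Agent.QP
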