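import Pool.Agent.QP.StB

/-!
# [OLQ] the class of iterated residues is contained in the class for quarter periods (helper79)
-/

set_option autoImplicit false

open MeasureTheory Filter Topology

namespace Pool.Agent.QP

open Pool.Agent.ITR Pool.Agent.Helper23.PeriodDefs

/-- a nonzero algebraic multiple of a semialgebraic function is semialgebraic -/
private theorem OLQ_scale {n : ℕ} (c : RealAlg) (hc : c ≠ 0) {g : (Fin n → ℝ) → ℝ}
    (hg : SemialgebraicFun g) : SemialgebraicFun (fun x => (c : ℝ) * g x) := by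
  classical
  obtain ⟨m, E, I, h⟩ := hg
  let s : Fin (n + 1) → MultiPoly (n + 1) := fun i =>
    if i = Fin.last n then MvPolynomial.C c⁻¹ * MvPolynomial.X i else MvPolynomial.X i
  have hs : ∀ (P : MultiPoly (n + 1)) (z : Fin (n + 1) → ℝ),
      evalMulti (MvPolynomial.bind₁ s P) z =
        evalMulti P (Function.update z (Fin.last n) ((c : ℝ)⁻¹ * z (Fin.last n))) := by
    intro P z
    unfold evalMulti
    rw [MvPolynomial.aeval_bind₁]
    congr 2
    funext i
    by_cases hi : i = Fin.last n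
    · subst hi
      simp only [s, if_true, Function.update_self, map_mul, MvPolynomial.aeval_X]
      rw [MvPolynomial.algHom_C]
      rfl
    · simp only [s, if_neg hi, Function.update_of_ne hi, MvPolynomial.aeval_X]
  have hcr : (c : ℝ) ≠ 0 := by
    intro h0
    exact hc (Subtype.ext h0)
  refine ⟨m, fun i => (E i).image (MvPolynomial.bind₁ s), fun i => (I i).image (MvPolynomial.bind₁ s), ?_⟩
  ext z
  have h1 : z ∈ {z : Fin (n + 1) → ℝ | z (Fin.last n) = (c : ℝ) * g (Fin.init z)} ↔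
      Function.update z (Fin.last n) ((c : ℝ)⁻¹ * z (Fin.last n)) ∈
        {z : Fin (n + 1) → ℝ | z (Fin.last n) = g (Fin.init z)} := by
    have hin : Fin.init (Function.update z (Fin.last n) ((c : ℝ)⁻¹ * z (Fin.last n))) =
        Fin.init z := by
      funext i
      have : i.castSucc ≠ Fin.last n := (Fin.castSucc_lt_last i).ne
      simp only [Fin.init, Function.update_of_ne this]
    simp only [Set.mem_setOf_eq, Function.update_self, hin]
    constructor
    · intro hz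
      rw [hz, ← mul_assoc, inv_mul_cancel₀ hcr, one_mul]
    · intro hz
      rw [← hz, ← mul_assoc, mul_inv_cancel₀ hcr, one_mul]
  rw [h1, h]
  simp only [Set.mem_setOf_eq, Finset.mem_image, forall_exists_index, and_imp,
    forall_apply_eq_imp_iff₂, hs]

private theorem OLQ_upTo_mono {N i j i₁ j₁ n : ℕ} {f : (Fin n → ℝ) → ℝ} (hi : i ≤ i₁)
    (hj : j ≤ j₁) (h : UpTo N i j f) : UpTo N i₁ j₁ f := by
  obtain ⟨i', hi', j', hj', g, hg, hfg⟩ := h
  exact ⟨i', hi'.trans hi, j', hj'.trans hj, g, hg, hfg⟩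

private theorem OLQ_mono (N : ℕ) {n i j : ℕ} {f : (Fin n → ℝ) → ℝ} (h : Iter N n i j f) :
    ∀ i₁ j₁, i ≤ i₁ → j ≤ j₁ → Iter N n i₁ j₁ f := by
  induction h with
  | point i j f =>
    intro i₁ j₁ _ _
    exact Iter.point i₁ j₁ f
  | step a b hf h _ ih =>
    intro i₁ j₁ hi hj
    exact Iter.step a b hf h (ih _ _ (Nat.add_le_add_right hi a) (Nat.add_le_add_right hj b))
  | sum h hf₁ hf₂ ha₁ ha₂ _ _ ih₁ ih₂ =>
    intro i₁ j₁ hi hj
    exact Iter.sum h hf₁ hf₂ (OLQ_upTo_mono hi hj ha₁) (OLQ_upTo_mono hi hj ha₂)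
      (ih₁ _ _ hi hj) (ih₂ _ _ hi hj)
  | change hfg _ ih =>
    intro i₁ j₁ hi hj
    exact Iter.change hfg (ih _ _ hi hj)
  | move hg ha hgg' h =>
    intro i₁ j₁ hi hj
    exact Iter.move hg (OLQ_upTo_mono hi hj ha) hgg' h

private theorem OLQ_pi (h : St_PIQ) {N : ℕ} (hN : N = 4 ∨ N = 6) {n : ℕ} {f : (Fin n → ℝ) → ℝ}
    (hf : PiSemialgebraicFun f) : ∃ l, UpTo N l l f := by
  obtain ⟨j, g, hg, hfg⟩ := hf
  obtain ⟨⟨a, ha, hpi⟩, -, -⟩ := h N hN
  refine ⟨j, j, le_rfl, j, le_rfl, fun x => ((a ^ j : RealAlg) : ℝ) * g x,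
    OLQ_scale (a ^ j) (pow_ne_zero j ha) hg, ?_⟩
  filter_upwards [hfg] with x hx
  rw [hx, hpi]
  push_cast
  ring

private theorem OLQ_old (h : St_PIQ) {N : ℕ} (hN : N = 4 ∨ N = 6) {n : ℕ} {f : (Fin n → ℝ) → ℝ}
    (hf : Iterated n f) : ∃ l : ℕ, ∀ i j, l ≤ i → l ≤ j → Iter N n i j f := by
  induction hf with
  | point f => exact ⟨0, fun i j _ _ => Iter.point i j f⟩
  | step hf h _ ih =>
    obtain ⟨l, hl⟩ := ih
    refine ⟨l, fun i j hi hj => ?_⟩
    rcases h with h | h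
    · refine Iter.step 1 1 hf ?_ (hl _ _ (hi.trans (Nat.le_add_right i 1))
        (hj.trans (Nat.le_add_right j 1)))
      filter_upwards [h] with y hy
      rcases hy with hy | hy | hy | hy
      · exact Fibre.rational hy
      · exact Fibre.twisted hy
      · exact Fibre.arc hy
      · exact Fibre.odd 1 1 le_rfl le_rfl hy
    · refine Iter.step 0 0 hf ?_ (hl _ _ hi hj)
      filter_upwards [h] with y hy
      exact Fibre.primitive hy
  | sum hs hf₁ hf₂ ha₁ ha₂ _ _ ih₁ ih₂ =>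
    obtain ⟨l₁, hl₁⟩ := ih₁
    obtain ⟨l₂, hl₂⟩ := ih₂
    obtain ⟨m₁, hm₁⟩ := OLQ_pi h hN ha₁
    obtain ⟨m₂, hm₂⟩ := OLQ_pi h hN ha₂
    refine ⟨l₁ + l₂ + m₁ + m₂, fun i j hi hj => ?_⟩
    exact Iter.sum hs hf₁ hf₂ (OLQ_upTo_mono (by omega) (by omega) hm₁)
      (OLQ_upTo_mono (by omega) (by omega) hm₂) (hl₁ _ _ (by omega) (by omega))
      (hl₂ _ _ (by omega) (by omega))
  | change hfg _ ih =>
    obtain ⟨l, hl⟩ := ih
    exact ⟨l, fun i j hi hj => Iter.change hfg (hl _ _ hi hj)⟩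
  | move hg ha hgg' hs =>
    obtain ⟨m, hm⟩ := OLQ_pi h hN ha
    exact ⟨m, fun i j hi hj => Iter.move hg (OLQ_upTo_mono hi hj hm) hgg' hs⟩

theorem thm_OLQ (h : St_PIQ) : St_OLQ := by
  intro N hN
  refine ⟨fun n i j i₁ j₁ f hi hj hf => OLQ_mono N hf i₁ j₁ hi hj, fun n f hf => ?_⟩
  obtain ⟨l, hl⟩ := OLQ_old h hN hf
  exact ⟨l, hl l l le_rfl le_rfl⟩

end Pool.Agent.QP
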