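import Pool.Agent.QP.StB

/-!
# Quarter periods: one integration
-/

set_option autoImplicit false

open MeasureTheory Filter Topology

namespace Pool.Agent.QP

open Pool.Agent.ITR Pool.Agent.Helper23.PeriodDefs
open Pool.Agent.Helper23
open Pool.Agent.Helper23.Quadric (PF evx)
open Pool.Agent.Helper23.PeriodProof (RB)

private theorem onq_split (f : ℕ → ℝ) (k : ℕ) :
    ∑ l ∈ Finset.range (2 * k), f l = ∑ j ∈ Finset.range k, (f (2 * j) + f (2 * j + 1)) := by
  induction k with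
  | zero => simp
  | succ k ih =>
    rw [show 2 * (k + 1) = 2 * k + 1 + 1 by ring, Finset.sum_range_succ, Finset.sum_range_succ, ih,
      Finset.sum_range_succ (fun j => f (2 * j) + f (2 * j + 1))]
    ring

/-- the weight -/
private noncomputable def onqW (N m : ℕ) (t : ℝ) : ℝ := (1 + t ^ 2) ^ (-(m : ℝ) / N)

/-- integral of a polynomial times the weight -/
private theorem onq_int (N m : ℕ) (hN : 2 ≤ N) (p : Polynomial ℝ) (r : ℕ → ℝ) (E : ℝ)
    (hr : ∀ j, N * (2 * j + 1) < 2 * m → ∫ t : ℝ, t ^ (2 * j) * onqW N m t = r j * E)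
    (hodd : ∀ j, ∫ t : ℝ, t ^ (2 * j + 1) * onqW N m t = 0)
    (hc : ∀ l : ℕ, 2 * m ≤ N * (l + 1) → p.coeff l = 0)
    (hi : ∀ l : ℕ, N * (l + 1) < 2 * m → Integrable (fun t : ℝ => t ^ l * onqW N m t)) :
    ∫ t : ℝ, p.eval t * onqW N m t =
      ∑ j ∈ (Finset.range (m + 1)).filter (fun j => N * (2 * j + 1) < 2 * m),
        p.coeff (2 * j) * (r j * E) := by
  have hdeg : p.natDegree < 2 * (m + 1) := by
    have : p.natDegree ≤ m := by
      rw [Polynomial.natDegree_le_iff_coeff_eq_zero]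
      intro l hl
      refine hc l ?_
      calc 2 * m ≤ N * m := Nat.mul_le_mul_right _ hN
        _ ≤ N * (l + 1) := Nat.mul_le_mul_left _ (by omega)
    omega
  have hint : ∀ l : ℕ, Integrable (fun t : ℝ => p.coeff l * (t ^ l * onqW N m t)) := by
    intro l
    rcases le_or_gt (2 * m) (N * (l + 1)) with h | h
    · rw [hc l h]
      simp
    · exact (hi l h).const_mul _
  have h1 : ∀ t : ℝ, p.eval t * onqW N m t =
      ∑ l ∈ Finset.range (2 * (m + 1)), p.coeff l * (t ^ l * onqW N m t) := by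
    intro t
    rw [Polynomial.eval_eq_sum_range' hdeg, Finset.sum_mul]
    exact Finset.sum_congr rfl fun l _ => by ring
  simp only [h1]
  rw [integral_finsetSum _ (fun l _ => hint l)]
  simp only [integral_const_mul]
  rw [onq_split, Finset.sum_filter]
  refine Finset.sum_congr rfl fun j _ => ?_
  rw [hodd j, mul_zero, add_zero]
  split_ifs with h
  · rw [hr j h]
  · rw [hc (2 * j) (not_lt.mp h), zero_mul]

private theorem onq_pow (N A : ℕ) (u : ℝ) (hu : 0 ≤ u) :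
    (u ^ A) ^ ((1 : ℝ) / N) = u ^ ((A : ℝ) / N) := by
  rw [← Real.rpow_natCast, ← Real.rpow_mul hu]
  congr 1
  ring

private theorem onq_den (N m d : ℕ) (hN : N = 4 ∨ N = 6) (u v : ℝ) (hu : 0 < u) (hv : 0 < v) :
    (u ^ (N * (2 * m + d + 1) - m) * v ^ (m + N / 2)) ^ ((1 : ℝ) / N) =
      u ^ (2 * m + d + 1) / u ^ ((m : ℝ) / N) * (v ^ ((m : ℝ) / N) * √v) := by
  have hN0 : (N : ℝ) ≠ 0 := by rcases hN with h | h <;> rw [h] <;> norm_num
  have hmle : m ≤ N * (2 * m + d + 1) := by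
    rcases hN with h | h <;> rw [h] <;> omega
  rw [Real.mul_rpow (by positivity) (by positivity), onq_pow _ _ _ hu.le, onq_pow _ _ _ hv.le]
  congr 1
  · rw [Nat.cast_sub hmle, Nat.cast_mul, sub_div, mul_div_cancel_left₀ _ hN0, Real.rpow_sub hu,
      Real.rpow_natCast]
  · have h2 : ((N / 2 : ℕ) : ℝ) / N = 1 / 2 := by
      rcases hN with h | h <;> rw [h] <;> norm_num
    rw [Nat.cast_add, add_div, h2, Real.rpow_add hv, Real.sqrt_eq_rpow]

/-- [ONQ] one integration -/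
theorem thm_ONQ (hSLS : ITR.St_SLS) (hJJQ : St_JJQ) : St_ONQ := by
  intro N hN n m P q M b s hP hM hb hs hM0 hs0 hq
  obtain ⟨hJ1, hJ2, hJ3⟩ := hJJQ N hN m
  have hN2 : 2 ≤ N := by rcases hN with h | h <;> rw [h] <;> norm_num
  have hN0 : (N : ℝ) ≠ 0 := by positivity
  obtain ⟨p, hp⟩ := hSLS RB n P hP
  set E : ℝ := per N ^ ew (1 / 2) ((m : ℚ) / N - 1 / 2) * qer N ^ eh (1 / 2) ((m : ℚ) / N - 1 / 2)
    with hE
  set Mm : PF RB n := ⟨M, hM⟩ with hMm
  set bm : PF RB n := ⟨b, hb⟩ with hbm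
  set d := p.natDegree with hd
  set p₁ : Polynomial (PF RB n) := ∑ k ∈ Finset.range (d + 1),
    Polynomial.C (p.coeff k * Mm ^ (d - k)) * (Polynomial.C Mm * Polynomial.X - Polynomial.C bm) ^ k
    with hp₁
  have hJ : ∀ j, ∃ r : RealAlg, N * (2 * j + 1) < 2 * m →
      ∫ t : ℝ, t ^ (2 * j) * (1 + t ^ 2) ^ (-(m : ℝ) / N) = r * E := by
    intro j
    by_cases h : N * (2 * j + 1) < 2 * m
    · obtain ⟨r, hr⟩ := hJ1 j h
      exact ⟨r, fun _ => hr⟩
    · exact ⟨0, fun h' => absurd h' h⟩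
  choose r hr using hJ
  set G : (Fin n → ℝ) → ℝ :=
    ∑ j ∈ (Finset.range (m + 1)).filter (fun j => N * (2 * j + 1) < 2 * m),
    (p₁.coeff (2 * j) : (Fin n → ℝ) → ℝ) * (fun _ => ((r j : RealAlg) : ℝ)) * s ^ (j + 1) *
      M ^ (2 * m - 2 * j) with hG
  have hGm : G ∈ PF RB n := by
    refine (PF RB n).sum_mem fun j _ => ?_
    exact (PF RB n).mul_mem ((PF RB n).mul_mem ((PF RB n).mul_mem (p₁.coeff (2 * j)).2
      (Quadric.const_mem_PF (PeriodProof.coe_mem_RB (r j)))) ((PF RB n).pow_mem hs _))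
      ((PF RB n).pow_mem hM _)
  refine ⟨G, hGm, N * (2 * m + d + 1) - m, m + N / 2, fun y hint => ?_⟩
  have hMy := hM0 y
  have hsy := hs0 y
  set g : ℝ → ℝ := fun t => P (Fin.snoc y t) / (q (Fin.snoc y t) ^ m) ^ ((1 : ℝ) / N) with hg
  set lam : ℝ := √(s y) / M y with hlam
  have hlam0 : 0 < lam := div_pos (Real.sqrt_pos.mpr hsy) hMy
  have hlam2 : lam ^ 2 = s y / M y ^ 2 := by
    rw [hlam, div_pow, Real.sq_sqrt hsy.le]
  have hq0 : ∀ σ : ℝ, q (Fin.snoc y (lam * σ - b y / M y)) = s y / M y * (1 + σ ^ 2) := by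
    intro σ
    have h := hq y (lam * σ - b y / M y)
    have h2 : M y * q (Fin.snoc y (lam * σ - b y / M y)) =
        M y * (s y / M y * (1 + σ ^ 2)) := by
      rw [h]
      have h3 : M y * (lam * σ - b y / M y) + b y = M y * (lam * σ) := by
        field_simp
        ring
      rw [h3, mul_pow, mul_pow, hlam2]
      field_simp
      ring
    exact mul_left_cancel₀ hMy.ne' h2
  have hP0 : ∀ τ : ℝ, M y ^ d * P (Fin.snoc y (τ - b y / M y)) =
      (p₁.map (evx RB y)).eval τ := by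
    intro τ
    rw [hp, Polynomial.eval_map, Polynomial.eval₂_eq_sum_range, Finset.mul_sum, hp₁,
      Polynomial.map_sum, Polynomial.eval_finsetSum]
    refine Finset.sum_congr rfl fun k hk => ?_
    have hk' : k ≤ d := by
      rw [Finset.mem_range] at hk; omega
    rw [Polynomial.map_mul, Polynomial.map_pow, Polynomial.map_sub, Polynomial.map_mul,
      Polynomial.map_C, Polynomial.map_C, Polynomial.map_C, Polynomial.map_X,
      Polynomial.eval_mul, Polynomial.eval_pow, Polynomial.eval_sub, Polynomial.eval_mul,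
      Polynomial.eval_C, Polynomial.eval_C, Polynomial.eval_C, Polynomial.eval_X, map_mul, map_pow]
    have e1 : evx RB y Mm = M y := rfl
    have e2 : evx RB y bm = b y := rfl
    rw [e1, e2]
    have e3 : τ - b y / M y = (M y * τ - b y) / M y := by field_simp
    have e4 : M y ^ d = M y ^ (d - k) * M y ^ k := by rw [← pow_add]; congr 1; omega
    rw [e3, e4, div_pow]
    field_simp
  set B1 : ℝ := M y ^ ((m : ℝ) / N) with hB1
  set B2 : ℝ := s y ^ ((m : ℝ) / N) with hB2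
  have hB1p : 0 < B1 := Real.rpow_pos_of_pos hMy _
  have hB2p : 0 < B2 := Real.rpow_pos_of_pos hsy _
  set p₂ : Polynomial ℝ := (p₁.map (evx RB y)).comp (Polynomial.C lam * Polynomial.X) with hp₂
  have hg1 : ∀ σ : ℝ, g (lam * σ - b y / M y) =
      (M y ^ d)⁻¹ * (B1 / B2) * (p₂.eval σ * (1 + σ ^ 2) ^ (-(m : ℝ) / N)) := by
    intro σ
    have h1 : p₂.eval σ = M y ^ d * P (Fin.snoc y (lam * σ - b y / M y)) := by
      rw [hP0, hp₂, Polynomial.eval_comp]
      simp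
    have h0 : 0 < 1 + σ ^ 2 := by positivity
    have h2 : ((s y / M y * (1 + σ ^ 2)) ^ m) ^ ((1 : ℝ) / N) =
        B2 / B1 * (1 + σ ^ 2) ^ ((m : ℝ) / N) := by
      rw [onq_pow _ _ _ (by positivity), Real.mul_rpow (by positivity) h0.le,
        Real.div_rpow hsy.le hMy.le]
    have h3 : (1 + σ ^ 2) ^ (-(m : ℝ) / N) = ((1 + σ ^ 2) ^ ((m : ℝ) / N))⁻¹ := by
      rw [neg_div, Real.rpow_neg h0.le]
    have h4 : 0 < (1 + σ ^ 2) ^ ((m : ℝ) / N) := Real.rpow_pos_of_pos h0 _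
    change P (Fin.snoc y (lam * σ - b y / M y)) /
      (q (Fin.snoc y (lam * σ - b y / M y)) ^ m) ^ ((1 : ℝ) / N) = _
    rw [hq0, h2, h1, h3]
    field_simp
  have hi1 : Integrable (fun σ : ℝ => g (lam * σ - b y / M y)) :=
    (hint.comp_sub_right (b y / M y)).comp_mul_left' hlam0.ne'
  have hK : (M y ^ d)⁻¹ * (B1 / B2) ≠ 0 := by positivity
  have hi2 : Integrable (fun σ : ℝ => p₂.eval σ * (1 + σ ^ 2) ^ (-(m : ℝ) / N)) := by
    simp only [hg1] at hi1
    rwa [integrable_const_mul_iff (isUnit_iff_ne_zero.mpr hK)] at hi1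
  obtain ⟨hc, hi⟩ := hJ3 p₂ hi2
  have hval := onq_int N m hN2 p₂ (fun j => ((r j : RealAlg) : ℝ)) E hr hJ2 hc hi
  have hsc : ∫ t : ℝ, g t = lam * ∫ σ : ℝ, g (lam * σ - b y / M y) := by
    have h1 := Measure.integral_comp_mul_left (fun τ : ℝ => g (τ - b y / M y)) lam
    rw [integral_sub_right_eq_self g (b y / M y)] at h1
    rw [h1, abs_of_pos (inv_pos.mpr hlam0), smul_eq_mul, ← mul_assoc,
      mul_inv_cancel₀ hlam0.ne', one_mul]
  rw [hsc]
  simp only [hg1]
  rw [integral_const_mul]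
  change lam * ((M y ^ d)⁻¹ * (B1 / B2) * ∫ σ : ℝ, p₂.eval σ * onqW N m σ) = _
  rw [hval, onq_den N m d hN _ _ hMy hsy, hG, Finset.sum_apply, Finset.sum_div, Finset.mul_sum,
    Finset.mul_sum, Finset.mul_sum]
  refine Finset.sum_congr rfl fun j hj => ?_
  rw [Finset.mem_filter, Finset.mem_range] at hj
  obtain ⟨l, hl⟩ : ∃ l, m = j + l := ⟨m - j, by omega⟩
  have e2 : 2 * m - 2 * j = 2 * l := by omega
  have e3 : 2 * m + d + 1 = 2 * j + 2 * l + d + 1 := by omega
  have e4 : p₂.coeff (2 * j) = (p₁.coeff (2 * j) : (Fin n → ℝ) → ℝ) y * (s y / M y ^ 2) ^ j := by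
    rw [hp₂, Polynomial.comp_C_mul_X_coeff, Polynomial.coeff_map, Quadric.evx_apply, pow_mul, hlam2]
  rw [e4]
  simp only [Pi.mul_apply, Pi.pow_apply]
  rw [← hB1, ← hB2, e2, e3, hlam]
  have hS : √(s y) ^ 2 = s y := Real.sq_sqrt hsy.le
  have hSp : 0 < √(s y) := Real.sqrt_pos.mpr hsy
  generalize √(s y) = S at hS hSp
  rw [← hS, div_pow]
  field_simp
  ring

end Pool.Agent.QP
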