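import Pool.Agent.QP.StB

/-!
# Quarter periods: `π` is a multiple of `per N * qer N`
-/

set_option autoImplicit false

open MeasureTheory Filter Topology

namespace Pool.Agent.QP

open Pool.Agent.ITR Pool.Agent.Helper23.PeriodDefs

private lemma PIQ_bet_pos {x y : ℝ} (hx : 0 < x) (hy : 0 < y) : 0 < bet x y := by
  unfold bet
  exact div_pos (mul_pos (Real.Gamma_pos_of_pos hx) (Real.Gamma_pos_of_pos hy))
    (Real.Gamma_pos_of_pos (add_pos hx hy))

private lemma PIQ_half : bet (1 / 2) (1 / 2) = Real.pi := by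
  unfold bet
  rw [Real.Gamma_one_half_eq, Real.mul_self_sqrt Real.pi_pos.le]
  norm_num

/-- [PIQ] `π` is a multiple of `w h`. -/
theorem thm_PIQ (hBVL : St_BVL) : St_PIQ := by
  intro N hN
  have hN2 : ∃ z : ℤ, (1 / 2 : ℚ) * N = z := by
    rcases hN with rfl | rfl
    · exact ⟨2, by norm_num⟩
    · exact ⟨3, by norm_num⟩
  have hfr : Int.fract (1 / 2 : ℚ) = 1 / 2 := by
    rw [Int.fract_eq_self]
    norm_num
  have hew : ew (1 / 2) (1 / 2) = 1 := by
    unfold ew
    rw [hfr]
    norm_num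
  have heh : eh (1 / 2) (1 / 2) = 1 := by
    unfold eh
    rw [hfr]
    norm_num
  refine ⟨?_, ?_, ?_⟩
  · obtain ⟨a, ha⟩ := hBVL N hN (1 / 2) (1 / 2) hN2 hN2 (by norm_num) (by norm_num)
    rw [hew, heh, pow_one, pow_one] at ha
    have h1 : bet (((1 / 2 : ℚ)) : ℝ) (((1 / 2 : ℚ)) : ℝ) = Real.pi := by
      have : (((1 / 2 : ℚ)) : ℝ) = 1 / 2 := by norm_num
      rw [this]
      exact PIQ_half
    rw [h1] at ha
    refine ⟨a, ?_, ha⟩
    rintro rfl
    rw [ZeroMemClass.coe_zero, zero_mul] at ha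
    exact Real.pi_ne_zero ha
  · rcases hN with rfl | rfl
    · unfold per
      rw [if_pos rfl]
      exact PIQ_bet_pos (by norm_num) (by norm_num)
    · unfold per
      rw [if_neg (by norm_num)]
      exact PIQ_bet_pos (by norm_num) (by norm_num)
  · rcases hN with rfl | rfl
    · unfold qer
      rw [if_pos rfl]
      exact PIQ_bet_pos (by norm_num) (by norm_num)
    · unfold qer
      rw [if_neg (by norm_num)]
      exact PIQ_bet_pos (by norm_num) (by norm_num)

end Pool.Agent.QP
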