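import Pool.Agent.QP.StB

/-!
# Quarter periods: module QTQ (quadratic towers)
-/

set_option autoImplicit false

open MeasureTheory Filter Topology

namespace Pool.Agent.QP

open Pool.Agent.ITR Pool.Agent.Helper23.PeriodDefs
open Pool.Agent.Helper23.Quadric (PF evx mem_PF)
open Pool.Agent.Helper23.PeriodProof (RB toRB aeval_toRB)

/-- [QTQ]: quadratic towers. -/
theorem thm_QTQ (hFMQ : St_FMQ) (hABT : ITR.St_ABT) (hSFQ : St_SFQ) : St_QTQ := by
  intro N hN n q hq P m hint
  obtain ⟨T, hT, hw⟩ := hABT n q hq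
  have hwm := hw m
  obtain ⟨_, hwpos⟩ := hT.pf n le_rfl _ hwm
  have hprod : ∀ x : Fin n → ℝ, MvPolynomial.aeval x (∏ k, q k ^ m k) =
      ∏ k, MvPolynomial.aeval x (q k) ^ m k := by
    intro x
    rw [map_prod]
    exact Finset.prod_congr rfl fun k _ => by rw [map_pow]
  have hfun : QP.towerFun N q P m = fun x : Fin n → ℝ =>
      MvPolynomial.aeval x P / (MvPolynomial.aeval x (∏ k, q k ^ m k)) ^ ((1 : ℝ) / N) := by
    funext x
    unfold QP.towerFun
    rw [hprod]
    rfl
  have hPF : (fun x : Fin n → ℝ => MvPolynomial.aeval x P) ∈ PF RB n := by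
    have h := mem_PF (B := RB) (MvPolynomial.map toRB P)
    have h2 : (fun x : Fin n → ℝ => MvPolynomial.aeval x (MvPolynomial.map toRB P)) =
        fun x : Fin n → ℝ => MvPolynomial.aeval x P := funext fun x => aeval_toRB P x
    rw [h2] at h
    exact h
  obtain ⟨h1, a, ha, i, hi, j, hj, h2⟩ := hFMQ N hN n T hT n le_rfl _ hPF _ hwm hint
  refine ⟨?_, ?_, ⟨⟨a, ha⟩, i, j, hi, hj, h2⟩⟩
  · rw [hfun]
    exact hSFQ N hN n P _ (fun x => by rw [hprod]; exact hwpos x)
  · have h3 := h1 1 0 0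
    have h4 : (fun x : Fin n → ℝ => (1 : ℝ) * (MvPolynomial.aeval x P /
        (∏ k, evalMulti (q k) x ^ m k) ^ ((1 : ℝ) / N))) = QP.towerFun N q P m := by
      funext x
      rw [one_mul]
      rfl
    rw [h4] at h3
    exact h3

end Pool.Agent.QP
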