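import Pool.Agent.QP.StB

/-!
# Quarter periods, module SCQ: multiplication by constants, the types are at most `1`
-/

set_option autoImplicit false

open MeasureTheory Filter Topology

namespace Pool.Agent.QP

open Pool.Agent.ITR Pool.Agent.Helper23.PeriodDefs

private theorem SCQ_ew (x y : ℚ) : ew x y ≤ 1 := by
  unfold ew
  split_ifs <;> omega

private theorem SCQ_eh (x y : ℚ) : eh x y ≤ 1 := by
  unfold eh
  split_ifs <;> omega

private theorem SCQ_ae {h : ℝ → ℝ} (c : ℝ) (I : Set ℝ) (w : ℝ → ℝ) (P : Polynomial ℝ)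
    (hg : h =ᵐ[volume] I.indicator (fun t => w t * P.eval t)) :
    (fun t => c * h t) =ᵐ[volume]
      I.indicator (fun t => w t * (Polynomial.C c * P).eval t) := by
  filter_upwards [hg] with t ht
  rw [ht]
  by_cases hs : t ∈ I
  · rw [Set.indicator_of_mem hs, Set.indicator_of_mem hs, Polynomial.eval_mul, Polynomial.eval_C]
    ring
  · rw [Set.indicator_of_notMem hs, Set.indicator_of_notMem hs, mul_zero]

theorem thm_SCQ (hS : ITR.St_SCL) : St_SCQ := by
  intro N F a b g hg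
  refine ⟨?_, fun c => ?_⟩
  · cases hg with
    | rational _ => exact ⟨le_rfl, le_rfl⟩
    | twisted _ => exact ⟨le_rfl, le_rfl⟩
    | arc _ => exact ⟨le_rfl, le_rfl⟩
    | primitive _ => exact ⟨Nat.zero_le _, Nat.zero_le _⟩
    | odd a b ha hb _ => exact ⟨ha, hb⟩
    | betaIoo p q _ _ _ => exact ⟨SCQ_ew _ _, SCQ_eh _ _⟩
    | betaIoi p q _ _ _ => exact ⟨SCQ_ew _ _, SCQ_eh _ _⟩
    | betaLine p _ _ => exact ⟨SCQ_ew _ _, SCQ_eh _ _⟩
  · obtain ⟨s1, s2, s3, -, s5⟩ := hS c g
    cases hg with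
    | rational hh => exact Fibre.rational (s1 hh)
    | twisted hh => exact Fibre.twisted (s2 hh)
    | arc hh => exact Fibre.arc (s3 hh)
    | primitive hh => exact Fibre.primitive (s5 F hh)
    | odd a b ha hb hh =>
      refine Fibre.odd a b ha hb ?_
      obtain ⟨x, hx⟩ := hh
      refine ⟨x, ?_⟩
      filter_upwards [hx] with t ht
      rw [ht, mul_neg]
    | betaIoo p q hp hq hh =>
      obtain ⟨P, x, y, hxy, hh⟩ := hh
      exact Fibre.betaIoo p q hp hq ⟨Polynomial.C c * P, x, y, hxy, SCQ_ae c _ _ P hh⟩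
    | betaIoi p q hp hq hh =>
      obtain ⟨P, x, y, hh⟩ := hh
      refine Fibre.betaIoi p q hp hq ⟨Polynomial.C c * P, x, y, ?_⟩
      rcases hh with ⟨hxy, hh⟩ | ⟨hxy, hh⟩
      · exact Or.inl ⟨hxy, SCQ_ae c _ _ P hh⟩
      · exact Or.inr ⟨hxy, SCQ_ae c _ _ P hh⟩
    | betaLine p hp hh =>
      obtain ⟨P, x, y, hy, hh⟩ := hh
      refine Fibre.betaLine p hp ⟨Polynomial.C c * P, x, y, hy, ?_⟩
      filter_upwards [hh] with t ht
      rw [ht, Polynomial.eval_mul, Polynomial.eval_C]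
      ring

end Pool.Agent.QP
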