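import Pool.Agent.QP.StB

/-!
# QP [SFQ]: `P / w ^ (1 / N)` is semialgebraic
-/

set_option autoImplicit false

namespace Pool.Agent.QP

open Pool.Agent.ITR Pool.Agent.Helper23.PeriodDefs

private theorem SFQ_key (N : ℕ) (hN0 : N ≠ 0) (t a b : ℝ) (hb : 0 < b) :
    t = a / b ^ ((1 : ℝ) / N) ↔ (t ^ N * b - a ^ N = 0 ∧ 0 < t * a) ∨ (a = 0 ∧ t = 0) := by
  set s : ℝ := b ^ ((1 : ℝ) / N) with hs
  have hs0 : 0 < s := Real.rpow_pos_of_pos hb _
  have hNr : (N : ℝ) ≠ 0 := by exact_mod_cast hN0
  have hsN : s ^ N = b := by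
    rw [hs, ← Real.rpow_natCast, ← Real.rpow_mul hb.le, one_div_mul_cancel hNr, Real.rpow_one]
  constructor
  · intro h
    have h1 : t * s = a := by
      rw [h]
      field_simp
    rcases eq_or_ne a 0 with h0 | h0
    · right
      refine ⟨h0, ?_⟩
      rw [h, h0, zero_div]
    · left
      have ht0 : t ≠ 0 := by
        intro h2
        apply h0
        rw [← h1, h2, zero_mul]
      refine ⟨?_, ?_⟩
      · rw [← h1, mul_pow, hsN, sub_self]
      · rw [← h1]
        have : 0 < t ^ 2 * s := mul_pos (by positivity) hs0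
        calc 0 < t ^ 2 * s := this
          _ = t * (t * s) := by ring
  · rintro (⟨h1, h2⟩ | ⟨h1, h2⟩)
    · rw [eq_div_iff hs0.ne']
      have h3 : (t * s) ^ N = a ^ N := by
        rw [mul_pow, hsN]
        linarith
      rcases (pow_eq_pow_iff_of_ne_zero hN0).mp h3 with h4 | ⟨h4, -⟩
      · exact h4
      · exfalso
        have h6 : t * (t * s) = - (t * a) := by rw [h4]; ring
        have h7 : 0 ≤ t * (t * s) := by
          have : t * (t * s) = t ^ 2 * s := by ring
          rw [this]
          positivity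
        linarith
    · rw [h1, zero_div]
      exact h2

theorem thm_SFQ : St_SFQ := by
  classical
  intro N hN n P w hw
  have hN0 : N ≠ 0 := by
    rcases hN with rfl | rfl <;> norm_num
  set P' : MvPolynomial (Fin (n + 1)) RealAlg := MvPolynomial.rename Fin.castSucc P with hP'
  set w' : MvPolynomial (Fin (n + 1)) RealAlg := MvPolynomial.rename Fin.castSucc w with hw'
  have hren : ∀ (p : MvPolynomial (Fin n) RealAlg) (z : Fin (n + 1) → ℝ),
      MvPolynomial.aeval z (MvPolynomial.rename Fin.castSucc p) =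
        MvPolynomial.aeval (Fin.init z : Fin n → ℝ) p := by
    intro p z
    rw [MvPolynomial.aeval_rename]
    rfl
  refine ⟨2, fun i => if i = 0 then {MvPolynomial.X (Fin.last n) ^ N * w' - P' ^ N} else
    {P', MvPolynomial.X (Fin.last n)}, fun i => if i = 0 then
      {MvPolynomial.X (Fin.last n) * P'} else ∅, ?_⟩
  ext z
  rw [Set.mem_ofPred_eq, Set.mem_ofPred_eq]
  rw [Fin.exists_fin_two]
  simp only [evalMulti, if_true, Fin.isValue, one_ne_zero, if_false, Finset.mem_singleton, forall_eq,
    Finset.mem_insert, forall_eq_or_imp, Finset.notMem_empty, false_implies, implies_true,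
    and_true, map_sub, map_mul, map_pow, MvPolynomial.aeval_X]
  rw [hP', hw', hren, hren]
  exact SFQ_key N hN0 _ _ _ (hw _)

end Pool.Agent.QP
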