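import Pool.Agent.QP.StB

/-!
# Quarter periods, part B, module TPQ (helper2): the types of the fibres of the towers
-/

set_option autoImplicit false

open MeasureTheory Filter Topology

namespace Pool.Agent.QP

open Pool.Agent.ITR Pool.Agent.Helper23.PeriodDefs

private lemma TPQ_fract_half : Int.fract ((1 : ℚ) / 2) = 1 / 2 := by
  rw [Int.fract_eq_iff]
  exact ⟨by norm_num, by norm_num, 0, by simp⟩

private lemma TPQ_fract (l : ℕ) : Int.fract ((l : ℚ) - 1 / 2) = 1 / 2 := by
  rw [Int.fract_eq_iff]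
  refine ⟨by norm_num, by norm_num, (l : ℤ) - 1, ?_⟩
  push_cast
  ring

private lemma TPQ_type (l : ℕ) : ew (1 / 2) ((l : ℚ) - 1 / 2) = 1 ∧
    eh (1 / 2) ((l : ℚ) - 1 / 2) = 1 := by
  unfold ew eh
  rw [TPQ_fract_half, TPQ_fract]
  constructor
  · rw [if_pos]
    norm_num
  · rw [if_pos]
    norm_num

theorem thm_TPQ : St_TPQ := by
  intro N hN p m M b s q hM hs hq F
  have hN0 : 0 < N := by omega
  have hNR : (0 : ℝ) < (N : ℝ) := by exact_mod_cast hN0
  have hNQ : (N : ℚ) ≠ 0 := by exact_mod_cast hN0.ne'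
  have hform : ∀ t : ℝ, q t = M * ((t - -(b / M)) ^ 2 + (Real.sqrt s / M) ^ 2) := by
    intro t
    have h1 := hq t
    have h2 : (Real.sqrt s) ^ 2 = s := Real.sq_sqrt hs.le
    have h3 : M * (M * ((t - -(b / M)) ^ 2 + (Real.sqrt s / M) ^ 2)) = (M * t + b) ^ 2 + s := by
      rw [div_pow, h2]
      field_simp
      ring
    exact mul_left_cancel₀ hM.ne' (h1.trans h3.symm)
  have hqpos : ∀ t : ℝ, 0 < q t := by
    intro t
    rw [hform t]
    have : 0 < (Real.sqrt s / M) ^ 2 := by
      have := Real.sqrt_pos.mpr hs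
      positivity
    positivity
  by_cases hd : N ∣ m
  · obtain ⟨l, hl⟩ := hd
    have hml : (m : ℚ) / N = (l : ℚ) := by
      rw [hl]
      push_cast
      field_simp
    rw [hml, (TPQ_type l).1, (TPQ_type l).2]
    refine Fibre.rational ?_
    refine ⟨p, (Polynomial.C M * ((Polynomial.X - Polynomial.C (-(b / M))) ^ 2 +
      Polynomial.C ((Real.sqrt s / M) ^ 2))) ^ l, ?_⟩
    refine Filter.Eventually.of_forall ?_
    intro t
    unfold ratFun
    simp only [Polynomial.eval_pow, Polynomial.eval_mul, Polynomial.eval_C, Polynomial.eval_add,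
      Polynomial.eval_sub, Polynomial.eval_X]
    rw [← hform t]
    have h4 : (q t ^ m) ^ ((1 : ℝ) / N) = q t ^ l := by
      rw [hl, mul_comm N l, pow_mul, ← Real.rpow_natCast (q t ^ l) N, ← Real.rpow_mul (by
        have := hqpos t
        positivity)]
      rw [mul_one_div_cancel hNR.ne', Real.rpow_one]
    show p.eval t / (q t ^ m) ^ ((1 : ℝ) / N) = p.eval t / q t ^ l
    rw [h4]
  · have hty : ((m : ℚ) / N - 1 / 2) = (-(-((m : ℚ) / N)) - 1 / 2) := by ring
    rw [hty]
    refine Fibre.betaLine (-((m : ℚ) / N)) ?_ ?_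
    · constructor
      · refine ⟨-(m : ℤ), ?_⟩
        push_cast
        field_simp
      · intro z hz
        apply hd
        have h5 : (m : ℚ) = N * (-z : ℤ) := by
          have : (m : ℚ) / N = -z := by linarith
          rw [div_eq_iff hNQ] at this
          rw [this]
          push_cast
          ring
        have h6 : (m : ℤ) = N * (-z) := by exact_mod_cast h5
        exact Int.natCast_dvd_natCast.mp ⟨-z, h6⟩
    · refine ⟨Polynomial.C (M ^ (-((m : ℝ) / N))) * p, -(b / M), Real.sqrt s / M, by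
        have := Real.sqrt_pos.mpr hs
        positivity, ?_⟩
      refine Filter.Eventually.of_forall ?_
      intro t
      show p.eval t / (q t ^ m) ^ ((1 : ℝ) / N) = ((t - -(b / M)) ^ 2 + (Real.sqrt s / M) ^ 2) ^
        ((-((m : ℚ) / N) : ℚ) : ℝ) * (Polynomial.C (M ^ (-((m : ℝ) / N))) * p).eval t
      rw [Polynomial.eval_mul, Polynomial.eval_C]
      have h7 : ((-((m : ℚ) / N) : ℚ) : ℝ) = -((m : ℝ) / N) := by push_cast; ring
      rw [h7]
      have h8 : (q t ^ m) ^ ((1 : ℝ) / N) = q t ^ ((m : ℝ) / N) := by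
        rw [← Real.rpow_natCast (q t) m, ← Real.rpow_mul (hqpos t).le]
        congr 1
        ring
      have h9 : q t ^ (-((m : ℝ) / N)) = M ^ (-((m : ℝ) / N)) *
          ((t - -(b / M)) ^ 2 + (Real.sqrt s / M) ^ 2) ^ (-((m : ℝ) / N)) := by
        rw [hform t, Real.mul_rpow hM.le (by positivity)]
      rw [h8, div_eq_mul_inv, ← Real.rpow_neg (hqpos t).le, h9]
      ring

end Pool.Agent.QP
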