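import Pool.Agent.QP.StB

/-!
# Quarter periods, module UNQ: the ring of the values
-/

set_option autoImplicit false

open MeasureTheory Filter Topology

namespace Pool.Agent.QP

open Pool.Agent.ITR Pool.Agent.Helper23.PeriodDefs

private theorem UNQ_mem (x y : ℝ) (r : ℝ) (hr : r ∈ Algebra.adjoin RealAlg {x, y}) :
    ∃ F : MvPolynomial (Fin 2) RealAlg, MvPolynomial.aeval ![x, y] F = r := by
  have h1 : ({x, y} : Set ℝ) = Set.range ![x, y] := by
    ext z
    simp only [Set.mem_insert_iff, Set.mem_singleton_iff, Set.mem_range]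
    constructor
    · rintro (h | h)
      · exact ⟨0, by simp [h]⟩
      · exact ⟨1, by simp [h]⟩
    · rintro ⟨i, hi⟩
      fin_cases i
      · left; simpa using hi.symm
      · right; simpa using hi.symm
  rw [h1, Algebra.adjoin_range_eq_range_aeval] at hr
  exact hr

/-- the ring of the values -/
theorem thm_UNQ : St_UNQ := by
  intro x y hxy
  have hinj : Function.Injective
      (MvPolynomial.aeval ![x, y] : MvPolynomial (Fin 2) RealAlg →ₐ[RealAlg] ℝ) := hxy
  refine ⟨fun r hr hr0 hri => ?_, fun F a l ha hF => ?_⟩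
  · obtain ⟨F, hF⟩ := UNQ_mem x y r hr
    obtain ⟨G, hG⟩ := UNQ_mem x y r⁻¹ hri
    have h1 : F * G = 1 := by
      apply hinj
      rw [map_mul, hF, hG, map_one, mul_inv_cancel₀ hr0]
    have h2 : IsUnit F := IsUnit.of_mul_eq_one _ h1
    obtain ⟨c, hc, hFc⟩ := MvPolynomial.isUnit_iff_eq_C_of_isReduced.1 h2
    refine ⟨c, ?_⟩
    rw [← hF, hFc, MvPolynomial.aeval_C]
    rfl
  · set s : Fin 2 →₀ ℕ := Finsupp.equivFunOnFinite.symm fun _ => l with hs
    have h1 : F = MvPolynomial.monomial s a := by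
      apply hinj
      rw [hF, MvPolynomial.aeval_monomial, Finsupp.prod_fintype _ _ (fun i => pow_zero _),
        Fin.prod_univ_two]
      have e0 : s 0 = l := rfl
      have e1 : s 1 = l := rfl
      rw [e0, e1]
      simp only [Matrix.cons_val_zero, Matrix.cons_val_one]
      rw [mul_pow]
      rfl
    rw [h1, MvPolynomial.degreeOf_monomial_eq s 0 ha, MvPolynomial.degreeOf_monomial_eq s 1 ha]
    exact ⟨rfl, rfl⟩

end Pool.Agent.QP
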