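import Pool.Agent.ITR.Asm2
import Pool.Agent.QP.StB
import Pool.Agent.QP.BIN
import Pool.Agent.QP.BVL
import Pool.Agent.QP.PIQ
import Pool.Agent.QP.BDE
import Pool.Agent.QP.BDL
import Pool.Agent.QP.BIO
import Pool.Agent.QP.BII
import Pool.Agent.QP.BIL
import Pool.Agent.QP.FBQ
import Pool.Agent.QP.SCQ
import Pool.Agent.QP.INQ
import Pool.Agent.QP.EXQ
import Pool.Agent.QP.OLQ
import Pool.Agent.QP.IDQ
import Pool.Agent.QP.UNQ
import Pool.Agent.QP.FNQ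
import Pool.Agent.QP.AEW
import Pool.Agent.QP.TPQ
import Pool.Agent.QP.JJQ
import Pool.Agent.QP.ONQ
import Pool.Agent.QP.FMQ
import Pool.Agent.QP.SFQ
import Pool.Agent.QP.QTQ
import Pool.Agent.QP.DGM
import Pool.Agent.QP.DGQ

/-!
# Quarter periods, part B: assembly (helper91)
-/

set_option autoImplicit false

namespace Pool.Agent.QP

open Pool.Agent.ITR Pool.Agent.Helper23.PeriodDefs

theorem asm_PIQ : St_PIQ := thm_PIQ thm_BVL

theorem asm_BIO : St_BIO := thm_BIO thm_BIN thm_BVL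

theorem asm_BII : St_BII := thm_BII asm_BIO

theorem asm_FBQ : St_FBQ :=
  thm_FBQ asm_RLF asm_TWF asm_ARF asm_PAS thm_SCL asm_PIQ (thm_BDE asm_RA1 asm_RA2)
    (thm_BDL asm_RA1 asm_RA2) asm_BIO asm_BII (thm_BIL asm_BII)

theorem asm_SCQ : St_SCQ := thm_SCQ thm_SCL

theorem asm_INQ : St_INQ :=
  thm_INQ asm_FBQ asm_SCQ asm_PIQ thm_FLD thm_FUB (thm_CHG thm_FLD) asm_SAG

theorem asm_EXQ : St_EXQ := thm_EXQ thm_BIN

theorem asm_OLQ : St_OLQ := thm_OLQ asm_PIQ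

theorem asm_FNQ (h : Indep) : St_FNQ :=
  thm_FNQ h (thm_IDQ asm_PIQ) thm_UNQ asm_INQ asm_EXQ asm_PIQ asm_SAG

theorem asm_FMQ : St_FMQ :=
  thm_FMQ thm_SLS thm_FUB (thm_ONQ thm_SLS (thm_JJQ thm_BIN thm_BVL)) thm_TPQ thm_AEW asm_SCQ

theorem asm_QTQ : St_QTQ := thm_QTQ asm_FMQ thm_ABT thm_SFQ

theorem asm_DGQ : St_DGQ := thm_DGQ (thm_DGM thm_FUB thm_BIN thm_BVL)

end Pool.Agent.QP
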