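import Pool.Agent.QP.StE

/-!
# Quarter periods, [ECON]: the complement of the lattice
-/

set_option autoImplicit false

open Complex Filter Topology

namespace Pool.Agent.QP

private theorem ECON_countable (L : PeriodPair) : ((L.lattice : Set ℂ)).Countable := by
  have h : Countable L.lattice := TopologicalSpace.separableSpace_iff_countable.mp inferInstance
  exact Set.countable_coe_iff.mp h

/-- **[ECON]** -/
theorem thm_ECON : St_ECON := by
  intro L
  have hc := ECON_countable L
  have ho : IsOpen ((L.lattice : Set ℂ)ᶜ) := L.isClosed_lattice.isOpen_compl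
  have hp : IsPreconnected ((L.lattice : Set ℂ)ᶜ) := by
    refine (hc.isPathConnected_compl_of_one_lt_rank ?_).isConnected.isPreconnected
    rw [Complex.rank_real_complex]
    exact Nat.one_lt_ofNat
  refine ⟨ho, hp, hc.dense_compl ℝ, fun f hf z hz w hw => ?_, fun f hf z₀ hz₀ h0 z hz => ?_⟩
  · refine ho.is_const_of_deriv_eq_zero hp (fun x hx => ?_) (fun x hx => ?_) hz hw
    · exact (hf x hx).differentiableAt.differentiableWithinAt
    · exact (hf x hx).deriv
  · have ha : AnalyticOnNhd ℂ f ((L.lattice : Set ℂ)ᶜ) :=
      DifferentiableOn.analyticOnNhd (fun x hx => (hf x hx).differentiableWithinAt) ho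
    exact ha.eqOn_zero_of_preconnected_of_eventuallyEq_zero hp hz₀ h0 hz

end Pool.Agent.QP
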