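import Pool.Agent.QP.StE
import Pool.Agent.QP.St

/-!
# Quarter periods, block E: the analytic data

Proof of `St_EDAT` (and of `St_DAT4`, `St_DAT6`).
-/

set_option autoImplicit false

open Complex Filter Topology

namespace Pool.Agent.QP

/-- the data for a normalised lattice -/
private theorem EDAT_mk (hLAT : St_ELAT) (hZET : St_EZET) (hQPD : St_EQPD) (hLEG4 : St_ELEG4)
    (hLEG6 : St_ELEG6) (hTHT : St_ETHT) (hGAB : St_EGAB) (hODE : St_EODE) (hPRA : St_EPRA)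
    (hPRB : St_EPRB) (v : ℝ) (tau : ℂ) (h : AdmL v tau) (c : ℤ) (c₂ c₃ : ℝ) (hc : c ≠ 6)
    (hcc : (c₂ : ℂ) / 2 = c) (h₂ : (pair v tau h).g₂ = c₂) (h₃ : (pair v tau h).g₃ = c₃)
    (hcas : (c₂ = 4 ∧ c₃ = 0) ∨ (c₂ = 0 ∧ c₃ = 4)) :
    (∃ D : Dat, D.v = v) ∧
      ∫ x in Set.Ioi (1 : ℝ), 1 / Real.sqrt (4 * x ^ 3 - c₂ * x - c₃) = v / 2 := by
  obtain ⟨-, -, hmem, -, -, -, -, hhalf, -⟩ := hLAT v tau h
  obtain ⟨eta, hEta, hz2⟩ := hQPD v tau h
  obtain ⟨A, B, C, eps, hC, he0, he1, hdA, hdB, hgA, hgB, h1, h2, h3, hlow⟩ :=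
    hGAB v tau h eta hEta
  obtain ⟨p, q, hpq, hder, hneg, hlim, hp1, hq0⟩ := hPRA v tau h c₂ c₃ h₂ h₃ hcas
  have hv := h.hv
  have hnot : ∀ z : ℂ, (∀ a b : ℤ, z ≠ v * (a + b * tau)) → z ∉ (pair v tau h).lattice := by
    intro z hz hzl
    obtain ⟨a, b, hab⟩ := (hmem z).1 hzl
    exact hz a b hab
  have hin : ∀ a b : ℤ, (v * (a + b * tau) : ℂ) ∈ (pair v tau h).lattice := fun a b =>
    (hmem _).2 ⟨a, b, rfl⟩
  have hcast : ((v / 2 : ℝ) : ℂ) = (v : ℂ) / 2 := by push_cast; ring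
  have hint : ∫ x in Set.Ioi (1 : ℝ), 1 / Real.sqrt (4 * x ^ 3 - c₂ * x - c₃) = v / 2 := by
    refine hPRB (v / 2) c₂ c₃ p q (by linarith) ?_ ?_ hneg hlim hp1
    · intro x hx
      exact hder x ⟨hx.1, by linarith [hx.2]⟩
    · exact (hder (v / 2) ⟨by linarith, by linarith⟩).1.continuousAt
  refine ⟨⟨{
    tau := tau
    v := v
    eta := eta
    c := c
    P := (pair v tau h).weierstrassP
    Pd := (pair v tau h).derivWeierstrassP
    Z := zet (pair v tau h)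
    g := tht v tau
    A := A
    B := B
    C := C
    eps := eps
    htau := h.htau
    him := h.him
    hv := h.hv
    leg := ?_
    hc := hc
    hC := hC
    heps := he0
    dZ := fun z hz => (hZET (pair v tau h)).2.2.2.2 z (hnot z hz)
    dP := ?_
    dPd := ?_
    perP := fun a b z => (pair v tau h).weierstrassP_add_coe z ⟨_, hin a b⟩
    perZ := fun a b z hz => hEta a b z (hnot z hz)
    halfP := ?_
    halfPd := ?_
    halfZ := hz2
    dg := (hTHT v tau h).1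
    dA := hdA
    dB := hdB
    gA := fun z hz => hgA z (hnot z hz)
    gB := fun z hz => hgB z (hnot z hz)
    growg := h1
    growA := h2
    growB := h3
    off := ?_
    low := hlow }, rfl⟩, hint⟩
  · rcases h.htau with h4 | h4
    · exact hLEG4 v tau h eta h4 hEta
    · exact hLEG6 v tau h eta h4 hEta
  · intro z hz
    have h4 := ((pair v tau h).analyticOnNhd_weierstrassP z (hnot z hz)).differentiableAt.hasDerivAt
    rw [(pair v tau h).deriv_weierstrassP] at h4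
    exact h4
  · intro z hz
    have h4 := hODE (pair v tau h) z (hnot z hz)
    rw [h₂, hcc] at h4
    exact h4
  · show (pair v tau h).weierstrassP ((v : ℂ) / 2) = 1
    rw [← hcast, (hpq (v / 2)).1, hp1, ofReal_one]
  · show (pair v tau h).derivWeierstrassP ((v : ℂ) / 2) = 0
    rw [← hcast, (hpq (v / 2)).2, hq0, ofReal_zero]
  · intro a b s hs m n heq
    have h4 := hhalf _ (hin (m - a) (n - b))
    have h5 : (v * (((m - a : ℤ) : ℂ) + ((n - b : ℤ) : ℂ) * tau) - v / 2 : ℂ) = s := by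
      have h6 : s = v * (m + n * tau) - (v / 2 + v * (a + b * tau)) := by
        rw [← heq]
        ring
      rw [h6]
      push_cast
      ring
    rw [h5] at h4
    linarith

/-- [EDAT] -/
theorem thm_EDAT (hLAT : St_ELAT) (hZET : St_EZET) (hQPD : St_EQPD) (hLEG4 : St_ELEG4)
    (hLEG6 : St_ELEG6) (hTHT : St_ETHT) (hGAB : St_EGAB) (hODE : St_EODE) (hSCA : St_ESCA)
    (hPRA : St_EPRA) (hPRB : St_EPRB) (hBIN : St_EBIN) : St_EDAT := by
  obtain ⟨⟨v, tau, h, -, h2, h3⟩, ⟨v', tau', h', -, h2', h3'⟩⟩ := hSCA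
  obtain ⟨b1, b2⟩ := hBIN
  constructor
  · obtain ⟨⟨D, hD⟩, hint⟩ := EDAT_mk hLAT hZET hQPD hLEG4 hLEG6 hTHT hGAB hODE hPRA hPRB v tau h
      2 4 0 (by norm_num) (by norm_num) (by rw [h2]; norm_num) (by rw [h3]; norm_num)
      (Or.inl ⟨rfl, rfl⟩)
    refine ⟨D, ?_⟩
    rw [hD]
    have hper : per 4 = bet (1 / 4) (1 / 2) := if_pos rfl
    rw [hper]
    have h5 := hint.symm.trans b1
    linarith
  · obtain ⟨⟨D, hD⟩, hint⟩ := EDAT_mk hLAT hZET hQPD hLEG4 hLEG6 hTHT hGAB hODE hPRA hPRB v'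
      tau' h' 0 0 4 (by norm_num) (by norm_num) (by rw [h2']; norm_num) (by rw [h3']; norm_num)
      (Or.inr ⟨rfl, rfl⟩)
    refine ⟨D, ?_⟩
    rw [hD]
    have hper : per 6 = bet (1 / 3) (1 / 2) := if_neg (by norm_num)
    rw [hper]
    have h5 := hint.symm.trans b2
    have h6 : (0 : ℝ) < Real.sqrt 3 := Real.sqrt_pos.2 (by norm_num)
    have h7 : bet (1 / 3) (1 / 2) / (2 * Real.sqrt 3) = bet (1 / 3) (1 / 2) / Real.sqrt 3 / 2 := by
      rw [div_div, mul_comm (2 : ℝ)]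
    rw [h7] at h5
    linarith

/-- the data for `N = 4` -/
theorem EDAT_four (h : St_EDAT) : St_DAT4 := h.1

/-- the data for `N = 6` -/
theorem EDAT_six (h : St_EDAT) : St_DAT6 := h.2

end Pool.Agent.QP
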