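import Pool.Agent.QP.StE

/-!
# Quarter periods, block E: `g ^ 2 ℘` and `g ζ` are entire
-/

set_option autoImplicit false

open Complex Filter Topology

namespace Pool.Agent.QP

open Classical in
theorem thm_EENT (hZET : St_EZET) : St_EENT := by
  intro L g dg hg
  have hopen : IsOpen ((L.lattice : Set ℂ)ᶜ) := L.isClosed_lattice.isOpen_compl
  -- the quotient by `z - l₀`
  have hk : ∀ l₀ : ℂ, Differentiable ℂ (dslope g l₀) := by
    intro l₀
    rw [← differentiableOn_univ, Complex.differentiableOn_dslope univ_mem]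
    exact dg.differentiableOn
  have hgk : ∀ l₀ ∈ L.lattice, ∀ z, g z = (z - l₀) * dslope g l₀ z := by
    intro l₀ hl₀ z
    have h1 := sub_smul_dslope g l₀ z
    rw [hg l₀ hl₀, sub_zero, smul_eq_mul] at h1
    exact h1.symm
  obtain ⟨-, hz2, -, hz4, hz5⟩ := hZET L
  constructor
  · refine ⟨fun z => if z ∈ L.lattice then (deriv g z) ^ 2 else g z ^ 2 * L.weierstrassP z,
      ?_, fun z hz => if_neg hz⟩
    intro l₀
    by_cases hl : l₀ ∈ L.lattice
    · have hF : DifferentiableAt ℂ (fun z => dslope g l₀ z ^ 2 *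
          (1 + (z - l₀) ^ 2 * (L.weierstrassPExcept l₀ z - 1 / l₀ ^ 2))) l₀ := by
        have h1 : DifferentiableAt ℂ (L.weierstrassPExcept l₀) l₀ :=
          (L.differentiableOn_weierstrassPExcept l₀).differentiableAt
            (L.compl_lattice_sdiff_singleton_mem_nhds l₀)
        have h2 : DifferentiableAt ℂ (dslope g l₀) l₀ := hk l₀ l₀
        have h3 : DifferentiableAt ℂ (fun z : ℂ => (z - l₀) ^ 2) l₀ := by fun_prop
        exact (h2.pow 2).mul ((differentiableAt_const _).add
          (h3.mul (h1.sub (differentiableAt_const _))))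
      refine hF.congr_of_eventuallyEq ?_
      filter_upwards [L.compl_lattice_sdiff_singleton_mem_nhds l₀] with z hz
      by_cases hzl : z = l₀
      · subst hzl
        rw [if_pos hl, dslope_same]
        ring
      · have hz' : z ∉ L.lattice := by
          intro h
          exact hz ⟨h, hzl⟩
        rw [if_neg hz', hgk l₀ hl z, ← L.weierstrassPExcept_add ⟨l₀, hl⟩ z]
        have h4 : z - l₀ ≠ 0 := sub_ne_zero.mpr hzl
        have h5 : (z - l₀) ^ 2 * (1 / (z - l₀) ^ 2) = 1 := by
          field_simp
        show ((z - l₀) * dslope g l₀ z) ^ 2 *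
            (L.weierstrassPExcept l₀ z + (1 / (z - l₀) ^ 2 - 1 / l₀ ^ 2)) =
          dslope g l₀ z ^ 2 * (1 + (z - l₀) ^ 2 * (L.weierstrassPExcept l₀ z - 1 / l₀ ^ 2))
        linear_combination (dslope g l₀ z) ^ 2 * h5
    · have h1 : DifferentiableAt ℂ (fun z => g z ^ 2 * L.weierstrassP z) l₀ :=
        ((dg l₀).pow 2).mul (L.differentiableOn_weierstrassP.differentiableAt (hopen.mem_nhds hl))
      refine h1.congr_of_eventuallyEq ?_
      filter_upwards [hopen.mem_nhds hl] with z hz
      exact if_neg hz
  · refine ⟨fun z => if z ∈ L.lattice then deriv g z else g z * zet L z,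
      ?_, fun z hz => if_neg hz⟩
    intro l₀
    by_cases hl : l₀ ∈ L.lattice
    · have hF : DifferentiableAt ℂ (fun z => dslope g l₀ z *
          (1 + (z - l₀) * (zetE L l₀ l₀ z + (1 / l₀ + z / l₀ ^ 2)))) l₀ := by
        have h1 : DifferentiableAt ℂ (zetE L l₀ l₀) l₀ := hz4 l₀ l₀ l₀ (fun _ => Or.inl rfl)
        have h2 : DifferentiableAt ℂ (dslope g l₀) l₀ := hk l₀ l₀
        have h3 : DifferentiableAt ℂ (fun z : ℂ => z - l₀) l₀ := by fun_prop
        have h4 : DifferentiableAt ℂ (fun z : ℂ => (1 / l₀ + z / l₀ ^ 2)) l₀ :=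
          (differentiableAt_const _).add (differentiableAt_id.div_const _)
        exact h2.mul ((differentiableAt_const _).add (h3.mul (h1.add h4)))
      refine hF.congr_of_eventuallyEq ?_
      filter_upwards [L.compl_lattice_sdiff_singleton_mem_nhds l₀] with z hz
      by_cases hzl : z = l₀
      · subst hzl
        rw [if_pos hl, dslope_same]
        ring
      · have hz' : z ∉ L.lattice := by
          intro h
          exact hz ⟨h, hzl⟩
        rw [if_neg hz', hz2 l₀ hl z, hgk l₀ hl z]
        have h4 : z - l₀ ≠ 0 := sub_ne_zero.mpr hzl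
        have h5 : (z - l₀) * (1 / (z - l₀)) = 1 := by
          field_simp
        linear_combination (dslope g l₀ z) * h5
    · have h1 : DifferentiableAt ℂ (fun z => g z * zet L z) l₀ :=
        (dg l₀).mul (hz5 l₀ hl).differentiableAt
      refine h1.congr_of_eventuallyEq ?_
      filter_upwards [hopen.mem_nhds hl] with z hz
      exact if_neg hz

end Pool.Agent.QP
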