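import Pool.Agent.QP.StE

/-!
# QP, [EGAB]: growth of the entire functions
-/

set_option autoImplicit false

open Complex Filter Topology

namespace Pool.Agent.QP

/-- the real estimate for the upper bounds -/
private theorem EGAB_sq {v t x : ℝ} (hv : 0 < v) (h : |x| ≤ 3 * (1 + t / v)) :
    1 + x ^ 2 ≤ 19 * (1 + 1 / v ^ 2) * (1 + t ^ 2) := by
  have h1 : x ^ 2 ≤ (3 * (1 + t / v)) ^ 2 := by
    rw [← sq_abs x]
    exact pow_le_pow_left₀ (abs_nonneg x) h 2
  have h2 : (3 * (1 + t / v)) ^ 2 ≤ 18 * (1 + t ^ 2 / v ^ 2) := by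
    have h3 : 0 ≤ (1 - t / v) ^ 2 := sq_nonneg _
    have h4 : (t / v) ^ 2 = t ^ 2 / v ^ 2 := div_pow t v 2
    rw [← h4]
    have h5 : 18 * (1 + (t / v) ^ 2) = (3 * (1 + t / v)) ^ 2 + 9 * (1 - t / v) ^ 2 := by ring
    linarith
  have h5 : (1 + 1 / v ^ 2) * (1 + t ^ 2) = 1 + t ^ 2 / v ^ 2 + t ^ 2 + 1 / v ^ 2 := by
    ring
  have h6 : 0 ≤ 1 / v ^ 2 := by positivity
  have h7 : 0 ≤ t ^ 2 / v ^ 2 := by positivity
  have h8 : 0 ≤ t ^ 2 := sq_nonneg t
  have h9 : 19 * (1 + 1 / v ^ 2) * (1 + t ^ 2) = 19 * ((1 + 1 / v ^ 2) * (1 + t ^ 2)) := by ring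
  rw [h9, h5]
  linarith

private theorem EGAB_abs {x B : ℝ} (h : 1 + x ^ 2 ≤ B) : |x| ≤ B := by
  have h1 : 0 ≤ (1 - |x|) ^ 2 := sq_nonneg _
  have h2 : |x| ^ 2 = x ^ 2 := sq_abs x
  have h3 : 0 ≤ |x| := abs_nonneg x
  nlinarith

/-- transfer of an identity to the lattice points -/
private theorem EGAB_ext {L : PeriodPair} (hd : Dense ((L.lattice : Set ℂ)ᶜ)) {f g : ℂ → ℂ}
    (hf : Continuous f) (hg : Continuous g) (h : ∀ z, z ∉ L.lattice → f z = g z) (z : ℂ) :
    f z = g z :=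
  congrFun (Continuous.ext_on hd hf hg fun w hw => h w hw) z

private theorem EGAB_mult (v : ℝ) (tau : ℂ) (b : ℤ) : Continuous (mult v tau b) := by
  unfold mult
  fun_prop

theorem thm_EGAB (hLat : St_ELAT) (hCon : St_ECON) (hTht : St_ETHT) (hEnt : St_EENT) :
    St_EGAB := by
  intro v tau h eta hEta
  set L := pair v tau h with hL
  have hv := h.hv
  obtain ⟨-, ⟨hn1, -, -⟩, hmem, -, -, -, -, -, hred⟩ := hLat v tau h
  obtain ⟨-, -, hdense, -, -⟩ := hCon L
  obtain ⟨hgd, hgper, hg0, hghalf, K, hK0, hK⟩ := hTht v tau h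
  obtain ⟨⟨A, hAd, hA⟩, B, hBd, hB⟩ := hEnt L (tht v tau) hgd hg0
  have hbar : ‖(starRingEnd ℂ) tau‖ = 1 := by
    rw [RCLike.norm_conj]
    exact hn1
  have hlat : ∀ a b : ℤ, (v * (a + b * tau) : ℂ) ∈ L.lattice := fun a b => (hmem _).2 ⟨a, b, rfl⟩
  have hout : ∀ (a b : ℤ) (z : ℂ), z ∉ L.lattice → z + v * (a + b * tau) ∉ L.lattice := by
    intro a b z hz h1
    exact hz ((L.lattice.add_mem_iff_left (hlat a b)).1 h1)
  have hAper : ∀ (a b : ℤ) (z : ℂ), A (z + v * (a + b * tau)) = mult v tau b z ^ 2 * A z := by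
    intro a b z
    refine EGAB_ext hdense (f := fun z => A (z + v * (a + b * tau)))
      (g := fun z => mult v tau b z ^ 2 * A z) (hAd.continuous.comp (by fun_prop))
      (((EGAB_mult v tau b).pow 2).mul hAd.continuous) ?_ z
    intro w hw
    have h1 := L.weierstrassP_add_coe w ⟨_, hlat a b⟩
    show A (w + v * (a + b * tau)) = mult v tau b w ^ 2 * A w
    rw [hA _ (hout a b w hw), hA w hw, hgper a b w, h1]
    ring
  have hBper : ∀ (a b : ℤ) (z : ℂ), B (z + v * (a + b * tau)) =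
      mult v tau b z * (B z + eta * (a + b * (starRingEnd ℂ) tau) * tht v tau z) := by
    intro a b z
    refine EGAB_ext hdense (f := fun z => B (z + v * (a + b * tau)))
      (g := fun z => mult v tau b z * (B z + eta * (a + b * (starRingEnd ℂ) tau) * tht v tau z))
      (hBd.continuous.comp (by fun_prop))
      ((EGAB_mult v tau b).mul (hBd.continuous.add (continuous_const.mul hgd.continuous))) ?_ z
    intro w hw
    show B (w + v * (a + b * tau)) =
      mult v tau b w * (B w + eta * (a + b * (starRingEnd ℂ) tau) * tht v tau w)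
    rw [hB _ (hout a b w hw), hB w hw, hgper a b w, hEta a b w hw]
    ring
  -- bounds on a disc
  have hcp : IsCompact (Metric.closedBall (0 : ℂ) (2 * v)) := isCompact_closedBall _ _
  obtain ⟨M₁, hM₁⟩ := hcp.exists_bound_of_continuousOn hgd.continuous.continuousOn
  obtain ⟨M₂, hM₂⟩ := hcp.exists_bound_of_continuousOn hAd.continuous.continuousOn
  obtain ⟨M₃, hM₃⟩ := hcp.exists_bound_of_continuousOn hBd.continuous.continuousOn
  obtain ⟨M, hM0, hMg, hMA, hMB⟩ : ∃ M : ℝ, 0 ≤ M ∧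
      (∀ w : ℂ, ‖w‖ ≤ 2 * v → ‖tht v tau w‖ ≤ M) ∧ (∀ w : ℂ, ‖w‖ ≤ 2 * v → ‖A w‖ ≤ M) ∧
      ∀ w : ℂ, ‖w‖ ≤ 2 * v → ‖B w‖ ≤ M := by
    refine ⟨|M₁| + |M₂| + |M₃|, by positivity, fun w hw => ?_, fun w hw => ?_, fun w hw => ?_⟩
    · have h1 := hM₁ w (mem_closedBall_zero_iff.2 hw)
      have h2 := le_abs_self M₁
      have h3 := abs_nonneg M₂
      have h4 := abs_nonneg M₃
      linarith
    · have h1 := hM₂ w (mem_closedBall_zero_iff.2 hw)
      have h2 := le_abs_self M₂
      have h3 := abs_nonneg M₁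
      have h4 := abs_nonneg M₃
      linarith
    · have h1 := hM₃ w (mem_closedBall_zero_iff.2 hw)
      have h2 := le_abs_self M₃
      have h3 := abs_nonneg M₁
      have h4 := abs_nonneg M₂
      linarith
  -- the lower bound near `v / 2`
  obtain ⟨eps, m, heps, heps2, hm, hlow⟩ : ∃ eps m : ℝ, 0 < eps ∧ eps < v / 2 ∧ 0 < m ∧
      ∀ s : ℂ, ‖s‖ ≤ eps → m ≤ ‖tht v tau (v / 2 + s)‖ := by
    have h1 : 0 < ‖tht v tau (v / 2)‖ := norm_pos_iff.2 hghalf
    have h2 : ContinuousAt (fun s : ℂ => ‖tht v tau (v / 2 + s)‖) 0 := by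
      refine (continuous_norm.comp (hgd.continuous.comp (by fun_prop))).continuousAt
    have h3 : ∀ᶠ s : ℂ in 𝓝 0, ‖tht v tau (v / 2)‖ / 2 < ‖tht v tau (v / 2 + s)‖ := by
      refine h2.eventually (lt_mem_nhds ?_)
      show ‖tht v tau (v / 2)‖ / 2 < ‖tht v tau (v / 2 + 0)‖
      rw [add_zero]
      linarith
    obtain ⟨δ, hδ, hδ2⟩ := Metric.eventually_nhds_iff.1 h3
    refine ⟨min (δ / 2) (v / 4), ‖tht v tau (v / 2)‖ / 2, by positivity, ?_, by positivity, ?_⟩
    · have := min_le_right (δ / 2) (v / 4)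
      linarith
    · intro s hs
      refine (hδ2 ?_).le
      rw [dist_zero_right]
      have := min_le_left (δ / 2) (v / 4)
      linarith
  -- constants
  set W : ℝ := 19 * (1 + 1 / v ^ 2) with hW
  have hW0 : 0 ≤ W := by positivity
  have him := h.him
  set W' : ℝ := 2 * (1 + v ^ 2) / (v * tau.im) ^ 2 with hW'
  have hW'0 : 0 ≤ W' := by positivity
  set lm : ℝ := |Real.log m| with hlm
  have hlm0 : 0 ≤ lm := abs_nonneg _
  have he0 : 0 ≤ |eta| := abs_nonneg _
  set C : ℝ := 1 + M + 2 * K * W + 2 * |eta| * W + K * (1 + W') + lm with hC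
  have hKW : 0 ≤ K * W := mul_nonneg hK0 hW0
  have hKW' : 0 ≤ K * (1 + W') := by positivity
  have heW : 0 ≤ |eta| * W := mul_nonneg he0 hW0
  have hC1 : 1 ≤ C := by
    have h1 : C = 1 + M + 2 * (K * W) + 2 * (|eta| * W) + K * (1 + W') + lm := by
      rw [hC]
      ring
    linarith
  have hMexp : ∀ z : ℂ, M ≤ Real.exp (M * (1 + ‖z‖ ^ 2)) := by
    intro z
    have h1 : M ≤ M * (1 + ‖z‖ ^ 2) :=
      le_mul_of_one_le_right hM0 (le_add_of_nonneg_right (sq_nonneg _))
    have h3 := Real.add_one_le_exp (M * (1 + ‖z‖ ^ 2))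
    linarith
  refine ⟨A, B, C, eps, hC1, heps, heps2, hAd, hBd, hA, hB, ?_, ?_, ?_, ?_⟩
  · intro z
    obtain ⟨a, b, w, rfl, hw, ha, hb⟩ := hred z
    set Q : ℝ := 1 + ‖w + v * (a + b * tau)‖ ^ 2 with hQ
    have hQ1 : 1 ≤ Q := by
      rw [hQ]
      have := sq_nonneg ‖w + v * (a + b * tau)‖
      linarith
    have hb2 : 1 + (b : ℝ) ^ 2 ≤ W * Q := EGAB_sq hv hb
    rw [hgper, norm_mul]
    have h1 := (hK b w hw).1
    have h2 := hMg w hw
    have h3 := hMexp (w + v * (a + b * tau))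
    calc ‖mult v tau b w‖ * ‖tht v tau w‖
        ≤ Real.exp (K * (1 + (b : ℝ) ^ 2)) * Real.exp (M * Q) :=
          mul_le_mul h1 (h2.trans h3) (norm_nonneg _) (Real.exp_nonneg _)
      _ = Real.exp (K * (1 + (b : ℝ) ^ 2) + M * Q) := (Real.exp_add _ _).symm
      _ ≤ Real.exp (C * Q) := by
          refine Real.exp_le_exp.2 ?_
          have h4 : K * (1 + (b : ℝ) ^ 2) ≤ K * (W * Q) := mul_le_mul_of_nonneg_left hb2 hK0
          have h5 : 0 ≤ (1 + K * W + 2 * |eta| * W + K * (1 + W') + lm) * Q := by positivity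
          have h6 : C * Q = M * Q + K * (W * Q) +
              (1 + K * W + 2 * |eta| * W + K * (1 + W') + lm) * Q := by
            rw [hC]
            ring
          linarith
  · intro z
    obtain ⟨a, b, w, rfl, hw, ha, hb⟩ := hred z
    set Q : ℝ := 1 + ‖w + v * (a + b * tau)‖ ^ 2 with hQ
    have hQ1 : 1 ≤ Q := by
      rw [hQ]
      have := sq_nonneg ‖w + v * (a + b * tau)‖
      linarith
    have hb2 : 1 + (b : ℝ) ^ 2 ≤ W * Q := EGAB_sq hv hb
    rw [hAper, norm_mul, norm_pow]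
    have h1 := (hK b w hw).1
    have h2 := hMA w hw
    have h3 := hMexp (w + v * (a + b * tau))
    calc ‖mult v tau b w‖ ^ 2 * ‖A w‖
        ≤ Real.exp (K * (1 + (b : ℝ) ^ 2)) ^ 2 * Real.exp (M * Q) :=
          mul_le_mul (pow_le_pow_left₀ (norm_nonneg _) h1 2) (h2.trans h3) (norm_nonneg _)
            (by positivity)
      _ = Real.exp (2 * (K * (1 + (b : ℝ) ^ 2)) + M * Q) := by
          rw [Real.exp_add, ← Real.exp_nat_mul]
          norm_num
      _ ≤ Real.exp (C * Q) := by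
          refine Real.exp_le_exp.2 ?_
          have h4 : K * (1 + (b : ℝ) ^ 2) ≤ K * (W * Q) := mul_le_mul_of_nonneg_left hb2 hK0
          have h5 : 0 ≤ (1 + 2 * |eta| * W + K * (1 + W') + lm) * Q := by positivity
          have h6 : C * Q = M * Q + 2 * (K * (W * Q)) +
              (1 + 2 * |eta| * W + K * (1 + W') + lm) * Q := by
            rw [hC]
            ring
          linarith
  · intro z
    obtain ⟨a, b, w, rfl, hw, ha, hb⟩ := hred z
    set Q : ℝ := 1 + ‖w + v * (a + b * tau)‖ ^ 2 with hQ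
    have hQ1 : 1 ≤ Q := by
      rw [hQ]
      have := sq_nonneg ‖w + v * (a + b * tau)‖
      linarith
    have hb2 : 1 + (b : ℝ) ^ 2 ≤ W * Q := EGAB_sq hv hb
    have ha2 : 1 + (a : ℝ) ^ 2 ≤ W * Q := EGAB_sq hv ha
    have hab : |(a : ℝ)| + |(b : ℝ)| ≤ 2 * (W * Q) := by
      have h1 := EGAB_abs ha2
      have h2 := EGAB_abs hb2
      linarith
    rw [hBper, norm_mul]
    have h1 := (hK b w hw).1
    have h2 := hMB w hw
    have h3 := hMexp (w + v * (a + b * tau))
    have h4 := hMg w hw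
    have h5 : ‖((a : ℂ) + b * (starRingEnd ℂ) tau)‖ ≤ 2 * (W * Q) := by
      refine (norm_add_le _ _).trans ?_
      rw [norm_mul, hbar, mul_one, Complex.norm_intCast, Complex.norm_intCast]
      exact hab
    have h6 : ‖B w + eta * (a + b * (starRingEnd ℂ) tau) * tht v tau w‖ ≤
        Real.exp (M * Q + 2 * |eta| * W * Q) := by
      refine (norm_add_le _ _).trans ?_
      rw [norm_mul, norm_mul, Complex.norm_real, Real.norm_eq_abs]
      have h7 : |eta| * ‖((a : ℂ) + b * (starRingEnd ℂ) tau)‖ * ‖tht v tau w‖ ≤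
          |eta| * (2 * (W * Q)) * M :=
        mul_le_mul (mul_le_mul_of_nonneg_left h5 he0) h4 (norm_nonneg _) (by positivity)
      have h8 : 1 + 2 * |eta| * W * Q ≤ Real.exp (2 * |eta| * W * Q) := by
        have := Real.add_one_le_exp (2 * |eta| * W * Q)
        linarith
      rw [Real.exp_add]
      have h9 : M * (1 + 2 * |eta| * W * Q) ≤
          Real.exp (M * Q) * Real.exp (2 * |eta| * W * Q) :=
        mul_le_mul h3 h8 (by positivity) (Real.exp_nonneg _)
      have h10 : M * (1 + 2 * |eta| * W * Q) = M + |eta| * (2 * (W * Q)) * M := by ring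
      linarith
    calc ‖mult v tau b w‖ * ‖B w + eta * (a + b * (starRingEnd ℂ) tau) * tht v tau w‖
        ≤ Real.exp (K * (1 + (b : ℝ) ^ 2)) * Real.exp (M * Q + 2 * |eta| * W * Q) :=
          mul_le_mul h1 h6 (norm_nonneg _) (Real.exp_nonneg _)
      _ = Real.exp (K * (1 + (b : ℝ) ^ 2) + (M * Q + 2 * |eta| * W * Q)) :=
          (Real.exp_add _ _).symm
      _ ≤ Real.exp (C * Q) := by
          refine Real.exp_le_exp.2 ?_
          have h4 : K * (1 + (b : ℝ) ^ 2) ≤ K * (W * Q) := mul_le_mul_of_nonneg_left hb2 hK0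
          have h5 : 0 ≤ (1 + K * W + K * (1 + W') + lm) * Q := by positivity
          have h6 : C * Q = M * Q + 2 * |eta| * W * Q + K * (W * Q) +
              (1 + K * W + K * (1 + W') + lm) * Q := by
            rw [hC]
            ring
          linarith
  · intro a b s hs
    have h1 : (v / 2 + v * (a + b * tau) + s : ℂ) = (v / 2 + s) + v * (a + b * tau) := by ring
    have hw : ‖(v / 2 + s : ℂ)‖ ≤ 2 * v := by
      refine (norm_add_le _ _).trans ?_
      have h2 : ‖(v / 2 : ℂ)‖ = v / 2 := by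
        rw [norm_div, Complex.norm_real, Real.norm_eq_abs, abs_of_pos hv]
        norm_num
      rw [h2]
      linarith
    have h3 := (hK b (v / 2 + s) hw).2
    have h4 := hlow s hs
    rw [h1, hgper, norm_mul]
    set z : ℂ := (v / 2 + s) + v * (a + b * tau) with hz
    set Q : ℝ := 1 + ‖z‖ ^ 2 with hQ
    have hQ1 : 1 ≤ Q := by
      rw [hQ]
      have := sq_nonneg ‖z‖
      linarith
    have h5 : z.im = s.im + v * b * tau.im := by
      rw [hz]
      simp only [add_im, mul_im, ofReal_re, ofReal_im, intCast_re, intCast_im, zero_mul, add_zero,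
        add_re, mul_re, sub_zero, div_ofNat_im, zero_div, zero_add]
      ring
    have h6 : |(b : ℝ)| * (v * tau.im) ≤ ‖z‖ + v := by
      have h7 : (b : ℝ) * (v * tau.im) = z.im - s.im := by
        rw [h5]
        ring
      have h8 : |(b : ℝ)| * (v * tau.im) = |(b : ℝ) * (v * tau.im)| := by
        rw [abs_mul, abs_of_pos (mul_pos hv him)]
      rw [h8, h7]
      refine (abs_sub _ _).trans ?_
      have h9 := abs_im_le_norm z
      have h10 := abs_im_le_norm s
      linarith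
    have h7 : (b : ℝ) ^ 2 ≤ W' * Q := by
      have h8 : (|(b : ℝ)| * (v * tau.im)) ^ 2 ≤ (‖z‖ + v) ^ 2 :=
        pow_le_pow_left₀ (by positivity) h6 2
      rw [mul_pow, sq_abs] at h8
      have h9 : (‖z‖ + v) ^ 2 ≤ 2 * (1 + v ^ 2) * Q := by
        have h10 : 2 * (1 + v ^ 2) * Q =
            (‖z‖ + v) ^ 2 + (2 + (‖z‖ - v) ^ 2 + 2 * (‖z‖ * v) ^ 2) := by
          rw [hQ]
          ring
        have h11 : 0 ≤ 2 + (‖z‖ - v) ^ 2 + 2 * (‖z‖ * v) ^ 2 := by positivity
        linarith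
      have h10 : 0 < (v * tau.im) ^ 2 := by positivity
      rw [hW', div_mul_eq_mul_div, le_div_iff₀ h10]
      linarith
    have h8 : Real.exp (-(lm * Q)) ≤ m := by
      have h9 : -(lm * Q) ≤ Real.log m := by
        have h10 := neg_abs_le (Real.log m)
        have h11 : lm ≤ lm * Q := by nlinarith
        linarith
      calc Real.exp (-(lm * Q)) ≤ Real.exp (Real.log m) := Real.exp_le_exp.2 h9
        _ = m := Real.exp_log hm
    calc Real.exp (-(C * Q)) ≤ Real.exp (-(K * (1 + (b : ℝ) ^ 2)) + -(lm * Q)) := by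
          refine Real.exp_le_exp.2 ?_
          have h9 : K * (1 + (b : ℝ) ^ 2) ≤ K * ((1 + W') * Q) :=
            mul_le_mul_of_nonneg_left (by
              have h12 : (1 + W') * Q = Q + W' * Q := by ring
              linarith) hK0
          have h10 : 0 ≤ (1 + M + 2 * K * W + 2 * |eta| * W) * Q := by positivity
          have h11 : C * Q = K * ((1 + W') * Q) + lm * Q +
              (1 + M + 2 * K * W + 2 * |eta| * W) * Q := by
            rw [hC]
            ring
          linarith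
      _ = Real.exp (-(K * (1 + (b : ℝ) ^ 2))) * Real.exp (-(lm * Q)) := Real.exp_add _ _
      _ ≤ ‖mult v tau b (v / 2 + s)‖ * ‖tht v tau (v / 2 + s)‖ :=
          mul_le_mul h3 (h8.trans h4) (Real.exp_nonneg _) (norm_nonneg _)

end Pool.Agent.QP
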