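import Pool.Agent.QP.StE

/-!
# Quarter periods: Legendre's relation for `τ = i`
-/

set_option autoImplicit false

open Complex Filter Topology

namespace Pool.Agent.QP

private theorem ELEG4_int (f : ℂ → ℂ) (g : ℝ → ℂ) (a b : ℝ) (hg : Continuous g)
    (hf : ∀ x ∈ Set.uIcc a b, ContinuousAt f (g x)) :
    IntervalIntegrable (fun x => f (g x)) MeasureTheory.volume a b :=
  ContinuousOn.intervalIntegrable fun x hx =>
    (ContinuousAt.comp (f := g) (hf x hx) hg.continuousAt).continuousWithinAt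

/-- integrability on the four sides -/
private def ELEG4_S (f : ℂ → ℂ) (x₀ x₁ y₀ y₁ : ℝ) : Prop :=
  IntervalIntegrable (fun x : ℝ => f (x + y₀ * I)) MeasureTheory.volume x₀ x₁ ∧
  IntervalIntegrable (fun x : ℝ => f (x + y₁ * I)) MeasureTheory.volume x₀ x₁ ∧
  IntervalIntegrable (fun y : ℝ => f (x₁ + y * I)) MeasureTheory.volume y₀ y₁ ∧
  IntervalIntegrable (fun y : ℝ => f (x₀ + y * I)) MeasureTheory.volume y₀ y₁

private theorem ELEG4_side (f : ℂ → ℂ) (x₀ x₁ y₀ y₁ : ℝ)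
    (h1 : ∀ x ∈ Set.uIcc x₀ x₁, ContinuousAt f (x + y₀ * I) ∧ ContinuousAt f (x + y₁ * I))
    (h2 : ∀ y ∈ Set.uIcc y₀ y₁, ContinuousAt f (x₁ + y * I) ∧ ContinuousAt f (x₀ + y * I)) :
    ELEG4_S f x₀ x₁ y₀ y₁ :=
  ⟨ELEG4_int f (fun x : ℝ => (x : ℂ) + y₀ * I) x₀ x₁ (by fun_prop) fun x hx => (h1 x hx).1,
    ELEG4_int f (fun x : ℝ => (x : ℂ) + y₁ * I) x₀ x₁ (by fun_prop) fun x hx => (h1 x hx).2,
    ELEG4_int f (fun y : ℝ => (x₁ : ℂ) + y * I) y₀ y₁ (by fun_prop) fun y hy => (h2 y hy).1,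
    ELEG4_int f (fun y : ℝ => (x₀ : ℂ) + y * I) y₀ y₁ (by fun_prop) fun y hy => (h2 y hy).2⟩

private theorem ELEG4_add (f g : ℂ → ℂ) (x₀ x₁ y₀ y₁ : ℝ) (hf : ELEG4_S f x₀ x₁ y₀ y₁)
    (hg : ELEG4_S g x₀ x₁ y₀ y₁) : rect (fun z => f z + g z) x₀ x₁ y₀ y₁ =
      rect f x₀ x₁ y₀ y₁ + rect g x₀ x₁ y₀ y₁ := by
  unfold rect
  rw [intervalIntegral.integral_add hf.1 hg.1, intervalIntegral.integral_add hf.2.1 hg.2.1,
    intervalIntegral.integral_add hf.2.2.1 hg.2.2.1,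
    intervalIntegral.integral_add hf.2.2.2 hg.2.2.2]
  ring

private theorem ELEG4_S_add (f g : ℂ → ℂ) (x₀ x₁ y₀ y₁ : ℝ) (hf : ELEG4_S f x₀ x₁ y₀ y₁)
    (hg : ELEG4_S g x₀ x₁ y₀ y₁) : ELEG4_S (fun z => f z + g z) x₀ x₁ y₀ y₁ :=
  ⟨hf.1.add hg.1, hf.2.1.add hg.2.1, hf.2.2.1.add hg.2.2.1, hf.2.2.2.add hg.2.2.2⟩

/-- `ζ` has quasi-periods: the integral over the boundary -/
private theorem ELEG4_per (f : ℂ → ℂ) (x₀ x₁ y₀ y₁ : ℝ) (e₁ e₂ : ℂ)
    (hf : ELEG4_S f x₀ x₁ y₀ y₁)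
    (h1 : ∀ x ∈ Set.uIcc x₀ x₁, f (x + y₁ * I) = f (x + y₀ * I) + e₂)
    (h2 : ∀ y ∈ Set.uIcc y₀ y₁, f (x₁ + y * I) = f (x₀ + y * I) + e₁) :
    rect f x₀ x₁ y₀ y₁ = -((x₁ - x₀ : ℝ) * e₂) + I * ((y₁ - y₀ : ℝ) * e₁) := by
  unfold rect
  have a1 : (∫ x in x₀..x₁, f (x + y₁ * I)) = (∫ x in x₀..x₁, f (x + y₀ * I)) +
      (x₁ - x₀ : ℝ) * e₂ := by
    rw [intervalIntegral.integral_congr (g := fun x : ℝ => f (x + y₀ * I) + e₂)
      (fun x hx => h1 x hx), intervalIntegral.integral_add hf.1 intervalIntegrable_const,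
      intervalIntegral.integral_const, real_smul]
  have a2 : (∫ y in y₀..y₁, f (x₁ + y * I)) = (∫ y in y₀..y₁, f (x₀ + y * I)) +
      (y₁ - y₀ : ℝ) * e₁ := by
    rw [intervalIntegral.integral_congr (g := fun y : ℝ => f (x₀ + y * I) + e₁)
      (fun y hy => h2 y hy), intervalIntegral.integral_add hf.2.2.2 intervalIntegrable_const,
      intervalIntegral.integral_const, real_smul]
  rw [a1, a2]
  ring

theorem thm_ELEG4 (hLat : St_ELAT) (hZet : St_EZET) (hRct : St_ERCT) : St_ELEG4 := by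
  intro v tau h eta htau hEta
  obtain ⟨l1, -, l3, -, -, -, l7, -, -⟩ := hLat v tau h
  have hv := h.hv
  have hI : tau = I := by
    rcases l1 with h1 | h1
    · exact h1.2
    · exfalso
      have h2 := h1.1
      rw [htau] at h2
      have h3 : tau = 0 := by linear_combination h2
      rw [h3] at htau
      norm_num at htau
  subst hI
  obtain ⟨-, z2, -, z4, -⟩ := hZet (pair v I h)
  have h0 : (0 : ℂ) ∈ (pair v I h).lattice := zero_mem _
  -- the closed rectangle contains only the point zero of the lattice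
  have hsq : ∀ z : ℂ, |z.re| ≤ v / 2 → |z.im| ≤ v / 2 → z ∈ (pair v I h).lattice → z = 0 := by
    intro z hre him hz
    by_contra hne
    have h1 := l7 z hz hne
    have h2 : ‖z‖ ^ 2 = z.re ^ 2 + z.im ^ 2 := by
      rw [← normSq_eq_norm_sq, normSq_apply]
      ring
    have h3 : z.re ^ 2 ≤ (v / 2) ^ 2 := by
      rw [← sq_abs z.re]
      exact pow_le_pow_left₀ (abs_nonneg _) hre 2
    have h4 : z.im ^ 2 ≤ (v / 2) ^ 2 := by
      rw [← sq_abs z.im]
      exact pow_le_pow_left₀ (abs_nonneg _) him 2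
    have h5 : v ^ 2 ≤ ‖z‖ ^ 2 := pow_le_pow_left₀ hv.le h1 2
    nlinarith
  have hdiff : ∀ z : ℂ, |z.re| ≤ v / 2 → |z.im| ≤ v / 2 →
      DifferentiableAt ℂ (zetE (pair v I h) 0 0) z := fun z hre him =>
    z4 0 0 z fun hz => Or.inl (hsq z hre him hz)
  have hle : -(v / 2) ≤ v / 2 := by linarith
  have habs : ∀ x ∈ Set.uIcc (-(v / 2)) (v / 2), |x| ≤ v / 2 := by
    intro x hx
    rw [Set.uIcc_of_le hle] at hx
    exact abs_le.2 hx
  have hav : |v / 2| ≤ v / 2 := (abs_of_pos (by linarith)).le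
  have hav' : |-(v / 2)| ≤ v / 2 := by rw [abs_neg]; exact hav
  have hre : ∀ x y : ℝ, ((x : ℂ) + y * I).re = x := fun x y => by simp
  have him : ∀ x y : ℝ, ((x : ℂ) + y * I).im = y := fun x y => by simp
  have hin : ∀ x y : ℝ, |x| ≤ v / 2 → |y| ≤ v / 2 →
      DifferentiableAt ℂ (zetE (pair v I h) 0 0) (x + y * I) := fun x y hx hy =>
    hdiff _ (by rw [hre]; exact hx) (by rw [him]; exact hy)
  have hneg : (((-(v / 2) : ℝ)) : ℂ) = -((v / 2 : ℝ) : ℂ) := by push_cast; ring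
  -- the two summands
  have sE : ELEG4_S (zetE (pair v I h) 0 0) (-(v / 2)) (v / 2) (-(v / 2)) (v / 2) :=
    ELEG4_side _ _ _ _ _
      (fun x hx => ⟨(hin x _ (habs x hx) hav').continuousAt,
        (hin x _ (habs x hx) hav).continuousAt⟩)
      (fun y hy => ⟨(hin _ y hav (habs y hy)).continuousAt,
        (hin _ y hav' (habs y hy)).continuousAt⟩)
  have hinv : ∀ x y : ℝ, x ≠ 0 ∨ y ≠ 0 →
      ContinuousAt (fun z : ℂ => 1 / (z - 0)) (x + y * I) := by
    intro x y hxy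
    have hne : (x : ℂ) + y * I - 0 ≠ 0 := by
      rw [sub_zero]
      intro h'
      rcases hxy with h1 | h1
      · exact h1 (by rw [← hre x y, h', zero_re])
      · exact h1 (by rw [← him x y, h', zero_im])
    exact continuousAt_const.div (continuousAt_id.sub continuousAt_const) hne
  have hv2 : v / 2 ≠ 0 := by positivity
  have hv2' : -(v / 2) ≠ 0 := neg_ne_zero.2 hv2
  have sI : ELEG4_S (fun z : ℂ => 1 / (z - 0)) (-(v / 2)) (v / 2) (-(v / 2)) (v / 2) :=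
    ELEG4_side _ _ _ _ _
      (fun x _ => ⟨hinv x _ (Or.inr hv2'), hinv x _ (Or.inr hv2)⟩)
      (fun y _ => ⟨hinv _ y (Or.inl hv2), hinv _ y (Or.inl hv2')⟩)
  have hz : zet (pair v I h) = fun z => zetE (pair v I h) 0 0 z + 1 / (z - 0) := by
    funext z
    rw [z2 0 h0 z]
    simp
  have r1 : rect (zetE (pair v I h) 0 0) (-(v / 2)) (v / 2) (-(v / 2)) (v / 2) = 0 := by
    have := Complex.integral_boundary_rect_eq_zero_of_differentiableOn (zetE (pair v I h) 0 0)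
      (⟨-(v / 2), -(v / 2)⟩ : ℂ) ⟨v / 2, v / 2⟩ (by
        intro z hz
        rw [mem_reProdIm] at hz
        exact (hdiff z (habs _ hz.1) (habs _ hz.2)).differentiableWithinAt)
    exact this
  have r2 := hRct (-(v / 2)) (v / 2) (-(v / 2)) (v / 2) 0 (by rw [zero_re]; linarith)
    (by rw [zero_re]; linarith) (by rw [zero_im]; linarith) (by rw [zero_im]; linarith)
  have r3 : rect (zet (pair v I h)) (-(v / 2)) (v / 2) (-(v / 2)) (v / 2) =
      2 * Real.pi * I := by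
    rw [hz, ELEG4_add _ _ _ _ _ _ sE sI, r1, r2, zero_add]
  have sZ : ELEG4_S (zet (pair v I h)) (-(v / 2)) (v / 2) (-(v / 2)) (v / 2) := by
    rw [hz]
    exact ELEG4_S_add _ _ _ _ _ _ sE sI
  -- the boundary does not meet the lattice
  have hb : ∀ x y : ℝ, |x| ≤ v / 2 → |y| ≤ v / 2 → (x ≠ 0 ∨ y ≠ 0) →
      (x : ℂ) + y * I ∉ (pair v I h).lattice := by
    intro x y hx hy hxy hmem
    have h' := hsq _ (by rw [hre]; exact hx) (by rw [him]; exact hy) hmem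
    rcases hxy with h1 | h1
    · exact h1 (by rw [← hre x y, h', zero_re])
    · exact h1 (by rw [← him x y, h', zero_im])
  have r4 := ELEG4_per (zet (pair v I h)) (-(v / 2)) (v / 2) (-(v / 2)) (v / 2) (eta : ℂ)
    (-(eta * I)) sZ (by
      intro x hx
      have := hEta 0 1 (x + ((-(v / 2) : ℝ) : ℂ) * I)
        (hb x _ (habs x hx) hav' (Or.inr hv2'))
      rw [conj_I] at this
      have e : (x : ℂ) + ((v / 2 : ℝ) : ℂ) * I = x + ((-(v / 2) : ℝ) : ℂ) * I +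
          v * (((0 : ℤ) : ℂ) + ((1 : ℤ) : ℂ) * I) := by
        push_cast
        ring
      rw [e, this]
      push_cast
      ring) (by
      intro y hy
      have := hEta 1 0 (((-(v / 2) : ℝ) : ℂ) + y * I)
        (hb _ y hav' (habs y hy) (Or.inl hv2'))
      have e : ((v / 2 : ℝ) : ℂ) + y * I = ((-(v / 2) : ℝ) : ℂ) + y * I +
          v * (((1 : ℤ) : ℂ) + ((0 : ℤ) : ℂ) * I) := by
        push_cast
        ring
      rw [e, this]
      push_cast
      ring)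
  rw [r3] at r4
  have r5 : ((v * eta * I.im : ℝ) : ℂ) = ((Real.pi : ℝ) : ℂ) := by
    have hI2 : (2 : ℂ) * I ≠ 0 := mul_ne_zero two_ne_zero I_ne_zero
    apply mul_left_cancel₀ hI2
    rw [I_im]
    push_cast at r4 ⊢
    linear_combination -r4
  exact_mod_cast r5

end Pool.Agent.QP
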