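import Pool.Agent.QP.StE

/-!
# Quarter periods, block E: Legendre's relation for the hexagonal lattice
-/

set_option autoImplicit false

open Complex Filter Topology

namespace Pool.Agent.QP

private theorem ELEG6_ii (f : ℂ → ℂ) (g : ℝ → ℂ) (hg : Continuous g) (a b : ℝ) (hab : a ≤ b)
    (h : ∀ x ∈ Set.Icc a b, ContinuousAt f (g x)) :
    IntervalIntegrable (fun x => f (g x)) MeasureTheory.volume a b := by
  apply ContinuousOn.intervalIntegrable
  rw [Set.uIcc_of_le hab]
  intro x hx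
  exact (ContinuousAt.comp (f := g) (g := f) (h x hx) hg.continuousAt).continuousWithinAt

/-- continuity on the boundary -/
private def ELEG6_cb (f : ℂ → ℂ) (x₀ x₁ y₀ y₁ : ℝ) : Prop :=
  (∀ x ∈ Set.Icc x₀ x₁, ContinuousAt f (x + y₀ * I)) ∧
  (∀ x ∈ Set.Icc x₀ x₁, ContinuousAt f (x + y₁ * I)) ∧
  (∀ y ∈ Set.Icc y₀ y₁, ContinuousAt f (x₁ + y * I)) ∧
  ∀ y ∈ Set.Icc y₀ y₁, ContinuousAt f (x₀ + y * I)

private theorem ELEG6_h1 (y : ℝ) : Continuous fun x : ℝ => (x + y * I : ℂ) := by fun_prop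

private theorem ELEG6_h2 (x : ℝ) : Continuous fun y : ℝ => (x + y * I : ℂ) := by fun_prop

private theorem ELEG6_add (f g : ℂ → ℂ) (x₀ x₁ y₀ y₁ : ℝ) (hx : x₀ ≤ x₁) (hy : y₀ ≤ y₁)
    (hf : ELEG6_cb f x₀ x₁ y₀ y₁) (hg : ELEG6_cb g x₀ x₁ y₀ y₁) :
    rect (fun z => f z + g z) x₀ x₁ y₀ y₁ = rect f x₀ x₁ y₀ y₁ + rect g x₀ x₁ y₀ y₁ := by
  unfold rect
  rw [intervalIntegral.integral_add (ELEG6_ii f _ (ELEG6_h1 y₀) _ _ hx hf.1)
      (ELEG6_ii g _ (ELEG6_h1 y₀) _ _ hx hg.1),
    intervalIntegral.integral_add (ELEG6_ii f _ (ELEG6_h1 y₁) _ _ hx hf.2.1)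
      (ELEG6_ii g _ (ELEG6_h1 y₁) _ _ hx hg.2.1),
    intervalIntegral.integral_add (ELEG6_ii f _ (ELEG6_h2 x₁) _ _ hy hf.2.2.1)
      (ELEG6_ii g _ (ELEG6_h2 x₁) _ _ hy hg.2.2.1),
    intervalIntegral.integral_add (ELEG6_ii f _ (ELEG6_h2 x₀) _ _ hy hf.2.2.2)
      (ELEG6_ii g _ (ELEG6_h2 x₀) _ _ hy hg.2.2.2)]
  ring

private theorem ELEG6_cba {f g : ℂ → ℂ} {x₀ x₁ y₀ y₁ : ℝ}
    (hf : ELEG6_cb f x₀ x₁ y₀ y₁) (hg : ELEG6_cb g x₀ x₁ y₀ y₁) :
    ELEG6_cb (fun z => f z + g z) x₀ x₁ y₀ y₁ :=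
  ⟨fun x hx => (hf.1 x hx).add (hg.1 x hx), fun x hx => (hf.2.1 x hx).add (hg.2.1 x hx),
    fun x hx => (hf.2.2.1 x hx).add (hg.2.2.1 x hx),
    fun x hx => (hf.2.2.2 x hx).add (hg.2.2.2 x hx)⟩

/-- a pole in the interior -/
private theorem ELEG6_pole (x₀ x₁ y₀ y₁ : ℝ) (c : ℂ) (h1 : x₀ < c.re) (h2 : c.re < x₁)
    (h3 : y₀ < c.im) (h4 : c.im < y₁) : ELEG6_cb (fun z => 1 / (z - c)) x₀ x₁ y₀ y₁ := by
  have key : ∀ z : ℂ, z ≠ c → ContinuousAt (fun z => 1 / (z - c)) z := by
    intro z hz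
    exact continuousAt_const.div (continuousAt_id.sub continuousAt_const) (sub_ne_zero.2 hz)
  refine ⟨fun x _ => key _ ?_, fun x _ => key _ ?_, fun y _ => key _ ?_, fun y _ => key _ ?_⟩
  · intro h
    have := congrArg Complex.im h
    simp at this
    linarith
  · intro h
    have := congrArg Complex.im h
    simp at this
    linarith
  · intro h
    have := congrArg Complex.re h
    simp at this
    linarith
  · intro h
    have := congrArg Complex.re h
    simp at this
    linarith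

/-- Legendre's relation. -/
theorem thm_ELEG6 (h1 : St_ELAT) (h2 : St_EZET) (h3 : St_ERCT) : St_ELEG6 := by
  intro v tau h eta htau hEta
  obtain ⟨k1, k2, k3, -⟩ := h1 v tau h
  have hv := h.hv
  obtain ⟨s, hs⟩ : ∃ s : ℝ, s = Real.sqrt 3 := ⟨_, rfl⟩
  have hs0 : 0 < s := by
    rw [hs]
    positivity
  have hs2 : s * s = 3 := by
    rw [hs]
    exact Real.mul_self_sqrt (by norm_num)
  have ht : tau = -1 / 2 + (s / 2 : ℝ) * I := by
    rcases k1 with k | k
    · exfalso
      have e := k.1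
      rw [k.2] at htau
      rw [I_sq] at htau
      have := congrArg Complex.im htau
      simp at this
    · rw [hs]
      exact k.2
  have hre : tau.re = -1 / 2 := by
    rw [ht]
    simp
  have him : tau.im = s / 2 := by
    rw [ht]
    simp
  have hconj : (starRingEnd ℂ) tau = -1 / 2 - (s / 2 : ℝ) * I := by
    apply Complex.ext
    · rw [conj_re, hre]
      simp
    · rw [conj_im, him]
      simp
  obtain ⟨L, hL⟩ : ∃ L : PeriodPair, L = pair v tau h := ⟨_, rfl⟩
  rw [← hL] at k3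
  have hEta' : ∀ (a b : ℤ) (z : ℂ), z ∉ L.lattice →
      zet L (z + v * (a + b * tau)) = zet L z + eta * (a + b * (starRingEnd ℂ) tau) := by
    rw [hL]
    exact hEta
  obtain ⟨c, hc⟩ : ∃ c : ℂ, c = v * (1 + tau) := ⟨_, rfl⟩
  have hcre : c.re = v / 2 := by
    rw [hc]
    simp [hre]
    ring
  have hcim : c.im = s * v / 2 := by
    rw [hc]
    simp [him]
    ring
  obtain ⟨x₀, hx₀⟩ : ∃ x : ℝ, x = -v / 4 := ⟨_, rfl⟩
  obtain ⟨x₁, hx₁⟩ : ∃ x : ℝ, x = 3 * v / 4 := ⟨_, rfl⟩
  obtain ⟨y₀, hy₀⟩ : ∃ x : ℝ, x = -(s * v) / 4 := ⟨_, rfl⟩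
  obtain ⟨y₁, hy₁⟩ : ∃ x : ℝ, x = 3 * (s * v) / 4 := ⟨_, rfl⟩
  have hsv : 0 < s * v := mul_pos hs0 hv
  have hx : x₀ ≤ x₁ := by linarith
  have hy : y₀ ≤ y₁ := by linarith
  -- the lattice points in the rectangle
  have hlat : ∀ z : ℂ, x₀ ≤ z.re → z.re ≤ x₁ → y₀ ≤ z.im → z.im ≤ y₁ → z ∈ L.lattice →
      z = 0 ∨ z = c := by
    intro z z1 z2 z3 z4 hz
    obtain ⟨a, b, hab⟩ := (k3 z).1 hz
    have r1 : z.re = v * (a - b / 2) := by
      rw [hab]
      simp [hre]
      left
      ring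
    have r2 : z.im = s * v * (b / 2) := by
      rw [hab]
      simp [him]
      ring
    have b1 : -1 < (b : ℝ) := by
      by_contra hb
      push Not at hb
      have : s * v * (b / 2) ≤ s * v * (-1 / 2) := mul_le_mul_of_nonneg_left (by linarith) hsv.le
      rw [r2, hy₀] at z3
      linarith
    have b2 : (b : ℝ) < 2 := by
      by_contra hb
      push Not at hb
      have : s * v * 1 ≤ s * v * (b / 2) := mul_le_mul_of_nonneg_left (by linarith) hsv.le
      rw [r2, hy₁] at z4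
      linarith
    have b3 : -1 < b := by exact_mod_cast b1
    have b4 : b < 2 := by exact_mod_cast b2
    have a1 : -1 / 4 ≤ (a : ℝ) - b / 2 := by
      by_contra ha
      push Not at ha
      have : v * (a - b / 2) < v * (-1 / 4) := mul_lt_mul_of_pos_left ha hv
      rw [r1, hx₀] at z1
      linarith
    have a2 : (a : ℝ) - b / 2 ≤ 3 / 4 := by
      by_contra ha
      push Not at ha
      have : v * (3 / 4) < v * (a - b / 2) := mul_lt_mul_of_pos_left ha hv
      rw [r1, hx₁] at z2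
      linarith
    have hb : b = 0 ∨ b = 1 := by omega
    rcases hb with hb | hb
    · left
      subst hb
      have a3 : -1 < (a : ℝ) := by
        push_cast at a1
        linarith
      have a4 : (a : ℝ) < 1 := by
        push_cast at a2
        linarith
      have a5 : -1 < a := by exact_mod_cast a3
      have a6 : a < 1 := by exact_mod_cast a4
      have ha : a = 0 := by omega
      rw [hab, ha]
      simp
    · right
      subst hb
      have a3 : 0 < (a : ℝ) := by
        push_cast at a1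
        linarith
      have a4 : (a : ℝ) < 2 := by
        push_cast at a2
        linarith
      have a5 : 0 < a := by exact_mod_cast a3
      have a6 : a < 2 := by exact_mod_cast a4
      have ha : a = 1 := by omega
      rw [hab, ha, hc]
      simp
  have h0mem : (0 : ℂ) ∈ L.lattice := (k3 0).2 ⟨0, 0, by simp⟩
  have hcmem : c ∈ L.lattice := (k3 c).2 ⟨1, 1, by rw [hc]; simp⟩
  have h0c : (0 : ℂ) ≠ c := by
    intro hh
    have := congrArg Complex.re hh
    rw [hcre, zero_re] at this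
    linarith
  obtain ⟨-, -, z3, z4, -⟩ := h2 L
  -- the three parts
  obtain ⟨g, hg⟩ : ∃ g : ℂ → ℂ, g = fun z => zetE L 0 c z + (1 / c + z / c ^ 2) := ⟨_, rfl⟩
  have hf : zet L = fun z => (g z + 1 / (z - 0)) + 1 / (z - c) := by
    funext z
    rw [z3 0 h0mem c hcmem h0c z, hg]
    simp
    ring
  have hgd : ∀ z : ℂ, x₀ ≤ z.re → z.re ≤ x₁ → y₀ ≤ z.im → z.im ≤ y₁ →
      DifferentiableAt ℂ g z := by
    intro z w1 w2 w3 w4
    rw [hg]
    exact (z4 0 c z (hlat z w1 w2 w3 w4)).add (by fun_prop)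
  have gcb : ELEG6_cb g x₀ x₁ y₀ y₁ := by
    refine ⟨fun x hx' => (hgd _ ?_ ?_ ?_ ?_).continuousAt, fun x hx' =>
      (hgd _ ?_ ?_ ?_ ?_).continuousAt, fun y hy' => (hgd _ ?_ ?_ ?_ ?_).continuousAt,
      fun y hy' => (hgd _ ?_ ?_ ?_ ?_).continuousAt⟩ <;> simp <;>
    first
      | exact hx'.1
      | exact hx'.2
      | exact hy'.1
      | exact hy'.2
      | exact hx
      | exact hy
  have g0 : rect g x₀ x₁ y₀ y₁ = 0 := by
    have hh := Complex.integral_boundary_rect_eq_zero_of_differentiableOn g (x₀ + y₀ * I)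
      (x₁ + y₁ * I) (by
        intro z hz
        rw [mem_reProdIm] at hz
        simp only [add_re, ofReal_re, mul_re, I_re, mul_zero, ofReal_im, I_im, mul_one, sub_self,
          add_zero, add_im, mul_im, zero_add] at hz
        rw [Set.uIcc_of_le hx, Set.uIcc_of_le hy] at hz
        exact (hgd z hz.1.1 hz.1.2 hz.2.1 hz.2.2).differentiableWithinAt)
    simp only [add_re, ofReal_re, mul_re, I_re, mul_zero, ofReal_im, I_im, mul_one, sub_self,
      add_zero, add_im, mul_im, zero_add, smul_eq_mul] at hh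
    exact hh
  have p0 : ELEG6_cb (fun z => 1 / (z - 0)) x₀ x₁ y₀ y₁ :=
    ELEG6_pole _ _ _ _ 0 (by simp; linarith) (by simp; linarith) (by simp; linarith)
      (by simp; linarith)
  have pc : ELEG6_cb (fun z => 1 / (z - c)) x₀ x₁ y₀ y₁ :=
    ELEG6_pole _ _ _ _ c (by linarith) (by linarith) (by linarith) (by linarith)
  have fcb : ELEG6_cb (zet L) x₀ x₁ y₀ y₁ := by
    rw [hf]
    exact ELEG6_cba (ELEG6_cba gcb p0) pc
  have r1 : rect (zet L) x₀ x₁ y₀ y₁ = 4 * Real.pi * I := by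
    rw [hf, ELEG6_add _ _ _ _ _ _ hx hy (ELEG6_cba gcb p0) pc,
      ELEG6_add _ _ _ _ _ _ hx hy gcb p0, g0,
      h3 x₀ x₁ y₀ y₁ 0 (by simp; linarith) (by simp; linarith) (by simp; linarith)
        (by simp; linarith),
      h3 x₀ x₁ y₀ y₁ c (by linarith) (by linarith) (by linarith) (by linarith)]
    ring
  -- the sides
  have e1 : ∀ x ∈ Set.uIcc x₀ x₁, zet L (x + y₀ * I) - zet L (x + y₁ * I) = eta * s * I := by
    intro x hx'
    rw [Set.uIcc_of_le hx] at hx'
    have hn : (x + y₀ * I : ℂ) ∉ L.lattice := by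
      intro hm
      rcases hlat _ (by simpa using hx'.1) (by simpa using hx'.2) (by simp) (by simpa using hy) hm
        with hh | hh
      · have := congrArg Complex.im hh
        simp at this
        linarith
      · have := congrArg Complex.im hh
        rw [hcim] at this
        simp at this
        linarith
    have e2 : (x + y₁ * I : ℂ) = (x + y₀ * I) + v * ((1 : ℤ) + (2 : ℤ) * tau) := by
      rw [ht, hy₀, hy₁]
      push_cast
      ring
    rw [e2, hEta' 1 2 _ hn, hconj]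
    push_cast
    ring
  have e3 : ∀ y ∈ Set.uIcc y₀ y₁, zet L (x₁ + y * I) - zet L (x₀ + y * I) = eta := by
    intro y hy'
    rw [Set.uIcc_of_le hy] at hy'
    have hn : (x₀ + y * I : ℂ) ∉ L.lattice := by
      intro hm
      rcases hlat _ (by simp) (by simpa using hx) (by simpa using hy'.1) (by simpa using hy'.2) hm
        with hh | hh
      · have := congrArg Complex.re hh
        simp at this
        linarith
      · have := congrArg Complex.re hh
        rw [hcre] at this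
        simp at this
        linarith
    have e2 : (x₁ + y * I : ℂ) = (x₀ + y * I) + v * ((1 : ℤ) + (0 : ℤ) * tau) := by
      rw [hx₀, hx₁]
      push_cast
      ring
    rw [e2, hEta' 1 0 _ hn]
    push_cast
    ring
  have r2 : rect (zet L) x₀ x₁ y₀ y₁ = 2 * (s * v * eta) * I := by
    unfold rect
    rw [← intervalIntegral.integral_sub (ELEG6_ii _ _ (ELEG6_h1 y₀) _ _ hx fcb.1)
      (ELEG6_ii _ _ (ELEG6_h1 y₁) _ _ hx fcb.2.1), add_sub_assoc, ← mul_sub,
      ← intervalIntegral.integral_sub (ELEG6_ii _ _ (ELEG6_h2 x₁) _ _ hy fcb.2.2.1)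
      (ELEG6_ii _ _ (ELEG6_h2 x₀) _ _ hy fcb.2.2.2), intervalIntegral.integral_congr e1,
      intervalIntegral.integral_congr e3, intervalIntegral.integral_const,
      intervalIntegral.integral_const, hx₀, hx₁, hy₀, hy₁, real_smul, real_smul]
    push_cast
    ring
  rw [r1] at r2
  have r3 : (4 * Real.pi : ℂ) = 2 * (s * v * eta) := mul_right_cancel₀ I_ne_zero r2
  have r4 : 4 * Real.pi = 2 * (s * v * eta) := by exact_mod_cast r3
  rw [him]
  linarith

end Pool.Agent.QP
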