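import Pool.Agent.QP.StE

/-!
# Quarter periods, block E [EODE]: the second derivative of the function of Weierstrass (helper91)
-/

set_option autoImplicit false

open Complex Filter Topology

namespace Pool.Agent.QP

theorem thm_EODE (hC : St_ECON) : St_EODE := by
  intro L z hz
  obtain ⟨hopen, -, -, hconst, hid⟩ := hC L
  have hd : ∀ w : ℂ, w ∉ L.lattice → HasDerivAt L.weierstrassP (L.derivWeierstrassP w) w := by
    intro w hw
    have h1 : DifferentiableAt ℂ L.weierstrassP w :=
      (L.analyticOnNhd_weierstrassP w hw).differentiableAt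
    have h2 := h1.hasDerivAt
    rwa [L.deriv_weierstrassP] at h2
  have hd' : ∀ w : ℂ, w ∉ L.lattice → DifferentiableAt ℂ L.derivWeierstrassP w := fun w hw =>
    (L.analyticOnNhd_derivWeierstrassP w hw).differentiableAt
  -- the derivative of the differential equation
  have hrel : ∀ w : ℂ, w ∉ L.lattice → L.derivWeierstrassP w *
      (deriv L.derivWeierstrassP w - (6 * L.weierstrassP w ^ 2 - L.g₂ / 2)) = 0 := by
    intro w hw
    have h1 : HasDerivAt (fun u => L.derivWeierstrassP u ^ 2)
        (2 * L.derivWeierstrassP w * deriv L.derivWeierstrassP w) w := by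
      have h := (hd' w hw).hasDerivAt.pow 2
      refine h.congr_deriv ?_
      norm_num
    have h2 : HasDerivAt (fun u => 4 * L.weierstrassP u ^ 3 - L.g₂ * L.weierstrassP u - L.g₃)
        (12 * L.weierstrassP w ^ 2 * L.derivWeierstrassP w - L.g₂ * L.derivWeierstrassP w) w := by
      have h := ((((hd w hw).pow 3).const_mul 4).sub ((hd w hw).const_mul L.g₂)).sub_const L.g₃
      refine h.congr_deriv ?_
      norm_num
      ring
    have h3 : (fun u => L.derivWeierstrassP u ^ 2) =ᶠ[𝓝 w]
        (fun u => 4 * L.weierstrassP u ^ 3 - L.g₂ * L.weierstrassP u - L.g₃) := by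
      filter_upwards [hopen.mem_nhds hw] with u hu
      exact L.derivWeierstrassP_sq u hu
    have h4 := (h1.congr_of_eventuallyEq h3.symm).unique h2
    have h5 : L.derivWeierstrassP w *
        (deriv L.derivWeierstrassP w - (6 * L.weierstrassP w ^ 2 - L.g₂ / 2)) =
        (2 * L.derivWeierstrassP w * deriv L.derivWeierstrassP w -
          (12 * L.weierstrassP w ^ 2 * L.derivWeierstrassP w -
            L.g₂ * L.derivWeierstrassP w)) / 2 := by ring
    rw [h5, h4, sub_self, zero_div]
  have key : deriv L.derivWeierstrassP z = 6 * L.weierstrassP z ^ 2 - L.g₂ / 2 := by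
    by_contra hne
    have hcont : ContinuousAt (fun u => deriv L.derivWeierstrassP u -
        (6 * L.weierstrassP u ^ 2 - L.g₂ / 2)) z := by
      have h1 : ContinuousAt (deriv L.derivWeierstrassP) z :=
        (L.analyticOnNhd_derivWeierstrassP z hz).deriv.continuousAt
      have h2 : ContinuousAt L.weierstrassP z := (hd z hz).continuousAt
      exact h1.sub (((h2.pow 2).const_mul 6).sub continuousAt_const)
    have hev : ∀ᶠ u in 𝓝 z, L.derivWeierstrassP u = 0 := by
      have h1 := hcont.eventually_ne (sub_ne_zero.2 hne)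
      filter_upwards [h1, hopen.mem_nhds hz] with u hu1 hu2
      rcases mul_eq_zero.1 (hrel u hu2) with h | h
      · exact h
      · exact absurd h hu1
    have hzero : ∀ w, w ∉ L.lattice → L.derivWeierstrassP w = 0 :=
      hid L.derivWeierstrassP hd' z hz hev
    have hc : ∀ w, w ∉ L.lattice → L.weierstrassP w = L.weierstrassP z := by
      intro w hw
      refine hconst L.weierstrassP (fun u hu => ?_) w hw z hz
      have h := hd u hu
      rwa [hzero u hu] at h
    have h0 : (0 : ℂ) ∈ L.lattice := zero_mem _
    have h1 := L.order_weierstrassP 0 h0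
    have h2 : L.weierstrassP =ᶠ[𝓝[≠] 0] fun _ => L.weierstrassP z := by
      have h3 := L.compl_lattice_sdiff_singleton_mem_nhds 0
      filter_upwards [nhdsWithin_le_nhds h3, self_mem_nhdsWithin] with u hu1 hu2
      refine hc u fun hu => hu1 ⟨hu, hu2⟩
    rw [meromorphicOrderAt_congr h2, meromorphicOrderAt_const] at h1
    split_ifs at h1 with h4
    · have h5 : (⊤ : WithTop ℤ) = ((-2 : ℤ) : WithTop ℤ) := h1
      exact absurd h5 WithTop.top_ne_coe
    · have h5 : ((0 : ℤ) : WithTop ℤ) = ((-2 : ℤ) : WithTop ℤ) := h1
      exact absurd (WithTop.coe_injective h5) (by norm_num)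
  rw [← key]
  exact (hd' z hz).hasDerivAt

end Pool.Agent.QP
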