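import Pool.Agent.QP.StE

/-!
# Quarter periods, module EPOS4: `G₄ > 0` for the lattice `ℤ[i]`

The terms with `m n = 0` are `1 / m ^ 4` or `1 / n ^ 4`, the norm of the others is at most
`1 / (4 m ^ 2 n ^ 2)`; so `G₄ ≥ 4 ζ(4) - ζ(2) ^ 2 = π ^ 4 / 60`.
-/

set_option autoImplicit false

open Complex

namespace Pool.Agent.QP

private theorem EPOS4_tau {tau : ℂ} (h0 : 0 < tau.im) (h : tau ^ 2 = -1) : tau = I := by
  have h1 := congrArg Complex.re h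
  have h2 := congrArg Complex.im h
  simp only [sq, mul_re, mul_im, neg_re, one_re, neg_im, one_im, neg_zero] at h1 h2
  have h3 : tau.re = 0 := by
    have h4 : tau.re * tau.im = 0 := by linarith
    rcases mul_eq_zero.1 h4 with h5 | h5
    · exact h5
    · exact absurd h5 h0.ne'
  have h4 : tau.im = 1 := by
    rw [h3] at h1
    nlinarith
  exact Complex.ext (by simpa using h3) (by simpa using h4)

private theorem EPOS4_zeta (k : ℕ) (hk : Even k) (hk0 : k ≠ 0) {s : ℝ}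
    (h : HasSum (fun n : ℕ => (1 : ℝ) / (n : ℝ) ^ k) s) :
    HasSum (fun n : ℤ => (1 : ℝ) / (n : ℝ) ^ k) (s + s) := by
  have h1 : HasSum (fun n : ℕ => (fun n : ℤ => (1 : ℝ) / (n : ℝ) ^ k) (n : ℤ)) s := by
    simpa using h
  have h2 : HasSum (fun n : ℕ => (fun n : ℤ => (1 : ℝ) / (n : ℝ) ^ k) (-(n : ℤ))) s := by
    have e : (fun n : ℕ => (fun n : ℤ => (1 : ℝ) / (n : ℝ) ^ k) (-(n : ℤ))) =
        fun n : ℕ => (1 : ℝ) / (n : ℝ) ^ k := by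
      funext n
      show (1 : ℝ) / (((-(n : ℤ) : ℤ)) : ℝ) ^ k = 1 / (n : ℝ) ^ k
      rw [Int.cast_neg, Int.cast_natCast, hk.neg_pow]
    rw [e]
    exact h
  have h3 := HasSum.of_nat_of_neg (f := fun n : ℤ => (1 : ℝ) / (n : ℝ) ^ k) h1 h2
  have h4 : (1 : ℝ) / (((0 : ℤ)) : ℝ) ^ k = 0 := by
    rw [Int.cast_zero, zero_pow hk0, div_zero]
  rw [h4, sub_zero] at h3
  exact h3

private theorem EPOS4_term (m n : ℤ) :
    (1 : ℝ) / (m : ℝ) ^ 4 * (if n = 0 then 1 else 0) +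
      (if m = 0 then 1 else 0) * ((1 : ℝ) / (n : ℝ) ^ 4) -
      1 / 4 * ((1 : ℝ) / (m : ℝ) ^ 2 * ((1 : ℝ) / (n : ℝ) ^ 2)) ≤
    ((((m : ℂ) + (n : ℂ) * I) ^ 4)⁻¹).re := by
  by_cases hn : n = 0
  · subst hn
    have e : (((m : ℂ) + ((0 : ℤ) : ℂ) * I) ^ 4)⁻¹ = (((1 : ℝ) / (m : ℝ) ^ 4 : ℝ) : ℂ) := by
      push_cast
      ring
    rw [e, ofReal_re]
    simp
  · by_cases hm : m = 0
    · subst hm
      have e : ((((0 : ℤ) : ℂ) + (n : ℂ) * I) ^ 4)⁻¹ = (((1 : ℝ) / (n : ℝ) ^ 4 : ℝ) : ℂ) := by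
        push_cast
        have hI : I ^ 4 = 1 := by
          rw [show (4 : ℕ) = 2 * 2 by norm_num, pow_mul, I_sq]
          norm_num
        rw [zero_add, mul_pow, hI, mul_one, one_div]
      rw [e, ofReal_re]
      simp [hn]
    · rw [if_neg hn, if_neg hm]
      have hmr : (m : ℝ) ≠ 0 := by exact_mod_cast hm
      have hnr : (n : ℝ) ≠ 0 := by exact_mod_cast hn
      have hm2 : (0 : ℝ) < (m : ℝ) ^ 2 := by positivity
      have hn2 : (0 : ℝ) < (n : ℝ) ^ 2 := by positivity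
      have h1 := Complex.abs_re_le_norm ((((m : ℂ) + (n : ℂ) * I) ^ 4)⁻¹)
      have h2 : ‖(((m : ℂ) + (n : ℂ) * I) ^ 4)⁻¹‖ = (((m : ℝ) ^ 2 + (n : ℝ) ^ 2) ^ 2)⁻¹ := by
        rw [norm_inv, norm_pow, show (4 : ℕ) = 2 * 2 by norm_num, pow_mul, ← normSq_eq_norm_sq]
        congr 2
        rw [normSq_apply]
        simp
        ring
      rw [h2] at h1
      have h3 : (((m : ℝ) ^ 2 + (n : ℝ) ^ 2) ^ 2)⁻¹ ≤
          1 / 4 * ((1 : ℝ) / (m : ℝ) ^ 2 * ((1 : ℝ) / (n : ℝ) ^ 2)) := by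
        have e : 1 / 4 * ((1 : ℝ) / (m : ℝ) ^ 2 * ((1 : ℝ) / (n : ℝ) ^ 2)) =
            (4 * ((m : ℝ) ^ 2 * (n : ℝ) ^ 2))⁻¹ := by
          field_simp
        rw [e]
        refine inv_anti₀ (by positivity) ?_
        nlinarith [sq_nonneg ((m : ℝ) ^ 2 - (n : ℝ) ^ 2)]
      have h4 := (abs_le.1 h1).1
      linarith

/-- `G₄ > 0` -/
theorem thm_EPOS4 (h1 : St_ESYM) : St_EPOS4 := by
  intro tau h htau
  have hI := EPOS4_tau h.him htau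
  set L := pair 1 tau h with hL
  have hconj : (starRingEnd ℂ) (L.G 4) = L.G 4 := (h1.2 1 tau h).2.2.2.2.2.2 4
  have hreal : L.G 4 = ((L.G 4).re : ℂ) := (Complex.conj_eq_iff_re.1 hconj).symm
  refine ⟨(L.G 4).re, ?_, hreal⟩
  -- the series over `ℤ ^ 2`
  have hs : HasSum (fun l : L.lattice => (((l : ℂ)) ^ 4)⁻¹) (L.G 4) := by
    have h2 := L.hasSum_sumInvPow 0 (r := 4) (by norm_num)
    simp only [sub_zero] at h2
    rwa [L.sumInvPow_zero] at h2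
  have hs2 : HasSum (fun x : ℤ × ℤ => (((x.1 : ℂ) + (x.2 : ℂ) * I) ^ 4)⁻¹) (L.G 4) := by
    have h2 := (Equiv.hasSum_iff L.latticeEquivProd.symm.toEquiv).2 hs
    refine h2.congr_fun ?_
    intro x
    show (((x.1 : ℂ) + (x.2 : ℂ) * I) ^ 4)⁻¹ = (((L.latticeEquivProd.symm x : L.lattice) : ℂ) ^ 4)⁻¹
    rw [L.latticeEquiv_symm_apply]
    show _ = (((x.1 : ℂ) * ((1 : ℝ) : ℂ) + (x.2 : ℂ) * (((1 : ℝ) : ℂ) * tau)) ^ 4)⁻¹
    rw [hI]
    norm_num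
  have hs3 := Complex.hasSum_re hs2
  -- the comparison series
  have h4 := EPOS4_zeta 4 (by decide) (by norm_num) hasSum_zeta_four
  have h2 := EPOS4_zeta 2 (by decide) (by norm_num) hasSum_zeta_two
  have hd : HasSum (fun n : ℤ => if n = 0 then (1 : ℝ) else 0) 1 := hasSum_ite_eq 0 1
  have p4 : (0 : ℤ → ℝ) ≤ fun n : ℤ => (1 : ℝ) / (n : ℝ) ^ 4 := fun n => by
    show (0 : ℝ) ≤ 1 / (n : ℝ) ^ 4
    positivity
  have p2 : (0 : ℤ → ℝ) ≤ fun n : ℤ => (1 : ℝ) / (n : ℝ) ^ 2 := fun n => by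
    show (0 : ℝ) ≤ 1 / (n : ℝ) ^ 2
    positivity
  have pd : (0 : ℤ → ℝ) ≤ fun n : ℤ => if n = 0 then (1 : ℝ) else 0 := fun n => by
    show (0 : ℝ) ≤ if n = 0 then (1 : ℝ) else 0
    split_ifs <;> norm_num
  have e1 := h4.mul hd (h4.summable.mul_of_nonneg hd.summable p4 pd)
  have e2 := hd.mul h4 (hd.summable.mul_of_nonneg h4.summable pd p4)
  have e3 := (h2.mul h2 (h2.summable.mul_of_nonneg h2.summable p2 p2)).mul_left (1 / 4)
  have e4 := (e1.add e2).sub e3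
  have hle := hasSum_le (fun x : ℤ × ℤ => EPOS4_term x.1 x.2) e4 hs3
  have hpi := Real.pi_pos
  have hpos : 0 < (Real.pi ^ 4 / 90 + Real.pi ^ 4 / 90) * 1 +
      1 * (Real.pi ^ 4 / 90 + Real.pi ^ 4 / 90) -
      1 / 4 * ((Real.pi ^ 2 / 6 + Real.pi ^ 2 / 6) * (Real.pi ^ 2 / 6 + Real.pi ^ 2 / 6)) := by
    have e : (Real.pi ^ 4 / 90 + Real.pi ^ 4 / 90) * 1 +
        1 * (Real.pi ^ 4 / 90 + Real.pi ^ 4 / 90) -
        1 / 4 * ((Real.pi ^ 2 / 6 + Real.pi ^ 2 / 6) * (Real.pi ^ 2 / 6 + Real.pi ^ 2 / 6)) =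
        Real.pi ^ 4 / 60 := by ring
    rw [e]
    positivity
  linarith

end Pool.Agent.QP
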