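import Pool.Agent.QP.StE

/-!
# Quarter periods, block E: [EPOS6], `G₆ > 0` for the lattice `ℤ[ρ]` (helper73)
-/

set_option autoImplicit false

open Complex

namespace Pool.Agent.QP

/-- `max (1, |m|) ^ (-3)` -/
private noncomputable def EPOS6_g (m : ℤ) : ℝ := ((max 1 |(m : ℝ)|) ^ 3)⁻¹

private theorem EPOS6_g_nonneg (m : ℤ) : 0 ≤ EPOS6_g m := by
  unfold EPOS6_g
  positivity

private theorem EPOS6_partial (n : ℕ) :
    ∑ i ∈ Finset.range (n + 1), ((((i : ℝ) + 1) ^ 3)⁻¹) ≤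
      5 / 4 - 1 / (2 * ((n : ℝ) + 1) * ((n : ℝ) + 2)) := by
  induction n with
  | zero => norm_num
  | succ n ih =>
    rw [Finset.sum_range_succ]
    have hn : (0 : ℝ) ≤ n := Nat.cast_nonneg n
    have key : ((((n + 1 : ℕ) : ℝ) + 1) ^ 3)⁻¹ ≤
        1 / (2 * ((n : ℝ) + 1) * ((n : ℝ) + 2)) -
          1 / (2 * (((n + 1 : ℕ) : ℝ) + 1) * (((n + 1 : ℕ) : ℝ) + 2)) := by
      push_cast
      have h1 : (0 : ℝ) < n + 1 := by linarith
      have h2 : (0 : ℝ) < n + 2 := by linarith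
      have h3 : (0 : ℝ) < n + 3 := by linarith
      have e : 1 / (2 * ((n : ℝ) + 1) * ((n : ℝ) + 2)) -
          1 / (2 * ((n : ℝ) + 1 + 1) * ((n : ℝ) + 1 + 2)) =
          1 / (((n : ℝ) + 1) * (n + 2) * (n + 3)) := by
        have e1 : (n : ℝ) + 1 + 1 = n + 2 := by ring
        have e2 : (n : ℝ) + 1 + 2 = n + 3 := by ring
        rw [e1, e2]
        field_simp
        ring
      rw [e, ← one_div]
      have e1 : (n : ℝ) + 1 + 1 = n + 2 := by ring
      rw [e1]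
      apply one_div_le_one_div_of_le (by positivity)
      nlinarith [mul_pos h1 h3]
    linarith

private theorem EPOS6_h : Summable (fun i : ℕ => ((((i : ℝ) + 1) ^ 3)⁻¹)) ∧
    ∑' i : ℕ, ((((i : ℝ) + 1) ^ 3)⁻¹) ≤ 5 / 4 := by
  have h0 : ∀ n : ℕ, 0 ≤ ((((n : ℝ) + 1) ^ 3)⁻¹) := fun n => by positivity
  have h1 : ∀ n : ℕ, ∑ i ∈ Finset.range n, ((((i : ℝ) + 1) ^ 3)⁻¹) ≤ 5 / 4 := by
    intro n
    rcases n with _ | n
    · norm_num
    · have h2 := EPOS6_partial n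
      have h3 : 0 ≤ 1 / (2 * ((n : ℝ) + 1) * ((n : ℝ) + 2)) := by positivity
      linarith
  exact ⟨summable_of_sum_range_le h0 h1, Real.tsum_le_of_sum_range_le h0 h1⟩

private theorem EPOS6_gp (n : ℕ) : EPOS6_g ((n : ℤ) + 1) = ((((n : ℝ) + 1) ^ 3)⁻¹) := by
  unfold EPOS6_g
  push_cast
  have hn : (0 : ℝ) ≤ n := Nat.cast_nonneg n
  rw [abs_of_nonneg (by linarith), max_eq_right (by linarith)]

private theorem EPOS6_gm (n : ℕ) : EPOS6_g (-((n : ℤ) + 1)) = ((((n : ℝ) + 1) ^ 3)⁻¹) := by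
  unfold EPOS6_g
  push_cast
  have hn : (0 : ℝ) ≤ n := Nat.cast_nonneg n
  rw [abs_neg, abs_of_nonneg (by linarith), max_eq_right (by linarith)]

private theorem EPOS6_gsum : Summable EPOS6_g ∧ ∑' m, EPOS6_g m ≤ 7 / 2 := by
  obtain ⟨h1, h2⟩ := EPOS6_h
  have e1 : (fun n : ℕ => EPOS6_g ((n : ℤ) + 1)) = fun n : ℕ => ((((n : ℝ) + 1) ^ 3)⁻¹) :=
    funext EPOS6_gp
  have e2 : (fun n : ℕ => EPOS6_g (-((n : ℤ) + 1))) = fun n : ℕ => ((((n : ℝ) + 1) ^ 3)⁻¹) :=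
    funext EPOS6_gm
  have s1 : Summable fun n : ℕ => EPOS6_g ((n : ℤ) + 1) := by
    rw [e1]
    exact h1
  have s2 : Summable fun n : ℕ => EPOS6_g (-((n : ℤ) + 1)) := by
    rw [e2]
    exact h1
  refine ⟨Summable.of_add_one_of_neg_add_one s1 s2, ?_⟩
  rw [tsum_of_add_one_of_neg_add_one s1 s2, e1, e2]
  have h3 : EPOS6_g 0 = 1 := by
    unfold EPOS6_g
    simp
  rw [h3]
  linarith

private theorem EPOS6_three {A : Type} [AddCommGroup A] (u : ℤ → A) :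
    ∑ k ∈ ({-1, 0, 1} : Finset ℤ), u k = u (-1) + (u 0 + u 1) := by
  rw [Finset.sum_insert (by decide), Finset.sum_insert (by decide), Finset.sum_singleton]

/-- the lower bound for the norm -/
private theorem EPOS6_norm (m n : ℤ) (h : (m, n) ≠ (0, 0)) :
    max 1 |(m : ℝ)| * max 1 |(n : ℝ)| ≤ (m : ℝ) ^ 2 - m * n + (n : ℝ) ^ 2 := by
  by_cases hm : m = 0
  · have hn : n ≠ 0 := by
      rintro rfl
      exact h (by rw [hm])
    have h1 : (1 : ℝ) ≤ |(n : ℝ)| := by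
      have := Int.one_le_abs hn
      have h2 : ((1 : ℤ) : ℝ) ≤ ((|n| : ℤ) : ℝ) := by exact_mod_cast this
      rw [Int.cast_abs] at h2
      simpa using h2
    rw [hm, max_eq_right h1]
    simp only [Int.cast_zero, abs_zero, zero_mul, sub_zero]
    rw [max_eq_left (by norm_num), one_mul]
    nlinarith [sq_abs (n : ℝ)]
  · have h1 : (1 : ℝ) ≤ |(m : ℝ)| := by
      have := Int.one_le_abs hm
      have h2 : ((1 : ℤ) : ℝ) ≤ ((|m| : ℤ) : ℝ) := by exact_mod_cast this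
      rw [Int.cast_abs] at h2
      simpa using h2
    rw [max_eq_right h1]
    by_cases hn : n = 0
    · rw [hn]
      simp only [Int.cast_zero, abs_zero, mul_zero, sub_zero]
      rw [max_eq_left (by norm_num), mul_one]
      nlinarith [sq_abs (m : ℝ)]
    · have h2 : (1 : ℝ) ≤ |(n : ℝ)| := by
        have := Int.one_le_abs hn
        have h2 : ((1 : ℤ) : ℝ) ≤ ((|n| : ℤ) : ℝ) := by exact_mod_cast this
        rw [Int.cast_abs] at h2
        simpa using h2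
      rw [max_eq_right h2, ← sq_abs (m : ℝ), ← sq_abs (n : ℝ)]
      have h3 : (m : ℝ) * n ≤ |(m : ℝ)| * |(n : ℝ)| := by
        rw [← abs_mul]
        exact le_abs_self _
      nlinarith [sq_nonneg (|(m : ℝ)| - |(n : ℝ)|)]

/-- [EPOS6] -/
theorem thm_EPOS6 (hS : St_ESYM) : St_EPOS6 := by
  intro tau h ht
  -- `tau`
  have him := h.him
  have hre : tau.re = -1 / 2 := by
    have h1 := congrArg Complex.im ht
    simp only [pow_two, mul_im, sub_im, neg_im, one_im, sub_zero] at h1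
    have h2 : tau.im * (2 * tau.re + 1) = 0 := by linarith
    rcases mul_eq_zero.1 h2 with h3 | h3
    · exact absurd h3 him.ne'
    · linarith
  have him2 : tau.im ^ 2 = 3 / 4 := by
    have h1 := congrArg Complex.re ht
    simp only [pow_two, mul_re, sub_re, neg_re, one_re] at h1
    rw [hre] at h1
    nlinarith
  -- the norm
  have hns : ∀ m n : ℤ, ‖((m : ℂ) + n * tau)‖ ^ 2 = (m : ℝ) ^ 2 - m * n + (n : ℝ) ^ 2 := by
    intro m n
    rw [Complex.sq_norm, Complex.normSq_apply]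
    have e1 : ((m : ℂ) + n * tau).re = m + n * tau.re := by simp
    have e2 : ((m : ℂ) + n * tau).im = n * tau.im := by simp
    rw [e1, e2, hre]
    have e3 : (n : ℝ) * tau.im * (n * tau.im) = (n : ℝ) ^ 2 * tau.im ^ 2 := by ring
    rw [e3, him2]
    ring
  -- the terms
  set f : ℤ × ℤ → ℂ := fun x => (((x.1 : ℂ) + x.2 * tau) ^ 6)⁻¹ with hf
  have hbd : ∀ x : ℤ × ℤ, ‖f x‖ ≤ EPOS6_g x.1 * EPOS6_g x.2 := by
    rintro ⟨m, n⟩
    by_cases h0 : (m, n) = ((0, 0) : ℤ × ℤ)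
    · rw [h0]
      have e : f (0, 0) = 0 := by simp [hf]
      rw [e, norm_zero]
      exact mul_nonneg (EPOS6_g_nonneg _) (EPOS6_g_nonneg _)
    · have h1 := EPOS6_norm m n h0
      have e1 : ‖f (m, n)‖ = ((‖((m : ℂ) + n * tau)‖ ^ 2) ^ 3)⁻¹ := by
        rw [hf]
        simp only [norm_inv, norm_pow]
        congr 1
        ring
      rw [e1, hns]
      unfold EPOS6_g
      rw [← mul_inv, ← mul_pow]
      have h2 : (0 : ℝ) < max 1 |(m : ℝ)| * max 1 |(n : ℝ)| := by positivity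
      exact inv_anti₀ (pow_pos h2 3) (pow_le_pow_left₀ h2.le h1 3)
  obtain ⟨hgs, hg⟩ := EPOS6_gsum
  have hgg : Summable fun x : ℤ × ℤ => EPOS6_g x.1 * EPOS6_g x.2 :=
    hgs.mul_of_nonneg hgs (fun m => EPOS6_g_nonneg m) fun m => EPOS6_g_nonneg m
  have hggs : ∑' x : ℤ × ℤ, EPOS6_g x.1 * EPOS6_g x.2 ≤ 49 / 4 := by
    rw [← hgs.tsum_mul_tsum hgs hgg]
    have h0 : 0 ≤ ∑' m, EPOS6_g m := tsum_nonneg EPOS6_g_nonneg
    nlinarith
  have hfs : Summable f := Summable.of_norm_bounded hgg hbd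
  -- `G 6`
  have hG : (pair 1 tau h).G 6 = ∑' x, f x := by
    unfold PeriodPair.G
    rw [← (pair 1 tau h).latticeEquivProd.symm.toEquiv.tsum_eq]
    refine tsum_congr fun x => ?_
    have h1 := (pair 1 tau h).latticeEquiv_symm_apply x
    have h2 : ((((pair 1 tau h).latticeEquivProd.symm.toEquiv x) :
        (pair 1 tau h).lattice) : ℂ) = (x.1 : ℂ) + x.2 * tau := by
      refine h1.trans ?_
      simp [pair]
    rw [h2]
  -- the nine central terms
  let F : Finset (ℤ × ℤ) := ({-1, 0, 1} : Finset ℤ) ×ˢ ({-1, 0, 1} : Finset ℤ)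
  have hFs : ∑ x ∈ F, f x = ((160 / 27 : ℝ) : ℂ) := by
    have ht2 : tau ^ 2 = -tau - 1 := ht
    have ht3 : tau ^ 3 = 1 := by
      have : tau ^ 3 = tau * tau ^ 2 := by ring
      rw [this, ht2]
      have : tau * (-tau - 1) = -(tau ^ 2) - tau := by ring
      rw [this, ht2]
      ring
    have a1 : ((-1 : ℂ) + -1 * tau) ^ 6 = 1 := by
      have : (-1 : ℂ) + -1 * tau = tau ^ 2 := by rw [ht2]; ring
      rw [this]
      have : (tau ^ 2) ^ 6 = (tau ^ 3) ^ 4 := by ring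
      rw [this, ht3, one_pow]
    have a2 : ((1 : ℂ) + 1 * tau) ^ 6 = 1 := by
      have : (1 : ℂ) + 1 * tau = -(-1 + -1 * tau) := by ring
      rw [this]
      have : (-(-1 + -1 * tau)) ^ 6 = (-1 + -1 * tau) ^ 6 := by ring
      rw [this, a1]
    have a3 : ((-1 : ℂ) + 1 * tau) ^ 6 = -27 := by
      have e1 : ((-1 : ℂ) + 1 * tau) ^ 2 = -3 * tau := by
        have : ((-1 : ℂ) + 1 * tau) ^ 2 = tau ^ 2 - 2 * tau + 1 := by ring
        rw [this, ht2]
        ring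
      have : ((-1 : ℂ) + 1 * tau) ^ 6 = (((-1 : ℂ) + 1 * tau) ^ 2) ^ 3 := by ring
      rw [this, e1]
      have : (-3 * tau) ^ 3 = -27 * tau ^ 3 := by ring
      rw [this, ht3, mul_one]
    have a4 : ((1 : ℂ) + -1 * tau) ^ 6 = -27 := by
      have : ((1 : ℂ) + -1 * tau) ^ 6 = ((-1 : ℂ) + 1 * tau) ^ 6 := by ring
      rw [this, a3]
    have a5 : ((0 : ℂ) + 1 * tau) ^ 6 = 1 := by
      have : ((0 : ℂ) + 1 * tau) ^ 6 = (tau ^ 3) ^ 2 := by ring
      rw [this, ht3, one_pow]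
    have a6 : ((0 : ℂ) + -1 * tau) ^ 6 = 1 := by
      have : ((0 : ℂ) + -1 * tau) ^ 6 = (tau ^ 3) ^ 2 := by ring
      rw [this, ht3, one_pow]
    have a7 : ((-1 : ℂ) + 0 * tau) ^ 6 = 1 := by ring
    have a8 : ((1 : ℂ) + 0 * tau) ^ 6 = 1 := by ring
    have a9 : ((0 : ℂ) + 0 * tau) ^ 6 = 0 := by ring
    show ∑ x ∈ ({-1, 0, 1} : Finset ℤ) ×ˢ ({-1, 0, 1} : Finset ℤ), f x = _
    rw [Finset.sum_product]
    simp only [EPOS6_three]
    simp only [hf, Int.cast_neg, Int.cast_one, Int.cast_zero, a1, a2, a3, a4, a5, a6, a7, a8, a9]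
    norm_num
  have hFg : ∑ x ∈ F, EPOS6_g x.1 * EPOS6_g x.2 = 9 := by
    have g0 : EPOS6_g 0 = 1 := by
      unfold EPOS6_g
      simp
    have g1 : EPOS6_g 1 = 1 := by
      unfold EPOS6_g
      simp
    have g2 : EPOS6_g (-1) = 1 := by
      unfold EPOS6_g
      simp
    show ∑ x ∈ ({-1, 0, 1} : Finset ℤ) ×ˢ ({-1, 0, 1} : Finset ℤ), EPOS6_g x.1 * EPOS6_g x.2 = _
    rw [Finset.sum_product]
    simp only [EPOS6_three]
    simp only [g0, g1, g2]
    norm_num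
  -- the rest
  have h1 := hfs.sum_add_tsum_subtype_compl F
  have h2 := hgg.sum_add_tsum_subtype_compl F
  rw [hFg] at h2
  rw [hFs] at h1
  have h3 : ‖∑' x : {x // x ∉ F}, f x‖ ≤ 13 / 4 := by
    refine (tsum_of_norm_bounded (hgg.subtype _).hasSum fun x => hbd x.1).trans ?_
    have h4 : ∑' x : {x // x ∉ F}, EPOS6_g x.1.1 * EPOS6_g x.1.2 =
        ∑' x : ℤ × ℤ, EPOS6_g x.1 * EPOS6_g x.2 - 9 := by linarith
    refine le_trans (le_of_eq h4) ?_
    linarith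
  have h5 : (starRingEnd ℂ) ((pair 1 tau h).G 6) = (pair 1 tau h).G 6 := (hS.2 1 tau h).2.2.2.2.2.2 6
  refine ⟨((pair 1 tau h).G 6).re, ?_, ?_⟩
  · rw [hG, ← h1, add_re, ofReal_re]
    have h6 := (Complex.abs_re_le_norm (∑' x : {x // x ∉ F}, f x)).trans h3
    have h7 := (abs_le.1 h6).1
    linarith
  · exact (Complex.conj_eq_iff_re.1 h5).symm

end Pool.Agent.QP
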