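import Pool.Agent.QP.StE

/-!
# Quarter periods: [EPRA], `℘` on the interval `(0, v / 2)`

`p x = (℘ x).re`, `q x = (℘' x).re`. `p → ∞` at `0+`, `p` never takes a value in `(0, 1)`, so
`p ≥ 1` on `(0, v)` (intermediate values); so `q' = 6 p ^ 2 - c₂ / 2 > 0` on `(0, v)`, `q` is strictly
increasing and `q (v / 2) = 0`.
-/

set_option autoImplicit false

open Complex Filter Topology

namespace Pool.Agent.QP

/-- `p ≥ 1`: intermediate values -/
private lemma EPRA_ge (p q : ℝ → ℝ) (v c₂ c₃ : ℝ) (hc : (c₂ = 4 ∧ c₃ = 0) ∨ (c₂ = 0 ∧ c₃ = 4))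
    (hp : ∀ x ∈ Set.Ioo 0 v, HasDerivAt p (q x) x ∧ q x ^ 2 = 4 * p x ^ 3 - c₂ * p x - c₃)
    (hlim : Tendsto p (𝓝[>] 0) atTop) (x : ℝ) (hx : x ∈ Set.Ioo 0 v) : 1 ≤ p x := by
  by_contra hlt
  rw [not_le] at hlt
  have h1 : ∀ᶠ t in 𝓝[>] (0 : ℝ), 1 < p t := hlim.eventually (eventually_gt_atTop 1)
  have h2 : ∀ᶠ t in 𝓝[>] (0 : ℝ), t < x := by
    have : Set.Iio x ∈ 𝓝 (0 : ℝ) := Iio_mem_nhds hx.1
    exact mem_nhdsWithin_of_mem_nhds this
  have h3 : ∀ᶠ t in 𝓝[>] (0 : ℝ), 0 < t := self_mem_nhdsWithin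
  obtain ⟨t, ht1, ht2, ht3⟩ := (h1.and (h2.and h3)).exists
  -- a value between max (p x) 0 and 1
  obtain ⟨y, hy1, hy2⟩ := exists_between (max_lt hlt one_pos)
  have hy0 : 0 < y := lt_of_le_of_lt (le_max_right _ _) hy1
  have hyx : p x < y := lt_of_le_of_lt (le_max_left _ _) hy1
  have hcont : ContinuousOn p (Set.Icc t x) := by
    intro s hs
    exact (hp s ⟨lt_of_lt_of_le ht3 hs.1, lt_of_le_of_lt hs.2 hx.2⟩).1.continuousAt.continuousWithinAt
  have hmem : y ∈ Set.Icc (p x) (p t) := ⟨hyx.le, (hy2.trans ht1).le⟩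
  obtain ⟨s, hs, hsy⟩ := intermediate_value_Icc' ht2.le hcont hmem
  have h4 := (hp s ⟨lt_of_lt_of_le ht3 hs.1, lt_of_le_of_lt hs.2 hx.2⟩).2
  rw [hsy] at h4
  have h5 : 0 ≤ 4 * y ^ 3 - c₂ * y - c₃ := by
    rw [← h4]
    exact sq_nonneg _
  have hy3 : y ^ 2 < 1 := by nlinarith
  have hy4 : y ^ 3 < y := by
    have : y ^ 3 = y * y ^ 2 := by ring
    rw [this]
    nlinarith
  rcases hc with ⟨rfl, rfl⟩ | ⟨rfl, rfl⟩ <;> linarith

theorem thm_EPRA (h1 : St_ELAT) (h2 : St_ESYM) (h3 : St_EODE) : St_EPRA := by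
  intro v tau h c₂ c₃ hg2 hg3 hc
  obtain ⟨-, -, -, -, -, hreal, -, -, -⟩ := h1 v tau h
  obtain ⟨-, -, -, hPc, hPdc, -, -⟩ := h2.2 v tau h
  have hv := h.hv
  set L := pair v tau h with hL
  have hPre : ∀ x : ℝ, L.weierstrassP x = ((L.weierstrassP x).re : ℝ) := by
    intro x
    have := hPc x
    rw [conj_ofReal] at this
    exact (conj_eq_iff_re.1 this.symm).symm
  have hPdre : ∀ x : ℝ, L.derivWeierstrassP x = ((L.derivWeierstrassP x).re : ℝ) := by
    intro x
    have := hPdc x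
    rw [conj_ofReal] at this
    exact (conj_eq_iff_re.1 this.symm).symm
  have hnot : ∀ x ∈ Set.Ioo 0 v, (x : ℂ) ∉ L.lattice := by
    intro x hx hmem
    obtain ⟨a, ha⟩ := (hreal x).1 hmem
    have h4 : (0 : ℝ) < a := by
      have := hx.1
      rw [ha] at this
      exact (mul_pos_iff_of_pos_left hv).1 this
    have h5 : (a : ℝ) < 1 := by
      have := hx.2
      rw [ha] at this
      nlinarith
    have h6 : (0 : ℤ) < a := by exact_mod_cast h4
    have h7 : a < (1 : ℤ) := by exact_mod_cast h5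
    omega
  have hdP : ∀ x ∈ Set.Ioo 0 v, HasDerivAt (fun t : ℝ => (L.weierstrassP t).re)
      ((L.derivWeierstrassP x).re) x := by
    intro x hx
    have hd : HasDerivAt L.weierstrassP (L.derivWeierstrassP x) (x : ℂ) := by
      have h8 : DifferentiableAt ℂ L.weierstrassP (x : ℂ) :=
        L.differentiableOn_weierstrassP.differentiableAt
          (L.isClosed_lattice.isOpen_compl.mem_nhds (hnot x hx))
      have h9 := h8.hasDerivAt
      rwa [L.deriv_weierstrassP] at h9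
    exact hd.real_of_complex
  have hsq : ∀ x ∈ Set.Ioo 0 v, (L.derivWeierstrassP x).re ^ 2 =
      4 * (L.weierstrassP x).re ^ 3 - c₂ * (L.weierstrassP x).re - c₃ := by
    intro x hx
    have h8 := L.derivWeierstrassP_sq (x : ℂ) (hnot x hx)
    rw [hg2, hg3, hPre x, hPdre x] at h8
    exact_mod_cast h8
  have hdPd : ∀ x ∈ Set.Ioo 0 v, HasDerivAt (fun t : ℝ => (L.derivWeierstrassP t).re)
      (6 * (L.weierstrassP x).re ^ 2 - c₂ / 2) x := by
    intro x hx
    have h8 := (h3 L x (hnot x hx)).real_of_complex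
    rw [hg2, hPre x] at h8
    have h9 : (6 * (((L.weierstrassP x).re : ℝ) : ℂ) ^ 2 - (c₂ : ℂ) / 2).re =
        6 * (L.weierstrassP x).re ^ 2 - c₂ / 2 := by
      have : (6 * (((L.weierstrassP x).re : ℝ) : ℂ) ^ 2 - (c₂ : ℂ) / 2) =
          ((6 * (L.weierstrassP x).re ^ 2 - c₂ / 2 : ℝ) : ℂ) := by push_cast; ring
      rw [this, ofReal_re]
    rw [h9] at h8
    exact h8
  have hlim : Tendsto (fun t : ℝ => (L.weierstrassP t).re) (𝓝[>] 0) atTop := by
    have h10 : ∀ z : ℂ, L.weierstrassP z = L.weierstrassPExcept 0 z + 1 / z ^ 2 := by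
      intro z
      have := L.weierstrassPExcept_add 0 z
      rw [← this]
      simp
    have h11 : ContinuousAt (L.weierstrassPExcept 0) 0 :=
      (L.differentiableOn_weierstrassPExcept 0).differentiableAt
        (L.compl_lattice_sdiff_singleton_mem_nhds 0) |>.continuousAt
    have h12 : Tendsto (fun t : ℝ => (L.weierstrassPExcept 0 t).re) (𝓝[>] 0)
        (𝓝 (L.weierstrassPExcept 0 0).re) := by
      have h13 : ContinuousAt (fun t : ℝ => (L.weierstrassPExcept 0 t).re) 0 := by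
        have h14 : ContinuousAt (fun t : ℝ => L.weierstrassPExcept 0 (t : ℂ)) 0 := by
          have h15 : ContinuousAt (L.weierstrassPExcept 0) (((0 : ℝ) : ℂ)) := by
            rw [ofReal_zero]; exact h11
          exact ContinuousAt.comp (f := fun t : ℝ => (t : ℂ)) h15
            continuous_ofReal.continuousAt
        exact continuous_re.continuousAt.comp h14
      have h16 : Tendsto (fun t : ℝ => (L.weierstrassPExcept 0 t).re) (𝓝 0)
          (𝓝 (L.weierstrassPExcept 0 ((0 : ℝ) : ℂ)).re) := h13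
      rw [ofReal_zero] at h16
      exact h16.mono_left nhdsWithin_le_nhds
    have h17 : Tendsto (fun t : ℝ => 1 / t ^ 2) (𝓝[>] 0) atTop := by
      have h18 : Tendsto (fun t : ℝ => (t⁻¹) ^ 2) (𝓝[>] 0) atTop :=
        (tendsto_pow_atTop two_ne_zero).comp tendsto_inv_nhdsGT_zero
      refine h18.congr fun t => ?_
      rw [one_div, inv_pow]
    have h19 : Tendsto (fun t : ℝ => (L.weierstrassPExcept 0 t).re + 1 / t ^ 2) (𝓝[>] 0) atTop :=
      h12.add_atTop h17
    refine h19.congr fun t => ?_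
    rw [h10 t, add_re]
    congr 1
    have : (1 / (t : ℂ) ^ 2) = ((1 / t ^ 2 : ℝ) : ℂ) := by push_cast; ring
    rw [this, ofReal_re]
  have hge := EPRA_ge (fun t : ℝ => (L.weierstrassP t).re) (fun t : ℝ => (L.derivWeierstrassP t).re)
    v c₂ c₃ hc (fun x hx => ⟨hdP x hx, hsq x hx⟩) hlim
  have hhalf : v / 2 ∈ Set.Ioo 0 v := ⟨by linarith, by linarith⟩
  have hq0 : (L.derivWeierstrassP ((v / 2 : ℝ) : ℂ)).re = 0 := by
    have hvm : (v : ℂ) ∈ L.lattice := (hreal v).2 ⟨1, by simp⟩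
    have h20 := L.derivWeierstrassP_add_coe (((-(v / 2) : ℝ)) : ℂ) ⟨v, hvm⟩
    have h21 : (((-(v / 2) : ℝ)) : ℂ) + ((⟨v, hvm⟩ : L.lattice) : ℂ) = ((v / 2 : ℝ) : ℂ) := by
      push_cast; ring
    rw [h21] at h20
    have h22 : (((-(v / 2) : ℝ)) : ℂ) = -((v / 2 : ℝ) : ℂ) := by push_cast; ring
    rw [h22, L.derivWeierstrassP_neg] at h20
    have h23 := congrArg Complex.re h20
    rw [neg_re] at h23
    linarith
  have hmono : StrictMonoOn (fun t : ℝ => (L.derivWeierstrassP t).re) (Set.Ioo 0 v) := by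
    refine strictMonoOn_of_deriv_pos (convex_Ioo 0 v)
      (fun x hx => (hdPd x hx).continuousAt.continuousWithinAt) ?_
    intro x hx
    rw [interior_Ioo] at hx
    rw [(hdPd x hx).deriv]
    have h24 : 1 ≤ (L.weierstrassP x).re := hge x hx
    rcases hc with ⟨rfl, rfl⟩ | ⟨rfl, rfl⟩ <;> nlinarith
  refine ⟨fun t => (L.weierstrassP t).re, fun t => (L.derivWeierstrassP t).re,
    fun x => ⟨hPre x, hPdre x⟩, fun x hx => ⟨hdP x hx, hsq x hx⟩, ?_, hlim, ?_, hq0⟩
  · intro x hx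
    have := hmono ⟨hx.1, by linarith [hx.2]⟩ hhalf hx.2
    simp only at this
    rw [hq0] at this
    exact this
  · have h25 := hsq (v / 2) hhalf
    rw [hq0] at h25
    have h26 : 1 ≤ (L.weierstrassP ((v / 2 : ℝ) : ℂ)).re := hge (v / 2) hhalf
    show (L.weierstrassP ((v / 2 : ℝ) : ℂ)).re = 1
    generalize (L.weierstrassP ((v / 2 : ℝ) : ℂ)).re = y at h25 h26
    rcases hc with ⟨rfl, rfl⟩ | ⟨rfl, rfl⟩
    · have h27 : y * (y - 1) * (y + 1) = 0 := by linear_combination (-1 / 4) * h25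
      have h28 : y * (y + 1) ≠ 0 := by positivity
      have h29 : (y - 1) * (y * (y + 1)) = 0 := by linear_combination h27
      rcases mul_eq_zero.1 h29 with h30 | h30
      · linarith
      · exact absurd h30 h28
    · have h27 : (y - 1) * (y ^ 2 + y + 1) = 0 := by linear_combination (-1 / 4) * h25
      have h28 : y ^ 2 + y + 1 ≠ 0 := by positivity
      rcases mul_eq_zero.1 h27 with h30 | h30
      · linarith
      · exact absurd h30 h28

end Pool.Agent.QP
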