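import Pool.Agent.QP.StE

/-!
# Quarter periods, block E: the real period as an integral
-/

set_option autoImplicit false

open Filter Topology MeasureTheory

namespace Pool.Agent.QP

/-- [EPRB] -/
theorem thm_EPRB : St_EPRB := by
  intro w c₂ c₃ p q hw hd hcw hq htop hpw
  have hcont : ContinuousOn p (Set.Ioc 0 w) := by
    intro x hx
    rcases lt_or_eq_of_le hx.2 with h | h
    · exact ((hd x ⟨hx.1, h⟩).1.continuousAt).continuousWithinAt
    · rw [h]
      exact hcw.continuousWithinAt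
  have hanti : StrictAntiOn p (Set.Ioc 0 w) := by
    apply strictAntiOn_of_deriv_neg (convex_Ioc 0 w) hcont
    intro x hx
    rw [interior_Ioc] at hx
    rw [(hd x hx).1.deriv]
    exact hq x hx
  have himg : p '' (Set.Ioo 0 w) = Set.Ioi 1 := by
    apply Set.Subset.antisymm
    · rintro _ ⟨x, hx, rfl⟩
      have h := hanti ⟨hx.1, hx.2.le⟩ ⟨hw, le_rfl⟩ hx.2
      rw [hpw] at h
      exact h
    · intro y hy
      have hy' : 1 < y := hy
      have h1 : ∀ᶠ x in 𝓝[>] (0 : ℝ), y < p x := htop.eventually_gt_atTop y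
      have h2 : ∀ᶠ x in 𝓝[>] (0 : ℝ), x ∈ Set.Ioo 0 w := Ioo_mem_nhdsGT hw
      obtain ⟨x₀, hx₀, hx₀'⟩ := (h1.and h2).exists
      have h3 : ContinuousOn p (Set.Icc x₀ w) :=
        hcont.mono fun z hz => ⟨lt_of_lt_of_le hx₀'.1 hz.1, hz.2⟩
      have h4 : y ∈ Set.Icc (p w) (p x₀) := ⟨by rw [hpw]; exact hy'.le, hx₀.le⟩
      obtain ⟨x, hx, hxy⟩ := intermediate_value_Icc' hx₀'.2.le h3 h4
      refine ⟨x, ⟨lt_of_lt_of_le hx₀'.1 hx.1, lt_of_le_of_ne hx.2 ?_⟩, hxy⟩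
      intro h
      rw [h, hpw] at hxy
      exact hy'.ne hxy
  have hinj : Set.InjOn p (Set.Ioo 0 w) :=
    hanti.injOn.mono Set.Ioo_subset_Ioc_self
  have hder : ∀ x ∈ Set.Ioo 0 w, HasDerivWithinAt p (q x) (Set.Ioo 0 w) x :=
    fun x hx => (hd x hx).1.hasDerivWithinAt
  rw [← himg, integral_image_eq_integral_abs_deriv_smul measurableSet_Ioo hder hinj]
  have h5 : ∀ x ∈ Set.Ioo 0 w,
      |q x| • (1 / Real.sqrt (4 * p x ^ 3 - c₂ * p x - c₃)) = (1 : ℝ) := by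
    intro x hx
    rw [← (hd x hx).2, Real.sqrt_sq_eq_abs, smul_eq_mul]
    exact mul_one_div_cancel (abs_pos.2 (hq x hx).ne).ne'
  rw [setIntegral_congr_fun measurableSet_Ioo h5]
  simp [hw.le]

end Pool.Agent.QP
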