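import Pool.Agent.QP.StE

/-!
# Quarter periods, module EQPD: the quasi-periods
-/

set_option autoImplicit false

open Complex Filter Topology

namespace Pool.Agent.QP

private theorem EQPD_const (hE : St_ECON) (hZ : St_EZET) (L : PeriodPair) (l : L.lattice)
    (z w : ℂ) (hz : z ∉ L.lattice) (hw : w ∉ L.lattice) :
    zet L (z + l) - zet L z = zet L (w + l) - zet L w := by
  have hconst := (hE L).2.2.2.1
  refine hconst (fun z => zet L (z + l) - zet L z) (fun z hz => ?_) z hz w hw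
  have hzl : z + l ∉ L.lattice := by
    intro h
    apply hz
    have h2 := L.lattice.sub_mem h l.2
    simpa using h2
  have h1 : HasDerivAt (zet L) (-L.weierstrassP z) z := (hZ L).2.2.2.2 z hz
  have h2 : HasDerivAt (zet L) (-L.weierstrassP (z + l)) (z + l) := (hZ L).2.2.2.2 (z + l) hzl
  have h3 : HasDerivAt (fun z => zet L (z + l)) (-L.weierstrassP (z + l)) z :=
    h2.comp_add_const z (l : ℂ)
  have h4 : HasDerivAt (fun z => zet L (z + l) - zet L z)
      (-L.weierstrassP (z + l) - -L.weierstrassP z) z := h3.sub h1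
  rw [L.weierstrassP_add_coe, sub_self] at h4
  exact h4

private theorem EQPD_add_not (L : PeriodPair) (l : L.lattice) (z : ℂ) (hz : z ∉ L.lattice) :
    z + l ∉ L.lattice := by
  intro h
  apply hz
  have h2 := L.lattice.sub_mem h l.2
  simpa using h2

theorem thm_EQPD (hL : St_ELAT) (hE : St_ECON) (hZ : St_EZET) (hS : St_ESYM) : St_EQPD := by
  intro v tau h
  obtain ⟨hS1, hS2⟩ := hS
  obtain ⟨hStau, -, hSconj, -⟩ := hS2 v tau h
  obtain ⟨-, ⟨hn, hinv, -⟩, hmem, htm, -, hreal, -, -, -⟩ := hL v tau h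
  have hv : 0 < v := h.hv
  have hv0 : (v : ℂ) ≠ 0 := by exact_mod_cast hv.ne'
  set L := pair v tau h with hLdef
  have htau0 : tau ≠ 0 := by
    intro h0
    rw [h0, norm_zero] at hn
    exact zero_ne_one hn
  -- the half period
  have hhalf : ((v / 2 : ℝ) : ℂ) ∉ L.lattice := by
    rw [hreal]
    rintro ⟨a, ha⟩
    have h1 : v * (2 * (a : ℝ) - 1) = 0 := by linarith
    rcases mul_eq_zero.1 h1 with h2 | h2
    · exact hv.ne' h2
    · have h3 : (2 * a - 1 : ℤ) = 0 := by exact_mod_cast h2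
      omega
  have hhalf' : (v / 2 : ℂ) ∉ L.lattice := by
    have : ((v / 2 : ℝ) : ℂ) = (v / 2 : ℂ) := by push_cast; ring
    rwa [this] at hhalf
  have hnhalf : (-(v / 2) : ℂ) ∉ L.lattice := by
    intro h1
    exact hhalf' (by simpa using L.lattice.neg_mem h1)
  -- the homomorphism
  let f : L.lattice →+ ℂ := AddMonoidHom.mk'
    (fun l => zet L ((v / 2 : ℂ) + l) - zet L (v / 2 : ℂ)) (by
      intro l l'
      have h1 := EQPD_const hE hZ L l' ((v / 2 : ℂ) + l) (v / 2 : ℂ)
        (EQPD_add_not L l _ hhalf') hhalf'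
      have h2 : ((v / 2 : ℂ) + ((l + l' : L.lattice) : ℂ)) = (v / 2 : ℂ) + l + l' := by
        rw [Submodule.coe_add]; ring
      rw [h2]
      linear_combination h1)
  have hf : ∀ (l : L.lattice) (z : ℂ), z ∉ L.lattice → zet L (z + l) = zet L z + f l := by
    intro l z hz
    have h1 := EQPD_const hE hZ L l z (v / 2 : ℂ) hz hhalf'
    have h2 : f l = zet L ((v / 2 : ℂ) + l) - zet L (v / 2 : ℂ) := rfl
    rw [h2]
    linear_combination h1
  have hvm : (v : ℂ) ∈ L.lattice := (hmem v).2 ⟨1, 0, by push_cast; ring⟩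
  have hvt : (v * tau : ℂ) ∈ L.lattice := (hmem _).2 ⟨0, 1, by push_cast; ring⟩
  let l1 : L.lattice := ⟨v, hvm⟩
  let l2 : L.lattice := ⟨v * tau, hvt⟩
  -- the value at v
  have hf1 : f l1 = 2 * zet L (v / 2 : ℂ) := by
    have h1 := hf l1 (-(v / 2) : ℂ) hnhalf
    have h2 : (-(v / 2) + (l1 : ℂ) : ℂ) = v / 2 := by
      show (-(v / 2) + (v : ℂ) : ℂ) = v / 2
      ring
    rw [h2, hS1 L (v / 2 : ℂ)] at h1
    linear_combination -h1
  have hf2 : f l2 = (starRingEnd ℂ) tau * f l1 := by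
    have h0 : tau * (v / 2 : ℂ) ∉ L.lattice := by
      rw [htm]
      exact hhalf'
    have h1 := hf l2 (tau * (v / 2 : ℂ)) h0
    have h2 : (tau * (v / 2 : ℂ) + (l2 : ℂ)) = tau * ((v / 2 : ℂ) + l1) := by
      show (tau * (v / 2 : ℂ) + (v * tau : ℂ)) = tau * ((v / 2 : ℂ) + v)
      ring
    have h3 := hf l1 (v / 2 : ℂ) hhalf'
    rw [h2, hStau, hStau, h3, hinv] at h1
    linear_combination -h1
  have hre : zet L (v / 2 : ℂ) = ((zet L (v / 2 : ℂ)).re : ℂ) := by
    have h1 := hSconj (v / 2 : ℂ)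
    have h2 : (starRingEnd ℂ) (v / 2 : ℂ) = (v / 2 : ℂ) := by
      have h3 : (v / 2 : ℂ) = ((v / 2 : ℝ) : ℂ) := by push_cast; ring
      rw [h3, Complex.conj_ofReal]
    rw [h2] at h1
    exact (Complex.conj_eq_iff_re.1 h1.symm).symm
  refine ⟨2 * (zet L (v / 2 : ℂ)).re, ?_, ?_⟩
  · intro a b z hz
    have hz' : z ∉ L.lattice := hz
    have h1 := hf (a • l1 + b • l2) z hz'
    have h2 : (((a • l1 + b • l2 : L.lattice)) : ℂ) = v * (a + b * tau) := by
      rw [Submodule.coe_add, Submodule.coe_smul_of_tower, Submodule.coe_smul_of_tower]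
      show a • (v : ℂ) + b • (v * tau : ℂ) = v * (a + b * tau)
      rw [zsmul_eq_mul, zsmul_eq_mul]
      ring
    rw [h2, map_add, map_zsmul, map_zsmul, hf2, hf1, zsmul_eq_mul, zsmul_eq_mul] at h1
    show zet L (z + v * (a + b * tau)) = zet L z + _
    rw [h1, hre]
    push_cast
    simp only [ofReal_re]
    ring
  · show zet L (v / 2 : ℂ) = _
    rw [hre]
    push_cast
    simp only [ofReal_re]
    ring

end Pool.Agent.QP
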