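import Pool.Agent.QP.StE

/-!
# Quarter periods, [ERCT]: the integral of `1 / (z - c)` over the boundary of a rectangle
-/

set_option autoImplicit false

open Complex

namespace Pool.Agent.QP

private theorem ERCT_side (a b : ℝ) (g : ℝ → ℂ) (g' : ℂ) (hg : ∀ t, HasDerivAt g g' t)
    (hs : ∀ t, g t ∈ slitPlane) : ∫ t in a..b, g' / g t = log (g b) - log (g a) := by
  have hc : Continuous g := continuous_iff_continuousAt.mpr fun t => (hg t).continuousAt
  refine intervalIntegral.integral_eq_sub_of_hasDerivAt (f := fun t => log (g t))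
    (fun t _ => (hg t).clog_real (hs t)) ?_
  exact (continuous_const.div hc fun t => slitPlane_ne_zero (hs t)).intervalIntegrable _ _

private theorem ERCT_top (a : ℂ) (h : 0 < a.im) : log a - log (-a) = Real.pi * I := by
  unfold log
  rw [norm_neg, arg_neg_eq_arg_sub_pi_of_im_pos h]
  push_cast
  ring

private theorem ERCT_bot (a : ℂ) (h : a.im < 0) : log (-a) - log a = Real.pi * I := by
  unfold log
  rw [norm_neg, arg_neg_eq_arg_add_pi_of_im_neg h]
  push_cast
  ring

/-- **[ERCT]** -/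
theorem thm_ERCT : St_ERCT := by
  intro x₀ x₁ y₀ y₁ c h1 h2 h3 h4
  have d1 : ∀ (w : ℂ) (t : ℝ), HasDerivAt (fun s : ℝ => (s : ℂ) + w - c) 1 t := by
    intro w t
    exact ((hasDerivAt_id t).ofReal_comp.add_const w).sub_const c
  have d2 : ∀ (w : ℂ) (t : ℝ), HasDerivAt (fun s : ℝ => w + (s : ℂ) * I - c) I t := by
    intro w t
    have e := (((hasDerivAt_id t).ofReal_comp.mul_const I).const_add w).sub_const c
    simpa using e
  have d3 : ∀ (w : ℂ) (t : ℝ), HasDerivAt (fun s : ℝ => -(w + (s : ℂ) * I - c)) (-I) t :=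
    fun w t => (d2 w t).neg
  have e1 : ∀ y : ℝ, y - c.im ≠ 0 → ∫ x in x₀..x₁, 1 / ((x : ℂ) + y * I - c) =
      log (x₁ + y * I - c) - log (x₀ + y * I - c) := by
    intro y hy
    refine ERCT_side x₀ x₁ (fun x => (x : ℂ) + y * I - c) 1 (d1 _) fun t => ?_
    rw [mem_slitPlane_iff]
    right
    simpa using hy
  have e2 : I * ∫ y in y₀..y₁, 1 / ((x₁ : ℂ) + y * I - c) =
      log (x₁ + y₁ * I - c) - log (x₁ + y₀ * I - c) := by
    rw [← intervalIntegral.integral_const_mul]
    have e := ERCT_side y₀ y₁ (fun y => (x₁ : ℂ) + y * I - c) I (d2 _) fun t => by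
      rw [mem_slitPlane_iff]
      left
      simpa using h2
    rw [← e]
    refine intervalIntegral.integral_congr fun y _ => ?_
    show I * (1 / ((x₁ : ℂ) + y * I - c)) = I / ((x₁ : ℂ) + y * I - c)
    ring
  have e3 : I * ∫ y in y₀..y₁, 1 / ((x₀ : ℂ) + y * I - c) =
      log (-(x₀ + y₁ * I - c)) - log (-(x₀ + y₀ * I - c)) := by
    rw [← intervalIntegral.integral_const_mul]
    have e := ERCT_side y₀ y₁ (fun y => -((x₀ : ℂ) + y * I - c)) (-I) (d3 _) fun t => by
      rw [mem_slitPlane_iff]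
      left
      simpa using h1
    rw [← e]
    refine intervalIntegral.integral_congr fun y _ => ?_
    show I * (1 / ((x₀ : ℂ) + y * I - c)) = -I / -((x₀ : ℂ) + y * I - c)
    rw [neg_div_neg_eq]
    ring
  have e4 := ERCT_top (x₀ + y₁ * I - c) (by simpa using h4)
  have e5 := ERCT_bot (x₀ + y₀ * I - c) (by simpa using h3)
  unfold rect
  simp only
  rw [e1 y₀ (by linarith), e1 y₁ (by linarith), e2, e3]
  linear_combination e4 + e5

end Pool.Agent.QP
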