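import Pool.Agent.QP.StE

/-!
# Quarter periods, module ESCA: the normalised lattices
-/

set_option autoImplicit false

open Complex

namespace Pool.Agent.QP

private theorem ESCA_G (L : PeriodPair) (n : ℕ) :
    L.G n = ∑' x : ℤ × ℤ, ((x.1 * L.ω₁ + x.2 * L.ω₂ : ℂ) ^ n)⁻¹ := by
  unfold PeriodPair.G
  rw [← L.latticeEquivProd.symm.toEquiv.tsum_eq]
  refine tsum_congr fun x => ?_
  rw [← L.latticeEquiv_symm_apply x]
  rfl

private theorem ESCA_scale (v : ℝ) (tau : ℂ) (h : AdmL v tau) (h1 : AdmL 1 tau) (n : ℕ) :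
    (pair v tau h).G n = ((v : ℂ) ^ n)⁻¹ * (pair 1 tau h1).G n := by
  rw [ESCA_G, ESCA_G, ← tsum_mul_left]
  refine tsum_congr fun x => ?_
  rw [← mul_inv, ← mul_pow]
  congr 2
  change (x.1 * (v : ℂ) + x.2 * ((v : ℂ) * tau) : ℂ) =
    (v : ℂ) * (x.1 * ((1 : ℝ) : ℂ) + x.2 * (((1 : ℝ) : ℂ) * tau))
  rw [Complex.ofReal_one]
  ring

private theorem ESCA_root (r : ℝ) (hr : 0 < r) (n : ℕ) (hn : n ≠ 0) : ∃ v : ℝ, 0 < v ∧ v ^ n = r :=
  ⟨r ^ ((n : ℝ)⁻¹), Real.rpow_pos_of_pos hr _, Real.rpow_inv_natCast_pow hr.le hn⟩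

theorem thm_ESCA (h4 : St_EPOS4) (h6 : St_EPOS6) (hS : St_ESYM) : St_ESCA := by
  refine ⟨?_, ?_⟩
  · have hI : (I : ℂ) ^ 2 = -1 := I_sq
    have h1 : AdmL 1 I := ⟨one_pos, by rw [I_im]; exact one_pos, Or.inl hI⟩
    obtain ⟨r, hr, hG⟩ := h4 I h1 hI
    obtain ⟨v, hv, hvr⟩ := ESCA_root (15 * r) (by positivity) 4 (by norm_num)
    have hv1 : AdmL v I := ⟨hv, by rw [I_im]; exact one_pos, Or.inl hI⟩
    have hrC : (r : ℂ) ≠ 0 := ofReal_ne_zero.mpr hr.ne'
    refine ⟨v, I, hv1, hI, ?_, ?_⟩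
    · unfold PeriodPair.g₂
      rw [ESCA_scale v I hv1 h1, hG, ← ofReal_pow, hvr]
      push_cast
      field_simp
      norm_num
    · unfold PeriodPair.g₃
      have hs := (hS.2 v I hv1).2.2.2.2.2.1 6
      have h66 : (I : ℂ) ^ 6 = -1 := by
        calc (I : ℂ) ^ 6 = (I ^ 2) ^ 3 := by ring
          _ = -1 := by rw [hI]; norm_num
      rw [h66] at hs
      have h0 : (pair v I hv1).G 6 = 0 := by linear_combination (-1 / 2 : ℂ) * hs
      rw [h0, mul_zero]
  · obtain ⟨tau, him, ht⟩ : ∃ tau : ℂ, 0 < tau.im ∧ tau ^ 2 = -tau - 1 := by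
      have h3 : Real.sqrt 3 * Real.sqrt 3 = 3 := Real.mul_self_sqrt (by norm_num)
      refine ⟨⟨-1 / 2, Real.sqrt 3 / 2⟩, by positivity, ?_⟩
      apply Complex.ext
      · simp only [pow_two, mul_re, sub_re, neg_re, one_re]
        linear_combination (-1 / 4 : ℝ) * h3
      · simp only [pow_two, mul_im, sub_im, neg_im, one_im]
        ring
    have h1 : AdmL 1 tau := ⟨one_pos, him, Or.inr ht⟩
    obtain ⟨r, hr, hG⟩ := h6 tau h1 ht
    obtain ⟨v, hv, hvr⟩ := ESCA_root (35 * r) (by positivity) 6 (by norm_num)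
    have hv1 : AdmL v tau := ⟨hv, him, Or.inr ht⟩
    have hrC : (r : ℂ) ≠ 0 := ofReal_ne_zero.mpr hr.ne'
    refine ⟨v, tau, hv1, ht, ?_, ?_⟩
    · unfold PeriodPair.g₂
      have hs := (hS.2 v tau hv1).2.2.2.2.2.1 4
      have h44 : tau ^ 4 = tau := by
        linear_combination (tau ^ 2 - tau) * ht
      rw [h44] at hs
      have hne : tau - 1 ≠ 0 := by
        intro h0
        have h00 : tau = 1 := sub_eq_zero.mp h0
        rw [h00, one_im] at him
        exact lt_irrefl _ him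
      have h0 : (pair v tau hv1).G 4 = 0 := by
        have h5 : (tau - 1) * (pair v tau hv1).G 4 = 0 := by linear_combination hs
        exact (mul_eq_zero.mp h5).resolve_left hne
      rw [h0, mul_zero]
    · unfold PeriodPair.g₃
      rw [ESCA_scale v tau hv1 h1, hG, ← ofReal_pow, hvr]
      push_cast
      field_simp
      norm_num

end Pool.Agent.QP
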