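import Pool.Agent.QP.StE

/-!
# Quarter periods, module ESYM: the symmetries
-/

set_option autoImplicit false

open Complex

namespace Pool.Agent.QP

/-- the rotation of the lattice -/
private noncomputable def ESYM_rot (h1 : St_ELAT) (v : ℝ) (tau : ℂ) (h : AdmL v tau) :
    (pair v tau h).lattice ≃ (pair v tau h).lattice where
  toFun l := ⟨tau * l, ((h1 v tau h).2.2.2.1 l).2 l.2⟩
  invFun l := ⟨tau⁻¹ * l, ((h1 v tau h).2.2.2.1 _).1 (by
    have h0 : tau ≠ 0 := by
      intro h0
      have := h.him
      rw [h0] at this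
      simp at this
    rw [mul_inv_cancel_left₀ h0]
    exact l.2)⟩
  left_inv l := by
    have h0 : tau ≠ 0 := by
      intro h0
      have := h.him
      rw [h0] at this
      simp at this
    apply Subtype.ext
    show tau⁻¹ * (tau * l) = l
    rw [inv_mul_cancel_left₀ h0]
  right_inv l := by
    have h0 : tau ≠ 0 := by
      intro h0
      have := h.him
      rw [h0] at this
      simp at this
    apply Subtype.ext
    show tau * (tau⁻¹ * l) = l
    rw [mul_inv_cancel_left₀ h0]

/-- the conjugation of the lattice -/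
private noncomputable def ESYM_con (h1 : St_ELAT) (v : ℝ) (tau : ℂ) (h : AdmL v tau) :
    (pair v tau h).lattice ≃ (pair v tau h).lattice where
  toFun l := ⟨(starRingEnd ℂ) l, ((h1 v tau h).2.2.2.2.1 l).2 l.2⟩
  invFun l := ⟨(starRingEnd ℂ) l, ((h1 v tau h).2.2.2.2.1 l).2 l.2⟩
  left_inv _ := Subtype.ext (Complex.conj_conj _)
  right_inv _ := Subtype.ext (Complex.conj_conj _)

/-- the symmetries -/
theorem thm_ESYM (h1 : St_ELAT) : St_ESYM := by
  refine ⟨fun L z => ?_, fun v tau h => ?_⟩
  · unfold zet
    rw [← tsum_neg, ← (Equiv.neg L.lattice).tsum_eq]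
    refine tsum_congr fun l => ?_
    have e : ((Equiv.neg L.lattice l : L.lattice) : ℂ) = -(l : ℂ) := rfl
    rw [e]
    have e2 : -z - -(l : ℂ) = -(z - l) := by ring
    rw [e2, neg_sq]
    simp only [div_eq_mul_inv, one_mul, inv_neg]
    ring
  · have h0 : tau ≠ 0 := by
      intro h0
      have := h.him
      rw [h0] at this
      simp at this
    have er : ∀ l : (pair v tau h).lattice,
        ((ESYM_rot h1 v tau h l : (pair v tau h).lattice) : ℂ) = tau * l := fun l => rfl
    have ec : ∀ l : (pair v tau h).lattice,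
        ((ESYM_con h1 v tau h l : (pair v tau h).lattice) : ℂ) = (starRingEnd ℂ) l := fun l => rfl
    refine ⟨fun z => ?_, fun z => ?_, fun z => ?_, fun z => ?_, fun z => ?_, fun n => ?_,
      fun n => ?_⟩
    · unfold zet
      rw [← tsum_mul_left, ← (ESYM_rot h1 v tau h).tsum_eq]
      refine tsum_congr fun l => ?_
      rw [er]
      have e2 : tau * z - tau * (l : ℂ) = tau * (z - l) := by ring
      rw [e2]
      simp only [div_eq_mul_inv, one_mul, mul_inv, mul_pow]
      field_simp
    · unfold PeriodPair.weierstrassP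
      rw [← tsum_mul_left, ← (ESYM_rot h1 v tau h).tsum_eq]
      refine tsum_congr fun l => ?_
      rw [er]
      have e2 : tau * z - tau * (l : ℂ) = tau * (z - l) := by ring
      rw [e2]
      simp only [div_eq_mul_inv, one_mul, mul_inv, mul_pow]
      ring
    · unfold zet
      rw [Complex.conj_tsum, ← (ESYM_con h1 v tau h).tsum_eq]
      refine tsum_congr fun l => ?_
      rw [ec]
      simp
    · unfold PeriodPair.weierstrassP
      rw [Complex.conj_tsum, ← (ESYM_con h1 v tau h).tsum_eq]
      refine tsum_congr fun l => ?_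
      rw [ec]
      simp
    · unfold PeriodPair.derivWeierstrassP
      rw [map_neg, Complex.conj_tsum, ← (ESYM_con h1 v tau h).tsum_eq]
      congr 1
      refine tsum_congr fun l => ?_
      rw [ec]
      have e2 : (starRingEnd ℂ) (2 : ℂ) = 2 := map_ofNat _ 2
      simp only [map_div₀, map_pow, map_sub, e2]
    · have e : (pair v tau h).G n = (tau ^ n)⁻¹ * (pair v tau h).G n := by
        unfold PeriodPair.G
        rw [← tsum_mul_left]
        conv_lhs => rw [← (ESYM_rot h1 v tau h).tsum_eq]
        refine tsum_congr fun l => ?_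
        rw [er, mul_pow, mul_inv]
      calc tau ^ n * (pair v tau h).G n = tau ^ n * ((tau ^ n)⁻¹ * (pair v tau h).G n) :=
            congrArg (fun w => tau ^ n * w) e
        _ = (pair v tau h).G n := mul_inv_cancel_left₀ (pow_ne_zero n h0) _
    · unfold PeriodPair.G
      rw [Complex.conj_tsum, ← (ESYM_con h1 v tau h).tsum_eq
        (fun l : (pair v tau h).lattice => (((l : ℂ)) ^ n)⁻¹)]
      refine tsum_congr fun l => ?_
      rw [ec]
      simp

end Pool.Agent.QP
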