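import Pool.Agent.QP.StE

/-!
# Quarter periods, block E: the module ETHT

The theta function `tht`, its factor of automorphy, its zeros on the lattice, its value at `v / 2`.
-/

set_option autoImplicit false

open Complex Filter Topology

namespace Pool.Agent.QP

private lemma ETHT_int (z tau : ℂ) (a : ℤ) : jacobiTheta₂ (z + a) tau = jacobiTheta₂ z tau := by
  refine tsum_congr (fun n ↦ ?_)
  simp only [jacobiTheta₂_term]
  have h1 : (2 * Real.pi * I * n * (z + a) + Real.pi * I * n ^ 2 * tau : ℂ) =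
      (2 * Real.pi * I * n * z + Real.pi * I * n ^ 2 * tau) +
        ((n * a : ℤ) : ℂ) * (2 * Real.pi * I) := by
    push_cast; ring
  rw [h1, Complex.exp_add, Complex.exp_int_mul_two_pi_mul_I, mul_one]

private lemma ETHT_add (z tau : ℂ) (b : ℤ) :
    jacobiTheta₂ (z + b * tau) tau =
      cexp (-(Real.pi * I * (b ^ 2 * tau + 2 * b * z))) * jacobiTheta₂ z tau := by
  conv_rhs => rw [jacobiTheta₂, ← tsum_mul_left, ← (Equiv.addRight b).tsum_eq]
  refine tsum_congr (fun n ↦ ?_)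
  simp_rw [jacobiTheta₂_term, ← Complex.exp_add, Equiv.coe_addRight, Int.cast_add]
  congr 1
  ring

private lemma ETHT_zero (tau : ℂ) : jacobiTheta₂ ((1 + tau) / 2) tau = 0 := by
  have h1 := ETHT_add (-((1 + tau) / 2) + (1 : ℤ)) tau 1
  rw [ETHT_int, jacobiTheta₂_neg_left] at h1
  have h2 : (-((1 + tau) / 2) + ((1 : ℤ) : ℂ) + ((1 : ℤ) : ℂ) * tau) = (1 + tau) / 2 := by
    push_cast; ring
  rw [h2] at h1
  have h3 : (-(Real.pi * I * (((1 : ℤ) : ℂ) ^ 2 * tau +
      2 * ((1 : ℤ) : ℂ) * (-((1 + tau) / 2) + ((1 : ℤ) : ℂ)))) : ℂ) = -(Real.pi * I) := by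
    push_cast; ring
  rw [h3, Complex.exp_neg, Complex.exp_pi_mul_I] at h1
  have h4 : ((-1 : ℂ))⁻¹ = -1 := by norm_num
  rw [h4] at h1
  have h5 : (2 : ℂ) * jacobiTheta₂ ((1 + tau) / 2) tau = 0 := by linear_combination h1
  rcases mul_eq_zero.1 h5 with h6 | h6
  · norm_num at h6
  · exact h6

private lemma ETHT_quasi (v : ℝ) (hv : 0 < v) (tau : ℂ) (a b : ℤ) (z : ℂ) :
    tht v tau (z + v * (a + b * tau)) = mult v tau b z * tht v tau z := by
  have hv' : (v : ℂ) ≠ 0 := by exact_mod_cast hv.ne'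
  unfold tht mult
  have h1 : (z + v * (a + b * tau)) / v + (1 + tau) / 2 =
      ((z / v + (1 + tau) / 2) + (b : ℂ) * tau) + (a : ℂ) := by
    field_simp
    ring
  rw [h1, ETHT_int, ETHT_add]

private lemma ETHT_im {v : ℝ} {tau : ℂ} (h : AdmL v tau) : 4 / 5 ≤ tau.im := by
  have him := h.him
  rcases h.htau with h1 | h1
  · have h2 := congrArg Complex.re h1
    have h3 := congrArg Complex.im h1
    simp only [pow_two, mul_re, mul_im, neg_re, neg_im, one_re, one_im] at h2 h3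
    have h4 : tau.re = 0 := by
      have : tau.im * tau.re = 0 := by linarith
      rcases mul_eq_zero.1 this with h5 | h5
      · exact absurd h5 him.ne'
      · exact h5
    rw [h4] at h2
    nlinarith
  · have h2 := congrArg Complex.re h1
    have h3 := congrArg Complex.im h1
    simp only [pow_two, mul_re, mul_im, neg_re, neg_im, one_re, one_im, sub_re, sub_im] at h2 h3
    have h4 : tau.re = -1 / 2 := by
      have : tau.im * (tau.re + 1 / 2) = 0 := by linarith
      rcases mul_eq_zero.1 this with h5 | h5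
      · exact absurd h5 him.ne'
      · linarith
    rw [h4] at h2
    nlinarith

private lemma ETHT_half (tau : ℂ) (him : 4 / 5 ≤ tau.im) : jacobiTheta₂ (tau / 2) tau ≠ 0 := by
  have him0 : 0 < tau.im := by linarith
  set f : ℤ → ℂ := fun n => jacobiTheta₂_term n (tau / 2) tau with hf
  have hs : Summable f := (summable_jacobiTheta₂_term_iff _ _).2 him0
  have hsym : ∀ m : ℕ, f (-((m : ℤ) + 1)) = f m := by
    intro m
    simp only [hf, jacobiTheta₂_term]
    congr 1
    push_cast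
    ring
  have hnorm : ∀ m : ℕ, ‖f ((m + 1 : ℕ) : ℤ)‖ ≤ (1 / 4 : ℝ) ^ (m + 1) := by
    intro m
    simp only [hf]
    rw [norm_jacobiTheta₂_term]
    have h1 : (tau / 2).im = tau.im / 2 := by
      simp
    rw [h1]
    have hpi : 3 < Real.pi := Real.pi_gt_three
    have h2 : (-Real.pi * (((m + 1 : ℕ) : ℤ) : ℝ) ^ 2 * tau.im -
        2 * Real.pi * (((m + 1 : ℕ) : ℤ) : ℝ) * (tau.im / 2)) ≤ -(((m + 1 : ℕ) : ℝ) * 4) := by
      push_cast
      have hm : (0 : ℝ) ≤ m := Nat.cast_nonneg m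
      have h3 : (12 / 5 : ℝ) ≤ Real.pi * tau.im := by nlinarith
      nlinarith [mul_nonneg hm hm, mul_le_mul_of_nonneg_left h3 (by positivity :
        (0 : ℝ) ≤ ((m : ℝ) + 1) * (m + 2))]
    have h4 : Real.exp (-4) ≤ 1 / 4 := by
      rw [Real.exp_neg]
      have := Real.add_one_le_exp (4 : ℝ)
      rw [inv_eq_one_div]
      apply one_div_le_one_div_of_le (by norm_num)
      linarith
    calc Real.exp _ ≤ Real.exp (-(((m + 1 : ℕ) : ℝ) * 4)) := Real.exp_le_exp.2 h2
      _ = (Real.exp (-4)) ^ (m + 1) := by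
          rw [← Real.exp_nat_mul]
          congr 1
          ring
      _ ≤ (1 / 4 : ℝ) ^ (m + 1) := pow_le_pow_left₀ (Real.exp_pos _).le h4 _
  have hs1 : Summable fun m : ℕ => f (m : ℤ) := hs.comp_injective Nat.cast_injective
  have hsplit : jacobiTheta₂ (tau / 2) tau = ∑' m : ℕ, f (m : ℤ) + ∑' m : ℕ, f (m : ℤ) := by
    have h1 : HasSum (fun m : ℕ => f (-((m : ℤ) + 1))) (∑' m : ℕ, f (m : ℤ)) := by
      simp_rw [hsym]
      exact hs1.hasSum
    exact (hs1.hasSum.of_nat_of_neg_add_one h1).tsum_eq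
  have h0 : f ((0 : ℕ) : ℤ) = 1 := by
    simp [hf, jacobiTheta₂_term]
  have hs2 : Summable fun m : ℕ => f ((m + 1 : ℕ) : ℤ) := (summable_nat_add_iff 1).2 hs1
  have h2 : ∑' m : ℕ, f (m : ℤ) = 1 + ∑' m : ℕ, f ((m + 1 : ℕ) : ℤ) := by
    rw [hs1.tsum_eq_zero_add, h0]
  have hg : HasSum (fun m : ℕ => (1 / 4 : ℝ) ^ (m + 1)) (1 / 3) := by
    have := (hasSum_geometric_of_lt_one (by norm_num : (0 : ℝ) ≤ 1 / 4) (by norm_num)).mul_left
      (1 / 4 : ℝ)
    have h5 : (1 / 4 : ℝ) * (1 - 1 / 4)⁻¹ = 1 / 3 := by norm_num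
    rw [h5] at this
    have h6 : (fun m : ℕ => (1 / 4 : ℝ) ^ (m + 1)) = fun m : ℕ => (1 / 4 : ℝ) * (1 / 4) ^ m := by
      funext m
      rw [pow_succ]
      ring
    rw [h6]
    exact this
  have h3 : ‖∑' m : ℕ, f ((m + 1 : ℕ) : ℤ)‖ ≤ 1 / 3 := by
    exact tsum_of_norm_bounded hg hnorm
  intro hz
  rw [hsplit, h2] at hz
  have h6 : ∑' m : ℕ, f ((m + 1 : ℕ) : ℤ) = -1 := by linear_combination hz / 2
  rw [h6, norm_neg, norm_one] at h3
  norm_num at h3

/-- the module ETHT -/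
theorem thm_ETHT : St_ETHT := by
  intro v tau h
  have hv := h.hv
  have him := h.him
  have hv' : (v : ℂ) ≠ 0 := by exact_mod_cast hv.ne'
  refine ⟨?_, ?_, ?_, ?_, ?_⟩
  · intro z
    unfold tht
    have h1 : DifferentiableAt ℂ (fun w : ℂ => w / v + (1 + tau) / 2) z := by
      fun_prop
    exact (differentiableAt_jacobiTheta₂_fst (z / v + (1 + tau) / 2) him).comp z h1
  · intro a b z
    exact ETHT_quasi v hv tau a b z
  · intro z hz
    obtain ⟨m, n, hmn⟩ := PeriodPair.mem_lattice.1 hz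
    have h1 : z = 0 + v * (m + n * tau) := by
      rw [← hmn]
      simp only [pair]
      ring
    rw [h1, ETHT_quasi v hv]
    have h2 : tht v tau 0 = 0 := by
      unfold tht
      rw [zero_div, zero_add]
      exact ETHT_zero tau
    rw [h2, mul_zero]
  · have h1 : tht v tau (v / 2) = jacobiTheta₂ (tau / 2) tau := by
      unfold tht
      have h2 : (v / 2 : ℂ) / v + (1 + tau) / 2 = tau / 2 + ((1 : ℤ) : ℂ) := by
        push_cast
        field_simp
        ring
      rw [h2, ETHT_int]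
    rw [h1]
    exact ETHT_half tau (ETHT_im h)
  · refine ⟨2 * Real.pi * tau.im + 4 * Real.pi, by positivity, ?_⟩
    intro b z hz
    have hn : ‖mult v tau b z‖ =
        Real.exp (Real.pi * ((b : ℝ) ^ 2 * tau.im + 2 * b * (z.im / v + tau.im / 2))) := by
      unfold mult
      rw [Complex.norm_exp]
      congr 1
      have h1 : (-(Real.pi * I * (b ^ 2 * tau + 2 * b * (z / v + (1 + tau) / 2))) : ℂ) =
          ((-(Real.pi * b ^ 2) : ℝ) : ℂ) * (I * tau) + ((-(2 * Real.pi * b / v) : ℝ) : ℂ) * (I * z)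
            + ((-(Real.pi * b) : ℝ) : ℂ) * (I * tau) + ((-(Real.pi * b) : ℝ) : ℂ) * I := by
        push_cast
        field_simp
        ring
      rw [h1]
      simp only [add_re, re_ofReal_mul, I_mul_re, I_re]
      field_simp
      ring
    have hzi : |z.im / v| ≤ 2 := by
      rw [abs_div, abs_of_pos hv, div_le_iff₀ hv]
      exact (Complex.abs_im_le_norm z).trans hz
    have hb : |(b : ℝ)| ≤ 1 + (b : ℝ) ^ 2 := by
      have := sq_abs (b : ℝ)
      nlinarith [abs_nonneg (b : ℝ), sq_nonneg (|(b : ℝ)| - 1)]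
    have hkey : |Real.pi * ((b : ℝ) ^ 2 * tau.im + 2 * b * (z.im / v + tau.im / 2))| ≤
        (2 * Real.pi * tau.im + 4 * Real.pi) * (1 + (b : ℝ) ^ 2) := by
      rw [abs_mul, abs_of_pos Real.pi_pos]
      have h2 : |(b : ℝ) ^ 2 * tau.im + 2 * b * (z.im / v + tau.im / 2)| ≤
          (b : ℝ) ^ 2 * tau.im + 2 * |(b : ℝ)| * (2 + tau.im / 2) := by
        refine (abs_add_le _ _).trans ?_
        rw [abs_of_nonneg (by positivity : (0 : ℝ) ≤ (b : ℝ) ^ 2 * tau.im), abs_mul, abs_mul,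
          abs_of_pos (by norm_num : (0 : ℝ) < 2)]
        have h3 : |z.im / v + tau.im / 2| ≤ 2 + tau.im / 2 := by
          refine (abs_add_le _ _).trans ?_
          rw [abs_of_pos (by positivity : 0 < tau.im / 2)]
          linarith
        have h4 : 0 ≤ 2 * |(b : ℝ)| := by positivity
        nlinarith [mul_le_mul_of_nonneg_left h3 h4]
      have h5 : (b : ℝ) ^ 2 * tau.im + 2 * |(b : ℝ)| * (2 + tau.im / 2) ≤
          (2 * tau.im + 4) * (1 + (b : ℝ) ^ 2) := by
        nlinarith [mul_le_mul_of_nonneg_left hb (by positivity : (0 : ℝ) ≤ 4 + tau.im)]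
      calc Real.pi * |(b : ℝ) ^ 2 * tau.im + 2 * b * (z.im / v + tau.im / 2)|
          ≤ Real.pi * ((2 * tau.im + 4) * (1 + (b : ℝ) ^ 2)) :=
            mul_le_mul_of_nonneg_left (h2.trans h5) Real.pi_pos.le
        _ = (2 * Real.pi * tau.im + 4 * Real.pi) * (1 + (b : ℝ) ^ 2) := by ring
    rw [hn]
    have h6 := abs_le.1 hkey
    exact ⟨Real.exp_le_exp.2 h6.2, Real.exp_le_exp.2 h6.1⟩

end Pool.Agent.QP
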