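import Pool.Agent.QP.StE

/-!
# Quarter periods, block E: [EZET], the series for `ζ`
-/

set_option autoImplicit false

open Complex Filter Topology

namespace Pool.Agent.QP

private lemma EZET_term (s l : ℂ) (hl : l ≠ 0) (hs : s - l ≠ 0) :
    1 / (s - l) + 1 / l + s / l ^ 2 = s ^ 2 / (l ^ 2 * (s - l)) := by
  field_simp
  ring

private lemma EZET_bound (r : ℝ) (hr : 0 < r) (s : ℂ) (hs : ‖s‖ < r) (l : ℂ) (h : 2 * r ≤ ‖l‖) :
    ‖1 / (s - l) + 1 / l + s / l ^ 2‖ ≤ 2 * r ^ 2 * ‖l‖ ^ (-3 : ℝ) := by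
  have hl0 : 0 < ‖l‖ := by linarith
  have hl : l ≠ 0 := norm_pos_iff.1 hl0
  have h1 : ‖l‖ / 2 ≤ ‖s - l‖ := by
    rw [norm_sub_rev]
    exact .trans (by linarith) (norm_sub_norm_le l s)
  have hs0 : s - l ≠ 0 := by
    intro h0
    rw [h0, norm_zero] at h1
    linarith
  rw [EZET_term s l hl hs0, norm_div, norm_mul, norm_pow, norm_pow]
  calc ‖s‖ ^ 2 / (‖l‖ ^ 2 * ‖s - l‖) ≤ r ^ 2 / (‖l‖ ^ 2 * (‖l‖ / 2)) := by
        gcongr
    _ = 2 * r ^ 2 / ‖l‖ ^ 3 := by field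
    _ = 2 * r ^ 2 * ‖l‖ ^ (-3 : ℝ) := by
        rw [Real.rpow_neg hl0.le, div_eq_mul_inv]
        norm_cast

private lemma EZET_unif (L : PeriodPair) (l₀ l₁ : ℂ) :
    HasSumLocallyUniformly
      (fun (l : L.lattice) (z : ℂ) ↦ if (l : ℂ) = l₀ ∨ (l : ℂ) = l₁ then 0
        else (1 / (z - l) + 1 / l + z / l ^ 2)) (zetE L l₀ l₁) := by
  refine L.hasSumLocallyUniformly_aux (u := fun r l => 2 * r ^ 2 * ‖l‖ ^ (-3 : ℝ)) _
    (fun r _ ↦ (ZLattice.summable_norm_rpow _ _ (by simp; norm_num)).mul_left _) fun r hr ↦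
    Filter.eventually_atTop.mpr ⟨2 * r, ?_⟩
  rintro _ h s hs l rfl
  split_ifs
  · rw [norm_zero]
    positivity
  · exact EZET_bound r hr s hs l h

private lemma EZET_half (L : PeriodPair) (l : L.lattice) :
    ¬ ((l : ℂ) = L.ω₁ / 2 ∨ (l : ℂ) = L.ω₁ / 2) := by
  rintro (h | h) <;> exact L.ω₁_div_two_notMem_lattice (h ▸ l.2)

private lemma EZET_eq (L : PeriodPair) : zetE L (L.ω₁ / 2) (L.ω₁ / 2) = zet L := by
  funext z
  unfold zetE zet
  exact tsum_congr fun l => if_neg (EZET_half L l)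

private lemma EZET_unif' (L : PeriodPair) :
    HasSumLocallyUniformly (fun (l : L.lattice) (z : ℂ) ↦ (1 / (z - l) + 1 / l + z / l ^ 2 : ℂ))
      (zet L) := by
  have h := EZET_unif L (L.ω₁ / 2) (L.ω₁ / 2)
  rw [EZET_eq] at h
  have h2 : (fun (l : L.lattice) (z : ℂ) ↦ if (l : ℂ) = L.ω₁ / 2 ∨ (l : ℂ) = L.ω₁ / 2 then 0
        else (1 / (z - l) + 1 / l + z / l ^ 2)) =
      fun (l : L.lattice) (z : ℂ) ↦ (1 / (z - l) + 1 / l + z / l ^ 2 : ℂ) := by
    funext l z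
    exact if_neg (EZET_half L l)
  rw [h2] at h
  exact h

private lemma EZET_diff (L : PeriodPair) (l₀ l₁ : ℂ) :
    DifferentiableOn ℂ (zetE L l₀ l₁) ((L.lattice : Set ℂ) \ {l₀, l₁})ᶜ := by
  refine (EZET_unif L l₀ l₁).hasSumLocallyUniformlyOn.differentiableOn
    (.of_forall fun s ↦ .fun_sum fun i hi ↦ ?_) L.isOpen_compl_lattice_sdiff
  split_ifs with hi2
  · exact differentiableOn_const _
  · refine .add (.add (.div (by fun_prop) (by fun_prop) fun x hx ↦ ?_) (by fun_prop)) (by fun_prop)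
    intro h0
    have hxi : x = i := sub_eq_zero.1 h0
    apply hx
    refine ⟨hxi ▸ i.2, ?_⟩
    rintro (h | h)
    · exact hi2 (Or.inl (hxi.symm.trans h))
    · exact hi2 (Or.inr (hxi.symm.trans h))

private lemma EZET_deriv (L : PeriodPair) :
    Set.EqOn (deriv (zet L)) (fun z => -L.weierstrassP z) ((L.lattice : Set ℂ) \ ∅)ᶜ := by
  refine ((EZET_unif' L).tendstoLocallyUniformlyOn.deriv
    (.of_forall fun s ↦ ?_) L.isOpen_compl_lattice_sdiff).unique ?_
  · refine .fun_sum fun i hi ↦ ?_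
    refine .add (.add (.div (by fun_prop) (by fun_prop) fun x hx ↦ ?_) (by fun_prop)) (by fun_prop)
    intro h0
    have hxi : x = i := sub_eq_zero.1 h0
    apply hx
    exact ⟨hxi ▸ i.2, by simp⟩
  · have h1 := (L.hasSumLocallyUniformly_weierstrassP).tendstoLocallyUniformlyOn
      (s := ((L.lattice : Set ℂ) \ ∅)ᶜ)
    have h2 := h1.neg
    refine h2.congr ?_
    intro s z hz
    have hz0 : ∀ x : L.lattice, z - x ≠ 0 := by
      intro x h0
      apply hz
      rw [sub_eq_zero.1 h0]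
      exact ⟨x.2, by simp⟩
    have hd : ∀ x : L.lattice, HasDerivAt (fun z : ℂ => 1 / (z - x) + 1 / (x : ℂ) + z / (x : ℂ) ^ 2)
        (-(1 / (z - x) ^ 2 - 1 / (x : ℂ) ^ 2)) z := by
      intro x
      have e1 : HasDerivAt (fun z : ℂ => z - x) 1 z := (hasDerivAt_id z).sub_const _
      have e2 := (e1.inv (hz0 x)).add_const (1 / (x : ℂ))
      have e3 := e2.add ((hasDerivAt_id z).div_const ((x : ℂ) ^ 2))
      have e4 : (-(1 / (z - x) ^ 2 - 1 / (x : ℂ) ^ 2)) =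
          -1 / (z - ↑x) ^ 2 + 1 / (x : ℂ) ^ 2 := by ring
      rw [e4]
      refine e3.congr_of_eventuallyEq (Filter.Eventually.of_forall fun y => ?_)
      simp [one_div]
    simp only [Function.comp_apply, Pi.neg_apply]
    rw [deriv_fun_sum (fun x _ => (hd x).differentiableAt)]
    rw [← Finset.sum_neg_distrib]
    exact Finset.sum_congr rfl fun x _ => ((hd x).deriv).symm

theorem thm_EZET : St_EZET := by
  intro L
  have hS : ∀ z : ℂ, HasSum (fun l : L.lattice => (1 / (z - l) + 1 / l + z / l ^ 2 : ℂ))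
      (zet L z) := fun z => (EZET_unif' L).hasSum
  have hSE : ∀ l₀ l₁ z : ℂ, HasSum (fun l : L.lattice => if (l : ℂ) = l₀ ∨ (l : ℂ) = l₁ then 0
        else (1 / (z - l) + 1 / l + z / l ^ 2 : ℂ)) (zetE L l₀ l₁ z) :=
    fun l₀ l₁ z => (EZET_unif L l₀ l₁).hasSum
  have hsing : ∀ l₀ ∈ L.lattice, ∀ c : ℂ,
      HasSum (fun l : L.lattice => if (l : ℂ) = l₀ then c else 0) c := by
    intro l₀ hl₀ c
    have h1 := hasSum_ite_eq (⟨l₀, hl₀⟩ : L.lattice) c
    have h2 : (fun l : L.lattice => if (l : ℂ) = l₀ then c else 0) =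
        fun l : L.lattice => if l = ⟨l₀, hl₀⟩ then c else 0 := by
      funext l
      simp only [Subtype.ext_iff]
    rw [h2]
    exact h1
  refine ⟨fun z => (hS z).summable, ?_, ?_, ?_, ?_⟩
  · intro l₀ hl₀ z
    have h1 := (hSE l₀ l₀ z).add (hsing l₀ hl₀ (1 / (z - l₀) + 1 / l₀ + z / l₀ ^ 2))
    have h2 : (fun l : L.lattice => (1 / (z - l) + 1 / l + z / l ^ 2 : ℂ)) =
        fun l : L.lattice => (if (l : ℂ) = l₀ ∨ (l : ℂ) = l₀ then 0
          else (1 / (z - l) + 1 / l + z / l ^ 2 : ℂ)) +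
          (if (l : ℂ) = l₀ then (1 / (z - l₀) + 1 / l₀ + z / l₀ ^ 2) else 0) := by
      funext l
      by_cases hl : (l : ℂ) = l₀
      · rw [if_pos (Or.inl hl), if_pos hl, hl, zero_add]
      · rw [if_neg (by tauto), if_neg hl, add_zero]
    have h3 := hS z
    rw [h2] at h3
    exact h3.unique h1
  · intro l₀ hl₀ l₁ hl₁ hne z
    have h1 := ((hSE l₀ l₁ z).add (hsing l₀ hl₀ (1 / (z - l₀) + 1 / l₀ + z / l₀ ^ 2))).add
      (hsing l₁ hl₁ (1 / (z - l₁) + 1 / l₁ + z / l₁ ^ 2))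
    have h2 : (fun l : L.lattice => (1 / (z - l) + 1 / l + z / l ^ 2 : ℂ)) =
        fun l : L.lattice => (if (l : ℂ) = l₀ ∨ (l : ℂ) = l₁ then 0
          else (1 / (z - l) + 1 / l + z / l ^ 2 : ℂ)) +
          (if (l : ℂ) = l₀ then (1 / (z - l₀) + 1 / l₀ + z / l₀ ^ 2) else 0) +
          (if (l : ℂ) = l₁ then (1 / (z - l₁) + 1 / l₁ + z / l₁ ^ 2) else 0) := by
      funext l
      by_cases hl : (l : ℂ) = l₀
      · have hl' : ¬ (l : ℂ) = l₁ := fun h => hne (hl.symm.trans h)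
        rw [if_pos (Or.inl hl), if_pos hl, if_neg hl', hl, zero_add, add_zero]
      · by_cases hl' : (l : ℂ) = l₁
        · rw [if_pos (Or.inr hl'), if_neg hl, if_pos hl', hl', zero_add, zero_add]
        · rw [if_neg (by tauto), if_neg hl, if_neg hl', add_zero, add_zero]
    have h3 := hS z
    rw [h2] at h3
    exact h3.unique h1
  · intro l₀ l₁ z hz
    refine (EZET_diff L l₀ l₁).differentiableAt (L.isOpen_compl_lattice_sdiff.mem_nhds ?_)
    rintro ⟨h1, h2⟩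
    exact h2 (hz h1)
  · intro z hz
    have hmem : z ∈ ((L.lattice : Set ℂ) \ ∅)ᶜ := fun h => hz h.1
    have h1 := EZET_deriv L hmem
    have h2 : DifferentiableAt ℂ (zet L) z := by
      rw [← EZET_eq]
      refine (EZET_diff L _ _).differentiableAt (L.isOpen_compl_lattice_sdiff.mem_nhds ?_)
      rintro ⟨h1, h2⟩
      exact hz h1
    rw [← show deriv (zet L) z = -L.weierstrassP z from h1]
    exact h2.hasDerivAt

end Pool.Agent.QP
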