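import Pool.Agent.QP.ELAT
import Pool.Agent.QP.ECON
import Pool.Agent.QP.EZET
import Pool.Agent.QP.ESYM
import Pool.Agent.QP.EQPD
import Pool.Agent.QP.ERCT
import Pool.Agent.QP.ELEG4
import Pool.Agent.QP.ELEG6
import Pool.Agent.QP.ETHT
import Pool.Agent.QP.EENT
import Pool.Agent.QP.EGAB
import Pool.Agent.QP.EODE
import Pool.Agent.QP.EPOS4
import Pool.Agent.QP.EPOS6
import Pool.Agent.QP.ESCA
import Pool.Agent.QP.EPRA
import Pool.Agent.QP.EPRB
import Pool.Agent.QP.EBIN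
import Pool.Agent.QP.EDAT

/-!
# Quarter periods, block E: assembly
-/

set_option autoImplicit false

namespace Pool.Agent.QP

theorem asm_ESYM : St_ESYM := thm_ESYM thm_ELAT
theorem asm_EQPD : St_EQPD := thm_EQPD thm_ELAT thm_ECON thm_EZET asm_ESYM
theorem asm_ELEG4 : St_ELEG4 := thm_ELEG4 thm_ELAT thm_EZET thm_ERCT
theorem asm_ELEG6 : St_ELEG6 := thm_ELEG6 thm_ELAT thm_EZET thm_ERCT
theorem asm_EENT : St_EENT := thm_EENT thm_EZET
theorem asm_EGAB : St_EGAB := thm_EGAB thm_ELAT thm_ECON thm_ETHT asm_EENT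
theorem asm_EODE : St_EODE := thm_EODE thm_ECON
theorem asm_ESCA : St_ESCA := thm_ESCA (thm_EPOS4 asm_ESYM) (thm_EPOS6 asm_ESYM) asm_ESYM
theorem asm_EPRA : St_EPRA := thm_EPRA thm_ELAT asm_ESYM asm_EODE

/-- the analytic data for the two lattices -/
theorem asm_EDAT : St_EDAT :=
  thm_EDAT thm_ELAT thm_EZET asm_EQPD asm_ELEG4 asm_ELEG6 thm_ETHT asm_EGAB asm_EODE asm_ESCA
    asm_EPRA thm_EPRB thm_EBIN

end Pool.Agent.QP
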