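import Pool.Agent.QP.Defs

/-!
# Quarter periods, block E: definitions

The lattice `v (ℤ + ℤ τ)`, `v > 0`, `τ = i` or `τ = exp (2 π i / 3)`, Weierstrass' function `ζ`, the
theta function which vanishes on the lattice.
-/

set_option autoImplicit false

open Complex

namespace Pool.Agent.QP

/-- `v > 0`, `τ = i` or `τ = exp (2 π i / 3)` -/
structure AdmL (v : ℝ) (tau : ℂ) : Prop where
  hv : 0 < v
  him : 0 < tau.im
  htau : tau ^ 2 = -1 ∨ tau ^ 2 = -tau - 1

/-- the lattice `v (ℤ + ℤ τ)` -/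
noncomputable def pair (v : ℝ) (tau : ℂ) (h : AdmL v tau) : PeriodPair where
  ω₁ := v
  ω₂ := v * tau
  indep := by
    rw [LinearIndependent.pair_iff]
    intro s t hst
    have hv := h.hv
    have him := h.him
    have h2 := congrArg Complex.im hst
    simp only [add_im, real_smul, mul_im, ofReal_re, ofReal_im, zero_mul, add_zero, mul_zero,
      zero_im, zero_add, mul_re, sub_zero] at h2
    have ht : t = 0 := by
      rcases mul_eq_zero.1 h2 with h3 | h3
      · exact h3
      · rcases mul_eq_zero.1 h3 with h4 | h4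
        · exact absurd h4 hv.ne'
        · exact absurd h4 him.ne'
    have h1 := congrArg Complex.re hst
    rw [ht] at h1
    simp only [add_re, real_smul, mul_re, ofReal_re, ofReal_im, zero_mul, mul_zero, zero_re,
      sub_zero, add_zero, ofReal_zero] at h1
    rcases mul_eq_zero.1 h1 with h5 | h5
    · exact ⟨h5, ht⟩
    · exact absurd h5 hv.ne'

/-- Weierstrass' function `ζ` (the term of `0` is `1 / z`, since `1 / 0 = 0`) -/
noncomputable def zet (L : PeriodPair) (z : ℂ) : ℂ :=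
  ∑' l : L.lattice, (1 / (z - l) + 1 / l + z / l ^ 2)

/-- `ζ` without the terms of `l₀` and `l₁` -/
noncomputable def zetE (L : PeriodPair) (l₀ l₁ : ℂ) (z : ℂ) : ℂ :=
  ∑' l : L.lattice, if (l : ℂ) = l₀ ∨ (l : ℂ) = l₁ then 0 else (1 / (z - l) + 1 / l + z / l ^ 2)

/-- the theta function which vanishes on the lattice `v (ℤ + ℤ τ)` -/
noncomputable def tht (v : ℝ) (tau : ℂ) (z : ℂ) : ℂ := jacobiTheta₂ (z / v + (1 + tau) / 2) tau

/-- the factor of automorphy of `tht` -/
noncomputable def mult (v : ℝ) (tau : ℂ) (b : ℤ) (z : ℂ) : ℂ :=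
  cexp (-(Real.pi * I * (b ^ 2 * tau + 2 * b * (z / v + (1 + tau) / 2))))

/-- the quasi-periods: `ζ (z + v (a + b τ)) = ζ z + η (a + b \bar τ)` outside the lattice -/
def Eta (v : ℝ) (tau : ℂ) (h : AdmL v tau) (eta : ℝ) : Prop :=
  ∀ (a b : ℤ) (z : ℂ), z ∉ (pair v tau h).lattice →
    zet (pair v tau h) (z + v * (a + b * tau)) =
      zet (pair v tau h) z + eta * (a + b * (starRingEnd ℂ) tau)

/-- the integral of `f` over the boundary of the rectangle `[x₀, x₁] × [y₀, y₁]` -/
noncomputable def rect (f : ℂ → ℂ) (x₀ x₁ y₀ y₁ : ℝ) : ℂ :=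
  (∫ x in x₀..x₁, f (x + y₀ * I)) - (∫ x in x₀..x₁, f (x + y₁ * I)) +
    I * (∫ y in y₀..y₁, f (x₁ + y * I)) - I * (∫ y in y₀..y₁, f (x₀ + y * I))

end Pool.Agent.QP
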