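import Pool.Agent.QP.StE

/-!
# [EBIN]: two beta integrals
-/

set_option autoImplicit false

open MeasureTheory Set

namespace Pool.Agent.QP

private lemma EBIN_beta {a b : ℝ} (ha : 0 < a) (hb : 0 < b) :
    ∫ u in Ioo (0 : ℝ) 1, u ^ (a - 1) * (1 - u) ^ (b - 1) = bet a b := by
  have h := ProbabilityTheory.beta_eq_betaIntegralReal a b ha hb
  unfold ProbabilityTheory.beta at h
  unfold bet
  rw [h, Complex.betaIntegral, intervalIntegral.integral_of_le (by norm_num),
    ← integral_Ioc_eq_integral_Ioo, ← RCLike.re_to_complex, ← integral_re]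
  · refine setIntegral_congr_fun measurableSet_Ioc fun x ⟨hx1, hx₂⟩ ↦ ?_
    norm_cast
    rw [← Complex.ofReal_cpow, ← Complex.ofReal_cpow, RCLike.re_to_complex,
      Complex.re_mul_ofReal, Complex.ofReal_re]
    all_goals linarith
  · convert! Complex.betaIntegral_convergent (u := a) (v := b) (by simpa) (by simpa)
    rw [intervalIntegrable_iff_integrableOn_Ioc_of_le (by simp), IntegrableOn]

private lemma EBIN_sub {a p : ℝ} (ha : 0 < a) (hp : 0 < p) (hap : p * a = 1 / 2) :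
    ∫ x in Ioi (1 : ℝ), 1 / Real.sqrt (4 * x ^ 3 * (1 - x ^ (-p))) = bet a (1 / 2) / (2 * p) := by
  have key := integral_comp_rpow_Ioi
    (indicator (Ioo (0 : ℝ) 1) (fun u => u ^ (a - 1) * (1 - u) ^ ((1 / 2 : ℝ) - 1)))
    (p := -p) (by simpa using hp.ne')
  have h1 : ∫ y in Ioi (0 : ℝ), indicator (Ioo (0 : ℝ) 1)
      (fun u => u ^ (a - 1) * (1 - u) ^ ((1 / 2 : ℝ) - 1)) y = bet a (1 / 2) := by
    rw [setIntegral_indicator measurableSet_Ioo, ← EBIN_beta ha (by norm_num)]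
    congr 2
    ext x
    simp only [mem_inter_iff, mem_Ioi, mem_Ioo]
    tauto
  have h2 : ∀ x ∈ Ioi (0 : ℝ), (|-p| * x ^ (-p - 1)) • indicator (Ioo (0 : ℝ) 1)
      (fun u => u ^ (a - 1) * (1 - u) ^ ((1 / 2 : ℝ) - 1)) (x ^ (-p)) =
      indicator (Ioi (1 : ℝ)) (fun x => 2 * p * (1 / Real.sqrt (4 * x ^ 3 * (1 - x ^ (-p))))) x := by
    intro x hx
    have hx0 : 0 < x := hx
    by_cases hx1 : 1 < x
    · have hlt : x ^ (-p) < 1 := Real.rpow_lt_one_of_one_lt_of_neg hx1 (by linarith)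
      have hpos : 0 < x ^ (-p) := Real.rpow_pos_of_pos hx0 _
      have hd : 0 < 1 - x ^ (-p) := by linarith
      rw [indicator_of_mem (show x ^ (-p) ∈ Ioo (0 : ℝ) 1 from ⟨hpos, hlt⟩),
        indicator_of_mem (show x ∈ Ioi (1 : ℝ) from hx1), abs_neg, abs_of_pos hp, smul_eq_mul]
      have e1 : Real.sqrt (4 * x ^ 3 * (1 - x ^ (-p))) =
          2 * x ^ (3 / 2 : ℝ) * (1 - x ^ (-p)) ^ (1 / 2 : ℝ) := by
        rw [Real.sqrt_mul (by positivity), Real.sqrt_mul (by norm_num),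
          Real.sqrt_eq_rpow (x ^ 3), Real.sqrt_eq_rpow (1 - x ^ (-p)), ← Real.rpow_natCast,
          ← Real.rpow_mul hx0.le]
        have : Real.sqrt 4 = 2 := by
          rw [show (4 : ℝ) = 2 ^ 2 by norm_num, Real.sqrt_sq (by norm_num)]
        rw [this]
        norm_num
      have e2 : x ^ (-p - 1) * (x ^ (-p)) ^ (a - 1) = (x ^ (3 / 2 : ℝ))⁻¹ := by
        rw [← Real.rpow_mul hx0.le, ← Real.rpow_add hx0, ← Real.rpow_neg hx0.le]
        congr 1
        linarith
      have e3 : (1 - x ^ (-p)) ^ ((1 / 2 : ℝ) - 1) = ((1 - x ^ (-p)) ^ (1 / 2 : ℝ))⁻¹ := by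
        rw [← Real.rpow_neg hd.le]
        congr 1
        norm_num
      rw [e1, e3]
      calc p * x ^ (-p - 1) * ((x ^ (-p)) ^ (a - 1) * ((1 - x ^ (-p)) ^ (1 / 2 : ℝ))⁻¹)
          = p * (x ^ (-p - 1) * (x ^ (-p)) ^ (a - 1)) * ((1 - x ^ (-p)) ^ (1 / 2 : ℝ))⁻¹ := by
            ring
        _ = _ := by
            rw [e2]
            have : x ^ (3 / 2 : ℝ) ≠ 0 := (Real.rpow_pos_of_pos hx0 _).ne'
            have : (1 - x ^ (-p)) ^ (1 / 2 : ℝ) ≠ 0 := (Real.rpow_pos_of_pos hd _).ne'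
            field_simp
    · have hge : 1 ≤ x ^ (-p) :=
        Real.one_le_rpow_of_pos_of_le_one_of_nonpos hx0 (not_lt.1 hx1) (by linarith)
      rw [indicator_of_notMem (fun h : x ^ (-p) ∈ Ioo (0 : ℝ) 1 => absurd h.2 (not_lt.2 hge)),
        indicator_of_notMem (fun h : x ∈ Ioi (1 : ℝ) => hx1 h), smul_zero]
  rw [setIntegral_congr_fun measurableSet_Ioi h2, setIntegral_indicator measurableSet_Ioi, h1,
    show Ioi (0 : ℝ) ∩ Ioi 1 = Ioi 1 by
      ext x; simp only [mem_inter_iff, mem_Ioi]; constructor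
      · exact fun h => h.2
      · exact fun h => ⟨by linarith, h⟩,
    integral_const_mul] at key
  rw [← key]
  field_simp

/-- [EBIN] -/
theorem thm_EBIN : St_EBIN := by
  constructor
  · have h := EBIN_sub (a := 1 / 4) (p := 2) (by norm_num) (by norm_num) (by norm_num)
    rw [show bet (1 / 4) (1 / 2) / 4 = bet (1 / 4) (1 / 2) / (2 * 2) by norm_num, ← h]
    refine setIntegral_congr_fun measurableSet_Ioi fun x hx => ?_
    have hx0 : (0 : ℝ) < x := lt_trans zero_lt_one hx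
    have : x ^ (-2 : ℝ) = (x ^ 2)⁻¹ := by
      rw [Real.rpow_neg hx0.le]; norm_num
    simp only [this]
    congr 2
    field_simp
    ring
  · have h := EBIN_sub (a := 1 / 6) (p := 3) (by norm_num) (by norm_num) (by norm_num)
    have hb : bet (1 / 3) (1 / 2) / (2 * Real.sqrt 3) = bet (1 / 6) (1 / 2) / (2 * 3) := by
      have r1 := Real.Gamma_mul_Gamma_one_sub (1 / 6)
      have r2 := Real.Gamma_mul_Gamma_one_sub (1 / 3)
      rw [show Real.pi * (1 / 6) = Real.pi / 6 by ring, Real.sin_pi_div_six] at r1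
      rw [show Real.pi * (1 / 3) = Real.pi / 3 by ring, Real.sin_pi_div_three] at r2
      have g1 : 0 < Real.Gamma (1 / 6) := Real.Gamma_pos_of_pos (by norm_num)
      have g2 : 0 < Real.Gamma (1 - 1 / 6) := Real.Gamma_pos_of_pos (by norm_num)
      have g3 : 0 < Real.Gamma (1 / 3) := Real.Gamma_pos_of_pos (by norm_num)
      have g4 : 0 < Real.Gamma (1 - 1 / 3) := Real.Gamma_pos_of_pos (by norm_num)
      have s3 : 0 < Real.sqrt 3 := Real.sqrt_pos.2 (by norm_num)
      have s33 : Real.sqrt 3 * Real.sqrt 3 = 3 := Real.mul_self_sqrt (by norm_num)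
      unfold bet
      rw [show (1 / 3 + 1 / 2 : ℝ) = 1 - 1 / 6 by norm_num,
        show (1 / 6 + 1 / 2 : ℝ) = 1 - 1 / 3 by norm_num]
      have hpi := Real.pi_pos
      have t : Real.Gamma (1 / 6) * Real.Gamma (1 - 1 / 6) =
          Real.sqrt 3 * (Real.Gamma (1 / 3) * Real.Gamma (1 - 1 / 3)) := by
        rw [r1, r2]
        field_simp
      rw [div_div, div_div, div_eq_div_iff (by positivity) (by positivity)]
      have : Real.Gamma (1 / 3) * Real.Gamma (1 / 2) * (Real.Gamma (1 - 1 / 3) * (2 * 3)) =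
          2 * Real.Gamma (1 / 2) * Real.sqrt 3 *
            (Real.sqrt 3 * (Real.Gamma (1 / 3) * Real.Gamma (1 - 1 / 3))) := by
        linear_combination (-(2 * Real.Gamma (1 / 2) * Real.Gamma (1 / 3) *
          Real.Gamma (1 - 1 / 3))) * s33
      rw [this, ← t]
      ring
    rw [hb, ← h]
    refine setIntegral_congr_fun measurableSet_Ioi fun x hx => ?_
    have hx0 : (0 : ℝ) < x := lt_trans zero_lt_one hx
    have : x ^ (-3 : ℝ) = (x ^ 3)⁻¹ := by
      rw [Real.rpow_neg hx0.le]; norm_num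
    simp only [this]
    congr 2
    field_simp
    ring

end Pool.Agent.QP

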