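import Pool.Agent.QP.StE

/-!
# Quarter periods, block E: facts about the lattice
-/

set_option autoImplicit false

open Complex Filter Topology

namespace Pool.Agent.QP

private lemma ELAT_xy {v : ℝ} {tau : ℂ} (h : AdmL v tau) :
    (tau ^ 2 = -1 ∧ tau.re = 0 ∧ tau.im = 1) ∨
      (tau ^ 2 = -tau - 1 ∧ tau.re = -1 / 2 ∧ tau.im = Real.sqrt 3 / 2) := by
  have him := h.him
  rcases h.htau with h1 | h1
  · left
    refine ⟨h1, ?_⟩
    have hre := congrArg Complex.re h1
    have himm := congrArg Complex.im h1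
    simp only [pow_two, mul_re, mul_im, neg_re, neg_im, one_re, one_im, neg_zero] at hre himm
    have hx : tau.re = 0 := by
      have h2 : tau.re * tau.im = 0 := by linarith
      exact (mul_eq_zero.mp h2).resolve_right him.ne'
    refine ⟨hx, ?_⟩
    rw [hx] at hre
    nlinarith
  · right
    refine ⟨h1, ?_⟩
    have hre := congrArg Complex.re h1
    have himm := congrArg Complex.im h1
    simp only [pow_two, mul_re, mul_im, neg_re, neg_im, one_re, one_im, sub_re, sub_im,
      sub_zero] at hre himm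
    have hx : tau.re = -1 / 2 := by
      have h2 : (2 * tau.re + 1) * tau.im = 0 := by linarith
      have h3 := (mul_eq_zero.mp h2).resolve_right him.ne'
      linarith
    refine ⟨hx, ?_⟩
    rw [hx] at hre
    have h3 : tau.im ^ 2 = 3 / 4 := by nlinarith
    have h4 : (Real.sqrt 3 / 2) ^ 2 = 3 / 4 := by
      rw [div_pow, Real.sq_sqrt (by norm_num)]
      norm_num
    have h5 : (0 : ℝ) ≤ Real.sqrt 3 / 2 := by positivity
    exact (pow_left_inj₀ him.le h5 (by norm_num)).mp (h3.trans h4.symm)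

private lemma ELAT_nsq {v : ℝ} {tau : ℂ} (h : AdmL v tau) : normSq tau = 1 := by
  rw [normSq_apply]
  rcases ELAT_xy h with ⟨_, h1, h2⟩ | ⟨_, h1, h2⟩
  · rw [h1, h2]; norm_num
  · rw [h1, h2]
    have h4 : Real.sqrt 3 * Real.sqrt 3 = 3 := Real.mul_self_sqrt (by norm_num)
    nlinarith

private lemma ELAT_conj {v : ℝ} {tau : ℂ} (h : AdmL v tau) :
    ∃ a b : ℤ, (starRingEnd ℂ) tau = a + b * tau := by
  rcases ELAT_xy h with ⟨_, h1, h2⟩ | ⟨_, h1, h2⟩
  · refine ⟨0, -1, ?_⟩
    apply Complex.ext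
    · simp [h1]
    · simp [h2]
  · refine ⟨-1, -1, ?_⟩
    apply Complex.ext
    · simp [h1]
      norm_num
    · simp [h2]

private lemma ELAT_mem {v : ℝ} {tau : ℂ} (h : AdmL v tau) (z : ℂ) :
    z ∈ (pair v tau h).lattice ↔ ∃ a b : ℤ, z = v * (a + b * tau) := by
  rw [PeriodPair.mem_lattice]
  constructor
  · rintro ⟨m, n, rfl⟩
    refine ⟨m, n, ?_⟩
    show (m : ℂ) * (v : ℂ) + n * (v * tau) = _
    ring
  · rintro ⟨m, n, rfl⟩
    refine ⟨m, n, ?_⟩
    show (m : ℂ) * (v : ℂ) + n * (v * tau) = _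
    ring

private lemma ELAT_unit {v : ℝ} {tau : ℂ} (h : AdmL v tau) :
    tau * (starRingEnd ℂ) tau = 1 := by
  rw [mul_conj, ELAT_nsq h, ofReal_one]

private lemma ELAT_half {v : ℝ} {tau : ℂ} (h : AdmL v tau) : 1 / 2 ≤ tau.im ∧ |tau.re| ≤ 1 / 2 := by
  rcases ELAT_xy h with ⟨_, h1, h2⟩ | ⟨_, h1, h2⟩
  · rw [h1, h2]; norm_num
  · rw [h1, h2]
    have h4 : (1 : ℝ) ≤ Real.sqrt 3 := by
      rw [Real.one_le_sqrt]; norm_num
    constructor
    · linarith
    · rw [abs_le]; constructor <;> norm_num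

private lemma ELAT_norm {v : ℝ} {tau : ℂ} (h : AdmL v tau) (x y : ℝ) :
    normSq ((x : ℂ) + y * tau) = x ^ 2 + 2 * x * y * tau.re + y ^ 2 := by
  have h1 := ELAT_nsq h
  rw [normSq_apply] at h1 ⊢
  simp only [add_re, ofReal_re, mul_re, ofReal_im, zero_mul, sub_zero, add_im, mul_im, add_zero,
    zero_add]
  nlinarith

private lemma ELAT_le {v : ℝ} (hv : 0 < v) {c : ℝ} (hc : 0 ≤ c) {z w : ℂ} (hz : z = v * w)
    (hw : c ^ 2 ≤ normSq w) : v * c ≤ ‖z‖ := by
  rw [hz, norm_mul, Complex.norm_real, Real.norm_of_nonneg hv.le]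
  refine mul_le_mul_of_nonneg_left ?_ hv.le
  rw [normSq_eq_norm_sq] at hw
  exact (pow_le_pow_iff_left₀ hc (norm_nonneg _) (by norm_num)).mp hw

private lemma ELAT_int {n : ℤ} (h : 0 < n) : (1 : ℝ) ≤ n := by exact_mod_cast h

theorem thm_ELAT : St_ELAT := by
  intro v tau h
  have hv := h.hv
  have hvC : (v : ℂ) ≠ 0 := ofReal_ne_zero.mpr hv.ne'
  have hmem := ELAT_mem h
  obtain ⟨c, d, hcd⟩ := ELAT_conj h
  have hun := ELAT_unit h
  refine ⟨?_, ⟨?_, ?_, ⟨c, d, hcd⟩⟩, hmem, ?_, ?_, ?_, ?_, ?_, ?_⟩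
  · rcases ELAT_xy h with ⟨h0, h1, h2⟩ | ⟨h0, h1, h2⟩
    · left
      refine ⟨h0, ?_⟩
      apply Complex.ext
      · simp [h1]
      · simp [h2]
    · right
      refine ⟨h0, ?_⟩
      apply Complex.ext
      · simp [h1]
      · simp [h2]
  · have h1 := ELAT_nsq h
    rw [normSq_eq_norm_sq] at h1
    exact (pow_eq_one_iff_of_nonneg (norm_nonneg tau) two_ne_zero).mp h1
  · exact inv_eq_of_mul_eq_one_right hun
  · -- multiplication by tau
    intro z
    rw [hmem, hmem]
    constructor
    · rintro ⟨a, b, hz⟩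
      refine ⟨a * c + b, a * d, ?_⟩
      have h1 : z = (tau * (starRingEnd ℂ) tau) * z := by rw [hun, one_mul]
      rw [h1, mul_right_comm, hz]
      have h2 : (v : ℂ) * (a + b * tau) * (starRingEnd ℂ) tau =
          v * (a * (starRingEnd ℂ) tau + b * (tau * (starRingEnd ℂ) tau)) := by ring
      rw [h2, hun, hcd]
      push_cast
      ring
    · rintro ⟨a, b, rfl⟩
      rcases h.htau with h1 | h1
      · refine ⟨-b, a, ?_⟩
        push_cast
        linear_combination (v : ℂ) * b * h1
      · refine ⟨-b, a - b, ?_⟩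
        push_cast
        linear_combination (v : ℂ) * b * h1
  · -- conjugation
    have h1 : ∀ z : ℂ, (∃ a b : ℤ, z = v * (a + b * tau)) →
        ∃ a b : ℤ, (starRingEnd ℂ) z = v * (a + b * tau) := by
      rintro z ⟨a, b, rfl⟩
      refine ⟨a + b * c, b * d, ?_⟩
      rw [map_mul, map_add, map_mul, conj_ofReal, map_intCast, map_intCast, hcd]
      push_cast
      ring
    intro z
    rw [hmem, hmem]
    constructor
    · intro h2
      have h3 := h1 _ h2
      rwa [conj_conj] at h3
    · exact h1 z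
  · intro x
    rw [hmem]
    constructor
    · rintro ⟨a, b, hx⟩
      have h1 := congrArg Complex.im hx
      have h2 := congrArg Complex.re hx
      simp only [ofReal_im, mul_im, ofReal_re, add_im, intCast_im, intCast_re, zero_mul, add_zero,
        zero_add, mul_re, add_re, sub_zero] at h1 h2
      have hb : (b : ℝ) = 0 := by
        have h3 : v * ((b : ℝ) * tau.im) = 0 := h1.symm
        have h4 := (mul_eq_zero.mp h3).resolve_left hv.ne'
        exact (mul_eq_zero.mp h4).resolve_right h.him.ne'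
      refine ⟨a, ?_⟩
      rw [hb, zero_mul, add_zero] at h2
      exact h2
    · rintro ⟨a, rfl⟩
      refine ⟨a, 0, ?_⟩
      push_cast
      ring
  · -- the minimal norm
    intro z hz hz0
    obtain ⟨a, b, rfl⟩ := (hmem z).mp hz
    have hab : ¬ (a = 0 ∧ b = 0) := by
      rintro ⟨rfl, rfl⟩
      apply hz0
      simp
    have key : (1 : ℝ) ^ 2 ≤ normSq ((a : ℂ) + b * tau) := by
      have h1 := ELAT_norm h a b
      push_cast at h1
      rw [h1]
      rcases ELAT_xy h with ⟨_, hx, _⟩ | ⟨_, hx, _⟩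
      · rw [hx]
        have h2 : 0 < a ^ 2 + b ^ 2 := by
          by_contra hcon
          apply hab
          constructor <;> nlinarith [sq_nonneg a, sq_nonneg b]
        have h3 := ELAT_int h2
        push_cast at h3
        nlinarith
      · rw [hx]
        have h2 : 0 < a ^ 2 - a * b + b ^ 2 := by
          by_contra hcon
          have h4 : (2 * a - b) ^ 2 + 3 * b ^ 2 ≤ 0 := by nlinarith
          have h5 : b = 0 := by nlinarith [sq_nonneg (2 * a - b), sq_nonneg b]
          have h6 : a = 0 := by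
            rw [h5] at h4
            nlinarith [sq_nonneg a]
          exact hab ⟨h6, h5⟩
        have h3 := ELAT_int h2
        push_cast at h3
        nlinarith
    have := ELAT_le hv zero_le_one (rfl : (v : ℂ) * (a + b * tau) = _) key
    simpa using this
  · -- the distance from the half period
    intro z hz
    obtain ⟨a, b, rfl⟩ := (hmem z).mp hz
    have key : (1 / 2 : ℝ) ^ 2 ≤ normSq (((a - 1 / 2 : ℝ) : ℂ) + (b : ℝ) * tau) := by
      rw [ELAT_norm h]
      rcases ELAT_xy h with ⟨_, hx, _⟩ | ⟨_, hx, _⟩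
      · rw [hx]
        have h2 : 0 < (2 * a - 1) ^ 2 := by
          have h3 : (2 * a - 1) ≠ 0 := by omega
          positivity
        have h3 := ELAT_int h2
        push_cast at h3
        nlinarith [sq_nonneg (b : ℝ)]
      · rw [hx]
        have h2 : 0 < (2 * a - 1 - b) ^ 2 + 3 * b ^ 2 := by
          by_contra hcon
          have h5 : b = 0 := by nlinarith [sq_nonneg (2 * a - 1 - b), sq_nonneg b]
          rw [h5] at hcon
          have h6 : 2 * a - 1 = 0 := by nlinarith [sq_nonneg (2 * a - 1)]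
          omega
        have h3 := ELAT_int h2
        push_cast at h3
        nlinarith
    have h1 := ELAT_le hv (by norm_num : (0 : ℝ) ≤ 1 / 2)
      (z := (v : ℂ) * (a + b * tau) - v / 2) (by push_cast; ring) key
    linarith
  · -- reduction
    intro z
    have hy := ELAT_half h
    have him := h.him
    obtain ⟨u, hu⟩ : ∃ u : ℂ, u = z / v := ⟨_, rfl⟩
    have hz : z = v * u := by rw [hu]; field_simp
    have hun : ‖u‖ = ‖z‖ / v := by
      rw [hu, norm_div, Complex.norm_real, Real.norm_of_nonneg hv.le]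
    obtain ⟨Y, hY⟩ : ∃ Y : ℝ, Y = u.im / tau.im := ⟨_, rfl⟩
    obtain ⟨X, hX⟩ : ∃ X : ℝ, X = u.re - Y * tau.re := ⟨_, rfl⟩
    have hYi : Y * tau.im = u.im := by rw [hY]; field_simp
    have huXY : u = X + Y * tau := by
      apply Complex.ext
      · simp [hX]
      · simp [hYi]
    have hYb : |Y| ≤ 2 * ‖u‖ := by
      have h1 : |Y| * tau.im = |u.im| := by
        rw [← hYi, abs_mul, abs_of_pos him]
      have h2 := abs_im_le_norm u
      nlinarith [abs_nonneg Y]
    have hXb : |X| ≤ 2 * ‖u‖ := by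
      rw [hX]
      have h1 : |u.re - Y * tau.re| ≤ |u.re| + |Y * tau.re| := abs_sub _ _
      have h2 : |Y * tau.re| ≤ |Y| * (1 / 2) := by
        rw [abs_mul]
        exact mul_le_mul_of_nonneg_left hy.2 (abs_nonneg _)
      have h3 := abs_re_le_norm u
      linarith
    have hfl : ∀ x : ℝ, |((⌊x⌋ : ℤ) : ℝ)| ≤ |x| + 1 := by
      intro x
      have h1 := Int.floor_le x
      have h2 := Int.lt_floor_add_one x
      rw [abs_le]
      constructor
      · have := neg_abs_le x; linarith
      · have := le_abs_self x; linarith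
    refine ⟨⌊X⌋, ⌊Y⌋, z - v * (⌊X⌋ + ⌊Y⌋ * tau), by ring, ?_, ?_, ?_⟩
    · have h1 : z - v * (⌊X⌋ + ⌊Y⌋ * tau) =
          v * (((X - ⌊X⌋ : ℝ) : ℂ) + ((Y - ⌊Y⌋ : ℝ) : ℂ) * tau) := by
        rw [hz, huXY]
        push_cast
        ring
      have ht : ‖tau‖ = 1 := by
        have h1 := ELAT_nsq h
        rw [normSq_eq_norm_sq] at h1
        exact (pow_eq_one_iff_of_nonneg (norm_nonneg tau) two_ne_zero).mp h1
      rw [h1, norm_mul, Complex.norm_real, Real.norm_of_nonneg hv.le, mul_comm (2 : ℝ)]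
      refine mul_le_mul_of_nonneg_left ?_ hv.le
      refine (norm_add_le _ _).trans ?_
      rw [norm_mul, ht, mul_one, Complex.norm_real, Complex.norm_real, Real.norm_eq_abs,
        Real.norm_eq_abs]
      have h2 := Int.floor_le X
      have h3 := Int.lt_floor_add_one X
      have h4 := Int.floor_le Y
      have h5 := Int.lt_floor_add_one Y
      rw [abs_of_nonneg (by linarith), abs_of_nonneg (by linarith)]
      linarith
    · rw [← hun]
      have := hfl X
      have := norm_nonneg u
      linarith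
    · rw [← hun]
      have := hfl Y
      have := norm_nonneg u
      linarith

end Pool.Agent.QP
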