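import Pool.Agent.QP.StB

/-!
# Quarter periods, module FNQ: the final theorem (helper43)
-/

set_option autoImplicit false

open MeasureTheory Filter Topology

namespace Pool.Agent.QP

open Pool.Agent.ITR Pool.Agent.Helper23.PeriodDefs

private theorem FNQ_alg (hSAG : Pool.Agent.ITR.St_SAG) {n : ℕ} {f : (Fin n → ℝ) → ℝ}
    (hf : SemialgebraicFun f) (x : Fin n → ℝ) : AlgOver x (f x) := by
  refine hSAG n Set.univ f ?_ x (Set.mem_univ x)
  have h2 : {z : Fin (n + 1) → ℝ | Fin.init z ∈ Set.univ ∧ z (Fin.last n) = f (Fin.init z)} =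
      {z : Fin (n + 1) → ℝ | z (Fin.last n) = f (Fin.init z)} := by
    ext z
    simp
  rw [h2]
  exact hf

private theorem FNQ_aeval (x y : ℝ) (F : MvPolynomial (Fin 2) RealAlg) :
    MvPolynomial.aeval ![x, y] F ∈ Algebra.adjoin RealAlg ({x, y} : Set ℝ) := by
  have h1 : Set.range (![x, y] : Fin 2 → ℝ) = {x, y} := by
    ext t
    simp only [Set.mem_range, Set.mem_insert_iff, Set.mem_singleton_iff]
    constructor
    · rintro ⟨i, rfl⟩
      fin_cases i
      · exact Or.inl rfl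
      · exact Or.inr rfl
    · rintro (rfl | rfl)
      · exact ⟨0, rfl⟩
      · exact ⟨1, rfl⟩
  rw [← h1, Algebra.adjoin_range_eq_range_aeval]
  exact ⟨F, rfl⟩

private theorem FNQ_gen (hEXQ : St_EXQ) (N : ℕ) (hN : N = 4 ∨ N = 6) :
    per N ∈ quarterRing N ∧ qer N ∈ quarterRing N := by
  have key : ∀ u v : ℕ, 0 < u → u < N → 0 < v → v < N →
      bet (1 - (u : ℝ) / N) (1 - (v : ℝ) / N) ∈ quarterRing N := by
    intro u v h1 h2 h3 h4
    obtain ⟨f, hf, hi, he⟩ := hEXQ N hN u v h1 h2 h3 h4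
    exact Algebra.subset_adjoin ⟨1, 0, 0, f, hf, hi, he.symm⟩
  rcases hN with rfl | rfl
  · constructor
    · have h := key 3 2 (by norm_num) (by norm_num) (by norm_num) (by norm_num)
      have e1 : (1 : ℝ) - ((3 : ℕ) : ℝ) / ((4 : ℕ) : ℝ) = 1 / 4 := by norm_num
      have e2 : (1 : ℝ) - ((2 : ℕ) : ℝ) / ((4 : ℕ) : ℝ) = 1 / 2 := by norm_num
      rw [e1, e2] at h
      have e3 : per 4 = bet (1 / 4) (1 / 2) := if_pos rfl
      rw [e3]
      exact h
    · have h := key 1 2 (by norm_num) (by norm_num) (by norm_num) (by norm_num)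
      have e1 : (1 : ℝ) - ((1 : ℕ) : ℝ) / ((4 : ℕ) : ℝ) = 3 / 4 := by norm_num
      have e2 : (1 : ℝ) - ((2 : ℕ) : ℝ) / ((4 : ℕ) : ℝ) = 1 / 2 := by norm_num
      rw [e1, e2] at h
      have e3 : qer 4 = bet (3 / 4) (1 / 2) := if_pos rfl
      rw [e3]
      exact h
  · constructor
    · have h := key 4 3 (by norm_num) (by norm_num) (by norm_num) (by norm_num)
      have e1 : (1 : ℝ) - ((4 : ℕ) : ℝ) / ((6 : ℕ) : ℝ) = 1 / 3 := by norm_num
      have e2 : (1 : ℝ) - ((3 : ℕ) : ℝ) / ((6 : ℕ) : ℝ) = 1 / 2 := by norm_num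
      rw [e1, e2] at h
      have e3 : per 6 = bet (1 / 3) (1 / 2) := if_neg (by norm_num)
      rw [e3]
      exact h
    · have h := key 2 3 (by norm_num) (by norm_num) (by norm_num) (by norm_num)
      have e1 : (1 : ℝ) - ((2 : ℕ) : ℝ) / ((6 : ℕ) : ℝ) = 2 / 3 := by norm_num
      have e2 : (1 : ℝ) - ((3 : ℕ) : ℝ) / ((6 : ℕ) : ℝ) = 1 / 2 := by norm_num
      rw [e1, e2] at h
      have e3 : qer 6 = bet (2 / 3) (1 / 2) := if_neg (by norm_num)
      rw [e3]
      exact h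

private theorem FNQ_deg (a : RealAlg) (i j : Fin 2) (hij : i ≠ j) :
    MvPolynomial.degreeOf i (MvPolynomial.C a * MvPolynomial.X j :
      MvPolynomial (Fin 2) RealAlg) = 0 := by
  have h1 := MvPolynomial.degreeOf_mul_le i (MvPolynomial.C a : MvPolynomial (Fin 2) RealAlg)
    (MvPolynomial.X j)
  rw [MvPolynomial.degreeOf_C, MvPolynomial.degreeOf_X_of_ne hij] at h1
  omega

theorem thm_FNQ (hInd : Indep) (hIDQ : St_IDQ) (hUNQ : St_UNQ) (hINQ : St_INQ) (hEXQ : St_EXQ)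
    (hPIQ : St_PIQ) (hSAG : Pool.Agent.ITR.St_SAG) : St_FNQ := by
  intro N hN
  obtain ⟨⟨a, ha, hπ⟩, hw, hh⟩ := hPIQ N hN
  have h1 : ∀ (n i j : ℕ) (f : (Fin n → ℝ) → ℝ), SemialgebraicFun f → Iter N n i j f →
      ∃ F : MvPolynomial (Fin 2) RealAlg, F.degreeOf 0 ≤ n + i ∧ F.degreeOf 1 ≤ n + j ∧
        ∫ x, f x = MvPolynomial.aeval ![per N, qer N] F := by
    intro n i j f hf hi
    refine hINQ N hN n i j f hi 0 (Nat.zero_le _) 0 (Nat.zero_le _)
      (Filter.Eventually.of_forall fun x => ?_)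
    rw [pow_zero, pow_zero, mul_one, div_one]
    exact FNQ_alg hSAG hf x
  have h2 := hIDQ hInd N hN
  obtain ⟨hw4, hh4⟩ := FNQ_gen hEXQ N hN
  have h3 : quarterRing N = Algebra.adjoin RealAlg {per N, qer N} := by
    apply le_antisymm
    · refine Algebra.adjoin_le ?_
      rintro v ⟨n, i, j, f, hf, hi, rfl⟩
      obtain ⟨F, -, -, hF⟩ := h1 n i j f hf hi
      show ∫ x, f x ∈ Algebra.adjoin RealAlg {per N, qer N}
      rw [hF]
      exact FNQ_aeval _ _ F
    · refine Algebra.adjoin_le ?_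
      intro v hv
      rcases hv with rfl | hv
      · exact hw4
      · rw [Set.mem_singleton_iff.1 hv]
        exact hh4
  obtain ⟨hU1, hU2⟩ := hUNQ _ _ h2
  have h4 : ∀ r ∈ quarterRing N, r ≠ 0 → r⁻¹ ∈ quarterRing N → ∃ a : RealAlg, r = a := by
    intro r hr h0 hr'
    rw [h3] at hr hr'
    exact hU1 r hr h0 hr'
  have hπ4 : Real.pi ∈ quarterRing N := by
    rw [hπ]
    exact (quarterRing N).mul_mem ((quarterRing N).algebraMap_mem a)
      ((quarterRing N).mul_mem hw4 hh4)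
  refine ⟨h1, h2, h3, h4, ⟨fun h => ?_, fun h => ?_, fun h => ?_⟩, ?_⟩
  · obtain ⟨b, hb⟩ := h4 _ hπ4 Real.pi_ne_zero h
    have e := hU2 (MvPolynomial.C b) a 1 ha (by
      rw [MvPolynomial.aeval_C, pow_one, ← hπ, hb]
      rfl)
    rw [MvPolynomial.degreeOf_C] at e
    exact absurd e.1 (by norm_num)
  · obtain ⟨b, hb⟩ := h4 _ hw4 hw.ne' h
    have e := hU2 (MvPolynomial.C b * MvPolynomial.X 1) 1 1 one_ne_zero (by
      rw [map_mul, MvPolynomial.aeval_C, MvPolynomial.aeval_X, pow_one]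
      show (b : ℝ) * qer N = ((1 : RealAlg) : ℝ) * (per N * qer N)
      rw [← hb]
      simp)
    rw [FNQ_deg b 0 1 (by decide)] at e
    exact absurd e.1 (by norm_num)
  · obtain ⟨b, hb⟩ := h4 _ hh4 hh.ne' h
    have e := hU2 (MvPolynomial.C b * MvPolynomial.X 0) 1 1 one_ne_zero (by
      rw [map_mul, MvPolynomial.aeval_C, MvPolynomial.aeval_X, pow_one]
      show (b : ℝ) * per N = ((1 : RealAlg) : ℝ) * (per N * qer N)
      rw [← hb]
      simp [mul_comm])
    rw [FNQ_deg b 1 0 (by decide)] at e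
    exact absurd e.2 (by norm_num)
  · intro n l f hf hi hl
    obtain ⟨F, hF0, -, hF⟩ := h1 n 0 0 f hf hi
    have e := hU2 F (a ^ l) l (pow_ne_zero _ ha) (by
      rw [← hF, hl, hπ, mul_pow]
      norm_cast)
    omega

end Pool.Agent.QP
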