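import Pool.Agent.QP.DefsE

/-!
# Quarter periods, block E (elliptic functions): the statements

Every `def St_EX : Prop` is a module `QP/EX.lean` with `theorem thm_EX (h : St_EY) .. : St_EX`
(cite the other statements as hypotheses, do not import their modules; auxiliary lemmas private).
The aim is `St_EDAT`: the structures `Dat` for `τ = i` and `τ = ρ = exp (2 π i / 3)`.

Mathlib has `℘ = L.weierstrassP`, `℘' = L.derivWeierstrassP`, `L.deriv_weierstrassP`,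
`L.weierstrassPExcept`, `L.weierstrassP_add_coe`, `L.weierstrassP_neg`, `L.derivWeierstrassP_neg`,
`L.derivWeierstrassP_add_coe`, `L.derivWeierstrassP_sq` (the differential equation),
`L.analyticOnNhd_weierstrassP`, `L.hasSumLocallyUniformly_aux`, `L.G`, `L.g₂ = 60 G₄`,
`L.g₃ = 140 G₆` in `Mathlib/Analysis/SpecialFunctions/Elliptic/Weierstrass.lean`. In the proofs
`ζ = zet L`, `\bar τ` is the complex conjugate.
-/

set_option autoImplicit false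

open Complex Filter Topology

namespace Pool.Agent.QP

/-! ### 1. The lattice -/

/-- [ELAT]: facts about the lattice.
Proof. `τ ^ 2 = -1` gives `τ = i` and `τ ^ 2 = - τ - 1` gives `τ = - 1 / 2 + (√3 / 2) i`
(`Im τ > 0`); so `|τ| = 1`, `τ⁻¹ = \bar τ`, `\bar τ = - τ` or `- 1 - τ`. `|a + b τ| ^ 2` is
`a ^ 2 + b ^ 2` or `a ^ 2 - a b + b ^ 2`, a positive integer for `(a, b) ≠ 0`. Distance from
`v / 2`: `|a + b τ - 1 / 2|` is at least `|a - 1 / 2| ≥ 1 / 2` for `b = 0` and at least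
`|b| Im τ ≥ √3 / 2` otherwise. Last part: `z / v = x + y τ` with `x, y` real, `y = Im (z / v) / Im τ`,
`a := ⌊x⌋`, `b := ⌊y⌋`; `|y| ≤ 1.16 |z / v|`, `|x| ≤ |z / v| + |y| / 2`. -/
def St_ELAT : Prop :=
  ∀ (v : ℝ) (tau : ℂ) (h : AdmL v tau),
    ((tau ^ 2 = -1 ∧ tau = I) ∨
      (tau ^ 2 = -tau - 1 ∧ tau = -1 / 2 + (Real.sqrt 3 / 2 : ℝ) * I)) ∧
    (‖tau‖ = 1 ∧ tau⁻¹ = (starRingEnd ℂ) tau ∧
      ∃ a b : ℤ, (starRingEnd ℂ) tau = a + b * tau) ∧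
    (∀ z, z ∈ (pair v tau h).lattice ↔ ∃ a b : ℤ, z = v * (a + b * tau)) ∧
    (∀ z, tau * z ∈ (pair v tau h).lattice ↔ z ∈ (pair v tau h).lattice) ∧
    (∀ z, (starRingEnd ℂ) z ∈ (pair v tau h).lattice ↔ z ∈ (pair v tau h).lattice) ∧
    (∀ x : ℝ, (x : ℂ) ∈ (pair v tau h).lattice ↔ ∃ a : ℤ, x = v * a) ∧
    (∀ z ∈ (pair v tau h).lattice, z ≠ 0 → v ≤ ‖z‖) ∧
    (∀ z ∈ (pair v tau h).lattice, v / 2 ≤ ‖z - v / 2‖) ∧
    ∀ z : ℂ, ∃ (a b : ℤ) (w : ℂ), z = w + v * (a + b * tau) ∧ ‖w‖ ≤ 2 * v ∧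
      |(a : ℝ)| ≤ 3 * (1 + ‖z‖ / v) ∧ |(b : ℝ)| ≤ 3 * (1 + ‖z‖ / v)

/-- [ECON]: the complement of the lattice.
Proof. The lattice is countable and closed (`L.isClosed_lattice`):
`Set.Countable.isPathConnected_compl_of_one_lt_rank`, `Set.Countable.dense_compl`,
`IsOpen.is_const_of_deriv_eq_zero`. Identity theorem:
`AnalyticOnNhd.eqOn_of_preconnected_of_eventuallyEq`. -/
def St_ECON : Prop :=
  ∀ L : PeriodPair, IsOpen ((L.lattice : Set ℂ)ᶜ) ∧ IsPreconnected ((L.lattice : Set ℂ)ᶜ) ∧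
    Dense ((L.lattice : Set ℂ)ᶜ) ∧
    (∀ f : ℂ → ℂ, (∀ z, z ∉ L.lattice → HasDerivAt f 0 z) →
      ∀ z, z ∉ L.lattice → ∀ w, w ∉ L.lattice → f z = f w) ∧
    ∀ f : ℂ → ℂ, (∀ z, z ∉ L.lattice → DifferentiableAt ℂ f z) → ∀ z₀, z₀ ∉ L.lattice →
      (∀ᶠ z in 𝓝 z₀, f z = 0) → ∀ z, z ∉ L.lattice → f z = 0

/-! ### 2. The function `ζ` -/

/-- [EZET]: the series for `ζ`.
Proof. As in Mathlib for `weierstrassPExcept`. `1 / (z - l) + 1 / l + z / l ^ 2 =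
z ^ 2 / (l ^ 2 (z - l))` for `l ≠ 0`, `z ≠ l`, so for `‖z‖ < r`, `‖l‖ ≥ 2 r` the norm of the term is at
most `2 r ^ 2 ‖l‖ ^ (-3)`: `L.hasSumLocallyUniformly_aux`, `ZLattice.summable_norm_rpow`. Parts two and
three: the sum of the exceptional terms is finite (`L.weierstrassPExcept_add`). Differentiability:
`HasSumLocallyUniformlyOn.differentiableOn`. The derivative of a term is
`- (1 / (z - l) ^ 2 - 1 / l ^ 2)`; derivative of `ζ`: as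
`eqOn_deriv_weierstrassPExcept_derivWeierstrassPExcept` (`TendstoLocallyUniformlyOn.deriv`,
`L.hasSumLocallyUniformly_weierstrassP`). -/
def St_EZET : Prop :=
  ∀ L : PeriodPair,
    (∀ z : ℂ, Summable fun l : L.lattice => (1 / (z - l) + 1 / l + z / l ^ 2 : ℂ)) ∧
    (∀ l₀ ∈ L.lattice, ∀ z : ℂ,
      zet L z = zetE L l₀ l₀ z + (1 / (z - l₀) + 1 / l₀ + z / l₀ ^ 2)) ∧
    (∀ l₀ ∈ L.lattice, ∀ l₁ ∈ L.lattice, l₀ ≠ l₁ → ∀ z : ℂ,
      zet L z = zetE L l₀ l₁ z + (1 / (z - l₀) + 1 / l₀ + z / l₀ ^ 2) +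
        (1 / (z - l₁) + 1 / l₁ + z / l₁ ^ 2)) ∧
    (∀ l₀ l₁ z : ℂ, (z ∈ L.lattice → z = l₀ ∨ z = l₁) → DifferentiableAt ℂ (zetE L l₀ l₁) z) ∧
    ∀ z, z ∉ L.lattice → HasDerivAt (zet L) (-L.weierstrassP z) z

/-- [ESYM]: the symmetries.
Proof. Change of the summation index `l ↦ - l`, `l ↦ τ l`, `l ↦ \bar l` (`Equiv.tsum_eq`,
`tsum_mul_left`, `Complex.conj_tsum`); by [ELAT] these are bijections of the lattice. For example
`1 / (τ z - τ l) + 1 / (τ l) + τ z / (τ l) ^ 2 = τ⁻¹ (1 / (z - l) + 1 / l + z / l ^ 2)`. -/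
def St_ESYM : Prop :=
  (∀ (L : PeriodPair) (z : ℂ), zet L (-z) = -zet L z) ∧
  ∀ (v : ℝ) (tau : ℂ) (h : AdmL v tau),
    (∀ z : ℂ, zet (pair v tau h) (tau * z) = tau⁻¹ * zet (pair v tau h) z) ∧
    (∀ z : ℂ, (pair v tau h).weierstrassP (tau * z) =
      (tau ^ 2)⁻¹ * (pair v tau h).weierstrassP z) ∧
    (∀ z : ℂ, zet (pair v tau h) ((starRingEnd ℂ) z) = (starRingEnd ℂ) (zet (pair v tau h) z)) ∧
    (∀ z : ℂ, (pair v tau h).weierstrassP ((starRingEnd ℂ) z) =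
      (starRingEnd ℂ) ((pair v tau h).weierstrassP z)) ∧
    (∀ z : ℂ, (pair v tau h).derivWeierstrassP ((starRingEnd ℂ) z) =
      (starRingEnd ℂ) ((pair v tau h).derivWeierstrassP z)) ∧
    (∀ n : ℕ, tau ^ n * (pair v tau h).G n = (pair v tau h).G n) ∧
    ∀ n : ℕ, (starRingEnd ℂ) ((pair v tau h).G n) = (pair v tau h).G n

/-- [EQPD]: the quasi-periods.
Proof. Let `l` be in the lattice. `z ↦ ζ (z + l) - ζ z` has derivative `- ℘ (z + l) + ℘ z = 0` outside the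
lattice, so by [ECON] it is a constant `E l` there. `E (l + l') = E l + E l'` (apply it at `z` and
`z + l`), so `E (v (a + b τ)) = a E v + b E (v τ)`. By [ESYM]
`ζ (τ z + τ l) - ζ (τ z) = τ⁻¹ (ζ (z + l) - ζ z)`, so `E (τ v) = τ⁻¹ E v = \bar τ E v` ([ELAT]). For
`z = - v / 2`: `E v = ζ (v / 2) - ζ (- v / 2) = 2 ζ (v / 2)` (`v / 2` is not in the lattice), and this
is real ([ESYM]): `η := (E v).re`. -/
def St_EQPD : Prop :=
  ∀ (v : ℝ) (tau : ℂ) (h : AdmL v tau), ∃ eta : ℝ, Eta v tau h eta ∧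
    zet (pair v tau h) (v / 2) = eta / 2

/-! ### 3. The relation of Legendre -/

/-- [ERCT]: the integral of `1 / (z - c)` over the boundary of a rectangle around `c`.
Proof. Translate to `c = 0` (`intervalIntegral.integral_comp_sub_right`): `x₀ < 0 < x₁`,
`y₀ < 0 < y₁`. `1 / (x + i y) = x / (x ^ 2 + y ^ 2) - i y / (x ^ 2 + y ^ 2)` has the primitive
`log (x ^ 2 + y ^ 2) / 2 - i arctan (x / y)` in `x` and
`1 / i * (log (x ^ 2 + y ^ 2) / 2) + arctan (y / x)` in `y`. The logarithms cancel; the four sides give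
`i (arctan (x₁ / |y₀|) + arctan (|x₀| / |y₀|))` and so on, and `arctan t + arctan (1 / t) = π / 2` for
`t > 0` is used for the four corners. -/
def St_ERCT : Prop :=
  ∀ (x₀ x₁ y₀ y₁ : ℝ) (c : ℂ), x₀ < c.re → c.re < x₁ → y₀ < c.im → c.im < y₁ →
    rect (fun z => 1 / (z - c)) x₀ x₁ y₀ y₁ = 2 * Real.pi * I

/-- [ELEG4]: Legendre's relation for `τ = i`.
Proof. Rectangle `[- v / 2, v / 2] ^ 2`. `ζ z = zetE L 0 0 z + 1 / z`, `zetE L 0 0` is differentiable in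
the closed rectangle (`0` is the only point of the lattice in it: `|z| ≤ v / √2 < v`), so by
`Complex.integral_boundary_rect_eq_zero_of_differentiableOn` and [ERCT] (all functions are
continuous on the boundary) `rect ζ = 2 π i`. On the other hand
`ζ (x - i v / 2) - ζ (x + i v / 2) = - η * \bar i = i η` (`Eta` for `(a, b) = (0, 1)`) and
`ζ (v / 2 + i y) - ζ (- v / 2 + i y) = η`, so `rect ζ = i η v + i η v`. The points of the boundary are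
not in the lattice. -/
def St_ELEG4 : Prop :=
  ∀ (v : ℝ) (tau : ℂ) (h : AdmL v tau) (eta : ℝ), tau ^ 2 = -1 → Eta v tau h eta →
    v * eta * tau.im = Real.pi

/-- [ELEG6]: Legendre's relation for `τ = ρ`.
Proof. `s := √3`. `i s v = v (1 + 2 ρ)` is in the lattice, `Eta` gives the quasi-period
`η (1 + 2 \bar ρ) = - i s η`. Rectangle `[- v / 4, 3 v / 4] × [- s v / 4, 3 s v / 4]`: the points
`v (a + b ρ)` in it have `b s / 2 ∈ [- s / 4, 3 s / 4]`, so `b ∈ {0, 1}`, and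
`a - b / 2 ∈ [- 1 / 4, 3 / 4]`: these are `0` and `c := v (1 + ρ)`, in the interior.
`ζ z = zetE L 0 c z + 1 / z + (1 / (z - c) + 1 / c + z / c ^ 2)`, `zetE L 0 c` and `1 / c + z / c ^ 2` are
differentiable in the closed rectangle, so `rect ζ = 4 π i` as in [ELEG4]. On the other hand
`rect ζ = i s η v` (horizontal sides) `+ i η s v` (vertical sides). So `v η s = 2 π`,
`Im ρ = s / 2`. -/
def St_ELEG6 : Prop :=
  ∀ (v : ℝ) (tau : ℂ) (h : AdmL v tau) (eta : ℝ), tau ^ 2 = -tau - 1 → Eta v tau h eta →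
    v * eta * tau.im = Real.pi

/-! ### 4. The denominator -/

/-- [ETHT]: the theta function.
Proof. `w := z / v + (1 + τ) / 2`. Differentiable: `differentiableAt_jacobiTheta₂_fst`. The second part
by induction on `b` (both signs) from `jacobiTheta₂_add_left`, `jacobiTheta₂_add_left'`:
`θ (w + τ) = exp (- π i (τ + 2 w)) θ w`. `tht 0 = θ (w₀)`, `w₀ = (1 + τ) / 2`; `θ w₀ = θ (- w₀)` and
`θ w₀ = θ (- w₀ + 1 + τ) = exp (- π i (τ - 2 w₀)) θ (- w₀) = exp (π i) θ w₀`, so it is `0`, and `0` on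
the lattice by the second part. `tht (v / 2) = θ (1 + τ / 2) = θ (τ / 2)
= ∑ n, exp (π i τ (n ^ 2 + n))`; the terms `n = 0`, `n = - 1` are `1`; for `n = m`, `n = - 1 - m`,
`m ≥ 1` the norm is `exp (- π Im τ m (m + 1)) ≤ exp (- 5 m) `, `Im τ ≥ √3 / 2`, so the sum of the
others is at most `2 * ∑_(m ≥ 1) exp (- 5 m) < 1`. Last part:
`log ‖mult b z‖ = π (b ^ 2 Im τ + 2 b (Im z / v + Im τ / 2))`, `|..| ≤ π (b ^ 2 + 5 |b|)`. -/
def St_ETHT : Prop :=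
  ∀ (v : ℝ) (tau : ℂ) (h : AdmL v tau),
    Differentiable ℂ (tht v tau) ∧
    (∀ (a b : ℤ) (z : ℂ), tht v tau (z + v * (a + b * tau)) = mult v tau b z * tht v tau z) ∧
    (∀ z ∈ (pair v tau h).lattice, tht v tau z = 0) ∧
    tht v tau (v / 2) ≠ 0 ∧
    ∃ K : ℝ, 0 ≤ K ∧ ∀ (b : ℤ) (z : ℂ), ‖z‖ ≤ 2 * v →
      ‖mult v tau b z‖ ≤ Real.exp (K * (1 + (b : ℝ) ^ 2)) ∧
      Real.exp (-(K * (1 + (b : ℝ) ^ 2))) ≤ ‖mult v tau b z‖

/-- [EENT]: `g ^ 2 ℘` and `g ζ` are entire.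
Proof. `A z := if z ∈ L then (deriv g z) ^ 2 else g z ^ 2 * ℘ z`,
`B z := if z ∈ L then deriv g z else g z * ζ z`. Outside the lattice clear. Near `l₀ ∈ L` let
`k := dslope g l₀` (differentiable, `g z = (z - l₀) k z`, `k l₀ = deriv g l₀`). For `z ≠ l₀` near `l₀`
`℘ z = weierstrassPExcept l₀ z + 1 / (z - l₀) ^ 2 - 1 / l₀ ^ 2` (`L.weierstrassPExcept_add`), so
`A z = k z ^ 2 (1 + (z - l₀) ^ 2 (weierstrassPExcept l₀ z - 1 / l₀ ^ 2))`, also for `z = l₀`; the same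
with `ζ = zetE l₀ l₀ + ..` ([EZET]) for `B`. -/
def St_EENT : Prop :=
  ∀ (L : PeriodPair) (g : ℂ → ℂ), Differentiable ℂ g → (∀ z ∈ L.lattice, g z = 0) →
    (∃ A : ℂ → ℂ, Differentiable ℂ A ∧ ∀ z, z ∉ L.lattice → A z = g z ^ 2 * L.weierstrassP z) ∧
    ∃ B : ℂ → ℂ, Differentiable ℂ B ∧ ∀ z, z ∉ L.lattice → B z = g z * zet L z

/-- [EGAB]: growth of the entire functions.
Proof. `g := tht v τ`, `A`, `B` from [EENT]. For `l = v (a + b τ)` and all `z`: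
`g (z + l) = J g z`, `A (z + l) = J ^ 2 A z`, `B (z + l) = J (B z + η (a + b \bar τ) g z)`,
`J = mult b z`: outside the lattice from [ETHT], `℘ (z + l) = ℘ z`, `Eta`; everywhere because both
sides are continuous and the complement of the lattice is dense ([ECON]). `g, A, B` are bounded on
`‖w‖ ≤ 2 v` (compact). Let `z = w + v (a + b τ)` as in [ELAT]: `‖g z‖ ≤ exp (K (1 + b ^ 2)) M`,
`‖A z‖ ≤ exp (2 K (1 + b ^ 2)) M`, `‖B z‖ ≤ exp (K (1 + b ^ 2)) M (1 + |η| (|a| + |b|))`,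
`|a|, |b| ≤ 3 (1 + ‖z‖ / v)`. Lower bound: `g (v / 2) ≠ 0`, so there are `ε < v / 2`, `m > 0` with
`‖g (v / 2 + s)‖ ≥ m` for `‖s‖ ≤ ε`; for `z = v / 2 + s + v (a + b τ)`
`‖g z‖ ≥ exp (- K (1 + b ^ 2)) m` and `|b| ≤ C (1 + ‖z‖)` (`b = Im (z - v / 2 - s) / (v Im τ)`). One
constant `C` for all. -/
def St_EGAB : Prop :=
  ∀ (v : ℝ) (tau : ℂ) (h : AdmL v tau) (eta : ℝ), Eta v tau h eta →
    ∃ (A B : ℂ → ℂ) (C eps : ℝ), 1 ≤ C ∧ 0 < eps ∧ eps < v / 2 ∧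
      Differentiable ℂ A ∧ Differentiable ℂ B ∧
      (∀ z, z ∉ (pair v tau h).lattice →
        A z = tht v tau z ^ 2 * (pair v tau h).weierstrassP z) ∧
      (∀ z, z ∉ (pair v tau h).lattice → B z = tht v tau z * zet (pair v tau h) z) ∧
      (∀ z : ℂ, ‖tht v tau z‖ ≤ Real.exp (C * (1 + ‖z‖ ^ 2))) ∧
      (∀ z : ℂ, ‖A z‖ ≤ Real.exp (C * (1 + ‖z‖ ^ 2))) ∧
      (∀ z : ℂ, ‖B z‖ ≤ Real.exp (C * (1 + ‖z‖ ^ 2))) ∧
      ∀ (a b : ℤ) (s : ℂ), ‖s‖ ≤ eps →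
        Real.exp (-(C * (1 + ‖(v / 2 + v * (a + b * tau) + s : ℂ)‖ ^ 2))) ≤
          ‖tht v tau (v / 2 + v * (a + b * tau) + s)‖

/-! ### 5. The differential equation and the real period -/

/-- [EODE]: the second derivative of `℘`.
Proof. Outside of the lattice `℘'` is analytic; differentiate `℘' ^ 2 = 4 ℘ ^ 3 - g₂ ℘ - g₃`:
`℘' (2 ℘'' - 12 ℘ ^ 2 + g₂) = 0`. If the second factor is not `0` at some point then it is not `0`
near it, so `℘' = 0` near it, so `℘' = 0` outside of the lattice ([ECON]), `℘` is constant there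
([ECON]), but `℘ z = weierstrassPExcept 0 z + 1 / z ^ 2` is unbounded near `0`. -/
def St_EODE : Prop :=
  ∀ (L : PeriodPair) (z : ℂ), z ∉ L.lattice →
    HasDerivAt L.derivWeierstrassP (6 * L.weierstrassP z ^ 2 - L.g₂ / 2) z

/-- [EPOS4]: `G₄ > 0` for the lattice `ℤ[i]`.
Proof. It is real by [ESYM]. It is the sum over `(m, n) ∈ ℤ ^ 2` of `(m + n i) ^ (-4)`
(`L.latticeEquivProd`, the term of `0` is `0`). The terms with `|m|, |n| ≤ 1` give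
`4 - 4 / 4 = 3`. The norm of the sum of the others is less than `3`: for example
`|m + n i| ^ 4 ≥ 4 m ^ 2 n ^ 2` and `ζ(2) ^ 2 - 1 + 4 (ζ(4) - 1) < 3` (`hasSum_zeta_two`,
`hasSum_zeta_four`), or with the `8 k` pairs with `max (|m|, |n|) = k` (`Int.card_box`) and
`∑_(k ≥ 2) 8 k / k ^ 4 ≤ 2`. -/
def St_EPOS4 : Prop :=
  ∀ (tau : ℂ) (h : AdmL 1 tau), tau ^ 2 = -1 → ∃ r : ℝ, 0 < r ∧ (pair 1 tau h).G 4 = r

/-- [EPOS6]: `G₆ > 0` for the lattice `ℤ[ρ]`.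
Proof. As [EPOS4]. `(m + n ρ) ^ 6 = 1` for the six pairs `± (1, 0), ± (0, 1), ± (1, 1)` and `- 27` for
`± (1, -1)`. `|m + n ρ| ^ 2 = m ^ 2 - m n + n ^ 2 ≥ (m ^ 2 + n ^ 2) / 2 ≥ |m n|`, so the norm of the sum
of the other terms is at most `4 ((1 + t) ^ 2 - 1)` (both not `0`, `|m + n ρ| ^ 6 ≥ |m n| ^ 3`) plus
`4 t` (one of them `0`), `t = ∑_(k ≥ 2) k ^ (-3) ≤ 1 / 4`
(`k ^ (-3) ≤ (1 / (k (k - 1)) - 1 / (k (k + 1))) / 2`); `6 - 2 / 27 - 9 / 4 - 1 > 0`. -/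
def St_EPOS6 : Prop :=
  ∀ (tau : ℂ) (h : AdmL 1 tau), tau ^ 2 = -tau - 1 → ∃ r : ℝ, 0 < r ∧ (pair 1 tau h).G 6 = r

/-- [ESCA]: the normalised lattices.
Proof. `G n` of the lattice `v (ℤ + ℤ τ)` is `v ^ (-n)` times `G n` of `ℤ + ℤ τ` (change of the summation
index). `τ = i`: `G₆ = 0` since `τ ^ 6 = - 1` ([ESYM]), `v := (15 r) ^ (1 / 4)` gives
`g₂ = 60 r / v ^ 4 = 4`. `τ = ρ`: `G₄ = 0` since `τ ^ 4 = τ ≠ 1`, `v := (35 r) ^ (1 / 6)` gives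
`g₃ = 140 r / v ^ 6 = 4`. -/
def St_ESCA : Prop :=
  (∃ (v : ℝ) (tau : ℂ) (h : AdmL v tau), tau ^ 2 = -1 ∧ (pair v tau h).g₂ = 4 ∧
    (pair v tau h).g₃ = 0) ∧
  ∃ (v : ℝ) (tau : ℂ) (h : AdmL v tau), tau ^ 2 = -tau - 1 ∧ (pair v tau h).g₂ = 0 ∧
    (pair v tau h).g₃ = 4

/-- [EPRA]: `℘` on the interval `(0, v / 2)`.
Proof. `p x := (℘ x).re`, `q x := (℘' x).re`; `℘`, `℘'` are real on the real axis by [ESYM];
`(0, v)` does not meet the lattice ([ELAT]); derivatives by `HasDerivAt.real_of_complex`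
(`L.deriv_weierstrassP`, [EODE]). `f y := 4 y ^ 3 - c₂ y - c₃` is `< 0` for `0 < y < 1`, `0` for `y = 1`,
`> 0` for `y > 1`. `p x = (weierstrassPExcept 0 x).re + 1 / x ^ 2 → + ∞` for `x → 0+`. `q (v / 2) = 0`, as
`℘'` is odd and periodic. Let `x₁` be the least zero of `q` in `(0, v / 2]` (`q → - ∞` for `x → 0+`:
`℘' = derivWeierstrassPExcept 0 - 2 / x ^ 3`). `q < 0` on `(0, x₁)`, `p` is decreasing on `(0, x₁]`. `p ≥ 1`
there: otherwise `p` takes on `(0, x₁]` a value `y ∈ (0, 1)`, and `f y = q ^ 2 ≥ 0`, no. `f (p x₁) = 0`, so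
`p x₁ = 1`. Suppose `x₁ < v / 2`. `(p (x₁ + t), q (x₁ + t))` and `(p (x₁ - t), - q (x₁ - t))` are
solutions of `Y' = (Y₂, 6 Y₁ ^ 2 - c₂ / 2)` on `[0, T]` for every `T < x₁`, with the same value `(1, 0)`
at `0` (`2 x₁ < v`), so they are equal (`ODE_solution_unique_of_mem_Icc_right`). For `t → x₁` the
first component tends to `p (2 x₁)` for the first one and to `+ ∞` for the second one. So
`x₁ = v / 2`. -/
def St_EPRA : Prop :=
  ∀ (v : ℝ) (tau : ℂ) (h : AdmL v tau) (c₂ c₃ : ℝ), (pair v tau h).g₂ = c₂ →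
    (pair v tau h).g₃ = c₃ → ((c₂ = 4 ∧ c₃ = 0) ∨ (c₂ = 0 ∧ c₃ = 4)) → ∃ p q : ℝ → ℝ,
    (∀ x : ℝ, (pair v tau h).weierstrassP x = p x ∧ (pair v tau h).derivWeierstrassP x = q x) ∧
    (∀ x ∈ Set.Ioo 0 v, HasDerivAt p (q x) x ∧ q x ^ 2 = 4 * p x ^ 3 - c₂ * p x - c₃) ∧
    (∀ x ∈ Set.Ioo 0 (v / 2), q x < 0) ∧ Tendsto p (𝓝[>] 0) atTop ∧ p (v / 2) = 1 ∧
    q (v / 2) = 0

/-- [EPRB]: the real period as an integral. (The function `p` is `℘` of [EPRA].)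
Proof. `p` is a strictly decreasing bijection from `(0, w)` onto `(1, ∞)`;
`MeasureTheory.integral_image_eq_integral_abs_deriv_smul` for `s = Ioo 0 w`:
`|q x| / √(q x ^ 2) = 1`. -/
def St_EPRB : Prop :=
  ∀ (w c₂ c₃ : ℝ) (p q : ℝ → ℝ), 0 < w →
    (∀ x ∈ Set.Ioo 0 w, HasDerivAt p (q x) x ∧ q x ^ 2 = 4 * p x ^ 3 - c₂ * p x - c₃) →
    ContinuousAt p w → (∀ x ∈ Set.Ioo 0 w, q x < 0) → Tendsto p (𝓝[>] 0) atTop → p w = 1 →
    ∫ x in Set.Ioi (1 : ℝ), 1 / Real.sqrt (4 * x ^ 3 - c₂ * x - c₃) = w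

/-- [EBIN]: the integrals are beta values.
Proof. Substitution `x = u ^ (-1 / 2)`: the first integral is
`(1 / 4) ∫_0^1 u ^ (1 / 4 - 1) (1 - u) ^ (1 / 2 - 1) du`. Substitution `x = u ^ (-1 / 3)`: the second
one is `(1 / 6) ∫_0^1 u ^ (1 / 6 - 1) (1 - u) ^ (1 / 2 - 1) du = B(1 / 6, 1 / 2) / 6`, and
`B(1 / 6, 1 / 2) = √3 B(1 / 3, 1 / 2)` by `Real.Gamma_mul_Gamma_one_sub`:
`Γ(1 / 6) Γ(5 / 6) = 2 π`, `Γ(1 / 3) Γ(2 / 3) = 2 π / √3`. Mathlib: `Complex.betaIntegral`,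
`Complex.Gamma_mul_Gamma_eq_betaIntegral`. -/
def St_EBIN : Prop :=
  (∫ x in Set.Ioi (1 : ℝ), 1 / Real.sqrt (4 * x ^ 3 - 4 * x - 0) = bet (1 / 4) (1 / 2) / 4) ∧
  ∫ x in Set.Ioi (1 : ℝ), 1 / Real.sqrt (4 * x ^ 3 - 0 * x - 4) =
    bet (1 / 3) (1 / 2) / (2 * Real.sqrt 3)

/-! ### 6. The result of the block -/

/-- [EDAT]: the analytic data.
Proof. [ESCA] gives `v`, `τ`; `L = pair v τ h`; `P = ℘`, `Pd = ℘'`, `Z = zet L`, `g = tht v τ`, `η` from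
[EQPD], `A`, `B`, `C`, `ε` from [EGAB], `c = 2` or `c = 0` ([EODE]), `leg` from [ELEG4], [ELEG6], `halfP`,
`halfPd` from [EPRA], `off` from [ELAT] (`ε < v / 2`). `v / 2` is the integral of [EPRB] (for
`w = v / 2`), its value is in [EBIN]: `v = B(1 / 4, 1 / 2) / 2` or `v = B(1 / 3, 1 / 2) / √3`. -/
def St_EDAT : Prop :=
  (∃ D : Dat, D.v = per 4 / 2) ∧ ∃ D : Dat, D.v = per 6 / Real.sqrt 3

end Pool.Agent.QP
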